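import Mathlib

namespace Pool.Agent.Lib.MP_8d6beb_co

open Finset

/-- rectangles stacked along walls: `col` names the wall, `tm` is the position along it. -/
structure Ln (Q : Type) where
  col : Q → ℤ
  tm : Q → ℤ
  wd : Q → ℤ
  inj : ∀ a b, col a = col b → tm a = tm b → a = b
  tie : ∀ a b, col a = col b → tm a < tm b → wd a = wd b →
    ∃ m, col m = col a ∧ tm a < tm m ∧ tm m < tm b ∧ wd m < wd a

namespace Ln

variable {Q : Type} (L : Ln Q)

def rev : Ln Q where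
  col := L.col
  tm a := - L.tm a
  wd := L.wd
  inj a b h1 h2 := L.inj a b h1 (by omega)
  tie a b h1 h2 h3 := by
    obtain ⟨m, a1, a2, a3, a4⟩ := L.tie b a h1.symm (by omega) h3.symm
    exact ⟨m, by omega, by omega, by omega, by omega⟩

theorem rev_rev : L.rev.rev = L := by
  cases L
  simp [rev]

def Af (a b : Q) : Prop := L.col b = L.col a ∧ L.tm a < L.tm b

/-- next narrower rectangle. -/
def Nx (a b : Q) : Prop := L.Af a b ∧ L.wd b < L.wd a ∧ ∀ m, L.Af a m → L.Af m b → L.wd a ≤ L.wd m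

/-- the successor is wider. -/
def Op (a : Q) : Prop := ∃ b, L.Af a b ∧ L.wd a < L.wd b ∧ ∀ m, L.Af a m → ¬ L.Af m b

/-- the end of `a` is glued to the flank of `b`. -/
def Gl (a b : Q) : Prop := L.rev.Nx b a ∧ ∀ c, L.Nx b c → L.wd c < L.wd a

variable {L}

theorem af_rev {a b : Q} : L.rev.Af a b ↔ L.Af b a := by
  simp only [Af, rev]; omega

theorem tri {a b : Q} (h : L.col a = L.col b) : L.Af a b ∨ a = b ∨ L.Af b a := by
  rcases lt_trichotomy (L.tm a) (L.tm b) with g | g | g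
  · exact Or.inl ⟨h.symm, g⟩
  · exact Or.inr (Or.inl (L.inj a b h g))
  · exact Or.inr (Or.inr ⟨h, g⟩)

theorem Nx.uniq {a b c : Q} (h1 : L.Nx a b) (h2 : L.Nx a c) : b = c := by
  rcases tri (h1.1.1.trans h2.1.1.symm) with g | g | g
  · have := h2.2.2 b h1.1 g; have := h1.2.1; omega
  · exact g
  · have := h1.2.2 c h2.1 g; have := h2.2.1; omega

theorem first [Finite Q] (P : Q → Prop) (h : ∃ b, P b) : ∃ b, P b ∧ ∀ c, P c → L.tm b ≤ L.tm c := by
  obtain ⟨b, hb, hm⟩ := Set.exists_min_image {b | P b} L.tm (Set.toFinite _) h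
  exact ⟨b, hb, hm⟩

theorem exists_nx [Finite Q] {a b : Q} (h : L.Af a b) (hw : L.wd b < L.wd a) :
    ∃ c, L.Nx a c ∧ L.tm c ≤ L.tm b := by
  obtain ⟨c, ⟨c1, c2⟩, hm⟩ := L.first (fun c => L.Af a c ∧ L.wd c < L.wd a) ⟨b, h, hw⟩
  refine ⟨c, ⟨c1, c2, fun m m1 m2 => ?_⟩, hm b ⟨h, hw⟩⟩
  by_contra g
  have := hm m ⟨m1, not_le.1 g⟩
  have := m2.2
  omega

theorem nx_rev {a b : Q} : L.rev.Nx b a ↔
    L.Af a b ∧ L.wd a < L.wd b ∧ ∀ m, L.Af a m → L.Af m b → L.wd b ≤ L.wd m := by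
  simp only [Nx, af_rev]
  exact ⟨fun h => ⟨h.1, h.2.1, fun m a b => h.2.2 m b a⟩, fun h => ⟨h.1, h.2.1, fun m a b => h.2.2 m b a⟩⟩

theorem Gl.op [Finite Q] {a b : Q} (h : L.Gl a b) : L.Op a := by
  obtain ⟨h1, h2, h3⟩ := nx_rev.1 h.1
  obtain ⟨c, c1, hm⟩ := L.first (fun c => L.Af a c) ⟨b, h1⟩
  refine ⟨c, c1, ?_, fun m m1 m2 => by have := hm m m1; have := m2.2; omega⟩
  rcases tri (c1.1.trans h1.1.symm) with g | g | g
  · have := h3 c c1 g; omega
  · rw [g]; exact h2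
  · have := hm b h1; have := g.2; omega

theorem Op.gl [Finite Q] {a : Q} (h : L.Op a) : ∃ b, L.Gl a b := by
  obtain ⟨c, c1, c2, c3⟩ := h
  obtain ⟨b, ⟨b1, b2, b3⟩, hm⟩ := Set.exists_min_image
    {b | L.Af a b ∧ L.wd a < L.wd b ∧ ∀ m, L.Af a m → L.Af m b → L.wd a < L.wd m} L.wd
    (Set.toFinite _) ⟨c, c1, c2, fun m m1 m2 => absurd m2 (c3 m m1)⟩
  refine ⟨b, nx_rev.2 ⟨b1, b2, fun m m1 m2 => hm m ⟨m1, b3 m m1 m2, fun k k1 k2 =>
    b3 k k1 ⟨by have := m2.1; have := k2.1; omega, k2.2.trans m2.2⟩⟩⟩, fun d hd => ?_⟩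
  obtain ⟨d1, d2, d3⟩ := hd
  have ad : L.Af a d := ⟨d1.1.trans b1.1, b1.2.trans d1.2⟩
  have bet : ∀ m, L.Af a m → L.Af m d → L.wd a < L.wd m := by
    intro m m1 m2
    rcases tri (m1.1.trans b1.1.symm) with g | g | g
    · exact b3 m m1 g
    · rw [g]; exact b2
    · have := d3 m g m2; omega
  rcases lt_trichotomy (L.wd d) (L.wd a) with g | g | g
  · exact g
  · obtain ⟨m, m1, m2, m3, m4⟩ := L.tie a d ad.1.symm ad.2 g.symm
    have := bet m ⟨m1, m2⟩ ⟨ad.1.trans m1.symm, m3⟩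
    omega
  · have := hm d ⟨ad, g, bet⟩
    omega

theorem Gl.nx [Finite Q] {a b : Q} (h : L.Gl a b) (m : Q) : L.Nx b m ↔ L.Nx a m := by
  obtain ⟨h1, h2, h3⟩ := nx_rev.1 h.1
  have fw : ∀ m, L.Nx b m → L.Nx a m := by
    intro m g
    refine ⟨⟨g.1.1.trans h1.1, h1.2.trans g.1.2⟩, h.2 m g, fun k k1 k2 => ?_⟩
    rcases tri (k1.1.trans h1.1.symm) with e | e | e
    · have := h3 k k1 e; omega
    · rw [e]; omega
    · have := g.2.2 k e k2; omega
  refine ⟨fw m, fun g => ?_⟩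
  have g2 := g.2.1
  rcases tri (g.1.1.trans h1.1.symm) with e | e | e
  · have := h3 m g.1 e; omega
  · subst e; omega
  · obtain ⟨d, d1, _⟩ := exists_nx e (by omega)
    rwa [g.uniq (fw d d1)]

theorem Gl.uniq [Finite Q] {a b c : Q} (h1 : L.Gl a b) (h2 : L.Gl a c) : b = c := by
  have key : ∀ {b c : Q}, L.Gl a b → L.Gl a c → ¬ L.Af b c := by
    intro b c h1 h2 g
    obtain ⟨b1, b2, b3⟩ := nx_rev.1 h1.1
    obtain ⟨c1, c2, c3⟩ := nx_rev.1 h2.1
    have e1 := c3 b b1 g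
    have nb : ∀ m, L.Af b m → L.tm m ≤ L.tm c → L.wd b ≤ L.wd m := by
      intro m m1 m2
      by_contra f
      obtain ⟨d, d1, d2⟩ := exists_nx m1 (not_le.1 f)
      have f1 := h1.2 d d1
      have ad : L.Af a d := ⟨d1.1.1.trans b1.1, b1.2.trans d1.1.2⟩
      rcases tri (ad.1.trans c1.1.symm) with e | e | e
      · have := c3 d ad e; omega
      · subst e; omega
      · have := e.2; omega
    have e2 := nb c g le_rfl
    obtain ⟨m, m1, m2, m3, m4⟩ := L.tie b c g.1.symm g.2 (by omega)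
    have := nb m ⟨m1, m2⟩ m3.le
    omega
  rcases tri ((nx_rev.1 h1.1).1.1.trans (nx_rev.1 h2.1).1.1.symm) with g | g | g
  · exact absurd g (key h1 h2)
  · exact g
  · exact absurd g (key h2 h1)

theorem Gl.uniq' {a b c : Q} (h1 : L.Gl a c) (h2 : L.Gl b c) : a = b := h1.1.uniq h2.1

theorem Gl.not_rev {a b c : Q} (h1 : L.Gl a c) (h2 : L.rev.Gl b c) : False := by
  have e1 := h2.2 a h1.1
  have e2 := h1.2 b (by have := h2.1; rwa [rev_rev] at this)
  change L.wd a < L.wd b at e1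
  omega

theorem Nx.gl {a b : Q} (h : L.Nx a b) : (∃ c, L.Gl c a) ∨ ∃ c, L.rev.Gl c a := by
  by_cases g : ∀ c, L.rev.Nx a c → L.wd c < L.wd b
  · exact Or.inr ⟨b, by rwa [rev_rev], g⟩
  · push Not at g
    obtain ⟨c, c1, c2⟩ := g
    refine Or.inl ⟨c, c1, fun d hd => ?_⟩
    obtain rfl := hd.uniq h
    obtain ⟨e1, e2, e3⟩ := nx_rev.1 c1
    rcases c2.eq_or_lt with f | f
    · obtain ⟨m, m1, m2, m3, m4⟩ := L.tie c d (h.1.1.trans e1.1).symm (e1.2.trans h.1.2) f.symm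
      rcases tri (m1.trans e1.1.symm) with k | k | k
      · have := e3 m ⟨m1, m2⟩ k; omega
      · subst k; omega
      · have := h.2.2 m k ⟨h.1.1.trans k.1.symm, m3⟩; omega
    · exact f

theorem min_uniq [Finite Q] {a b : Q} (h : L.col a = L.col b) (a1 : ∀ c, ¬ L.Nx a c)
    (a2 : ∀ c, ¬ L.rev.Nx a c) (b1 : ∀ c, ¬ L.Nx b c) (b2 : ∀ c, ¬ L.rev.Nx b c) : a = b := by
  have key : ∀ {a b : Q}, (∀ c, ¬ L.Nx a c) → (∀ c, ¬ L.rev.Nx b c) → ¬ L.Af a b := by
    intro a b a1 b2 g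
    rcases lt_trichotomy (L.wd a) (L.wd b) with e | e | e
    · obtain ⟨c, c1, _⟩ := exists_nx (L := L.rev) (af_rev.2 g) e
      exact b2 c c1
    · obtain ⟨m, m1, m2, m3, m4⟩ := L.tie a b g.1.symm g.2 e
      obtain ⟨c, c1, _⟩ := exists_nx ⟨m1, m2⟩ m4
      exact a1 c c1
    · obtain ⟨c, c1, _⟩ := exists_nx g e
      exact a1 c c1
  rcases tri h with g | g | g
  · exact absurd g (key a1 b2)
  · exact g
  · exact absurd g (key b1 a2)

theorem Nx.op_rev [Finite Q] {a b : Q} (h : L.Nx a b) : L.rev.Op b := by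
  obtain ⟨c, c1, hm⟩ := L.rev.first (fun c => L.rev.Af b c) ⟨a, af_rev.2 h.1⟩
  refine ⟨c, c1, ?_, fun m m1 m2 => by have := hm m m1; have := m2.2; omega⟩
  have e := h.2.1
  change L.wd b < L.wd c
  rcases tri (L := L) (a := c) (b := a) (c1.1.trans h.1.1) with g | g | g
  · have := hm a (af_rev.2 h.1)
    have := (af_rev.2 g).2
    omega
  · rw [g]; exact e
  · have := h.2.2 c g (af_rev.1 c1); omega

theorem exists_last [Finite Q] (a : Q) : ∃ l, L.col l = L.col a ∧ ∀ m, ¬ L.Af l m := by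
  obtain ⟨l, l1, hm⟩ := L.rev.first (fun c => L.col c = L.col a) ⟨a, rfl⟩
  refine ⟨l, l1, fun m g => ?_⟩
  have := hm m (g.1.trans l1)
  have := (af_rev.2 g).2
  omega

theorem last_uniq {a b : Q} (h : L.col a = L.col b) (ha : ∀ m, ¬ L.Af a m) (hb : ∀ m, ¬ L.Af b m) :
    a = b := by
  rcases tri h with g | g | g
  · exact absurd g (ha b)
  · exact g
  · exact absurd g (hb a)

open Classical in
/-- value at the next narrower rectangle, or zero. -/
noncomputable def wn [Fintype Q] (L : Ln Q) (W : Q → ZMod 2) (a : Q) : ZMod 2 :=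
  ∑ b ∈ univ.filter (L.Nx a), W b

theorem wn_of [Fintype Q] {W : Q → ZMod 2} {a b : Q} (h : L.Nx a b) : L.wn W a = W b := by
  classical
  unfold wn
  rw [sum_eq_single b]
  · intro c hc g
    exact absurd ((mem_filter.1 hc).2.uniq h) g
  · intro g
    exact absurd (mem_filter.2 ⟨mem_univ _, h⟩) g

theorem wn_none [Fintype Q] {W : Q → ZMod 2} {a : Q} (h : ∀ b, ¬ L.Nx a b) : L.wn W a = 0 :=
  sum_eq_zero (fun b hb => by
    classical
    exact absurd (mem_filter.1 hb).2 (h b))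

theorem wn_congr [Fintype Q] {W W' : Q → ZMod 2} {a : Q} (h : ∀ b, L.wd b < L.wd a → W b = W' b) :
    L.wn W a = L.wn W' a :=
  sum_congr rfl (fun b hb => by
    classical
    exact h b (mem_filter.1 hb).2.2.1)

end Ln

theorem wd_ind {Q : Type} [Finite Q] (wd : Q → ℤ) (P : Q → Prop)
    (h : ∀ a, (∀ b, wd b < wd a → P b) → P a) (a : Q) : P a := by
  by_contra g
  obtain ⟨b, hb, hm⟩ := Set.exists_min_image {b | ¬ P b} wd (Set.toFinite _) ⟨a, g⟩
  refine hb (h b (fun c hc => ?_))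
  by_contra f
  have := hm c f
  omega

/-- the four wall systems: `F v s` runs in direction `v` along the walls on side `s`. -/
structure Fam (Q : Type) where
  F : Bool → Bool → Ln Q
  wd : Q → ℤ
  hwd : ∀ v s, (F v s).wd = wd
  hrev : ∀ v s, F (!v) s = (F v s).rev
  ends : ∀ v s a b, (F v s).Op a → ¬ (F v (!s)).Af a b

theorem Fam.solve {Q : Type} [Fintype Q] (D : Fam Q) (zl zv : Bool → Q → ZMod 2)
    (h0 : ∀ a, zl false a + zl true a + zv false a + zv true a = 0)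
    (h1 : ∀ v s a b, (D.F v s).Gl a b → zv v a = zl s b)
    (h2 : ∀ s a, (∀ v b, ¬ (D.F v s).Nx a b) → zl s a = 0) :
    ∃ W : Q → ZMod 2, (∀ v a, zv v a = W a + (D.F v false).wn W a + (D.F v true).wn W a) ∧
      ∀ s a, zl s a = (D.F false s).wn W a + (D.F true s).wn W a := by
  classical
  have two : ∀ x : ZMod 2, x + x = 0 := by decide
  have inj : Function.Injective (fun (W : Q → ZMod 2) a =>
      W a + (D.F true false).wn W a + (D.F true true).wn W a) := by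
    intro W W' h
    funext a
    induction a using wd_ind D.wd with
    | h a ih =>
      have e := congrFun h a
      simp only at e
      rw [Ln.wn_congr (W' := W') (by rw [D.hwd]; exact ih),
        Ln.wn_congr (L := D.F true true) (W' := W') (by rw [D.hwd]; exact ih)] at e
      exact add_right_cancel (add_right_cancel e)
  obtain ⟨W, hW⟩ := Finite.injective_iff_surjective.1 inj (zv true)
  have hW' : ∀ a, zv true a = W a + (D.F true false).wn W a + (D.F true true).wn W a :=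
    fun a => (congrFun hW a).symm
  have lat : ∀ s a, (∀ v b, D.wd b < D.wd a →
      zv v b = W b + (D.F v false).wn W b + (D.F v true).wn W b) →
      zl s a = (D.F false s).wn W a + (D.F true s).wn W a := by
    intro s a ih
    by_cases g : ∀ v b, ¬ (D.F v s).Nx a b
    · rw [h2 s a g, Ln.wn_none (g false), Ln.wn_none (g true), add_zero]
    · push Not at g
      obtain ⟨v, b, g⟩ := g
      have : ∃ v c, (D.F v s).Gl c a := by
        rcases g.gl with ⟨c, f⟩ | ⟨c, f⟩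
        · exact ⟨v, c, f⟩
        · exact ⟨!v, c, by rwa [D.hrev]⟩
      obtain ⟨v, c, f⟩ := this
      have e1 : D.wd c < D.wd a := by rw [← D.hwd v s]; exact (Ln.nx_rev.1 f.1).2.1
      have e2 : (D.F v (!s)).wn W c = 0 := Ln.wn_none (fun b hb => D.ends v s c b f.op hb.1)
      have e3 : (D.F (!v) s).wn W a = W c := Ln.wn_of (by rw [D.hrev]; exact f.1)
      have e4 : (D.F v s).wn W a = (D.F v s).wn W c := by
        unfold Ln.wn
        rw [filter_congr (fun m _ => f.nx m)]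
      rw [← h1 v s c a f, ih v c e1]
      cases v <;> cases s <;> simp only [Bool.not_true, Bool.not_false] at e2 e3 <;>
        rw [e2, e3, e4] <;> ring
  have all : ∀ a v, zv v a = W a + (D.F v false).wn W a + (D.F v true).wn W a := by
    intro a
    induction a using wd_ind D.wd with
    | h a ih =>
      intro v
      cases v
      · have e1 := lat false a (fun v b hb => ih b hb v)
        have e2 := lat true a (fun v b hb => ih b hb v)
        have e3 := h0 a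
        rw [e1, e2, hW'] at e3
        linear_combination e3 - two (W a) - two ((D.F false false).wn W a) -
          two ((D.F false true).wn W a) - two ((D.F true false).wn W a) -
          two ((D.F true true).wn W a)
      · exact hW' a
  exact ⟨W, fun v a => all a v, fun s a => lat s a (fun v b _ => all b v)⟩

theorem Fam.exists_lab {Q P : Type} [Finite Q] (D : Fam Q) (pt : Bool → Bool → Q → P) :
    ∃ lab : Bool → Bool → Q → P,
      (∀ v s a, (∃ b, (D.F v s).Nx a b ∧ lab v s a = pt (!v) (!s) b ∧ ∀ m, ¬ (D.F (!v) (!s)).Af b m) ∨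
        ((∀ b, ¬ (D.F v s).Nx a b) ∧ ∃ l, (D.F v s).col l = (D.F v s).col a ∧ lab v s a = pt v s l ∧
          ∀ m, ¬ (D.F v s).Af l m)) ∧
      ∀ v s a b, (D.F v s).Gl a b → lab (!v) s b = lab v (!s) a ∧ lab v s b = lab v s a := by
  have ex : ∀ v s a, ∃ p, (∃ b, (D.F v s).Nx a b ∧ p = pt (!v) (!s) b ∧
      ∀ m, ¬ (D.F (!v) (!s)).Af b m) ∨ ((∀ b, ¬ (D.F v s).Nx a b) ∧
      ∃ l, (D.F v s).col l = (D.F v s).col a ∧ p = pt v s l ∧ ∀ m, ¬ (D.F v s).Af l m) := by
    intro v s a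
    by_cases g : ∃ b, (D.F v s).Nx a b
    · obtain ⟨b, g⟩ := g
      exact ⟨_, Or.inl ⟨b, g, rfl, fun m => D.ends (!v) s b m (by rw [D.hrev]; exact g.op_rev)⟩⟩
    · obtain ⟨l, l1, l2⟩ := (D.F v s).exists_last a
      exact ⟨_, Or.inr ⟨fun b f => g ⟨b, f⟩, l, l1, rfl, l2⟩⟩
  choose lab hlab using ex
  refine ⟨lab, hlab, fun v s a b h => ⟨?_, ?_⟩⟩
  · have e := fun m => D.ends v s a m h.op
    have n : (D.F (!v) s).Nx b a := by rw [D.hrev]; exact h.1
    rcases hlab (!v) s b with ⟨c, c1, c2, _⟩ | ⟨c1, _⟩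
    · rw [c2, c1.uniq n, Bool.not_not]
      rcases hlab v (!s) a with ⟨d, d1, _⟩ | ⟨_, l, l1, l2, l3⟩
      · exact absurd d1.1 (e d)
      · rw [l2, Ln.last_uniq l1 l3 e]
    · exact absurd n (c1 a)
  · rcases hlab v s b with ⟨c, c1, c2, _⟩ | ⟨c1, l, l1, l2, l3⟩
    · rcases hlab v s a with ⟨d, d1, d2, _⟩ | ⟨d1, _⟩
      · rw [c2, d2, d1.uniq ((h.nx c).1 c1)]
      · exact absurd ((h.nx c).1 c1) (d1 c)
    · rcases hlab v s a with ⟨d, d1, _⟩ | ⟨_, k, k1, k2, k3⟩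
      · exact absurd ((h.nx d).2 d1) (c1 d)
      · rw [l2, k2, Ln.last_uniq (l1.trans ((Ln.nx_rev.1 h.1).1.1.trans k1.symm)) l3 k3]

end Pool.Agent.Lib.MP_8d6beb_co
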