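import Pool.Agent.Lib.MP_8d6beb_co.QDual

/-! From connected complexes to all complexes. -/

namespace Pool.Agent.Lib.MP_8d6beb_co

open Finset Module

namespace Cx

variable {ι : Type} [Fintype ι] [DecidableEq ι] (K : Cx ι)

theorem res_closed (hK : K.Valid) (hd : K.dis = ∅) (U : Finset ι)
    (hU : ∀ d, d.1 ∈ U ↔ (K.a d).1 ∈ U) : (K.res U ∅).Valid := by
  have two : ∀ x : ZMod 2, x + x = 0 := by decide
  have e1 : ∀ d, d.1 ∈ U → (K.res U ∅).a d = K.a d := fun d g => if_pos ⟨g, (hU d).1 g⟩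
  have e2 : ∀ d, d.1 ∉ U → (K.res U ∅).a d = d := fun d g => if_neg (fun e => g e.1)
  have dis : (K.res U ∅).dis = ∅ := by simp [res, ds, hd]
  refine ⟨fun d g => ?_, fun Z h1 h2 h3 => ?_, fun d => ?_, by simp [dis], by simp [dis],
    by simp [dis], by simp [dis], by simp [dis], by simp [res]⟩
  · by_cases f : d.1 ∈ U
    · rw [e1 d f] at g ⊢; exact hK.par d g
    · exact absurd (e2 d f) g
  · have z0 : ∀ d, d.1 ∉ U → Z d = 0 := fun d g => h2 d (e2 d g)
    obtain ⟨f, hf⟩ := hK.planar Z (fun d => by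
        by_cases g : d.1 ∈ U
        · rw [← e1 d g, h1]
        · rw [z0 d g, z0 _ (fun e => g ((hU d).2 e))])
      (fun d e => by
        by_cases g : d.1 ∈ U
        · exact h2 d ((e1 d g).trans e)
        · exact z0 d g)
      (fun k hk => by
        rw [← h3 (fun d => if d.1 ∈ U then k d else 0) (fun d => by
          by_cases g : d.1 ∈ U
          · rw [phi_apply, e1 d g, if_pos g, if_pos (by exact (hU d).1 g), ← phi_apply, hk]
          · rw [phi_apply, e2 d g, if_neg g, if_neg (by exact g)])]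
        refine sum_congr rfl (fun d _ => ?_)
        by_cases g : d.1 ∈ U
        · rw [if_pos g]
        · rw [z0 d g, mul_zero, mul_zero])
    refine ⟨f, fun d => ?_⟩
    by_cases g : d.1 ∈ U
    · rw [e1 d g, hf]
    · rw [e2 d g, z0 d g, two]
  · by_cases g : d.1 ∈ U
    · obtain ⟨d', h1, h2⟩ := hK.hasFree d
      obtain ⟨n, rfl⟩ := h1.exists_nat_pow_eq
      have key : ∀ n : ℕ, ((K.res U ∅).phi ^ n) d = (K.phi ^ n) d ∧ ((K.phi ^ n) d).1 ∈ U := by
        intro n
        induction n with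
        | zero => exact ⟨rfl, g⟩
        | succ n ih =>
          rw [pow_succ', pow_succ', Equiv.Perm.mul_apply, Equiv.Perm.mul_apply, ih.1, phi_apply,
            phi_apply, e1 _ ih.2]
          exact ⟨rfl, (hU _).1 ih.2⟩
      exact ⟨_, ⟨n, by rw [zpow_natCast, (key n).1]⟩, (e1 _ (key n).2).trans h2⟩
    · exact ⟨d, Equiv.Perm.SameCycle.refl _ _, e2 d g⟩

theorem hit_bound (core : ∀ K : Cx ι, K.Valid → K.Conn → K.Good)
    (hd : K.dis = ∅) (hm : K.mrk = ∅) (hpar : ∀ d, K.a d ≠ d → (K.a d).2.val % 2 ≠ d.2.val % 2)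
    (hfree : ∀ d, ∃ d', K.Fc d d' ∧ K.a d' = d') {h : ℕ} (k : Dart ι → Fin (h + 1))
    (H : ∀ Z : Dart ι → ZMod 2, (∀ d, Z (K.a d) = Z d) → (∀ d, K.a d = d → Z d = 0) →
      (∀ q, ∑ i, Z (q, i) = 0) → ∃ Y : Fin (h + 1) → ZMod 2, (∀ d, Y (k (K.phi d)) = Y (k d)) ∧
        ∀ d, Z d = Y (k d) + Y (k (K.a d))) :
    ∃ X : Finset (Dart ι), 4 * X.card ≤ (K.fr univ).card + h ∧ ∀ q, ∃ i, ∃ x ∈ X, K.Vx x (q, i) := by
  classical
  have hK : K.Valid := ⟨hpar, K.planar_of_dual (fun Z a b c => by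
      obtain ⟨Y, h1, h2⟩ := H Z a b c
      exact ⟨fun d => Y (k d), h1, h2⟩), hfree, by simp [hd], by simp [hd], by simp [hd],
    by simp [hd], by simp [hd], by simp [hm]⟩
  let r : ι → ι → Prop := fun p q => ∃ d : Dart ι, d.1 = p ∧ (K.a d).1 = q
  let C := Quot r
  haveI : Fintype C := Fintype.ofFinite C
  let c : ι → C := Quot.mk r
  have hca : ∀ d, c (K.a d).1 = c d.1 := fun d => (Quot.sound ⟨d, rfl, rfl⟩).symm
  have rb := K.rank_bound k (fun Z a b c => by
    obtain ⟨Y, _, h2⟩ := H Z a b c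
    exact ⟨Y, h2⟩) c Quot.mk_surjective hca
  let U : C → Finset ι := fun x => univ.filter (fun q => c q = x)
  have hU : ∀ x d, d.1 ∈ U x ↔ (K.a d).1 ∈ U x := fun x d => by simp [U, hca]
  have e1 : ∀ x d, d.1 ∈ U x → (K.res (U x) ∅).a d = K.a d := fun x d g => if_pos ⟨g, (hU x d).1 g⟩
  have good : ∀ x, (K.res (U x) ∅).Good := by
    intro x
    refine core _ (K.res_closed hK hd _ (hU x)) (fun T hT ⟨q0, h0⟩ hcl => ?_)
    have step : ∀ d : Dart ι, d.1 ∈ T → (K.a d).1 ∈ T := fun d g => by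
      have g1 := hT g
      rw [← e1 x d g1]
      exact hcl d g (by rw [e1 x d g1]; exact (hU x d).1 g1)
    have all : ∀ p q, Relation.EqvGen r p q → (p ∈ T ↔ q ∈ T) := by
      intro p q e
      induction e with
      | rel _ _ e =>
        obtain ⟨d, rfl, rfl⟩ := e
        exact ⟨step d, fun g => by have := step _ g; rwa [K.inv] at this⟩
      | refl => rfl
      | symm _ _ _ ih => exact ih.symm
      | trans _ _ _ _ _ i1 i2 => exact i1.trans i2
    refine Subset.antisymm hT (fun q hq => (all q0 q (Quot.eqvGen_exact ?_)).1 h0)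
    exact (mem_filter.1 (hT h0)).2.trans (mem_filter.1 hq).2.symm
  choose X h1 h2 using good
  refine ⟨univ.biUnion X, ?_, fun q => ?_⟩
  · have a1 : (univ.biUnion X).card ≤ ∑ x, (X x).card := card_biUnion_le
    have a2 : ∑ x, 8 * (X x).card ≤ ∑ x, (2 * (U x).card +
        ((K.fr univ).filter (fun d => c d.1 = x)).card + 2) := by
      refine sum_le_sum (fun x _ => (h2 x).trans ?_)
      have b : (K.res (U x) ∅).fr (U x) ⊆ (K.fr univ).filter (fun d => c d.1 = x) := by
        intro d g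
        have g1 := (mem_filter.1 g).2
        rw [e1 x d g1.1] at g1
        exact mem_filter.2 ⟨mem_filter.2 ⟨mem_univ _, mem_univ _, g1.2⟩, (mem_filter.1 g1.1).2⟩
      have := card_le_card b
      have e : (K.res (U x) ∅).W = 2 * (U x).card + ((K.res (U x) ∅).fr (U x)).card := by
        simp [W, res, ds, hd]
      omega
    have a3 : (univ : Finset ι).card = ∑ x, (U x).card :=
      card_eq_sum_card_fiberwise (fun _ _ => mem_univ _)
    have a4 : (K.fr univ).card = ∑ x, ((K.fr univ).filter (fun d => c d.1 = x)).card :=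
      card_eq_sum_card_fiberwise (fun _ _ => mem_univ _)
    rw [sum_add_distrib, sum_add_distrib, ← mul_sum, ← mul_sum, ← a3, ← a4, sum_const, card_univ,
      card_univ, smul_eq_mul] at a2
    omega
  · obtain ⟨i, _, x, x1, x2⟩ := (h1 (c q)).1 q (mem_filter.2 ⟨mem_univ _, rfl⟩)
    refine ⟨i, x, mem_biUnion.2 ⟨_, mem_univ _, x1⟩, Relation.EqvGen.mono (fun u w g => ?_) _ _ x2⟩
    have g1 : u.1 ∈ U (c q) := by
      by_contra f
      exact g.1 (if_neg (fun e => f e.1))
    rw [phi_apply, e1 _ u g1] at g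
    exact g

end Cx

end Pool.Agent.Lib.MP_8d6beb_co
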