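import Pool.Agent.Lib.MP_8d6beb_co.Rects2
import Pool.Agent.Lib.MP_8d6beb_co.Count

namespace Pool.Agent.Lib.MP_8d6beb_co

open Finset

theorem exists_inv {α : Type} (R : α → α → Prop) (hs : ∀ x y, R x y → R y x)
    (hu : ∀ x y z, R x y → R x z → y = z) : ∃ a : α → α, (∀ x, a (a x) = x) ∧
      (∀ x y, R x y → a x = y) ∧ ∀ x, a x = x ∨ R x (a x) := by
  have ex : ∀ x, ∃ y, (∀ z, R x z → y = z) ∧ (y = x ∨ R x y) := by
    intro x
    by_cases g : ∃ y, R x y
    · obtain ⟨y, g⟩ := g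
      exact ⟨y, fun z e => hu x y z g e, Or.inr g⟩
    · exact ⟨x, fun z e => absurd ⟨z, e⟩ g, Or.inl rfl⟩
  choose a h1 h2 using ex
  refine ⟨a, fun x => ?_, h1, h2⟩
  rcases h2 x with g | g
  · rw [g, g]
  · exact h1 _ _ (hs _ _ g)

/-- index of the bottom or top side. -/
def vs (v : Bool) : Fin 4 := match v with
  | true => 2
  | false => 0

/-- index of the left or right side. -/
def ls (t : Bool) : Fin 4 := match t with
  | true => 1
  | false => 3

def Fam.GR {Q : Type} (D : Fam Q) (d d' : Dart Q) : Prop :=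
  ∃ v t, (d.2 = vs v ∧ d'.2 = ls t ∧ (D.F v t).Gl d.1 d'.1) ∨
    (d'.2 = vs v ∧ d.2 = ls t ∧ (D.F v t).Gl d'.1 d.1)

def labc {Q P : Type} (lab : Bool → Bool → Q → P) (d : Dart Q) : P :=
  ![lab false false d.1, lab false true d.1, lab true true d.1, lab true false d.1] d.2

theorem vs_ne_ls : ∀ v t, vs v ≠ ls t := by decide
theorem vs_inj : ∀ v t, vs v = vs t → v = t := by decide
theorem ls_inj : ∀ v t, ls v = ls t → v = t := by decide
theorem vs_or_ls : ∀ i : Fin 4, (∃ v, i = vs v) ∨ ∃ t, i = ls t := by decide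
theorem bool_cases : ∀ t t' : Bool, t' = t ∨ t' = !t := by decide

theorem Fam.GR.symm {Q : Type} {D : Fam Q} {d d' : Dart Q} (h : D.GR d d') : D.GR d' d := by
  obtain ⟨v, t, h⟩ := h
  exact ⟨v, t, h.symm⟩

theorem Fam.GR.lab {Q P : Type} {D : Fam Q} {lab : Bool → Bool → Q → P}
    (hl : ∀ v s a b, (D.F v s).Gl a b → lab (!v) s b = lab v (!s) a ∧ lab v s b = lab v s a)
    {d d' : Dart Q} (h : D.GR d d') : labc lab (sg d') = labc lab d := by
  obtain ⟨p, i⟩ := d
  obtain ⟨q, j⟩ := d'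
  obtain ⟨v, t, ⟨h1, h2, h3⟩ | ⟨h1, h2, h3⟩⟩ := h <;> simp only at h1 h2 h3 <;> subst h1 h2 <;>
    obtain ⟨a1, a2⟩ := hl _ _ _ _ h3 <;> cases v <;> cases t <;>
    first | exact a1 | exact a2 | exact a1.symm | exact a2.symm

theorem Fam.exists_cx {Q : Type} [Fintype Q] [DecidableEq Q] (D : Fam Q) :
    ∃ K : Cx Q, K.dis = ∅ ∧ K.mrk = ∅ ∧ (∀ d, K.a d ≠ d → (K.a d).2.val % 2 ≠ d.2.val % 2) ∧
      (∀ d, ∃ d', K.Fc d d' ∧ K.a d' = d') ∧ (∀ d, K.a d = d ∨ D.GR d (K.a d)) ∧
      (∀ v t p q, (D.F v t).Gl p q → K.a (p, vs v) = (q, ls t)) ∧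
      (∀ v p, K.a (p, vs v) = (p, vs v) ↔ ∀ t, ¬ (D.F v t).Op p) ∧
      ∀ t p, K.a (p, ls t) = (p, ls t) ↔ ∀ v b, ¬ (D.F v t).Nx p b := by
  obtain ⟨a, a1, a2, a3⟩ := exists_inv D.GR (fun _ _ => Fam.GR.symm) (by
    rintro ⟨p, i⟩ ⟨q, j⟩ ⟨r, k⟩ ⟨v, t, h⟩ ⟨v', t', h'⟩
    simp only at h h'
    rcases h with ⟨rfl, rfl, h⟩ | ⟨rfl, rfl, h⟩ <;> rcases h' with ⟨e, rfl, h'⟩ | ⟨rfl, e, h'⟩
    · obtain rfl := vs_inj _ _ e
      rcases bool_cases t t' with rfl | rfl
      · rw [h.uniq h']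
      · exact absurd (Ln.nx_rev.1 h'.1).1 (D.ends _ _ _ _ h.op)
    · exact absurd e (vs_ne_ls _ _)
    · exact absurd e.symm (vs_ne_ls _ _)
    · obtain rfl := ls_inj _ _ e
      rcases bool_cases v v' with rfl | rfl
      · rw [h.uniq' h']
      · rw [D.hrev] at h'
        exact (h.not_rev h').elim)
  have gl : ∀ v t p q, (D.F v t).Gl p q → a (p, vs v) = (q, ls t) := fun v t p q h =>
    a2 _ _ ⟨v, t, Or.inl ⟨rfl, rfl, h⟩⟩
  have wd : ∀ v t p q, (D.F v t).Gl p q → D.wd p < D.wd q := fun v t p q h => by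
    rw [← D.hwd v t]; exact (Ln.nx_rev.1 h.1).2.1
  refine ⟨⟨univ, a, a1, by simp, ∅, ∅⟩, rfl, rfl, fun d g => ?_, fun d => ?_, a3, gl,
    fun v p => ⟨fun g t h => ?_, fun g => ?_⟩, fun t p => ⟨fun g v b h => ?_, fun g => ?_⟩⟩
  · obtain ⟨v, t, ⟨h1, h2, _⟩ | ⟨h1, h2, _⟩⟩ := (a3 d).resolve_left g <;> simp only <;>
      rw [h1, h2] <;> cases v <;> cases t <;> decide
  · induction d using wd_ind (fun d : Dart Q => if d.2.val % 2 = 0 then - D.wd d.1 else D.wd d.1) with
    | h d ih =>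
      rcases a3 d with g | g
      · exact ⟨d, Equiv.Perm.SameCycle.refl _ _, g⟩
      · obtain ⟨d', h1, h2⟩ := ih (sg (a d)) (by
          obtain ⟨v, t, ⟨h1, h2, h3⟩ | ⟨h1, h2, h3⟩⟩ := g
          · have := wd _ _ _ _ h3
            show (if ((a d).2 + 1).val % 2 = 0 then - D.wd (a d).1 else D.wd (a d).1) < _
            rw [h1, h2, if_pos (by cases t <;> decide), if_pos (by cases v <;> decide)]
            omega
          · have := wd _ _ _ _ h3
            show (if ((a d).2 + 1).val % 2 = 0 then - D.wd (a d).1 else D.wd (a d).1) < _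
            rw [h1, h2, if_neg (by cases v <;> decide), if_neg (by cases t <;> decide)]
            omega)
        exact ⟨d', Equiv.Perm.SameCycle.trans ⟨1, rfl⟩ h1, h2⟩
  · obtain ⟨q, h⟩ := h.gl
    exact vs_ne_ls _ _ (congrArg Prod.snd (g.symm.trans (gl _ _ _ _ h)))
  · refine (a3 _).resolve_right ?_
    rintro ⟨v', t, ⟨h1, _, h3⟩ | ⟨_, h2, _⟩⟩
    · obtain rfl := vs_inj _ _ h1
      exact g t h3.op
    · exact vs_ne_ls _ _ h2
  · have : ∃ v c, (D.F v t).Gl c p := by
      rcases h.gl with ⟨c, f⟩ | ⟨c, f⟩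
      · exact ⟨v, c, f⟩
      · exact ⟨!v, c, by rwa [D.hrev]⟩
    obtain ⟨v, c, f⟩ := this
    have e := a1 (c, vs v)
    rw [gl _ _ _ _ f] at e
    exact vs_ne_ls _ _ (congrArg Prod.snd (e.symm.trans g))
  · refine (a3 _).resolve_right ?_
    rintro ⟨v, t', ⟨h1, _, _⟩ | ⟨_, h2, h3⟩⟩
    · exact vs_ne_ls _ _ h1.symm
    · obtain rfl := ls_inj _ _ h2
      exact g (!v) _ (by rw [D.hrev]; exact h3.1)

section
variable {s : ℤ → ℤ → Prop} {M : ℤ}

theorem lines_le (hR : GReg s M) (V : Finset (ℤ × ℤ)) (hV : ∀ j c, Cn s j c → (j, c) ∈ V)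
    (A : Finset ℤ) (hA : ∀ j ∈ A, ∃ c, df s j c) : 2 * A.card ≤ V.card := by
  classical
  have ex : ∀ j ∈ A, ∃ l h, l < h ∧ Cn s j l ∧ Cn s j h := by
    intro j hj
    obtain ⟨l, l1, l2⟩ := Int.exists_least_of_bdd (P := df s j)
      ⟨-M, fun z hz => (df_bd hR.bd hz).2.2.1⟩ (hA j hj)
    obtain ⟨h, h1, h2⟩ := Int.exists_greatest_of_bdd (P := df s j)
      ⟨M, fun z hz => (df_bd hR.bd hz).2.2.2.le⟩ (hA j hj)
    refine ⟨l, h + 1, by have := l2 h h1; omega, fun e => ?_, fun e => ?_⟩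
    · have := l2 _ (e.2 l1); omega
    · have := h2 _ (e.1 (by rwa [add_sub_cancel_right])); omega
  choose! l h h1 h2 h3 using ex
  have dj : Disjoint (A.image (fun j => (j, l j))) (A.image (fun j => (j, h j))) := by
    rw [disjoint_left]
    intro e b1 b2
    obtain ⟨j, hj, rfl⟩ := mem_image.1 b1
    obtain ⟨k, _, g⟩ := mem_image.1 b2
    simp only [Prod.mk.injEq] at g
    have := h1 j hj
    rw [g.1] at g
    omega
  have := card_le_card (union_subset (s := A.image (fun j => (j, l j)))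
    (t := A.image (fun j => (j, h j))) (u := V)
    (fun e he => by obtain ⟨j, hj, rfl⟩ := mem_image.1 he; exact hV _ _ (h2 j hj))
    (fun e he => by obtain ⟨j, hj, rfl⟩ := mem_image.1 he; exact hV _ _ (h3 j hj)))
  rw [card_union_of_disjoint dj, card_image_of_injective _ (fun a b e => congrArg Prod.fst e),
    card_image_of_injective _ (fun a b e => congrArg Prod.fst e)] at this
  omega

theorem Gen.goal (G : Gen s M)
    (core : ∀ (ι : Type) [Fintype ι] [DecidableEq ι] (K : Cx ι), K.Valid → K.Conn → K.Good)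
    {h : ℕ} (hK : HK s h) : Goal s h := by
  classical
  intro V hV
  haveI := G.reg.rc_finite
  haveI : Fintype (Rc s) := Fintype.ofFinite _
  have two : ∀ x : ZMod 2, x + x = 0 := by decide
  obtain ⟨lab, l1, l2⟩ := G.fam.exists_lab Rc.pt
  obtain ⟨K, k1, k2, k3, k4, k5, k6, k7, k8⟩ := G.fam.exists_cx
  change ∀ v t p q, (G.F v t).Gl p q → _ at k6
  change ∀ v p, _ ↔ ∀ t, ¬ (G.F v t).Op p at k7
  change ∀ t p, _ ↔ ∀ v b, ¬ (G.F v t).Nx p b at k8
  have l3 : ∀ v t p, (∃ b, (G.F v t).Nx p b ∧ lab v t p = Rc.pt (!v) (!t) b ∧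
      ∀ m, ¬ (G.F (!v) (!t)).Af b m) ∨ ((∀ b, ¬ (G.F v t).Nx p b) ∧ ∃ l : Rc s, l.col t = p.col t ∧
        lab v t p = Rc.pt v t l ∧ ∀ m, ¬ (G.F v t).Af l m) := by
    intro v t p
    have := l1 v t p
    rwa [show (G.fam.F v t).col = Rc.col t from G.col_eq v t] at this
  have lc : ∀ d : Dart (Rc s), ∃ v t, labc lab d = lab v t d.1 := by
    rintro ⟨p, i⟩
    fin_cases i <;> exact ⟨_, _, rfl⟩
  have lphi : ∀ d, K.a d ≠ d → labc lab (K.phi d) = labc lab d := fun d g =>
    ((k5 d).resolve_left g).lab l2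
  obtain ⟨k, hk⟩ := hK
  have ch : ∀ x : ℤ × ℤ, ∃ y : ℤ × ℤ, ∀ j c, (j = x.1 ∨ j = x.1 - 1) → (c = x.2 ∨ c = x.2 - 1) →
      ¬ s j c → (y.1 = x.1 ∨ y.1 = x.1 - 1) ∧ (y.2 = x.2 ∨ y.2 = x.2 - 1) ∧ ¬ s y.1 y.2 := by
    intro x
    by_cases g : ∃ j c, (j = x.1 ∨ j = x.1 - 1) ∧ (c = x.2 ∨ c = x.2 - 1) ∧ ¬ s j c
    · obtain ⟨j, c, g⟩ := g
      exact ⟨(j, c), fun _ _ _ _ _ => g⟩
    · exact ⟨x, fun j c a b e => absurd ⟨j, c, a, b, e⟩ g⟩
  choose y hy using ch
  obtain ⟨X, x1, x2⟩ := K.hit_bound (core _) k1 k2 k3 k4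
    (fun d => k (y (labc lab d)).1 (y (labc lab d)).2) (by
      intro Z z1 z2 z3
      obtain ⟨W, w1, w2⟩ := G.fam.solve (fun t p => Z (p, ls t)) (fun v p => Z (p, vs v))
        (fun p => by
          have := z3 p
          rw [Fin.sum_univ_four] at this
          simp only [vs, ls]
          linear_combination this)
        (fun v t p q g => by rw [← k6 v t p q g, z1])
        (fun t p g => z2 _ ((k8 t p).2 g))
      change ∀ v p, _ = W p + (G.F v false).wn W p + (G.F v true).wn W p at w1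
      change ∀ t p, _ = (G.F false t).wn W p + (G.F true t).wn W p at w2
      obtain ⟨C, c1, c2, c3⟩ := G.colour W (fun v p g => by rw [← w1]; exact z2 _ ((k7 v p).2 g))
      obtain ⟨Y, hY⟩ := hk C c1 c2
      have wc : ∀ t (p m : Rc s) r, m.col t = p.col t → m.a ≤ r → r < m.b →
          C r (co t (m.col t)) = C p.a (co t (p.col t)) := by
        intro t p m r e a1 a2
        have b1 := p.wall t le_rfl p.ab
        have b2 := m.wall t a1 a2
        rw [e] at b2 ⊢
        rcases le_total p.a r with g | g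
        · exact col_chain c2 g (fun u u1 u2 => ((G.wall b1 b2).2 u u1 u2).2)
        · exact (col_chain c2 g (fun u u1 u2 => ((G.wall b2 b1).2 u u1 u2).2)).symm
      have wp : ∀ v t (m : Rc s), Y (k (y (Rc.pt v t m)).1 (y (Rc.pt v t m)).2) =
          C m.a (co t (m.col t)) := by
        intro v t m
        have r := m.row v
        have n := (m.wall t r.1 r.2).2
        have a1 : ci v (m.eg v) = (Rc.pt v t m).1 ∨ ci v (m.eg v) = (Rc.pt v t m).1 - 1 := by
          cases v <;> simp [ci, Rc.pt]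
        have a2 : co t (m.col t) = (Rc.pt v t m).2 ∨ co t (m.col t) = (Rc.pt v t m).2 - 1 := by
          cases t <;> simp [co, Rc.pt]
        obtain ⟨b1, b2, b3⟩ := hy _ _ _ a1 a2 n
        obtain ⟨x, hx⟩ := near G.reg c1 c2 (Rc.pt v t m).1 (Rc.pt v t m).2
        rw [← hY _ _ b3, hx _ _ b1 b2 b3, ← hx _ _ a1 a2 n]
        exact wc t m m _ rfl r.1 r.2
      have wl : ∀ v t p, Y (k (y (lab v t p)).1 (y (lab v t p)).2) =
          C p.a (co t (p.col t)) + (G.F v t).wn W p := by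
        intro v t p
        rcases l3 v t p with ⟨b, b1, b2, _⟩ | ⟨n, l, b1, b2, _⟩
        · rw [b2, wp, Ln.wn_of b1, ← wc t p b b.a (G.af.1 b1.1).1 le_rfl b.ab]
          have := c3 b b.a le_rfl b.ab
          cases t <;> simp only [co, Rc.col, Bool.not_true, Bool.not_false]
          · linear_combination - this - two (W b)
          · exact this
        · rw [b2, wp, Ln.wn_none n, add_zero]
          exact wc t p l l.a b1 le_rfl l.ab
      have zz : ∀ d, Z d = Y (k (y (labc lab d)).1 (y (labc lab d)).2) +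
          Y (k (y (labc lab (sg d))).1 (y (labc lab (sg d))).2) := by
        rintro ⟨p, i⟩
        have e := c3 p p.a le_rfl p.ab
        have f1 := wl false false p
        have f2 := wl false true p
        have f3 := wl true true p
        have f4 := wl true false p
        simp only [co, Rc.col] at f1 f2 f3 f4
        fin_cases i
        · refine (w1 false p).trans (Eq.trans ?_ (congrArg₂ (· + ·) f1 f2).symm)
          linear_combination - e - two (C p.a p.x1)
        · refine (w2 true p).trans (Eq.trans ?_ (congrArg₂ (· + ·) f2 f3).symm)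
          linear_combination - two (C p.a p.x1)
        · refine (w1 true p).trans (Eq.trans ?_ (congrArg₂ (· + ·) f3 f4).symm)
          linear_combination - e - two (C p.a p.x1)
        · refine (w2 false p).trans (Eq.trans ?_ (congrArg₂ (· + ·) f4 f1).symm)
          linear_combination - two (C p.a (p.x0 - 1))
      refine ⟨Y, fun d => ?_, fun d => ?_⟩
      · by_cases g : K.a d = d
        · have := zz d
          rw [z2 d g] at this
          rw [Cx.phi_apply, g]
          linear_combination - this - two (Y (k (y (labc lab d)).1 (y (labc lab d)).2))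
        · rw [lphi d g]
      · by_cases g : K.a d = d
        · rw [z2 d g, g, two]
        · rw [zz d, ← lphi (K.a d) (by rw [K.inv]; exact Ne.symm g), Cx.phi_apply, K.inv])
  refine ⟨X.image (labc lab), fun x hx => ?_, ?_, fun j c hs => ?_⟩
  · obtain ⟨d, _, rfl⟩ := mem_image.1 hx
    obtain ⟨v, t, e⟩ := lc d
    rw [e]
    rcases l3 v t d.1 with ⟨b, _, b2, b3⟩ | ⟨_, l, _, b2, b3⟩ <;> rw [b2] <;> exact hV _ _ (G.cn_end b3)
  · let FV := univ.filter (fun x : Bool × Rc s => ∀ t, ¬ (G.F x.1 t).Op x.2)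
    let FL := univ.filter (fun x : Bool × Rc s => ∀ v b, ¬ (G.F v x.1).Nx x.2 b)
    have a1 : (K.fr univ).card ≤ FV.card + FL.card := by
      refine (card_le_card (t := FV.image (fun x => (x.2, vs x.1)) ∪
        FL.image (fun x => (x.2, ls x.1))) ?_).trans
        ((card_union_le _ _).trans (add_le_add card_image_le card_image_le))
      rintro ⟨p, i⟩ g
      have g1 := (mem_filter.1 g).2.2
      rcases vs_or_ls i with ⟨v, rfl⟩ | ⟨t, rfl⟩
      · exact mem_union_left _ (mem_image.2 ⟨(v, p), mem_filter.2 ⟨mem_univ _, (k7 v p).1 g1⟩, rfl⟩)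
      · exact mem_union_right _ (mem_image.2 ⟨(t, p), mem_filter.2 ⟨mem_univ _, (k8 t p).1 g1⟩, rfl⟩)
    have a2 := lines_le G.reg V hV (FV.image (fun x => x.2.eg x.1)) (by
      intro j hj
      obtain ⟨⟨v, p⟩, hx, rfl⟩ := mem_image.1 hj
      obtain ⟨d, d1, d2, d3⟩ := G.closed_iff.1 (mem_filter.1 hx).2
      have r := p.row v
      have := (p.iv _ r.1 r.2).2.1 d d1 d2
      refine ⟨d, ?_⟩
      cases v <;> simp only [df, ci, co] at * <;> tauto)
    have a3 := lines_le G.reg.tr (V.image Prod.swap)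
      (fun c j a => mem_image.2 ⟨(j, c), hV j c (cn_tr.1 a), rfl⟩) (FL.image (fun x => x.2.col x.1)) (by
      intro j hj
      obtain ⟨⟨t, p⟩, hx, rfl⟩ := mem_image.1 hj
      have := p.wall t le_rfl p.ab
      refine ⟨p.a, ?_⟩
      cases t <;> simp only [df, tr, Wall, ci, co] at * <;> tauto)
    rw [card_image_of_injOn (by
      rintro ⟨v, p⟩ h1 ⟨v', q⟩ h2 e
      obtain ⟨d, d1, d2, d3⟩ := G.closed_iff.1 (mem_filter.1 h1).2
      obtain ⟨d', e1, e2, e3⟩ := G.closed_iff.1 (mem_filter.1 h2).2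
      simp only at e d1 d2 d3 e1 e2 e3
      rcases bool_cases v v' with rfl | rfl
      · rw [G.closed_same d1 d2 d3 e.symm]
      · have r := q.row (!v)
        have f := (q.iv _ r.1 r.2).2.1 d' e1 e2
        rw [← e, ci_not] at f
        rw [← e, co_not] at e3
        exact absurd f (G.closed_ch d1 d2 d3 (fun k => e3 (k.1 f))).1)] at a2
    rw [card_image_of_injOn (by
      rintro ⟨t, p⟩ h1 ⟨t', q⟩ h2 e
      have b1 := (mem_filter.1 h1).2
      have b2 := (mem_filter.1 h2).2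
      simp only at e b1 b2
      obtain rfl := (G.wall (p.wall t le_rfl p.ab) (e ▸ q.wall t' le_rfl q.ab)).1
      rw [Ln.min_uniq (L := G.F true t) e (b1 true) (b1 false) (b2 true) (b2 false)])] at a3
    have a4 : (V.image Prod.swap).card ≤ V.card := card_image_le
    have a5 : (X.image (labc lab)).card ≤ X.card := card_image_le
    omega
  · obtain ⟨p, p1, p2, p3, p4⟩ := G.reg.exists_rc hs
    obtain ⟨i, x, hx, e⟩ := x2 p
    have e1 : ∀ u w, K.Vx u w → labc lab u = labc lab w := by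
      intro u w e
      induction e with
      | rel _ _ e => rw [e.2, lphi _ e.1]
      | refl => rfl
      | symm _ _ _ ih => exact ih.symm
      | trans _ _ _ _ _ i1 i2 => exact i1.trans i2
    obtain ⟨v, t, f⟩ := lc (p, i)
    obtain ⟨b1, b2, b3⟩ := G.see (v := v) (t := t) (p := p) (x := labc lab x) (by
      rw [e1 _ _ e, f]
      exact (l3 v t p).imp (fun ⟨b, a1, a2, _⟩ => ⟨b, a1, a2⟩) id)
    exact ⟨p.x0, p.x1, min p.a (labc lab x).1, max p.b (labc lab x).1, p3, p4, by omega, by omega,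
      b3, _, mem_image_of_mem _ hx, by omega, by omega, b1, b2⟩

theorem goal_of_core
    (core : ∀ (ι : Type) [Fintype ι] [DecidableEq ι] (K : Cx ι), K.Valid → K.Conn → K.Good)
    (s : ℤ → ℤ → Prop) (M : ℤ) (h : ℕ) (hR : GReg s M) (hK : HK s h) : Goal s h :=
  reduce (fun _ _ _ a b c d => Gen.goal ⟨a, b, c⟩ core d) hR hK

end

end Pool.Agent.Lib.MP_8d6beb_co
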