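import Pool.Agent.Lib.MP_8d6beb_co.Graph

namespace Pool.Agent.Lib.MP_8d6beb_co

open Finset

variable {β : Type} [DecidableEq β]

theorem avoid_one {E : Finset (β × β)} {C : Finset β} (h2 : 2 ≤ C.card) (hnd : ¬ Dec E C)
    {X : Finset β} (hX : X ⊆ C) (h1 : X.card ≤ 1) : al E C ≤ al E (C \ X) := by
  rcases X.eq_empty_or_nonempty with rfl | hne
  · simp
  by_contra hlt
  apply hnd
  refine ⟨X, C \ X, hne, ?_, disjoint_sdiff, union_sdiff_of_subset hX, ?_⟩
  · rw [← card_pos, card_sdiff_of_subset hX]; omega
  · have := al_le_card E X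
    omega

theorem exists_cap {E : Finset (β × β)} (hE : NoLoop E) {C : Finset β} (hne : C.Nonempty)
    (hnd : ¬ Dec E C) {v : β} (hv : v ∉ C)
    (ih : 3 ≤ C.card → ∀ (E' : Finset (β × β)) (V' : Finset β), NoLoop E' → ¬ Dec E' V' →
      3 ≤ V'.card → V'.card ≤ C.card + 1 → 3 * V'.card ≤ (eds E' V').card + 4 * al E' V' + 2) :
    ∃ k, Cap E C k := by
  have h1 := one_le_al hE hne
  have hpos := hne.card_pos
  by_cases c1 : C.card = 1
  · refine ⟨0, ?_, by omega⟩
    intro X _ hX
    have : X = ∅ := card_eq_zero.1 (by omega)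
    simp [this]
  by_cases c2 : C.card = 2
  · refine ⟨1, fun X hX h => avoid_one (by omega) hnd hX h, ?_⟩
    by_cases he : (eds E C).card = 0
    · have : C.card ≤ al E C := by
        apply le_al (Subset.refl _)
        intro e h0 h1 h2
        have : e ∈ eds E C := mem_filter.2 ⟨h0, h1, h2⟩
        rw [card_eq_zero.1 he] at this
        simp at this
      omega
    · omega
  have c3 : 3 ≤ C.card := by omega
  by_cases hall : ∀ X ⊆ C, X.card ≤ 2 → al E C ≤ al E (C \ X)
  · exact ⟨2, hall, ih c3 E C hE hnd c3 (by omega)⟩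
  push Not at hall
  obtain ⟨X, hX, hX2, hlt⟩ := hall
  refine ⟨1, fun X hX h => avoid_one (by omega) hnd hX h, ?_⟩
  set E' : Finset (β × β) := eds E C ∪ X.image (fun x => (v, x)) with hE'
  have hE'l : NoLoop E' := by
    intro e he
    rcases mem_union.1 he with h | h
    · exact hE e (mem_filter.1 h).1
    · obtain ⟨x, hx, rfl⟩ := mem_image.1 h
      intro h'
      simp only at h'
      exact hv (h' ▸ hX hx)
  have hal : al E' (insert v C) ≤ al E C := by
    obtain ⟨I, a1, a2, a3⟩ := exists_al E' (insert v C)
    rw [← a3]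
    have hI : Ind E (I.erase v) := by
      intro e he b1 b2
      have d1 := mem_erase.1 b1
      have d2 := mem_erase.1 b2
      have f1 : e.1 ∈ C := (mem_insert.1 (a1 d1.2)).resolve_left d1.1
      have f2 : e.2 ∈ C := (mem_insert.1 (a1 d2.2)).resolve_left d2.1
      exact a2 e (mem_union_left _ (mem_filter.2 ⟨he, f1, f2⟩)) d1.2 d2.2
    by_cases hvI : v ∈ I
    · have : (I.erase v).card ≤ al E (C \ X) := by
        apply le_al _ hI
        intro x hx
        have d1 := mem_erase.1 hx
        refine mem_sdiff.2 ⟨(mem_insert.1 (a1 d1.2)).resolve_left d1.1, fun hxX => ?_⟩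
        exact a2 (v, x) (mem_union_right _ (mem_image.2 ⟨x, hxX, rfl⟩)) hvI d1.2
      rw [card_erase_of_mem hvI] at this
      omega
    · rw [erase_eq_of_notMem hvI] at hI
      apply le_al _ hI
      intro x hx
      exact (mem_insert.1 (a1 hx)).resolve_left (fun h => hvI (h ▸ hx))
  have hmono : ∀ W ⊆ C, al E W ≤ al E' W := by
    intro W hW
    obtain ⟨I, a1, a2, a3⟩ := exists_al E W
    rw [← a3]
    apply le_al a1
    intro e he b1 b2
    rcases mem_union.1 he with h | h
    · exact a2 e (mem_filter.1 h).1 b1 b2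
    · obtain ⟨x, _, rfl⟩ := mem_image.1 h
      exact hv (hW (a1 b1))
  have hone : ∀ V1 V2 : Finset β, v ∈ V1 → V2.Nonempty → Disjoint V1 V2 → V1 ∪ V2 = insert v C →
      al E' V1 + al E' V2 ≤ al E' (insert v C) → False := by
    intro V1 V2 hv1 n2 hdis hu hle
    have s2 : V2 ⊆ C := by
      intro x hx
      have : x ∈ insert v C := hu ▸ mem_union_right _ hx
      refine (mem_insert.1 this).resolve_left (fun h => ?_)
      exact disjoint_left.1 hdis hv1 (h ▸ hx)
    have s1 : V1.erase v ⊆ C := by
      intro x hx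
      have d := mem_erase.1 hx
      have : x ∈ insert v C := hu ▸ mem_union_left _ d.2
      exact (mem_insert.1 this).resolve_left d.1
    have hu' : V1.erase v ∪ V2 = C := by
      apply Subset.antisymm (union_subset s1 s2)
      intro x hx
      have : x ∈ V1 ∪ V2 := hu ▸ mem_insert_of_mem hx
      rcases mem_union.1 this with h | h
      · exact mem_union_left _ (mem_erase.2 ⟨fun h' => hv (h' ▸ hx), h⟩)
      · exact mem_union_right _ h
    have m2 := hmono V2 s2
    have m1 := (hmono _ s1).trans (al_mono E' (erase_subset v V1))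
    rcases (V1.erase v).eq_empty_or_nonempty with h0 | h0
    · rw [h0, empty_union] at hu'
      have := one_le_al hE'l (⟨v, hv1⟩ : V1.Nonempty)
      rw [hu'] at m2 hle
      omega
    · exact hnd ⟨V1.erase v, V2, h0, n2, Disjoint.mono_left (erase_subset _ _) hdis, hu', by omega⟩
  have hnd' : ¬ Dec E' (insert v C) := by
    rintro ⟨V1, V2, n1, n2, hdis, hu, hle⟩
    have : v ∈ V1 ∪ V2 := hu ▸ mem_insert_self _ _
    rcases mem_union.1 this with h | h
    · exact hone V1 V2 h n2 hdis hu hle
    · exact hone V2 V1 h n1 hdis.symm (by rw [union_comm, hu]) (by omega)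
  have hc := card_insert_of_notMem hv
  have := ih c3 E' (insert v C) hE'l hnd' (by omega) (by omega)
  have hed : (eds E' (insert v C)).card ≤ (eds E C).card + 2 := by
    refine (card_le_card (filter_subset _ _)).trans ((card_union_le _ _).trans ?_)
    have : (X.image (fun x => (v, x))).card ≤ X.card := card_image_le
    omega
  omega

/-- A graph whose independence number is not additive over any proper partition has at least
`3 p - 4 alpha - 2` edges. -/
theorem crit_ineq (n : ℕ) : ∀ (E : Finset (β × β)) (V : Finset β), NoLoop E → ¬ Dec E V →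
    3 ≤ V.card → V.card ≤ n → 3 * V.card ≤ (eds E V).card + 4 * al E V + 2 := by
  induction n with
  | zero => intro E V _ _ h1 h2; omega
  | succ n ih =>
    intro E V hE hnd h3 hn
    let dg : β → ℕ := fun x => ((eds E V).filter (fun e => e.1 = x ∨ e.2 = x)).card
    obtain ⟨v, hv, hmax⟩ := exists_max_image V dg (card_pos.1 (by omega))
    obtain ⟨P, a, b, c, d⟩ := exists_parts E (V.erase v)
    have hsub : ∀ C ∈ P, C ⊆ V.erase v := fun C hC => c ▸ subset_biUnion_of_mem id hC
    have hW : (V.erase v).card + 1 = V.card := by rw [card_erase_of_mem hv]; omega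
    by_cases hbig : ∃ C ∈ P, 3 ≤ C.card ∧ V.card ≤ C.card + 1
    · obtain ⟨C, hC, c3, hle⟩ := hbig
      have hCW : C = V.erase v := eq_of_subset_of_card_le (hsub C hC) (by omega)
      have hndW : ¬ Dec E (V.erase v) := hCW ▸ (a C hC).2
      rw [hCW] at c3
      have i1 := ih E (V.erase v) hE hndW c3 (by omega)
      have hal := al_mono E (erase_subset v V)
      by_cases hd : 3 ≤ dg v
      · have : (eds E (V.erase v)).card + dg v ≤ (eds E V).card := by
          simp only [dg]
          rw [← card_union_of_disjoint]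
          · apply card_le_card
            apply union_subset _ (filter_subset _ _)
            intro e he
            obtain ⟨h0, h1, h2⟩ := mem_filter.1 he
            exact mem_filter.2 ⟨h0, (mem_erase.1 h1).2, (mem_erase.1 h2).2⟩
          · rw [disjoint_left]
            intro e h1 h2
            obtain ⟨_, h3, h4⟩ := mem_filter.1 h1
            rcases (mem_filter.1 h2).2 with h | h
            · exact (mem_erase.1 h3).1 h
            · exact (mem_erase.1 h4).1 h
        omega
      exfalso
      -- adding an isolated vertex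
      have addv : ∀ (W : Finset β) (y : β) (Y : Finset β), y ∈ Y → Y ⊆ W →
          (∀ e ∈ eds E W, (e.1 = y ∨ e.2 = y) → e.1 ∈ Y ∧ e.2 ∈ Y) →
          al E (W \ Y) + 1 ≤ al E W := by
        intro W y Y hy hY hcl
        obtain ⟨I, a1, a2, a3⟩ := exists_al E (W \ Y)
        have hyI : y ∉ I := fun h => (mem_sdiff.1 (a1 h)).2 hy
        rw [← a3, ← card_insert_of_notMem hyI]
        have hs : insert y I ⊆ W := insert_subset (hY hy) (a1.trans sdiff_subset)
        apply le_al hs
        intro e he b1 b2
        have heW : e ∈ eds E W := mem_filter.2 ⟨he, hs b1, hs b2⟩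
        rcases mem_insert.1 b1 with g1 | g1 <;> rcases mem_insert.1 b2 with g2 | g2
        · exact hE e he (g1.trans g2.symm)
        · exact (mem_sdiff.1 (a1 g2)).2 (hcl e heW (Or.inl g1)).2
        · exact (mem_sdiff.1 (a1 g1)).2 (hcl e heW (Or.inr g2)).1
        · exact a2 e he g1 g2
      have hex : ∃ e ∈ eds E V, e.1 = v ∨ e.2 = v := by
        by_contra hno
        push Not at hno
        have := addv V v {v} (mem_singleton_self v) (by simpa using hv)
          (fun e he h => by rcases h with h | h; exact absurd h (hno e he).1; exact absurd h (hno e he).2)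
        apply hnd
        refine ⟨{v}, V \ {v}, singleton_nonempty v, ?_, disjoint_sdiff,
          union_sdiff_of_subset (by simpa using hv), ?_⟩
        · rw [← card_pos, card_sdiff_of_subset (by simpa using hv), card_singleton]; omega
        · have := al_le_card E {v}
          rw [card_singleton] at *
          omega
      obtain ⟨e0, he0, hev⟩ := hex
      obtain ⟨h00, h01, h02⟩ := mem_filter.1 he0
      obtain ⟨y, hyW, hy0, hnot⟩ : ∃ y ∈ V.erase v, (e0.1 = y ∨ e0.2 = y) ∧
          e0 ∉ eds E (V.erase v) := by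
        rcases hev with h | h
        · exact ⟨e0.2, mem_erase.2 ⟨fun h' => hE e0 h00 (h.trans h'.symm), h02⟩, Or.inr rfl,
            fun h' => (mem_erase.1 (mem_filter.1 h').2.1).1 h⟩
        · exact ⟨e0.1, mem_erase.2 ⟨fun h' => hE e0 h00 (h'.trans h.symm), h01⟩, Or.inl rfl,
            fun h' => (mem_erase.1 (mem_filter.1 h').2.2).1 h⟩
      set D := (eds E (V.erase v)).filter (fun e => e.1 = y ∨ e.2 = y) with hD
      have hD1 : D.card ≤ 1 := by
        have h1 : dg y ≤ 2 := (hmax y (mem_erase.1 hyW).2).trans (by omega)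
        have h2 : insert e0 D ⊆ (eds E V).filter (fun e => e.1 = y ∨ e.2 = y) := by
          apply insert_subset (mem_filter.2 ⟨he0, hy0⟩)
          intro e he
          obtain ⟨g0, g1⟩ := mem_filter.1 he
          obtain ⟨g2, g3, g4⟩ := mem_filter.1 g0
          exact mem_filter.2 ⟨mem_filter.2 ⟨g2, (mem_erase.1 g3).2, (mem_erase.1 g4).2⟩, g1⟩
        have h3 := card_le_card h2
        have h4 : e0 ∉ D := fun h => hnot (mem_filter.1 h).1
        rw [card_insert_of_notMem h4] at h3
        simp only [dg] at h1
        omega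
      obtain ⟨Y, hyY, hYW, hY2, hYa, hcl⟩ : ∃ Y : Finset β, y ∈ Y ∧ Y ⊆ V.erase v ∧ Y.card ≤ 2 ∧
          al E Y ≤ 1 ∧ ∀ e ∈ eds E (V.erase v), (e.1 = y ∨ e.2 = y) → e.1 ∈ Y ∧ e.2 ∈ Y := by
        rcases D.eq_empty_or_nonempty with h0 | ⟨e1, he1⟩
        · refine ⟨{y}, mem_singleton_self y, by simpa using hyW, by simp, ?_, ?_⟩
          · simpa using al_le_card E {y}
          · intro e he h
            have : e ∈ D := mem_filter.2 ⟨he, h⟩
            rw [h0] at this
            simp at this
        · obtain ⟨g0, g1⟩ := mem_filter.1 he1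
          obtain ⟨g2, g3, g4⟩ := mem_filter.1 g0
          refine ⟨{e1.1, e1.2}, ?_, ?_, card_le_two, ?_, ?_⟩
          · rcases g1 with h | h <;> simp [← h]
          · exact insert_subset g3 (by simpa using g4)
          · obtain ⟨I, a1, a2, a3⟩ := exists_al E {e1.1, e1.2}
            rw [← a3]
            by_contra hlt
            have : I = {e1.1, e1.2} :=
              eq_of_subset_of_card_le a1 (card_le_two.trans (by omega))
            exact a2 e1 g2 (by simp [this]) (by simp [this])
          · intro e he h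
            have : e = e1 := card_le_one.1 hD1 e (mem_filter.2 ⟨he, h⟩) e1 he1
            simp [this]
      have := addv (V.erase v) y Y hyY hYW hcl
      apply hndW
      refine ⟨Y, V.erase v \ Y, ⟨y, hyY⟩, ?_, disjoint_sdiff, union_sdiff_of_subset hYW, by omega⟩
      rw [← card_pos, card_sdiff_of_subset hYW]; omega
    · push Not at hbig
      have hcap : ∀ C, ∃ k, C ∈ P → Cap E C k := by
        intro C
        by_cases hC : C ∈ P
        · obtain ⟨k, hk⟩ := exists_cap hE (a C hC).1 (a C hC).2 (v := v)
            (fun h => (mem_erase.1 (hsub C hC h)).1 rfl)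
            (fun c3 E' V' h1 h2 h3 h4 => ih E' V' h1 h2 h3 (by have := hbig C hC c3; omega))
          exact ⟨k, fun _ => hk⟩
        · exact ⟨0, fun h => absurd h hC⟩
      choose k hk using hcap
      exact hall_step hE hv (by omega) hnd P (fun C hC => (a C hC).1) b c d k hk

/-- sparse graphs have independence ratio at least `3/8`. -/
theorem sparse_al {E : Finset (β × β)} (hE : NoLoop E) (V : Finset β)
    (hs : ∀ C ⊆ V, 2 ≤ C.card → 2 * (eds E C).card + 4 ≤ 3 * C.card) :
    3 * V.card ≤ 8 * al E V := by
  obtain ⟨P, a, b, c, d⟩ := exists_parts E V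
  have hsub : ∀ C ∈ P, C ⊆ V := fun C hC => c ▸ subset_biUnion_of_mem id hC
  have h1 : V.card ≤ ∑ C ∈ P, C.card := by rw [← c]; exact card_biUnion_le
  have h2 : ∑ C ∈ P, 3 * C.card ≤ ∑ C ∈ P, 8 * al E C := by
    apply sum_le_sum
    intro C hC
    have g1 := one_le_al hE (a C hC).1
    by_cases c3 : 3 ≤ C.card
    · have g2 := crit_ineq C.card E C hE (a C hC).2 c3 le_rfl
      have g3 := hs C (hsub C hC) (by omega)
      omega
    · omega
  rw [← mul_sum, ← mul_sum] at h2
  omega

end Pool.Agent.Lib.MP_8d6beb_co
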