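import Mathlib

namespace Pool.Agent.Lib.MP_8d6beb_co

open Set

/-- The `i`-th edge of the closed polygonal chain `v 0, v 1, ..., v (m - 1), v 0`. -/
def edge (v : ℕ → ℝ × ℝ) (m i : ℕ) : Set (ℝ × ℝ) := segment ℝ (v i) (v ((i + 1) % m))

/-- `Q` is a simple orthogonal polygon with the `m` vertices `v 0, ..., v (m - 1)` in cyclic order:
the chain is a simple closed curve with horizontal or vertical edges, and `Q` is the compact region
it bounds. -/
def IsOrthPolygon (Q : Set (ℝ × ℝ)) (m : ℕ) (v : ℕ → ℝ × ℝ) : Prop :=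
  3 ≤ m ∧ (∀ i < m, ∀ j < m, v i = v j → i = j) ∧
  (∀ i < m, (v i).1 = (v ((i + 1) % m)).1 ∨ (v i).2 = (v ((i + 1) % m)).2) ∧
  (∀ i < m, ∀ j < m, i ≠ j → ∀ p ∈ edge v m i ∩ edge v m j,
    (j = (i + 1) % m ∧ p = v j) ∨ (i = (j + 1) % m ∧ p = v i)) ∧
  IsCompact Q ∧ closure (interior Q) = Q ∧ frontier Q = ⋃ i < m, edge v m i

end Pool.Agent.Lib.MP_8d6beb_co
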