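import Pool.Agent.Lib.MP_8d6beb_co.Grid

namespace Pool.Agent.Lib.MP_8d6beb_co

open Set

theorem exists_grid (T : Finset ℝ) : ∃ xs : ℤ → ℝ, StrictMono xs ∧ (∀ x ∈ T, ∃ i, xs i = x) ∧
    ∀ x, ∃ i, xs i ≤ x ∧ x < xs (i + 1) := by
  classical
  induction T using Finset.induction_on with
  | empty =>
    refine ⟨fun i => (i : ℝ), Int.cast_strictMono, by simp, fun x => ⟨⌊x⌋, Int.floor_le x, ?_⟩⟩
    push_cast
    exact Int.lt_floor_add_one x
  | insert a T _ ih =>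
    obtain ⟨xs, h1, h2, h3⟩ := ih
    obtain ⟨i, a1, a2⟩ := h3 a
    rcases a1.eq_or_lt with g | g
    · refine ⟨xs, h1, fun x hx => ?_, h3⟩
      rcases Finset.mem_insert.1 hx with rfl | hx
      · exact ⟨i, g⟩
      · exact h2 x hx
    · obtain ⟨ys, hy⟩ : ∃ ys : ℤ → ℝ, ∀ k, ys k = if k ≤ i then xs k else if k = i + 1 then a
          else xs (k - 1) := ⟨_, fun _ => rfl⟩
      have e1 : ∀ k, k ≤ i → ys k = xs k := fun k hk => by rw [hy, if_pos hk]
      have e2 : ys (i + 1) = a := by rw [hy, if_neg (by omega), if_pos rfl]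
      have e3 : ∀ k, i + 1 ≤ k → ys (k + 1) = xs k := fun k hk => by
        rw [hy, if_neg (by omega), if_neg (by omega), add_sub_cancel_right]
      refine ⟨ys, strictMono_int_of_lt_succ (fun k => ?_), fun x hx => ?_, fun x => ?_⟩
      · rcases lt_trichotomy k i with c | c | c
        · rw [e1 k c.le, e1 (k + 1) (by omega)]; exact h1 (by omega)
        · rw [c, e1 i le_rfl, e2]; exact g
        · rcases (show k = i + 1 ∨ i + 1 ≤ k - 1 by omega) with d | d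
          · rw [d, e2, e3 _ le_rfl]; exact a2
          · have := e3 _ d
            rw [sub_add_cancel] at this
            rw [this, e3 k (by omega)]; exact h1 (by omega)
      · rcases Finset.mem_insert.1 hx with rfl | hx
        · exact ⟨i + 1, e2⟩
        · obtain ⟨k, hk⟩ := h2 x hx
          by_cases c : k ≤ i
          · exact ⟨k, (e1 k c).trans hk⟩
          · exact ⟨k + 1, (e3 k (by omega)).trans hk⟩
      · obtain ⟨k, b1, b2⟩ := h3 x
        rcases lt_trichotomy k i with c | c | c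
        · exact ⟨k, by rwa [e1 k c.le], by rwa [e1 (k + 1) (by omega)]⟩
        · subst c
          by_cases d : x < a
          · exact ⟨k, by rwa [e1 k le_rfl], by rwa [e2]⟩
          · exact ⟨k + 1, by rw [e2]; exact not_lt.1 d, by rwa [e3 _ le_rfl]⟩
        · exact ⟨k + 1, by rwa [e3 k (by omega)], by rwa [e3 (k + 1) (by omega)]⟩

theorem mem_seg {A B p : ℝ × ℝ} (h : A.1 = B.1 ∨ A.2 = B.2) :
    p ∈ segment ℝ A B ↔ p.1 ∈ uIcc A.1 B.1 ∧ p.2 ∈ uIcc A.2 B.2 := by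
  rw [← segment_eq_uIcc, ← segment_eq_uIcc]
  constructor
  · intro hp
    exact Prod.segment_subset A B hp
  · rintro ⟨⟨a, b, a1, a2, a3, a4⟩, ⟨c, d, b1, b2, b3, b4⟩⟩
    simp only [smul_eq_mul] at a4 b4
    rcases h with h | h
    · refine ⟨c, d, b1, b2, b3, Prod.ext ?_ ?_⟩
      · simp only [Prod.fst_add, Prod.smul_fst, smul_eq_mul]
        rw [← a4, h]
        linear_combination (b3 - a3) * B.1
      · simpa using b4
    · refine ⟨a, b, a1, a2, a3, Prod.ext ?_ ?_⟩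
      · simpa using a4
      · simp only [Prod.snd_add, Prod.smul_snd, smul_eq_mul]
        rw [← b4, h]
        linear_combination (a3 - b3) * B.2

theorem gap {xs : ℤ → ℝ} (h : StrictMono xs) {a b x : ℝ} (ha : ∃ i, xs i = a) (hb : ∃ i, xs i = b)
    (hx : x ∈ uIcc a b) {k : ℤ} (h1 : xs k < x) (h2 : x < xs (k + 1)) :
    a ≠ b ∧ xs k ∈ uIcc a b ∧ xs (k + 1) ∈ uIcc a b := by
  obtain ⟨i, rfl⟩ := ha
  obtain ⟨j, rfl⟩ := hb
  have key : ∀ i j, xs i ≤ x → x ≤ xs j → xs i ≤ xs k ∧ xs (k + 1) ≤ xs j := by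
    intro i j a1 a2
    have b1 := h.lt_iff_lt.1 (a1.trans_lt h2)
    have b2 := h.lt_iff_lt.1 (h1.trans_le a2)
    exact ⟨h.monotone (by omega), h.monotone (by omega)⟩
  rcases mem_uIcc.1 hx with g | g
  · have := key _ _ g.1 g.2
    exact ⟨by intro e; linarith, mem_uIcc.2 (Or.inl ⟨by linarith, by linarith⟩),
      mem_uIcc.2 (Or.inl ⟨by linarith, by linarith⟩)⟩
  · have := key _ _ g.1 g.2
    exact ⟨by intro e; linarith, mem_uIcc.2 (Or.inr ⟨by linarith, by linarith⟩),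
      mem_uIcc.2 (Or.inr ⟨by linarith, by linarith⟩)⟩

theorem locate {xs : ℤ → ℝ} (h : StrictMono xs) (hc : ∀ x, ∃ i, xs i ≤ x ∧ x < xs (i + 1))
    {a b : ℤ} (hab : a < b) {x : ℝ} (h1 : xs a ≤ x) (h2 : x ≤ xs b) :
    ∃ i, a ≤ i ∧ i < b ∧ xs i ≤ x ∧ x ≤ xs (i + 1) := by
  obtain ⟨i, a1, a2⟩ := hc x
  have b1 := h.lt_iff_lt.1 (h1.trans_lt a2)
  have b2 := h.le_iff_le.1 (a1.trans h2)
  rcases b2.eq_or_lt with g | g
  · subst g
    refine ⟨i - 1, by omega, by omega, (h.monotone (by omega)).trans a1, ?_⟩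
    rwa [sub_add_cancel]
  · exact ⟨i, by omega, g, a1, a2.le⟩

theorem range_bd {xs : ℤ → ℝ} (h : StrictMono xs) (hc : ∀ x, ∃ i, xs i ≤ x ∧ x < xs (i + 1))
    (R : ℝ) : ∃ M : ℤ, 0 ≤ M ∧ ∀ c x, |x| ≤ R → xs c < x → x < xs (c + 1) → -M ≤ c ∧ c < M := by
  obtain ⟨i, a1, _⟩ := hc (-R)
  obtain ⟨j, _, a2⟩ := hc R
  refine ⟨|i| + |j| + 1, by positivity, fun c x b1 b2 b3 => ?_⟩
  have b4 := abs_le.1 b1
  have c1 := h.lt_iff_lt.1 (show xs i < xs (c + 1) by linarith)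
  have c2 := h.lt_iff_lt.1 (show xs c < xs (j + 1) by linarith)
  have := abs_nonneg i
  have := abs_nonneg j
  have := neg_abs_le i
  have := le_abs_self j
  omega

theorem geo {ι : Type*} (A B : ι → ℝ × ℝ) (hax : ∀ e, (A e).1 = (B e).1 ∨ (A e).2 = (B e).2)
    (hX : ∀ e f p, e ≠ f → p ∈ segment ℝ (A e) (B e) → p ∈ segment ℝ (A f) (B f) →
      p = A e ∨ p = B e)
    (hY : ∀ e f g p, e ≠ f → f ≠ g → e ≠ g → p ∈ segment ℝ (A e) (B e) →
      p ∈ segment ℝ (A f) (B f) → p ∈ segment ℝ (A g) (B g) → False)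
    (Vx : Finset (ℝ × ℝ)) (hA : ∀ e, A e ∈ Vx) (hB : ∀ e, B e ∈ Vx)
    (U : Set (ℝ × ℝ)) (hU : IsOpen U) (hb : Bornology.IsBounded U)
    (hf : frontier U ⊆ ⋃ e, segment ℝ (A e) (B e)) :
    ∃ G ⊆ Vx, 16 * G.card ≤ 5 * Vx.card ∧
      ∀ p ∈ closure U, ∃ g ∈ G, uIcc g.1 p.1 ×ˢ uIcc g.2 p.2 ⊆ closure U := by
  classical
  obtain ⟨xs, hx1, hx2, hx3⟩ := exists_grid (Vx.image Prod.fst)
  obtain ⟨ys, hy1, hy2, hy3⟩ := exists_grid (Vx.image Prod.snd)
  have vx : ∀ v ∈ Vx, ∃ i, xs i = v.1 := fun v hv => hx2 _ (Finset.mem_image_of_mem _ hv)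
  have vy : ∀ v ∈ Vx, ∃ i, ys i = v.2 := fun v hv => hy2 _ (Finset.mem_image_of_mem _ hv)
  have sx : ∀ c, xs c < xs (c + 1) := fun c => hx1 (by omega)
  have sy : ∀ c, ys c < ys (c + 1) := fun c => hy1 (by omega)
  obtain ⟨cell, hcell⟩ : ∃ cell : ℤ → ℤ → Set (ℝ × ℝ), ∀ j c,
    cell j c = Ioo (xs c) (xs (c + 1)) ×ˢ Ioo (ys j) (ys (j + 1)) := ⟨_, fun _ _ => rfl⟩
  have clo : ∀ j c, closure (cell j c) = Icc (xs c) (xs (c + 1)) ×ˢ Icc (ys j) (ys (j + 1)) := by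
    intro j c
    rw [hcell, closure_prod_eq, closure_Ioo (sx c).ne, closure_Ioo (sy j).ne]
  have edge : ∀ q ∈ frontier U, ∃ e, q.1 ∈ uIcc (A e).1 (B e).1 ∧ q.2 ∈ uIcc (A e).2 (B e).2 := by
    intro q hq
    obtain ⟨e, he⟩ := mem_iUnion.1 (hf hq)
    exact ⟨e, (mem_seg (hax e)).1 he⟩
  have miss : ∀ j c, ∀ q ∈ cell j c, q ∉ frontier U := by
    intro j c q hq h
    obtain ⟨e, h1, h2⟩ := edge q h
    rw [hcell] at hq
    have a1 := (gap hx1 (vx _ (hA e)) (vx _ (hB e)) h1 hq.1.1 hq.1.2).1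
    have a2 := (gap hy1 (vy _ (hA e)) (vy _ (hB e)) h2 hq.2.1 hq.2.2).1
    rcases hax e with g | g
    · exact a1 g
    · exact a2 g
  have allin : ∀ j c, (cell j c ∩ U).Nonempty → cell j c ⊆ U := by
    intro j c hne
    have pc : IsPreconnected (cell j c) := by
      rw [hcell]; exact isPreconnected_Ioo.prod isPreconnected_Ioo
    refine pc.subset_left_of_subset_union hU isClosed_closure.isOpen_compl
      (disjoint_compl_right_iff_subset.2 subset_closure) ?_ hne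
    intro q hq
    by_contra hc
    simp only [mem_union, mem_compl_iff, not_or, not_not] at hc
    exact miss j c q hq (by rw [hU.frontier_eq]; exact ⟨hc.2, hc.1⟩)
  obtain ⟨s, hs⟩ : ∃ s : ℤ → ℤ → Prop, ∀ j c, s j c ↔ cell j c ⊆ U := ⟨_, fun _ _ => Iff.rfl⟩
  have sep : ∀ j c j' c' q, q ∈ closure (cell j c) → q ∈ closure (cell j' c') →
      ¬ (s j c ↔ s j' c') → q ∈ frontier U := by
    have one : ∀ j c j' c' q, q ∈ closure (cell j c) → q ∈ closure (cell j' c') →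
        s j c → ¬ s j' c' → q ∈ frontier U := by
      intro j c j' c' q h1 h2 h3 h4
      rw [hU.frontier_eq]
      refine ⟨closure_mono ((hs _ _).1 h3) h1, fun hq => h4 ((hs _ _).2 (allin _ _ ?_))⟩
      rw [inter_comm]
      exact mem_closure_iff.1 h2 U hU hq
    intro j c j' c' q h1 h2 h3
    by_cases g : s j c
    · exact one j c j' c' q h1 h2 g (by tauto)
    · exact one j' c' j c q h2 h1 (by tauto) g
  have harm : ∀ j c, df s j c → ∃ e, (A e).1 ≠ (B e).1 ∧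
      (xs c, ys j) ∈ segment ℝ (A e) (B e) ∧ (xs (c + 1), ys j) ∈ segment ℝ (A e) (B e) := by
    intro j c h
    have a1 := sx c
    have a2 := sy j
    have a3 := sy (j - 1)
    rw [sub_add_cancel] at a3
    obtain ⟨e, h1, h2⟩ := edge ((xs c + xs (c + 1)) / 2, ys j) (sep j c (j - 1) c _
      (by rw [clo]; exact ⟨⟨by simp only; linarith, by simp only; linarith⟩, le_rfl, a2.le⟩)
      (by rw [clo, sub_add_cancel]
          exact ⟨⟨by simp only; linarith, by simp only; linarith⟩, a3.le, le_rfl⟩) h)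
    obtain ⟨b1, b2, b3⟩ := gap hx1 (vx _ (hA e)) (vx _ (hB e)) h1 (k := c)
      (by simp only; linarith) (by simp only; linarith)
    exact ⟨e, b1, (mem_seg (hax e)).2 ⟨b2, h2⟩, (mem_seg (hax e)).2 ⟨b3, h2⟩⟩
  have varm : ∀ j c, ¬ (s j (c - 1) ↔ s j c) → ∃ e, (A e).1 = (B e).1 ∧
      (xs c, ys j) ∈ segment ℝ (A e) (B e) ∧ (xs c, ys (j + 1)) ∈ segment ℝ (A e) (B e) := by
    intro j c h
    have a1 := sy j
    have a2 := sx c
    have a3 := sx (c - 1)
    rw [sub_add_cancel] at a3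
    obtain ⟨e, h1, h2⟩ := edge (xs c, (ys j + ys (j + 1)) / 2) (sep j (c - 1) j c _
      (by rw [clo, sub_add_cancel]
          exact ⟨⟨a3.le, le_rfl⟩, by simp only; linarith, by simp only; linarith⟩)
      (by rw [clo]; exact ⟨⟨le_rfl, a2.le⟩, by simp only; linarith, by simp only; linarith⟩) h)
    obtain ⟨b1, b2, b3⟩ := gap hy1 (vy _ (hA e)) (vy _ (hB e)) h2 (k := j)
      (by simp only; linarith) (by simp only; linarith)
    exact ⟨e, (hax e).resolve_right b1, (mem_seg (hax e)).2 ⟨h1, b2⟩, (mem_seg (hax e)).2 ⟨h1, b3⟩⟩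
  obtain ⟨R, hR⟩ := hb.exists_norm_le
  obtain ⟨M1, m1, hM1⟩ := range_bd hx1 hx3 R
  obtain ⟨M2, m2, hM2⟩ := range_bd hy1 hy3 R
  have hM : ∀ j c, s j c → -(M1 + M2) ≤ j ∧ j < M1 + M2 ∧ -(M1 + M2) ≤ c ∧ c < M1 + M2 := by
    intro j c h
    have a1 := sx c
    have a2 := sy j
    have hq : ((xs c + xs (c + 1)) / 2, (ys j + ys (j + 1)) / 2) ∈ cell j c := by
      rw [hcell]
      exact ⟨⟨by simp only; linarith, by simp only; linarith⟩, by simp only; linarith,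
        by simp only; linarith⟩
    have b := hR _ ((hs _ _).1 h hq)
    rw [hcell] at hq
    have b1 := hM1 c _ ((norm_fst_le _).trans b) hq.1.1 hq.1.2
    have b2 := hM2 j _ ((norm_snd_le _).trans b) hq.2.1 hq.2.2
    omega
  have hnd : ∀ j c, df s j (c - 1) → df s j c → (s j (c - 1) ↔ s j c) := by
    intro j c h1 h2
    by_contra h3
    obtain ⟨e1, a1, a2, a3⟩ := harm _ _ h1
    obtain ⟨e2, b1, b2, b3⟩ := harm _ _ h2
    obtain ⟨e3, c1, c2, _⟩ := varm _ _ h3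
    rw [sub_add_cancel] at a3
    have n13 : e1 ≠ e3 := fun h => a1 (h ▸ c1)
    have n23 : e2 ≠ e3 := fun h => b1 (h ▸ c1)
    refine hY e1 e2 e3 _ ?_ n23 n13 a3 b2 c2
    rintro rfl
    have d1 := ((mem_seg (hax e1)).1 a2).1
    have d2 := ((mem_seg (hax e1)).1 b3).1
    have d3 := sx c
    have d4 := sx (c - 1)
    rw [sub_add_cancel] at d4
    simp only [mem_uIcc] at d1 d2
    rcases hX e1 e3 _ n13 a3 c2 with g | g
    · have : xs c = (A e1).1 := congrArg Prod.fst g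
      rcases d1 with d1 | d1 <;> rcases d2 with d2 | d2 <;> linarith [d1.1, d1.2, d2.1, d2.2]
    · have : xs c = (B e1).1 := congrArg Prod.fst g
      rcases d1 with d1 | d1 <;> rcases d2 with d2 | d2 <;> linarith [d1.1, d1.2, d2.1, d2.2]
  have corner : ∀ j c, ¬ (df s j (c - 1) ↔ df s j c) → (xs c, ys j) ∈ Vx := by
    intro j c h
    have h1 : ∃ e, (A e).1 ≠ (B e).1 ∧ (xs c, ys j) ∈ segment ℝ (A e) (B e) := by
      by_cases g : df s j c
      · obtain ⟨e, a1, a2, _⟩ := harm _ _ g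
        exact ⟨e, a1, a2⟩
      · obtain ⟨e, a1, _, a3⟩ := harm j (c - 1)
          (by by_contra k; exact h ⟨fun a => absurd a k, fun a => absurd a g⟩)
        rw [sub_add_cancel] at a3
        exact ⟨e, a1, a3⟩
    have h2 : ∃ e, (A e).1 = (B e).1 ∧ (xs c, ys j) ∈ segment ℝ (A e) (B e) := by
      by_cases g : (s j (c - 1) ↔ s j c)
      · obtain ⟨e, a1, _, a3⟩ := varm (j - 1) c (by unfold df at h; tauto)
        rw [sub_add_cancel] at a3
        exact ⟨e, a1, a3⟩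
      · obtain ⟨e, a1, a2, _⟩ := varm _ _ g
        exact ⟨e, a1, a2⟩
    obtain ⟨e, a1, a2⟩ := h1
    obtain ⟨f, b1, b2⟩ := h2
    rcases hX e f _ (fun h => a1 (h ▸ b1)) a2 b2 with g | g
    · rw [g]; exact hA e
    · rw [g]; exact hB e
  choose! cx hcx using vx
  choose! cy hcy using vy
  obtain ⟨G, g1, g2, g3⟩ := grid_guards (add_nonneg m1 m2) hM hnd
    (Vx.image (fun v => (cy v, cx v))) (fun j c h => Finset.mem_image.2 ⟨_, corner j c h,
      Prod.ext (hy1.injective (hcy _ (corner j c h))) (hx1.injective (hcx _ (corner j c h)))⟩)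
  refine ⟨G.image (fun g => (xs g.2, ys g.1)), ?_, ?_, ?_⟩
  · intro q hq
    obtain ⟨g, hg, rfl⟩ := Finset.mem_image.1 hq
    obtain ⟨v, hv, rfl⟩ := Finset.mem_image.1 (g1 hg)
    simp only [hcx v hv, hcy v hv]
    exact hv
  · have a1 : (G.image (fun g => (xs g.2, ys g.1))).card ≤ G.card := Finset.card_image_le
    have a2 : (Vx.image (fun v => (cy v, cx v))).card ≤ Vx.card := Finset.card_image_le
    omega
  · have cover : ∀ p ∈ closure U, ∃ j c, s j c ∧ p ∈ closure (cell j c) := by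
      intro p hp
      have fin : {z : ℤ × ℤ | s z.1 z.2}.Finite := by
        refine ((finite_Icc (-(M1 + M2)) (M1 + M2)).prod
          (finite_Icc (-(M1 + M2)) (M1 + M2))).subset (fun z hz => ?_)
        have := hM _ _ hz
        exact ⟨⟨by omega, by omega⟩, by omega, by omega⟩
      have cl : IsClosed (⋃ z ∈ {z : ℤ × ℤ | s z.1 z.2}, closure (cell z.1 z.2)) :=
        fin.isClosed_biUnion (fun _ _ => isClosed_closure)
      have sub : U ⊆ ⋃ z ∈ {z : ℤ × ℤ | s z.1 z.2}, closure (cell z.1 z.2) := by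
        intro u hu
        obtain ⟨c, a1, a2⟩ := hx3 u.1
        obtain ⟨j, b1, b2⟩ := hy3 u.2
        have hc : u ∈ closure (cell j c) := by rw [clo]; exact ⟨⟨a1, a2.le⟩, b1, b2.le⟩
        refine mem_biUnion (x := (j, c)) ((hs _ _).2 (allin _ _ ?_)) hc
        rw [inter_comm]
        exact mem_closure_iff.1 hc U hU hu
      obtain ⟨z, hz, h⟩ := mem_iUnion₂.1 (closure_minimal sub cl hp)
      exact ⟨z.1, z.2, hz, h⟩
    intro p hp
    obtain ⟨j, c, h1, h2⟩ := cover p hp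
    obtain ⟨x0, x1, y0, y1, a1, a2, a3, a4, a5, g, hg, b1, b2, b3, b4⟩ := g3 j c h1
    refine ⟨_, Finset.mem_image_of_mem _ hg, fun q hq => ?_⟩
    rw [clo] at h2
    have c1 : q.1 ∈ Icc (xs x0) (xs x1) := uIcc_subset_Icc
      ⟨hx1.monotone b3, hx1.monotone b4⟩
      ⟨(hx1.monotone a1).trans h2.1.1, h2.1.2.trans (hx1.monotone (by omega))⟩ hq.1
    have c2 : q.2 ∈ Icc (ys y0) (ys y1) := uIcc_subset_Icc
      ⟨hy1.monotone b1, hy1.monotone b2⟩
      ⟨(hy1.monotone a3).trans h2.2.1, h2.2.2.trans (hy1.monotone (by omega))⟩ hq.2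
    obtain ⟨c', d1, d2, d3⟩ := locate hx1 hx3 (by omega : x0 < x1) c1.1 c1.2
    obtain ⟨j', e1, e2, e3⟩ := locate hy1 hy3 (by omega : y0 < y1) c2.1 c2.2
    refine closure_mono ((hs j' c').1 (a5 j' c' e1 e2 d1 d2)) ?_
    rw [clo]
    exact ⟨d3, e3⟩

end Pool.Agent.Lib.MP_8d6beb_co
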