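import Pool.Agent.Lib.MP_8d6beb_co.Grid

namespace Pool.Agent.Lib.MP_8d6beb_co

open Finset

/-- the grid point on row line `j` and column line `c` is a corner of the region. -/
def Cn (s : ℤ → ℤ → Prop) (j c : ℤ) : Prop := ¬ (df s j (c - 1) ↔ df s j c)

/-- transposed region. -/
def tr (s : ℤ → ℤ → Prop) : ℤ → ℤ → Prop := fun j c => s c j

structure GReg (s : ℤ → ℤ → Prop) (M : ℤ) : Prop where
  pos : 0 ≤ M
  bd : ∀ j c, s j c → -M ≤ j ∧ j < M ∧ -M ≤ c ∧ c < M
  nd : ∀ j c, df s j (c - 1) → df s j c → (s j (c - 1) ↔ s j c)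

/-- at most one horizontal edge on each row line. -/
def GenR (s : ℤ → ℤ → Prop) : Prop :=
  ∀ j c1 c c2, c1 ≤ c → c ≤ c2 → df s j c1 → df s j c2 → df s j c

/-- the complement has at most `h + 1` components. -/
def HK (s : ℤ → ℤ → Prop) (h : ℕ) : Prop :=
  ∃ k : ℤ → ℤ → Fin (h + 1), ∀ X : ℤ → ℤ → ZMod 2,
    (∀ j c, ¬ s j c → ¬ s j (c - 1) → X j c = X j (c - 1)) →
    (∀ j c, ¬ s j c → ¬ s (j - 1) c → X j c = X (j - 1) c) →
    ∃ Y : Fin (h + 1) → ZMod 2, ∀ j c, ¬ s j c → X j c = Y (k j c)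

def Guards (s : ℤ → ℤ → Prop) (G : Finset (ℤ × ℤ)) : Prop :=
  ∀ j c, s j c → ∃ x0 x1 y0 y1, x0 ≤ c ∧ c < x1 ∧ y0 ≤ j ∧
    j < y1 ∧ (∀ j' c', y0 ≤ j' → j' < y1 → x0 ≤ c' → c' < x1 → s j' c') ∧
    ∃ g ∈ G, y0 ≤ g.1 ∧ g.1 ≤ y1 ∧ x0 ≤ g.2 ∧ g.2 ≤ x1

def Goal (s : ℤ → ℤ → Prop) (h : ℕ) : Prop :=
  ∀ V : Finset (ℤ × ℤ), (∀ j c, Cn s j c → (j, c) ∈ V) →
    ∃ G ⊆ V, 4 * G.card ≤ V.card + h ∧ Guards s G

section
variable {s : ℤ → ℤ → Prop} {M : ℤ}

theorem GReg.tr (h : GReg s M) : GReg (tr s) M where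
  pos := h.pos
  bd j c g := by have := h.bd c j g; omega
  nd c j h1 h2 := by
    have := h.nd j c
    simp only [df, MP_8d6beb_co.tr] at *
    tauto

theorem cn_tr {j c : ℤ} : Cn (tr s) c j ↔ Cn s j c := by
  simp only [Cn, df, tr]
  tauto

theorem HK.tr {h : ℕ} (g : HK s h) : HK (tr s) h := by
  obtain ⟨k, hk⟩ := g
  refine ⟨fun j c => k c j, fun X h1 h2 => ?_⟩
  obtain ⟨Y, hY⟩ := hk (fun j c => X c j) (fun j c => h2 c j) (fun j c => h1 c j)
  exact ⟨Y, fun j c => hY c j⟩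

theorem Goal.of_tr {h : ℕ} (g : Goal (tr s) h) : Goal s h := by
  intro V hV
  obtain ⟨G, g1, g2, g3⟩ := g (V.image Prod.swap)
    (fun c j a => mem_image.2 ⟨(j, c), hV j c (cn_tr.1 a), rfl⟩)
  refine ⟨G.image Prod.swap, ?_, ?_, ?_⟩
  · intro e he
    obtain ⟨f, hf, rfl⟩ := mem_image.1 he
    obtain ⟨v, hv, rfl⟩ := mem_image.1 (g1 hf)
    exact hv
  · have a1 : (G.image Prod.swap).card ≤ G.card := card_image_le
    have a2 : (V.image Prod.swap).card ≤ V.card := card_image_le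
    omega
  · intro j c hs
    obtain ⟨x0, x1, y0, y1, a1, a2, a3, a4, a5, e, he, b1, b2, b3, b4⟩ := g3 c j hs
    exact ⟨y0, y1, x0, x1, a3, a4, a1, a2, fun j' c' c1 c2 c3 c4 => a5 c' j' c3 c4 c1 c2,
      e.swap, mem_image_of_mem _ he, b3, b4, b1, b2⟩

theorem col_chain {X : ℤ → ℤ → ZMod 2} (h : ∀ j c, ¬ s j c → ¬ s (j - 1) c → X j c = X (j - 1) c)
    {c a b : ℤ} (hab : a ≤ b) (hs : ∀ u, a ≤ u → u ≤ b → ¬ s u c) : X b c = X a c := by
  induction b, hab using Int.le_induction with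
  | base => rfl
  | succ n hn ih =>
    rw [h (n + 1) c (hs _ (by omega) le_rfl) (hs _ (by omega) (by omega)), add_sub_cancel_right]
    exact ih (fun u h1 h2 => hs u h1 (by omega))

theorem refine_step (hR : GReg s M) : ∃ S M', GReg S M' ∧ GenR S ∧ (GenR (tr s) → GenR (tr S)) ∧
    (∀ h, HK s h → HK S h) ∧ ∀ h, Goal S h → Goal s h := by
  classical
  obtain ⟨hM0, hM, hnd⟩ := hR
  choose H hH1 hH2 hH3 using exists_hi hM
  obtain ⟨W, hW⟩ : ∃ W : ℤ, W = 2 * M + 1 := ⟨_, rfl⟩
  have hW0 : 0 < W := by omega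
  obtain ⟨J, hJ⟩ : ∃ J : ℤ → ℤ, ∀ t, J t = t / W := ⟨_, fun _ => rfl⟩
  obtain ⟨K, hK⟩ : ∃ K : ℤ → ℤ, ∀ t, K t = t % W - M := ⟨_, fun _ => rfl⟩
  have dec : ∀ t, t = W * J t + K t + M ∧ -M ≤ K t ∧ K t ≤ M := by
    intro t
    have a1 := Int.mul_ediv_add_emod t W
    have a2 := Int.emod_nonneg t hW0.ne'
    have a3 := Int.emod_lt_of_pos t hW0
    rw [hJ, hK]
    omega
  have uni : ∀ t j k, t = W * j + k + M → -M ≤ k → k ≤ M → J t = j ∧ K t = k := by
    intro t j k h1 h2 h3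
    have := (Int.ediv_emod_unique (a := t) (r := k + M) (q := j) hW0).2 ⟨by omega, by omega, by omega⟩
    rw [hJ, hK]
    omega
  have mono : ∀ t u, t ≤ u → J t ≤ J u := fun t u h => by
    rw [hJ, hJ]; exact Int.ediv_le_ediv hW0 h
  obtain ⟨S, hS⟩ : ∃ S : ℤ → ℤ → Prop, ∀ t c, S t c ↔ TT s (J t) (K t) c := ⟨_, fun _ _ => Iff.rfl⟩
  have prev : ∀ t c, S (t - 1) c ↔ TT s (J t) (K t - 1) c := by
    intro t c
    rw [hS]
    obtain ⟨a1, a2, a3⟩ := dec t
    rcases a2.eq_or_lt with g | g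
    · obtain ⟨b1, b2⟩ := uni (t - 1) (J t - 1) M (by rw [mul_sub]; omega) (by omega) le_rfl
      rw [b1, b2, ← g, TT_top hM, TT_bot hM]
    · obtain ⟨b1, b2⟩ := uni (t - 1) (J t) (K t - 1) (by omega) (by omega) (by omega)
      rw [b1, b2]
  have rng : ∀ t, -M ≤ J t → J t ≤ M → -(W * (M + 1)) ≤ t ∧ t < W * (M + 1) := by
    intro t h1 h2
    obtain ⟨a1, a2, a3⟩ := dec t
    have b1 : W * (-M) ≤ W * J t := mul_le_mul_of_nonneg_left h1 hW0.le
    have b2 : W * J t ≤ W * M := mul_le_mul_of_nonneg_left h2 hW0.le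
    rw [mul_neg] at b1
    rw [mul_add]
    omega
  have big : M + 1 ≤ W * (M + 1) := le_mul_of_one_le_left (by omega) (by omega)
  have inn : ∀ t c, ¬ df s (J t) (K t - 1) → K t ≤ c → c < H (J t) (K t) →
      (S t c ↔ s (J t) (K t)) ∧ df S t c := by
    intro t c ht h1 h2
    have a1 : ∀ d, K t ≤ d → d ≤ c → df s (J t) d := fun d b1 b2 => hH3 _ _ d b1 (by omega)
    have a2 : ¬ ∀ d, K t - 1 ≤ d → d ≤ c → df s (J t) d := fun g => ht (g _ le_rfl (by omega))
    have a3 := run_const hnd (hH3 (J t) (K t)) c h1 h2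
    have a4 := a1 c h1 le_rfl
    rw [df, prev, hS]
    rw [df] at a4
    unfold TT; tauto
  have dfS : ∀ t c, df S t c → ¬ df s (J t) (K t - 1) ∧ K t ≤ c ∧ c < H (J t) (K t) := by
    intro t c h
    rw [df, prev, hS] at h
    refine ⟨?_, ?_, ?_⟩
    · intro g
      exact h (TT_non _ _ _ (fun a => a.2 g))
    · by_contra g
      exact h (TT_left _ _ _ (not_le.1 g))
    · by_contra g
      have a1 : ¬ ∀ d, K t ≤ d → d ≤ c → df s (J t) d := fun a =>
        hH2 _ _ (a _ (hH1 _ _) (not_lt.1 g))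
      have a2 : ¬ ∀ d, K t - 1 ≤ d → d ≤ c → df s (J t) d := fun a =>
        a1 (fun d b1 b2 => a d (by omega) b2)
      apply h
      unfold TT; tauto
  obtain ⟨p, hp⟩ : ∃ p : ℤ → ℤ → ℤ, ∀ t c, p t c =
    if ∀ d, K t ≤ d → d ≤ c → df s (J t) d then J t else J t - 1 := ⟨_, fun _ _ => rfl⟩
  have pS : ∀ t c, S t c ↔ s (p t c) c := by
    intro t c
    rw [hS, hp]
    split_ifs with g <;> unfold TT <;> tauto
  have pS' : ∀ t c, S t c ↔ s (p t (c - 1)) c := by
    intro t c
    rw [hS, hp]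
    split_ifs with g
    · by_cases g2 : df s (J t) c
      · have : ∀ d, K t ≤ d → d ≤ c → df s (J t) d := fun d b1 b2 => by
          rcases b2.eq_or_lt with rfl | b2
          · exact g2
          · exact g d b1 (by omega)
        unfold TT; tauto
      · rw [df] at g2
        unfold TT; tauto
    · have : ¬ ∀ d, K t ≤ d → d ≤ c → df s (J t) d := fun a => g (fun d b1 b2 => a d b1 (by omega))
      unfold TT; tauto
  have pbd : ∀ t c, J t - 1 ≤ p t c ∧ p t c ≤ J t := by
    intro t c; rw [hp]; split_ifs <;> omega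
  have pmono : ∀ t u c, t ≤ u → p t c ≤ p u c := by
    intro t u c h
    rcases (mono t u h).eq_or_lt with g | g
    · have a1 := (dec t).1
      have a2 := (dec u).1
      rw [g] at a1
      rw [hp, hp, g]
      split_ifs with b1 b2
      · omega
      · exact absurd (fun d c1 c2 => b1 d (by omega) c2) b2
      · omega
      · omega
    · have := pbd t c
      have := pbd u c
      omega
  have real : ∀ j, J (W * j + M + M) = j ∧ K (W * j + M + M) = M := fun j =>
    uni _ j M rfl (by omega) le_rfl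
  have realS : ∀ j c, S (W * j + M + M) c ↔ s j c := fun j c => by
    rw [hS, (real j).1, (real j).2, TT_top hM]
  have Jlo : ∀ j u, W * (j - 1) + M + M < u → j ≤ J u := by
    intro j u h
    have a1 := mono (W * j + -M + M) u (by rw [mul_sub] at h; omega)
    rwa [(uni _ j (-M) rfl le_rfl (by omega)).1] at a1
  have Jhi : ∀ j u, u ≤ W * j + M + M → J u ≤ j := by
    intro j u h
    have a1 := mono _ _ h
    rwa [(real j).1] at a1
  have Sbd : ∀ t c, S t c → -(W * (M + 1)) ≤ t ∧ t < W * (M + 1) ∧ -(W * (M + 1)) ≤ c ∧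
      c < W * (M + 1) := by
    intro t c h
    have a1 := hM _ _ ((pS t c).1 h)
    have a2 := pbd t c
    have := rng t (by omega) (by omega)
    omega
  refine ⟨S, W * (M + 1), ⟨by omega, Sbd, ?_⟩, ?_, ?_, ?_, ?_⟩
  · intro t c h1 h2
    have a1 := dfS _ _ h1
    have a2 := dfS _ _ h2
    rw [(inn t _ a1.1 a1.2.1 a1.2.2).1, (inn t _ a2.1 a2.2.1 a2.2.2).1]
  · intro t c1 c c2 h1 h2 h3 h4
    have a1 := dfS _ _ h3
    have a2 := dfS _ _ h4
    exact (inn t c a1.1 (by omega) (by omega)).2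
  · intro g c t1 t t2 h1 h2 h3 h4
    have e : ∀ t, df (tr S) c t ↔ df (tr s) c (p t (c - 1)) := by
      intro t
      simp only [df, tr]
      rw [pS' t c, pS t (c - 1)]
    rw [e] at h3 h4 ⊢
    exact g c _ _ _ (pmono _ _ _ h1) (pmono _ _ _ h2) h3 h4
  · rintro h ⟨k, hk⟩
    refine ⟨fun t c => k (p t c) c, fun X h1 h2 => ?_⟩
    obtain ⟨Y, hY⟩ := hk (fun j c => X (W * j + M + M) c)
      (fun j c a1 a2 => h1 _ _ (by rwa [realS]) (by rwa [realS]))
      (fun j c a1 a2 => col_chain h2 (by rw [mul_sub]; omega) (fun u b1 b2 => by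
        rcases b1.eq_or_lt with rfl | b1
        · rwa [realS]
        · have c1 := Jlo j u b1
          have c2 := Jhi j u b2
          have c3 := pbd u c
          rw [pS]
          rcases (show p u c = j ∨ p u c = j - 1 by omega) with e | e <;> rwa [e]))
    refine ⟨Y, fun t c a => ?_⟩
    rw [pS] at a
    rw [← hY _ _ a]
    have d := dec t
    have c3 := pbd t c
    rcases (show p t c = J t ∨ p t c = J t - 1 by omega) with e | e
    · refine (col_chain h2 (by rw [e]; omega) (fun u b1 b2 => ?_)).symm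
      have c1 := Jhi _ u b2
      have c2 := pmono _ _ c b1
      have c4 := pbd u c
      rw [pS, show p u c = p t c by omega]
      exact a
    · refine col_chain h2 (by rw [e, mul_sub]; omega) (fun u b1 b2 => ?_)
      rcases b1.eq_or_lt with rfl | b1
      · rwa [realS]
      · rw [e] at b1
        have c1 := Jlo _ u b1
        have c2 := pmono _ _ c b2
        have c4 := pbd u c
        rw [pS, show p u c = p t c by omega]
        exact a
  · intro h g V hV
    have cn : ∀ t c, Cn S t c → ¬ df s (J t) (K t - 1) ∧ K t < H (J t) (K t) ∧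
        (c = K t ∨ c = H (J t) (K t)) := by
      intro t c a
      by_cases b1 : df S t c
      · have b2 := dfS _ _ b1
        refine ⟨b2.1, by omega, Or.inl ?_⟩
        by_contra b3
        exact a ⟨fun _ => b1, fun _ => (inn t _ b2.1 (by omega) (by omega)).2⟩
      · have b4 : df S t (c - 1) := by
          by_contra b4
          exact a ⟨fun x => absurd x b4, fun x => absurd x b1⟩
        have b2 := dfS _ _ b4
        refine ⟨b2.1, by omega, Or.inr ?_⟩
        by_contra b3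
        exact b1 (inn t _ b2.1 (by omega) (by omega)).2
    have cn2 : ∀ t c, Cn S t c → Cn s (J t) c := by
      intro t c a
      obtain ⟨a1, a2, a3⟩ := cn t c a
      rcases a3 with rfl | rfl
      · exact fun b => a1 (b.2 (hH3 _ _ _ le_rfl a2))
      · exact fun b => hH2 _ _ (b.1 (hH3 _ (K t) _ (by omega) (by omega)))
    let B := W * (M + 1)
    let V' := (Icc (-B) B ×ˢ Icc (-B) B).filter (fun e => Cn S e.1 e.2)
    obtain ⟨G, g1, g2, g3⟩ := g V' (fun t c a => mem_filter.2 ⟨by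
      have b : df S t c ∨ df S t (c - 1) := by
        by_contra b
        exact a ⟨fun x => absurd (Or.inr x) b, fun x => absurd (Or.inl x) b⟩
      rw [mem_product, mem_Icc, mem_Icc]
      rcases b with b | b <;> have := df_bd Sbd b <;> simp only <;> omega, a⟩)
    have cnt : V'.card ≤ V.card := by
      apply card_le_card_of_injOn (fun e => (J e.1, e.2))
      · intro e he
        exact hV _ _ (cn2 _ _ (mem_filter.1 he).2)
      · rintro ⟨t, c⟩ ht ⟨u, c'⟩ hu e
        simp only [Prod.mk.injEq] at e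
        obtain ⟨e1, rfl⟩ := e
        obtain ⟨a1, a2, a3⟩ := cn _ _ (mem_filter.1 ht).2
        obtain ⟨b1, b2, b3⟩ := cn _ _ (mem_filter.1 hu).2
        simp only at a1 a2 a3 b1 b2 b3
        have d1 := (dec t).1
        have d2 := (dec u).1
        rw [e1] at a1 a2 a3 d1
        have : K t = K u := by
          rcases lt_trichotomy (K t) (K u) with g | g | g
          · have f : ¬ K u - 1 < H (J u) (K t) := fun f => b1 (hH3 _ (K t) _ (by omega) f)
            omega
          · exact g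
          · have f : ¬ K t - 1 < H (J u) (K u) := fun f => a1 (hH3 _ (K u) _ (by omega) f)
            omega
        rw [this] at d1
        rw [show t = u by omega]
    refine ⟨G.image (fun e => (J e.1, e.2)), ?_, ?_, ?_⟩
    · intro e he
      obtain ⟨f, hf, rfl⟩ := mem_image.1 he
      exact hV _ _ (cn2 _ _ (mem_filter.1 (g1 hf)).2)
    · have : (G.image (fun e => (J e.1, e.2))).card ≤ G.card := card_image_le
      omega
    · intro j c hs
      obtain ⟨x0, x1, y0, y1, a1, a2, a3, a4, a5, e, he, b1, b2, b3, b4⟩ := g3 _ c ((realS j c).2 hs)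
      have c1 := Jlo (j + 1) y1 (by rwa [add_sub_cancel_right])
      refine ⟨x0, x1, J y0, J y1, a1, a2, Jhi _ _ a3, by omega, ?_, _, mem_image_of_mem _ he,
        mono _ _ b1, mono _ _ b2, b3, b4⟩
      intro j' c' d1 d2 d3 d4
      refine (realS j' c').1 (a5 _ _ ?_ ?_ d3 d4)
      · by_contra f
        have := Jlo (j' + 1) y0 (by rw [add_sub_cancel_right]; omega)
        omega
      · by_contra f
        have := Jhi j' y1 (by omega)
        omega

theorem reduce (H : ∀ s M h, GReg s M → GenR s → GenR (tr s) → HK s h → Goal s h) {h : ℕ}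
    (hR : GReg s M) (hK : HK s h) : Goal s h := by
  obtain ⟨S1, M1, a1, a2, _, a4, a5⟩ := refine_step hR.tr
  obtain ⟨S2, M2, b1, b2, b3, b4, b5⟩ := refine_step a1.tr
  exact (a5 h (b5 h (H S2 M2 h b1 b2 (b3 a2) (b4 h (a4 h hK.tr).tr))).of_tr).of_tr

end

end Pool.Agent.Lib.MP_8d6beb_co
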