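import Pool.Agent.Lib.MP_8d6beb_co.Geometry
import Pool.Agent.Lib.MP_8d6beb_co.Refine

namespace Pool.Agent.Lib.MP_8d6beb_co

open Set

theorem row_chain {s : ℤ → ℤ → Prop} {X : ℤ → ℤ → ZMod 2}
    (h : ∀ j c, ¬ s j c → ¬ s j (c - 1) → X j c = X j (c - 1))
    {j a b : ℤ} (hab : a ≤ b) (hs : ∀ u, a ≤ u → u ≤ b → ¬ s j u) : X j b = X j a :=
  col_chain (s := tr s) (X := fun c j => X j c) (fun c j => h j c) hab hs

theorem line_step {α : Type*} {f : ℤ → α} {a b c : ℤ}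
    (h : ∀ u, min a b ≤ u → u < max a b → f (u + 1) = f u)
    (h1 : min a b ≤ c) (h2 : c ≤ max a b) : f c = f a := by
  have key : ∀ c, min a b ≤ c → c ≤ max a b → f c = f (min a b) := by
    intro c h1
    induction c, h1 using Int.le_induction with
    | base => intro _; rfl
    | succ n hn ih => intro g; rw [h n hn (by omega), ih (by omega)]
  rw [key c h1 h2, key a (min_le_left _ _) (le_max_left _ _)]

theorem walk {α : Type*} {f : ℤ → Prop} {a b : ℤ} (ha : ¬ f a) (hb : f b) :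
    ∃ u, ¬ f u ∧ (f (u + 1) ∨ f (u - 1)) ∧
      ∀ X : ℤ → α, (∀ v, ¬ f v → ¬ f (v - 1) → X v = X (v - 1)) → X a = X u := by
  classical
  have chain : ∀ (X : ℤ → α), (∀ v, ¬ f v → ¬ f (v - 1) → X v = X (v - 1)) → ∀ p q, p ≤ q →
      (∀ v, p ≤ v → v ≤ q → ¬ f v) → X q = X p := by
    intro X hX p q hpq
    induction q, hpq using Int.le_induction with
    | base => intro _; rfl
    | succ n hn ih =>
      intro hs
      rw [hX (n + 1) (hs _ (by omega) le_rfl) (hs _ (by omega) (by omega)), add_sub_cancel_right]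
      exact ih (fun u h1 h2 => hs u h1 (by omega))
  rcases le_total a b with g | g
  · obtain ⟨u, ⟨h1, h2⟩, hmin⟩ := Int.exists_least_of_bdd (P := fun z => a ≤ z ∧ f z)
      ⟨a, fun z hz => hz.1⟩ ⟨b, g, hb⟩
    have hu : a < u := lt_of_le_of_ne h1 (fun e => ha (e ▸ h2))
    have nf : ∀ v, a ≤ v → v ≤ u - 1 → ¬ f v := fun v b1 b2 b3 => by
      have := hmin v ⟨b1, b3⟩; omega
    exact ⟨u - 1, nf _ (by omega) le_rfl, Or.inl (by rwa [sub_add_cancel]),
      fun X hX => (chain X hX a (u - 1) (by omega) nf).symm⟩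
  · obtain ⟨u, ⟨h1, h2⟩, hmax⟩ := Int.exists_greatest_of_bdd (P := fun z => z ≤ a ∧ f z)
      ⟨a, fun z hz => hz.1⟩ ⟨b, g, hb⟩
    have hu : u < a := lt_of_le_of_ne h1 (fun e => ha (e ▸ h2))
    have nf : ∀ v, u + 1 ≤ v → v ≤ a → ¬ f v := fun v b1 b2 b3 => by
      have := hmax v ⟨b2, b3⟩; omega
    exact ⟨u + 1, nf _ le_rfl (by omega), Or.inr (by rwa [add_sub_cancel_right]),
      fun X hX => chain X hX (u + 1) a (by omega) nf⟩

theorem near0 {α : Type*} {p q r t : Prop} {a b c d : α} (h1 : ¬ p → ¬ q → a = b)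
    (h2 : ¬ r → ¬ t → c = d) (h3 : ¬ p → ¬ r → a = c) (h4 : ¬ q → ¬ t → b = d)
    (h5 : ¬ (q ↔ t) → ¬ (p ↔ r) → (q ↔ p)) :
    ∃ x, (¬ p → a = x) ∧ (¬ q → b = x) ∧ (¬ r → c = x) ∧ (¬ t → d = x) := by
  by_cases b1 : p <;> by_cases b2 : q <;> by_cases b3 : r <;> by_cases b4 : t <;> simp_all
  exact ⟨a⟩

theorem near {s : ℤ → ℤ → Prop} {M : ℤ} (hR : GReg s M) {X : ℤ → ℤ → ZMod 2}
    (h1 : ∀ j c, ¬ s j c → ¬ s j (c - 1) → X j c = X j (c - 1))
    (h2 : ∀ j c, ¬ s j c → ¬ s (j - 1) c → X j c = X (j - 1) c) (j c : ℤ) :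
    ∃ x, ∀ j' c', (j' = j ∨ j' = j - 1) → (c' = c ∨ c' = c - 1) → ¬ s j' c' → X j' c' = x := by
  obtain ⟨x, a1, a2, a3, a4⟩ := near0 (h1 j c) (h1 (j - 1) c) (h2 j c) (h2 j (c - 1)) (hR.nd j c)
  refine ⟨x, ?_⟩
  rintro j' c' (rfl | rfl) (rfl | rfl)
  exacts [a1, a2, a3, a4]

theorem idx_mem {xs : ℤ → ℝ} (h : StrictMono xs) {a b c : ℤ} :
    xs c ∈ uIcc (xs a) (xs b) ↔ min a b ≤ c ∧ c ≤ max a b := by
  rw [mem_uIcc]
  simp only [h.le_iff_le]
  omega

theorem geo2 (HG : ∀ s M h, GReg s M → HK s h → Goal s h) {ι : Type*} (A B : ι → ℝ × ℝ) (hax : ∀ e, (A e).1 = (B e).1 ∨ (A e).2 = (B e).2)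
    (hX : ∀ e f p, e ≠ f → p ∈ segment ℝ (A e) (B e) → p ∈ segment ℝ (A f) (B f) →
      p = A e ∨ p = B e)
    (hY : ∀ e f g p, e ≠ f → f ≠ g → e ≠ g → p ∈ segment ℝ (A e) (B e) →
      p ∈ segment ℝ (A f) (B f) → p ∈ segment ℝ (A g) (B g) → False)
    (Vx : Finset (ℝ × ℝ)) (hA : ∀ e, A e ∈ Vx) (hB : ∀ e, B e ∈ Vx)
    (U : Set (ℝ × ℝ)) (hU : IsOpen U) (hb : Bornology.IsBounded U)
    (hf : frontier U ⊆ ⋃ e, segment ℝ (A e) (B e))
    (hside : ∀ e, ∀ q ∈ segment ℝ (A e) (B e), q ∉ interior (closure U))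
    (h : ℕ) (ke : ι → Fin (h + 1))
    (hch : ∀ X : ℝ × ℝ → ZMod 2, (∀ e, X (B e) = X (A e)) → ∃ Y : Fin (h + 1) → ZMod 2,
      ∀ e, X (A e) = Y (ke e)) :
    ∃ G ⊆ Vx, 4 * G.card ≤ Vx.card + h ∧
      ∀ p ∈ closure U, ∃ g ∈ G, uIcc g.1 p.1 ×ˢ uIcc g.2 p.2 ⊆ closure U := by
  classical
  obtain ⟨xs, hx1, hx2, hx3⟩ := exists_grid (Vx.image Prod.fst)
  obtain ⟨ys, hy1, hy2, hy3⟩ := exists_grid (Vx.image Prod.snd)
  have vx : ∀ v ∈ Vx, ∃ i, xs i = v.1 := fun v hv => hx2 _ (Finset.mem_image_of_mem _ hv)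
  have vy : ∀ v ∈ Vx, ∃ i, ys i = v.2 := fun v hv => hy2 _ (Finset.mem_image_of_mem _ hv)
  have sx : ∀ c, xs c < xs (c + 1) := fun c => hx1 (by omega)
  have sy : ∀ c, ys c < ys (c + 1) := fun c => hy1 (by omega)
  obtain ⟨cell, hcell⟩ : ∃ cell : ℤ → ℤ → Set (ℝ × ℝ), ∀ j c,
    cell j c = Ioo (xs c) (xs (c + 1)) ×ˢ Ioo (ys j) (ys (j + 1)) := ⟨_, fun _ _ => rfl⟩
  have clo : ∀ j c, closure (cell j c) = Icc (xs c) (xs (c + 1)) ×ˢ Icc (ys j) (ys (j + 1)) := by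
    intro j c
    rw [hcell, closure_prod_eq, closure_Ioo (sx c).ne, closure_Ioo (sy j).ne]
  have edge : ∀ q ∈ frontier U, ∃ e, q.1 ∈ uIcc (A e).1 (B e).1 ∧ q.2 ∈ uIcc (A e).2 (B e).2 := by
    intro q hq
    obtain ⟨e, he⟩ := mem_iUnion.1 (hf hq)
    exact ⟨e, (mem_seg (hax e)).1 he⟩
  have miss : ∀ j c, ∀ q ∈ cell j c, q ∉ frontier U := by
    intro j c q hq h
    obtain ⟨e, h1, h2⟩ := edge q h
    rw [hcell] at hq
    have a1 := (gap hx1 (vx _ (hA e)) (vx _ (hB e)) h1 hq.1.1 hq.1.2).1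
    have a2 := (gap hy1 (vy _ (hA e)) (vy _ (hB e)) h2 hq.2.1 hq.2.2).1
    rcases hax e with g | g
    · exact a1 g
    · exact a2 g
  have allin : ∀ j c, (cell j c ∩ U).Nonempty → cell j c ⊆ U := by
    intro j c hne
    have pc : IsPreconnected (cell j c) := by
      rw [hcell]; exact isPreconnected_Ioo.prod isPreconnected_Ioo
    refine pc.subset_left_of_subset_union hU isClosed_closure.isOpen_compl
      (disjoint_compl_right_iff_subset.2 subset_closure) ?_ hne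
    intro q hq
    by_contra hc
    simp only [mem_union, mem_compl_iff, not_or, not_not] at hc
    exact miss j c q hq (by rw [hU.frontier_eq]; exact ⟨hc.2, hc.1⟩)
  obtain ⟨s, hs⟩ : ∃ s : ℤ → ℤ → Prop, ∀ j c, s j c ↔ cell j c ⊆ U := ⟨_, fun _ _ => Iff.rfl⟩
  have sep : ∀ j c j' c' q, q ∈ closure (cell j c) → q ∈ closure (cell j' c') →
      ¬ (s j c ↔ s j' c') → q ∈ frontier U := by
    have one : ∀ j c j' c' q, q ∈ closure (cell j c) → q ∈ closure (cell j' c') →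
        s j c → ¬ s j' c' → q ∈ frontier U := by
      intro j c j' c' q h1 h2 h3 h4
      rw [hU.frontier_eq]
      refine ⟨closure_mono ((hs _ _).1 h3) h1, fun hq => h4 ((hs _ _).2 (allin _ _ ?_))⟩
      rw [inter_comm]
      exact mem_closure_iff.1 h2 U hU hq
    intro j c j' c' q h1 h2 h3
    by_cases g : s j c
    · exact one j c j' c' q h1 h2 g (by tauto)
    · exact one j' c' j c q h2 h1 (by tauto) g
  have harm : ∀ j c, df s j c → ∃ e, (A e).1 ≠ (B e).1 ∧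
      (xs c, ys j) ∈ segment ℝ (A e) (B e) ∧ (xs (c + 1), ys j) ∈ segment ℝ (A e) (B e) := by
    intro j c h
    have a1 := sx c
    have a2 := sy j
    have a3 := sy (j - 1)
    rw [sub_add_cancel] at a3
    obtain ⟨e, h1, h2⟩ := edge ((xs c + xs (c + 1)) / 2, ys j) (sep j c (j - 1) c _
      (by rw [clo]; exact ⟨⟨by simp only; linarith, by simp only; linarith⟩, le_rfl, a2.le⟩)
      (by rw [clo, sub_add_cancel]
          exact ⟨⟨by simp only; linarith, by simp only; linarith⟩, a3.le, le_rfl⟩) h)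
    obtain ⟨b1, b2, b3⟩ := gap hx1 (vx _ (hA e)) (vx _ (hB e)) h1 (k := c)
      (by simp only; linarith) (by simp only; linarith)
    exact ⟨e, b1, (mem_seg (hax e)).2 ⟨b2, h2⟩, (mem_seg (hax e)).2 ⟨b3, h2⟩⟩
  have varm : ∀ j c, ¬ (s j (c - 1) ↔ s j c) → ∃ e, (A e).1 = (B e).1 ∧
      (xs c, ys j) ∈ segment ℝ (A e) (B e) ∧ (xs c, ys (j + 1)) ∈ segment ℝ (A e) (B e) := by
    intro j c h
    have a1 := sy j
    have a2 := sx c
    have a3 := sx (c - 1)
    rw [sub_add_cancel] at a3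
    obtain ⟨e, h1, h2⟩ := edge (xs c, (ys j + ys (j + 1)) / 2) (sep j (c - 1) j c _
      (by rw [clo, sub_add_cancel]
          exact ⟨⟨a3.le, le_rfl⟩, by simp only; linarith, by simp only; linarith⟩)
      (by rw [clo]; exact ⟨⟨le_rfl, a2.le⟩, by simp only; linarith, by simp only; linarith⟩) h)
    obtain ⟨b1, b2, b3⟩ := gap hy1 (vy _ (hA e)) (vy _ (hB e)) h2 (k := j)
      (by simp only; linarith) (by simp only; linarith)
    exact ⟨e, (hax e).resolve_right b1, (mem_seg (hax e)).2 ⟨h1, b2⟩, (mem_seg (hax e)).2 ⟨h1, b3⟩⟩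
  obtain ⟨R, hR⟩ := hb.exists_norm_le
  obtain ⟨M1, m1, hM1⟩ := range_bd hx1 hx3 R
  obtain ⟨M2, m2, hM2⟩ := range_bd hy1 hy3 R
  have hM : ∀ j c, s j c → -(M1 + M2) ≤ j ∧ j < M1 + M2 ∧ -(M1 + M2) ≤ c ∧ c < M1 + M2 := by
    intro j c h
    have a1 := sx c
    have a2 := sy j
    have hq : ((xs c + xs (c + 1)) / 2, (ys j + ys (j + 1)) / 2) ∈ cell j c := by
      rw [hcell]
      exact ⟨⟨by simp only; linarith, by simp only; linarith⟩, by simp only; linarith,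
        by simp only; linarith⟩
    have b := hR _ ((hs _ _).1 h hq)
    rw [hcell] at hq
    have b1 := hM1 c _ ((norm_fst_le _).trans b) hq.1.1 hq.1.2
    have b2 := hM2 j _ ((norm_snd_le _).trans b) hq.2.1 hq.2.2
    omega
  have hnd : ∀ j c, df s j (c - 1) → df s j c → (s j (c - 1) ↔ s j c) := by
    intro j c h1 h2
    by_contra h3
    obtain ⟨e1, a1, a2, a3⟩ := harm _ _ h1
    obtain ⟨e2, b1, b2, b3⟩ := harm _ _ h2
    obtain ⟨e3, c1, c2, _⟩ := varm _ _ h3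
    rw [sub_add_cancel] at a3
    have n13 : e1 ≠ e3 := fun h => a1 (h ▸ c1)
    have n23 : e2 ≠ e3 := fun h => b1 (h ▸ c1)
    refine hY e1 e2 e3 _ ?_ n23 n13 a3 b2 c2
    rintro rfl
    have d1 := ((mem_seg (hax e1)).1 a2).1
    have d2 := ((mem_seg (hax e1)).1 b3).1
    have d3 := sx c
    have d4 := sx (c - 1)
    rw [sub_add_cancel] at d4
    simp only [mem_uIcc] at d1 d2
    rcases hX e1 e3 _ n13 a3 c2 with g | g
    · have : xs c = (A e1).1 := congrArg Prod.fst g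
      rcases d1 with d1 | d1 <;> rcases d2 with d2 | d2 <;> linarith [d1.1, d1.2, d2.1, d2.2]
    · have : xs c = (B e1).1 := congrArg Prod.fst g
      rcases d1 with d1 | d1 <;> rcases d2 with d2 | d2 <;> linarith [d1.1, d1.2, d2.1, d2.2]
  have corner : ∀ j c, ¬ (df s j (c - 1) ↔ df s j c) → (xs c, ys j) ∈ Vx := by
    intro j c h
    have h1 : ∃ e, (A e).1 ≠ (B e).1 ∧ (xs c, ys j) ∈ segment ℝ (A e) (B e) := by
      by_cases g : df s j c
      · obtain ⟨e, a1, a2, _⟩ := harm _ _ g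
        exact ⟨e, a1, a2⟩
      · obtain ⟨e, a1, _, a3⟩ := harm j (c - 1)
          (by by_contra k; exact h ⟨fun a => absurd a k, fun a => absurd a g⟩)
        rw [sub_add_cancel] at a3
        exact ⟨e, a1, a3⟩
    have h2 : ∃ e, (A e).1 = (B e).1 ∧ (xs c, ys j) ∈ segment ℝ (A e) (B e) := by
      by_cases g : (s j (c - 1) ↔ s j c)
      · obtain ⟨e, a1, _, a3⟩ := varm (j - 1) c (by unfold df at h; tauto)
        rw [sub_add_cancel] at a3
        exact ⟨e, a1, a3⟩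
      · obtain ⟨e, a1, a2, _⟩ := varm _ _ g
        exact ⟨e, a1, a2⟩
    obtain ⟨e, a1, a2⟩ := h1
    obtain ⟨f, b1, b2⟩ := h2
    rcases hX e f _ (fun h => a1 (h ▸ b1)) a2 b2 with g | g
    · rw [g]; exact hA e
    · rw [g]; exact hB e
  choose! cx hcx using vx
  choose! cy hcy using vy
  have cover : ∀ p ∈ closure U, ∃ j c, s j c ∧ p ∈ closure (cell j c) := by
    intro p hp
    have fin : {z : ℤ × ℤ | s z.1 z.2}.Finite := by
      refine ((finite_Icc (-(M1 + M2)) (M1 + M2)).prod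
        (finite_Icc (-(M1 + M2)) (M1 + M2))).subset (fun z hz => ?_)
      have := hM _ _ hz
      exact ⟨⟨by omega, by omega⟩, by omega, by omega⟩
    have cl : IsClosed (⋃ z ∈ {z : ℤ × ℤ | s z.1 z.2}, closure (cell z.1 z.2)) :=
      fin.isClosed_biUnion (fun _ _ => isClosed_closure)
    have sub : U ⊆ ⋃ z ∈ {z : ℤ × ℤ | s z.1 z.2}, closure (cell z.1 z.2) := by
      intro u hu
      obtain ⟨c, a1, a2⟩ := hx3 u.1
      obtain ⟨j, b1, b2⟩ := hy3 u.2
      have hc : u ∈ closure (cell j c) := by rw [clo]; exact ⟨⟨a1, a2.le⟩, b1, b2.le⟩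
      refine mem_biUnion (x := (j, c)) ((hs _ _).2 (allin _ _ ?_)) hc
      rw [inter_comm]
      exact mem_closure_iff.1 hc U hU hu
    obtain ⟨z, hz, h⟩ := mem_iUnion₂.1 (closure_minimal sub cl hp)
    exact ⟨z.1, z.2, hz, h⟩
  by_cases hne : ∃ j c, s j c
  swap
  · refine ⟨∅, Finset.empty_subset _, by simp, fun p hp => ?_⟩
    obtain ⟨j, c, h1, _⟩ := cover p hp
    exact absurd ⟨j, c, h1⟩ hne
  have hR' : GReg s (M1 + M2) := ⟨add_nonneg m1 m2, hM, hnd⟩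
  have hs1 : ∀ e j c, ((xs c + xs (c + 1)) / 2, ys j) ∈ segment ℝ (A e) (B e) →
      ¬ s j c ∨ ¬ s (j - 1) c := by
    intro e j c hq
    by_contra hc
    simp only [not_or, not_not] at hc
    refine hside e _ hq (mem_interior.2 ⟨Ioo (xs c) (xs (c + 1)) ×ˢ Ioo (ys (j - 1)) (ys (j + 1)),
      fun q hq => ?_, isOpen_Ioo.prod isOpen_Ioo, ?_⟩)
    · rcases le_total q.2 (ys j) with g | g
      · refine closure_mono ((hs _ _).1 hc.2) ?_
        rw [clo, sub_add_cancel]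
        exact ⟨⟨hq.1.1.le, hq.1.2.le⟩, hq.2.1.le, g⟩
      · refine closure_mono ((hs _ _).1 hc.1) ?_
        rw [clo]
        exact ⟨⟨hq.1.1.le, hq.1.2.le⟩, g, hq.2.2.le⟩
    · have := sx c
      exact ⟨⟨by simp only; linarith, by simp only; linarith⟩, hy1 (by omega), hy1 (by omega)⟩
  have hs2 : ∀ e j c, (xs c, (ys j + ys (j + 1)) / 2) ∈ segment ℝ (A e) (B e) →
      ¬ s j c ∨ ¬ s j (c - 1) := by
    intro e j c hq
    by_contra hc
    simp only [not_or, not_not] at hc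
    refine hside e _ hq (mem_interior.2 ⟨Ioo (xs (c - 1)) (xs (c + 1)) ×ˢ Ioo (ys j) (ys (j + 1)),
      fun q hq => ?_, isOpen_Ioo.prod isOpen_Ioo, ?_⟩)
    · rcases le_total q.1 (xs c) with g | g
      · refine closure_mono ((hs _ _).1 hc.2) ?_
        rw [clo, sub_add_cancel]
        exact ⟨⟨hq.1.1.le, g⟩, hq.2.1.le, hq.2.2.le⟩
      · refine closure_mono ((hs _ _).1 hc.1) ?_
        rw [clo]
        exact ⟨⟨g, hq.1.2.le⟩, hq.2.1.le, hq.2.2.le⟩
    · have := sy j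
      exact ⟨⟨hx1 (by omega), hx1 (by omega)⟩, by simp only; linarith, by simp only; linarith⟩
  have along : ∀ (X Z : ℤ → ℤ → ZMod 2), (∀ j c j' c', (j' = j ∨ j' = j - 1) →
      (c' = c ∨ c' = c - 1) → ¬ s j' c' → X j' c' = Z j c) → ∀ e j c,
      (xs c, ys j) ∈ segment ℝ (A e) (B e) → Z j c = Z (cy (A e)) (cx (A e)) := by
    intro X Z hZ e j c hp
    have ax := hcx _ (hA e)
    have ay := hcy _ (hA e)
    have bx := hcx _ (hB e)
    have by' := hcy _ (hB e)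
    obtain ⟨p1, p2⟩ := (mem_seg (hax e)).1 hp
    simp only at p1 p2
    rcases hax e with g | g
    · have e1 : c = cx (A e) := by
        rw [← g, uIcc_self, mem_singleton_iff, ← ax] at p1
        exact hx1.injective p1
      subst e1
      rw [← ay, ← by', idx_mem hy1] at p2
      refine line_step (f := fun u => Z u (cx (A e))) (fun u b1 b2 => ?_) p2.1 p2.2
      have c1 : ys u ∈ uIcc (A e).2 (B e).2 := by
        rw [← ay, ← by', idx_mem hy1]; omega
      have c2 : ys (u + 1) ∈ uIcc (A e).2 (B e).2 := by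
        rw [← ay, ← by', idx_mem hy1]; omega
      have c3 := sy u
      rcases hs2 e u (cx (A e)) ((mem_seg (hax e)).2 ⟨p1, uIcc_subset_uIcc c1 c2
        (mem_uIcc.2 (Or.inl ⟨by simp only; linarith, by simp only; linarith⟩))⟩) with d | d
      · rw [← hZ (u + 1) _ u _ (by omega) (Or.inl rfl) d, hZ u _ u _ (Or.inl rfl) (Or.inl rfl) d]
      · rw [← hZ (u + 1) _ u _ (by omega) (Or.inr rfl) d, hZ u _ u _ (Or.inl rfl) (Or.inr rfl) d]
    · have e1 : j = cy (A e) := by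
        rw [← g, uIcc_self, mem_singleton_iff, ← ay] at p2
        exact hy1.injective p2
      subst e1
      rw [← ax, ← bx, idx_mem hx1] at p1
      refine line_step (f := fun u => Z (cy (A e)) u) (fun u b1 b2 => ?_) p1.1 p1.2
      have c1 : xs u ∈ uIcc (A e).1 (B e).1 := by
        rw [← ax, ← bx, idx_mem hx1]; omega
      have c2 : xs (u + 1) ∈ uIcc (A e).1 (B e).1 := by
        rw [← ax, ← bx, idx_mem hx1]; omega
      have c3 := sx u
      rcases hs1 e (cy (A e)) u ((mem_seg (hax e)).2 ⟨uIcc_subset_uIcc c1 c2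
        (mem_uIcc.2 (Or.inl ⟨by simp only; linarith, by simp only; linarith⟩)), p2⟩) with d | d
      · rw [← hZ _ (u + 1) _ u (Or.inl rfl) (by omega) d, hZ _ u _ u (Or.inl rfl) (Or.inl rfl) d]
      · rw [← hZ _ (u + 1) _ u (Or.inr rfl) (by omega) d, hZ _ u _ u (Or.inr rfl) (Or.inl rfl) d]
  have target : ∀ j c, ¬ s j c → ∃ e j' c' j1 c1, (xs c1, ys j1) ∈ segment ℝ (A e) (B e) ∧
      (j' = j1 ∨ j' = j1 - 1) ∧ (c' = c1 ∨ c' = c1 - 1) ∧ ¬ s j' c' ∧ ∀ X : ℤ → ℤ → ZMod 2,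
      (∀ j c, ¬ s j c → ¬ s j (c - 1) → X j c = X j (c - 1)) →
      (∀ j c, ¬ s j c → ¬ s (j - 1) c → X j c = X (j - 1) c) → X j c = X j' c' := by
    intro j c hn
    by_cases g : ∃ c0, s j c0
    · obtain ⟨c0, g⟩ := g
      obtain ⟨u, a1, a2, a3⟩ := walk (α := ZMod 2) (f := s j) hn g
      rcases a2 with a2 | a2
      · obtain ⟨e, _, b, _⟩ := varm j (u + 1) (by rw [add_sub_cancel_right]; tauto)
        exact ⟨e, j, u, j, u + 1, b, Or.inl rfl, by omega, a1, fun X b1 _ => a3 (X j) (b1 j)⟩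
      · obtain ⟨e, _, b, _⟩ := varm j u (by tauto)
        exact ⟨e, j, u, j, u, b, Or.inl rfl, Or.inl rfl, a1, fun X b1 _ => a3 (X j) (b1 j)⟩
    · obtain ⟨j0, c0, g0⟩ := hne
      have g' : ∀ c, ¬ s j c := fun c a => g ⟨c, a⟩
      obtain ⟨u, a1, a2, a3⟩ := walk (α := ZMod 2) (f := fun u => s u c0) (g' c0) g0
      have mv : ∀ X : ℤ → ℤ → ZMod 2, (∀ j c, ¬ s j c → ¬ s j (c - 1) → X j c = X j (c - 1)) →
          (∀ j c, ¬ s j c → ¬ s (j - 1) c → X j c = X (j - 1) c) → X j c = X u c0 := by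
        intro X b1 b2
        rw [← a3 (fun u => X u c0) (fun v => b2 v c0)]
        rcases le_total c c0 with d | d
        · exact (row_chain b1 d (fun v _ _ => g' v)).symm
        · exact row_chain b1 d (fun v _ _ => g' v)
      rcases a2 with a2 | a2
      · obtain ⟨e, _, b, _⟩ := harm (u + 1) c0 (by rw [df, add_sub_cancel_right]; tauto)
        exact ⟨e, u, c0, u + 1, c0, b, by omega, Or.inl rfl, a1, mv⟩
      · obtain ⟨e, _, b, _⟩ := harm u c0 (by rw [df]; tauto)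
        exact ⟨e, u, c0, u, c0, b, Or.inl rfl, Or.inl rfl, a1, mv⟩
  have hK : HK s h := by
    choose te tj tc tj1 tc1 t1 t2 t3 t4 t5 using target
    refine ⟨fun j c => if g : s j c then 0 else ke (te j c g), fun X b1 b2 => ?_⟩
    choose Z hZ using near hR' b1 b2
    obtain ⟨Y, hY⟩ := hch (fun v => Z (cy v) (cx v)) (fun e => along X Z hZ e _ _ (by
      rw [hcx _ (hB e), hcy _ (hB e)]; exact right_mem_segment _ _ _))
    refine ⟨Y, fun j c g => ?_⟩
    simp only [dif_neg g]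
    rw [t5 j c g X b1 b2, hZ _ _ _ _ (t2 j c g) (t3 j c g) (t4 j c g), along X Z hZ _ _ _ (t1 j c g),
      hY]
  obtain ⟨G, g1, g2, g3⟩ := HG s _ h hR' hK
    (Vx.image (fun v => (cy v, cx v))) (fun j c h => Finset.mem_image.2 ⟨_, corner j c h,
      Prod.ext (hy1.injective (hcy _ (corner j c h))) (hx1.injective (hcx _ (corner j c h)))⟩)
  refine ⟨G.image (fun g => (xs g.2, ys g.1)), ?_, ?_, ?_⟩
  · intro q hq
    obtain ⟨g, hg, rfl⟩ := Finset.mem_image.1 hq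
    obtain ⟨v, hv, rfl⟩ := Finset.mem_image.1 (g1 hg)
    simp only [hcx v hv, hcy v hv]
    exact hv
  · have a1 : (G.image (fun g => (xs g.2, ys g.1))).card ≤ G.card := Finset.card_image_le
    have a2 : (Vx.image (fun v => (cy v, cx v))).card ≤ Vx.card := Finset.card_image_le
    omega
  · intro p hp
    obtain ⟨j, c, h1, h2⟩ := cover p hp
    obtain ⟨x0, x1, y0, y1, a1, a2, a3, a4, a5, g, hg, b1, b2, b3, b4⟩ := g3 j c h1
    refine ⟨_, Finset.mem_image_of_mem _ hg, fun q hq => ?_⟩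
    rw [clo] at h2
    have c1 : q.1 ∈ Icc (xs x0) (xs x1) := uIcc_subset_Icc
      ⟨hx1.monotone b3, hx1.monotone b4⟩
      ⟨(hx1.monotone a1).trans h2.1.1, h2.1.2.trans (hx1.monotone (by omega))⟩ hq.1
    have c2 : q.2 ∈ Icc (ys y0) (ys y1) := uIcc_subset_Icc
      ⟨hy1.monotone b1, hy1.monotone b2⟩
      ⟨(hy1.monotone a3).trans h2.2.1, h2.2.2.trans (hy1.monotone (by omega))⟩ hq.2
    obtain ⟨c', d1, d2, d3⟩ := locate hx1 hx3 (by omega : x0 < x1) c1.1 c1.2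
    obtain ⟨j', e1, e2, e3⟩ := locate hy1 hy3 (by omega : y0 < y1) c2.1 c2.2
    refine closure_mono ((hs j' c').1 (a5 j' c' e1 e2 d1 d2)) ?_
    rw [clo]
    exact ⟨d3, e3⟩

end Pool.Agent.Lib.MP_8d6beb_co
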