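import Mathlib

namespace Pool.Agent.Lib.MP_8d6beb_co

open Finset

variable {β : Type} [DecidableEq β]

/-- `I` contains no edge of `E`. -/
def Ind (E : Finset (β × β)) (I : Finset β) : Prop := ∀ e ∈ E, e.1 ∈ I → e.2 ∈ I → False

open Classical in
/-- independence number of the graph induced on `V`. -/
noncomputable def al (E : Finset (β × β)) (V : Finset β) : ℕ :=
  (V.powerset.filter (Ind E)).sup card

/-- edges inside `V`. -/
def eds (E : Finset (β × β)) (V : Finset β) : Finset (β × β) :=
  E.filter (fun e => e.1 ∈ V ∧ e.2 ∈ V)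

def NoLoop (E : Finset (β × β)) : Prop := ∀ e ∈ E, e.1 ≠ e.2

/-- the independence number is additive over some proper partition of `V` in two parts. -/
def Dec (E : Finset (β × β)) (V : Finset β) : Prop :=
  ∃ V1 V2 : Finset β, V1.Nonempty ∧ V2.Nonempty ∧ Disjoint V1 V2 ∧ V1 ∪ V2 = V ∧
    al E V1 + al E V2 ≤ al E V

theorem le_al {E : Finset (β × β)} {V I : Finset β} (h : I ⊆ V) (hI : Ind E I) :
    I.card ≤ al E V := by
  classical
  unfold al
  exact Finset.le_sup (f := card) (by simp [h, hI])

theorem exists_al (E : Finset (β × β)) (V : Finset β) :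
    ∃ I ⊆ V, Ind E I ∧ I.card = al E V := by
  classical
  unfold al
  obtain ⟨I, hI, h⟩ := Finset.exists_mem_eq_sup (V.powerset.filter (Ind E))
    ⟨∅, by simp [Ind]⟩ card
  simp only [mem_filter, mem_powerset] at hI
  exact ⟨I, hI.1, hI.2, h.symm⟩

theorem Ind.mono {E : Finset (β × β)} {I J : Finset β} (h : Ind E J) (hs : I ⊆ J) : Ind E I :=
  fun e he h1 h2 => h e he (hs h1) (hs h2)

theorem al_mono (E : Finset (β × β)) {V W : Finset β} (h : V ⊆ W) : al E V ≤ al E W := by
  obtain ⟨I, h1, h2, h3⟩ := exists_al E V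
  rw [← h3]; exact le_al (h1.trans h) h2

theorem al_le_card (E : Finset (β × β)) (V : Finset β) : al E V ≤ V.card := by
  obtain ⟨I, h1, _, h3⟩ := exists_al E V
  rw [← h3]; exact card_le_card h1

theorem al_union (E : Finset (β × β)) (V W : Finset β) : al E (V ∪ W) ≤ al E V + al E W := by
  obtain ⟨I, h1, h2, h3⟩ := exists_al E (V ∪ W)
  rw [← h3]
  have a1 : (I ∩ V).card ≤ al E V := le_al inter_subset_right (h2.mono inter_subset_left)
  have a2 : (I ∩ W).card ≤ al E W := le_al inter_subset_right (h2.mono inter_subset_left)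
  have : I ⊆ (I ∩ V) ∪ (I ∩ W) := by
    intro x hx
    have := h1 hx
    simp only [mem_union, mem_inter] at this ⊢
    tauto
  exact (card_le_card this).trans ((card_union_le _ _).trans (by omega))

theorem al_biUnion (E : Finset (β × β)) (P : Finset (Finset β)) :
    al E (P.biUnion id) ≤ ∑ C ∈ P, al E C := by
  induction P using Finset.induction_on with
  | empty => simpa using al_le_card E ∅
  | insert C P hC ih =>
    rw [biUnion_insert, sum_insert hC]
    exact (al_union E _ _).trans (by simp only [id]; omega)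

theorem one_le_al {E : Finset (β × β)} (hE : NoLoop E) {V : Finset β} (h : V.Nonempty) :
    1 ≤ al E V := by
  obtain ⟨x, hx⟩ := h
  have : ({x} : Finset β).card ≤ al E V := by
    apply le_al (by simpa using hx)
    intro e he h1 h2
    simp only [mem_singleton] at h1 h2
    exact hE e he (h1.trans h2.symm)
  simpa using this

/-- partition into parts that do not split further. -/
theorem exists_parts (E : Finset (β × β)) (V : Finset β) :
    ∃ P : Finset (Finset β), (∀ C ∈ P, C.Nonempty ∧ ¬ Dec E C) ∧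
      (∀ C ∈ P, ∀ D ∈ P, C ≠ D → Disjoint C D) ∧ P.biUnion id = V ∧
      ∑ C ∈ P, al E C ≤ al E V := by
  induction' hn : V.card using Nat.strong_induction_on with n ih generalizing V
  by_cases hV : V = ∅
  · exact ⟨∅, by simp, by simp, by simp [hV], by simp⟩
  by_cases hd : Dec E V
  · obtain ⟨V1, V2, n1, n2, hdis, hu, hle⟩ := hd
    have hc : V1.card + V2.card = n := by rw [← hn, ← hu, card_union_of_disjoint hdis]
    have p1 := n1.card_pos
    have p2 := n2.card_pos
    obtain ⟨P1, a1, b1, c1, d1⟩ := ih V1.card (by omega) V1 rfl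
    obtain ⟨P2, a2, b2, c2, d2⟩ := ih V2.card (by omega) V2 rfl
    have s1 : ∀ C ∈ P1, C ⊆ V1 := fun C hC => c1 ▸ subset_biUnion_of_mem id hC
    have s2 : ∀ C ∈ P2, C ⊆ V2 := fun C hC => c2 ▸ subset_biUnion_of_mem id hC
    refine ⟨P1 ∪ P2, ?_, ?_, ?_, ?_⟩
    · intro C hC
      rcases mem_union.1 hC with h | h
      · exact a1 C h
      · exact a2 C h
    · intro C hC D hD hne
      rcases mem_union.1 hC with h | h <;> rcases mem_union.1 hD with h' | h'
      · exact b1 C h D h' hne
      · exact Disjoint.mono (s1 C h) (s2 D h') hdis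
      · exact Disjoint.mono (s2 C h) (s1 D h') hdis.symm
      · exact b2 C h D h' hne
    · rw [union_biUnion, c1, c2, hu]
    · have := sum_union_inter (s₁ := P1) (s₂ := P2) (f := fun C => al E C)
      omega
  · refine ⟨{V}, ?_, by simp, by simp, by simp⟩
    intro C hC
    rw [mem_singleton.1 hC]
    exact ⟨nonempty_iff_ne_empty.2 hV, hd⟩

/-- capacity data of a part. -/
def Cap (E : Finset (β × β)) (C : Finset β) (k : ℕ) : Prop :=
  (∀ X ⊆ C, X.card ≤ k → al E C ≤ al E (C \ X)) ∧
    3 * C.card ≤ (eds E C).card + 4 * al E C + k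

theorem hall_step {E : Finset (β × β)} (hE : NoLoop E) {V : Finset β} {v : β} (hv : v ∈ V)
    (h2 : 2 ≤ V.card) (hnd : ¬ Dec E V) (P : Finset (Finset β))
    (hne : ∀ C ∈ P, C.Nonempty) (hdis : ∀ C ∈ P, ∀ D ∈ P, C ≠ D → Disjoint C D)
    (hun : P.biUnion id = V.erase v) (hsum : ∑ C ∈ P, al E C ≤ al E (V.erase v))
    (k : Finset β → ℕ) (hk : ∀ C ∈ P, Cap E C (k C)) :
    3 * V.card ≤ (eds E V).card + 4 * al E V + 2 := by
  classical
  have hsub : ∀ C ∈ P, C ⊆ V.erase v := fun C hC => hun ▸ subset_biUnion_of_mem id hC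
  have hsame : ∀ C ∈ P, ∀ D ∈ P, ∀ x, x ∈ C → x ∈ D → C = D := by
    intro C hC D hD x h1 h2
    by_contra hne'
    exact disjoint_left.1 (hdis C hC D hD hne') h1 h2
  set F := (eds E V).filter (fun e => ¬ ∃ C ∈ P, e.1 ∈ C ∧ e.2 ∈ C) with hF
  let cov : Finset (Finset β) → Finset β := fun S => insert v (S.biUnion id)
  let g : Finset (Finset β) → ℕ := fun S => (F.filter (fun e => e.1 ∈ cov S ∧ e.2 ∈ cov S)).card
  let f : Finset (Finset β) → ℤ := fun S => (g S : ℤ) - ∑ C ∈ S, (k C : ℤ)
  have memcov : ∀ S x, x ∈ cov S ↔ x = v ∨ ∃ C ∈ S, x ∈ C := by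
    intro S x; simp [cov]
  have memV : ∀ x ∈ V, x = v ∨ ∃ C ∈ P, x ∈ C := by
    intro x hx
    by_cases h : x = v
    · exact Or.inl h
    · have : x ∈ P.biUnion id := by rw [hun]; exact mem_erase.2 ⟨h, hx⟩
      right; simpa using this
  have key : ∀ S ⊆ P, (∀ S' ⊆ P, f S' ≤ f S) → S = P := by
    intro S hS hmax
    by_contra hSP
    set U := P \ S with hU
    set T := F.filter (fun e => ¬ (e.1 ∈ cov S ∧ e.2 ∈ cov S)) with hT
    let sl : Finset β → Finset (Finset β × ℕ) := fun C => (range (k C)).image (fun j => (C, j))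
    let tch : β × β → Finset (Finset β) := fun e => U.filter (fun C => e.1 ∈ C ∨ e.2 ∈ C)
    let t : T → Finset (Finset β × ℕ) := fun e => (tch e.1).biUnion sl
    have hall : ∀ s : Finset T, s.card ≤ (s.biUnion t).card := by
      intro s
      let N : Finset (Finset β) := s.biUnion (fun e => tch e.1)
      have hNU : N ⊆ U := by
        intro C hC
        obtain ⟨e, _, he⟩ := mem_biUnion.1 hC
        exact (mem_filter.1 he).1
      have e1 : s.biUnion t = N.biUnion sl := by
        ext z
        simp only [mem_biUnion, t, N]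
        constructor
        · rintro ⟨e, he, C, hC, hz⟩; exact ⟨C, ⟨e, he, hC⟩, hz⟩
        · rintro ⟨C, ⟨e, he, hC⟩, hz⟩; exact ⟨e, he, C, hC, hz⟩
      have e2 : (N.biUnion sl).card = ∑ C ∈ N, k C := by
        rw [card_biUnion]
        · apply sum_congr rfl
          intro C _
          simp only [sl]
          rw [card_image_of_injective _ (fun a b h => (Prod.ext_iff.1 h).2), card_range]
        · intro C _ D _ hne'
          simp only [Function.onFun, sl]
          rw [disjoint_left]
          intro z h1 h2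
          obtain ⟨a, _, rfl⟩ := mem_image.1 h1
          obtain ⟨b, _, hb⟩ := mem_image.1 h2
          exact hne' (Prod.ext_iff.1 hb).1.symm
      have dSN : Disjoint S N := Disjoint.mono_right hNU disjoint_sdiff
      have e3 := hmax (S ∪ N) (union_subset hS (hNU.trans sdiff_subset))
      have e4 : g S + s.card ≤ g (S ∪ N) := by
        have : s.card = (s.map (Function.Embedding.subtype _)).card := by rw [card_map]
        rw [this]
        simp only [g]
        rw [← card_union_of_disjoint]
        · apply card_le_card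
          intro e he
          rcases mem_union.1 he with h | h
          · obtain ⟨h0, h1, h2⟩ := mem_filter.1 h
            refine mem_filter.2 ⟨h0, ?_, ?_⟩
            · rcases (memcov _ _).1 h1 with h | ⟨C, hC, h⟩
              · exact (memcov _ _).2 (Or.inl h)
              · exact (memcov _ _).2 (Or.inr ⟨C, mem_union_left _ hC, h⟩)
            · rcases (memcov _ _).1 h2 with h | ⟨C, hC, h⟩
              · exact (memcov _ _).2 (Or.inl h)
              · exact (memcov _ _).2 (Or.inr ⟨C, mem_union_left _ hC, h⟩)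
          · obtain ⟨e', he', rfl⟩ := mem_map.1 h
            have hF' : e'.1 ∈ F := (mem_filter.1 e'.2).1
            have hV' := (mem_filter.1 (mem_filter.1 hF').1).2
            have aux : ∀ x ∈ V, (x = e'.1.1 ∨ x = e'.1.2) → x ∈ cov (S ∪ N) := by
              intro x hx hxe
              rcases memV x hx with h | ⟨C, hC, h⟩
              · exact (memcov _ _).2 (Or.inl h)
              · refine (memcov _ _).2 (Or.inr ⟨C, ?_, h⟩)
                by_cases hCS : C ∈ S
                · exact mem_union_left _ hCS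
                · refine mem_union_right _ (mem_biUnion.2 ⟨e', he', mem_filter.2
                    ⟨mem_sdiff.2 ⟨hC, hCS⟩, ?_⟩⟩)
                  rcases hxe with rfl | rfl
                  · exact Or.inl h
                  · exact Or.inr h
            exact mem_filter.2 ⟨hF', aux _ hV'.1 (Or.inl rfl), aux _ hV'.2 (Or.inr rfl)⟩
        · rw [disjoint_left]
          intro e h1 h2
          obtain ⟨e', _, rfl⟩ := mem_map.1 h2
          exact (mem_filter.1 e'.2).2 (mem_filter.1 h1).2
      rw [e1, e2]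
      simp only [f] at e3
      rw [sum_union dSN] at e3
      have : ((s.card : ℕ) : ℤ) ≤ ((∑ C ∈ N, k C : ℕ) : ℤ) := by
        push_cast
        have : ((g S : ℕ) : ℤ) + s.card ≤ g (S ∪ N) := by exact_mod_cast e4
        linarith
      exact_mod_cast this
    obtain ⟨φ, hφ, hφt⟩ := (Finset.all_card_le_biUnion_card_iff_exists_injective t).1 hall
    let pk : Finset β → T → β := fun C e => if e.1.1 ∈ C then e.1.1 else e.1.2
    let X : Finset β → Finset β := fun C =>
      ((univ : Finset T).filter (fun e => (φ e).1 = C)).image (pk C)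
    have hφ1 : ∀ e : T, (φ e).1 ∈ tch e.1 ∧ (φ e).2 < k (φ e).1 := by
      intro e
      obtain ⟨C, hC, hz⟩ := mem_biUnion.1 (hφt e)
      obtain ⟨j, hj, hz⟩ := mem_image.1 hz
      rw [← hz]
      exact ⟨hC, mem_range.1 hj⟩
    have hXsub : ∀ C, X C ⊆ C := by
      intro C x hx
      obtain ⟨e, he, rfl⟩ := mem_image.1 hx
      have h1 := (mem_filter.1 he).2
      have h2 := (mem_filter.1 (hφ1 e).1).2
      rw [h1] at h2
      simp only [pk]
      split_ifs with h
      · exact h
      · tauto
    have hXcard : ∀ C, (X C).card ≤ k C := by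
      intro C
      refine card_image_le.trans ?_
      rw [← card_range (k C)]
      apply card_le_card_of_injOn (fun e => (φ e).2)
      · intro e he
        have h1 := (mem_filter.1 he).2
        have := (hφ1 e).2
        rw [h1] at this
        simpa using this
      · intro a ha b hb hab
        apply hφ
        have h1 := (mem_filter.1 ha).2
        have h2 := (mem_filter.1 hb).2
        exact Prod.ext (h1.trans h2.symm) hab
    have hI : ∀ C, ∃ I ⊆ C \ X C, Ind E I ∧ I.card = al E (C \ X C) := fun C => exists_al E _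
    choose J hJ1 hJ2 hJ3 using hI
    obtain ⟨I0, h01, h02, h03⟩ := exists_al E (cov S)
    have hUP : ∀ C ∈ U, C ∈ P ∧ C ∉ S := fun C hC => mem_sdiff.1 hC
    have hJC : ∀ C, J C ⊆ C := fun C => (hJ1 C).trans sdiff_subset
    have hcovU : ∀ C ∈ U, ∀ x ∈ C, x ∉ cov S := by
      intro C hC x hx hc
      rcases (memcov _ _).1 hc with h | ⟨D, hD, h⟩
      · exact (mem_erase.1 (hsub C (hUP C hC).1 hx)).1 h
      · have := hsame C (hUP C hC).1 D (hS hD) x hx h
        exact (hUP C hC).2 (this ▸ hD)
    have hcovV : cov S ⊆ V := by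
      intro x hx
      rcases (memcov _ _).1 hx with h | ⟨D, hD, h⟩
      · exact h ▸ hv
      · exact (mem_erase.1 (hsub D (hS hD) h)).2
    have hIV : I0 ∪ U.biUnion J ⊆ V := by
      apply union_subset (h01.trans hcovV)
      intro x hx
      obtain ⟨C, hC, hx⟩ := mem_biUnion.1 hx
      exact (mem_erase.1 (hsub C (hUP C hC).1 (hJC C hx))).2
    have hinJ : ∀ C ∈ U, ∀ x ∈ C, x ∈ I0 ∪ U.biUnion J → x ∈ J C := by
      intro C hC x hx hi
      rcases mem_union.1 hi with h | h
      · exact absurd (h01 h) (hcovU C hC x hx)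
      · obtain ⟨D, hD, h⟩ := mem_biUnion.1 h
        have := hsame C (hUP C hC).1 D (hUP D hD).1 x hx (hJC D h)
        rw [this]; exact h
    have hin0 : ∀ x ∈ cov S, x ∈ I0 ∪ U.biUnion J → x ∈ I0 := by
      intro x hx hi
      rcases mem_union.1 hi with h | h
      · exact h
      · obtain ⟨D, hD, h⟩ := mem_biUnion.1 h
        exact absurd hx (hcovU D hD x (hJC D h))
    have hind : Ind E (I0 ∪ U.biUnion J) := by
      intro e he h1 h2
      by_cases hc : e.1 ∈ cov S ∧ e.2 ∈ cov S
      · exact h02 e he (hin0 _ hc.1 h1) (hin0 _ hc.2 h2)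
      by_cases hp : ∃ C ∈ P, e.1 ∈ C ∧ e.2 ∈ C
      · obtain ⟨C, hC, a1, a2⟩ := hp
        have hCS : C ∉ S := fun h =>
          hc ⟨(memcov _ _).2 (Or.inr ⟨C, h, a1⟩), (memcov _ _).2 (Or.inr ⟨C, h, a2⟩)⟩
        have hCU : C ∈ U := mem_sdiff.2 ⟨hC, hCS⟩
        exact hJ2 C e he (hinJ C hCU _ a1 h1) (hinJ C hCU _ a2 h2)
      have heT : e ∈ T := mem_filter.2 ⟨mem_filter.2 ⟨mem_filter.2 ⟨he, hIV h1, hIV h2⟩, hp⟩, hc⟩
      set C := (φ ⟨e, heT⟩).1 with hC
      have hCU : C ∈ U := (mem_filter.1 (hφ1 ⟨e, heT⟩).1).1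
      have hx : pk C ⟨e, heT⟩ ∈ X C := mem_image.2 ⟨⟨e, heT⟩, mem_filter.2 ⟨mem_univ _, rfl⟩, rfl⟩
      have hxI : pk C ⟨e, heT⟩ ∈ I0 ∪ U.biUnion J := by
        simp only [pk]
        split_ifs
        · exact h1
        · exact h2
      exact (mem_sdiff.1 (hJ1 C (hinJ C hCU _ (hXsub C hx) hxI))).2 hx
    have hcard : (I0 ∪ U.biUnion J).card = al E (cov S) + ∑ C ∈ U, (J C).card := by
      rw [card_union_of_disjoint, h03, card_biUnion]
      · intro C hC D hD hne'
        exact Disjoint.mono (hJC C) (hJC D) (hdis C (hUP C hC).1 D (hUP D hD).1 hne')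
      · rw [disjoint_left]
        intro x h1 h2
        obtain ⟨D, hD, h⟩ := mem_biUnion.1 h2
        exact hcovU D hD x (hJC D h) (h01 h1)
    have hge : ∑ C ∈ U, al E C ≤ ∑ C ∈ U, (J C).card := by
      apply sum_le_sum
      intro C hC
      rw [hJ3]
      exact (hk C (hUP C hC).1).1 _ (hXsub C) (hXcard C)
    have hle := le_al hIV hind
    have hb := al_biUnion E U
    apply hnd
    refine ⟨cov S, U.biUnion id, ⟨v, (memcov _ _).2 (Or.inl rfl)⟩, ?_, ?_, ?_, by omega⟩
    · have : U.Nonempty := by
        rw [hU, sdiff_nonempty]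
        exact fun h => hSP (Subset.antisymm hS h)
      obtain ⟨C, hC⟩ := this
      obtain ⟨x, hx⟩ := hne C (hUP C hC).1
      exact ⟨x, mem_biUnion.2 ⟨C, hC, hx⟩⟩
    · rw [disjoint_right]
      intro x h1
      obtain ⟨D, hD, h⟩ := mem_biUnion.1 h1
      exact hcovU D hD x h
    · apply Subset.antisymm
      · apply union_subset hcovV
        intro x hx
        obtain ⟨C, hC, hx⟩ := mem_biUnion.1 hx
        exact (mem_erase.1 (hsub C (hUP C hC).1 hx)).2
      · intro x hx
        rcases memV x hx with h | ⟨C, hC, h⟩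
        · exact mem_union_left _ ((memcov _ _).2 (Or.inl h))
        · by_cases hCS : C ∈ S
          · exact mem_union_left _ ((memcov _ _).2 (Or.inr ⟨C, hCS, h⟩))
          · exact mem_union_right _ (mem_biUnion.2 ⟨C, mem_sdiff.2 ⟨hC, hCS⟩, h⟩)
  obtain ⟨S, hS, hmax⟩ := exists_max_image P.powerset f ⟨∅, by simp⟩
  have hmax' : ∀ S' ⊆ P, f S' ≤ f S := fun S' h => hmax S' (mem_powerset.2 h)
  have hSP := key S (mem_powerset.1 hS) hmax'
  subst hSP
  have hcardV : V.card = 1 + ∑ C ∈ S, C.card := by
    have : (S.biUnion id).card = ∑ C ∈ S, C.card := by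
      rw [card_biUnion]
      · rfl
      · intro C hC D hD hne'; exact hdis C hC D hD hne'
    rw [← this, hun, card_erase_of_mem hv]; omega
  have hpos : 1 ≤ f S := by
    by_contra hlt
    have h0 : (0 : ℤ) ≤ f ∅ := by simp [f]
    have := key ∅ (empty_subset _) (fun S' h => (hmax' S' h).trans (by omega))
    rw [← this] at hcardV
    simp at hcardV
    omega
  have hgF : g S ≤ F.card := card_le_card (filter_subset _ _)
  have hed : F.card + ∑ C ∈ S, (eds E C).card ≤ (eds E V).card := by
    rw [← card_biUnion, ← card_union_of_disjoint]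
    · apply card_le_card
      apply union_subset (filter_subset _ _)
      intro e he
      obtain ⟨C, hC, he⟩ := mem_biUnion.1 he
      obtain ⟨h0, h1, h2⟩ := mem_filter.1 he
      exact mem_filter.2 ⟨h0, (mem_erase.1 (hsub C hC h1)).2, (mem_erase.1 (hsub C hC h2)).2⟩
    · rw [disjoint_left]
      intro e h1 h2
      obtain ⟨C, hC, he⟩ := mem_biUnion.1 h2
      exact (mem_filter.1 h1).2 ⟨C, hC, (mem_filter.1 he).2⟩
    · intro C hC D hD hne'
      simp only [Function.onFun]
      rw [disjoint_left]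
      intro e h1 h2
      exact hne' (hsame C hC D hD e.1 (mem_filter.1 h1).2.1 (mem_filter.1 h2).2.1)
  have hs3 : ∑ C ∈ S, 3 * C.card ≤ ∑ C ∈ S, ((eds E C).card + 4 * al E C + k C) :=
    sum_le_sum (fun C hC => (hk C hC).2)
  rw [sum_add_distrib, sum_add_distrib, ← mul_sum, ← mul_sum] at hs3
  have hal := al_mono E (erase_subset v V)
  have hk' : (∑ C ∈ S, k C) + 1 ≤ g S := by
    simp only [f] at hpos
    have : ((∑ C ∈ S, k C : ℕ) : ℤ) + 1 ≤ g S := by push_cast; linarith
    exact_mod_cast this
  omega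

end Pool.Agent.Lib.MP_8d6beb_co
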