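import Pool.Agent.Lib.MP_8d6beb_co.Model

namespace Pool.Agent.Lib.MP_8d6beb_co

open Finset

/-- the unit segment below the cell in row `j`, column `c` separates inside from outside. -/
def df (s : ℤ → ℤ → Prop) (j c : ℤ) : Prop := ¬ (s j c ↔ s (j - 1) c)

/-- intermediate state between the rows `j - 1` and `j`. -/
def TT (s : ℤ → ℤ → Prop) (j k c : ℤ) : Prop :=
  ((∀ d, k ≤ d → d ≤ c → df s j d) ∧ s j c) ∨ (¬ (∀ d, k ≤ d → d ≤ c → df s j d) ∧ s (j - 1) c)

section
variable {s : ℤ → ℤ → Prop} {M : ℤ}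

theorem df_bd (hM : ∀ j c, s j c → -M ≤ j ∧ j < M ∧ -M ≤ c ∧ c < M) {j c : ℤ} (h : df s j c) :
    -M ≤ j ∧ j ≤ M ∧ -M ≤ c ∧ c < M := by
  by_cases h1 : s j c
  · have := hM _ _ h1; omega
  · have h2 : s (j - 1) c := by
      by_contra h2
      exact h (by tauto)
    have := hM _ _ h2; omega

theorem TT_top (hM : ∀ j c, s j c → -M ≤ j ∧ j < M ∧ -M ≤ c ∧ c < M) (j c : ℤ) :
    TT s j M c ↔ s j c := by
  by_cases h : c < M
  · have : ∀ d, M ≤ d → d ≤ c → df s j d := fun d h1 h2 => by omega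
    unfold TT; tauto
  · have h1 : ¬ s j c := fun g => by have := hM _ _ g; omega
    have h2 : ¬ s (j - 1) c := fun g => by have := hM _ _ g; omega
    unfold TT; tauto

theorem TT_bot (hM : ∀ j c, s j c → -M ≤ j ∧ j < M ∧ -M ≤ c ∧ c < M) (j c : ℤ) :
    TT s j (-M - 1) c ↔ s (j - 1) c := by
  by_cases h : c < -M
  · have h1 : ¬ s j c := fun g => by have := hM _ _ g; omega
    have h2 : ¬ s (j - 1) c := fun g => by have := hM _ _ g; omega
    unfold TT; tauto
  · have : ¬ ∀ d, -M - 1 ≤ d → d ≤ c → df s j d := fun g => by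
      have := df_bd hM (g (-M - 1) le_rfl (by omega)); omega
    unfold TT; tauto

theorem TT_left (j k c : ℤ) (h : c < k) : TT s j k c ↔ TT s j (k - 1) c := by
  have a1 : ∀ d, k ≤ d → d ≤ c → df s j d := fun d h1 h2 => by omega
  by_cases g : df s j c
  · have a2 : ∀ d, k - 1 ≤ d → d ≤ c → df s j d := fun d h1 h2 => by
      have : d = c := by omega
      exact this ▸ g
    unfold TT; tauto
  · unfold df at g
    unfold TT; tauto

theorem TT_non (j k c : ℤ) (h : ¬ (df s j k ∧ ¬ df s j (k - 1))) :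
    TT s j k c ↔ TT s j (k - 1) c := by
  by_cases g : c < k
  · exact TT_left j k c g
  · have : (∀ d, k ≤ d → d ≤ c → df s j d) ↔ (∀ d, k - 1 ≤ d → d ≤ c → df s j d) := by
      refine ⟨fun a d h1 h2 => ?_, fun a d h1 h2 => a d (by omega) h2⟩
      rcases h1.eq_or_lt with rfl | h1
      · by_contra hc
        exact h ⟨a k le_rfl (by omega), hc⟩
      · exact a d (by omega) h2
    unfold TT; tauto

theorem exists_hi (hM : ∀ j c, s j c → -M ≤ j ∧ j < M ∧ -M ≤ c ∧ c < M) (j k : ℤ) :
    ∃ H, k ≤ H ∧ ¬ df s j H ∧ ∀ c, k ≤ c → c < H → df s j c := by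
  classical
  obtain ⟨H, ⟨h1, h2⟩, hmin⟩ := Int.exists_least_of_bdd (P := fun z => k ≤ z ∧ ¬ df s j z)
    ⟨k, fun z hz => hz.1⟩ ⟨max k M, le_max_left _ _, fun h => by
      have := df_bd hM h; have := le_max_right k M; omega⟩
  refine ⟨H, h1, h2, fun c a1 a2 => ?_⟩
  by_contra hc
  have := hmin c ⟨a1, hc⟩
  omega

theorem run_const (hnd : ∀ j c, df s j (c - 1) → df s j c → (s j (c - 1) ↔ s j c)) {j k H : ℤ}
    (h : ∀ c, k ≤ c → c < H → df s j c) (c : ℤ) (h1 : k ≤ c) (h2 : c < H) : s j c ↔ s j k := by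
  induction c, h1 using Int.le_induction with
  | base => rfl
  | succ n hn ih =>
    have := hnd j (n + 1) (by simpa using h n hn (by omega)) (h _ (by omega) h2)
    rw [show n + 1 - 1 = n by ring] at this
    exact this.symm.trans (ih (by omega))

theorem grid_guards (hM0 : 0 ≤ M) (hM : ∀ j c, s j c → -M ≤ j ∧ j < M ∧ -M ≤ c ∧ c < M)
    (hnd : ∀ j c, df s j (c - 1) → df s j c → (s j (c - 1) ↔ s j c)) (V : Finset (ℤ × ℤ))
    (hV : ∀ j c, ¬ (df s j (c - 1) ↔ df s j c) → (j, c) ∈ V) :
    ∃ G ⊆ V, 16 * G.card ≤ 5 * V.card ∧ ∀ j c, s j c → ∃ x0 x1 y0 y1, x0 ≤ c ∧ c < x1 ∧ y0 ≤ j ∧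
      j < y1 ∧ (∀ j' c', y0 ≤ j' → j' < y1 → x0 ≤ c' → c' < x1 → s j' c') ∧
      ∃ g ∈ G, y0 ≤ g.1 ∧ g.1 ≤ y1 ∧ x0 ≤ g.2 ∧ g.2 ≤ x1 := by
  classical
  choose H hH1 hH2 hH3 using exists_hi hM
  obtain ⟨W, hW⟩ : ∃ W : ℤ, W = 2 * M + 1 := ⟨_, rfl⟩
  have hW0 : 0 < W := by omega
  obtain ⟨J, hJ⟩ : ∃ J : ℤ → ℤ, ∀ t, J t = t / W := ⟨_, fun _ => rfl⟩
  obtain ⟨K, hK⟩ : ∃ K : ℤ → ℤ, ∀ t, K t = t % W - M := ⟨_, fun _ => rfl⟩
  have dec : ∀ t, t = W * J t + K t + M ∧ -M ≤ K t ∧ K t ≤ M := by
    intro t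
    have a1 := Int.mul_ediv_add_emod t W
    have a2 := Int.emod_nonneg t hW0.ne'
    have a3 := Int.emod_lt_of_pos t hW0
    rw [hJ, hK]
    omega
  have uni : ∀ t j k, t = W * j + k + M → -M ≤ k → k ≤ M → J t = j ∧ K t = k := by
    intro t j k h1 h2 h3
    have := (Int.ediv_emod_unique (a := t) (r := k + M) (q := j) hW0).2 ⟨by omega, by omega, by omega⟩
    rw [hJ, hK]
    omega
  have mono : ∀ t u, t ≤ u → J t ≤ J u := fun t u h => by
    rw [hJ, hJ]; exact Int.ediv_le_ediv hW0 h
  have prev : ∀ t c, TT s (J (t - 1)) (K (t - 1)) c ↔ TT s (J t) (K t - 1) c := by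
    intro t c
    obtain ⟨a1, a2, a3⟩ := dec t
    rcases a2.eq_or_lt with g | g
    · obtain ⟨b1, b2⟩ := uni (t - 1) (J t - 1) M (by rw [mul_sub]; omega) (by omega) le_rfl
      rw [b1, b2, ← g, TT_top hM, TT_bot hM]
    · obtain ⟨b1, b2⟩ := uni (t - 1) (J t) (K t - 1) (by omega) (by omega) (by omega)
      rw [b1, b2]
  have rng : ∀ t, -M ≤ J t → J t ≤ M → -(W * (M + 1)) ≤ t ∧ t < W * (M + 1) := by
    intro t h1 h2
    obtain ⟨a1, a2, a3⟩ := dec t
    have b1 : W * (-M) ≤ W * J t := mul_le_mul_of_nonneg_left h1 hW0.le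
    have b2 : W * J t ≤ W * M := mul_le_mul_of_nonneg_left h2 hW0.le
    rw [mul_neg] at b1
    rw [mul_add]
    omega
  have big : M + 1 ≤ W * (M + 1) := le_mul_of_one_le_left (by omega) (by omega)
  let Ev := (Ico (-(W * (M + 1))) (W * (M + 1))).filter
    (fun t => df s (J t) (K t) ∧ ¬ df s (J t) (K t - 1))
  have hEv : ∀ t, t ∈ Ev ↔ df s (J t) (K t) ∧ ¬ df s (J t) (K t - 1) := by
    intro t
    refine ⟨fun h => (mem_filter.1 h).2, fun h => mem_filter.2 ⟨mem_Ico.2 ?_, h⟩⟩
    have := df_bd hM h.1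
    exact rng t this.1 this.2.1
  have hlt : ∀ t ∈ Ev, K t < H (J t) (K t) := by
    intro t ht
    rcases (hH1 (J t) (K t)).eq_or_lt with g | g
    · exact absurd (g ▸ ((hEv t).1 ht).1) (hH2 (J t) (K t))
    · exact g
  let Mo : Model :=
    { S := fun t c => TT s (J t) (K t) c
      Ev := Ev
      lo := K
      hi := fun t => H (J t) (K t)
      fl := fun t => s (J t) (K t)
      B := W * (M + 1)
      bd := by
        intro t c h
        have : -M ≤ J t ∧ J t ≤ M ∧ -M ≤ c ∧ c < M := by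
          rcases h with h | h
          · have := hM _ _ h.2; omega
          · have := hM _ _ h.2; omega
        have := rng t this.1 this.2.1
        omega
      non := fun t ht c => by
        rw [prev]
        exact TT_non _ _ _ (fun h => ht ((hEv t).2 h))
      lt := hlt
      out := by
        intro t ht c h
        rw [prev]
        rcases h with h | h
        · exact TT_left _ _ _ h
        · have a1 : ¬ ∀ d, K t ≤ d → d ≤ c → df s (J t) d := fun g =>
            hH2 _ _ (g _ (hH1 _ _) h)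
          have a2 : ¬ ∀ d, K t - 1 ≤ d → d ≤ c → df s (J t) d := fun g =>
            a1 (fun d b1 b2 => g d (by omega) b2)
          unfold TT; tauto
      inn := by
        intro t ht c h1 h2
        rw [prev]
        have a1 : ∀ d, K t ≤ d → d ≤ c → df s (J t) d := fun d b1 b2 => hH3 _ _ d b1 (by omega)
        have a2 : ¬ ∀ d, K t - 1 ≤ d → d ≤ c → df s (J t) d := fun g =>
          ((hEv t).1 ht).2 (g _ le_rfl (by omega))
        have a3 := run_const hnd (hH3 (J t) (K t)) c h1 h2
        have a4 := a1 c h1 le_rfl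
        unfold df at a4
        unfold TT; tauto }
  obtain ⟨Kk, k1, k2, k3⟩ := Mo.guards
  have vl : ∀ t ∈ Ev, (J t, K t) ∈ V := fun t ht => hV _ _ (by have := (hEv t).1 ht; tauto)
  have vr : ∀ t ∈ Ev, (J t, H (J t) (K t)) ∈ V := fun t ht => hV _ _ (by
    have a1 := hH2 (J t) (K t)
    have a2 := hH3 (J t) (K t) (H (J t) (K t) - 1) (by have := hlt t ht; omega) (by omega)
    tauto)
  have cnt : 2 * Ev.card ≤ V.card := by
    have i1 : (Ev.image (fun t => (J t, K t))).card = Ev.card := by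
      apply card_image_of_injOn
      intro t _ u _ h
      simp only [Prod.mk.injEq] at h
      have a1 := (dec t).1
      have a2 := (dec u).1
      rw [h.1, h.2] at a1
      omega
    have i2 : (Ev.image (fun t => (J t, H (J t) (K t)))).card = Ev.card := by
      apply card_image_of_injOn
      intro t ht u hu h
      simp only [Prod.mk.injEq] at h
      have a1 := (dec t).1
      have a2 := (dec u).1
      have b1 := hlt t ht
      have b2 := hlt u hu
      have : K t = K u := by
        rcases lt_trichotomy (K t) (K u) with g | g | g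
        · exact absurd (h.1 ▸ hH3 (J t) (K t) (K u - 1) (by omega) (by omega)) ((hEv u).1 hu).2
        · exact g
        · exact absurd (h.1 ▸ hH3 (J u) (K u) (K t - 1) (by omega) (by omega)) ((hEv t).1 ht).2
      rw [h.1, this] at a1
      omega
    have dj : Disjoint (Ev.image (fun t => (J t, K t))) (Ev.image (fun t => (J t, H (J t) (K t)))) := by
      rw [disjoint_left]
      intro e h1 h2
      obtain ⟨t, ht, rfl⟩ := mem_image.1 h1
      obtain ⟨u, hu, g⟩ := mem_image.1 h2
      simp only [Prod.mk.injEq] at g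
      have a1 := hH2 (J u) (K u)
      rw [g.2, g.1] at a1
      exact a1 ((hEv t).1 ht).1
    have := card_le_card (union_subset
      (s := Ev.image (fun t => (J t, K t))) (t := Ev.image (fun t => (J t, H (J t) (K t)))) (u := V)
      (fun e he => by obtain ⟨t, ht, rfl⟩ := mem_image.1 he; exact vl t ht)
      (fun e he => by obtain ⟨t, ht, rfl⟩ := mem_image.1 he; exact vr t ht))
    rw [card_union_of_disjoint dj] at this
    omega
  refine ⟨Kk.image (fun t => (J t, if s (J t) (K t) then K t else H (J t) (K t))), ?_, ?_, ?_⟩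
  · intro e he
    obtain ⟨t, ht, rfl⟩ := mem_image.1 he
    split_ifs
    · exact vl t (k1 ht)
    · exact vr t (k1 ht)
  · have : (Kk.image (fun t => (J t, if s (J t) (K t) then K t else H (J t) (K t)))).card ≤ Kk.card :=
      card_image_le
    have k2' : 8 * Kk.card ≤ 5 * Ev.card := k2
    omega
  · intro j c hs
    have real : ∀ j, J (W * j + M + M) = j ∧ K (W * j + M + M) = M := fun j =>
      uni _ j M rfl (by omega) le_rfl
    have realS : ∀ j c, Mo.S (W * j + M + M) c ↔ s j c := fun j c => by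
      show TT s (J _) (K _) c ↔ _
      rw [(real j).1, (real j).2, TT_top hM]
    obtain ⟨x0, x1, a, b, h1, h2, bx, hk⟩ := k3 _ c ((realS j c).2 hs)
    have da := dec a
    have db := dec b
    have ja : J a ≤ j := by have := mono _ _ bx.ar; rwa [(real j).1] at this
    have jb : j < J b := by
      have a1 := mono (W * (j + 1) + -M + M) b (by have := bx.rb; rw [mul_add]; omega)
      rw [(uni _ (j + 1) (-M) rfl le_rfl (by omega)).1] at a1
      omega
    refine ⟨x0, x1, J a, J b, h1, h2, ja, jb, ?_, ?_⟩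
    · intro j' c' a1 a2 a3 a4
      refine (realS j' c').1 (bx.strip _ _ ?_ ?_ a3 a4)
      · have : W * J a ≤ W * j' := mul_le_mul_of_nonneg_left a1 hW0.le
        omega
      · have : W * (j' + 1) ≤ W * J b := mul_le_mul_of_nonneg_left (by omega) hW0.le
        rw [mul_add] at this
        omega
    · have xx := bx.xx
      rcases hk with hk | hk
      · refine ⟨_, mem_image_of_mem _ hk, le_rfl, by simp only; omega, ?_⟩
        rcases bx.bot with g | g
        · have g1 : ¬ s (J a) (K a) := g.1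
          have g2 : H (J a) (K a) = x0 := g.2
          simp only [if_neg g1]; omega
        · have g1 : s (J a) (K a) := g.1
          have g2 : x0 ≤ K a ∧ K a < x1 := g.2
          simp only [if_pos g1]; omega
      · refine ⟨_, mem_image_of_mem _ hk, by simp only; omega, le_rfl, ?_⟩
        rcases bx.top with g | g
        · have g1 : s (J b) (K b) := g.1
          have g2 : K b = x1 := g.2
          simp only [if_pos g1]; omega
        · have g1 : ¬ s (J b) (K b) := g.1
          have g2 : x0 < H (J b) (K b) ∧ H (J b) (K b) ≤ x1 := g.2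
          simp only [if_neg g1]; omega

end

end Pool.Agent.Lib.MP_8d6beb_co
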