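import Pool.Agent.Lib.MP_8d6beb_co.Crit

namespace Pool.Agent.Lib.MP_8d6beb_co

open Finset

/-- A region swept upwards: `S r c` says that the cell in row `r`, column `c` is inside; between
rows `t - 1` and `t` at most one horizontal edge `[lo t, hi t]` occurs. -/
structure Model where
  S : ℤ → ℤ → Prop
  Ev : Finset ℤ
  lo : ℤ → ℤ
  hi : ℤ → ℤ
  fl : ℤ → Prop
  B : ℤ
  bd : ∀ r c, S r c → -B ≤ r ∧ r < B ∧ -B ≤ c ∧ c < B
  non : ∀ t, t ∉ Ev → ∀ c, (S t c ↔ S (t - 1) c)
  lt : ∀ t ∈ Ev, lo t < hi t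
  out : ∀ t ∈ Ev, ∀ c, (c < lo t ∨ hi t ≤ c) → (S t c ↔ S (t - 1) c)
  inn : ∀ t ∈ Ev, ∀ c, lo t ≤ c → c < hi t → (S t c ↔ fl t) ∧ (S (t - 1) c ↔ ¬ fl t)

namespace Model

/-- rotation by a half turn. -/
def rot (M : Model) : Model where
  S r c := M.S (-1 - r) (-1 - c)
  Ev := M.Ev.image (fun t => -t)
  lo t := - M.hi (-t)
  hi t := - M.lo (-t)
  fl t := ¬ M.fl (-t)
  B := M.B
  bd r c h := by have := M.bd _ _ h; omega
  non t ht c := by
    have h1 : -t ∉ M.Ev := fun h => ht (mem_image.2 ⟨-t, h, by simp⟩)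
    have := M.non _ h1 (-1 - c)
    rw [show -1 - (t - 1) = -t by ring, show -1 - t = -t - 1 by ring]
    exact this.symm
  lt t ht := by
    obtain ⟨u, hu, rfl⟩ := mem_image.1 ht
    have := M.lt u hu
    simp only [neg_neg]; omega
  out t ht c h := by
    obtain ⟨u, hu, rfl⟩ := mem_image.1 ht
    simp only [neg_neg] at h ⊢
    have := M.out u hu (-1 - c) (by omega)
    rw [show -1 - (-u - 1) = u by ring, show -1 - -u = u - 1 by ring]
    exact this.symm
  inn t ht c h1 h2 := by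
    obtain ⟨u, hu, rfl⟩ := mem_image.1 ht
    simp only [neg_neg] at h1 h2 ⊢
    have := M.inn u hu (-1 - c) (by omega) (by omega)
    rw [show -1 - (-u - 1) = u by ring, show -1 - -u = u - 1 by ring]
    tauto

/-- upper half of a box: the strip `[x0, x1)` is free from row `r` up to the event `b`. -/
structure Up (M : Model) (x0 x1 r b : ℤ) : Prop where
  rb : r < b
  ev : b ∈ M.Ev
  strip : ∀ s c, r ≤ s → s < b → x0 ≤ c → c < x1 → M.S s c
  wall : ∀ s, r ≤ s → s < b → ¬ M.S s x1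
  top : (M.fl b ∧ M.lo b = x1) ∨ (¬ M.fl b ∧ x0 < M.hi b ∧ M.hi b ≤ x1)

structure Box (M : Model) (x0 x1 r a b : ℤ) : Prop where
  xx : x0 < x1
  ar : a ≤ r
  rb : r < b
  eva : a ∈ M.Ev
  evb : b ∈ M.Ev
  strip : ∀ s c, a ≤ s → s < b → x0 ≤ c → c < x1 → M.S s c
  rw : ∀ s, r ≤ s → s < b → ¬ M.S s x1
  lw : ∀ s, a ≤ s → s ≤ r → ¬ M.S s (x0 - 1)
  top : (M.fl b ∧ M.lo b = x1) ∨ (¬ M.fl b ∧ x0 < M.hi b ∧ M.hi b ≤ x1)
  bot : (¬ M.fl a ∧ M.hi a = x0) ∨ (M.fl a ∧ x0 ≤ M.lo a ∧ M.lo a < x1)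

theorem Box.rot {M : Model} {x0 x1 r a b : ℤ} (h : M.Box x0 x1 r a b) :
    M.rot.Box (-x1) (-x0) (-1 - r) (-b) (-a) where
  xx := by have := h.xx; omega
  ar := by have := h.rb; omega
  rb := by have := h.ar; omega
  eva := mem_image.2 ⟨b, h.evb, rfl⟩
  evb := mem_image.2 ⟨a, h.eva, rfl⟩
  strip s c h1 h2 h3 h4 := h.strip _ _ (by omega) (by omega) (by omega) (by omega)
  rw s h1 h2 := by
    have := h.lw (-1 - s) (by omega) (by omega)
    show ¬ M.S (-1 - s) (-1 - -x0)
    rwa [show -1 - -x0 = x0 - 1 by ring]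
  lw s h1 h2 := by
    have := h.rw (-1 - s) (by omega) (by omega)
    show ¬ M.S (-1 - s) (-1 - (-x1 - 1))
    rwa [show -1 - (-x1 - 1) = x1 by ring]
  top := by
    simp only [Model.rot, neg_neg]
    rcases h.bot with ⟨h1, h2⟩ | ⟨h1, h2, h3⟩
    · left; exact ⟨h1, by omega⟩
    · right; exact ⟨by tauto, by omega, by omega⟩
  bot := by
    simp only [Model.rot, neg_neg]
    rcases h.top with ⟨h1, h2⟩ | ⟨h1, h2, h3⟩
    · left; exact ⟨by tauto, by omega⟩
    · right; exact ⟨h1, by omega, by omega⟩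

theorem exists_up (M : Model) {x0 x1 r : ℤ} (hx : x0 < x1) (hs : ∀ c, x0 ≤ c → c < x1 → M.S r c)
    (hw : ¬ M.S r x1) : ∃ b, M.Up x0 x1 r b := by
  classical
  have hr := M.bd _ _ (hs x0 le_rfl hx)
  obtain ⟨b, ⟨hb1, hb2⟩, hmin⟩ := Int.exists_least_of_bdd
    (P := fun s => r < s ∧ ¬ ((∀ c, x0 ≤ c → c < x1 → M.S s c) ∧ ¬ M.S s x1))
    ⟨r, fun z hz => hz.1.le⟩
    ⟨M.B, hr.2.1, fun h => by have := M.bd _ _ (h.1 x0 le_rfl hx); omega⟩
  have good : ∀ s, r ≤ s → s < b → (∀ c, x0 ≤ c → c < x1 → M.S s c) ∧ ¬ M.S s x1 := by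
    intro s h1 h2
    rcases h1.eq_or_lt with rfl | h1
    · exact ⟨hs, hw⟩
    · by_contra hc
      have := hmin s ⟨h1, hc⟩
      omega
  have g := good (b - 1) (by omega) (by omega)
  have hev : b ∈ M.Ev := by
    by_contra hn
    exact hb2 ⟨fun c h1 h2 => (M.non b hn c).2 (g.1 c h1 h2), fun h => g.2 ((M.non b hn _).1 h)⟩
  refine ⟨b, hb1, hev, fun s c h1 h2 => (good s h1 h2).1 c, fun s h1 h2 => (good s h1 h2).2, ?_⟩
  have hlt := M.lt b hev
  by_cases hf : M.fl b
  · left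
    refine ⟨hf, ?_⟩
    have n1 : ∀ c, x0 ≤ c → c < x1 → (c < M.lo b ∨ M.hi b ≤ c) := by
      intro c h1 h2
      by_contra hc
      exact (M.inn b hev c (by omega) (by omega)).2.1 (g.1 c h1 h2) hf
    have n2 : M.S b x1 := by
      by_contra hc
      exact hb2 ⟨fun c h1 h2 => (M.out b hev c (n1 c h1 h2)).2 (g.1 c h1 h2), hc⟩
    have n3 : ¬ (x1 < M.lo b ∨ M.hi b ≤ x1) := fun h => g.2 ((M.out b hev _ h).1 n2)
    have n4 := n1 (x1 - 1) (by omega) (by omega)
    omega
  · right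
    refine ⟨hf, ?_⟩
    have n1 : x1 < M.lo b ∨ M.hi b ≤ x1 := by
      by_contra hc
      exact g.2 ((M.inn b hev x1 (by omega) (by omega)).2.2 hf)
    have n2 : ¬ M.S b x1 := fun h => g.2 ((M.out b hev _ n1).1 h)
    have n3 : ∃ c, x0 ≤ c ∧ c < x1 ∧ ¬ (c < M.lo b ∨ M.hi b ≤ c) := by
      by_contra hc
      push Not at hc
      refine hb2 ⟨fun c h1 h2 => (M.out b hev c ?_).2 (g.1 c h1 h2), n2⟩
      by_contra h
      have := hc c h1 h2
      omega
    obtain ⟨c, h1, h2, h3⟩ := n3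
    omega

theorem exists_box (M : Model) {r c : ℤ} (h : M.S r c) :
    ∃ x0 x1 a b, x0 ≤ c ∧ c < x1 ∧ M.Box x0 x1 r a b := by
  classical
  have hb := M.bd _ _ h
  obtain ⟨x1, ⟨h1, h2⟩, hmin⟩ := Int.exists_least_of_bdd (P := fun z => c < z ∧ ¬ M.S r z)
    ⟨c, fun z hz => hz.1.le⟩ ⟨M.B, hb.2.2.2, fun h => by have := M.bd _ _ h; omega⟩
  obtain ⟨y, ⟨h3, h4⟩, hmax⟩ := Int.exists_greatest_of_bdd (P := fun z => z < c ∧ ¬ M.S r z)
    ⟨c, fun z hz => hz.1.le⟩ ⟨-M.B - 1, by omega, fun h => by have := M.bd _ _ h; omega⟩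
  have hs : ∀ z, y + 1 ≤ z → z < x1 → M.S r z := by
    intro z a1 a2
    by_contra hc
    rcases lt_trichotomy z c with g | g | g
    · have := hmax z ⟨g, hc⟩; omega
    · exact hc (g ▸ h)
    · have := hmin z ⟨g, hc⟩; omega
  obtain ⟨b, hb⟩ := M.exists_up (x0 := y + 1) (x1 := x1) (r := r) (by omega) hs h2
  obtain ⟨a, ha⟩ := M.rot.exists_up (x0 := -x1) (x1 := -(y + 1)) (r := -1 - r) (by omega)
    (fun z a1 a2 => by
      show M.S (-1 - (-1 - r)) (-1 - z)
      rw [show -1 - (-1 - r) = r by ring]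
      exact hs _ (by omega) (by omega))
    (by
      show ¬ M.S (-1 - (-1 - r)) (-1 - -(y + 1))
      rwa [show -1 - (-1 - r) = r by ring, show -1 - -(y + 1) = y by ring])
  have har := ha.rb
  refine ⟨y + 1, x1, -a, b, by omega, h1, by omega, by omega, hb.rb, ?_, hb.ev, ?_, hb.wall, ?_,
    hb.top, ?_⟩
  · obtain ⟨u, hu, rfl⟩ := mem_image.1 ha.ev
    simpa using hu
  · intro s z a1 a2 a3 a4
    by_cases g : r ≤ s
    · exact hb.strip s z g a2 a3 a4
    · have := ha.strip (-1 - s) (-1 - z) (by omega) (by omega) (by omega) (by omega)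
      simp only [Model.rot] at this
      rwa [show -1 - (-1 - s) = s by ring, show -1 - (-1 - z) = z by ring] at this
  · intro s a1 a2
    have := ha.wall (-1 - s) (by omega) (by omega)
    simp only [Model.rot] at this
    rwa [show -1 - (-1 - s) = s by ring, show -1 - -(y + 1) = y + 1 - 1 by ring] at this
  · have := ha.top
    simp only [Model.rot] at this
    rcases this with ⟨a1, a2⟩ | ⟨a1, a2, a3⟩
    · left; exact ⟨a1, by omega⟩
    · right; exact ⟨by tauto, by omega, by omega⟩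

variable {M : Model}

theorem same_bot {x0 x1 r a b x0' x1' r' b' : ℤ} (h : M.Box x0 x1 r a b)
    (h' : M.Box x0' x1' r' a b') : x0 = x0' := by
  have a1 := h.lw a le_rfl h.ar
  have a2 := h'.lw a le_rfl h'.ar
  have b1 := h.strip a (x0' - 1) le_rfl (by have := h.ar; have := h.rb; omega)
  have b2 := h'.strip a (x0 - 1) le_rfl (by have := h'.ar; have := h'.rb; omega)
  have c1 := h.bot
  have c2 := h'.bot
  have := h.xx
  have := h'.xx
  by_contra hne
  rcases lt_or_gt_of_ne hne with g | g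
  · exact a2 (b1 (by omega) (by rcases c1 with c | c <;> rcases c2 with d | d <;> first | omega | tauto))
  · exact a1 (b2 (by omega) (by rcases c1 with c | c <;> rcases c2 with d | d <;> first | omega | tauto))

theorem same_top {x0 x1 r a b x0' x1' r' a' : ℤ} (h : M.Box x0 x1 r a b)
    (h' : M.Box x0' x1' r' a' b) : x1 = x1' := by
  have := same_bot h.rot h'.rot
  omega

theorem out_order {x0 x1 r a b x0' x1' r' b' : ℤ} (h : M.Box x0 x1 r a b)
    (h' : M.Box x0' x1' r' a b') (hb : b < b') : x1' < x1 ∨ (x1' = x1 ∧ b ≤ r' ∧ M.S b x1') := by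
  have e := same_bot h h'
  subst e
  by_contra hc
  push Not at hc
  obtain ⟨c1, c2⟩ := hc
  have := h.ar
  have := h.rb
  have := h.xx
  have hl := M.lt b h.evb
  rcases h.top with ⟨t1, t2⟩ | ⟨t1, t2, t3⟩
  · have i := M.inn b h.evb x1 (by omega) (by omega)
    have e : x1' = x1 := by
      by_contra hne
      exact i.2.1 (h'.strip (b - 1) x1 (by omega) (by omega) (by omega) (by omega)) t1
    subst e
    have hS := i.1.2 t1
    by_cases g : b ≤ r'
    · exact c2 rfl g hS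
    · exact h'.rw b (by omega) hb hS
  · have i := M.inn b h.evb (M.hi b - 1) (by omega) (by omega)
    exact t1 (i.1.1 (h'.strip b _ (by omega) hb (by omega) (by omega)))

/-- the box with data `(x0', x1', r')` lies lower on the same right wall and is not wider. -/
def Prec (M : Model) (x0' x1' r' x0 x1 r a : ℤ) : Prop :=
  x1' = x1 ∧ x0 ≤ x0' ∧ r' < a ∧ ∀ s, r' ≤ s → s ≤ r → ¬ M.S s x1

theorem in_order {x0 x1 r a b x0' x1' r' a' : ℤ} (h : M.Box x0 x1 r a b)
    (h' : M.Box x0' x1' r' a' b) (ha : a' < a) : M.Prec x0' x1' r' x0 x1 r a := by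
  have e := same_top h h'
  subst e
  have := h.ar
  have := h.rb
  have := h.xx
  have := h'.xx
  have o := out_order h.rot h'.rot (by omega : -a < -a')
  refine ⟨rfl, by omega, ?_, fun s h1 h2 => h'.rw s h1 (by omega)⟩
  rcases o with o | o
  · by_contra hc
    exact h'.lw a ha.le (by omega) (h.strip a _ le_rfl (by omega) (by omega) (by omega))
  · omega

theorem ceil_le {x0 x1 r a b x0' x1' r' b' : ℤ} (h : M.Box x0 x1 r a b)
    (h' : M.Box x0' x1' r' b b') (hf : ¬ M.fl b) : x0' = M.hi b ∧ x0 < x0' ∧ x1' ≤ x1 := by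
  have e : x0' = M.hi b := by
    rcases h'.bot with g | g
    · exact g.2.symm
    · exact absurd g.1 hf
  have t : x0 < M.hi b ∧ M.hi b ≤ x1 := by
    rcases h.top with g | g
    · exact absurd g.1 hf
    · exact g.2
  refine ⟨e, by omega, ?_⟩
  by_contra hc
  have := h.rb
  have := h'.ar
  have := h'.rb
  exact h.rw (b - 1) (by omega) (by omega) ((M.out b h.evb x1 (Or.inr t.2)).1
    (h'.strip b x1 le_rfl (by omega) (by omega) (by omega)))

theorem prec_step {x0 x1 r a b x0' x1' r' b' y0 y1 q u w : ℤ} (h : M.Box x0 x1 r a b)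
    (h' : M.Box x0' x1' r' b b') (hf : ¬ M.fl b) (k : M.Box y0 y1 q u w)
    (hp : M.Prec y0 y1 q x0' x1' r' b) : M.Prec y0 y1 q x0 x1 r a := by
  obtain ⟨e1, e2, e3⟩ := ceil_le h h' hf
  obtain ⟨p1, p2, p3, p4⟩ := hp
  have := h.ar
  have := h.rb
  have := h'.ar
  have := h'.xx
  have := k.xx
  have e : x1' = x1 := by
    by_contra hne
    exact p4 (b - 1) (by omega) (by omega) (h.strip _ _ (by omega) (by omega) (by omega) (by omega))
  refine ⟨by omega, by omega, ?_, fun s h1 h2 => e ▸ p4 s h1 (by omega)⟩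
  by_contra hc
  exact k.lw q k.ar le_rfl (h.strip _ _ (by omega) (by omega) (by omega) (by omega))

theorem one_side (M : Model) (EC : Finset (ℤ × ℤ)) (hne : EC.Nonempty)
    (hbox : ∀ e ∈ EC, ∃ x0 x1 r, M.Box x0 x1 r e.1 e.2) (C P : Finset ℤ)
    (hC : ∀ e ∈ EC, e.1 ∈ C ∧ e.2 ∈ C)
    (hP : ∀ t, (∃ e ∈ EC, e.1 = t) → (∃ e ∈ EC, e.2 = t) → M.fl t → t ∈ P) :
    EC.card + 1 ≤ C.card + P.card := by
  classical
  choose! x0 x1 r hb using hbox
  set Sx := EC.filter (fun e => ∃ e' ∈ EC, e'.1 = e.1 ∧ e'.2 < e.2) with hSx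
  set Out := EC.image Prod.fst with hOut
  set Good := EC.filter (fun e => ∀ e' ∈ EC, ¬ M.Prec (x0 e') (x1 e') (r e') (x0 e) (x1 e) (r e) e.1)
    with hGood
  set Z := (Good.image Prod.snd).filter (fun t => ¬ M.fl t ∧ t ∈ Out) with hZ
  set L := (EC \ Sx).filter (fun e => e.1 ∈ Z) with hL
  have c1 : (EC \ Sx).card ≤ Out.card := by
    apply card_le_card_of_injOn Prod.fst
    · intro e he
      exact mem_image_of_mem _ (mem_sdiff.1 he).1
    · intro e he e' he' h
      have d := mem_sdiff.1 he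
      have d' := mem_sdiff.1 he'
      rcases lt_trichotomy e.2 e'.2 with g | g | g
      · exact absurd (mem_filter.2 ⟨d'.1, e, d.1, h, g⟩) d'.2
      · exact Prod.ext h g
      · exact absurd (mem_filter.2 ⟨d.1, e', d'.1, h.symm, g⟩) d.2
  have c2 : Good.card = (Good.image Prod.snd).card := by
    rw [card_image_of_injOn]
    intro e he e' he' h
    have d := mem_filter.1 he
    have d' := mem_filter.1 he'
    have k := hb e d.1
    have k' := hb e' d'.1
    rcases lt_trichotomy e.1 e'.1 with g | g | g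
    · rw [h] at k
      exact absurd (in_order k' k g) (d'.2 e d.1)
    · exact Prod.ext g h
    · rw [← h] at k'
      exact absurd (in_order k k' g) (d.2 e' d'.1)
  have c3 : Sx ⊆ Good := by
    intro e he
    obtain ⟨d, e', d', g1, g2⟩ := mem_filter.1 he
    refine mem_filter.2 ⟨d, fun e2 _ hp => ?_⟩
    have k := hb e d
    have k' := hb e' d'
    rw [g1] at k'
    have := k.ar
    have := k'.ar
    have := k'.rb
    have := k.xx
    have e0 := same_bot k k'
    obtain ⟨_, _, p3, p4⟩ := hp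
    rcases out_order k' k g2 with o | o
    · exact p4 e.1 p3.le k.ar (k'.strip _ _ le_rfl (by omega) (by omega) o)
    · exact p4 e'.2 (by omega) o.2.1 o.2.2
  have c4 : L ⊆ Good := by
    intro e he
    obtain ⟨d, g⟩ := mem_filter.1 he
    obtain ⟨g1, g2, _⟩ := mem_filter.1 g
    obtain ⟨e', d', g3⟩ := mem_image.1 g1
    have d1 := (mem_sdiff.1 d).1
    have d2 := mem_filter.1 d'
    refine mem_filter.2 ⟨d1, fun e2 h2 hp => d2.2 e2 h2 ?_⟩
    have k' := hb e' d2.1
    rw [g3] at k'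
    exact prec_step k' (hb e d1) g2 (hb e2 h2) hp
  have c5 : Z.card ≤ L.card := by
    apply card_le_card_of_surjOn Prod.fst
    intro t ht
    have ht' : t ∈ Z := ht
    obtain ⟨e, he, g⟩ := mem_image.1 (mem_filter.1 ht').2.2
    obtain ⟨e', he', hmin⟩ := exists_min_image (EC.filter (fun e => e.1 = t)) Prod.snd
      ⟨e, mem_filter.2 ⟨he, g⟩⟩
    have d := mem_filter.1 he'
    refine ⟨e', ?_, d.2⟩
    refine mem_coe.2 (mem_filter.2 ⟨mem_sdiff.2 ⟨d.1, fun h => ?_⟩, d.2 ▸ ht'⟩)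
    obtain ⟨_, e2, d2, g1, g2⟩ := mem_filter.1 h
    have := hmin e2 (mem_filter.2 ⟨d2, g1.trans d.2⟩)
    omega
  obtain ⟨e1, he1, hmax⟩ := exists_max_image EC x1 hne
  obtain ⟨es, hes, hmin⟩ := exists_min_image (EC.filter (fun e => x1 e = x1 e1)) r
    ⟨e1, mem_filter.2 ⟨he1, rfl⟩⟩
  obtain ⟨hs1, hs2⟩ := mem_filter.1 hes
  have ks := hb es hs1
  have hext : ∀ e ∈ EC, x1 es ≤ x1 e → r es ≤ r e := fun e he h =>
    hmin e (mem_filter.2 ⟨he, by have := hmax e he; omega⟩)
  have c6 : es ∈ Good := by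
    refine mem_filter.2 ⟨hs1, fun e he hp => ?_⟩
    have := hext e he hp.1.ge
    have := hp.2.2.1
    have := ks.ar
    omega
  have c7 : es ∉ Sx := by
    intro h
    obtain ⟨_, e', d', g1, g2⟩ := mem_filter.1 h
    have k' := hb e' d'
    rw [g1] at k'
    have := hmax e' d'
    have := k'.rb
    rcases out_order k' ks g2 with o | o
    · omega
    · have := hext e' d' o.1.le
      omega
  have c8 : es ∉ L := by
    intro h
    obtain ⟨_, g⟩ := mem_filter.1 h
    obtain ⟨g1, g2, _⟩ := mem_filter.1 g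
    obtain ⟨e', d', g3⟩ := mem_image.1 g1
    have d2 := (mem_filter.1 d').1
    have k' := hb e' d2
    rw [g3] at k'
    have := hext e' d2 (ceil_le k' ks g2).2.2
    have := k'.rb
    have := ks.ar
    omega
  have c9 : Sx.card + L.card + 1 ≤ Good.card := by
    have dj : Disjoint Sx L := by
      rw [disjoint_left]
      intro e h1 h2
      exact (mem_sdiff.1 (mem_filter.1 h2).1).2 h1
    rw [← card_union_of_disjoint dj, ← card_insert_of_notMem (a := es) (by simp [c7, c8])]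
    exact card_le_card (insert_subset c6 (union_subset c3 c4))
  have c10 : (Good.image Prod.snd).card ≤ Z.card + P.card + (C \ Out).card := by
    refine (card_le_card (t := Z ∪ P ∪ (C \ Out)) ?_).trans
      ((card_union_le _ _).trans (by have := card_union_le Z P; omega))
    intro t ht
    obtain ⟨e, he, g⟩ := mem_image.1 ht
    have d := (mem_filter.1 he).1
    by_cases ho : t ∈ Out
    · by_cases hf : M.fl t
      · obtain ⟨e', d', g'⟩ := mem_image.1 ho
        exact mem_union_left _ (mem_union_right _ (hP t ⟨e', d', g'⟩ ⟨e, d, g⟩ hf))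
      · exact mem_union_left _ (mem_union_left _ (mem_filter.2 ⟨ht, hf, ho⟩))
    · exact mem_union_right _ (mem_sdiff.2 ⟨g ▸ (hC e d).2, ho⟩)
  have c11 : (C \ Out).card + Out.card = C.card := by
    apply card_sdiff_add_card_eq_card
    intro t ht
    obtain ⟨e, he, g⟩ := mem_image.1 ht
    exact g ▸ (hC e he).1
  have c12 : (EC \ Sx).card + Sx.card = EC.card := card_sdiff_add_card_eq_card (filter_subset _ _)
  omega

theorem sparse (M : Model) (EC : Finset (ℤ × ℤ))
    (hbox : ∀ e ∈ EC, ∃ x0 x1 r, M.Box x0 x1 r e.1 e.2) (C : Finset ℤ) (h2 : 2 ≤ C.card)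
    (hC : ∀ e ∈ EC, e.1 ∈ C ∧ e.2 ∈ C) : 2 * EC.card + 4 ≤ 3 * C.card := by
  classical
  rcases EC.eq_empty_or_nonempty with rfl | hne
  · simp; omega
  set Pa := C.filter (fun t => (∃ e ∈ EC, e.1 = t) ∧ (∃ e ∈ EC, e.2 = t)) with hPa
  have h1 := M.one_side EC hne hbox C (Pa.filter M.fl) hC (fun t a1 a2 a3 =>
    mem_filter.2 ⟨mem_filter.2 ⟨by obtain ⟨e, he, g⟩ := a1; exact g ▸ (hC e he).1, a1, a2⟩, a3⟩)
  have h3 := M.rot.one_side (EC.image (fun e => (-e.2, -e.1))) (hne.image _)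
    (by
      intro e he
      obtain ⟨e', he', rfl⟩ := mem_image.1 he
      obtain ⟨x0, x1, r, k⟩ := hbox e' he'
      exact ⟨_, _, _, k.rot⟩)
    (C.image (fun t => -t)) ((Pa.filter (fun t => ¬ M.fl t)).image (fun t => -t))
    (by
      intro e he
      obtain ⟨e', he', rfl⟩ := mem_image.1 he
      exact ⟨mem_image_of_mem _ (hC e' he').2, mem_image_of_mem _ (hC e' he').1⟩)
    (by
      rintro t ⟨e, he, g⟩ ⟨f, hf, g'⟩ a3
      obtain ⟨e', he', rfl⟩ := mem_image.1 he
      obtain ⟨f', hf', rfl⟩ := mem_image.1 hf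
      simp only at g g'
      refine mem_image.2 ⟨-t, mem_filter.2 ⟨mem_filter.2 ⟨?_, ⟨f', hf', by omega⟩,
        ⟨e', he', by omega⟩⟩, a3⟩, by simp⟩
      have : -t = e'.2 := by omega
      rw [this]; exact (hC e' he').2)
  rw [card_image_of_injective _ (fun a b h => by
    simp only [Prod.mk.injEq] at h
    exact Prod.ext (by omega) (by omega))] at h3
  have h4 : (C.image (fun t => -t)).card ≤ C.card := card_image_le
  have h5 : ((Pa.filter (fun t => ¬ M.fl t)).image (fun t => -t)).card ≤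
    (Pa.filter (fun t => ¬ M.fl t)).card := card_image_le
  have h6 := card_filter_add_card_filter_not (s := Pa) M.fl
  have hlt : ∀ e ∈ EC, e.1 < e.2 := by
    intro e he
    obtain ⟨x0, x1, r, k⟩ := hbox e he
    have := k.ar
    have := k.rb
    omega
  obtain ⟨a, ha, hmin⟩ := exists_min_image EC Prod.fst hne
  obtain ⟨b, hb, hmax⟩ := exists_max_image EC Prod.snd hne
  have h7 : Pa.card + 2 ≤ C.card := by
    have n1 : a.1 ∉ Pa := by
      intro h
      obtain ⟨e, he, g⟩ := (mem_filter.1 h).2.2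
      have := hmin e he
      have := hlt e he
      omega
    have n2 : b.2 ∉ insert a.1 Pa := by
      intro h
      rcases mem_insert.1 h with h | h
      · have := hmax a ha
        have := hlt a ha
        omega
      · obtain ⟨e, he, g⟩ := (mem_filter.1 h).2.1
        have := hmax e he
        have := hlt e he
        omega
    have := card_le_card (insert_subset (hC b hb).2 (insert_subset (hC a ha).1
      (filter_subset (fun t => (∃ e ∈ EC, e.1 = t) ∧ (∃ e ∈ EC, e.2 = t)) C)))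
    rw [card_insert_of_notMem n2, card_insert_of_notMem n1] at this
    omega
  omega

theorem guards (M : Model) : ∃ K ⊆ M.Ev, 8 * K.card ≤ 5 * M.Ev.card ∧
    ∀ r c, M.S r c → ∃ x0 x1 a b, x0 ≤ c ∧ c < x1 ∧ M.Box x0 x1 r a b ∧ (a ∈ K ∨ b ∈ K) := by
  classical
  set E := (M.Ev ×ˢ M.Ev).filter (fun e => ∃ x0 x1 r, M.Box x0 x1 r e.1 e.2) with hE
  have hl : NoLoop E := by
    intro e he
    obtain ⟨x0, x1, r, k⟩ := (mem_filter.1 he).2
    have := k.ar
    have := k.rb
    omega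
  have h := sparse_al hl M.Ev (fun C _ h2 => M.sparse (eds E C)
    (fun e he => (mem_filter.1 (mem_filter.1 he).1).2) C h2 (fun e he => (mem_filter.1 he).2))
  obtain ⟨I, a1, a2, a3⟩ := exists_al E M.Ev
  refine ⟨M.Ev \ I, sdiff_subset, ?_, ?_⟩
  · have := card_sdiff_add_card_eq_card a1
    omega
  · intro r c hS
    obtain ⟨x0, x1, a, b, h1, h2, k⟩ := M.exists_box hS
    refine ⟨x0, x1, a, b, h1, h2, k, ?_⟩
    by_contra hc
    push Not at hc
    apply a2 (a, b) (mem_filter.2 ⟨mem_product.2 ⟨k.eva, k.evb⟩, x0, x1, r, k⟩)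
    · by_contra h; exact hc.1 (mem_sdiff.2 ⟨k.eva, h⟩)
    · by_contra h; exact hc.2 (mem_sdiff.2 ⟨k.evb, h⟩)

end Model

end Pool.Agent.Lib.MP_8d6beb_co
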