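import Pool.Agent.Lib.MP_8d6beb_co.QDefs

namespace Pool.Agent.Lib.MP_8d6beb_co

open Finset

set_option linter.unusedSectionVars false

variable {ι : Type}

/-! ### rotation -/

@[simp] theorem sg_fst (d : Dart ι) : (sg d).1 = d.1 := rfl

theorem sg_snd (d : Dart ι) : (sg d).2 = d.2 + 1 := rfl

@[simp] theorem sg4 (d : Dart ι) : sg (sg (sg (sg d))) = d := by
  obtain ⟨q, i⟩ := d
  refine Prod.ext rfl ?_
  simp only [sg_snd]
  revert i; decide

theorem sg_ne (d : Dart ι) : sg d ≠ d := by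
  obtain ⟨q, i⟩ := d
  intro h
  have := congrArg Prod.snd h
  simp only [sg_snd] at this
  clear h
  revert i; decide

theorem sg2_ne (d : Dart ι) : sg (sg d) ≠ d := by
  obtain ⟨q, i⟩ := d
  intro h
  have := congrArg Prod.snd h
  simp only [sg_snd] at this
  clear h
  revert i; decide

theorem sg3_ne (d : Dart ι) : sg (sg (sg d)) ≠ d := fun h => sg_ne d (by
  have := congrArg sg h
  rw [sg4] at this
  exact this.symm)

theorem sg_inj {d d' : Dart ι} (h : sg d = sg d') : d = d' := sg.injective h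

theorem same_quad {d d' : Dart ι} (h : d'.1 = d.1) :
    d' = d ∨ d' = sg d ∨ d' = sg (sg d) ∨ d' = sg (sg (sg d)) := by
  obtain ⟨q, i⟩ := d
  obtain ⟨q', j⟩ := d'
  simp only at h
  subst h
  simp only [Prod.ext_iff, sg_fst, sg_snd, true_and]
  revert i j; decide

theorem col_lt (d : Dart ι) : col d < 2 := Nat.mod_lt _ (by norm_num)

theorem col_sg (d : Dart ι) : col (sg d) + col d = 1 := by
  obtain ⟨q, i⟩ := d
  simp only [col, sg_snd]
  revert i; decide

theorem col_sg2 (d : Dart ι) : col (sg (sg d)) = col d := by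
  have := col_sg d
  have := col_sg (sg d)
  omega

theorem col_sg3 (d : Dart ι) : col (sg (sg (sg d))) + col d = 1 := by
  have := col_sg2 d
  have := col_sg (sg (sg d))
  omega

namespace Cx

variable {K : Cx ι}

theorem phi_apply (d : Dart ι) : K.phi d = sg (K.a d) := rfl

theorem phi_free {d : Dart ι} (h : K.a d = d) : K.phi d = sg d := by rw [phi_apply, h]

theorem phi_a (d : Dart ι) : K.phi (K.a d) = sg d := by rw [phi_apply, K.inv]

/-- the predecessor of `c` on its boundary curve is `a (sg³ c)` -/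
theorem phi_pred (c : Dart ι) : K.phi (K.a (sg (sg (sg c)))) = c := by rw [phi_a, sg4]

theorem phi_fst (d : Dart ι) : (K.phi d).1 = (K.a d).1 := rfl

theorem a_inj {d d' : Dart ι} (h : K.a d = K.a d') : d = d' := by
  rw [← K.inv d, h, K.inv]

theorem a_glued {d : Dart ι} (h : K.a d ≠ d) : K.a (K.a d) ≠ K.a d := by
  rw [K.inv]; exact h.symm

theorem mem_of_glued {d : Dart ι} (h : K.a d ≠ d) : d.1 ∈ K.Q := by
  by_contra g; exact h (K.supp d g)

theorem a_mem {d : Dart ι} (h : d.1 ∈ K.Q) : (K.a d).1 ∈ K.Q := by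
  by_cases g : K.a d = d
  · rwa [g]
  · exact mem_of_glued (a_glued g)

/-! ### boundary curves -/

theorem Fc.refl (d : Dart ι) : K.Fc d d := Equiv.Perm.SameCycle.refl _ _

theorem Fc.symm {d d' : Dart ι} (h : K.Fc d d') : K.Fc d' d := Equiv.Perm.SameCycle.symm h

theorem Fc.trans {d d' d'' : Dart ι} (h : K.Fc d d') (h' : K.Fc d' d'') : K.Fc d d'' :=
  Equiv.Perm.SameCycle.trans h h'

theorem fc_phi (d : Dart ι) : K.Fc d (K.phi d) := ⟨1, by simp⟩

theorem fc_a_sg (d : Dart ι) : K.Fc (K.a d) (sg d) := by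
  rw [← phi_a (K := K)]; exact fc_phi _

theorem fc_free {d : Dart ι} (h : K.a d = d) : K.Fc d (sg d) := by
  rw [← phi_free h]; exact fc_phi _

/-- induction along a boundary curve (forward steps suffice) -/
theorem Fc.ind [Finite ι] {P : Dart ι → Prop} (hP : ∀ x, P x → P (K.phi x)) {d d' : Dart ι}
    (h : K.Fc d d') (h0 : P d) : P d' := by
  obtain ⟨n, rfl⟩ := Equiv.Perm.SameCycle.exists_nat_pow_eq h
  clear h
  induction n with
  | zero => exact h0
  | succ n ih => rw [pow_succ', Equiv.Perm.mul_apply]; exact hP _ ih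

theorem Fc.exists_pow [Finite ι] {d d' : Dart ι} (h : K.Fc d d') :
    ∃ n : ℕ, (K.phi ^ n) d = d' := by
  exact Equiv.Perm.SameCycle.exists_nat_pow_eq h

theorem Fc.mem [Finite ι] {d d' : Dart ι} (h : K.Fc d d') (hd : d.1 ∈ K.Q) : d'.1 ∈ K.Q := by
  exact Fc.ind (P := fun x => x.1 ∈ K.Q) (fun x hx => a_mem hx) h hd

/-! ### vertices -/

theorem Vx.refl (c : Dart ι) : K.Vx c c := Relation.EqvGen.refl _

theorem Vx.symm {c c' : Dart ι} (h : K.Vx c c') : K.Vx c' c := Relation.EqvGen.symm _ _ h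

theorem Vx.trans {c c' c'' : Dart ι} (h : K.Vx c c') (h' : K.Vx c' c'') : K.Vx c c'' :=
  Relation.EqvGen.trans _ _ _ h h'

theorem vx_phi {c : Dart ι} (h : K.a c ≠ c) : K.Vx c (K.phi c) :=
  Relation.EqvGen.rel _ _ ⟨h, rfl⟩

theorem vx_sg_a {c : Dart ι} (h : K.a c ≠ c) : K.Vx c (sg (K.a c)) := vx_phi h

theorem vx_a_sg {c : Dart ι} (h : K.a c ≠ c) : K.Vx (K.a c) (sg c) := by
  have := vx_phi (a_glued h)
  rwa [phi_a] at this

/-- a set closed under glued steps in both directions is a union of vertices -/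
theorem Vx.ind {P : Dart ι → Prop} (hP : ∀ x, K.a x ≠ x → (P x ↔ P (K.phi x))) {c c' : Dart ι}
    (h : K.Vx c c') : P c ↔ P c' := by
  induction h with
  | rel _ _ e => rw [e.2]; exact hP _ e.1
  | refl => rfl
  | symm _ _ _ ih => exact ih.symm
  | trans _ _ _ _ _ i1 i2 => exact i1.trans i2

theorem Vx.fc {c c' : Dart ι} (h : K.Vx c c') : K.Fc c c' := by
  exact (Vx.ind (P := fun x => K.Fc c x)
    (fun x _ => ⟨fun g => g.trans (fc_phi x), fun g => g.trans (fc_phi x).symm⟩) h).1 (Fc.refl c)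

theorem Vx.mem {c c' : Dart ι} (h : K.Vx c c') (hc : c.1 ∈ K.Q) : c'.1 ∈ K.Q := by
  exact (Vx.ind (P := fun x => x.1 ∈ K.Q)
    (fun x g => ⟨fun e => a_mem e, fun _ => mem_of_glued g⟩) h).1 hc

theorem reach_last {c l : Dart ι} (hl : K.a l = l) (h : K.Vx c l) :
    Relation.ReflTransGen (fun c c' => K.a c ≠ c ∧ c' = K.phi c) c l := by
  refine (Vx.ind (P := fun x => Relation.ReflTransGen (fun c c' => K.a c ≠ c ∧ c' = K.phi c) x l)
    (fun x g => ⟨fun e => ?_, fun e => Relation.ReflTransGen.head ⟨g, rfl⟩ e⟩) h).2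
    Relation.ReflTransGen.refl
  rcases e.cases_head with rfl | ⟨_, ⟨_, rfl⟩, e⟩
  · exact absurd hl g
  · exact e

theorem reach_first {c c' : Dart ι} (hc : K.a (sg (sg (sg c))) = sg (sg (sg c))) (h : K.Vx c c') :
    Relation.ReflTransGen (fun c c' => K.a c ≠ c ∧ c' = K.phi c) c c' := by
  refine (Vx.ind (P := fun x => Relation.ReflTransGen (fun c c' => K.a c ≠ c ∧ c' = K.phi c) c x)
    (fun x g => ⟨fun e => e.tail ⟨g, rfl⟩, fun e => ?_⟩) h).1 Relation.ReflTransGen.refl
  rcases e.cases_tail with e | ⟨y, e, _, f⟩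
  · rw [← e, phi_apply, sg4, K.inv] at hc
    exact absurd hc.symm g
  · rwa [K.phi.injective f]

/-- a corner between two free sides is a vertex on its own -/
theorem Vx.single {c c' : Dart ι} (h1 : K.a c = c) (h2 : K.a (sg (sg (sg c))) = sg (sg (sg c)))
    (h : K.Vx c c') : c' = c := by
  rcases (reach_first h2 h).cases_head with g | ⟨_, g, _⟩
  · exact g.symm
  · exact absurd h1 g.1

/-- a vertex with exactly two corners -/
theorem Vx.pair {c c' : Dart ι} (h1 : K.a (sg (sg (sg c))) = sg (sg (sg c)))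
    (h2 : K.a (K.phi c) = K.phi c) (h : K.Vx c c') : c' = c ∨ c' = K.phi c := by
  rcases (reach_first h1 h).cases_head with g | ⟨_, ⟨_, rfl⟩, g⟩
  · exact Or.inl g.symm
  · rcases g.cases_head with g | ⟨_, g, _⟩
    · exact Or.inr g.symm
    · exact absurd h2 g.1

/-- a vertex with at most three corners -/
theorem Vx.triple {c c' : Dart ι} (h1 : K.a (sg (sg (sg c))) = sg (sg (sg c)))
    (h2 : K.a (K.phi (K.phi c)) = K.phi (K.phi c)) (h : K.Vx c c') :
    c' = c ∨ c' = K.phi c ∨ c' = K.phi (K.phi c) := by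
  rcases (reach_first h1 h).cases_head with g | ⟨_, ⟨_, rfl⟩, g⟩
  · exact Or.inl g.symm
  · rcases g.cases_head with g | ⟨_, ⟨_, rfl⟩, g⟩
    · exact Or.inr (Or.inl g.symm)
    · rcases g.cases_head with g | ⟨_, g, _⟩
      · exact Or.inr (Or.inr g.symm)
      · exact absurd h2 g.1

/-- each vertex has at most one last corner -/
theorem last_unique {l l' : Dart ι} (h1 : K.a l = l) (h2 : K.a l' = l') (h : K.Vx l l') :
    l = l' := by
  rcases (reach_last h2 h).cases_head with g | ⟨_, g, _⟩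
  · exact g
  · exact absurd h1 g.1

/-- each vertex has at most one first corner -/
theorem first_unique {c c' : Dart ι} (h1 : K.a (sg (sg (sg c))) = sg (sg (sg c)))
    (h2 : K.a (sg (sg (sg c'))) = sg (sg (sg c'))) (h : K.Vx c c') : c = c' := by
  rcases (reach_first h1 h).cases_tail with g | ⟨y, _, g1, g2⟩
  · exact g.symm
  · rw [g2, phi_apply, sg4, K.inv] at h2
    exact absurd h2.symm g1

theorem Hit.of_vx {X : Finset (Dart ι)} {c c' : Dart ι} (h : K.Hit X c) (h' : K.Vx c c') :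
    K.Hit X c' := by
  obtain ⟨x, hx, g⟩ := h
  exact ⟨x, hx, g.trans h'⟩

theorem Hit.mono {X Y : Finset (Dart ι)} {c : Dart ι} (h : K.Hit X c) (h' : X ⊆ Y) :
    K.Hit Y c := by
  obtain ⟨x, hx, g⟩ := h
  exact ⟨x, h' hx, g⟩

theorem hit_of_mem {X : Finset (Dart ι)} {c : Dart ι} (h : c ∈ X) : K.Hit X c :=
  ⟨c, h, Vx.refl c⟩

theorem Cov.mono {X Y : Finset (Dart ι)} {q : ι} (h : K.Cov X q) (h' : X ⊆ Y) : K.Cov Y q := by
  obtain ⟨i, h1, h2⟩ := h
  exact ⟨i, h1, h2.mono h'⟩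

theorem cov_of_hit {X : Finset (Dart ι)} {c : Dart ι} (h : K.Hit X c) (h' : c ∉ K.dis) :
    K.Cov X c.1 := ⟨c.2, h', h⟩

/-- if every pick of `X` is hit by `Y`, then `Y` covers what `X` covers -/
theorem Cov.of_hit {X Y : Finset (Dart ι)} {q : ι} (h : K.Cov X q) (h' : ∀ x ∈ X, K.Hit Y x) :
    K.Cov Y q := by
  obtain ⟨i, h1, x, hx, h2⟩ := h
  exact ⟨i, h1, (h' x hx).of_vx h2⟩

/-! ### links -/

theorem Lk.refl (U : Finset ι) (x : Dart ι) : K.Lk U x x := Relation.EqvGen.refl _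

theorem Lk.symm {U : Finset ι} {x y : Dart ι} (h : K.Lk U x y) : K.Lk U y x :=
  Relation.EqvGen.symm _ _ h

theorem Lk.trans {U : Finset ι} {x y z : Dart ι} (h : K.Lk U x y) (h' : K.Lk U y z) :
    K.Lk U x z := Relation.EqvGen.trans _ _ _ h h'

theorem lk_phi {U : Finset ι} {x : Dart ι} (h1 : x.1 ∈ U) (h2 : (K.a x).1 ∈ U) :
    K.Lk U x (K.phi x) := Relation.EqvGen.rel _ _ ⟨h1, h2, rfl⟩

theorem lk_free {U : Finset ι} {x : Dart ι} (h1 : x.1 ∈ U) (h2 : K.a x = x) :
    K.Lk U x (sg x) := by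
  have := lk_phi (K := K) h1 (by rwa [h2])
  rwa [phi_free h2] at this

theorem lk_a_sg {U : Finset ι} {x : Dart ι} (h1 : x.1 ∈ U) (h2 : (K.a x).1 ∈ U) :
    K.Lk U (K.a x) (sg x) := by
  have := lk_phi (K := K) (x := K.a x) h2 (by rwa [K.inv])
  rwa [phi_a] at this

theorem Lk.mono {U U' : Finset ι} (hU : U ⊆ U') {x y : Dart ι} (h : K.Lk U x y) :
    K.Lk U' x y := by
  exact Relation.EqvGen.mono (fun _ _ g => ⟨hU g.1, hU g.2.1, g.2.2⟩) _ _ h

theorem Lk.fc {U : Finset ι} {x y : Dart ι} (h : K.Lk U x y) : K.Fc x y := by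
  induction h with
  | rel _ _ e => rw [e.2.2]; exact fc_phi _
  | refl => exact Fc.refl _
  | symm _ _ _ ih => exact ih.symm
  | trans _ _ _ _ _ i1 i2 => exact i1.trans i2

theorem Lk.mem {U : Finset ι} {x y : Dart ι} (h : K.Lk U x y) (hx : x.1 ∈ U) : y.1 ∈ U := by
  have : x.1 ∈ U ↔ y.1 ∈ U := by
    clear hx
    induction h with
    | rel _ _ e => exact ⟨fun _ => e.2.1, fun _ => e.1⟩
    | refl => rfl
    | symm _ _ _ ih => exact ih.symm
    | trans _ _ _ _ _ i1 i2 => exact i1.trans i2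
  exact this.1 hx

theorem Inside.of_fc {U : Finset ι} {x y : Dart ι} (h : K.Inside U x) (h' : K.Fc x y) :
    K.Inside U y := fun z hz => h z (h'.trans hz)

theorem Inside.mono {U U' : Finset ι} (hU : U ⊆ U') {x : Dart ι} (h : K.Inside U x) :
    K.Inside U' x := fun z hz => hU (h z hz)

theorem Inside.lk [Finite ι] {U : Finset ι} {x y : Dart ι} (h : K.Inside U x) (h' : K.Fc x y) :
    K.Lk U x y := by
  exact Fc.ind (P := fun z => K.Lk U x z)
    (fun z hz => hz.trans (lk_phi (h z hz.fc) (h (K.phi z) (hz.fc.trans (fc_phi z))))) h' (Lk.refl U x)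

variable [Fintype ι] [DecidableEq ι]

@[simp] theorem mem_fr {U : Finset ι} {d : Dart ι} : d ∈ K.fr U ↔ d.1 ∈ U ∧ K.a d = d := by
  simp [fr]

@[simp] theorem mem_cut {U : Finset ι} {d : Dart ι} :
    d ∈ K.cut U ↔ d.1 ∈ U ∧ (K.a d).1 ∉ U := by
  simp [cut]

@[simp] theorem mem_inn {U : Finset ι} {d : Dart ι} :
    d ∈ K.inn U ↔ d.1 ∈ U ∧ K.a d ≠ d ∧ (K.a d).1 ∈ U := by
  simp [inn]

@[simp] theorem mem_ds {U : Finset ι} {d : Dart ι} : d ∈ K.ds U ↔ d ∈ K.dis ∧ d.1 ∈ U := by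
  simp [ds]

@[simp] theorem mem_fanQ {C : Finset (Dart ι)} {q : ι} : q ∈ fanQ C ↔ ∃ c ∈ C, c.1 = q := by
  simp only [fanQ, mem_image]

theorem glued_of_cut {U : Finset ι} {d : Dart ι} (h : d ∈ K.cut U) : K.a d ≠ d := by
  rw [mem_cut] at h
  intro g; exact h.2 (by rw [g]; exact h.1)

/-- a curve that leaves `U` does so at a cut dart -/
theorem exit {U : Finset ι} {x : Dart ι} (hx : x.1 ∈ U) (h : ¬ K.Inside U x) :
    ∃ d ∈ K.cut U, K.Lk U x d := by
  by_contra g
  refine h (fun y hy => (Fc.ind (P := fun z => K.Lk U x z) (fun z hz => ?_) hy (Lk.refl U x)).mem hx)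
  refine hz.trans (lk_phi (hz.mem hx) ?_)
  by_contra f
  exact g ⟨z, mem_cut.2 ⟨hz.mem hx, f⟩, hz⟩

/-- exits and entries of `U` balance on every union of boundary curves -/
theorem balance (U : Finset ι) (P : Dart ι → Prop) [DecidablePred P]
    (hP : ∀ x, P (K.phi x) ↔ P x) :
    ((K.cut U).filter P).card = ((K.cut U).filter (fun d => P (K.a d))).card := by
  have a1 : (univ.filter (fun d => P d ∧ (K.a d).1 ∈ U)).card =
      (univ.filter (fun d => P d ∧ d.1 ∈ U)).card :=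
    card_bijective K.phi K.phi.bijective (fun d => by simp [hP, phi_fst])
  have a2 := card_filter_add_card_filter_not (s := univ.filter (fun d => P d ∧ (K.a d).1 ∈ U))
    (fun d => d.1 ∈ U)
  have a3 := card_filter_add_card_filter_not (s := univ.filter (fun d => P d ∧ d.1 ∈ U))
    (fun d => (K.a d).1 ∈ U)
  have a4 : (univ.filter (fun d => P d ∧ (K.a d).1 ∈ U)).filter (fun d => d.1 ∈ U) =
      (univ.filter (fun d => P d ∧ d.1 ∈ U)).filter (fun d => (K.a d).1 ∈ U) := by
    ext d; simp only [mem_filter, mem_univ, true_and]; tauto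
  have a5 : (univ.filter (fun d => P d ∧ d.1 ∈ U)).filter (fun d => (K.a d).1 ∉ U) =
      (K.cut U).filter P := by
    ext d; simp only [mem_filter, mem_univ, true_and, mem_cut]; tauto
  have a6 : ((K.cut U).filter (fun d => P (K.a d))).card =
      ((univ.filter (fun d => P d ∧ (K.a d).1 ∈ U)).filter (fun d => d.1 ∉ U)).card :=
    card_bijective K.a (Function.Involutive.bijective K.inv) (fun d => by
      simp only [mem_filter, mem_univ, true_and, mem_cut, K.inv]; tauto)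
  rw [a4] at a2
  rw [a5] at a3
  omega

theorem bridge_of_cut {U : Finset ι} {d : Dart ι} (h : K.cut U = {d}) : K.Fc d (K.a d) := by
  classical
  have b := balance U (fun x => K.Fc d x)
    (fun x => ⟨fun g => g.trans (fc_phi x).symm, fun g => g.trans (fc_phi x)⟩)
  rw [h, filter_singleton, filter_singleton, if_pos (Fc.refl d)] at b
  by_contra g
  rw [if_neg g] at b
  simp at b

/-! ### vertices of a valid complex -/

theorem Valid.col_a (hK : K.Valid) {d : Dart ι} (h : K.a d ≠ d) : col (K.a d) + col d = 1 := by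
  have := hK.par d h
  have := col_lt d
  have := col_lt (K.a d)
  unfold col at *
  omega

theorem Valid.col_vx (hK : K.Valid) {c c' : Dart ι} (h : K.Vx c c') : col c = col c' := by
  refine (Vx.ind (P := fun x => col c = col x) (fun x g => ?_) h).1 rfl
  have a1 := hK.col_a g
  have a2 := col_sg (K.a x)
  rw [phi_apply]
  omega

/-- no quad is glued to itself -/
theorem Valid.a_fst_ne (hK : K.Valid) {d : Dart ι} (h : K.a d ≠ d) : (K.a d).1 ≠ d.1 := by
  intro e
  have fix : ∀ x, K.a x ≠ x → K.phi x ≠ x := by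
    intro x g f
    obtain ⟨y, y1, y2⟩ := hK.hasFree x
    have := Fc.ind (P := fun z => z = x) (fun z hz => by rw [hz, f]) y1 rfl
    exact g (this ▸ y2)
  have c := hK.col_a h
  rcases same_quad e with g | g | g | g
  · exact h g
  · exact fix _ (a_glued h) (by rw [phi_a, g])
  · have := col_sg2 d
    rw [g] at c
    omega
  · exact fix _ h (by rw [phi_apply, g, sg4])

theorem Valid.exists_last (hK : K.Valid) (c : Dart ι) : ∃ l, K.a l = l ∧ K.Vx c l := by
  obtain ⟨y, y1, y2⟩ := hK.hasFree c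
  obtain ⟨n, rfl⟩ := y1.exists_pow
  clear y1
  induction n generalizing c with
  | zero => exact ⟨c, y2, Vx.refl c⟩
  | succ n ih =>
    by_cases g : K.a c = c
    · exact ⟨c, g, Vx.refl c⟩
    · obtain ⟨l, l1, l2⟩ := ih (K.phi c) (by rwa [pow_succ, Equiv.Perm.mul_apply] at y2)
      exact ⟨l, l1, (vx_phi g).trans l2⟩

theorem Valid.exists_first (hK : K.Valid) (c : Dart ι) :
    ∃ l, K.a (sg (sg (sg l))) = sg (sg (sg l)) ∧ K.Vx c l := by
  obtain ⟨y, y1, y2⟩ := hK.hasFree c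
  refine Fc.ind (P := fun x => ∃ l, K.a (sg (sg (sg l))) = sg (sg (sg l)) ∧ K.Vx x l)
    (fun x ⟨l, l1, l2⟩ => ?_) ((fc_free y2).symm.trans y1.symm) ⟨sg y, by rwa [sg4], Vx.refl _⟩
  by_cases g : K.a x = x
  · exact ⟨sg x, by rwa [sg4], by rw [phi_free g]; exact Vx.refl _⟩
  · exact ⟨l, l1, (vx_phi g).symm.trans l2⟩

/-- walk round a boundary curve from vertex to vertex -/
theorem face_walk {L : Dart ι → Prop} (h1 : ∀ l, L l → K.a l = l)
    (h2 : ∀ l, L l → ∃ l', L l' ∧ K.Vx (sg l) l') {l0 x : Dart ι} (h0 : L l0) (hx : K.Fc l0 x) :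
    ∃ l, L l ∧ K.Vx x l := by
  refine Fc.ind (P := fun x => ∃ l, L l ∧ K.Vx x l) (fun x ⟨l, l1, l2⟩ => ?_) hx ⟨l0, h0, Vx.refl _⟩
  by_cases g : K.a x = x
  · obtain rfl := last_unique g (h1 l l1) l2
    rw [phi_free g]
    exact h2 x l1
  · exact ⟨l, l1, (vx_phi g).symm.trans l2⟩

/-! ### counting -/

theorem card_darts (U : Finset ι) :
    (K.fr U).card + (K.cut U).card + (K.inn U).card = 4 * U.card := by
  have a1 : (U ×ˢ (univ : Finset (Fin 4))) = (K.fr U ∪ K.cut U) ∪ K.inn U := by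
    ext d
    simp only [mem_product, mem_univ, and_true, mem_union, mem_fr, mem_cut, mem_inn]
    tauto
  have a2 := congrArg Finset.card a1
  rw [card_product, card_univ, Fintype.card_fin, card_union_of_disjoint, card_union_of_disjoint] at a2
  · omega
  · rw [disjoint_left]
    intro d h1 h2
    exact glued_of_cut h2 (mem_fr.1 h1).2
  · rw [disjoint_left]
    intro d h1 h2
    rw [mem_inn] at h2
    rcases mem_union.1 h1 with g | g
    · exact h2.2.1 (mem_fr.1 g).2
    · exact (mem_cut.1 g).2 h2.2.2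

theorem even_inn (U : Finset ι) : Even (K.inn U).card := by
  have := sum_involution (s := K.inn U) (f := fun _ => (1 : ZMod 2)) (fun d _ => K.a d)
    (fun _ _ => by decide) (fun d h _ => (mem_inn.1 h).2.1)
    (fun d h => by
      rw [mem_inn] at h ⊢
      exact ⟨h.2.2, a_glued h.2.1, by rw [K.inv]; exact h.1⟩) (fun d _ => K.inv d)
  rw [sum_const, nsmul_eq_mul, mul_one] at this
  exact (ZMod.natCast_eq_zero_iff_even).1 this

theorem cut_compl {U : Finset ι} (hU : U ⊆ K.Q) : K.cut (K.Q \ U) = (K.cut U).image K.a := by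
  ext d
  simp only [mem_cut, mem_sdiff, mem_image, not_and, not_not]
  constructor
  · rintro ⟨⟨h1, h2⟩, h3⟩
    exact ⟨K.a d, ⟨h3 (a_mem h1), by rwa [K.inv]⟩, K.inv d⟩
  · rintro ⟨x, ⟨h1, h2⟩, rfl⟩
    exact ⟨⟨a_mem (hU h1), h2⟩, fun _ => by rwa [K.inv]⟩

theorem card_cut_compl {U : Finset ι} (hU : U ⊆ K.Q) :
    (K.cut (K.Q \ U)).card = (K.cut U).card := by
  rw [cut_compl hU, card_image_of_injective _ (fun _ _ => a_inj)]

theorem fr_union (U U' : Finset ι) : K.fr (U ∪ U') = K.fr U ∪ K.fr U' := by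
  ext d; simp only [mem_fr, mem_union]; tauto

theorem fr_mono {U U' : Finset ι} (h : U ⊆ U') : K.fr U ⊆ K.fr U' := by
  intro d g
  rw [mem_fr] at g ⊢
  exact ⟨h g.1, g.2⟩

theorem card_fr_sdiff {U U' : Finset ι} (h : U ⊆ U') :
    (K.fr (U' \ U)).card + (K.fr U).card = (K.fr U').card := by
  rw [← card_sdiff_add_card_eq_card (fr_mono (K := K) h)]
  congr 2
  ext d; simp only [mem_fr, mem_sdiff]; tauto

theorem card_ds_sdiff {U U' : Finset ι} (h : U ⊆ U') :
    (K.ds (U' \ U)).card + (K.ds U).card = (K.ds U').card := by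
  have a : K.ds U ⊆ K.ds U' := fun d g => by
    rw [mem_ds] at g ⊢; exact ⟨g.1, h g.2⟩
  rw [← card_sdiff_add_card_eq_card a]
  congr 2
  ext d; simp only [mem_ds, mem_sdiff]; tauto

theorem card_fr_eq_sum (U : Finset ι) : (K.fr U).card = ∑ q ∈ U, (K.fr {q}).card := by
  rw [card_eq_sum_card_fiberwise (f := Prod.fst) (t := U) (fun d g => (mem_fr.1 g).1)]
  refine sum_congr rfl (fun q hq => congrArg _ ?_)
  ext d
  simp only [mem_filter, mem_fr, mem_singleton]
  exact ⟨fun g => ⟨g.2, g.1.2⟩, fun g => ⟨⟨g.1 ▸ hq, g.2⟩, g.1⟩⟩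

theorem Valid.ds_Q (hK : K.Valid) : K.ds K.Q = K.dis := by
  exact filter_true_of_mem hK.dis_mem

theorem deg_add_fr (q : ι) : K.deg q + (K.fr {q}).card = 4 := by
  have a := card_filter_add_card_filter_not (s := (univ : Finset (Fin 4)))
    (fun i => K.a (q, i) ≠ (q, i))
  have b : K.fr {q} = (univ.filter (fun i : Fin 4 => ¬ K.a (q, i) ≠ (q, i))).image (fun i => (q, i)) := by
    ext ⟨p, i⟩
    simp only [mem_fr, mem_singleton, mem_image, mem_filter, mem_univ, true_and, not_not,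
      Prod.mk.injEq]
    constructor
    · rintro ⟨rfl, g⟩; exact ⟨i, g, rfl, rfl⟩
    · rintro ⟨j, g, rfl, rfl⟩; exact ⟨rfl, g⟩
  rw [b, card_image_of_injective _ (fun _ _ e => congrArg Prod.snd e)]
  simpa [deg] using a

open Classical in
/-- the degree, read off from any dart of the quad -/
theorem deg_eq (d : Dart ι) : K.deg d.1 = (if K.a d = d then 0 else 1) +
    (if K.a (sg d) = sg d then 0 else 1) + (if K.a (sg (sg d)) = sg (sg d) then 0 else 1) +
    (if K.a (sg (sg (sg d))) = sg (sg (sg d)) then 0 else 1) := by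
  obtain ⟨q, i⟩ := d
  have e : ∀ j : Fin 4, sg (q, j) = (q, j + 1) := fun _ => rfl
  simp only [deg, card_filter, Fin.sum_univ_four, e, ne_eq, ite_not]
  fin_cases i <;> simp only [Fin.reduceFinMk, Fin.reduceAdd, Fin.zero_eta, Fin.mk_one] <;>
    split_ifs <;> rfl

theorem sum_deg (U : Finset ι) : ∑ q ∈ U, K.deg q = (K.inn U).card + (K.cut U).card := by
  have a1 := K.card_darts U
  have a2 : ∑ q ∈ U, (K.deg q + (K.fr {q}).card) = ∑ _q ∈ U, 4 :=
    sum_congr rfl (fun q _ => deg_add_fr q)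
  rw [sum_add_distrib, ← card_fr_eq_sum, sum_const, smul_eq_mul] at a2
  omega

theorem even_Wp (U : Finset ι) : Even (K.Wp U) := by
  have a1 := K.card_darts U
  obtain ⟨k, hk⟩ := K.even_inn U
  unfold Wp
  rw [Nat.even_iff]
  omega

/-- the weight of a complex splits over a piece and its complement -/
theorem Valid.W_split (hK : K.Valid) {U : Finset ι} (hU : U ⊆ K.Q) :
    K.Wp U + K.Wp (K.Q \ U) + 6 * K.mrk.card = K.W + 2 * (K.cut U).card := by
  have a1 := card_fr_sdiff (K := K) hU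
  have a2 := card_ds_sdiff (K := K) hU
  have a3 := card_cut_compl hU
  have a4 := card_sdiff_add_card_eq_card hU
  rw [hK.ds_Q] at a2
  unfold Wp W
  omega

/-! ### connectivity -/

theorem connOn_singleton (q : ι) : K.ConnOn {q} := by
  intro T h1 h2 _
  exact h2.subset_singleton_iff.1 h1

theorem ConnOn.union {U U' : Finset ι} (h : K.ConnOn U) (h' : K.ConnOn U') {q : ι} (hq : q ∈ U)
    (hq' : q ∈ U') : K.ConnOn (U ∪ U') := by
  intro T h1 h2 h3
  have key : ∀ {A : Finset ι}, K.ConnOn A → A ⊆ U ∪ U' → (T ∩ A).Nonempty → A ⊆ T := by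
    intro A hA hs hne
    rw [← hA (T ∩ A) inter_subset_right hne (fun d g1 g2 =>
      mem_inter.2 ⟨h3 d (mem_inter.1 g1).1 (hs g2), g2⟩)]
    exact inter_subset_left
  obtain ⟨t, ht⟩ := h2
  have : q ∈ T := by
    rcases mem_union.1 (h1 ht) with g | g
    · exact key h subset_union_left ⟨t, mem_inter.2 ⟨ht, g⟩⟩ hq
    · exact key h' subset_union_right ⟨t, mem_inter.2 ⟨ht, g⟩⟩ hq'
  exact Subset.antisymm h1 (union_subset (key h subset_union_left ⟨q, mem_inter.2 ⟨this, hq⟩⟩)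
    (key h' subset_union_right ⟨q, mem_inter.2 ⟨this, hq'⟩⟩))

theorem ConnOn.union_adj {U U' : Finset ι} (h : K.ConnOn U) (h' : K.ConnOn U') {d : Dart ι}
    (hq : d.1 ∈ U) (hq' : (K.a d).1 ∈ U') : K.ConnOn (U ∪ U') := by
  intro T h1 h2 h3
  have key : ∀ {A : Finset ι}, K.ConnOn A → A ⊆ U ∪ U' → (T ∩ A).Nonempty → A ⊆ T := by
    intro A hA hs hne
    rw [← hA (T ∩ A) inter_subset_right hne (fun d g1 g2 =>
      mem_inter.2 ⟨h3 d (mem_inter.1 g1).1 (hs g2), g2⟩)]
    exact inter_subset_left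
  obtain ⟨t, ht⟩ := h2
  have : d.1 ∈ T ∧ (K.a d).1 ∈ T := by
    rcases mem_union.1 (h1 ht) with g | g
    · have := key h subset_union_left ⟨t, mem_inter.2 ⟨ht, g⟩⟩ hq
      exact ⟨this, h3 d this (mem_union_right _ hq')⟩
    · have := key h' subset_union_right ⟨t, mem_inter.2 ⟨ht, g⟩⟩ hq'
      have b := h3 _ this (by rw [K.inv]; exact mem_union_left _ hq)
      rw [K.inv] at b
      exact ⟨b, this⟩
  exact Subset.antisymm h1 (union_subset (key h subset_union_left ⟨_, mem_inter.2 ⟨this.1, hq⟩⟩)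
    (key h' subset_union_right ⟨_, mem_inter.2 ⟨this.2, hq'⟩⟩))

/-- if every quad of `U` has a corner linked inside `U` to `x`, then `U` is connected -/
theorem connOn_of_lk {U : Finset ι} {x : Dart ι}
    (h : ∀ q ∈ U, ∃ c : Dart ι, c.1 = q ∧ K.Lk U x c) : K.ConnOn U := by
  intro T h1 ⟨t, ht⟩ h3
  have key : ∀ y z, K.Lk U y z → (y.1 ∈ T ↔ z.1 ∈ T) := by
    intro y z g
    induction g with
    | rel y z e =>
      obtain ⟨e1, e2, rfl⟩ := e
      refine ⟨fun f => h3 y f e2, fun f => ?_⟩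
      have := h3 (K.a y) f (by rwa [K.inv])
      rwa [K.inv] at this
    | refl => rfl
    | symm _ _ _ ih => exact ih.symm
    | trans _ _ _ _ _ i1 i2 => exact i1.trans i2
  obtain ⟨c, rfl, c2⟩ := h t (h1 ht)
  refine Subset.antisymm h1 (fun q hq => ?_)
  obtain ⟨c', rfl, c3⟩ := h q hq
  exact (key _ _ (c2.symm.trans c3)).1 ht

theorem Conn.cut_nonempty (h : K.Conn) {U : Finset ι} (hU : U ⊆ K.Q) (h1 : U.Nonempty)
    (h2 : U ≠ K.Q) : (K.cut U).Nonempty := by
  by_contra g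
  refine h2 (h U hU h1 (fun d g1 _ => ?_))
  by_contra f
  exact g ⟨d, mem_cut.2 ⟨g1, f⟩⟩

theorem cyc_mono {T U : Finset ι} (hU : K.ConnOn U) (hT : T ⊆ U) (h1 : T.Nonempty)
    (h2 : K.Cyc T) : K.Cyc U := by
  induction hn : (U \ T).card generalizing T with
  | zero => rwa [← Subset.antisymm hT (sdiff_eq_empty_iff_subset.1 (card_eq_zero.1 hn))]
  | succ n ih =>
    have hne : T ≠ U := fun e => by rw [e] at hn; simp at hn
    have : ∃ d : Dart ι, d.1 ∈ T ∧ (K.a d).1 ∈ U ∧ (K.a d).1 ∉ T := by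
      by_contra g
      push Not at g
      exact hne (hU T hT h1 g)
    obtain ⟨d, d1, d2, d3⟩ := this
    have g : K.a d ≠ d := fun e => d3 (by rwa [e])
    refine ih (insert_subset d2 hT) (insert_nonempty _ _) ?_ ?_
    · have s : insert d (insert (K.a d) (K.inn T)) ⊆ K.inn (insert (K.a d).1 T) := by
        refine insert_subset ?_ (insert_subset ?_ (fun x hx => ?_))
        · exact mem_inn.2 ⟨mem_insert_of_mem d1, g, mem_insert_self _ _⟩
        · exact mem_inn.2 ⟨mem_insert_self _ _, a_glued g, by rw [K.inv]; exact mem_insert_of_mem d1⟩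
        · rw [mem_inn] at hx ⊢
          exact ⟨mem_insert_of_mem hx.1, hx.2.1, mem_insert_of_mem hx.2.2⟩
      have c := card_le_card s
      rw [card_insert_of_notMem (by simp [d3, g.symm]), card_insert_of_notMem (by simp [d3])] at c
      unfold Cyc at *
      rw [card_insert_of_notMem d3]
      omega
    · rw [sdiff_insert, card_erase_of_mem (mem_sdiff.2 ⟨d2, d3⟩), hn]; rfl

theorem Valid.cyc_card (hK : K.Valid) {U : Finset ι} (h1 : U.Nonempty) (h2 : K.Cyc U) :
    2 ≤ U.card := by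
  by_contra g
  obtain ⟨q, rfl⟩ := card_eq_one.1 (show U.card = 1 by have := h1.card_pos; omega)
  have : (K.inn {q}).Nonempty := card_pos.1 (by unfold Cyc at h2; rw [card_singleton] at h2; omega)
  obtain ⟨d, hd⟩ := this
  simp only [mem_inn, mem_singleton] at hd
  exact hK.a_fst_ne hd.2.1 (hd.2.2.trans hd.1.symm)

/-! ### two-edge cuts -/

namespace EE

variable {U : Finset ι} {e f : Dart ι}

theorem e_mem (h : K.EE U e f) : e.1 ∈ U := by
  exact (mem_cut.1 (show e ∈ K.cut U by rw [h.cut]; simp)).1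

theorem ae_not_mem (h : K.EE U e f) : (K.a e).1 ∉ U := by
  exact (mem_cut.1 (show e ∈ K.cut U by rw [h.cut]; simp)).2

theorem e_glued (h : K.EE U e f) : K.a e ≠ e := by
  exact glued_of_cut (show e ∈ K.cut U by rw [h.cut]; simp)

theorem aux (h : K.EE U e f) : K.Fc e (K.a f) ∧ ¬ K.Fc e f := by
  classical
  have b := balance U (fun x => K.Fc e x)
    (fun x => ⟨fun g => g.trans (fc_phi x).symm, fun g => g.trans (fc_phi x)⟩)
  rw [h.cut, filter_insert, filter_insert, if_pos (Fc.refl e), if_neg h.nb, filter_singleton,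
    filter_singleton] at b
  have := h.ne
  split_ifs at b with g1 g2 g2 <;> simp_all

theorem fc_e_af (h : K.EE U e f) : K.Fc e (K.a f) := by
  exact h.aux.1

theorem fc_f_ae (h : K.EE U e f) : K.Fc f (K.a e) := by
  classical
  have b := balance U (fun x => K.Fc f x)
    (fun x => ⟨fun g => g.trans (fc_phi x).symm, fun g => g.trans (fc_phi x)⟩)
  rw [h.cut] at b
  have : (({e, f} : Finset (Dart ι)).filter (fun d => K.Fc f (K.a d))).Nonempty := by
    rw [← card_pos, ← b, card_pos]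
    exact ⟨f, mem_filter.2 ⟨by simp, Fc.refl f⟩⟩
  obtain ⟨d, hd⟩ := this
  simp only [mem_filter, mem_insert, mem_singleton] at hd
  rcases hd with ⟨rfl | rfl, g⟩
  · exact g
  · exact absurd (h.aux.1.trans g.symm) h.aux.2

theorem not_fc (h : K.EE U e f) : ¬ K.Fc e f := by
  exact h.aux.2

theorem swap (h : K.EE U e f) : K.EE U f e := by
  exact ⟨h.sub, by rw [h.cut, pair_comm], h.ne.symm, fun g => h.not_fc (h.fc_e_af.trans g.symm)⟩

theorem compl (h : K.EE U e f) : K.EE (K.Q \ U) (K.a e) (K.a f) := by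
  exact ⟨sdiff_subset, by rw [cut_compl h.sub, h.cut]; simp, fun g => h.ne (a_inj g),
    fun g => h.nb (by rw [K.inv] at g; exact g.symm)⟩

theorem eq_of_cut (h : K.EE U e f) {d : Dart ι} (h1 : d.1 ∈ U) (h2 : (K.a d).1 ∉ U) :
    d = e ∨ d = f := by
  have : d ∈ K.cut U := mem_cut.2 ⟨h1, h2⟩
  rw [h.cut] at this
  simpa using this

theorem connOn (h : K.EE U e f) (hc : K.Conn) : K.ConnOn U := by
  intro T h1 h2 h3
  have nq : ∀ A ⊆ U, A ≠ K.Q := fun A hA g => h.ae_not_mem (hA (g ▸ a_mem (h.sub h.e_mem)))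
  have sub : ∀ d ∈ K.cut T, d = e ∨ d = f := fun d g => by
    rw [mem_cut] at g
    exact h.eq_of_cut (h1 g.1) (fun b => g.2 (h3 d g.1 b))
  obtain ⟨x, hx⟩ := hc.cut_nonempty (h1.trans h.sub) h2 (nq T h1)
  have both : e ∈ K.cut T ∧ f ∈ K.cut T := by
    by_contra g
    have : K.cut T = {x} := by
      refine eq_singleton_iff_unique_mem.2 ⟨hx, fun y hy => ?_⟩
      rcases sub x hx with rfl | rfl <;> rcases sub y hy with rfl | rfl <;> tauto
    rcases sub x hx with rfl | rfl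
    · exact h.nb (bridge_of_cut this)
    · exact h.swap.nb (bridge_of_cut this)
  refine Subset.antisymm h1 (sdiff_eq_empty_iff_subset.1 ?_)
  by_contra g
  obtain ⟨d, hd⟩ := hc.cut_nonempty (sdiff_subset.trans h.sub) (nonempty_iff_ne_empty.2 g)
    (nq _ sdiff_subset)
  simp only [mem_cut, mem_sdiff, not_and, not_not] at hd
  by_cases b : (K.a d).1 ∈ U
  · have := h3 _ (hd.2 b) (by rw [K.inv]; exact hd.1.1)
    rw [K.inv] at this
    exact hd.1.2 this
  · rcases h.eq_of_cut hd.1.1 b with rfl | rfl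
    · exact hd.1.2 (mem_cut.1 both.1).1
    · exact hd.1.2 (mem_cut.1 both.2).1

/-- every dart of `U` on the curve of `e` is linked to `e` inside `U` -/
theorem lk_e (h : K.EE U e f) {x : Dart ι} (hx : x.1 ∈ U) (h' : K.Fc e x) : K.Lk U x e := by
  obtain ⟨d, d1, d2⟩ := exit hx (fun g => h.ae_not_mem (g (K.phi e) (h'.symm.trans (fc_phi e))))
  rw [mem_cut] at d1
  rcases h.eq_of_cut d1.1 d1.2 with rfl | rfl
  · exact d2
  · exact absurd (h'.trans d2.fc) h.not_fc

theorem lk_sf_e (h : K.EE U e f) : K.Lk U (sg f) e := by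
  exact h.lk_e (x := sg f) h.swap.e_mem (h.fc_e_af.trans (fc_a_sg f))

end EE

end Cx

end Pool.Agent.Lib.MP_8d6beb_co
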