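import Pool.Agent.Lib.MP_8d6beb_co.QEarly

/-! Classification of two-edge cuts in a minimal counterexample. -/

namespace Pool.Agent.Lib.MP_8d6beb_co

open Finset Cx

set_option linter.unusedSectionVars false

variable {ι : Type} [Fintype ι] [DecidableEq ι]

/-- the far side `K.Q \ U` can be covered together with the vertices `P` at price `θ` -/
def Cx.Cheap (K : Cx ι) (U : Finset ι) (P : Finset (Dart ι)) (θ : ℤ) : Prop :=
  K.Pb (K.Q \ U) (K.Wp (K.Q \ U) + 2 * θ - 4) P

/-- same vertex inside the piece `U` -/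
abbrev Cx.V1 (K : Cx ι) (U : Finset ι) : Dart ι → Dart ι → Prop := (K.res U ∅).Vx

/-- the cases in which the piece is not short on either side -/
inductive Cx.Long (K : Cx ι) (U : Finset ι) (e f : Dart ι) : Prop
  | A (hp : col e ≠ col f) (h1 : K.Cheap U {e} 3) (h2 : K.Cheap U {sg e} 3)
      (h3 : K.Cheap U {f} 3) (h4 : K.Cheap U {sg f} 3)
  | B (h1 : K.Cheap U {e} 2 ∨ K.Cheap U {sg e} 2) (h2 : K.Cheap U {f} 2 ∨ K.Cheap U {sg f} 2)
  | C (hp : col e ≠ col f) (h1 : K.Cheap U {e, sg f} 5) (h2 : K.Cheap U {f, sg e} 5)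

/-- the cases in which `sg f` and `e` are one vertex of the piece -/
inductive Cx.Short (K : Cx ι) (U : Finset ι) (e f : Dart ι) : Prop
  | A (h1 : K.Cheap U {e} 3) (h2 : K.Cheap U {sg e} 3) (h3 : K.Cheap U {f} 3)
      (h4 : K.Cheap U {e, sg e} 3 ∨ K.Cheap U {e, f} 3)
  | B (hv : K.Vx (sg e) f) (h1 : K.Cheap U {e} 2) (h2 : K.Cheap U {e, f} 6)

def Cx.Cases (K : Cx ι) (U : Finset ι) (e f : Dart ι) : Prop :=
  (¬ K.V1 U (sg f) e ∧ ¬ K.V1 U (sg e) f ∧ K.Long U e f) ∨
  (K.V1 U (sg f) e ∧ ¬ K.V1 U (sg e) f ∧ K.Short U e f) ∨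
  (K.V1 U (sg e) f ∧ ¬ K.V1 U (sg f) e ∧ K.Short U f e)

variable {K : Cx ι} {U : Finset ι} {e f : Dart ι}

theorem class_lt (hE : K.EE U e f) : U.card < K.Q.card :=
  card_lt_card ⟨hE.sub, fun g => hE.ae_not_mem (g (a_mem (hE.sub hE.e_mem)))⟩

theorem class_two (hE : K.EE U e f) (h2 : 2 ≤ U.card) : (K.Q \ U).card + 2 ≤ K.Q.card := by
  have := card_sdiff_add_card_eq_card hE.sub
  omega

theorem class_rd {B : ℤ} {S : Finset (Dart ι)} (h : K.Pb U B S) : K.Pb U (8 * (B / 8)) S :=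
  h.round (by omega)

theorem class_le {B B' : ℤ} {S : Finset (Dart ι)} (h : K.Pb U B S) (hB : 8 * (B / 8) ≤ B') :
    K.Pb U B' S := (class_rd h).mono hB fun c hc => ⟨c, hc, Vx.refl c⟩

theorem class_to1 {B B' : ℤ} {z c : Dart ι} (h : K.Pb U B {z}) (hB : 8 * (B / 8) ≤ B')
    (hv : K.Vx z c) : K.Pb U B' {c} := (class_rd h).mono hB (by simpa using hv)

theorem class_to2 {B B' : ℤ} {z z' c c' : Dart ι} (h : K.Pb U B {z, z'}) (hB : 8 * (B / 8) ≤ B')
    (hv : K.Vx z c) (hv' : K.Vx z' c') : K.Pb U B' {c, c'} :=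
  (class_rd h).mono hB (by simp [hv, hv'])

variable {B1 B2 : ℤ}

theorem class_bad (h : MC K) (hE : K.EE U e f) {S1 S2 : Finset (Dart ι)} (h1 : K.Pb U B1 S1)
    (h2 : K.Pb (K.Q \ U) B2 S2) (S : Finset (Dart ι)) (hS1 : S ⊆ S1) (hS2 : S ⊆ S2)
    (hS : ∀ c ∈ S, ∀ c' ∈ S, K.Vx c c' → c = c') :
    (K.Wp U : ℤ) + K.Wp (K.Q \ U) + 8 * S.card - 2 < 8 * (B1 / 8) + 8 * (B2 / 8) := by
  by_contra g
  refine h.bad (good_of_pb (class_rd h1) (class_rd h2) S hS1 hS2 hS (by simp [h.mrk_empty]) ?_)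
  have := h.valid.W_split hE.sub
  rw [h.mrk_empty, hE.cut, card_pair hE.ne, card_empty] at this
  omega

theorem class_none (h : MC K) (hE : K.EE U e f) {S1 S2 : Finset (Dart ι)} (h1 : K.Pb U B1 S1)
    (h2 : K.Pb (K.Q \ U) B2 S2) :
    (K.Wp U : ℤ) + K.Wp (K.Q \ U) - 2 < 8 * (B1 / 8) + 8 * (B2 / 8) := by
  simpa using class_bad h hE h1 h2 ∅ (empty_subset _) (empty_subset _) (by simp)

theorem class_one (h : MC K) (hE : K.EE U e f) {z z' : Dart ι} (h1 : K.Pb U B1 {z})
    (h2 : K.Pb (K.Q \ U) B2 {z'}) (hv : K.Vx z' z) :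
    (K.Wp U : ℤ) + K.Wp (K.Q \ U) + 6 < 8 * (B1 / 8) + 8 * (B2 / 8) := by
  have := class_bad h hE h1 (class_to1 h2 le_rfl hv) {z} subset_rfl subset_rfl (by simp)
  rw [card_singleton] at this
  omega

theorem class_empty (h : MC K) (hE : K.EE U e f) : K.Pb U (K.Wp U + 2) ∅ := by
  simpa using t_mark h.valid h.ih hE.sub (hE.connOn h.conn) (class_lt hE) ∅ (by simp)

theorem class_pt (h : MC K) (hE : K.EE U e f) {z : Dart ι} (hz : z.1 ∈ U) :
    K.Pb U (K.Wp U + 8) {z} :=
  (t_mark h.valid h.ih hE.sub (hE.connOn h.conn) (class_lt hE) {z} (by simpa using hz)).mono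
    (by simp only [card_singleton]; omega) fun c hc => ⟨c, hc, Vx.refl c⟩

theorem class_pend (h : MC K) (hE : K.EE U e f) (h2 : U.card + 2 ≤ K.Q.card) :
    K.Pb U (K.Wp U - 2) ∅ ∨ K.Pb U (K.Wp U + 6) {e} ∨ K.Pb U (K.Wp U + 6) {sg e} := by
  simpa using t_pend h.valid h.ih hE.sub (hE.connOn h.conn) h2 (d := e) (by simp [hE.cut]) ∅ (by simp)

theorem class_cols (h : MC K) (hE : K.EE U e f) : col (K.a e) = col (K.a f) ↔ col e = col f := by
  have := h.valid.col_a hE.e_glued
  have := h.valid.col_a hE.swap.e_glued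
  omega

/-- residue zero: the other side has residue two, and the colours differ -/
theorem class_res (h : MC K) (hE : K.EE U e f) (h2 : 2 ≤ U.card) (h0 : (K.Wp U + 2) % 8 = 0) :
    K.Wp (K.Q \ U) % 8 = 2 ∧ col e ≠ col f := by
  have v1 := vx_a_sg hE.e_glued
  have v2 := (vx_sg_a hE.e_glued).symm
  have v3 := vx_a_sg hE.swap.e_glued
  have v4 := (vx_sg_a hE.swap.e_glued).symm
  have p := fun {z z' B} hz => class_one (B2 := B) (z' := z') h hE (class_pt h hE (z := z) hz)
  have n := class_none h hE (class_empty h hE) (class_empty h hE.compl)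
  have m := p (z := sg e) hE.e_mem (class_pt h hE.compl hE.compl.e_mem) v1
  obtain ⟨k, hk⟩ := K.even_Wp (K.Q \ U)
  have a : K.Wp (K.Q \ U) % 8 = 2 := by
    rcases class_pend h hE.compl (class_two hE h2) with g | g | g
    · have := class_none h hE (class_empty h hE) g
      omega
    · have := p (z := sg e) hE.e_mem g v1
      omega
    · have := p hE.e_mem g v2
      omega
  refine ⟨a, fun hp => ?_⟩
  rcases t_S h.valid h.ih hE.compl (hE.compl.connOn h.conn) (class_two hE h2)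
    ((class_cols h hE).2 hp) with g | g | g | g
  · have := p (z := sg e) hE.e_mem g v1
    omega
  · have := p hE.e_mem g v2
    omega
  · have := p (z := sg f) hE.swap.e_mem g v3
    omega
  · have := p hE.swap.e_mem g v4
    omega

/-- a piece of residue zero with at least two quads has cut darts of different colours -/
theorem MC.res0_col (h : MC K) (hE : K.EE U e f) (h2 : 2 ≤ U.card) (h0 : (K.Wp U + 2) % 8 = 0) :
    col e ≠ col f := (class_res h hE h2 h0).2

/-- residue zero: the piece is not short and the pair of ports is cheap on the other side -/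
theorem class_side (h : MC K) (hE : K.EE U e f) (h2 : 2 ≤ U.card) (h0 : (K.Wp U + 2) % 8 = 0) :
    ¬ K.V1 U (sg f) e ∧ K.Pb (K.Q \ U) (K.Wp (K.Q \ U) + 6) {e, sg f} := by
  obtain ⟨a, hp⟩ := class_res h hE h2 h0
  have v1 := vx_a_sg hE.e_glued
  have v2 := (vx_sg_a hE.e_glued).symm
  have v3 := vx_a_sg hE.swap.e_glued
  have v4 := (vx_sg_a hE.swap.e_glued).symm
  have p := fun {z z' B} hz => class_one (B2 := B) (z' := z') h hE (class_pt h hE (z := z) hz)
  have n := class_empty h hE.compl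
  by_cases s : (K.res (K.Q \ U) ∅).Vx (sg (K.a e)) (K.a f)
  · refine ⟨fun g => hE.not_both_short h.valid g s, (class_rd (n.insert e)).mono (by omega) ?_⟩
    simp [Vx.refl, v2.symm.trans ((vx_of_res s).trans v3)]
  by_cases d : ∀ p ∈ K.ds (K.Q \ U), ¬ ((K.res (K.Q \ U) ∅).Vx (sg p) (sg (K.a e)) ∧
      (K.res (K.Q \ U) ∅).Vx (sg (sg (sg p))) (K.a f))
  · rcases t_L h.valid h.ih hE.compl.swap (hE.compl.connOn h.conn) (class_two hE h2)
      (fun g => hp ((class_cols h hE).1 g.symm)) s d with g | g | g | g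
    · have := class_none h hE (class_empty h hE) g
      omega
    · have := p hE.swap.e_mem g v4
      omega
    · have := p (z := sg e) hE.e_mem g v1
      omega
    · refine ⟨fun g' => ?_, pair_comm (sg f) e ▸ class_to2 g.1 (by omega) v3 v2⟩
      have := p (z := sg f) hE.swap.e_mem (g.2 (v2.trans ((vx_of_res g').symm.trans v3.symm))) v3
      omega
  · push Not at d
    obtain ⟨q, hq, q1, q2⟩ := d
    rw [mem_ds] at hq
    rcases n.swap h.valid hq.1 hq.2 (notMem_empty _) with g | g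
    · have := p hE.e_mem g ((vx_of_res q1).trans v2)
      omega
    · have := p (z := sg f) hE.swap.e_mem g ((vx_of_res q2).trans v3)
      omega

/-- residue zero, and the other side is short -/
theorem class_short (h : MC K) (hE : K.EE U e f) (h2 : 2 ≤ U.card) (h0 : (K.Wp U + 2) % 8 = 0)
    (hv : K.Vx (sg f) e) : ¬ K.Vx (sg e) f ∧
      (K.Pb U (K.Wp U + 2) {sg e, e} ∨ K.Pb U (K.Wp U + 2) {f, e}) := by
  obtain ⟨a, hp⟩ := class_res h hE h2 h0
  obtain ⟨x1, -⟩ := class_side h hE h2 h0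
  obtain ⟨y1, y2⟩ := class_side h hE.swap h2 h0
  by_cases d : ∀ p ∈ K.ds U, ¬ ((K.res U ∅).Vx (sg p) (sg e) ∧ (K.res U ∅).Vx (sg (sg (sg p))) f)
  · rcases t_E h.valid h.ih hE (hE.connOn h.conn) (class_lt hE) hp x1 y1 hv d with g | ⟨g, g'⟩
    · have := class_none h hE g (class_empty h hE.compl)
      omega
    · have := class_bad h hE g y2 {sg e, f} subset_rfl (pair_comm (sg e) f).le (by
        simp [g', show ¬K.Vx f (sg e) from fun b => g' b.symm])
      rw [card_pair fun b : sg e = f => g' (b ▸ Vx.refl _)] at this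
      omega
  · push Not at d
    obtain ⟨q, hq, q1, q2⟩ := d
    rw [mem_ds] at hq
    replace q1 := vx_of_res q1
    replace q2 := vx_of_res q2
    refine ⟨fun g => h.valid.dis_ne q hq.1 (q1.trans (g.trans q2.symm)),
      ((class_pt h hE hE.e_mem).swap h.valid hq.1 hq.2 fun g => hE.e_glued ?_).imp
        (fun g => class_to2 g (by omega) q1 (Vx.refl e)) fun g => class_to2 g (by omega) q2 (Vx.refl e)⟩
    rw [← mem_singleton.1 g]
    exact h.valid.dis_fr2 q hq.1

/-- the other side has residue zero and the piece is short -/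
theorem class_A (h : MC K) (hE : K.EE U e f) (h2 : 2 ≤ (K.Q \ U).card)
    (h0 : (K.Wp (K.Q \ U) + 2) % 8 = 0) (hx : K.V1 U (sg f) e) :
    ¬ K.V1 U (sg e) f ∧ (K.Cheap U {e, sg e} 3 ∨ K.Cheap U {e, f} 3) := by
  have v1 := vx_a_sg hE.e_glued
  have v2 := (vx_sg_a hE.e_glued).symm
  have v3 := vx_a_sg hE.swap.e_glued
  have v4 := (vx_sg_a hE.swap.e_glued).symm
  have v5 := v3.trans (vx_of_res hx)
  obtain ⟨a, b⟩ := class_short h hE.compl.swap h2 h0 (v2.trans v5.symm)
  refine ⟨fun g => a (v4.trans ((vx_of_res g).symm.trans v1.symm)), b.symm.imp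
    (fun g => pair_comm (sg e) e ▸ class_to2 g (by omega) v1 v5)
    fun g => pair_comm f e ▸ class_to2 g (by omega) v4 v5⟩

/-- both residues are one and the piece is short -/
theorem class_B1 (h : MC K) (hE : K.EE U e f) (h0 : K.Wp (K.Q \ U) % 8 = 0)
    (hx : K.V1 U (sg f) e) : K.Pb (K.Q \ U) (K.Wp (K.Q \ U)) {e} := by
  have v2 := (vx_sg_a hE.e_glued).symm
  obtain ⟨k, a, b⟩ := t_mark2 h.valid h.ih hE.compl.sub (hE.compl.connOn h.conn) (class_lt hE.compl)
    (c := sg (K.a e)) hE.compl.e_mem hE.compl.swap.e_mem (hE.not_both_short h.valid hx)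
    (v2.trans ((vx_a_sg hE.swap.e_glued).trans (vx_of_res hx)).symm)
  exact class_to1 b (by omega) v2

theorem class_B (h : MC K) (hE : K.EE U e f) (h1 : 2 ≤ U.card) (h2 : 2 ≤ (K.Q \ U).card)
    (h0 : K.Wp U % 8 = 0) (h0' : K.Wp (K.Q \ U) % 8 = 0) (hx : K.V1 U (sg f) e) :
    ¬ K.V1 U (sg e) f ∧ K.Short U e f := by
  have v1 := vx_a_sg hE.e_glued
  have v2 := (vx_sg_a hE.e_glued).symm
  have v3 := vx_a_sg hE.swap.e_glued
  have v4 := (vx_sg_a hE.swap.e_glued).symm
  have v5 := vx_of_res hx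
  have c := card_sdiff_add_card_eq_card hE.sub
  have a := class_B1 h hE h0' hx
  have n := class_empty h hE.compl
  have b1 : K.Pb U (K.Wp U + 6) {sg e} := by
    rcases class_pend h hE (by omega) with g | g | g
    · have := class_none h hE g n
      omega
    · have := class_one h hE g a (Vx.refl e)
      omega
    · exact g
  have b2 : K.Pb U (K.Wp U + 6) {f} := by
    rcases class_pend h hE.swap (by omega) with g | g | g
    · have := class_none h hE g n
      omega
    · exact g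
    · have := class_one h hE g a v5.symm
      omega
  refine ⟨fun g => ?_, .B ?_ (class_le a (by omega)) ?_⟩
  · have := class_one h hE b2 (class_B1 h hE.swap h0' g) (Vx.refl f)
    omega
  · by_contra s
    have c1 := h.valid.col_vx v5
    have c2 := col_sg f
    rcases t_D h.valid h.ih hE.compl.swap (hE.compl.connOn h.conn) (class_two hE h1)
      (fun g => by have := (class_cols h hE).1 g.symm; omega) (hE.not_both_short h.valid hx)
      (fun g => s (v1.symm.trans ((vx_of_res g).symm.trans v4)))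
      (v2.trans (v3.trans v5).symm) with g | g | g
    · have := class_none h hE (class_empty h hE) g
      omega
    · have := class_one h hE b2 g v4
      omega
    · have := class_one h hE b1 g v1
      omega
  · exact pair_comm f e ▸ class_le (a.insert f) (by omega)

theorem class_B2 (h : MC K) (hE : K.EE U e f) (h1 : 2 ≤ U.card) (h0 : K.Wp U % 8 = 0)
    (h0' : K.Wp (K.Q \ U) % 8 = 0) : K.Cheap U {e} 2 ∨ K.Cheap U {sg e} 2 := by
  rcases class_pend h hE.compl (class_two hE h1) with g | g | g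
  · have := class_none h hE (class_empty h hE) g
    omega
  · exact .inr (class_to1 g (by omega) (vx_a_sg hE.e_glued))
  · exact .inl (class_to1 g (by omega) (vx_sg_a hE.e_glued).symm)

theorem class_A2 (h : MC K) (hE : K.EE U e f) (h0 : (K.Wp (K.Q \ U) + 2) % 8 = 0) :
    K.Cheap U {e} 3 ∧ K.Cheap U {sg e} 3 :=
  ⟨class_to1 (class_pt h hE.compl (z := sg (K.a e)) hE.compl.e_mem) (by omega)
    (vx_sg_a hE.e_glued).symm,
    class_to1 (class_pt h hE.compl hE.compl.e_mem) (by omega) (vx_a_sg hE.e_glued)⟩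

theorem MC.cases (h : MC K) (hE : K.EE U e f) (h1 : 2 ≤ U.card) (h2 : 2 ≤ (K.Q \ U).card) :
    K.Cases U e f := by
  by_cases r : (K.Wp U + 2) % 8 = 0
  · obtain ⟨x1, x2⟩ := class_side h hE h1 r
    obtain ⟨y1, y2⟩ := class_side h hE.swap h1 r
    obtain ⟨a, hp⟩ := class_res h hE h1 r
    exact .inl ⟨x1, y1, .C hp (class_le x2 (by omega)) (class_le y2 (by omega))⟩
  by_cases r' : (K.Wp (K.Q \ U) + 2) % 8 = 0
  · obtain ⟨a1, a2⟩ := class_A2 h hE r'
    obtain ⟨a3, a4⟩ := class_A2 h hE.swap r'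
    by_cases x : K.V1 U (sg f) e
    · obtain ⟨b1, b2⟩ := class_A h hE h2 r' x
      exact .inr (.inl ⟨x, b1, .A a1 a2 a3 b2⟩)
    by_cases y : K.V1 U (sg e) f
    · exact .inr (.inr ⟨y, x, .A a3 a4 a1 (class_A h hE.swap h2 r' y).2⟩)
    exact .inl ⟨x, y, .A (fun g => (class_res h hE.compl h2 r').2 ((class_cols h hE).2 g))
      a1 a2 a3 a4⟩
  have n := class_none h hE (class_empty h hE) (class_empty h hE.compl)
  obtain ⟨k, hk⟩ := K.even_Wp U
  obtain ⟨k', hk'⟩ := K.even_Wp (K.Q \ U)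
  have h0 : K.Wp U % 8 = 0 := by omega
  have h0' : K.Wp (K.Q \ U) % 8 = 0 := by omega
  by_cases x : K.V1 U (sg f) e
  · exact .inr (.inl ⟨x, class_B h hE h1 h2 h0 h0' x⟩)
  by_cases y : K.V1 U (sg e) f
  · exact .inr (.inr ⟨y, class_B h hE.swap h1 h2 h0 h0' y⟩)
  exact .inl ⟨x, y, .B (class_B2 h hE h1 h0 h0') (class_B2 h hE.swap h1 h0 h0')⟩

end Pool.Agent.Lib.MP_8d6beb_co
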