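import Pool.Agent.Lib.MP_8d6beb_co.QSetup

/-! Classes of corners that are picked together: no multiple touch, and the reduction rules. -/

namespace Pool.Agent.Lib.MP_8d6beb_co

open Finset Cx

set_option linter.unusedSectionVars false

variable {ι : Type} [Fintype ι] [DecidableEq ι]

namespace Cx

variable (K : Cx ι)

open Classical in
/-- the corners of the vertex of `c` -/
noncomputable def cl (c : Dart ι) : Finset (Dart ι) := univ.filter (fun x => K.Vx c x)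

@[simp] theorem mem_cl {K : Cx ι} {c x : Dart ι} : x ∈ K.cl c ↔ K.Vx c x := by
  simp [cl]

/-- the vertex of `c` has a corner outside `K1` -/
def Port (K1 : Finset ι) (c : Dart ι) : Prop := ∃ x, K.Vx c x ∧ x.1 ∉ K1

/-- `c` lies between two free sides -/
def Single (c : Dart ι) : Prop := K.a c = c ∧ K.a (sg (sg (sg c))) = sg (sg (sg c))

/-- `D`, together with the far side if `del` -/
def Ext (K1 D : Finset ι) (del : Bool) : Finset ι := if del then D ∪ (K.Q \ K1) else D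

/-- `g` is a glued side at a corner in `C`, taken on the curve of `C` -/
def Diag (C : Finset (Dart ι)) (g : Dart ι) : Prop := K.a g ≠ g ∧ (g ∈ C ∨ K.phi g ∈ C)

/-- `x` is a corner in `F` at the far end of the glued side `g` -/
def End (F : Finset ι) (g x : Dart ι) : Prop := x.1 ∈ F ∧ (x = sg g ∨ x = K.a g)

/-- the reduction rule for the class `C`, which may carry weight at most `w0`; the quads in `Ex`
are covered for free -/
def Rule (K1 : Finset ι) (C : Finset (Dart ι)) (del : Bool) (Ex : Finset ι) (w0 : ℕ) : Prop :=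
  ∀ (D : Finset ι) (X0 Zs : Finset (Dart ι)), D ⊆ K1 → fanQ C ⊆ D → K.ConnOn (K.Ext K1 D del) →
    K.NoMT (K.Ext K1 D del) →
    (∀ q ∈ D, K.Cov X0 q ∨ (∃ c ∈ C, c.1 = q ∧ c ∉ K.dis) ∨ q ∈ Ex) →
    (∀ z ∈ Zs, z.1 ∈ K1 ∧ K.a z = z ∧ K.Inside (K.Ext K1 D del) z) →
    (∀ z ∈ Zs, ∀ z' ∈ Zs, K.Fc z z' → z = z') →
    4 * X0.card + w0 + 1 ≤ (K.fr D).card + (K.ds D).card + Zs.card → False

end Cx

structure Cls (K : Cx ι) (K1 : Finset ι) (e f : Dart ι) (C : Finset (Dart ι)) (del : Bool) :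
    Prop where
  sub : ∀ c ∈ C, c.1 ∈ K1
  ne : C.Nonempty
  closed : ∀ c ∈ C, ∀ c', K.V1 K1 c c' → c' ∈ C
  lk : ∀ c ∈ C, ∀ c' ∈ C, K.Lk (K.Ext K1 (fanQ C) del) c c'
  del_port : del = true → K1 ≠ K.Q ∧ (e ∈ C ∨ sg f ∈ C ∨ f ∈ C ∨ sg e ∈ C)
  both : K1 ≠ K.Q → (e ∈ C ∧ sg f ∈ C) ∨ (f ∈ C ∧ sg e ∈ C) → del = true

variable {K : Cx ι} {K1 : Finset ι} {e f : Dart ι} {C : Finset (Dart ι)} {del : Bool}

theorem cls_ee (h : Setup K K1 e f) (h1 : K1 ≠ K.Q) : K.EE K1 e f :=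
  (h.port.resolve_left h1).1

theorem cls_v1_mem {c x : Dart ι} (h : K.V1 K1 c x) (hc : c.1 ∈ K1) : x.1 ∈ K1 :=
  Vx.mem (K := K.res K1 ∅) h hc

theorem cls_sub_ext {D : Finset ι} : D ⊆ K.Ext K1 D del := by
  unfold Cx.Ext
  split_ifs
  · exact subset_union_left
  · exact Subset.rfl

theorem cls_far_ext {D : Finset ι} : K.Q \ K1 ⊆ K.Ext K1 D true := subset_union_right

theorem cls_ext_false {D : Finset ι} : K.Ext K1 D false = D := rfl

theorem cls_ext_true {D : Finset ι} : K.Ext K1 D true = D ∪ (K.Q \ K1) := rfl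

theorem cls_mem_ext {c : Dart ι} (hc : c ∈ C) : c.1 ∈ K.Ext K1 (fanQ C) del :=
  cls_sub_ext (mem_fanQ.2 ⟨c, hc, rfl⟩)

theorem cls_res_phi {U : Finset ι} {M : Finset (Dart ι)} {x : Dart ι} (h1 : x.1 ∈ U)
    (h2 : (K.a x).1 ∈ U) : (K.res U M).phi x = K.phi x := by
  rw [phi_apply, phi_apply, res_a_in M h1 h2]

/-- a vertex of a piece whose corners lie in `F` is linked inside `F` -/
theorem cls_lk_v1 {U F : Finset ι} {M : Finset (Dart ι)} {c c' : Dart ι}
    (hF : ∀ x, (K.res U M).Vx c x → x.1 ∈ F) (h : (K.res U M).Vx c c') : K.Lk F c c' := by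
  refine ((Vx.ind (K := K.res U M) (P := fun x => (K.res U M).Vx c x ∧ K.Lk F c x)
    (fun x g => ?_) h).1 ⟨Vx.refl c, Lk.refl F c⟩).2
  have g' := res_glued.1 g
  have v := vx_phi g
  have p := cls_res_phi (M := M) g'.1 g'.2.1
  constructor
  · rintro ⟨a1, a2⟩
    have a3 := hF _ (a1.trans v)
    rw [p] at a3
    refine ⟨a1.trans v, ?_⟩
    rw [p]
    exact a2.trans (lk_phi (hF _ a1) a3)
  · rintro ⟨a1, a2⟩
    have a3 := hF _ a1
    rw [p] at a3 a2
    exact ⟨a1.trans v.symm, a2.trans (lk_phi (hF _ (a1.trans v.symm)) a3).symm⟩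

theorem cls_leaf {d : Dart ι} (h1 : K.a d ≠ d) (h2 : K.deg d.1 = 1) :
    K.a (sg d) = sg d ∧ K.a (sg (sg d)) = sg (sg d) ∧ K.a (sg (sg (sg d))) = sg (sg (sg d)) := by
  have := deg_eq (K := K) d
  rw [h2, if_neg h1] at this
  split_ifs at this <;> first | omega | exact ⟨‹_›, ‹_›, ‹_›⟩

theorem cls_lk_leaf {F : Finset ι} {d : Dart ι} (h1 : K.a d ≠ d) (h2 : K.deg d.1 = 1)
    (h3 : d.1 ∈ F) : K.Lk F (sg d) d := by
  obtain ⟨a1, a2, a3⟩ := cls_leaf h1 h2
  have b := ((lk_free (K := K) (U := F) (x := sg d) h3 a1).trans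
    (lk_free (x := sg (sg d)) h3 a2)).trans (lk_free (x := sg (sg (sg d))) h3 a3)
  rwa [sg4] at b

/-- the two ends of a bridge are linked through the leaf -/
theorem cls_bridge (h : MC K) {F : Finset ι} {d : Dart ι} (h1 : K.a d ≠ d) (h2 : K.Fc d (K.a d))
    (h3 : d.1 ∈ F) (h4 : (K.a d).1 ∈ F) : K.Lk F d (sg d) := by
  rcases h.bridge h1 h2 with g | g
  · exact (cls_lk_leaf h1 g h3).symm
  · exact ((lk_phi h3 h4).trans (cls_lk_leaf (a_glued h1) g h4)).trans (lk_a_sg h3 h4)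

/-- a bridge at the piece stays inside the piece -/
theorem cls_bridge_in (h : Setup K K1 e f) {d : Dart ι} (h1 : d.1 ∈ K1) (h2 : K.Fc d (K.a d)) :
    (K.a d).1 ∈ K1 := by
  by_contra g
  by_cases q : K1 = K.Q
  · exact g (q ▸ a_mem (h.sub h1))
  · have hE := cls_ee h q
    rcases hE.eq_of_cut h1 g with rfl | rfl
    · exact hE.nb h2
    · exact hE.swap.nb h2

theorem cls_end_sg {F : Finset ι} {g x : Dart ι} (h : K.End F g x) (h1 : g.1 ∈ F) :
    K.Lk F x (sg g) := by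
  obtain ⟨a, rfl | rfl⟩ := h
  · exact Lk.refl _ _
  · exact lk_a_sg h1 a

theorem cls_end_a {F : Finset ι} {g x : Dart ι} (h : K.End F g x) (h1 : (K.a g).1 ∈ F) :
    K.Lk F x (K.a g) := by
  obtain ⟨a, rfl | rfl⟩ := h
  · exact (lk_a_sg (x := g) a h1).symm
  · exact Lk.refl _ _

theorem cls_end_fc {F : Finset ι} {g x : Dart ι} (h : K.End F g x) : K.Fc (K.a g) x := by
  obtain ⟨_, rfl | rfl⟩ := h
  · exact fc_a_sg g
  · exact Fc.refl _

theorem cls_diag_left (hC : Cls K K1 e f C del) {g : Dart ι} (h : K.Diag C g) (h1 : g.1 ∈ K1) :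
    g ∈ C := by
  rcases h.2 with a | a
  · exact a
  · exact hC.closed _ a _ (res_vx_step ∅ h1 (hC.sub (K.phi g) a) h.1).symm

theorem cls_diag_right (hC : Cls K K1 e f C del) {g : Dart ι} (h : K.Diag C g)
    (h1 : (K.a g).1 ∈ K1) : K.phi g ∈ C := by
  rcases h.2 with a | a
  · exact hC.closed _ a _ (res_vx_step ∅ (hC.sub _ a) h1 h.1)
  · exact a

theorem Cls.swap (h : Cls K K1 e f C del) : Cls K K1 f e C del := by
  exact ⟨h.sub, h.ne, h.closed, h.lk, fun g => ⟨(h.del_port g).1, by have := (h.del_port g).2; tauto⟩,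
    fun g1 g2 => h.both g1 g2.symm⟩

theorem not_port_of_inside {c : Dart ι} (h : K.Inside K1 c) : ¬ K.Port K1 c := by
  rintro ⟨x, h1, h2⟩
  exact h2 (h x h1.fc)

theorem Setup.not_port (h : Setup K K1 e f) (h1 : K1 = K.Q) {c : Dart ι} (hc : c.1 ∈ K1) :
    ¬ K.Port K1 c := by
  rintro ⟨x, g1, g2⟩
  exact g2 (h1 ▸ g1.mem (h.sub hc))

theorem Setup.port_iff (h : Setup K K1 e f) (h1 : K1 ≠ K.Q) {c : Dart ι} (hc : c.1 ∈ K1) :
    K.Port K1 c ↔ K.V1 K1 c e ∨ K.V1 K1 c (sg f) ∨ K.V1 K1 c f ∨ K.V1 K1 c (sg e) := by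
  have hE := cls_ee h h1
  constructor
  · rintro ⟨x, g1, g2⟩
    by_contra n
    push Not at n
    refine g2 (cls_v1_mem ((Vx.ind (P := fun y => K.V1 K1 c y) (fun y g => ⟨fun a => ?_, fun a => ?_⟩)
      g1).1 (Vx.refl c)) hc)
    · have b := cls_v1_mem a hc
      by_cases b' : (K.a y).1 ∈ K1
      · exact Vx.trans a (res_vx_step ∅ b b' g)
      · rcases hE.eq_of_cut b b' with rfl | rfl
        · exact absurd a n.1
        · exact absurd a n.2.2.1
    · have b : (K.a y).1 ∈ K1 := cls_v1_mem (x := K.phi y) a hc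
      by_cases b' : y.1 ∈ K1
      · exact Vx.trans a (res_vx_step ∅ b' b g).symm
      · rcases hE.eq_of_cut b (by rwa [K.inv]) with r | r <;> rw [phi_apply, r] at a
        · exact absurd a n.2.2.2
        · exact absurd a n.2.1
  · rintro (g | g | g | g)
    · exact ⟨_, (vx_of_res g).trans (vx_phi hE.e_glued), hE.ae_not_mem⟩
    · exact ⟨_, (vx_of_res g).trans (vx_a_sg hE.swap.e_glued).symm, hE.swap.ae_not_mem⟩
    · exact ⟨_, (vx_of_res g).trans (vx_phi hE.swap.e_glued), hE.swap.ae_not_mem⟩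
    · exact ⟨_, (vx_of_res g).trans (vx_a_sg hE.e_glued).symm, hE.ae_not_mem⟩

theorem Setup.ext_sub (h : Setup K K1 e f) {D : Finset ι} (hD : D ⊆ K1) :
    K.Ext K1 D del ⊆ K.Q := by
  unfold Cx.Ext
  split_ifs
  · exact union_subset (hD.trans h.sub) sdiff_subset
  · exact hD.trans h.sub

theorem Cls.fc (hC : Cls K K1 e f C del) {c c' : Dart ι} (h : c ∈ C) (h' : c' ∈ C) :
    K.Fc c c' := (hC.lk c h c' h').fc

theorem Cls.fc_diag (hC : Cls K K1 e f C del) {c g : Dart ι} (h : c ∈ C) (h' : K.Diag C g) :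
    K.Fc c g := by
  rcases h'.2 with a | a
  · exact hC.fc h a
  · exact (hC.fc h a).trans (fc_phi g).symm

theorem Cls.connOn (h : Setup K K1 e f) (hC : Cls K K1 e f C del) :
    K.ConnOn (K.Ext K1 (fanQ C) del) := by
  obtain ⟨c0, hc0⟩ := hC.ne
  cases del with
  | false =>
    refine connOn_of_lk (x := c0) (fun q hq => ?_)
    obtain ⟨c, hc, rfl⟩ := mem_fanQ.1 hq
    exact ⟨c, rfl, hC.lk _ hc0 _ hc⟩
  | true =>
    obtain ⟨h1, h2⟩ := hC.del_port rfl
    have hE := cls_ee h h1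
    obtain ⟨d, c, d1, d2, d3⟩ : ∃ d c : Dart ι, c ∈ C ∧ c.1 = d.1 ∧ (K.a d).1 ∈ K.Q \ K1 := by
      rcases h2 with g | g | g | g
      · exact ⟨e, e, g, rfl, hE.compl.e_mem⟩
      · exact ⟨f, sg f, g, rfl, hE.swap.compl.e_mem⟩
      · exact ⟨f, f, g, rfl, hE.swap.compl.e_mem⟩
      · exact ⟨e, sg e, g, rfl, hE.compl.e_mem⟩
    intro T t1 ⟨t, ht⟩ t3
    have key : ∀ y z, K.Lk (K.Ext K1 (fanQ C) true) y z → (y.1 ∈ T ↔ z.1 ∈ T) := by
      intro y z g
      induction g with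
      | rel y z r =>
        obtain ⟨e1, e2, rfl⟩ := r
        refine ⟨fun b => t3 y b e2, fun b => ?_⟩
        have := t3 (K.a y) b (by rwa [K.inv])
        rwa [K.inv] at this
      | refl => rfl
      | symm _ _ _ ih => exact ih.symm
      | trans _ _ _ _ _ i1 i2 => exact i1.trans i2
    have far : ∀ q ∈ T, q ∈ K.Q \ K1 → K.Q \ K1 ⊆ T := by
      intro q q1 q2
      rw [← hE.compl.connOn h.mc.conn (T ∩ (K.Q \ K1)) inter_subset_right
        ⟨q, mem_inter.2 ⟨q1, q2⟩⟩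
        (fun y g1 g2 => mem_inter.2 ⟨t3 y (mem_inter.1 g1).1 (cls_far_ext g2), g2⟩)]
      exact inter_subset_left
    have dT : d.1 ∈ T := by
      rcases mem_union.1 (t1 ht) with g | g
      · obtain ⟨c', hc', rfl⟩ := mem_fanQ.1 g
        exact d2 ▸ (key _ _ (hC.lk _ hc' _ d1)).1 ht
      · have := t3 (K.a d) (far t ht g d3) (by rw [K.inv, ← d2]; exact cls_mem_ext d1)
        rwa [K.inv] at this
    refine Subset.antisymm t1 (union_subset (fun q hq => ?_)
      (far _ (t3 d dT (cls_far_ext d3)) d3))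
    obtain ⟨c', hc', rfl⟩ := mem_fanQ.1 hq
    exact (key _ _ (hC.lk _ d1 _ hc')).1 (d2 ▸ dT)

theorem cls_anchor_far (hE : K.EE K1 e f) (h : e ∈ C ∨ sg f ∈ C) {r : Dart ι}
    (h1 : r.1 ∈ K.Q \ K1) :
    K.Inside (K.Ext K1 (fanQ C) true) r ∨ (∃ c ∈ C, K.Lk (K.Ext K1 (fanQ C) true) r c) ∨
      ∃ g x, K.Diag C g ∧ ¬ K.Fc g (K.a g) ∧ K.End (K.Ext K1 (fanQ C) true) g x ∧
        K.Lk (K.Ext K1 (fanQ C) true) r x := by
  by_cases i : K.Inside (K.Q \ K1) r
  · exact Or.inl (i.mono cls_far_ext)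
  refine Or.inr ?_
  obtain ⟨d, d1, d2⟩ := exit h1 i
  have d3 := d2.mono (cls_far_ext (D := fanQ C))
  have ae : (K.a e).1 ∈ K.Ext K1 (fanQ C) true := cls_far_ext hE.compl.e_mem
  have af : (K.a f).1 ∈ K.Ext K1 (fanQ C) true := cls_far_ext hE.swap.compl.e_mem
  rw [mem_cut] at d1
  rcases hE.compl.eq_of_cut d1.1 d1.2 with rfl | rfl <;> rcases h with g | g
  · exact Or.inr ⟨e, K.a e, ⟨hE.e_glued, Or.inl g⟩, hE.nb, ⟨ae, Or.inr rfl⟩, d3⟩
  · exact Or.inr ⟨K.a f, sg (K.a f), ⟨a_glued hE.swap.e_glued, Or.inr (by rwa [phi_a])⟩,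
      hE.swap.compl.nb, ⟨af, Or.inl rfl⟩, d3.trans (hE.compl.lk_sf_e.mono cls_far_ext).symm⟩
  · exact Or.inl ⟨e, g, (d3.trans (hE.swap.compl.lk_sf_e.mono cls_far_ext).symm).trans
      (lk_phi (cls_mem_ext g) ae).symm⟩
  · exact Or.inl ⟨sg f, g, d3.trans (lk_a_sg (cls_mem_ext (c := sg f) g) af)⟩

/-- every free side in the fan is linked to the class or to the far end of a side at the class -/
theorem Cls.anchor (h : Setup K K1 e f) (hC : Cls K K1 e f C del) {r : Dart ι}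
    (h1 : r.1 ∈ K.Ext K1 (fanQ C) del) (h2 : K.a r = r) :
    K.Inside (K.Ext K1 (fanQ C) del) r ∨ (∃ c ∈ C, K.Lk (K.Ext K1 (fanQ C) del) r c) ∨
      ∃ g x, K.Diag C g ∧ ¬ K.Fc g (K.a g) ∧ K.End (K.Ext K1 (fanQ C) del) g x ∧
        K.Lk (K.Ext K1 (fanQ C) del) r x := by
  by_cases hr : r.1 ∈ fanQ C
  · refine Or.inr ?_
    obtain ⟨c, hc, hq⟩ := mem_fanQ.1 hr
    have cF : c.1 ∈ K.Ext K1 (fanQ C) del := cls_mem_ext hc
    rcases same_quad hq.symm with rfl | rfl | rfl | rfl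
    · exact Or.inl ⟨r, hc, Lk.refl _ _⟩
    · by_cases g : K.a c = c
      · exact Or.inl ⟨c, hc, (lk_free cF g).symm⟩
      by_cases b : K.Fc c (K.a c)
      · have b1 := cls_diag_right hC ⟨g, Or.inl hc⟩ (cls_bridge_in h (hC.sub c hc) b)
        exact Or.inl ⟨c, hc, (cls_bridge h.mc g b cF (cls_mem_ext (c := K.phi c) b1)).symm⟩
      · exact Or.inr ⟨c, sg c, ⟨g, Or.inl hc⟩, b, ⟨cF, Or.inl rfl⟩, Lk.refl _ _⟩
    · have l := lk_free (K := K) h1 h2
      by_cases g : K.a (sg (sg (sg c))) = sg (sg (sg c))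
      · have l' := lk_free (K := K) (x := sg (sg (sg c))) cF g
        rw [sg4] at l'
        exact Or.inl ⟨c, hc, l.trans l'⟩
      have dg : K.Diag C (K.a (sg (sg (sg c)))) := ⟨a_glued g, Or.inr (by rwa [phi_pred])⟩
      by_cases b : K.Fc (sg (sg (sg c))) (K.a (sg (sg (sg c))))
      · have b1 := cls_diag_left hC dg (cls_bridge_in h (d := sg (sg (sg c))) (hC.sub c hc) b)
        have l' := cls_bridge h.mc g b cF (cls_mem_ext b1)
        rw [sg4] at l'
        exact Or.inl ⟨c, hc, l.trans l'⟩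
      · exact Or.inr ⟨_, sg (sg (sg c)), dg, fun b' => b (by rw [K.inv] at b'; exact b'.symm),
          ⟨cF, Or.inr (K.inv _).symm⟩, l⟩
    · have l := lk_free (K := K) h1 h2
      rw [sg4] at l
      exact Or.inl ⟨c, hc, l⟩
  · cases del with
    | false => exact absurd h1 hr
    | true =>
      obtain ⟨q, h3⟩ := hC.del_port rfl
      have r' : r.1 ∈ K.Q \ K1 := (mem_union.1 h1).resolve_left hr
      rcases h3 with g | g | g | g
      · exact cls_anchor_far (cls_ee h q) (Or.inl g) r'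
      · exact cls_anchor_far (cls_ee h q) (Or.inr g) r'
      · exact cls_anchor_far (cls_ee h q).swap (Or.inl g) r'
      · exact cls_anchor_far (cls_ee h q).swap (Or.inr g) r'

theorem cls_mt_port (hE : K.EE K1 e f) (hC : Cls K K1 e f C del) (q : K1 ≠ K.Q) {x x' : Dart ι}
    (h1 : K.Diag C e) (h2 : K.Diag C (K.a f)) (h5 : K.End (K.Ext K1 (fanQ C) del) e x)
    (h6 : K.End (K.Ext K1 (fanQ C) del) (K.a f) x') : K.Lk (K.Ext K1 (fanQ C) del) x x' := by
  have b1 := cls_diag_left hC h1 hE.e_mem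
  have b2 := cls_diag_right hC h2 (by rw [K.inv]; exact hE.swap.e_mem)
  rw [phi_a] at b2
  obtain rfl := hC.both q (Or.inl ⟨b1, b2⟩)
  exact ((cls_end_a h5 (cls_far_ext hE.compl.e_mem)).trans
    (hE.compl.lk_sf_e.mono cls_far_ext).symm).trans
    (cls_end_sg h6 (cls_far_ext hE.swap.compl.e_mem)).symm

/-- two sides at the class that lead to the same curve have linked far ends -/
theorem Cls.mt (h : Setup K K1 e f) (hC : Cls K K1 e f C del) {g g' x x' : Dart ι}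
    (h1 : K.Diag C g) (h2 : K.Diag C g') (h3 : ¬ K.Fc g (K.a g)) (h4 : K.Fc (K.a g) (K.a g'))
    (h5 : K.End (K.Ext K1 (fanQ C) del) g x) (h6 : K.End (K.Ext K1 (fanQ C) del) g' x') :
    K.Lk (K.Ext K1 (fanQ C) del) x x' := by
  by_cases q : g = g'
  · subst q
    rcases h5.2 with a | a
    · exact (cls_end_sg h5 (by have := h5.1; rwa [a] at this)).trans
        (cls_end_sg h6 (by have := h5.1; rwa [a] at this)).symm
    · exact (cls_end_a h5 (by have := h5.1; rwa [a] at this)).trans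
        (cls_end_a h6 (by have := h5.1; rwa [a] at this)).symm
  obtain ⟨c0, hc0⟩ := hC.ne
  have gg : K.Fc g' g := (hC.fc_diag hc0 h2).symm.trans (hC.fc_diag hc0 h1)
  have side : ∀ {y : Dart ι}, K.Diag C y → y.1 ∈ K1 ∨ (K.a y).1 ∈ K1 := fun {y} hy =>
    hy.2.imp (hC.sub _) (hC.sub (K.phi y))
  have two : ∀ {y z : Dart ι}, y ∈ C → z ∈ C → {y.1, z.1} ⊆ K.Ext K1 (fanQ C) del :=
    fun hy hz => insert_subset (cls_mem_ext hy) (singleton_subset_iff.2 (cls_mem_ext hz))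
  have gp := h.gp g (K.a g') h1.1 (a_glued h2.1) (side h1) (by rw [K.inv]; exact (side h2).symm)
    h4 (by rwa [K.inv]) (fun b => h3 (b.trans h4.symm)) (fun b => q (a_inj b).symm)
  rw [K.inv] at gp
  rcases gp with ⟨a1, a2, -, -, -, -, a3⟩ | ⟨a1, a2, -, -, -, a3, -⟩ | ⟨q', a⟩
  · have b1 := cls_diag_left hC h1 a1
    have b2 := cls_diag_right hC h2 a2
    exact ((cls_end_sg h5 (cls_mem_ext b1)).trans (a3.mono (two b1 b2))).trans
      (cls_end_a h6 (cls_mem_ext (c := K.phi g') b2)).symm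
  · have b1 := cls_diag_right hC h1 a1
    have b2 := cls_diag_left hC h2 a2
    exact ((cls_end_a h5 (cls_mem_ext (c := K.phi g) b1)).trans (a3.mono (two b1 b2)).symm).trans
      (cls_end_sg h6 (cls_mem_ext b2)).symm
  · have hE := cls_ee h q'
    rcases a with ⟨rfl, a⟩ | ⟨rfl, a⟩ | ⟨a, rfl⟩ | ⟨a, rfl⟩
    · obtain rfl : g' = K.a f := by rw [← a, K.inv]
      exact cls_mt_port hE hC q' h1 h2 h5 h6
    · obtain rfl : g' = K.a e := by rw [← a, K.inv]
      exact cls_mt_port hE.swap hC.swap q' h1 h2 h5 h6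
    · obtain rfl : g = K.a e := by rw [← a, K.inv]
      exact (cls_mt_port hE.swap hC.swap q' h2 h1 h6 h5).symm
    · obtain rfl : g = K.a f := by rw [← a, K.inv]
      exact (cls_mt_port hE hC q' h2 h1 h6 h5).symm

theorem Cls.noMT (h : Setup K K1 e f) (hC : Cls K K1 e f C del) :
    K.NoMT (K.Ext K1 (fanQ C) del) := by
  intro r r' a1 a2 a3 a4 a5
  rcases hC.anchor h a1 a3 with b | ⟨c, b1, b2⟩ | ⟨g, x, b1, b2, b3, b4⟩
  · exact b.lk a5
  · rcases hC.anchor h a2 a4 with b' | ⟨c', c1, c2⟩ | ⟨g', x', c1, c2, c3, c4⟩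
    · exact (b'.lk a5.symm).symm
    · exact (b2.trans (hC.lk _ b1 _ c1)).trans c2.symm
    · exact absurd (((((hC.fc_diag b1 c1).symm.trans b2.fc.symm).trans a5).trans c4.fc).trans
        (cls_end_fc c3).symm) c2
  · rcases hC.anchor h a2 a4 with b' | ⟨c', c1, c2⟩ | ⟨g', x', c1, c2, c3, c4⟩
    · exact (b'.lk a5.symm).symm
    · exact absurd (((((hC.fc_diag c1 b1).symm.trans c2.fc.symm).trans a5.symm).trans b4.fc).trans
        (cls_end_fc b3).symm) b2
    · exact (b4.trans (hC.mt h b1 c1 b2 (((((cls_end_fc b3).trans b4.fc.symm).trans a5).trans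
        c4.fc).trans (cls_end_fc c3).symm) b3 c3)).trans c4.symm

/-- the class of a vertex that is not a port -/
theorem Setup.cls_vx (h : Setup K K1 e f) {u : Dart ι} (h2 : ¬ K.Port K1 u) :
    Cls K K1 e f (K.cl u) false := by
  have i : ∀ x, K.Vx u x → x.1 ∈ K1 := fun x g => by
    by_contra b
    exact h2 ⟨x, g, b⟩
  refine ⟨fun c hc => i c (mem_cl.1 hc), ⟨u, mem_cl.2 (Vx.refl u)⟩,
    fun c hc c' g => mem_cl.2 ((mem_cl.1 hc).trans (vx_of_res g)), fun c hc c' hc' => ?_,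
    fun g => absurd g (by decide), fun q g => ?_⟩
  · rw [mem_cl] at hc hc'
    exact lk_of_res_vx (M := ∅) (res_vx_of_vx ∅
      (fun x g => cls_mem_ext (mem_cl.2 (hc.trans g))) (hc.symm.trans hc'))
  · have hE := cls_ee h q
    rcases g with g | g
    · exact absurd (i _ ((mem_cl.1 g.1).trans (vx_phi hE.e_glued))) hE.ae_not_mem
    · exact absurd (i _ ((mem_cl.1 g.1).trans (vx_phi hE.swap.e_glued))) hE.swap.ae_not_mem

/-- the class of all corners on a curve inside `K1` -/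
theorem Setup.cls_face (h : Setup K K1 e f) {z : Dart ι} (h1 : K.Inside K1 z)
    (hC : ∀ x, x ∈ C ↔ K.Fc z x) : Cls K K1 e f C false := by
  refine ⟨fun c hc => h1 c ((hC c).1 hc), ⟨z, (hC z).2 (Fc.refl z)⟩,
    fun c hc c' g => (hC c').2 (((hC c).1 hc).trans (vx_of_res g).fc), fun c hc c' hc' => ?_,
    fun g => absurd g (by decide), fun q g => ?_⟩
  · rw [hC] at hc hc'
    exact Inside.lk (fun x g => cls_mem_ext ((hC x).2 (hc.trans g))) (hc.symm.trans hc')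
  · have hE := cls_ee h q
    rcases g with g | g
    · exact absurd (h1 _ (((hC _).1 g.1).trans (fc_phi e))) hE.ae_not_mem
    · exact absurd (h1 _ (((hC _).1 g.1).trans (fc_phi f))) hE.swap.ae_not_mem

theorem cls_port_mem (hE : K.EE K1 e f) {u : Dart ι}
    (hu : u = e ∨ u = sg f ∨ u = f ∨ u = sg e) : u.1 ∈ K1 := by
  rcases hu with rfl | rfl | rfl | rfl
  · exact hE.e_mem
  · exact hE.swap.e_mem
  · exact hE.swap.e_mem
  · exact hE.e_mem

/-- the class of a port vertex of the piece, the far side being deleted -/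
theorem Setup.cls_port (h : Setup K K1 e f) (h1 : K1 ≠ K.Q) {u : Dart ι}
    (hu : u = e ∨ u = sg f ∨ u = f ∨ u = sg e) : Cls K K1 e f ((K.res K1 ∅).cl u) true := by
  have hu' := cls_port_mem (cls_ee h h1) hu
  refine ⟨fun c hc => cls_v1_mem (mem_cl.1 hc) hu', ⟨u, mem_cl.2 (Vx.refl u)⟩,
    fun c hc c' g => mem_cl.2 ((mem_cl.1 hc).trans g), fun c hc c' hc' => ?_,
    fun _ => ⟨h1, ?_⟩, fun _ _ => rfl⟩
  · rw [mem_cl] at hc hc'
    exact cls_lk_v1 (fun x g => cls_mem_ext (mem_cl.2 (hc.trans g))) (hc.symm.trans hc')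
  · have : u ∈ (K.res K1 ∅).cl u := mem_cl.2 (Vx.refl u)
    rcases hu with rfl | rfl | rfl | rfl <;> simp only [this, true_or, or_true]

/-- the class of a port vertex of a piece that is not short, the far side being kept -/
theorem Setup.cls_port_keep (h : Setup K K1 e f) (h1 : K1 ≠ K.Q) {u : Dart ι}
    (hu : u = e ∨ u = sg f ∨ u = f ∨ u = sg e) (hx : ¬ K.V1 K1 (sg f) e)
    (hy : ¬ K.V1 K1 (sg e) f) : Cls K K1 e f ((K.res K1 ∅).cl u) false := by
  have hu' := cls_port_mem (cls_ee h h1) hu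
  refine ⟨fun c hc => cls_v1_mem (mem_cl.1 hc) hu', ⟨u, mem_cl.2 (Vx.refl u)⟩,
    fun c hc c' g => mem_cl.2 ((mem_cl.1 hc).trans g), fun c hc c' hc' => ?_,
    fun g => absurd g (by decide), fun _ g => ?_⟩
  · rw [mem_cl] at hc hc'
    exact cls_lk_v1 (fun x g => cls_mem_ext (mem_cl.2 (hc.trans g))) (hc.symm.trans hc')
  · rcases g with g | g
    · exact absurd ((mem_cl.1 g.2).symm.trans (mem_cl.1 g.1)) hx
    · exact absurd ((mem_cl.1 g.2).symm.trans (mem_cl.1 g.1)) hy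

theorem cls_ne {D : Finset ι} (h0 : C.Nonempty) (h : fanQ C ⊆ D) : D.Nonempty := by
  obtain ⟨c, hc⟩ := h0
  exact ⟨c.1, h (mem_fanQ.2 ⟨c, hc, rfl⟩)⟩

theorem cls_out {D : Finset ι} (hD : D ⊆ K1) {q : ι} (h : q ∈ K.Q \ K1) : q ∈ K.Q \ D := by
  rw [mem_sdiff] at h ⊢
  exact ⟨h.1, fun g => h.2 (hD g)⟩

/-- the count for deleting the far side together with `D` -/
theorem cls_del_count (h : Setup K K1 e f) (h1 : K1 ≠ K.Q) {D : Finset ι} (hD : D ⊆ K1)
    (Z : Finset (Dart ι)) (z1 : ∀ z ∈ Z, z.1 ∈ K1 ∧ K.Inside (K.Ext K1 D true) z)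
    (z2 : ∀ z ∈ Z, ∀ z' ∈ Z, K.Fc z z' → z = z') :
    2 * ((K.fr D).card + (K.ds D).card + Z.card) + K.Wp (K.Q \ K1) ≤
      2 * ((K.fr (K.Ext K1 D true)).card + (K.ds (K.Ext K1 D true)).card +
        K.nIn (K.Ext K1 D true)) + 2 := by
  have hE := (cls_ee h h1).compl
  have c : (K.cut (K.Q \ K1)).card = 2 := by rw [hE.cut, card_pair hE.ne]
  have b1 := h.mc.valid.planar.piece_count (U := K.Q \ K1) ⟨_, hE.e_mem⟩ (by omega)
    (fun d hd => by
      rw [mem_cut] at hd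
      rcases hE.eq_of_cut hd.1 hd.2 with rfl | rfl
      · exact hE.nb
      · exact hE.swap.nb)
  have b2 := nIn_add (cls_far_ext (K := K) (K1 := K1) (D := D)) Z (fun z hz => (z1 z hz).2)
    (fun z hz g => (mem_sdiff.1 (g z (Fc.refl z))).2 (z1 z hz).1) z2
  have s : K.Ext K1 D true \ (K.Q \ K1) = D := by
    rw [cls_ext_true]
    ext q
    simp only [mem_sdiff, mem_union]
    have := @hD q
    tauto
  have b3 := card_fr_sdiff (K := K) (cls_far_ext (K := K) (K1 := K1) (D := D))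
  have b4 := card_ds_sdiff (K := K) (cls_far_ext (K := K) (K1 := K1) (D := D))
  rw [s] at b3 b4
  unfold Cx.Wp
  omega

theorem cls_del_cov {D : Finset ι} {P X0 X1 M : Finset (Dart ι)}
    (hu : ∀ c ∈ C, ∃ z ∈ P, K.Vx z c) (x1 : ∀ q ∈ K.Q \ K1, K.Cov X1 q) (x2 : ∀ c ∈ P, K.Hit X1 c)
    (a5 : ∀ q ∈ D, K.Cov X0 q ∨ (∃ c ∈ C, c.1 = q ∧ c ∉ K.dis) ∨ q ∈ (∅ : Finset ι)) :
    ∀ q ∈ K.Ext K1 D true, K.Cov ((X0 ∪ X1) ∪ M) q := by
  intro q hq
  have s1 : X1 ⊆ (X0 ∪ X1) ∪ M := subset_union_right.trans subset_union_left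
  rcases mem_union.1 hq with hq | hq
  · rcases a5 q hq with g | ⟨c, c1, rfl, c3⟩ | g
    · exact g.mono (subset_union_left.trans subset_union_left)
    · obtain ⟨z, z1, z2⟩ := hu c c1
      exact cov_of_hit (((x2 z z1).of_vx z2).mono s1) c3
    · simp at g
  · exact (x1 q hq).mono s1

/-- if `sg f` and `e` are one vertex of the piece, this vertex is all that the curve of `e` has in
the piece -/
theorem cls_short_curve (hE : K.EE K1 e f) (hx : K.V1 K1 (sg f) e) {y : Dart ι} (hy : K.Fc e y) :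
    y.1 ∈ K.Q \ K1 ∨ (K.V1 K1 e y ∧ K.a y ≠ y) := by
  have last : ∀ y, K.V1 K1 e y → K.a y ≠ y := fun y v g => by
    have : e = y := last_unique (K := K.res K1 ∅) (res_a_out _ (fun b => hE.ae_not_mem b.2))
      (by rw [res_a, g, ite_self]) v
    exact hE.e_glued (this ▸ g)
  have := Fc.ind (P := fun y => K.Fc e y ∧ (y.1 ∈ K.Q \ K1 ∨ K.V1 K1 e y))
    (fun y ⟨y1, y2⟩ => ⟨y1.trans (fc_phi y), ?_⟩) hy ⟨Fc.refl e, Or.inr (Vx.refl e)⟩
  · exact this.2.imp id (fun v => ⟨v, last y v⟩)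
  · by_cases b : (K.a y).1 ∈ K.Q \ K1
    · exact Or.inl b
    refine Or.inr ?_
    rcases y2 with g | g
    · rcases hE.compl.eq_of_cut g b with rfl | rfl
      · exact absurd y1 hE.nb
      · rw [phi_a]; exact Vx.symm hx
    · have m := cls_v1_mem g hE.e_mem
      refine Vx.trans g (res_vx_step ∅ m ?_ (last y g))
      by_contra n
      exact b (mem_sdiff.2 ⟨a_mem (hE.sub m), n⟩)

/-- both port vertices on one curve -/
theorem Setup.cls_pair (h : Setup K K1 e f) (h1 : K1 ≠ K.Q) :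
    Cls K K1 e f ((K.res K1 ∅).cl e ∪ (K.res K1 ∅).cl (sg f)) true := by
  have hE := cls_ee h h1
  have m1 : e ∈ (K.res K1 ∅).cl e ∪ (K.res K1 ∅).cl (sg f) :=
    mem_union_left _ (mem_cl.2 (Vx.refl _))
  have m2 : sg f ∈ (K.res K1 ∅).cl e ∪ (K.res K1 ∅).cl (sg f) :=
    mem_union_right _ (mem_cl.2 (Vx.refl _))
  have l : ∀ c ∈ (K.res K1 ∅).cl e ∪ (K.res K1 ∅).cl (sg f),
      K.Lk (K.Ext K1 (fanQ ((K.res K1 ∅).cl e ∪ (K.res K1 ∅).cl (sg f))) true) e c := by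
    intro c hc
    rcases mem_union.1 hc with g | g
    · exact cls_lk_v1 (fun x b => cls_mem_ext (mem_union_left _ (mem_cl.2 b))) (mem_cl.1 g)
    · exact (((lk_phi (cls_mem_ext m1) (cls_far_ext hE.compl.e_mem)).trans
        (hE.swap.compl.lk_sf_e.mono cls_far_ext)).trans
        (lk_a_sg (cls_mem_ext (c := sg f) m2) (cls_far_ext hE.swap.compl.e_mem))).trans
        (cls_lk_v1 (fun x b => cls_mem_ext (mem_union_right _ (mem_cl.2 b))) (mem_cl.1 g))
  refine ⟨fun c hc => ?_, ⟨e, m1⟩, fun c hc c' g => ?_,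
    fun c hc c' hc' => (l c hc).symm.trans (l c' hc'), fun _ => ⟨h1, Or.inl m1⟩, fun _ _ => rfl⟩
  · rcases mem_union.1 hc with g | g
    · exact cls_v1_mem (mem_cl.1 g) hE.e_mem
    · exact cls_v1_mem (mem_cl.1 g) hE.swap.e_mem
  · rcases mem_union.1 hc with b | b
    · exact mem_union_left _ (mem_cl.2 ((mem_cl.1 b).trans g))
    · exact mem_union_right _ (mem_cl.2 ((mem_cl.1 b).trans g))

/-! ### the rules -/

theorem Setup.rule_norm (h : Setup K K1 e f) {u : Dart ι} (h0 : C.Nonempty)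
    (hu : ∀ c ∈ C, K.Vx u c) : K.Rule K1 C false ∅ 4 := by
  intro D X0 Zs a1 a2 a3 a4 a5 a6 a7 a8
  refine h.mc.red (a1.trans h.sub) (cls_ne h0 a2) a3 a4 (insert u X0) ∅ (by simp)
    (fun q hq => ?_) (by simp [h.mc.mrk_empty]) ?_
  · rcases a5 q hq with g | ⟨c, c1, rfl, c3⟩ | g
    · exact g.mono (by rw [union_empty]; exact subset_insert _ _)
    · exact cov_of_hit ⟨u, by simp, hu c c1⟩ c3
    · simp at g
  · have b1 := le_nIn Zs (fun z hz => (a6 z hz).2.2) a7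
    have b2 := card_insert_le u X0
    rw [cls_ext_false] at b1
    rw [card_empty]
    omega

theorem Setup.rule_p (h : Setup K K1 e f) {u p m : Dart ι} (h0 : C.Nonempty)
    (hu : ∀ c ∈ C, K.Vx u c) (hp : p ∈ K.dis) (hm : m.1 ∈ K.Q \ K1) (hv : K.Vx m (sg p)) :
    K.Rule K1 C false {p.1} 7 := by
  intro D X0 Zs a1 a2 a3 a4 a5 a6 a7 a8
  refine h.mc.red (a1.trans h.sub) (cls_ne h0 a2) a3 a4 (insert u X0) {m}
    (fun x hx => by rw [mem_singleton.1 hx]; exact cls_out a1 hm)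
    (fun q hq => ?_) (by simp [h.mc.mrk_empty]) ?_
  · rcases a5 q hq with g | ⟨c, c1, rfl, c3⟩ | g
    · exact g.mono ((subset_insert _ _).trans subset_union_left)
    · exact cov_of_hit ⟨u, by simp, hu c c1⟩ c3
    · rw [mem_singleton.1 g]
      exact cov_of_hit (c := sg p) ⟨m, by simp, hv⟩
        (fun b => sg_ne p (h.mc.valid.dis_uniq _ b _ hp rfl))
  · have b1 := le_nIn Zs (fun z hz => (a6 z hz).2.2) a7
    have b2 := card_insert_le u X0
    rw [cls_ext_false] at b1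
    rw [card_singleton]
    omega

theorem Setup.rule_mark (h : Setup K K1 e f) {m : Dart ι} (h0 : C.Nonempty)
    (hu : ∀ c ∈ C, K.Vx m c) (hm : m.1 ∈ K.Q \ K1) : K.Rule K1 C false ∅ 3 := by
  intro D X0 Zs a1 a2 a3 a4 a5 a6 a7 a8
  refine h.mc.red (a1.trans h.sub) (cls_ne h0 a2) a3 a4 X0 {m}
    (fun x hx => by rw [mem_singleton.1 hx]; exact cls_out a1 hm)
    (fun q hq => ?_) (by simp [h.mc.mrk_empty]) ?_
  · rcases a5 q hq with g | ⟨c, c1, rfl, c3⟩ | g
    · exact g.mono subset_union_left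
    · exact cov_of_hit ⟨m, by simp, hu c c1⟩ c3
    · simp at g
  · have b1 := le_nIn Zs (fun z hz => (a6 z hz).2.2) a7
    rw [cls_ext_false] at b1
    rw [card_singleton]
    omega

theorem Setup.rule_del (h : Setup K K1 e f) (h1 : K1 ≠ K.Q) {P : Finset (Dart ι)} {w0 : ℕ}
    (hP : K.Cheap K1 P (w0 + 1)) (hu : ∀ c ∈ C, ∃ z ∈ P, K.Vx z c) :
    K.Rule K1 C true ∅ w0 := by
  intro D X0 Zs a1 _ a3 a4 a5 a6 a7 a8
  obtain ⟨X1, x0, x1, x2⟩ := hP
  refine h.mc.red (h.ext_sub a1) ⟨_, cls_far_ext (cls_ee h h1).compl.e_mem⟩ a3 a4 (X0 ∪ X1) ∅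
    (by simp) (cls_del_cov hu x1 x2 a5) (by simp [h.mc.mrk_empty]) ?_
  have b1 := cls_del_count h h1 a1 Zs (fun z hz => ⟨(a6 z hz).1, (a6 z hz).2.2⟩) a7
  have b2 := card_union_le X0 X1
  rw [card_empty]
  omega

/-- when `sg f` and `e` are one vertex of the piece and this vertex is paid for, one unit is
gained: by a mark if the vertex survives, by a completed curve otherwise -/
theorem Setup.rule_delx (h : Setup K K1 e f) (h1 : K1 ≠ K.Q) {P : Finset (Dart ι)} {w0 : ℕ}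
    (hP : K.Cheap K1 P (w0 + 2)) (hu : ∀ c ∈ C, ∃ z ∈ P, K.Vx z c) (hx : K.V1 K1 (sg f) e)
    (he : e ∈ P) : K.Rule K1 C true ∅ w0 := by
  intro D X0 Zs a1 _ a3 a4 a5 a6 a7 a8
  obtain ⟨X1, x0, x1, x2⟩ := hP
  have hE := cls_ee h h1
  have b2 := card_union_le X0 X1
  by_cases g : ∃ m, K.V1 K1 e m ∧ m.1 ∉ D
  · obtain ⟨m, m1, m2⟩ := g
    have m3 := cls_v1_mem m1 hE.e_mem
    refine h.mc.red_save (h.ext_sub a1) ⟨_, cls_far_ext hE.compl.e_mem⟩ a3 a4 (X0 ∪ X1) {m}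
      (fun x hx => ?_) (cls_del_cov hu x1 x2 a5) (by simp [h.mc.mrk_empty])
      (mem_singleton_self m) (((x2 e he).of_vx (vx_of_res m1)).mono subset_union_right) ?_
    · rw [mem_singleton.1 hx, cls_ext_true]
      simp only [mem_sdiff, mem_union, not_or]
      exact ⟨h.sub m3, m2, fun b => b.2 m3⟩
    · have b1 := cls_del_count h h1 a1 Zs (fun z hz => ⟨(a6 z hz).1, (a6 z hz).2.2⟩) a7
      rw [card_singleton]
      omega
  · push Not at g
    have nz : ∀ z ∈ Zs, ¬ K.Fc e z := fun z hz b => by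
      rcases cls_short_curve hE hx b with r | r
      · exact (mem_sdiff.1 r).2 (a6 z hz).1
      · exact r.2 (a6 z hz).2.1
    refine h.mc.red (h.ext_sub a1) ⟨_, cls_far_ext hE.compl.e_mem⟩ a3 a4 (X0 ∪ X1) ∅
      (by simp) (cls_del_cov hu x1 x2 a5) (by simp [h.mc.mrk_empty]) ?_
    have b1 := cls_del_count h h1 a1 (insert e Zs) (fun z hz => ?_) (fun z hz z' hz' b => ?_)
    · rw [card_insert_of_notMem (fun b => nz e b (Fc.refl e))] at b1
      rw [card_empty]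
      omega
    · rcases mem_insert.1 hz with rfl | hz
      · refine ⟨hE.e_mem, fun y hy => ?_⟩
        rcases cls_short_curve hE hx hy with r | r
        · exact cls_far_ext r
        · exact cls_sub_ext (g y r.1)
      · exact ⟨(a6 z hz).1, (a6 z hz).2.2⟩
    · rcases mem_insert.1 hz with r | r <;> rcases mem_insert.1 hz' with r' | r'
      · rw [r, r']
      · exact absurd (r ▸ b) (nz _ r')
      · exact absurd (r' ▸ b.symm) (nz _ r)
      · exact a7 z r z' r' b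

end Pool.Agent.Lib.MP_8d6beb_co
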