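import Pool.Agent.Lib.MP_8d6beb_co.QEuler

/-! From the absence of minimal counterexamples to the bound for all genus zero complexes. -/

namespace Pool.Agent.Lib.MP_8d6beb_co

open Finset Cx

set_option linter.unusedSectionVars false

variable {ι : Type} [Fintype ι] [DecidableEq ι]

theorem good_of_no_mc (h : ∀ K : Cx ι, ¬ MC K) (K : Cx ι) (hK : K.Valid) (hc : K.Conn) :
    K.Good := by
  induction hn : K.Q.card using Nat.strong_induction_on generalizing K with
  | _ n ih =>
    by_contra g
    exact h K ⟨hK, hc, fun L a b c => ih _ (hn ▸ c) L a b rfl, g⟩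

end Pool.Agent.Lib.MP_8d6beb_co
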