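import Mathlib

/-!
Quad complexes (slot maps).  A dart `d = (q, i)` is side `i` of the quad `q`, running from corner
`i` to corner `i + 1`; the same pair also names the corner `i` (the start of the side).
`a` glues sides (fixed points are free sides), `phi = sg ∘ a` walks along a boundary curve: over a
glued side it stays at the same vertex, over a free side it moves to the next vertex.
-/

namespace Pool.Agent.Lib.MP_8d6beb_co

open Finset

abbrev Dart (ι : Type) := ι × Fin 4

variable {ι : Type}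

/-- rotation inside a quad -/
def sg : Equiv.Perm (Dart ι) where
  toFun d := (d.1, d.2 + 1)
  invFun d := (d.1, d.2 - 1)
  left_inv d := by simp
  right_inv d := by simp

/-- colour of a corner -/
def col (d : Dart ι) : ℕ := d.2.val % 2

structure Cx (ι : Type) where
  Q : Finset ι
  a : Dart ι → Dart ι
  inv : ∀ d, a (a d) = d
  supp : ∀ d, d.1 ∉ Q → a d = d
  /-- disabled corners -/
  dis : Finset (Dart ι)
  /-- marked corners: their vertices must be picked -/
  mrk : Finset (Dart ι)

namespace Cx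

variable (K : Cx ι)

def phi : Equiv.Perm (Dart ι) := sg * Function.Involutive.toPerm K.a K.inv

/-- same boundary curve -/
def Fc (d d' : Dart ι) : Prop := K.phi.SameCycle d d'

/-- same vertex -/
def Vx : Dart ι → Dart ι → Prop := Relation.EqvGen (fun c c' => K.a c ≠ c ∧ c' = K.phi c)

/-- the vertex of the corner `c` is picked by `X` -/
def Hit (X : Finset (Dart ι)) (c : Dart ι) : Prop := ∃ x ∈ X, K.Vx x c

/-- the quad `q` has an enabled corner picked by `X` -/
def Cov (X : Finset (Dart ι)) (q : ι) : Prop := ∃ i, (q, i) ∉ K.dis ∧ K.Hit X (q, i)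

/-- joined by steps along a boundary curve that stay in `U` -/
def Lk (U : Finset ι) : Dart ι → Dart ι → Prop :=
  Relation.EqvGen (fun x y => x.1 ∈ U ∧ y.1 ∈ U ∧ y = K.phi x)

/-- the whole boundary curve through `x` lies in `U` -/
def Inside (U : Finset ι) (x : Dart ι) : Prop := ∀ y, K.Fc x y → y.1 ∈ U

/-- no boundary curve is touched by `D` in two separate runs with free sides -/
def NoMT (D : Finset ι) : Prop :=
  ∀ r r', r.1 ∈ D → r'.1 ∈ D → K.a r = r → K.a r' = r' → K.Fc r r' → K.Lk D r r'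

/-- `U` can be covered, and the corners in `S` picked, with at most `B / 8` picks -/
def Pb (U : Finset ι) (B : ℤ) (S : Finset (Dart ι)) : Prop :=
  ∃ X : Finset (Dart ι), 8 * (X.card : ℤ) ≤ B ∧ (∀ q ∈ U, K.Cov X q) ∧ ∀ c ∈ S, K.Hit X c

def Sol (X : Finset (Dart ι)) : Prop := (∀ q ∈ K.Q, K.Cov X q) ∧ ∀ m ∈ K.mrk, K.Hit X m

variable [Fintype ι] [DecidableEq ι]

/-- free sides of the quads in `U` -/
def fr (U : Finset ι) : Finset (Dart ι) := univ.filter (fun d => d.1 ∈ U ∧ K.a d = d)

/-- sides of quads of `U` glued to a quad outside `U` -/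
def cut (U : Finset ι) : Finset (Dart ι) := univ.filter (fun d => d.1 ∈ U ∧ (K.a d).1 ∉ U)

/-- sides of quads of `U` glued to a quad of `U` (twice the number of inner edges) -/
def inn (U : Finset ι) : Finset (Dart ι) :=
  univ.filter (fun d => d.1 ∈ U ∧ K.a d ≠ d ∧ (K.a d).1 ∈ U)

/-- `W + 2` is twice the potential `3 V - E + 1 + δ + 3 M` of a connected complex -/
def W : ℕ := 2 * K.Q.card + (K.fr K.Q).card + 2 * K.dis.card + 6 * K.mrk.card

/-- genus zero: a set of edges that is even at every boundary curve is an edge cut -/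
def Planar : Prop := ∀ Z : Dart ι → ZMod 2, (∀ d, Z (K.a d) = Z d) → (∀ d, K.a d = d → Z d = 0) →
  (∀ k : Dart ι → ZMod 2, (∀ d, k (K.phi d) = k d) → ∑ d, k d * Z d = 0) →
  ∃ f : ι → ZMod 2, ∀ d, Z d = f d.1 + f (K.a d).1

/-- `U` is connected through inner edges -/
def ConnOn (U : Finset ι) : Prop :=
  ∀ T ⊆ U, T.Nonempty → (∀ d, d.1 ∈ T → (K.a d).1 ∈ U → (K.a d).1 ∈ T) → T = U

def Conn : Prop := K.ConnOn K.Q

structure Valid : Prop where
  par : ∀ d, K.a d ≠ d → (K.a d).2.val % 2 ≠ d.2.val % 2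
  planar : K.Planar
  hasFree : ∀ d, ∃ d', K.Fc d d' ∧ K.a d' = d'
  dis_mem : ∀ p ∈ K.dis, p.1 ∈ K.Q
  dis_fr1 : ∀ p ∈ K.dis, K.a (sg p) = sg p
  dis_fr2 : ∀ p ∈ K.dis, K.a (sg (sg p)) = sg (sg p)
  dis_ne : ∀ p ∈ K.dis, ¬ K.Vx (sg p) (sg (sg (sg p)))
  dis_uniq : ∀ p ∈ K.dis, ∀ p' ∈ K.dis, p.1 = p'.1 → p = p'
  mrk_mem : ∀ m ∈ K.mrk, m.1 ∈ K.Q

def Good : Prop := ∃ X, K.Sol X ∧ 8 * X.card ≤ K.W + 2

open Classical in
/-- number of boundary curves met by the darts of `U` -/
noncomputable def nF (U : Finset ι) : ℕ :=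
  ((univ.filter (fun d : Dart ι => d.1 ∈ U)).image
    (fun d => univ.filter (fun d' => K.Fc d d'))).card

open Classical in
/-- number of boundary curves all of whose darts lie in `U` -/
noncomputable def nIn (U : Finset ι) : ℕ :=
  ((univ.filter (fun d : Dart ι => ∀ y, K.Fc d y → y.1 ∈ U)).image
    (fun d => univ.filter (fun d' => K.Fc d d'))).card

/-- number of glued sides of the quad `q` -/
def deg (q : ι) : ℕ := (univ.filter (fun i : Fin 4 => K.a (q, i) ≠ (q, i))).card

/-- disabled corners in `U` -/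
def ds (U : Finset ι) : Finset (Dart ι) := K.dis.filter (fun p => p.1 ∈ U)

/-- `U` has at least as many inner edges as quads -/
def Cyc (U : Finset ι) : Prop := 2 * U.card ≤ (K.inn U).card

/-- the quads that have a corner in `C` -/
def fanQ (C : Finset (Dart ι)) : Finset ι := C.image Prod.fst

/-- the sub-complex on `U` (used with `U ⊆ K.Q`) with the marks `M` -/
def res (U : Finset ι) (M : Finset (Dart ι)) : Cx ι where
  Q := U
  a d := if d.1 ∈ U ∧ (K.a d).1 ∈ U then K.a d else d
  inv d := by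
    by_cases h : d.1 ∈ U ∧ (K.a d).1 ∈ U
    · simp [h, K.inv]
    · simp [h]
  supp d h := by simp [h]
  dis := K.ds U
  mrk := M

/-- glue the two free sides `d`, `d'` -/
def glue (d d' : Dart ι) (h : K.a d = d) (h' : K.a d' = d') (hd : d.1 ∈ K.Q) (hd' : d'.1 ∈ K.Q) :
    Cx ι where
  Q := K.Q
  a x := K.a (Equiv.swap d d' x)
  inv x := by
    by_cases e : x = d
    · subst e; simp [h, h']
    by_cases e' : x = d'
    · subst e'; simp [h, h']
    have e1 : K.a x ≠ d := fun g => e (by rw [← K.inv x, g, h])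
    have e2 : K.a x ≠ d' := fun g => e' (by rw [← K.inv x, g, h'])
    rw [Equiv.swap_apply_of_ne_of_ne e e', Equiv.swap_apply_of_ne_of_ne e1 e2, K.inv]
  supp x hx := by
    have e : x ≠ d := fun g => hx (g ▸ hd)
    have e' : x ≠ d' := fun g => hx (g ▸ hd')
    rw [Equiv.swap_apply_of_ne_of_ne e e', K.supp x hx]
  dis := K.dis
  mrk := K.mrk

/-- add an isolated quad `q` together with a set of disabled corners -/
def addQ (q : ι) (P : Finset (Dart ι)) : Cx ι where
  Q := insert q K.Q
  a := K.a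
  inv := K.inv
  supp d h := K.supp d (fun g => h (mem_insert_of_mem g))
  dis := K.dis ∪ P
  mrk := K.mrk

/-- weight of the piece `U` taken on its own, without marks -/
def Wp (U : Finset ι) : ℕ :=
  2 * U.card + (K.fr U).card + (K.cut U).card + 2 * (K.ds U).card

/-- `U` is cut off by the two edges at `e` and `f`, which are not bridges -/
structure EE (U : Finset ι) (e f : Dart ι) : Prop where
  sub : U ⊆ K.Q
  cut : K.cut U = {e, f}
  ne : e ≠ f
  nb : ¬ K.Fc e (K.a e)

end Cx

/-- the claim for all connected complexes with fewer than `N` quads -/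
def IH (ι : Type) [Fintype ι] [DecidableEq ι] (N : ℕ) : Prop :=
  ∀ K : Cx ι, K.Valid → K.Conn → K.Q.card < N → K.Good

/-- a minimal counterexample -/
structure MC [Fintype ι] [DecidableEq ι] (K : Cx ι) : Prop where
  valid : K.Valid
  conn : K.Conn
  ih : IH ι K.Q.card
  bad : ¬ K.Good

end Pool.Agent.Lib.MP_8d6beb_co
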