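import Pool.Agent.Lib.MP_8d6beb_co.QEuler

/-! The contact lemma, the deletion lemma and the basic reductions. -/

namespace Pool.Agent.Lib.MP_8d6beb_co

open Finset

set_option linter.unusedSectionVars false

variable {ι : Type} [Fintype ι] [DecidableEq ι]

namespace Cx

variable {K : Cx ι}

/-- quads of `U` are in contact if they are glued or share a vertex of the ambient complex -/
def Ct (K : Cx ι) (U : Finset ι) : ι → ι → Prop :=
  Relation.EqvGen (fun q q' => q ∈ U ∧ q' ∈ U ∧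
    ∃ c c' : Dart ι, c.1 = q ∧ c'.1 = q' ∧ (c' = K.a c ∨ K.Vx c c'))

theorem del_ct_vx {U : Finset ι} {c c' : Dart ι} (h1 : c.1 ∈ U) (h2 : c'.1 ∈ U) (h : K.Vx c c') :
    K.Ct U c.1 c'.1 := Relation.EqvGen.rel _ _ ⟨h1, h2, c, c', rfl, rfl, Or.inr h⟩

/-- `A` is a union of components of `U` -/
def DelCl (K : Cx ι) (U A : Finset ι) : Prop :=
  A ⊆ U ∧ ∀ d : Dart ι, d.1 ∈ A → (K.a d).1 ∈ U → (K.a d).1 ∈ A

/-- `A` is a union of contact classes of `U` -/
def DelCc (K : Cx ι) (U A : Finset ι) : Prop :=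
  A ⊆ U ∧ ∀ c c' : Dart ι, c.1 ∈ A → c'.1 ∈ U → (c' = K.a c ∨ K.Vx c c') → c'.1 ∈ A

def DelP (K : Cx ι) (A : Finset ι) (k : ℕ) : Prop :=
  ∀ M : Finset (Dart ι), (∀ m ∈ M, m.1 ∈ A) → ∃ X : Finset (Dart ι), (∀ q ∈ A, K.Cov X q) ∧
    (∀ m ∈ M, K.Hit X m) ∧ 8 * X.card ≤ K.Wp A + 6 * M.card + 2 * k

theorem DelCc.cl {U A : Finset ι} (h : K.DelCc U A) : K.DelCl U A :=
  ⟨h.1, fun d g1 g2 => h.2 d _ g1 g2 (Or.inl rfl)⟩

theorem DelCc.iff {U A : Finset ι} (h : K.DelCc U A) {p q : ι} (e : K.Ct U p q) : p ∈ A ↔ q ∈ A := by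
  induction e with
  | rel _ _ e =>
    obtain ⟨e1, e2, c, c', rfl, rfl, e3⟩ := e
    exact ⟨fun g => h.2 c c' g e2 e3, fun g => h.2 c' c g e1
      (e3.imp (fun f => by rw [f, K.inv]) Vx.symm)⟩
  | refl => rfl
  | symm _ _ _ ih => exact ih.symm
  | trans _ _ _ _ _ i1 i2 => exact i1.trans i2

theorem del_wp {U A C : Finset ι} (hA : K.DelCl U A) (hC : K.DelCl U C) (hd : Disjoint A C) :
    K.Wp (A ∪ C) = K.Wp A + K.Wp C := by
  have dj : ∀ {S S' : Finset (Dart ι)}, (∀ d ∈ S, d.1 ∈ A) → (∀ d ∈ S', d.1 ∈ C) → Disjoint S S' :=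
    fun a b => disjoint_left.2 (fun d g1 g2 => disjoint_left.1 hd (a d g1) (b d g2))
  have a1 : K.cut (A ∪ C) = K.cut A ∪ K.cut C := by
    ext d
    have := hA.2 d
    have := hC.2 d
    have := @hA.1 (K.a d).1
    have := @hC.1 (K.a d).1
    have := @disjoint_left.1 hd d.1
    have := @disjoint_left.1 hd (K.a d).1
    simp only [mem_cut, mem_union]
    tauto
  have a2 : K.ds (A ∪ C) = K.ds A ∪ K.ds C := by
    ext d; simp only [mem_ds, mem_union]; tauto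
  unfold Wp
  rw [a1, a2, fr_union, card_union_of_disjoint hd,
    card_union_of_disjoint (dj (fun _ g => (mem_fr.1 g).1) (fun _ g => (mem_fr.1 g).1)),
    card_union_of_disjoint (dj (fun _ g => (mem_cut.1 g).1) (fun _ g => (mem_cut.1 g).1)),
    card_union_of_disjoint (dj (fun _ g => (mem_ds.1 g).2) (fun _ g => (mem_ds.1 g).2))]
  omega

theorem del_split {A C : Finset ι} (hd : Disjoint A C) {M : Finset (Dart ι)}
    (hM : ∀ m ∈ M, m.1 ∈ A ∪ C) : ∃ M1 M2 : Finset (Dart ι), (∀ m ∈ M1, m.1 ∈ A) ∧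
      (∀ m ∈ M2, m.1 ∈ C) ∧ (∀ m ∈ M, m ∈ M1 ∨ m ∈ M2) ∧ M1.card + M2.card = M.card := by
  refine ⟨M.filter (fun m => m.1 ∈ A), M.filter (fun m => m.1 ∉ A), fun m g => (mem_filter.1 g).2,
    fun m g => (mem_union.1 (hM m (mem_filter.1 g).1)).resolve_left (mem_filter.1 g).2,
    fun m g => ?_, card_filter_add_card_filter_not _⟩
  simp only [mem_filter]
  tauto

theorem del_add {U A C : Finset ι} (hA : K.DelCl U A) (hC : K.DelCl U C) (hd : Disjoint A C)
    {k l : ℕ} (h1 : K.DelP A k) (h2 : K.DelP C l) : K.DelP (A ∪ C) (k + l) := by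
  intro M hM
  obtain ⟨M1, M2, m1, m2, m3, m4⟩ := del_split hd hM
  obtain ⟨X, x1, x2, x3⟩ := h1 M1 m1
  obtain ⟨Y, y1, y2, y3⟩ := h2 M2 m2
  refine ⟨X ∪ Y, fun q g => ?_, fun m g => ?_, ?_⟩
  · exact (mem_union.1 g).elim (fun e => (x1 q e).mono subset_union_left)
      (fun e => (y1 q e).mono subset_union_right)
  · exact (m3 m g).elim (fun e => (x2 m e).mono subset_union_left)
      (fun e => (y2 m e).mono subset_union_right)
  · have := card_union_le X Y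
    rw [del_wp hA hC hd]
    omega

theorem del_merge {U A C : Finset ι} (hA : K.DelCl U A) (hC : K.DelCl U C) (hd : Disjoint A C)
    (h1 : K.DelP A 1) (h2 : K.DelP C 1) {z z' : Dart ι} (hz : z.1 ∈ A) (hz' : z'.1 ∈ C)
    (hv : K.Vx z z') : K.DelP (A ∪ C) 1 := by
  intro M hM
  obtain ⟨M1, M2, m1, m2, m3, m4⟩ := del_split hd hM
  obtain ⟨X, x1, x2, x3⟩ := h1 M1 m1
  obtain ⟨Y, y1, y2, y3⟩ := h2 M2 m2
  rw [del_wp hA hC hd]
  by_cases g : 8 * X.card + 8 * Y.card ≤ K.Wp A + K.Wp C + 6 * M.card + 2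
  · refine ⟨X ∪ Y, fun q g => ?_, fun m g => ?_, ?_⟩
    · exact (mem_union.1 g).elim (fun e => (x1 q e).mono subset_union_left)
        (fun e => (y1 q e).mono subset_union_right)
    · exact (m3 m g).elim (fun e => (x2 m e).mono subset_union_left)
        (fun e => (y2 m e).mono subset_union_right)
    · have := card_union_le X Y
      omega
  · obtain ⟨X', a1, a2, a3⟩ := h1 (insert z M1) (by simpa [hz] using m1)
    obtain ⟨Y', b1, b2, b3⟩ := h2 (insert z' M2) (by simpa [hz'] using m2)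
    obtain ⟨y, c1, c2⟩ := b2 z' (mem_insert_self _ _)
    have hit : ∀ x ∈ Y', K.Hit (X' ∪ Y'.erase y) x := by
      intro x g
      by_cases e : x = y
      · subst e
        exact ((a2 z (mem_insert_self _ _)).of_vx (hv.trans c2.symm)).mono subset_union_left
      · exact hit_of_mem (mem_union_right _ (mem_erase.2 ⟨e, g⟩))
    refine ⟨X' ∪ Y'.erase y, fun q g => ?_, fun m g => ?_, ?_⟩
    · exact (mem_union.1 g).elim (fun e => (a1 q e).mono subset_union_left)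
        (fun e => (b1 q e).of_hit hit)
    · rcases m3 m g with e | e
      · exact (a2 m (mem_insert_of_mem e)).mono subset_union_left
      · obtain ⟨x, d1, d2⟩ := b2 m (mem_insert_of_mem e)
        exact (hit x d1).of_vx d2
    · have := card_union_le X' (Y'.erase y)
      have := card_erase_add_one c1
      have := card_insert_le z M1
      have := card_insert_le z' M2
      obtain ⟨_, _⟩ := even_Wp (K := K) A
      obtain ⟨_, _⟩ := even_Wp (K := K) C
      omega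

theorem del_comp {U : Finset ι} {q : ι} (hq : q ∈ U) :
    ∃ C, q ∈ C ∧ K.DelCl U C ∧ K.ConnOn C := by
  obtain ⟨C, ⟨c1, c2⟩, hm⟩ := Set.exists_min_image {C | q ∈ C ∧ K.DelCl U C} Finset.card
    (Set.toFinite _) ⟨U, hq, Subset.refl _, fun _ _ g => g⟩
  refine ⟨C, c1, c2, fun T t1 t2 t3 => ?_⟩
  by_cases g : q ∈ T
  · exact eq_of_subset_of_card_le t1 (hm T ⟨g, t1.trans c2.1,
      fun d a b => t3 d a (c2.2 d (t1 a) b)⟩)
  · have := hm (C \ T) ⟨mem_sdiff.2 ⟨c1, g⟩, sdiff_subset.trans c2.1, fun d a b => by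
      rw [mem_sdiff] at a ⊢
      refine ⟨c2.2 d a.1 b, fun e => a.2 ?_⟩
      have := t3 _ e (by rw [K.inv]; exact a.1)
      rwa [K.inv] at this⟩
    have := card_sdiff_add_card_eq_card t1
    have := t2.card_pos
    omega

theorem del_class (hK : K.Valid) (ih : IH ι K.Q.card) {U : Finset ι} (hU : U ⊆ K.Q)
    (hlt : U.card < K.Q.card) {A : Finset ι} (hA : K.DelCc U A) {t : ι} (ht : t ∈ A) :
    ∃ B ⊆ A, t ∈ B ∧ K.DelCc U B ∧ K.DelP B 1 := by
  have comp : ∀ q ∈ U, ∃ C, q ∈ C ∧ K.DelCl U C ∧ K.DelP C 1 ∧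
      ∀ B, K.DelCl U B → C ⊆ B ∨ Disjoint B C := by
    intro q hq
    obtain ⟨C, c1, c2, c3⟩ := del_comp (K := K) hq
    refine ⟨C, c1, c2, fun M hM => ?_, fun B hB => ?_⟩
    · obtain ⟨X, x1, x2⟩ := ih _ (hK.res (c2.1.trans hU) hM) ((res_conn M).2 c3)
        ((card_le_card c2.1).trans_lt hlt)
      rw [res_W] at x2
      exact ⟨X, (sol_res x1).1, (sol_res x1).2, x2⟩
    · rcases (B ∩ C).eq_empty_or_nonempty with g | g
      · exact Or.inr (disjoint_iff_inter_eq_empty.2 g)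
      · left
        rw [← c3 _ inter_subset_right g (fun d a b =>
          mem_inter.2 ⟨hB.2 d (mem_inter.1 a).1 (c2.1 b), b⟩)]
        exact inter_subset_left
  have sub : ∀ {C : Finset ι} {q : ι}, q ∈ C → q ∈ A → (C ⊆ A ∨ Disjoint A C) → C ⊆ A :=
    fun a b c => c.resolve_right (fun e => disjoint_left.1 e b a)
  obtain ⟨C0, d1, d2, d3, d4⟩ := comp t (hA.1 ht)
  obtain ⟨B, ⟨b1, b2, b3, b4⟩, hm⟩ := Set.exists_max_image
    {B | B ⊆ A ∧ t ∈ B ∧ K.DelCl U B ∧ K.DelP B 1} Finset.card (Set.toFinite _)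
    ⟨C0, sub d1 ht (d4 A hA.cl), d1, d2, d3⟩
  refine ⟨B, b1, b2, ⟨b3.1, fun c c' g1 g2 g3 => ?_⟩, b4⟩
  rcases g3 with rfl | g3
  · exact b3.2 c g1 g2
  · obtain ⟨C, c1, c2, c3, c4⟩ := comp _ g2
    rcases c4 B b3 with e | e
    · exact e c1
    · have := hm (B ∪ C) ⟨union_subset b1 (sub c1 (hA.2 c c' (b1 g1) g2 (Or.inr g3)) (c4 A hA.cl)),
        mem_union_left _ b2, ⟨union_subset b3.1 c2.1, fun d a b => (mem_union.1 a).elim
          (fun f => mem_union_left _ (b3.2 d f b)) (fun f => mem_union_right _ (c2.2 d f b))⟩,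
        del_merge b3 c2 e b4 c3 g1 c1 g3⟩
      rw [card_union_of_disjoint e] at this
      have := card_pos.2 ⟨_, c1⟩
      omega

theorem del_ind (hK : K.Valid) (ih : IH ι K.Q.card) {U : Finset ι} (hU : U ⊆ K.Q)
    (hlt : U.card < K.Q.card) (T : Finset ι) : ∀ A, K.DelCc U A → (∀ q ∈ A, ∃ t ∈ T, K.Ct U t q) →
      K.DelP A T.card := by
  induction T using Finset.induction_on with
  | empty =>
    intro A _ h M hM
    have : ∀ q, q ∉ A := fun q g => by simpa using h q g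
    exact ⟨∅, fun q g => absurd g (this q), fun m g => absurd (hM m g) (this _), by simp⟩
  | insert t T ht ih2 =>
    intro A hA h
    rw [card_insert_of_notMem ht]
    by_cases g : t ∈ A
    · obtain ⟨B, b1, b2, b3, b4⟩ := del_class hK ih hU hlt hA g
      have c : K.DelCc U (A \ B) := ⟨sdiff_subset.trans hA.1, fun c c' g1 g2 g3 => by
        rw [mem_sdiff] at g1 ⊢
        exact ⟨hA.2 c c' g1.1 g2 g3, fun e => g1.2 (b3.2 c' c e (hA.1 g1.1)
          (g3.imp (fun f => by rw [f, K.inv]) Vx.symm))⟩⟩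
      have := del_add c.cl b3.cl sdiff_disjoint (ih2 _ c (fun q hq => by
        obtain ⟨t', a, b⟩ := h q (mem_sdiff.1 hq).1
        rcases mem_insert.1 a with rfl | a
        · exact absurd ((b3.iff b).1 b2) (mem_sdiff.1 hq).2
        · exact ⟨t', a, b⟩)) b4
      rwa [sdiff_union_of_subset b1] at this
    · intro M hM
      obtain ⟨X, x1, x2, x3⟩ := ih2 A hA (fun q hq => by
        obtain ⟨t', a, b⟩ := h q hq
        rcases mem_insert.1 a with rfl | a
        · exact absurd ((hA.iff b).2 hq) g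
        · exact ⟨t', a, b⟩) M hM
      exact ⟨X, x1, x2, by omega⟩

/-- weight of `U` after everything outside `U` has been deleted is `Wp U`; a set with at most
`T.card` contact classes obeys the bound of a complex with `T.card` components -/
theorem contact (hK : K.Valid) (ih : IH ι K.Q.card) {U : Finset ι} (hU : U ⊆ K.Q)
    (hlt : U.card < K.Q.card) (T : Finset ι) (hT : ∀ q ∈ U, ∃ t ∈ T, K.Ct U t q)
    (M : Finset (Dart ι)) (hM : ∀ m ∈ M, m.1 ∈ U) :
    ∃ X : Finset (Dart ι), (∀ q ∈ U, K.Cov X q) ∧ (∀ m ∈ M, K.Hit X m) ∧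
      8 * X.card ≤ K.Wp U + 6 * M.card + 2 * T.card := by
  exact del_ind hK ih hU hlt T U ⟨Subset.refl _, fun _ _ _ g _ => g⟩ hT M hM

/-- outside darts of one curve are in contact when `D` has no multiple touch -/
theorem NoMT.ct {D : Finset ι} (hD : K.NoMT D) {x y : Dart ι} (hx : x.1 ∈ K.Q \ D)
    (hy : y.1 ∈ K.Q \ D) (h : K.Fc x y) : K.Ct (K.Q \ D) x.1 y.1 := by
  classical
  have walk : ∀ g : Dart ι, g.1 ∈ K.Q \ D → ∀ n : ℕ,
      (∀ i < n, ¬ (((K.phi ^ i) g).1 ∈ D ∧ K.a ((K.phi ^ i) g) = (K.phi ^ i) g)) →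
      ((K.phi ^ n) g).1 ∈ K.Q ∧
        ∃ c, c.1 ∈ K.Q \ D ∧ K.Vx c ((K.phi ^ n) g) ∧ K.Ct (K.Q \ D) g.1 c.1 := by
    intro g hg n
    induction n with
    | zero => exact fun _ => ⟨(mem_sdiff.1 hg).1, g, hg, Vx.refl _, Relation.EqvGen.refl _⟩
    | succ n ih =>
      intro hn
      obtain ⟨c0, c, c1, c2, c3⟩ := ih (fun i hi => hn i (by omega))
      rw [pow_succ', Equiv.Perm.mul_apply]
      refine ⟨a_mem c0, ?_⟩
      by_cases f : K.a ((K.phi ^ n) g) = (K.phi ^ n) g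
      · have o : ((K.phi ^ n) g).1 ∈ K.Q \ D := mem_sdiff.2 ⟨c0, fun e => hn n (by omega) ⟨e, f⟩⟩
        rw [phi_free f]
        exact ⟨sg ((K.phi ^ n) g), o, Vx.refl _, c3.trans _ _ _ (del_ct_vx (c' := (K.phi ^ n) g) c1 o c2)⟩
      · exact ⟨c, c1, c2.trans (vx_phi f), c3⟩
  by_cases r : ∃ r, K.Fc x r ∧ r.1 ∈ D ∧ K.a r = r
  · obtain ⟨r, r1, r2, r3⟩ := r
    obtain ⟨p, p1, p2⟩ := exit r2 (fun e => (mem_sdiff.1 hx).2 (e x r1.symm))
    rw [mem_cut] at p1
    have xg : K.Fc x (K.phi p) := (r1.trans p2.fc).trans (fc_phi p)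
    have hg : (K.phi p).1 ∈ K.Q \ D := mem_sdiff.2 ⟨xg.mem (mem_sdiff.1 hx).1, p1.2⟩
    have key : ∀ b : Dart ι, b.1 ∈ K.Q \ D → K.Fc (K.phi p) b → K.Ct (K.Q \ D) (K.phi p).1 b.1 := by
      intro b hb e
      have ex := e.exists_pow
      have b1 := Nat.find_spec ex
      have b2 := fun m => Nat.find_min ex (m := m)
      generalize Nat.find ex = k at b1 b2
      obtain ⟨_, c, c1, c2, c3⟩ := walk _ hg k (by
        rintro i hi ⟨i1, i2⟩
        have l := (hD r _ r2 i1 r3 i2 ((r1.symm.trans xg).trans ⟨i, by rw [zpow_natCast]⟩)).symm.trans p2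
        have inv : ∀ u w, K.Lk D u w → ((∃ i < k, (K.phi ^ i) (K.phi p) = u) ↔
            ∃ i < k, (K.phi ^ i) (K.phi p) = w) := by
          intro u w l
          induction l with
          | rel u w l =>
            obtain ⟨l1, l2, rfl⟩ := l
            constructor
            · rintro ⟨j, j1, rfl⟩
              refine ⟨j + 1, lt_of_le_of_ne j1 (fun f => ?_), by rw [pow_succ', Equiv.Perm.mul_apply]⟩
              rw [← f, pow_succ', Equiv.Perm.mul_apply] at b1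
              exact (mem_sdiff.1 hb).2 (b1 ▸ l2)
            · rintro ⟨j, j1, j2⟩
              cases j with
              | zero =>
                rw [← j2] at l2
                exact absurd l2 p1.2
              | succ j =>
                rw [pow_succ', Equiv.Perm.mul_apply] at j2
                exact ⟨j, by omega, K.phi.injective j2⟩
          | refl => rfl
          | symm _ _ _ ih => exact ih.symm
          | trans _ _ _ _ _ i1 i2 => exact i1.trans i2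
        obtain ⟨j, j1, j2⟩ := (inv _ _ l).1 ⟨i, hi, rfl⟩
        refine b2 (k - (j + 1)) (by omega) ?_
        rw [← b1, show k = (k - (j + 1)) + 1 + j by omega, pow_add, Equiv.Perm.mul_apply, j2,
          pow_succ, Equiv.Perm.mul_apply]
        congr 2
        omega)
      rw [b1] at c2
      exact c3.trans _ _ _ (del_ct_vx c1 hb c2)
    exact (key x hx xg.symm).symm.trans _ _ _ (key y hy (xg.symm.trans h))
  · obtain ⟨n, rfl⟩ := h.exists_pow
    obtain ⟨_, c, c1, c2, c3⟩ := walk x hx n (fun i _ e => r ⟨_, ⟨i, by rw [zpow_natCast]⟩, e⟩)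
    exact c3.trans _ _ _ (del_ct_vx c1 hy c2)

/-- the deletion lemma -/
theorem dl (hK : K.Valid) (hc : K.Conn) (ih : IH ι K.Q.card) {D : Finset ι} (hD : D ⊆ K.Q)
    (hne : D.Nonempty) (hcon : K.ConnOn D) (hmt : K.NoMT D) (M : Finset (Dart ι))
    (hM : ∀ m ∈ M, m.1 ∈ K.Q \ D) :
    ∃ X : Finset (Dart ι), (∀ q ∈ K.Q \ D, K.Cov X q) ∧ (∀ m ∈ M, K.Hit X m) ∧
      8 * X.card + 6 * K.mrk.card + 2 * (K.fr D).card + 2 * (K.ds D).card + 2 * K.nIn D ≤
        K.W + 4 + 6 * M.card := by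
  obtain ⟨T, t1, t2, t3⟩ := exists_cut_reps (K := K) D
  have out : ∀ d ∈ K.cut D, (K.a d).1 ∈ K.Q \ D := fun d g =>
    mem_sdiff.2 ⟨a_mem (hD (mem_cut.1 g).1), (mem_cut.1 g).2⟩
  have k1 : ∀ t ∈ K.cut D, ∀ d ∈ K.cut D, (K.res D ∅).Fc t d →
      K.Ct (K.Q \ D) (K.a t).1 (K.a d).1 := by
    intro t ht d hd e
    have fin : ∀ z ∈ K.cut D, (∃ o, o.1 ∈ K.Q \ D ∧ K.Fc o z ∧ K.Ct (K.Q \ D) (K.a t).1 o.1) →
        K.Ct (K.Q \ D) (K.a t).1 (K.a z).1 := fun z hz ⟨o, o1, o2, o3⟩ =>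
      o3.trans _ _ _ (hmt.ct (y := K.phi z) o1 (out z hz) (o2.trans (fc_phi z)))
    have f : (K.res D ∅).a t = t := res_a_out _ (fun e => (mem_cut.1 ht).2 e.2)
    refine fin d hd (Fc.ind (K := K.res D ∅) (P := fun z => z.1 ∈ D ∧
      ∃ o, o.1 ∈ K.Q \ D ∧ K.Fc o z ∧ K.Ct (K.Q \ D) (K.a t).1 o.1) (fun z ⟨z1, z2⟩ => ?_)
      ((fc_free f).symm.trans e) ⟨(mem_cut.1 ht).1, K.a t, out t ht, fc_a_sg t,
        Relation.EqvGen.refl _⟩).2
    by_cases b : (K.a z).1 ∈ D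
    · obtain ⟨o, o1, o2, o3⟩ := z2
      rw [phi_apply, res_a_in _ z1 b]
      exact ⟨b, o, o1, o2.trans (fc_phi z), o3⟩
    · have hz := mem_cut.2 ⟨z1, b⟩
      rw [phi_free (res_a_out _ (fun e => b e.2))]
      exact ⟨z1, K.a z, out z hz, fc_a_sg z, fin z hz z2⟩
  have k2 : ∀ q ∈ K.Q \ D, ∃ d ∈ K.cut D, K.Ct (K.Q \ D) (K.a d).1 q := by
    classical
    have e := hc (K.Q.filter (fun q => q ∈ D ∨ ∃ d ∈ K.cut D, K.Ct (K.Q \ D) (K.a d).1 q))
      (filter_subset _ _) (hne.mono (fun q g => mem_filter.2 ⟨hD g, Or.inl g⟩)) (fun x g1 g2 => by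
        refine mem_filter.2 ⟨g2, ?_⟩
        by_cases b : (K.a x).1 ∈ D
        · exact Or.inl b
        · right
          by_cases b' : x.1 ∈ D
          · exact ⟨x, mem_cut.2 ⟨b', b⟩, Relation.EqvGen.refl _⟩
          · obtain ⟨d, d1, d2⟩ := (mem_filter.1 g1).2.resolve_left b'
            exact ⟨d, d1, d2.trans _ _ _ (Relation.EqvGen.rel _ _
              ⟨mem_sdiff.2 ⟨(mem_filter.1 g1).1, b'⟩, mem_sdiff.2 ⟨g2, b⟩, x, K.a x, rfl, rfl,
                Or.inl rfl⟩)⟩)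
    intro q hq
    rw [mem_sdiff, ← e] at hq
    exact (mem_filter.1 hq.1).2.resolve_left hq.2
  have c0 := card_sdiff_add_card_eq_card hD
  obtain ⟨X, x1, x2, x3⟩ := contact hK ih sdiff_subset (by have := hne.card_pos; omega)
    (T.image (fun t => (K.a t).1)) (fun q hq => by
      obtain ⟨d, d1, d2⟩ := k2 q hq
      obtain ⟨t, a, b⟩ := t2 d d1
      exact ⟨_, mem_image_of_mem _ a, (k1 t (t1 a) d d1 b).trans _ _ _ d2⟩) M hM
  refine ⟨X, x1, x2, ?_⟩
  have c1 : (T.image (fun t => (K.a t).1)).card ≤ T.card := card_image_le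
  have c2 := ((res_conn ∅).2 hcon).genus hne
  rw [res_Q, res_fr, card_union_of_disjoint (disjoint_left.2 (fun d g1 g2 =>
    glued_of_cut g2 (mem_fr.1 g1).2))] at c2
  have c3 := hK.W_split hD
  have c4 : K.Wp D = 2 * D.card + (K.fr D).card + (K.cut D).card + 2 * (K.ds D).card := rfl
  omega

/-- deletion with connected rest -/
theorem dl_conn (hK : K.Valid) (ih : IH ι K.Q.card) {D : Finset ι} (hD : D ⊆ K.Q)
    (hne : D.Nonempty) (hcon : K.ConnOn (K.Q \ D)) (M : Finset (Dart ι))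
    (hM : ∀ m ∈ M, m.1 ∈ K.Q \ D) :
    ∃ X : Finset (Dart ι), (∀ q ∈ K.Q \ D, K.Cov X q) ∧ (∀ m ∈ M, K.Hit X m) ∧
      8 * X.card + 6 * K.mrk.card + 2 * D.card + (K.fr D).card + 2 * (K.ds D).card ≤
        K.W + 2 + (K.cut D).card + 6 * M.card := by
  have c0 := card_sdiff_add_card_eq_card hD
  obtain ⟨X, x1, x2⟩ := ih _ (hK.res sdiff_subset hM) ((res_conn M).2 hcon)
    (by have := hne.card_pos; rw [res_Q]; omega)
  refine ⟨X, (sol_res x1).1, (sol_res x1).2, ?_⟩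
  rw [res_W] at x2
  have c3 := hK.W_split hD
  have c4 : K.Wp D = 2 * D.card + (K.fr D).card + (K.cut D).card + 2 * (K.ds D).card := rfl
  omega

end Cx

open Cx

variable {K : Cx ι}

theorem del_sol {D : Finset ι} {X0 M X Y : Finset (Dart ι)} (x1 : ∀ q ∈ K.Q \ D, K.Cov X q)
    (x2 : ∀ m ∈ M, K.Hit X m) (hcov : ∀ q ∈ D, K.Cov (X0 ∪ M) q)
    (hmk : ∀ m ∈ K.mrk, K.Hit (X0 ∪ M) m) (h0 : X0 ⊆ Y) (h1 : ∀ x ∈ X, K.Hit Y x) : K.Sol Y := by
  have hit : ∀ x ∈ X0 ∪ M, K.Hit Y x := by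
    intro x g
    rcases mem_union.1 g with e | e
    · exact hit_of_mem (h0 e)
    · obtain ⟨y, y1, y2⟩ := x2 x e
      exact (h1 y y1).of_vx y2
  refine ⟨fun q g => ?_, fun m g => ?_⟩
  · by_cases e : q ∈ D
    · exact (hcov q e).of_hit hit
    · exact (x1 q (mem_sdiff.2 ⟨g, e⟩)).of_hit h1
  · obtain ⟨y, y1, y2⟩ := hmk m g
    exact (hit y y1).of_vx y2

/-- pick `X0`, mark `M` outside `D`, delete `D` -/
theorem MC.red (h : MC K) {D : Finset ι} (hD : D ⊆ K.Q) (hne : D.Nonempty) (hcon : K.ConnOn D)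
    (hmt : K.NoMT D) (X0 M : Finset (Dart ι)) (hM : ∀ m ∈ M, m.1 ∈ K.Q \ D)
    (hcov : ∀ q ∈ D, K.Cov (X0 ∪ M) q) (hmk : ∀ m ∈ K.mrk, K.Hit (X0 ∪ M) m)
    (hnum : 4 * X0.card + 3 * M.card + 1 ≤
      3 * K.mrk.card + (K.fr D).card + (K.ds D).card + K.nIn D) : False := by
  obtain ⟨X, x1, x2, x3⟩ := dl h.valid h.conn h.ih hD hne hcon hmt M hM
  refine h.bad ⟨X0 ∪ X, del_sol x1 x2 hcov hmk subset_union_left
    (fun x g => hit_of_mem (mem_union_right _ g)), ?_⟩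
  have := card_union_le X0 X
  omega

/-- the same when one of the marks is a vertex that `X0` picks anyway -/
theorem MC.red_save (h : MC K) {D : Finset ι} (hD : D ⊆ K.Q) (hne : D.Nonempty)
    (hcon : K.ConnOn D) (hmt : K.NoMT D) (X0 M : Finset (Dart ι)) (hM : ∀ m ∈ M, m.1 ∈ K.Q \ D)
    (hcov : ∀ q ∈ D, K.Cov (X0 ∪ M) q) (hmk : ∀ m ∈ K.mrk, K.Hit (X0 ∪ M) m)
    {m : Dart ι} (hm : m ∈ M) (hm' : K.Hit X0 m)
    (hnum : 4 * X0.card + 3 * M.card + 1 ≤
      3 * K.mrk.card + (K.fr D).card + (K.ds D).card + K.nIn D + 4) : False := by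
  obtain ⟨X, x1, x2, x3⟩ := dl h.valid h.conn h.ih hD hne hcon hmt M hM
  obtain ⟨y, y1, y2⟩ := x2 m hm
  refine h.bad ⟨X0 ∪ X.erase y, del_sol x1 x2 hcov hmk subset_union_left (fun x g => ?_), ?_⟩
  · by_cases e : x = y
    · subst e
      exact (hm'.of_vx y2.symm).mono subset_union_left
    · exact hit_of_mem (mem_union_right _ (mem_erase.2 ⟨e, g⟩))
  · have := card_union_le X0 (X.erase y)
    have := card_erase_add_one y1
    omega

theorem MC.red_conn (h : MC K) {D : Finset ι} (hD : D ⊆ K.Q) (hne : D.Nonempty)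
    (hcon : K.ConnOn (K.Q \ D)) (X0 M : Finset (Dart ι)) (hM : ∀ m ∈ M, m.1 ∈ K.Q \ D)
    (hcov : ∀ q ∈ D, K.Cov (X0 ∪ M) q) (hmk : ∀ m ∈ K.mrk, K.Hit (X0 ∪ M) m)
    (hnum : 8 * X0.card + 6 * M.card + (K.cut D).card ≤
      6 * K.mrk.card + 2 * D.card + (K.fr D).card + 2 * (K.ds D).card) : False := by
  obtain ⟨X, x1, x2, x3⟩ := dl_conn h.valid h.ih hD hne hcon M hM
  refine h.bad ⟨X0 ∪ X, del_sol x1 x2 hcov hmk subset_union_left
    (fun x g => hit_of_mem (mem_union_right _ g)), ?_⟩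
  have := card_union_le X0 X
  omega

end Pool.Agent.Lib.MP_8d6beb_co
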