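import Pool.Agent.Lib.MP_8d6beb_co.QBasic

/-! The two forms of planarity and rank counts over the field with two elements. -/

namespace Pool.Agent.Lib.MP_8d6beb_co

open Finset Module

namespace Cx

variable {ι : Type} [Fintype ι] [DecidableEq ι] (K : Cx ι)

omit [DecidableEq ι] in
theorem sum_pairs (u : Dart ι → ZMod 2) (h1 : ∀ d, u (K.a d) = u d) (h2 : ∀ d, K.a d = d → u d = 0) :
    ∑ d, u d = 0 := by
  have two : ∀ x : ZMod 2, x + x = 0 := by decide
  exact sum_involution (fun d _ => K.a d) (fun d _ => by rw [h1, two])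
    (fun d _ g e => g (h2 d e)) (fun _ _ => mem_univ _) (fun d _ => K.inv d)

theorem planar_of_dual (h : ∀ Z : Dart ι → ZMod 2, (∀ d, Z (K.a d) = Z d) → (∀ d, K.a d = d → Z d = 0) →
    (∀ q, ∑ i, Z (q, i) = 0) → ∃ k : Dart ι → ZMod 2, (∀ d, k (K.phi d) = k d) ∧
      ∀ d, Z d = k d + k (K.a d)) : K.Planar := by
  intro Z h1 h2 h3
  have two : ∀ x : ZMod 2, x + x = 0 := by decide
  let D : (ι → ZMod 2) →ₗ[ZMod 2] (Dart ι → ZMod 2) :=
    LinearMap.funLeft _ _ (fun d => d.1) + LinearMap.funLeft _ _ (fun d => (K.a d).1)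
  by_contra hc
  have hn : Z ∉ LinearMap.range D := by
    rintro ⟨f, hf⟩
    exact hc ⟨f, fun d => (congrFun hf d).symm⟩
  obtain ⟨g, g1, g2⟩ := Submodule.exists_le_ker_of_notMem hn
  obtain ⟨y, hy⟩ : ∃ y : Dart ι → ZMod 2, ∀ x, g x = ∑ d, x d * y d :=
    ⟨fun d => g (fun j => if d = j then 1 else 0), fun x => by
      rw [LinearMap.pi_apply_eq_sum_univ]; simp only [smul_eq_mul]⟩
  obtain ⟨k, k1, k2⟩ := h (fun d => y d + y (K.a d)) (fun d => by rw [K.inv, add_comm])
    (fun d e => by rw [e, two]) (fun q => by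
      have e := g2 ⟨fun p => if p = q then 1 else 0, rfl⟩
      rw [LinearMap.mem_ker, hy] at e
      simp only [D, LinearMap.add_apply, Pi.add_apply, LinearMap.funLeft_apply, add_mul,
        sum_add_distrib] at e
      rw [← Equiv.sum_comp (Function.Involutive.toPerm K.a K.inv)
        (fun d => (if (K.a d).1 = q then 1 else 0) * y d)] at e
      have hs : ∀ u : Dart ι → ZMod 2, ∑ d : Dart ι, (if d.1 = q then 1 else 0) * u d =
          ∑ i, u (q, i) := fun u => by
        rw [Fintype.sum_prod_type, sum_eq_single q]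
        · simp
        · intro b _ hb; simp [hb]
        · simp
      simp only [Function.Involutive.coe_toPerm, K.inv, hs] at e
      rw [sum_add_distrib, e])
  apply g1
  have e := K.sum_pairs (fun d => Z d * y d + k d * Z d) (fun d => by
    rw [h1]
    linear_combination Z d * k2 d + two (Z d * k (K.a d)) - two (Z d * y d))
    (fun d e => by simp [h2 d e])
  rwa [sum_add_distrib, h3 k k1, add_zero, ← hy] at e

theorem rank_bound {h : ℕ}
    (k : Dart ι → Fin (h + 1))
    (H : ∀ Z : Dart ι → ZMod 2, (∀ d, Z (K.a d) = Z d) → (∀ d, K.a d = d → Z d = 0) →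
      (∀ q, ∑ i, Z (q, i) = 0) → ∃ Y : Fin (h + 1) → ZMod 2, ∀ d, Z d = Y (k d) + Y (k (K.a d)))
    {C : Type} [Fintype C] [DecidableEq C] (c : ι → C) (hc : Function.Surjective c)
    (hca : ∀ d, c (K.a d).1 = c d.1) :
    2 * Fintype.card ι + 2 * Fintype.card C ≤ (K.fr univ).card + 2 * h := by
  have two : ∀ x : ZMod 2, x + x = 0 := by decide
  let T : (Dart ι → ZMod 2) →ₗ[ZMod 2] (Dart ι → ZMod 2) :=
    LinearMap.id + LinearMap.funLeft _ _ K.a
  let B : (Dart ι → ZMod 2) →ₗ[ZMod 2] (ι → ZMod 2) :=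
    LinearMap.pi (fun q => ∑ i, LinearMap.proj (q, i))
  let S : (ι → ZMod 2) →ₗ[ZMod 2] (C → ZMod 2) :=
    LinearMap.pi (fun x => ∑ q ∈ univ.filter (fun q => c q = x), LinearMap.proj q)
  let P : (Fin h → ZMod 2) →ₗ[ZMod 2] (Dart ι → ZMod 2) :=
    LinearMap.pi (fun d => Fin.cases 0 (fun i => LinearMap.proj i) (k d))
  have hT : ∀ y d, T y d = y d + y (K.a d) := fun _ _ => rfl
  have hB : ∀ y q, B y q = ∑ i, y (q, i) := fun y q => by simp [B]
  have hS : ∀ f x, S f x = ∑ q ∈ univ.filter (fun q => c q = x), f q := fun f x => by simp [S]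
  have a1 := LinearMap.finrank_range_add_finrank_ker (B ∘ₗ T)
  have a2 := LinearMap.finrank_range_add_finrank_ker S
  have a3 : LinearMap.range S = ⊤ := by
    rw [LinearMap.range_eq_top]
    intro g
    choose r hr using hc
    refine ⟨fun q => if q = r (c q) then g (c q) else 0, funext (fun x => ?_)⟩
    rw [hS, sum_eq_single (r x)]
    · simp [hr]
    · intro q hq hne
      rw [(mem_filter.1 hq).2, if_neg hne]
    · intro g; exact absurd (by simp [hr]) g
  have a4 : LinearMap.range (B ∘ₗ T) ≤ LinearMap.ker S := by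
    rintro _ ⟨y, rfl⟩
    rw [LinearMap.mem_ker]
    funext x
    have e := K.sum_pairs (fun d => if c d.1 = x then T y d else 0)
      (fun d => by simp only [hca, hT, K.inv, add_comm]) (fun d e => by simp [hT, e, two])
    rw [Fintype.sum_prod_type] at e
    rw [hS, sum_filter, Pi.zero_apply]
    refine Eq.trans (sum_congr rfl (fun q _ => ?_)) e
    simp only [LinearMap.comp_apply, hB]
    split_ifs <;> simp
  have a5 : LinearMap.ker (B ∘ₗ T) ≤ LinearMap.ker T ⊔ LinearMap.range P := by
    intro y hy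
    obtain ⟨Y, hY⟩ := H (T y) (fun d => by rw [hT, hT, K.inv, add_comm])
      (fun d e => by rw [hT, e, two]) (fun q => by rw [← hB]; exact congrFun hy q)
    have hP : ∀ d, P (fun i => Y i.succ + Y 0) d = Y (k d) + Y 0 := by
      intro d
      simp only [P, LinearMap.pi_apply]
      induction k d using Fin.cases with
      | zero => simp [two]
      | succ i => simp
    refine Submodule.mem_sup.2 ⟨y - P (fun i => Y i.succ + Y 0), ?_, _, ⟨_, rfl⟩, sub_add_cancel _ _⟩
    rw [LinearMap.mem_ker, map_sub]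
    funext d
    rw [Pi.sub_apply, hY, hT, hP, hP, Pi.zero_apply]
    linear_combination - two (Y 0)
  let n := Fintype.equivFin (Dart ι)
  let R := univ.filter (fun d : Dart ι => K.a d = d ∨ n d < n (K.a d))
  have a6 : finrank (ZMod 2) (LinearMap.ker T) ≤ R.card := by
    have := LinearMap.finrank_le_finrank_of_injective
      (f := (LinearMap.funLeft (ZMod 2) (ZMod 2) (fun r : R => r.1)) ∘ₗ (LinearMap.ker T).subtype) (by
        rw [injective_iff_map_eq_zero]
        rintro ⟨y, hy⟩ e
        have e1 : ∀ d ∈ R, y d = 0 := fun d hd => congrFun e ⟨d, hd⟩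
        ext d
        by_cases g : d ∈ R
        · exact e1 d g
        · have g1 : K.a d ≠ d ∧ n (K.a d) ≤ n d := by simpa [R] using g
          have g2 := e1 (K.a d) (mem_filter.2 ⟨mem_univ _, Or.inr (by
            rw [K.inv]; exact lt_of_le_of_ne g1.2 (fun e => g1.1 (n.injective e)))⟩)
          have g3 := congrFun (LinearMap.mem_ker.1 hy) d
          rw [hT, g2, add_zero] at g3
          exact g3)
    simpa using this
  have a7 : 2 * R.card ≤ 4 * Fintype.card ι + (K.fr univ).card := by
    have b1 : (R \ K.fr univ).card ≤ (univ \ R).card := by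
      apply card_le_card_of_injOn K.a
      · intro d hd
        have g : (K.a d = d ∨ n d < n (K.a d)) ∧ K.a d ≠ d := by simpa [R, fr] using hd
        have g3 : K.a (K.a d) ≠ K.a d := fun e => g.2 (by rw [← e, K.inv])
        have g4 := g.1.resolve_left g.2
        simp only [R, coe_sdiff, coe_univ, coe_filter, mem_univ, true_and, Set.mem_diff,
          Set.mem_univ, Set.mem_setOf_eq, not_or]
        exact ⟨g3, by rw [K.inv]; exact not_lt.2 g4.le⟩
      · exact (Function.Involutive.injective K.inv).injOn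
    have b2 := card_sdiff_add_card_eq_card (subset_univ R)
    have b3 := le_card_sdiff (K.fr univ) R
    rw [card_univ, Fintype.card_prod, Fintype.card_fin] at b2
    omega
  have a8 := Submodule.finrank_mono a4
  have a9 := (Submodule.finrank_mono a5).trans (Submodule.finrank_add_le_finrank_add_finrank _ _)
  have a10 := LinearMap.finrank_range_le P
  rw [a3, finrank_top] at a2
  simp only [finrank_fintype_fun_eq_card, Fintype.card_prod, Fintype.card_fin] at a1 a2 a10
  omega

/-- every cycle of the dual graph is the coboundary of a function on the boundary curves -/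
def Dual : Prop := ∀ Z : Dart ι → ZMod 2, (∀ d, Z (K.a d) = Z d) → (∀ d, K.a d = d → Z d = 0) →
    (∀ q, ∑ i, Z (q, i) = 0) → ∃ k : Dart ι → ZMod 2, (∀ d, k (K.phi d) = k d) ∧
      ∀ d, Z d = k d + k (K.a d)

theorem dual_of_planar (h : K.Planar) : K.Dual := by
  intro Z h1 h2 h3
  have two : ∀ x : ZMod 2, x + x = 0 := by decide
  let S : Submodule (ZMod 2) (Dart ι → ZMod 2) :=
    { carrier := {k | ∀ d, k (K.phi d) = k d}
      add_mem' := fun ha hb d => by simp only [Pi.add_apply, ha d, hb d]
      zero_mem' := fun _ => rfl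
      smul_mem' := fun c x hx d => by simp only [Pi.smul_apply, hx d] }
  let T : (Dart ι → ZMod 2) →ₗ[ZMod 2] (Dart ι → ZMod 2) :=
    LinearMap.id + LinearMap.funLeft _ _ K.a
  by_contra hc
  have hn : Z ∉ S.map T := by
    rintro ⟨k, k1, k2⟩
    exact hc ⟨k, k1, fun d => (congrFun k2 d).symm⟩
  obtain ⟨g, g1, g2⟩ := Submodule.exists_le_ker_of_notMem hn
  obtain ⟨y, hy⟩ : ∃ y : Dart ι → ZMod 2, ∀ x, g x = ∑ d, x d * y d :=
    ⟨fun d => g (fun j => if d = j then 1 else 0), fun x => by
      rw [LinearMap.pi_apply_eq_sum_univ]; simp only [smul_eq_mul]⟩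
  obtain ⟨f, hf⟩ := h (fun d => y d + y (K.a d)) (fun d => by rw [K.inv, add_comm])
    (fun d e => by rw [e, two]) (fun k hk => by
      have e := g2 ⟨k, hk, rfl⟩
      rw [LinearMap.mem_ker, hy] at e
      simp only [T, LinearMap.add_apply, Pi.add_apply, LinearMap.funLeft_apply, add_mul,
        sum_add_distrib, LinearMap.id_apply] at e
      rw [← Equiv.sum_comp (Function.Involutive.toPerm K.a K.inv)
        (fun d => k (K.a d) * y d)] at e
      simp only [Function.Involutive.coe_toPerm, K.inv] at e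
      simp only [mul_add, sum_add_distrib, e])
  apply g1
  have e := K.sum_pairs (fun d => Z d * y d + f d.1 * Z d) (fun d => by
    rw [h1]
    linear_combination Z d * hf d + two (Z d * f (K.a d).1) - two (Z d * y d))
    (fun d e => by simp [h2 d e])
  have e2 : ∑ d : Dart ι, f d.1 * Z d = 0 := by
    rw [Fintype.sum_prod_type]
    exact sum_eq_zero (fun q _ => by simp only; rw [← mul_sum, h3, mul_zero])
  rwa [sum_add_distrib, e2, add_zero, ← hy] at e

theorem planar_iff_dual : K.Planar ↔ K.Dual := ⟨K.dual_of_planar, K.planar_of_dual⟩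

/-- ungluing sides keeps genus zero -/
theorem planar_of_sub {K L : Cx ι} (h : K.Planar) (hs : ∀ d, L.a d = d ∨ L.a d = K.a d) :
    L.Planar := by
  have two : ∀ x : ZMod 2, x + x = 0 := by decide
  refine L.planar_of_dual (fun Z h1 h2 h3 => ?_)
  obtain ⟨k, k1, k2⟩ := K.dual_of_planar h Z (fun d => by
    rcases hs d with g | g
    · rcases hs (K.a d) with f | f
      · rw [h2 d g, h2 _ f]
      · rw [← h1, f, K.inv]
    · rw [← g, h1]) (fun d e => h2 d ((hs d).elim id (fun g => g.trans e))) h3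
  refine ⟨k, fun d => ?_, fun d => ?_⟩
  · rcases hs d with g | g
    · have a := k2 d
      have b := k1 (K.a d)
      rw [phi_apply, K.inv] at b
      rw [h2 d g] at a
      rw [phi_apply, g, b]
      linear_combination - a - two (k d)
    · rw [phi_apply, g, ← phi_apply, k1]
  · rcases hs d with g | g
    · rw [g, two, h2 d g]
    · rw [g, k2]

/-- Euler inequality -/
theorem dual_euler_le (hp : K.Planar)
    (hne : K.Q.Nonempty) : 2 * K.Q.card + 4 ≤ (K.fr K.Q).card + 2 * K.nF K.Q := by
  classical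
  obtain ⟨q0, h0⟩ := hne
  let O := (univ.filter (fun d : Dart ι => d.1 ∈ K.Q)).image
    (fun d => univ.filter (fun d' => K.Fc d d'))
  have hO : K.nF K.Q = O.card := by
    unfold nF
    congr
  have m : ∀ d : Dart ι, d.1 ∈ K.Q → univ.filter (fun d' => K.Fc d d') ∈ O := fun d h =>
    mem_image_of_mem _ (mem_filter.2 ⟨mem_univ _, h⟩)
  obtain ⟨h, hh⟩ : ∃ h, O.card = h + 1 :=
    Nat.exists_eq_succ_of_ne_zero (card_ne_zero_of_mem (m (q0, 0) h0))
  let e : O ≃ Fin (h + 1) := O.equivFinOfCardEq hh
  have rb := K.rank_bound (h := h)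
    (fun d => if g : d.1 ∈ K.Q then e ⟨_, m d g⟩ else 0) (fun Z z1 z2 z3 => by
      obtain ⟨k, k1, k2⟩ := K.dual_of_planar hp Z z1 z2 z3
      have inv : ∀ d d', K.Fc d d' → k d' = k d := by
        intro d d' g
        obtain ⟨n, rfl⟩ := g.exists_nat_pow_eq
        induction n with
        | zero => rfl
        | succ n ih =>
          rw [pow_succ', Equiv.Perm.mul_apply, k1]
          exact ih ⟨n, by rw [zpow_natCast]⟩
      have ex : ∀ x : O, ∃ c, ∀ d ∈ x.1, k d = c := by
        rintro ⟨x, hx⟩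
        obtain ⟨d, _, rfl⟩ := mem_image.1 hx
        exact ⟨k d, fun d' g => inv d d' (mem_filter.1 g).2⟩
      choose Y hY using ex
      refine ⟨fun i => Y (e.symm i), fun d => ?_⟩
      by_cases g : d.1 ∈ K.Q
      · have g' := a_mem g
        rw [dif_pos g, dif_pos g']
        simp only [Equiv.symm_apply_apply]
        rw [k2,
          hY ⟨_, m d g⟩ d (mem_filter.2 ⟨mem_univ _, Equiv.Perm.SameCycle.refl _ _⟩),
          hY ⟨_, m _ g'⟩ (K.a d) (mem_filter.2 ⟨mem_univ _, Equiv.Perm.SameCycle.refl _ _⟩)]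
      · rw [K.supp d g, z2 d (K.supp d g)]
        exact (CharTwo.add_self_eq_zero _).symm)
    (C := Option {q // q ∉ K.Q}) (fun q => if g : q ∈ K.Q then none else some ⟨q, g⟩)
    (by
      rintro (_ | ⟨q, g⟩)
      · exact ⟨q0, dif_pos h0⟩
      · exact ⟨q, dif_neg g⟩)
    (fun d => by
      by_cases g : d.1 ∈ K.Q
      · rw [dif_pos g, dif_pos (a_mem g)]
      · simp only [K.supp d g])
  have c1 : Fintype.card {q // q ∉ K.Q} + K.Q.card = Fintype.card ι := by
    rw [Fintype.card_subtype_compl, Fintype.card_coe]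
    exact Nat.sub_add_cancel (card_le_univ _)
  have c2 : (K.fr univ).card ≤ (K.fr K.Q).card + (K.Qᶜ ×ˢ (univ : Finset (Fin 4))).card := by
    refine (card_le_card (fun d g => ?_)).trans (card_union_le _ _)
    by_cases f : d.1 ∈ K.Q
    · exact mem_union_left _ (mem_filter.2 ⟨mem_univ _, f, (mem_filter.1 g).2.2⟩)
    · exact mem_union_right _ (mem_product.2 ⟨mem_compl.2 f, mem_univ _⟩)
  rw [card_product, card_compl, card_univ, Fintype.card_fin] at c2
  rw [Fintype.card_option] at rb
  omega

end Cx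

end Pool.Agent.Lib.MP_8d6beb_co
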