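import Pool.Agent.Lib.MP_8d6beb_co.QTest

/-! Early reductions in a minimal counterexample: bridges, marks, leaves. -/

namespace Pool.Agent.Lib.MP_8d6beb_co

open Finset Cx

set_option linter.unusedSectionVars false

variable {ι : Type} [Fintype ι] [DecidableEq ι] {K : Cx ι}

theorem early_conn (h : K.Conn) {U : Finset ι} (hU : U ⊆ K.Q) {d : Dart ι}
    (hd : K.cut U = {d}) : K.ConnOn U := by
  intro T hT hne hcl
  have h0 : d.1 ∈ U ∧ (K.a d).1 ∉ U := mem_cut.1 (hd ▸ mem_singleton_self d)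
  have hq : ∀ V ⊆ U, V ≠ K.Q := fun V hV e => h0.2 (hV (e ▸ a_mem (hU h0.1)))
  have e : ∀ x : Dart ι, x.1 ∈ U → (K.a x).1 ∉ U → x = d := fun x h1 h2 =>
    mem_singleton.1 (hd ▸ mem_cut.2 ⟨h1, h2⟩)
  by_contra hne'
  obtain ⟨x, hx⟩ := h.cut_nonempty (hT.trans hU) hne (hq T hT)
  obtain ⟨y, hy⟩ := h.cut_nonempty (U := U \ T) (sdiff_subset.trans hU)
    (sdiff_nonempty.2 fun g => hne' (hT.antisymm g)) (hq _ sdiff_subset)
  rw [mem_cut] at hx hy
  simp only [mem_sdiff, not_and, not_not] at hy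
  have e1 := e x (hT hx.1) fun g => hx.2 (hcl x hx.1 g)
  have e2 := e y hy.1.1 fun g => hy.1.2 (by
    have := hcl (K.a y) (hy.2 g)
    rw [K.inv] at this
    exact this hy.1.1)
  exact hy.1.2 (e2 ▸ e1 ▸ hx.1)

theorem early_cut_compl {U : Finset ι} (hU : U ⊆ K.Q) {d : Dart ι} (hd : K.cut U = {d}) :
    K.cut (K.Q \ U) = {K.a d} := by rw [cut_compl hU, hd, image_singleton]

theorem early_split (h : K.Valid) {U : Finset ι} (hU : U ⊆ K.Q) {d : Dart ι}
    (hd : K.cut U = {d}) : (K.Wp U + 6 * (K.mrk.filter fun m => m.1 ∈ U).card + 2 : ℤ) +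
      (K.Wp (K.Q \ U) + 6 * (K.mrk.filter fun m => m.1 ∈ K.Q \ U).card + 2) = K.W + 6 ∧
      K.mrk ⊆ (K.mrk.filter fun m => m.1 ∈ U) ∪ K.mrk.filter fun m => m.1 ∈ K.Q \ U := by
  have h1 := h.W_split hU
  have h2 := card_filter_add_card_filter_not (s := K.mrk) fun m => m.1 ∈ U
  have e : (K.mrk.filter fun m => m.1 ∈ K.Q \ U) = K.mrk.filter fun m => ¬ m.1 ∈ U :=
    filter_congr fun m hm => by simp [h.mrk_mem m hm]
  rw [hd, card_singleton] at h1
  rw [e, filter_union_filter_not_eq]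
  exact ⟨by omega, subset_rfl⟩

theorem early_side (h : MC K) {U : Finset ι} (hU : U ⊆ K.Q) {d : Dart ι} (hd : K.cut U = {d})
    (h1 : 2 ≤ U.card) (h2 : 1 ≤ (K.Q \ U).card) {k : ℤ}
    (hk : (K.Wp U + 6 * (K.mrk.filter fun m => m.1 ∈ U).card + 2 : ℤ) = 8 * k) : False := by
  obtain ⟨e, hm⟩ := early_split h.valid hU hd
  have hc := card_sdiff_add_card_eq_card hU
  have hd' := early_cut_compl hU hd
  have c1 := early_conn h.conn hU hd
  have h0 : d ∈ K.cut U := hd ▸ mem_singleton_self d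
  have hg := glued_of_cut h0
  set M1 := K.mrk.filter fun m => m.1 ∈ U
  set M2 := K.mrk.filter fun m => m.1 ∈ K.Q \ U
  have m1 : ∀ c ∈ M1, c.1 ∈ U := fun c hc => (mem_filter.1 hc).2
  have key : ∀ x z : Dart ι, x.1 ∈ U → K.Vx x z → K.Pb (K.Q \ U)
      (K.Wp (K.Q \ U) + 6 * M2.card + 6) (insert z M2) → False := fun x z hx hv hp => by
    have p1 := t_mark h.valid h.ih hU c1 (by omega) (insert x M1) (by
      simpa only [mem_insert, forall_eq_or_imp] using ⟨hx, m1⟩)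
    have := card_insert_le x M1
    have p2 : K.Pb U (8 * k) (insert z M1) := (p1.round (by omega)).mono le_rfl (by
      simp only [mem_insert, forall_eq_or_imp]
      exact ⟨⟨x, Or.inl rfl, hv⟩, fun c hc => ⟨c, Or.inr hc, Vx.refl c⟩⟩)
    exact h.bad (good_of_pb p2 hp {z} (by simp) (by simp) (by simp)
      (hm.trans (union_subset_union (subset_insert _ _) (subset_insert _ _)))
      (by rw [card_singleton]; omega))
  rcases t_pend h.valid h.ih sdiff_subset (early_conn h.conn sdiff_subset hd') (by omega)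
    (hd' ▸ mem_singleton_self _) M2 (fun c hc => (mem_filter.1 hc).2) with p | p | p
  · exact h.bad (good_of_pb (t_mark h.valid h.ih hU c1 (by omega) M1 m1) p ∅ (by simp) (by simp)
      (by simp) hm (by rw [card_empty]; omega))
  · exact key (sg d) _ (mem_cut.1 h0).1 (vx_a_sg hg).symm p
  · exact key d _ (mem_cut.1 h0).1 (vx_sg_a hg) p

/-- one side of a bridge is a single quad -/
theorem MC.bridge_side (h : MC K) {U : Finset ι} (hU : U ⊆ K.Q) {d : Dart ι}
    (hd : K.cut U = {d}) : U.card = 1 ∨ (K.Q \ U).card = 1 := by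
  have hd' := early_cut_compl hU hd
  have n1 := card_pos.2 ⟨_, (mem_cut.1 (hd ▸ mem_singleton_self d : d ∈ K.cut U)).1⟩
  have n2 := card_pos.2 ⟨_, (mem_cut.1 (hd' ▸ mem_singleton_self _ : K.a d ∈ K.cut (K.Q \ U))).1⟩
  by_contra hn
  obtain ⟨e, hm⟩ := early_split h.valid hU hd
  have hc := card_sdiff_add_card_eq_card hU
  obtain ⟨w1, e1⟩ := even_Wp (K := K) U
  obtain ⟨w2, e2⟩ := even_Wp (K := K) (K.Q \ U)
  have s1 := fun k => early_side h hU hd (by omega) (by omega) (k := k)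
  have s2 := fun k => early_side h sdiff_subset hd' (by omega)
    (by rw [Finset.sdiff_sdiff_eq_self hU]; omega) (k := k)
  have p1 := t_mark h.valid h.ih hU (early_conn h.conn hU hd) (by omega)
    (K.mrk.filter fun m => m.1 ∈ U) fun c hc => (mem_filter.1 hc).2
  have p2 := t_mark h.valid h.ih sdiff_subset (early_conn h.conn sdiff_subset hd') (by omega)
    (K.mrk.filter fun m => m.1 ∈ K.Q \ U) fun c hc => (mem_filter.1 hc).2
  generalize hb1 : (K.Wp U + 6 * (K.mrk.filter fun m => m.1 ∈ U).card + 2 : ℤ) = b1 at *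
  generalize hb2 : (K.Wp (K.Q \ U) + 6 * (K.mrk.filter fun m => m.1 ∈ K.Q \ U).card + 2 : ℤ) = b2
    at *
  have t1 : b1 ≠ 8 * (b1 / 8) := s1 _
  have t2 : b2 ≠ 8 * (b2 / 8) := s2 _
  exact h.bad (good_of_pb (p1.round (k := b1 / 8) (by omega)) (p2.round (k := b2 / 8) (by omega))
    ∅ (by simp) (by simp) (by simp) hm (by rw [card_empty]; omega))

theorem early_enabled (h : K.Valid) (c : Dart ι) : c ∉ K.dis ∨ sg c ∉ K.dis := by
  by_contra g
  rw [not_or, not_not, not_not] at g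
  exact sg_ne c (h.dis_uniq _ g.2 _ g.1 rfl)

theorem MC.deg_pos (h : MC K) {q : ι} (hq : q ∈ K.Q) : 1 ≤ K.deg q := by
  by_contra h0
  have h1 := deg_add_fr (K := K) q
  have fre : ∀ x : Dart ι, x.1 = q → K.a x = x := fun x hx => by
    have := deg_eq (K := K) x
    rw [hx] at this
    by_contra g
    rw [if_neg g] at this
    omega
  have hQ : {q} = K.Q := h.conn _ (singleton_subset_iff.2 hq) (singleton_nonempty q)
    fun x hx _ => by rwa [fre x (mem_singleton.1 hx)]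
  have hW : K.W = 6 + 2 * K.dis.card + 6 * K.mrk.card := by
    rw [Cx.W, ← hQ, card_singleton]; omega
  have hm : ∀ m ∈ K.mrk, m.1 = q := fun m hm =>
    mem_singleton.1 (hQ ▸ h.valid.mrk_mem m hm)
  have fin : ∀ X : Finset (Dart ι), K.mrk ⊆ X → ∀ c ∈ X, c.1 = q → c ∉ K.dis →
      8 * X.card ≤ K.W + 2 → False := fun X h2 c h3 h4 h5 h6 =>
    h.bad ⟨X, ⟨fun q' hq' => by
      rw [← hQ, mem_singleton] at hq'
      exact hq' ▸ h4 ▸ cov_of_hit (hit_of_mem h3) h5, fun m hm => hit_of_mem (h2 hm)⟩, h6⟩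
  by_cases h2 : K.mrk ⊆ K.dis
  · have := card_le_card h2
    rcases early_enabled h.valid (q, 0) with g | g
    · exact fin _ (subset_insert _ _) _ (mem_insert_self _ _) rfl g
        (by have := card_insert_le (q, (0 : Fin 4)) K.mrk; omega)
    · exact fin _ (subset_insert _ _) _ (mem_insert_self _ _) rfl g
        (by have := card_insert_le (sg (q, (0 : Fin 4))) K.mrk; omega)
  · obtain ⟨m, h3, h4⟩ := not_subset.1 h2
    have := card_le_card (show K.mrk ⊆ K.fr {q} from fun m h5 =>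
      mem_fr.2 ⟨mem_singleton.2 (hm m h5), fre m (hm m h5)⟩)
    exact fin _ subset_rfl m h3 (hm m h3) h4 (by omega)

theorem early_deg_cut (h : K.Valid) {U : Finset ι} {d : Dart ι} (hd : K.cut U = {d})
    (h1 : U.card = 1) : K.deg d.1 = 1 := by
  obtain ⟨q, rfl⟩ := card_eq_one.1 h1
  have h2 := sum_deg (K := K) {q}
  have h3 : K.inn {q} = ∅ := eq_empty_of_forall_notMem fun x hx => by
    simp only [mem_inn, mem_singleton] at hx
    exact h.a_fst_ne hx.2.1 (hx.2.2.trans hx.1.symm)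
  rw [sum_singleton, h3, hd] at h2
  rw [mem_singleton.1 (mem_cut.1 (hd ▸ mem_singleton_self d : d ∈ K.cut {q})).1, h2]
  simp

theorem MC.bridge (h : MC K) {d : Dart ι} (h1 : K.a d ≠ d) (h2 : K.Fc d (K.a d)) :
    K.deg d.1 = 1 ∨ K.deg (K.a d).1 = 1 := by
  obtain ⟨U, hU, hd⟩ := h.valid.planar.bridge_cut h1 h2
  exact (h.bridge_side hU hd).imp (early_deg_cut h.valid hd)
    (early_deg_cut h.valid (early_cut_compl hU hd))

theorem early_vx_pred {c : Dart ι} (h : K.a (sg (sg (sg c))) ≠ sg (sg (sg c))) :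
    K.Vx (K.a (sg (sg (sg c)))) c := by simpa using vx_a_sg h

theorem early_out (h : K.Valid) {x : Dart ι} (hx : K.a x ≠ x) : (K.a x).1 ∈ K.Q \ {x.1} :=
  mem_sdiff.2 ⟨mem_of_glued (a_glued hx), fun g => h.a_fst_ne hx (mem_singleton.1 g)⟩

/-- marks are moved off the quad `q`; the marked singletons of `q` are picked -/
theorem early_move (h : K.Valid) (q : ι) : ∃ X0 M : Finset (Dart ι),
    (∀ m ∈ M, m.1 ∈ K.Q \ {q}) ∧ (∀ m ∈ K.mrk, K.Hit (X0 ∪ M) m) ∧
    (∀ x ∈ X0, x ∈ K.mrk ∧ x.1 = q ∧ K.a x = x ∧ K.a (sg (sg (sg x))) = sg (sg (sg x))) ∧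
    X0.card + M.card ≤ K.mrk.card := by
  classical
  have : ∀ m ∈ K.mrk, ¬ (m.1 = q ∧ K.a m = m ∧ K.a (sg (sg (sg m))) = sg (sg (sg m))) →
      ∃ z : Dart ι, z.1 ∈ K.Q \ {q} ∧ K.Vx z m := fun m hm hn => by
    by_cases h1 : m.1 = q
    · subst h1
      by_cases h2 : K.a m = m
      · have h3 : _ ≠ _ := fun g => hn ⟨rfl, h2, g⟩
        exact ⟨_, (early_out h h3 :), early_vx_pred h3⟩
      · exact ⟨sg (K.a m), early_out h h2, (vx_sg_a h2).symm⟩
    · exact ⟨m, mem_sdiff.2 ⟨h.mrk_mem m hm, by simpa using h1⟩, Vx.refl m⟩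
  choose! g g1 g2 using this
  refine ⟨K.mrk.filter fun m => m.1 = q ∧ K.a m = m ∧ K.a (sg (sg (sg m))) = sg (sg (sg m)),
    (K.mrk.filter fun m => ¬ (m.1 = q ∧ K.a m = m ∧
      K.a (sg (sg (sg m))) = sg (sg (sg m)))).image g, fun z hz => ?_, fun m hm => ?_,
    fun x hx => mem_filter.1 hx, (add_le_add le_rfl card_image_le).trans
      (card_filter_add_card_filter_not _).le⟩
  · obtain ⟨m, hm, rfl⟩ := mem_image.1 hz
    exact g1 m (mem_filter.1 hm).1 (mem_filter.1 hm).2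
  · by_cases hn : m.1 = q ∧ K.a m = m ∧ K.a (sg (sg (sg m))) = sg (sg (sg m))
    · exact hit_of_mem (mem_union_left _ (mem_filter.2 ⟨hm, hn⟩))
    · exact ⟨g m, mem_union_right _ (mem_image_of_mem _ (mem_filter.2 ⟨hm, hn⟩)), g2 m hm hn⟩

theorem early_del1 (h : MC K) {r c m : Dart ι} (hr : K.a r = r) (hc : c.1 = r.1)
    (hmt : K.NoMT {r.1}) (hd : c ∉ K.dis) (hm : m ∈ K.mrk) (hv : K.Vx m c) : False := by
  obtain ⟨X0, M, h1, h2, h3, h4⟩ := early_move h.valid r.1
  have hq : r.1 ∈ K.Q := hc ▸ hv.mem (h.valid.mrk_mem m hm)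
  obtain ⟨r', a1, a2, a3⟩ : ∃ r' : Dart ι, r'.1 = r.1 ∧ K.a r' = r' ∧
      K.a (sg (sg (sg r'))) ≠ sg (sg (sg r')) := by
    by_contra! g
    have b3 := g r rfl hr
    have b2 := g (sg (sg (sg r))) rfl b3
    rw [sg4] at b2
    have b1 := g (sg (sg r)) rfl b2
    rw [sg4] at b1
    have := h.deg_pos hq
    rw [deg_eq r, if_pos hr, if_pos b1, if_pos b2, if_pos b3] at this
    omega
  have h5 : insert r' X0 ⊆ K.fr {r.1} := insert_subset (mem_fr.2 ⟨mem_singleton.2 a1, a2⟩)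
    fun x hx => mem_fr.2 ⟨mem_singleton.2 (h3 x hx).2.1, (h3 x hx).2.2.1⟩
  have h6 := card_le_card h5
  rw [card_insert_of_notMem fun g => a3 (h3 _ g).2.2.2] at h6
  exact h.red (singleton_subset_iff.2 hq) (singleton_nonempty _) (connOn_singleton _) hmt X0 M h1
    (fun q hq => mem_singleton.1 hq ▸ hc ▸ cov_of_hit ((h2 m hm).of_vx hv) hd) h2 (by omega)

theorem early_noMT {q : ι} (h : ∀ r : Dart ι, r.1 = q → K.a r = r → K.a (sg (sg r)) = sg (sg r) →
    K.a (sg r) ≠ sg r → K.a (sg (sg (sg r))) ≠ sg (sg (sg r)) → ¬ K.Fc r (sg (sg r))) :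
    K.NoMT {q} := fun r r' h1 h2 h3 h4 h5 => by
  have l : ∀ x : Dart ι, x.1 ∈ ({q} : Finset ι) → K.a x = x → K.Lk {q} x (sg x) :=
    fun x => lk_free
  rcases same_quad ((mem_singleton.1 h2).trans (mem_singleton.1 h1).symm) with rfl | rfl | rfl | rfl
  · exact Lk.refl _ _
  · exact l _ h1 h3
  · by_cases g : K.a (sg r) = sg r
    · exact (l _ h1 h3).trans (l _ h1 g)
    by_cases g' : K.a (sg (sg (sg r))) = sg (sg (sg r))
    · simpa using ((l _ h2 h4).trans (l _ h2 g')).symm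
    · exact absurd h5 (h r (mem_singleton.1 h1) h3 h4 g g')
  · simpa using (l _ h2 h4).symm

theorem early_two {r : Dart ι} (h1 : K.a (sg r) ≠ sg r)
    (h2 : K.a (sg (sg (sg r))) ≠ sg (sg (sg r))) : K.deg r.1 ≠ 1 := by
  rw [deg_eq r, if_neg h1, if_neg h2]; omega

theorem early_noMT_leaf {q : ι} (h : K.deg q = 1) : K.NoMT {q} :=
  early_noMT fun _ h1 _ _ h2 h3 => absurd (h1 ▸ h) (early_two h2 h3)

/-- a quad with a disabled corner is glued along both sides at that corner -/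
theorem MC.dis_glued (h : MC K) {p : Dart ι} (hp : p ∈ K.dis) :
    K.a p ≠ p ∧ K.a (sg (sg (sg p))) ≠ sg (sg (sg p)) := by
  have hq := h.valid.dis_mem p hp
  have f1 := h.valid.dis_fr1 p hp
  have f2 := h.valid.dis_fr2 p hp
  have d0 := h.deg_pos hq
  have d1 := deg_eq (K := K) p
  rw [if_pos f1, if_pos f2] at d1
  have en : ∀ c : Dart ι, c.1 = p.1 → c ≠ p → c ∉ K.dis := fun c h1 h2 h3 =>
    h2 (h.valid.dis_uniq c h3 p hp h1)
  have key : K.deg p.1 = 1 → ¬ (K.a p = p ∧ K.a (sg (sg (sg p))) = sg (sg (sg p))) →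
      ∀ c z : Dart ι, c.1 = p.1 → c ≠ p → z.1 ∈ K.Q \ {p.1} → K.Vx z c → False :=
    fun hd hn c z h1 h2 h3 h4 => by
      obtain ⟨X0, M, a1, a2, a3, a4⟩ := early_move h.valid p.1
      have a5 : X0 = ∅ := eq_empty_of_forall_notMem fun x hx => by
        obtain ⟨b1, b2, b3⟩ := a3 x hx
        exact early_del1 h f1 b2 (early_noMT_leaf hd) (en x b2 fun g => hn (g ▸ b3)) b1 (Vx.refl x)
      subst a5
      have a6 := deg_add_fr (K := K) p.1
      have a7 := card_pos.2 ⟨p, mem_ds.2 ⟨hp, mem_singleton_self p.1⟩⟩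
      have a8 := card_insert_le z M
      exact h.red (singleton_subset_iff.2 hq) (singleton_nonempty _) (connOn_singleton _)
        (early_noMT_leaf hd) ∅ (insert z M)
        (by simpa only [mem_insert, forall_eq_or_imp] using ⟨h3, a1⟩)
        (fun q hq => mem_singleton.1 hq ▸ h1 ▸ cov_of_hit ⟨z, by simp, h4⟩ (en c h1 h2))
        (fun m hm => (a2 m hm).mono (union_subset_union subset_rfl (subset_insert _ _)))
        (by rw [card_empty] at *; omega)
  by_cases g : K.a p = p <;> by_cases g' : K.a (sg (sg (sg p))) = sg (sg (sg p))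
  · rw [if_pos g, if_pos g'] at d1; omega
  · rw [if_pos g, if_neg g'] at d1
    exact (key d1 (fun e => g' e.2) (sg (sg (sg p))) (sg (K.a (sg (sg (sg p))))) rfl (sg3_ne p)
      (early_out h.valid g' :) (vx_sg_a g').symm).elim
  · rw [if_neg g, if_pos g'] at d1
    exact (key d1 (fun e => g e.1) (sg p) _ rfl (sg_ne p) (early_out h.valid g) (vx_a_sg g)).elim
  · exact ⟨g, g'⟩

theorem early_leaf {d : Dart ι} (h1 : K.a d ≠ d) (h2 : K.deg d.1 = 1) : K.a (sg d) = sg d ∧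
    K.a (sg (sg d)) = sg (sg d) ∧ K.a (sg (sg (sg d))) = sg (sg (sg d)) := by
  rw [deg_eq d, if_neg h1] at h2
  split_ifs at h2 <;> first | omega | exact ⟨‹_›, ‹_›, ‹_›⟩

theorem early_leaf_eq {d x : Dart ι} (h1 : K.a d ≠ d) (h2 : K.deg d.1 = 1) (h3 : x.1 = d.1)
    (h4 : K.a x ≠ x) : x = d := by
  obtain ⟨a1, a2, a3⟩ := early_leaf h1 h2
  rcases same_quad h3 with rfl | rfl | rfl | rfl
  exacts [rfl, absurd a1 h4, absurd a2 h4, absurd a3 h4]

theorem early_leaf_en (h : MC K) {c : Dart ι} (h2 : K.deg c.1 = 1) : c ∉ K.dis := fun hc =>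
  sg3_ne c (early_leaf_eq (h.dis_glued hc).1 h2 rfl (h.dis_glued hc).2)

theorem MC.mrk_empty (h : MC K) : K.mrk = ∅ := eq_empty_of_forall_notMem fun m hm => by
  obtain ⟨l, h1, h2⟩ := h.valid.exists_last m
  have key : K.a (sg l) ≠ sg l → K.a (sg (sg (sg l))) ≠ sg (sg (sg l)) →
      ¬ K.Fc (sg (sg (sg l))) l := fun g1 g2 g3 => by
    have e := (h.bridge g2 (g3.trans (early_vx_pred g2).fc.symm)).resolve_left (early_two g1 g2 :)
    exact early_del1 h (c := K.a (sg (sg (sg l)))) (early_leaf (a_glued g2) e).1 rfl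
      (early_noMT_leaf e) (early_leaf_en h e) hm (h2.trans (early_vx_pred g2).symm)
  refine early_del1 h h1 rfl (early_noMT fun r a1 a2 a3 a4 a5 a6 => ?_)
    (fun g => (h.dis_glued g).1 h1) hm h2
  rcases same_quad a1.symm with rfl | rfl | rfl | rfl
  · exact key a4 a5 (a6.trans (fc_free a3)).symm
  · exact a4 h1
  · refine key a5 (by rwa [sg4]) ?_
    rw [sg4]
    exact (fc_free a2).symm.trans a6
  · exact a5 h1

/-- the darts of a leaf hanging on `c` are linked to `c` and to `sg c` -/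
theorem early_lk {D : Finset ι} {c : Dart ι} (h1 : K.a c ≠ c) (h2 : K.deg (K.a c).1 = 1)
    (h3 : c.1 ∈ D) (h4 : (K.a c).1 ∈ D) :
    K.Lk D c (sg c) ∧ ∀ x : Dart ι, x.1 = (K.a c).1 → K.Lk D c x := by
  obtain ⟨a1, a2, a3⟩ := early_leaf (a_glued h1) h2
  have l1 : K.Lk D c (sg (K.a c)) := lk_phi h3 h4
  have l2 := l1.trans (lk_free h4 a1)
  have l3 := l2.trans (lk_free h4 a2)
  have l4 := l3.trans (lk_free h4 a3)
  rw [sg4] at l4
  refine ⟨l4.trans (lk_a_sg h3 h4), fun x hx => ?_⟩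
  rcases same_quad hx with rfl | rfl | rfl | rfl
  exacts [l4, l1, l2, l3]

theorem early_cov (h : MC K) {X : Finset (Dart ι)} {c : Dart ι} (h1 : K.a c ≠ c)
    (h2 : K.deg (K.a c).1 = 1) (h3 : K.Hit X c ∨ K.Hit X (sg c)) : K.Cov X (K.a c).1 :=
  h3.elim (fun g => cov_of_hit (c := sg (K.a c)) (g.of_vx (vx_sg_a h1)) (early_leaf_en h h2))
    fun g => cov_of_hit (g.of_vx (vx_a_sg h1).symm) (early_leaf_en h h2)

theorem early_ne {c c' : Dart ι} (h1 : K.a c ≠ c) (h2 : K.deg (K.a c).1 = 1) (h3 : K.a c' ≠ c')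
    (h4 : c' ≠ c) : (K.a c').1 ≠ (K.a c).1 := fun g =>
  h4 (a_inj (early_leaf_eq (a_glued h1) h2 g (a_glued h3)))

theorem early_adj (h : MC K) {c : Dart ι} (h1 : K.a c ≠ c) (h2 : K.deg (K.a c).1 = 1)
    (h3 : K.a (sg c) ≠ sg c) (h4 : K.deg (K.a (sg c)).1 = 1) (h5 : sg c ∉ K.dis) : False := by
  have m0 : c.1 ∈ ({c.1, (K.a c).1, (K.a (sg c)).1} : Finset ι) := by simp
  obtain ⟨l1, l2⟩ := early_lk h1 h2 m0 (by simp)
  obtain ⟨l3, l4⟩ := early_lk h3 h4 m0 (by simp)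
  have all : ∀ x : Dart ι, x.1 ∈ ({c.1, (K.a c).1, (K.a (sg c)).1} : Finset ι) → K.a x = x →
      K.Lk {c.1, (K.a c).1, (K.a (sg c)).1} c x := fun x hx hf => by
    simp only [mem_insert, mem_singleton] at hx
    rcases hx with hx | hx | hx
    · rcases same_quad hx with rfl | rfl | rfl | rfl
      exacts [Lk.refl _ _, l1, l1.trans l3, by simpa using (lk_free (x := sg (sg (sg c))) m0 hf).symm]
    exacts [l2 x hx, l1.trans (l4 x hx)]
  have hx : K.Hit ({sg c} ∪ ∅) (sg c) := hit_of_mem (by simp)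
  have f1 := deg_add_fr (K := K) (K.a c).1
  have f2 := deg_add_fr (K := K) (K.a (sg c)).1
  have f3 := card_le_card (fr_mono (K := K) (subset_insert c.1 {(K.a c).1, (K.a (sg c)).1}))
  rw [card_fr_eq_sum, sum_pair (early_ne h1 h2 h3 (sg_ne c)).symm] at f3
  refine h.red (D := {c.1, (K.a c).1, (K.a (sg c)).1}) ?_ ⟨_, m0⟩ (connOn_of_lk (x := c) ?_)
    (fun r r' a1 a2 a3 a4 _ => (all r a1 a3).symm.trans (all r' a2 a4)) {sg c} ∅ (by simp) ?_
    (by simp [h.mrk_empty]) (by rw [card_singleton, card_empty]; omega)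
  · simp [insert_subset_iff, mem_of_glued h1, mem_of_glued (a_glued h1), mem_of_glued (a_glued h3)]
  · simp only [mem_insert, mem_singleton, forall_eq_or_imp, forall_eq]
    exact ⟨⟨c, rfl, Lk.refl _ _⟩, ⟨_, rfl, l2 _ rfl⟩, _, rfl, l1.trans (l4 _ rfl)⟩
  · simp only [mem_insert, mem_singleton, forall_eq_or_imp, forall_eq]
    exact ⟨(cov_of_hit hx h5 :), early_cov h h1 h2 (Or.inr hx), early_cov h h3 h4 (Or.inl hx)⟩

theorem early_en (h : MC K) {c : Dart ι} (h1 : 3 ≤ K.deg c.1) : c ∉ K.dis := fun hc => by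
  rw [deg_eq c, if_pos (h.valid.dis_fr1 c hc), if_pos (h.valid.dis_fr2 c hc)] at h1
  split_ifs at h1 <;> omega

theorem early_four (h : MC K) {c : Dart ι} (h1 : K.a c ≠ c) (h2 : K.deg (K.a c).1 = 1) :
    K.deg c.1 = 4 := by
  have m0 : c.1 ∈ ({c.1, (K.a c).1} : Finset ι) := by simp
  obtain ⟨l1, l2⟩ := early_lk h1 h2 m0 (by simp)
  have f0 := deg_add_fr (K := K) c.1
  have f1 := deg_add_fr (K := K) (K.a c).1
  have f2 := card_fr_eq_sum (K := K) {c.1, (K.a c).1}
  rw [sum_pair (h.valid.a_fst_ne h1).symm] at f2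
  have l3 : K.a (sg (sg (sg c))) = sg (sg (sg c)) → K.Lk {c.1, (K.a c).1} c (sg (sg (sg c))) :=
    fun g => by simpa using (lk_free (x := sg (sg (sg c))) m0 g).symm
  have key : (K.a (sg (sg c)) = sg (sg c) → K.Fc c (sg (sg c)) →
      K.Lk {c.1, (K.a c).1} c (sg (sg c))) → ∀ X0 M : Finset (Dart ι),
      (∀ m ∈ M, m.1 ∈ K.Q \ {c.1, (K.a c).1}) → (∃ x, (x = c ∨ x = sg c) ∧ x ∉ K.dis ∧
        K.Hit (X0 ∪ M) x) → 4 * X0.card + 3 * M.card + K.deg c.1 ≤ 6 → False :=
    fun hl X0 M hM ⟨x, hx, hx1, hx2⟩ hn => by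
      have all : ∀ x : Dart ι, x.1 ∈ ({c.1, (K.a c).1} : Finset ι) → K.a x = x →
          x = sg (sg c) ∨ K.Lk {c.1, (K.a c).1} c x := fun x hx hf => by
        simp only [mem_insert, mem_singleton] at hx
        rcases hx with hx | hx
        · rcases same_quad hx with rfl | rfl | rfl | rfl
          exacts [Or.inr (Lk.refl _ _), Or.inr l1, Or.inl rfl, Or.inr (l3 hf)]
        · exact Or.inr (l2 x hx)
      refine h.red (D := {c.1, (K.a c).1}) ?_ ⟨_, m0⟩ (connOn_of_lk (x := c) ?_)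
        (fun r r' a1 a2 a3 a4 a5 => ?_) X0 M hM ?_ (by simp [h.mrk_empty]) (by omega)
      · simp [insert_subset_iff, mem_of_glued h1, mem_of_glued (a_glued h1)]
      · simp only [mem_insert, mem_singleton, forall_eq_or_imp, forall_eq]
        exact ⟨⟨c, rfl, Lk.refl _ _⟩, _, rfl, l2 _ rfl⟩
      · rcases all r a1 a3 with rfl | b1 <;> rcases all r' a2 a4 with rfl | b2
        · exact Lk.refl _ _
        · exact (hl a3 (b2.fc.trans a5.symm)).symm.trans b2
        · exact b1.symm.trans (hl a4 (b1.fc.trans a5))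
        · exact b1.symm.trans b2
      · simp only [mem_insert, mem_singleton, forall_eq_or_imp, forall_eq]
        rcases hx with rfl | rfl
        · exact ⟨cov_of_hit hx2 hx1, early_cov h h1 h2 (Or.inl hx2)⟩
        · exact ⟨(cov_of_hit hx2 hx1 :), early_cov h h1 h2 (Or.inr hx2)⟩
  have out : ∀ x : Dart ι, x.1 = c.1 → x ≠ c → K.a x ≠ x → (K.a x).1 ∈ K.Q \ {c.1, (K.a c).1} :=
    fun x a1 a2 a3 => by
      simp [mem_of_glued (a_glued a3), early_ne h1 h2 a3 a2, a1 ▸ h.valid.a_fst_ne a3]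
  have hl : K.a (sg c) = sg c ∨ K.a (sg (sg (sg c))) = sg (sg (sg c)) →
      K.a (sg (sg c)) = sg (sg c) → K.Fc c (sg (sg c)) → K.Lk {c.1, (K.a c).1} c (sg (sg c)) :=
    fun g g2 _ => g.elim (fun g => l1.trans (lk_free (x := sg c) m0 g))
      fun g => (l3 g).trans (lk_free (x := sg (sg c)) m0 g2).symm
  have d1 := deg_eq (K := K) c
  rw [if_neg h1] at d1
  by_contra h4
  rcases Nat.lt_or_ge (K.deg c.1) 3 with h3 | h3
  · have g : K.a (sg c) = sg c ∨ K.a (sg (sg (sg c))) = sg (sg (sg c)) := by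
      by_contra! g
      rw [if_neg g.1, if_neg g.2] at d1
      omega
    rcases early_enabled h.valid c with e | e
    · exact key (hl g) {c} ∅ (by simp) ⟨c, Or.inl rfl, e, hit_of_mem (by simp)⟩
        (by rw [card_singleton, card_empty]; omega)
    · exact key (hl g) {sg c} ∅ (by simp) ⟨_, Or.inr rfl, e, hit_of_mem (by simp)⟩
        (by rw [card_singleton, card_empty]; omega)
  have h5 : K.deg c.1 ≤ 3 := by omega
  by_cases g1 : K.a (sg c) = sg c
  · have g3 : K.a (sg (sg (sg c))) ≠ sg (sg (sg c)) := fun g => by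
      rw [if_pos g1, if_pos g] at d1
      split_ifs at d1 <;> omega
    exact key (hl (Or.inl g1)) ∅ {K.a (sg (sg (sg c)))}
      (by simpa using out (sg (sg (sg c))) rfl (sg3_ne c) g3)
      ⟨c, Or.inl rfl, early_en h h3, _, by simp, early_vx_pred g3⟩
      (by rw [card_singleton, card_empty]; omega)
  refine key (fun g2 g => ?_) ∅ {sg (K.a (sg c))} (by simpa using out (sg c) rfl (sg_ne c) g1)
    ⟨_, Or.inr rfl, early_en h h3, _, by simp, (vx_sg_a g1).symm⟩
    (by rw [card_singleton, card_empty]; omega)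
  rcases h.bridge g1 ((l1.fc.symm.trans g).trans (fc_a_sg _).symm) with e | e
  · exact absurd (h3.trans_eq e) (by omega)
  · exact (early_adj h h1 h2 g1 e (early_en h h3)).elim

theorem early_opp (h : MC K) {c : Dart ι} (h1 : K.a c ≠ c) (h2 : K.deg (K.a c).1 = 1)
    (h3 : K.a (sg (sg c)) ≠ sg (sg c)) (h4 : K.deg (K.a (sg (sg c))).1 = 1) : False := by
  have hq := mem_of_glued h1
  have gl : ∀ x : Dart ι, x.1 ∈ ({(K.a c).1, (K.a (sg (sg c))).1} : Finset ι) → K.a x ≠ x →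
      x = K.a c ∨ x = K.a (sg (sg c)) := fun x hx hg => by
    simp only [mem_insert, mem_singleton] at hx
    exact hx.imp (fun e => early_leaf_eq (a_glued h1) h2 e hg)
      fun e => early_leaf_eq (a_glued h3) h4 e hg
  have gl' : ∀ x : Dart ι, x.1 ∈ ({(K.a c).1, (K.a (sg (sg c))).1} : Finset ι) → K.a x ≠ x →
      (K.a x).1 = c.1 := fun x hx hg => by
    rcases gl x hx hg with rfl | rfl <;> rw [K.inv]
    rfl
  have m0 : c.1 ∉ ({(K.a c).1, (K.a (sg (sg c))).1} : Finset ι) := by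
    simpa using ⟨(h.valid.a_fst_ne h1).symm, (h.valid.a_fst_ne h3).symm⟩
  have f1 := deg_add_fr (K := K) (K.a c).1
  have f2 := deg_add_fr (K := K) (K.a (sg (sg c))).1
  have f3 := card_fr_eq_sum (K := K) {(K.a c).1, (K.a (sg (sg c))).1}
  have hne := (early_ne h1 h2 h3 (sg2_ne c)).symm
  have f4 := card_pair hne
  rw [sum_pair hne] at f3
  have f5 := (card_le_card (show K.cut {(K.a c).1, (K.a (sg (sg c))).1} ⊆
    {K.a c, K.a (sg (sg c))} from fun x hx => by
      simpa using gl x (mem_cut.1 hx).1 (glued_of_cut hx))).trans card_le_two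
  have hD : ({(K.a c).1, (K.a (sg (sg c))).1} : Finset ι) ⊆ K.Q := by
    simp [insert_subset_iff, mem_of_glued (a_glued h1), mem_of_glued (a_glued h3)]
  have cv : ∀ X, (K.Hit X c ∨ K.Hit X (sg c)) → (K.Hit X (sg (sg c)) ∨ K.Hit X (sg (sg (sg c)))) →
      ∀ q ∈ ({(K.a c).1, (K.a (sg (sg c))).1} : Finset ι), K.Cov X q := fun X a1 a2 => by
    simpa using ⟨early_cov h h1 h2 a1, early_cov h h3 h4 a2⟩
  generalize ({(K.a c).1, (K.a (sg (sg c))).1} : Finset ι) = D at *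
  obtain ⟨X, x1, -, x2⟩ := dl_conn h.valid h.ih hD (card_pos.1 (by omega)) (fun T hT hne hcl => by
    by_cases hc : c.1 ∈ T
    · have := h.conn (T ∪ D) (union_subset (hT.trans sdiff_subset) hD) hne.inl fun x a1 a2 => by
        by_cases a3 : (K.a x).1 ∈ D
        · exact mem_union_right _ a3
        rcases mem_union.1 a1 with a1 | a1
        · exact mem_union_left _ (hcl x a1 (mem_sdiff.2 ⟨a2, a3⟩))
        · exact mem_union_left _ (gl' x a1 (fun g => a3 (by rwa [g])) ▸ hc)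
      rw [← this, union_sdiff_right, Finset.sdiff_eq_self_iff_disjoint.2
        (disjoint_of_subset_left hT sdiff_disjoint)]
    · refine absurd ((h.conn T (hT.trans sdiff_subset) hne fun x a1 a2 => hcl x a1
        (mem_sdiff.2 ⟨a2, fun a3 => ?_⟩)).symm ▸ hq) hc
      have a4 := gl' _ a3 (a_glued fun g => (mem_sdiff.1 (hT a1)).2 (by rwa [g] at a3))
      rw [K.inv] at a4
      exact hc (a4 ▸ a1)) ∅ (by simp)
  have fin : ∀ z, (∀ q ∈ D, K.Cov (insert z X) q) → False := fun z hz =>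
    h.bad ⟨insert z X, ⟨fun q hq => by
      by_cases g : q ∈ D
      exacts [hz q g, (x1 q (mem_sdiff.2 ⟨hq, g⟩)).mono (subset_insert _ _)],
      by simp [h.mrk_empty]⟩, by
        have := card_insert_le z X
        rw [card_empty] at x2
        omega⟩
  obtain ⟨i, -, hi⟩ := x1 _ (mem_sdiff.2 ⟨hq, m0⟩)
  have s := fun z => hi.mono (subset_insert z X)
  have t := fun z => hit_of_mem (K := K) (mem_insert_self z X)
  rcases same_quad (d := c) (d' := (c.1, i)) rfl with e | e | e | e <;> rw [e] at s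
  · exact fin _ (cv _ (Or.inl (s _)) (Or.inl (t _)))
  · exact fin _ (cv _ (Or.inr (s _)) (Or.inl (t _)))
  · exact fin _ (cv _ (Or.inl (t _)) (Or.inl (s _)))
  · exact fin _ (cv _ (Or.inl (t _)) (Or.inr (s _)))

/-- a leaf hangs on a quad without free sides, and no other leaf hangs there -/
theorem MC.leaf_nb (h : MC K) {d : Dart ι} (h1 : K.a d ≠ d) (h2 : K.deg d.1 = 1) :
    K.deg (K.a d).1 = 4 ∧
      ∀ d' : Dart ι, d'.1 = (K.a d).1 → d' ≠ K.a d → K.deg (K.a d').1 ≠ 1 := by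
  have h3 := a_glued h1
  have h4 : K.deg (K.a (K.a d)).1 = 1 := by rwa [K.inv]
  have h5 := early_four h h3 h4
  have h6 : 3 ≤ K.deg (K.a d).1 := by omega
  refine ⟨h5, fun x a1 a2 a3 => ?_⟩
  have a4 : K.a x ≠ x := fun g => by rw [g, a1] at a3; omega
  rcases same_quad a1 with rfl | rfl | rfl | rfl
  · exact a2 rfl
  · exact early_adj h h3 h4 a4 a3 (early_en h h6)
  · exact early_opp h h3 h4 a4 a3
  · exact early_adj h a4 a3 (by rwa [sg4]) (by rwa [sg4]) (early_en h h6)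

/-- sides of quads of degree two or three are not bridges -/
theorem MC.not_bridge (h : MC K) {d : Dart ι} (h1 : K.a d ≠ d) (h2 : K.deg d.1 ≠ 1)
    (h3 : K.deg d.1 ≠ 4) : ¬ K.Fc d (K.a d) := fun g => h3 (by
  have := (h.leaf_nb (a_glued h1) ((h.bridge h1 g).resolve_left h2)).1
  rwa [K.inv] at this)

/-- two opposite corners of a quad with a free side lie on one curve only in a leaf or around a
singleton -/
theorem MC.diag (h : MC K) {c : Dart ι} (hf : K.Fc c (sg (sg c))) (h4 : K.deg c.1 ≠ 4)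
    (h1 : K.deg c.1 ≠ 1) (hc : c.1 ∈ K.Q) :
    (K.a c = c ∧ K.a (sg c) = sg c) ∨
      (K.a (sg (sg c)) = sg (sg c) ∧ K.a (sg (sg (sg c))) = sg (sg (sg c))) := by
  have key : ∀ x : Dart ι, x.1 = c.1 → K.Fc x (sg x) → K.a x = x := fun x hx g => by
    by_contra g'
    exact h.not_bridge g' (hx ▸ h1) (hx ▸ h4) (g.trans (fc_a_sg x).symm)
  by_cases g0 : K.a c = c
  · exact Or.inl ⟨g0, key _ rfl ((fc_free g0).symm.trans hf)⟩
  by_cases g1 : K.a (sg c) = sg c
  · exact absurd (key _ rfl (hf.trans (fc_free g1).symm)) g0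
  by_cases g2 : K.a (sg (sg c)) = sg (sg c)
  · exact Or.inr ⟨g2, key _ rfl (by simpa using (hf.trans (fc_free g2)).symm)⟩
  by_cases g3 : K.a (sg (sg (sg c))) = sg (sg (sg c))
  · exact absurd (key (sg (sg c)) rfl (hf.symm.trans (by simpa using (fc_free g3).symm))) g2
  · rw [deg_eq c, if_neg g0, if_neg g1, if_neg g2, if_neg g3] at h4
    omega

end Pool.Agent.Lib.MP_8d6beb_co
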