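import Pool.Agent.Lib.MP_8d6beb_co.QPlanar
import Pool.Agent.Lib.MP_8d6beb_co.QDual

/-! Euler inequalities. -/

namespace Pool.Agent.Lib.MP_8d6beb_co

open Finset

set_option linter.unusedSectionVars false

variable {ι : Type} [Fintype ι] [DecidableEq ι]

namespace Cx

variable {K : Cx ι}

/-- genus zero gives many curves: `V - E + F ≥ 2` -/
theorem Planar.euler_le (hK : K.Planar) (hne : K.Q.Nonempty) :
    2 * K.Q.card + 4 ≤ (K.fr K.Q).card + 2 * K.nF K.Q := by
  exact K.dual_euler_le hK hne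

/-- a connected complex has `V - E + F ≤ 2` -/
theorem Conn.genus (hK : K.Conn) (hne : K.Q.Nonempty) :
    (K.fr K.Q).card + 2 * K.nF K.Q ≤ 2 * K.Q.card + 4 := by
  classical
  obtain ⟨q0, h0⟩ := hne
  have two : ∀ x : ZMod 2, x + x = 0 := by decide
  let O := (univ.filter (fun d : Dart ι => d.1 ∈ K.Q)).image
    (fun d => univ.filter (fun d' => K.Fc d d'))
  have hO : K.nF K.Q = O.card := by
    unfold nF
    congr
  have m : ∀ d : Dart ι, d.1 ∈ K.Q → univ.filter (fun d' => K.Fc d d') ∈ O := fun d h =>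
    mem_image_of_mem _ (mem_filter.2 ⟨mem_univ _, h⟩)
  let T : (Dart ι → ZMod 2) →ₗ[ZMod 2] (Dart ι → ZMod 2) :=
    LinearMap.id + LinearMap.funLeft _ _ K.a
  let B : (Dart ι → ZMod 2) →ₗ[ZMod 2] (ι → ZMod 2) :=
    LinearMap.pi (fun q => ∑ i, LinearMap.proj (q, i))
  let P : (O → ZMod 2) →ₗ[ZMod 2] (Dart ι → ZMod 2) :=
    LinearMap.pi (fun d => if g : d.1 ∈ K.Q then LinearMap.proj ⟨_, m d g⟩ else 0)
  let E : (K.Q → ZMod 2) →ₗ[ZMod 2] (ι → ZMod 2) :=
    LinearMap.pi (fun q => if g : q ∈ K.Q then LinearMap.proj ⟨q, g⟩ else 0)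
  have hT : ∀ y d, T y d = y d + y (K.a d) := fun _ _ => rfl
  have hB : ∀ y q, B y q = ∑ i, y (q, i) := fun y q => by simp [B]
  have hP1 : ∀ Y d (g : d.1 ∈ K.Q), P Y d = Y ⟨_, m d g⟩ := fun Y d g => by simp [P, g]
  have hP2 : ∀ Y d, d.1 ∉ K.Q → P Y d = 0 := fun Y d g => by simp [P, g]
  have hE1 : ∀ Y q (g : q ∈ K.Q), E Y q = Y ⟨q, g⟩ := fun Y d g => by simp [E, g]
  have hE2 : ∀ Y q, q ∉ K.Q → E Y q = 0 := fun Y d g => by simp [E, g]
  have Pinv : ∀ Y d, P Y (K.phi d) = P Y d := by
    intro Y d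
    by_cases g : d.1 ∈ K.Q
    · rw [hP1 Y d g, hP1 Y (K.phi d) (a_mem g)]
      congr 2
      ext x
      simp only [mem_filter, mem_univ, true_and]
      exact ⟨fun e => (fc_phi d).trans e, fun e => (fc_phi d).symm.trans e⟩
    · rw [hP2 Y d g, hP2 Y _ (by rwa [phi_fst, K.supp d g])]
  have a1 := LinearMap.finrank_range_add_finrank_ker (B ∘ₗ T)
  have a2 : LinearMap.range P ⊔ LinearMap.ker T ≤ LinearMap.ker (B ∘ₗ T) := by
    refine sup_le ?_ (LinearMap.ker_le_ker_comp _ _)
    rintro _ ⟨Y, rfl⟩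
    rw [LinearMap.mem_ker]
    funext q
    rw [LinearMap.comp_apply, hB, Pi.zero_apply]
    have e : ∀ d, T (P Y) d = P Y d + P Y (sg d) := fun d => by rw [hT, ← phi_a (K := K), Pinv]
    have e2 : ∀ j : Fin 4, sg (q, j) = (q, j + 1) := fun _ => rfl
    simp only [e, e2, Fin.sum_univ_four, Fin.reduceAdd]
    linear_combination two (P Y (q, 0)) + two (P Y (q, 1)) + two (P Y (q, 2)) + two (P Y (q, 3))
  have a3 : LinearMap.range P ⊓ LinearMap.ker T ≤
      Submodule.span (ZMod 2) {fun d : Dart ι => if d.1 ∈ K.Q then (1 : ZMod 2) else 0} := by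
    rintro _ ⟨⟨Y, rfl⟩, hy⟩
    have e1 : ∀ d, P Y (K.a d) = P Y d := fun d => by
      have := congrFun (LinearMap.mem_ker.1 hy) d
      rw [hT, Pi.zero_apply] at this
      linear_combination this - two (P Y d)
    have e2 : ∀ d, P Y (sg d) = P Y d := fun d => by rw [← phi_a (K := K), Pinv, e1]
    have e3 : ∀ d d' : Dart ι, d'.1 = d.1 → P Y d' = P Y d := fun d d' g => by
      rcases same_quad g with rfl | rfl | rfl | rfl <;> simp only [e2]
    have e4 := hK (K.Q.filter (fun q => P Y (q, 0) = P Y (q0, 0))) (filter_subset _ _)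
      ⟨q0, mem_filter.2 ⟨h0, rfl⟩⟩ (fun d g1 g2 => mem_filter.2 ⟨g2, by
        rw [e3 (K.a d) ((K.a d).1, 0) rfl, e1, ← e3 d (d.1, 0) rfl]; exact (mem_filter.1 g1).2⟩)
    refine Submodule.mem_span_singleton.2 ⟨P Y (q0, 0), funext (fun d => ?_)⟩
    by_cases g : d.1 ∈ K.Q
    · rw [Pi.smul_apply, if_pos g, smul_eq_mul, mul_one, ← e3 d (d.1, 0) rfl]
      rw [← e4] at g
      exact (mem_filter.1 g).2.symm
    · rw [Pi.smul_apply, if_neg g, smul_zero, hP2 Y d g]
  have a4 : Function.Injective P := by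
    rw [injective_iff_map_eq_zero]
    intro Y e
    funext ⟨x, hx⟩
    obtain ⟨d, hd, rfl⟩ := mem_image.1 hx
    exact (hP1 Y d (mem_filter.1 hd).2).symm.trans (congrFun e d)
  have a5 : Function.Injective E := by
    rw [injective_iff_map_eq_zero]
    intro Y e
    funext ⟨x, hx⟩
    exact (hE1 Y x hx).symm.trans (congrFun e x)
  have a6 : LinearMap.range E ≤ LinearMap.range (B ∘ₗ T) ⊔
      Submodule.span (ZMod 2) {Pi.single q0 (1 : ZMod 2)} := by
    have bs : ∀ d : Dart ι, B (Pi.single d 1) = Pi.single d.1 1 := by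
      rintro ⟨p, i⟩
      funext q
      rw [hB]
      by_cases g : q = p
      · subst g
        simp [Pi.single_apply]
      · simp [g]
    have e1 : ∀ d : Dart ι, (B ∘ₗ T) (Pi.single d 1) = Pi.single d.1 1 + Pi.single (K.a d).1 1 := by
      intro d
      rw [← bs, ← bs, ← map_add, LinearMap.comp_apply]
      congr 1
      funext x
      rw [hT, Pi.add_apply]
      congr 1
      simp only [Pi.single_apply]
      exact if_congr ⟨fun e => by rw [← e, K.inv], fun e => by rw [e, K.inv]⟩ rfl rfl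
    have e2 := hK (K.Q.filter (fun q => Pi.single q (1 : ZMod 2) ∈ LinearMap.range (B ∘ₗ T) ⊔
      Submodule.span (ZMod 2) {Pi.single q0 (1 : ZMod 2)})) (filter_subset _ _)
      ⟨q0, mem_filter.2 ⟨h0, Submodule.mem_sup_right (Submodule.mem_span_singleton_self _)⟩⟩
      (fun d g1 g2 => mem_filter.2 ⟨g2, by
        have := Submodule.sub_mem _ (Submodule.mem_sup_left (LinearMap.mem_range.2 ⟨_, e1 d⟩)) (mem_filter.1 g1).2
        rwa [add_sub_cancel_left] at this⟩)
    rintro _ ⟨Y, rfl⟩
    rw [← Finset.univ_sum_single (E Y)]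
    refine Submodule.sum_mem _ (fun q _ => ?_)
    by_cases g : q ∈ K.Q
    · rw [← e2] at g
      have := Submodule.smul_mem _ (E Y q) (mem_filter.1 g).2
      rwa [← Pi.single_smul, smul_eq_mul, mul_one] at this
    · rw [hE2 Y q g, Pi.single_zero]
      exact Submodule.zero_mem _
  let n := Fintype.equivFin (Dart ι)
  let R := univ.filter (fun d : Dart ι => K.a d = d ∨ n d < n (K.a d))
  have hR : ∀ d, d ∉ R → K.a d ∈ R ∧ K.a d ≠ d := fun d g => by
    have g1 : K.a d ≠ d ∧ n (K.a d) ≤ n d := by simpa [R] using g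
    exact ⟨mem_filter.2 ⟨mem_univ _, Or.inr (by
      rw [K.inv]; exact lt_of_le_of_ne g1.2 (fun e => g1.1 (n.injective e)))⟩, g1.1⟩
  let rep : Dart ι → R := fun d => if g : d ∈ R then ⟨d, g⟩ else ⟨K.a d, (hR d g).1⟩
  have a7 : R.card ≤ Module.finrank (ZMod 2) (LinearMap.ker T) := by
    have r1 : ∀ d, rep (K.a d) = rep d := by
      intro d
      by_cases g : d ∈ R
      · by_cases f : K.a d ∈ R
        · have : K.a d = d := by
            by_contra e
            have g1 := (mem_filter.1 g).2.resolve_left e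
            have g2 := (mem_filter.1 f).2.resolve_left (a_glued e)
            rw [K.inv] at g2
            exact lt_asymm g1 g2
          rw [this]
        · simp [rep, g, f, K.inv]
      · simp [rep, g, (hR d g).1]
    have := LinearMap.finrank_le_finrank_of_injective
      (f := (LinearMap.funLeft (ZMod 2) (ZMod 2) rep).codRestrict (LinearMap.ker T) (fun y => by
        rw [LinearMap.mem_ker]
        funext d
        rw [hT, LinearMap.funLeft_apply, LinearMap.funLeft_apply, r1, two, Pi.zero_apply])) (by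
      rw [injective_iff_map_eq_zero]
      intro y e
      funext ⟨d, hd⟩
      have := congrFun (congrArg Subtype.val e) d
      simpa [rep, hd] using this)
    simpa using this
  have a8 : 4 * Fintype.card ι + (K.fr univ).card ≤ 2 * R.card := by
    have b1 : (univ \ R).card ≤ (R \ K.fr univ).card := by
      apply card_le_card_of_injOn K.a
      · intro d hd
        have g := hR d (mem_sdiff.1 hd).2
        exact mem_sdiff.2 ⟨g.1, fun e => a_glued g.2 (mem_fr.1 e).2⟩
      · exact (Function.Involutive.injective K.inv).injOn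
    have b2 := card_sdiff_add_card_eq_card (subset_univ R)
    have b3 := card_sdiff_add_card_eq_card (show K.fr univ ⊆ R from fun d g =>
      mem_filter.2 ⟨mem_univ _, Or.inl (mem_fr.1 g).2⟩)
    rw [card_univ, Fintype.card_prod, Fintype.card_fin] at b2
    omega
  have a9 := card_fr_sdiff (K := K) (subset_univ K.Q)
  have a10 := K.card_darts (univ \ K.Q)
  have a11 : K.cut (univ \ K.Q) = ∅ := by
    refine eq_empty_of_forall_notMem (fun d g => ?_)
    have g1 := mem_cut.1 g
    exact glued_of_cut g (K.supp d (mem_sdiff.1 g1.1).2)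
  have a12 : K.inn (univ \ K.Q) = ∅ := by
    refine eq_empty_of_forall_notMem (fun d g => ?_)
    have g1 := mem_inn.1 g
    exact g1.2.1 (K.supp d (mem_sdiff.1 g1.1).2)
  have a13 := card_sdiff_add_card_eq_card (subset_univ K.Q)
  have b1 := Submodule.finrank_mono a2
  have b2 := Submodule.finrank_sup_add_finrank_inf_eq (LinearMap.range P) (LinearMap.ker T)
  have b3 := (Submodule.finrank_mono a3).trans (finrank_span_le_card _)
  have b4 := (Submodule.finrank_mono a6).trans (Submodule.finrank_add_le_finrank_add_finrank _ _)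
  have b5 := finrank_span_le_card (R := ZMod 2) ({Pi.single q0 (1 : ZMod 2)} : Set (ι → ZMod 2))
  rw [LinearMap.finrank_range_of_inj a4] at b2
  rw [LinearMap.finrank_range_of_inj a5] at b4
  rw [a11, a12] at a10
  simp only [Module.finrank_fintype_fun_eq_card, Fintype.card_prod, Fintype.card_fin,
    Fintype.card_coe, Set.toFinset_singleton, card_singleton, card_univ, card_empty]
    at a1 b2 b3 b4 b5 a10 a13
  omega

open Classical in
theorem euler_orb {d d' : Dart ι} :
    univ.filter (fun x => K.Fc d x) = univ.filter (fun x => K.Fc d' x) ↔ K.Fc d d' := by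
  constructor
  · intro e
    have : d' ∈ univ.filter (fun x => K.Fc d x) := e ▸ mem_filter.2 ⟨mem_univ _, Fc.refl d'⟩
    exact (mem_filter.1 this).2
  · intro e
    ext x
    simp only [mem_filter, mem_univ, true_and]
    exact ⟨fun g => e.symm.trans g, fun g => e.trans g⟩

theorem nIn_mono {U U' : Finset ι} (h : U ⊆ U') : K.nIn U ≤ K.nIn U' := by
  classical
  refine card_le_card (image_subset_image (fun d g => ?_))
  rw [mem_filter] at g ⊢
  exact ⟨g.1, fun y e => h (g.2 y e)⟩

/-- further curves inside `U'` that are not inside `U` -/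
theorem nIn_add {U U' : Finset ι} (h : U ⊆ U') (Z : Finset (Dart ι))
    (h1 : ∀ z ∈ Z, K.Inside U' z) (h2 : ∀ z ∈ Z, ¬ K.Inside U z)
    (h3 : ∀ z ∈ Z, ∀ z' ∈ Z, K.Fc z z' → z = z') : K.nIn U + Z.card ≤ K.nIn U' := by
  classical
  unfold nIn
  rw [← card_image_of_injOn (f := fun d => univ.filter (fun d' => K.Fc d d')) (s := Z)
    (fun z a z' b e => h3 z a z' b (euler_orb.1 e)), ← card_union_of_disjoint]
  · refine card_le_card (union_subset (image_subset_image (fun d g => ?_))
      (image_subset_image (fun d g => mem_filter.2 ⟨mem_univ _, h1 d g⟩)))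
    rw [mem_filter] at g ⊢
    exact ⟨g.1, fun y e => h (g.2 y e)⟩
  · rw [disjoint_left]
    intro x a b
    obtain ⟨d, hd, rfl⟩ := mem_image.1 a
    obtain ⟨z, hz, e⟩ := mem_image.1 b
    exact h2 z hz (Inside.of_fc (mem_filter.1 hd).2 (euler_orb.1 e).symm)

theorem le_nIn {U : Finset ι} (Z : Finset (Dart ι)) (h1 : ∀ z ∈ Z, K.Inside U z)
    (h3 : ∀ z ∈ Z, ∀ z' ∈ Z, K.Fc z z' → z = z') : Z.card ≤ K.nIn U := by
  have := nIn_add (empty_subset U) Z h1 (fun z _ g => notMem_empty _ (g z (Fc.refl z))) h3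
  omega

theorem nIn_Q : K.nIn K.Q = K.nF K.Q := by
  classical
  unfold nIn nF
  congr 2
  ext d
  simp only [mem_filter, mem_univ, true_and]
  exact ⟨fun g => g d (Fc.refl d), fun g y e => e.mem g⟩

theorem euler_reps (U : Finset ι) : ∃ T ⊆ K.cut U,
    (∀ d ∈ K.cut U, ∃ t ∈ T, (K.res U ∅).Fc t d) ∧
    (∀ t ∈ T, ∀ t' ∈ T, (K.res U ∅).Fc t t' → t = t') ∧ T.card + K.nIn U = (K.res U ∅).nF U := by
  classical
  let o : Dart ι → Finset (Dart ι) := fun d => univ.filter (fun x => (K.res U ∅).Fc d x)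
  obtain ⟨T, t1, t2, t3⟩ := exists_subset_injOn_image_eq_of_surjOn (f := o) (K.cut U : Set (Dart ι))
    ((K.cut U).image o) (by rw [coe_image]; exact Set.surjOn_image _ _)
  refine ⟨T, t1, fun d hd => ?_, fun t a t' b e => t2 a b (euler_orb.2 e), ?_⟩
  · obtain ⟨t, a, b⟩ := mem_image.1 (t3 ▸ mem_image_of_mem o hd)
    exact ⟨t, a, euler_orb.1 b⟩
  · have e1 : K.nIn U = ((univ.filter (fun d : Dart ι => ∀ y, K.Fc d y → y.1 ∈ U)).image o).card := by
      unfold nIn
      refine congrArg _ (image_congr (fun d hd => ?_))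
      ext y
      simp only [o, mem_filter, mem_univ, true_and]
      exact (res_fc_of_inside ∅ (mem_filter.1 hd).2 y).symm
    rw [e1, ← card_image_of_injOn t2, t3, ← card_union_of_disjoint]
    · unfold nF
      refine congrArg _ (Subset.antisymm (union_subset (image_subset_image (fun d g => ?_))
        (image_subset_image (fun d g => ?_))) (fun x hx => ?_))
      · exact mem_filter.2 ⟨mem_univ _, (mem_cut.1 g).1⟩
      · exact mem_filter.2 ⟨mem_univ _, (mem_filter.1 g).2 d (Fc.refl d)⟩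
      · obtain ⟨d, hd, rfl⟩ := mem_image.1 hx
        by_cases g : K.Inside U d
        · exact mem_union_right _ (mem_image.2 ⟨d, mem_filter.2 ⟨mem_univ _, g⟩, rfl⟩)
        · obtain ⟨e, e1, e2⟩ := exit (mem_filter.1 hd).2 g
          exact mem_union_left _ (mem_image.2 ⟨e, e1, euler_orb.2 (res_fc_of_lk ∅ e2).symm⟩)
    · rw [disjoint_left]
      intro x a b
      obtain ⟨e, he, rfl⟩ := mem_image.1 a
      obtain ⟨d, hd, g⟩ := mem_image.1 b
      have i : K.Inside U d := (mem_filter.1 hd).2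
      exact (mem_cut.1 he).2 (i (K.phi e)
        (((res_fc_of_inside ∅ i e).1 (euler_orb.1 g)).trans (fc_phi e)))

/-- the curves of the piece `U` are the curves inside `U` and the curves through cut darts; the
latter are represented by a set `T` of cut darts -/
theorem exists_cut_reps (U : Finset ι) : ∃ T ⊆ K.cut U,
    (∀ d ∈ K.cut U, ∃ t ∈ T, (K.res U ∅).Fc t d) ∧ T.card + K.nIn U = (K.res U ∅).nF U := by
  obtain ⟨T, a1, a2, _, a4⟩ := euler_reps (K := K) U
  exact ⟨T, a1, a2, a4⟩

/-- at most three cut darts, none of them a bridge, lie on one curve of the piece -/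
theorem nF_res_le {U : Finset ι} (h1 : (K.cut U).card ≤ 3)
    (h2 : ∀ d ∈ K.cut U, ¬ K.Fc d (K.a d)) : (K.res U ∅).nF U ≤ K.nIn U + 1 := by
  classical
  obtain ⟨T, a1, _, a3, a4⟩ := euler_reps (K := K) U
  have two : ∀ d ∈ K.cut U, ∃ e ∈ K.cut U, (K.res U ∅).Fc d e ∧ e ≠ d := by
    intro d hd
    by_contra g
    push Not at g
    have d1 := mem_cut.1 hd
    have f : (K.res U ∅).a d = d := res_a_out _ (fun e => d1.2 e.2)
    have := Fc.ind (K := K.res U ∅) (P := fun x => (K.res U ∅).Fc d x ∧ K.Fc (sg d) x)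
      (fun x hx => ⟨hx.1.trans (fc_phi x), by
        have x1 : x.1 ∈ U := hx.1.mem d1.1
        by_cases b : (K.a x).1 ∈ U
        · rw [phi_apply, res_a_in _ x1 b]
          exact hx.2.trans (fc_phi x)
        · rw [g x (mem_cut.2 ⟨x1, b⟩) hx.1, phi_free f]
          exact Fc.refl _⟩) (fc_free f).symm ⟨fc_free f, Fc.refl _⟩
    exact h2 d hd ((fc_a_sg d).trans this.2).symm
  have : T.card ≤ 1 := by
    rw [card_le_one]
    intro t ht t' ht'
    by_contra hne
    obtain ⟨e, e1, e2, e3⟩ := two t (a1 ht)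
    obtain ⟨e', f1, f2, f3⟩ := two t' (a1 ht')
    have n : ¬ (K.res U ∅).Fc t t' := fun g => hne (a3 t ht t' ht' g)
    have s : ({t, e, t', e'} : Finset (Dart ι)) ⊆ K.cut U := by
      simp only [insert_subset_iff, singleton_subset_iff]
      exact ⟨a1 ht, e1, a1 ht', f1⟩
    have n1 : t ≠ e' := fun g => n (g ▸ f2.symm)
    have n2 : e ≠ t' := fun g => n (g ▸ e2)
    have n3 : e ≠ e' := fun g => n (e2.trans (g ▸ f2.symm))
    have := card_le_card s
    rw [card_insert_of_notMem (by simp [hne, n1, e3.symm]), card_insert_of_notMem (by simp [n2, n3]),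
      card_pair f3.symm] at this
    omega
  omega

/-- Euler count for a piece with at most three cut darts -/
theorem Planar.piece_count (hK : K.Planar) {U : Finset ι} (hne : U.Nonempty)
    (h1 : (K.cut U).card ≤ 3) (h2 : ∀ d ∈ K.cut U, ¬ K.Fc d (K.a d)) :
    2 * U.card + 2 ≤ (K.fr U).card + (K.cut U).card + 2 * K.nIn U := by
  have a1 := (hK.res U ∅).euler_le hne
  have a2 := nF_res_le h1 h2
  rw [res_Q, res_fr] at a1
  have := card_union_le (K.fr U) (K.cut U)
  omega

end Cx

end Pool.Agent.Lib.MP_8d6beb_co
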