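import Pool.Agent.Lib.MP_8d6beb_co.QReg

/-! Step B, first part: a curve with at most three interior corners. -/

namespace Pool.Agent.Lib.MP_8d6beb_co

open Finset Cx

set_option linter.unusedSectionVars false

variable {ι : Type} [Fintype ι] [DecidableEq ι] {K : Cx ι} {K1 : Finset ι} {e f : Dart ι}

theorem Reg.two_le_deg (h : Reg K K1 e f) {q : ι} (hq : q ∈ K1) : 2 ≤ K.deg q := by
  obtain ⟨i, hi⟩ := card_pos.1 (h.su.mc.deg_pos (h.su.sub hq))
  replace hi := (mem_filter.1 hi).2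
  have e := K.deg_eq (q, i)
  by_contra h2
  have h3 : K.a (sg (q, i)) = sg (q, i) ∧ K.a (sg (sg (q, i))) = sg (sg (q, i)) ∧
      K.a (sg (sg (sg (q, i)))) = sg (sg (sg (q, i))) := by
    dsimp only at e
    split_ifs at e <;> first | omega | simp_all
  have h4 := (((fc_a_sg (q, i)).trans (fc_free h3.1)).trans (fc_free h3.2.1)).trans (fc_free h3.2.2)
  rw [sg4] at h4
  exact h.nb (q, i) hq hi h4.symm

theorem Reg.face_sum (h : Reg K K1 e f) {A : Finset ι} (hA : A ⊆ K1) :
    2 * A.card ≤ ∑ q ∈ A, K.deg q := by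
  rw [mul_comm]
  exact card_nsmul_le_sum _ _ _ fun q hq => h.two_le_deg (hA hq)

theorem Reg.exists_minR (h : Reg K K1 e f) : ∃ R, MinR K K1 R := by
  classical
  have h1 : (K.cut K1).card ≤ 3 ∧ K.Cyc K1 := by
    rcases h.su.port with h1 | h1
    · have h2 : K.cut K1 = ∅ := eq_empty_of_forall_notMem fun d hd =>
        (mem_cut.1 hd).2 (h1 ▸ a_mem (h1 ▸ (mem_cut.1 hd).1))
      have h3 := h.face_sum Subset.rfl
      rw [sum_deg, h2] at h3
      exact ⟨by simp [h2], h3⟩
    · exact ⟨h1.1.cut ▸ card_le_two.trans (by omega), h1.2.1⟩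
  obtain ⟨R, hR, hm⟩ := (K1.powerset.filter fun R => R.Nonempty ∧ (K.cut R).card ≤ 3 ∧
    K.Cyc R).exists_min_image card ⟨K1, by simp [h.su.ne, h1]⟩
  simp only [mem_filter, mem_powerset] at hR hm
  exact ⟨R, hR.1, hR.2.1, hR.2.2.1, hR.2.2.2, fun R' a b c d => hm R' ⟨a, b, c, d⟩⟩

/-- every quad of a minimal region has two inner sides -/
theorem Reg.face_inner (h : Reg K K1 e f) {R : Finset ι} (hR : MinR K K1 R) {d : Dart ι}
    (hd : d ∈ K.cut R) : 2 ≤ ((K.inn R).filter fun x => x.1 = d.1).card := by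
  by_contra h2
  have dR := (mem_cut.1 hd).1
  have c2 := h.su.mc.valid.cyc_card hR.ne hR.cyc
  have c3 := card_erase_add_one dR
  set S := (K.inn R).filter fun x => x.1 = d.1
  have c4 := card_image_le (s := S) (f := K.a)
  have h3 : K.cut (R.erase d.1) ⊆ (K.cut R).erase d ∪ S.image K.a := fun x hx => by
    rw [mem_cut, mem_erase, mem_erase] at hx
    by_cases hx' : (K.a x).1 ∈ R
    · have e : (K.a x).1 = d.1 := by tauto
      refine mem_union_right _ (mem_image.2 ⟨K.a x, mem_filter.2 ⟨mem_inn.2 ⟨hx', fun g => ?_, ?_⟩,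
        e⟩, K.inv x⟩)
      · exact hx.1.1 (by rw [← e, ← g, K.inv])
      · rw [K.inv]; exact hx.1.2
    · exact mem_union_left _ (mem_erase.2 ⟨fun g => hx.1.1 (g ▸ rfl), mem_cut.2 ⟨hx.1.2, hx'⟩⟩)
  have h4 : K.inn R ⊆ K.inn (R.erase d.1) ∪ (S ∪ S.image K.a) := fun x hx => by
    have hx' := mem_inn.1 hx
    by_cases a : x.1 = d.1
    · exact mem_union_right _ (mem_union_left _ (mem_filter.2 ⟨hx, a⟩))
    by_cases b : (K.a x).1 = d.1
    · exact mem_union_right _ (mem_union_right _ (mem_image.2 ⟨K.a x, mem_filter.2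
        ⟨mem_inn.2 ⟨hx'.2.2, a_glued hx'.2.1, by rw [K.inv]; exact hx'.1⟩, b⟩, K.inv x⟩))
    exact mem_union_left _ (mem_inn.2 ⟨mem_erase.2 ⟨a, hx'.1⟩, hx'.2.1, mem_erase.2 ⟨b, hx'.2.2⟩⟩)
  have h5 := (card_le_card h3).trans (card_union_le _ _)
  have h6 := (card_le_card h4).trans ((card_union_le _ _).trans
    (Nat.add_le_add_left (card_union_le _ _) _))
  have c5 := card_erase_add_one hd
  have c6 := hR.cut
  have c7 : 2 * R.card ≤ _ := hR.cyc
  have := hR.min (R.erase d.1) ((erase_subset _ _).trans hR.sub) (card_pos.1 (by omega))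
    (by omega) (show 2 * _ ≤ _ by omega)
  omega

/-- if two sides of a quad of a minimal region are not inner, the other two are -/
theorem Reg.face_two (h : Reg K K1 e f) {R : Finset ι} (hR : MinR K K1 R) {d : Dart ι}
    (hd : d.1 ∈ R) (h1 : d ∉ K.inn R) (h2 : sg d ∉ K.inn R) :
    sg (sg d) ∈ K.inn R ∧ sg (sg (sg d)) ∈ K.inn R := by
  have h3 : 2 ≤ ((K.inn R).filter fun x => x.1 = d.1).card := by
    by_cases hc : ∃ x ∈ K.cut R, x.1 = d.1
    · obtain ⟨x, hx, e⟩ := hc
      exact e ▸ h.face_inner hR hx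
    refine (h.two_le_deg (hR.sub hd)).trans (card_le_card_of_injOn (fun i => (d.1, i))
      (fun i hi => ?_) fun i _ j _ e => (Prod.ext_iff.1 e).2)
    simp only [coe_filter, mem_univ, true_and, Set.mem_ofPred_eq] at hi ⊢
    exact ⟨mem_inn.2 ⟨hd, hi, by_contra fun g => hc ⟨(d.1, i), mem_cut.2 ⟨hd, g⟩, rfl⟩⟩, trivial⟩
  have h4 : ∀ y, (∀ x ∈ K.inn R, x.1 = d.1 → x = y) → False := fun y hy => by
    have := card_le_card fun x (hx : x ∈ (K.inn R).filter fun x => x.1 = d.1) =>
      mem_singleton.2 (hy x (mem_filter.1 hx).1 (mem_filter.1 hx).2)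
    rw [card_singleton] at this
    omega
  constructor <;> by_contra g
  · refine h4 (sg (sg (sg d))) fun x hx e => ?_
    rcases same_quad e with rfl | rfl | rfl | rfl <;> tauto
  · refine h4 (sg (sg d)) fun x hx e => ?_
    rcases same_quad e with rfl | rfl | rfl | rfl <;> tauto

theorem Reg.exists_face (h : Reg K K1 e f) {R : Finset ι} (hR : MinR K K1 R) :
    ∃ z : Dart ι, K.a z = z ∧ K.Inside R z ∧ (K.intr z).card ≤ 3 := by
  classical
  by_contra hn
  simp only [not_exists, not_and, not_le] at hn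
  have hV := h.su.mc.valid
  let I := univ.filter fun x : Dart ι =>
    x.1 ∈ R ∧ K.a x ≠ x ∧ K.a (sg (sg (sg x))) ≠ sg (sg (sg x))
  have n1 : 4 * K.nIn R ≤ (I.filter (K.Inside R)).card := by
    refine mul_card_image_le_card_of_maps_to (f := fun d => univ.filter fun d' => K.Fc d d')
      (fun x hx => mem_image_of_mem _ (by
        simp only [mem_filter, mem_univ, true_and] at hx ⊢
        exact hx.2)) 4 fun b hb => ?_
    obtain ⟨d, hd, rfl⟩ := mem_image.1 hb
    replace hd : K.Inside R d := (mem_filter.1 hd).2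
    obtain ⟨z, h1, h2⟩ := hV.hasFree d
    refine (hn z h2 (hd.of_fc h1)).trans_le (card_le_card fun x hx => ?_)
    replace hx := (mem_filter.1 hx).2
    have h3 := h1.trans hx.1
    simp only [I, mem_filter, mem_univ, true_and]
    refine ⟨⟨⟨hd x h3, hx.2⟩, hd.of_fc h3⟩, ?_⟩
    ext y
    simp only [mem_filter, mem_univ, true_and]
    exact ⟨h3.trans, h3.symm.trans⟩
  have n2 : I.card + 2 * (K.fr R).card ≤ 4 * R.card + (K.ds R).card := by
    have a1 := card_union_add_card_inter (K.fr R) ((K.fr R).image sg)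
    rw [card_image_of_injective _ sg.injective] at a1
    have a2 : (K.fr R ∩ (K.fr R).image sg).card ≤ (K.ds R).card :=
      card_le_card_of_injOn (fun c => sg (sg c)) (fun c hc => by
        obtain ⟨b1, b2⟩ := mem_inter.1 hc
        obtain ⟨d, hd, rfl⟩ := mem_image.1 b2
        rw [mem_fr] at b1 hd
        exact mem_ds.2 ⟨h.two d (hR.sub hd.1) hd.2 b1.2, hd.1⟩)
        fun _ _ _ _ e => sg_inj (sg_inj e)
    have a3 : (I ∪ (K.fr R ∪ (K.fr R).image sg)).card ≤ (R ×ˢ (univ : Finset (Fin 4))).card :=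
      card_le_card fun x hx => mem_product.2 ⟨by
        rcases mem_union.1 hx with hx | hx
        · exact (mem_filter.1 hx).2.1
        rcases mem_union.1 hx with hx | hx
        · exact (mem_fr.1 hx).1
        · obtain ⟨d, hd, rfl⟩ := mem_image.1 hx
          exact (mem_fr.1 hd).1, mem_univ _⟩
    rw [card_union_of_disjoint (disjoint_left.2 fun x hx hx' => by
      replace hx := (mem_filter.1 hx).2
      rcases mem_union.1 hx' with hx' | hx'
      · exact hx.2.1 (mem_fr.1 hx').2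
      · obtain ⟨d, hd, rfl⟩ := mem_image.1 hx'
        exact hx.2.2 (by rw [sg4]; exact (mem_fr.1 hd).2)), card_product, card_univ,
      Fintype.card_fin] at a3
    omega
  have n3 := hV.planar.piece_count hR.ne hR.cut fun d hd =>
    h.nb d (hR.sub (mem_cut.1 hd).1) (glued_of_cut hd)
  have two : ∀ d ∈ K.cut R, K.a (sg d) = sg d →
      sg (sg d) ∈ K.inn R ∧ sg (sg (sg d)) ∈ K.inn R := fun d hd h1 =>
    h.face_two hR (mem_cut.1 hd).1 (fun g => (mem_cut.1 hd).2 (mem_inn.1 g).2.2)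
      fun g => (mem_inn.1 g).2.1 h1
  let g : Dart ι → Dart ι := fun d => if K.a (sg d) = sg d then sg (sg d) else K.a d
  have key : ∀ x, (K.a x).1 ∈ R → K.a x ≠ x → K.a (K.phi x) ≠ K.phi x → ¬ K.Inside R x →
      K.phi x ∈ I.filter fun x => ¬ K.Inside R x := fun x a1 a2 a3 a4 =>
    mem_filter.2 ⟨mem_filter.2 ⟨mem_univ _, a1, a3, by rw [phi_apply, sg4]; exact a_glued a2⟩,
      fun g => a4 (g.of_fc (fc_phi x).symm)⟩
  have n4 : ((K.cut R).image g ∪ (K.ds R).image fun p => sg (sg (sg p))).card ≤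
      (I.filter fun x => ¬ K.Inside R x).card := by
    refine card_le_card_of_injOn K.phi (fun x hx => ?_) K.phi.injective.injOn
    rcases mem_union.1 hx with hx | hx
    · obtain ⟨d, hd, rfl⟩ := mem_image.1 hx
      have d1 := mem_cut.1 hd
      by_cases h1 : K.a (sg d) = sg d
      · simp only [g, if_pos h1]
        obtain ⟨b1, b2⟩ := two d hd h1
        rw [mem_inn] at b1 b2
        refine key _ b1.2.2 b1.2.1 (fun h2 => ?_) fun h2 =>
          d1.2 (h2 _ ((fc_a_sg d).trans (fc_free h1)).symm)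
        have pr : ∀ x, K.Vx (sg (sg d)) x → x = sg (sg d) ∨ x = K.phi (sg (sg d)) :=
          fun x => Vx.pair (by rw [sg4]; exact h1) h2
        have w := h.w4 (sg (sg d)) (by
          rintro ⟨x, hx, hx'⟩
          rcases pr x hx with rfl | rfl
          exacts [hx' (hR.sub d1.1), hx' (hR.sub b1.2.2)]) (fun g => b1.2.1 g.1) fun x hx hx' => by
          rcases pr x hx with rfl | rfl
          exacts [b2.2.1 (hV.dis_fr1 _ hx'), (h.su.mc.dis_glued hx').1 h2]
        have w1 : fanQ (K.cl (sg (sg d))) ⊆ {d.1} ∪ {(K.a (sg (sg d))).1} := fun q hq => by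
          obtain ⟨x, hx, rfl⟩ := mem_fanQ.1 hq
          rcases pr x (mem_cl.1 hx) with rfl | rfl
          exacts [mem_union_left _ (mem_singleton_self _), mem_union_right _ (mem_singleton_self _)]
        have w2 := card_le_card (fr_mono (K := K) w1)
        rw [fr_union, w] at w2
        have w3 := w2.trans (card_union_le _ _)
        have w4 := K.deg_add_fr d.1
        have w5 := K.deg_add_fr (K.a (sg (sg d))).1
        have w6 := h.two_le_deg (hR.sub b1.2.2)
        have w7 := K.deg_eq d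
        rw [if_neg (glued_of_cut hd), if_neg b1.2.1, if_neg b2.2.1] at w7
        omega
      · simp only [g, if_neg h1]
        exact key _ (by rw [K.inv]; exact d1.1) (a_glued (glued_of_cut hd))
          (by rwa [phi_a]) fun h2 => d1.2 (h2 _ (Fc.refl _))
    · obtain ⟨p, hp, rfl⟩ := mem_image.1 hx
      obtain ⟨p1, p2⟩ := mem_ds.1 hp
      have f1 := hV.dis_fr1 p p1
      have f2 := hV.dis_fr2 p p1
      obtain ⟨-, -, -, z1, z2, -⟩ := h.dz p p1 (hR.sub p2)
      have b1 := mem_inn.1 (h.face_two hR (d := sg p) p2 (fun g => (mem_inn.1 g).2.1 f1)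
        fun g => (mem_inn.1 g).2.1 f2).1
      refine key _ b1.2.2 b1.2.1 (fun h2 => ?_) fun h2 =>
        z2 ((h2.of_fc ((fc_free f1).trans (fc_free f2)).symm).mono hR.sub)
      have w := K.deg_eq (K.phi (sg (sg (sg p))))
      rw [phi_fst, z1, if_pos h2] at w
      split_ifs at w <;> omega
  rw [card_union_of_disjoint (disjoint_left.2 fun x hx hx' => by
      obtain ⟨d, hd, rfl⟩ := mem_image.1 hx
      obtain ⟨p, hp, e⟩ := mem_image.1 hx'
      obtain ⟨p1, p2⟩ := mem_ds.1 hp
      by_cases h1 : K.a (sg d) = sg d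
      · simp only [g, if_pos h1] at e
        exact glued_of_cut hd (sg_inj (sg_inj e) ▸ hV.dis_fr1 p p1)
      · simp only [g, if_neg h1] at e
        exact (mem_cut.1 hd).2 (e ▸ p2)),
    card_image_of_injective _ fun _ _ e => sg_inj (sg_inj (sg_inj e)),
    card_image_of_injOn fun d hd d' hd' e => by
      have d1 := mem_cut.1 hd
      have d2 := mem_cut.1 hd'
      by_cases h1 : K.a (sg d) = sg d <;> by_cases h2 : K.a (sg d') = sg d' <;>
        simp only [g, h1, h2, if_true, if_false] at e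
      exacts [sg_inj (sg_inj e), (d2.2 (e ▸ d1.1)).elim, (d1.2 (e ▸ d2.1)).elim, a_inj e]] at n4
  have n5 := card_filter_add_card_filter_not (s := I) (K.Inside R)
  have n6 := hR.cut
  omega

theorem Reg.face_big (h : Reg K K1 e f) {A : Finset ι} (hA : A ⊆ K1) (hb : K.Big A)
    (hc : (K.cut A).card ≤ 3) : A.Nonempty ∧ K.Cyc A := by
  have h1 : A.Nonempty ∧ 2 * A.card + 2 ≤ ∑ q ∈ A, K.deg q := by
    rcases hb with ⟨q, hq, h4⟩ | ⟨q, hq, q', hq', hne, h3, h3'⟩
    · have := h.face_sum ((erase_subset q A).trans hA)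
      rw [← add_sum_erase _ _ hq, ← card_erase_add_one hq]
      exact ⟨⟨q, hq⟩, by omega⟩
    · have hq2 := mem_erase.2 ⟨hne.symm, hq'⟩
      have := h.face_sum (((erase_subset q' _).trans (erase_subset q A)).trans hA)
      rw [← add_sum_erase _ _ hq, ← card_erase_add_one hq, ← add_sum_erase _ _ hq2,
        ← card_erase_add_one hq2]
      exact ⟨⟨q, hq⟩, by omega⟩
  obtain ⟨k, hk⟩ := K.even_inn A
  rw [sum_deg] at h1
  exact ⟨h1.1, show 2 * _ ≤ _ by omega⟩

theorem Reg.face_half (h : Reg K K1 e f) {R U : Finset ι} (hR : R ⊆ K1)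
    (hc : (K.cut U).card ≤ 3) (h4 : 4 ≤ (K.cut (R ∩ U)).card)
    (h1 : ((K.cut R).filter fun d => d.1 ∈ U).card ≤ 1) : False := by
  have h2 : K.cut (R ∩ U) ⊆ ((K.cut U).filter fun d => d.1 ∈ R ∧ (K.a d).1 ∈ R) ∪
      (K.cut R).filter fun d => d.1 ∈ U := fun d hd => by
    simp only [mem_cut, mem_inter, mem_union, mem_filter] at hd ⊢
    tauto
  have h3 := (card_le_card h2).trans (card_union_le _ _)
  have h5 := card_filter_le (K.cut U) fun d => d.1 ∈ R ∧ (K.a d).1 ∈ R
  have h6 := filter_card_eq (s := K.cut U) (p := fun d => d.1 ∈ R ∧ (K.a d).1 ∈ R) (by omega)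
  obtain ⟨d, hd⟩ := card_eq_one.1 (show ((K.cut R).filter fun d => d.1 ∈ U).card = 1 by omega)
  have h7 : ∀ x, (x.1 ∈ R ∧ (K.a x).1 ∉ R) ∧ x.1 ∈ U ↔ x = d := fun x => by
    rw [← mem_cut, ← mem_filter (p := fun d : Dart ι => d.1 ∈ U), hd, mem_singleton]
  obtain ⟨⟨d1, d2⟩, d3⟩ := (h7 d).2 rfl
  have h8 : K.cut (U \ R) = {K.a d} := by
    ext x
    rw [mem_cut, mem_sdiff, mem_sdiff, mem_singleton]
    constructor
    · rintro ⟨⟨x1, x2⟩, x3⟩
      have x4 : (K.a x).1 ∈ U := by_contra fun g => x2 (h6 x (mem_cut.2 ⟨x1, g⟩)).1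
      rw [← (h7 (K.a x)).1 ⟨⟨by tauto, by rwa [K.inv]⟩, x4⟩, K.inv]
    · rintro rfl
      rw [K.inv]
      exact ⟨⟨by_contra fun g => d2 (h6 d (mem_cut.2 ⟨d3, g⟩)).2, d2⟩, fun g => g.2 d1⟩
  have h9 := bridge_of_cut h8
  rw [K.inv] at h9
  exact h.nb d (hR d1) (fun g => d2 (by rwa [g])) h9.symm

/-- a cut with at most three edges does not split `R` into two big parts -/
theorem Reg.tri (h : Reg K K1 e f) {R : Finset ι} (hR : MinR K K1 R) {U : Finset ι}
    (hU : U ⊆ K.Q) (hc : (K.cut U).card ≤ 3) (h1 : K.Big (R ∩ U)) (h2 : K.Big (R \ U)) :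
    False := by
  have ne : ∀ A, K.Big A → 0 < A.card := fun A hA => card_pos.2 (by
    rcases hA with ⟨q, hq, -⟩ | ⟨q, hq, -⟩ <;> exact ⟨q, hq⟩)
  have c := card_sdiff_add_card_inter R U
  have key : ∀ A ⊆ R, K.Big A → A.card < R.card → 4 ≤ (K.cut A).card := fun A hA hb hl =>
    by_contra fun g => by
      obtain ⟨a, b⟩ := h.face_big (hA.trans hR.sub) hb (by omega)
      have := hR.min A (hA.trans hR.sub) a (by omega) b
      omega
  have k1 := key _ inter_subset_left h1 (by have := ne _ h2; omega)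
  have k2 := key _ sdiff_subset h2 (by have := ne _ h1; omega)
  have k3 := card_filter_add_card_filter_not (s := K.cut R) fun d => d.1 ∈ U
  have k4 := hR.cut
  by_cases k5 : ((K.cut R).filter fun d => d.1 ∈ U).card ≤ 1
  · exact h.face_half hR.sub hc k1 k5
  refine h.face_half (U := K.Q \ U) hR.sub (by rwa [card_cut_compl hU]) ?_
    ((card_le_card (monotone_filter_right _ fun d _ hd => (mem_sdiff.1 hd).2)).trans (by omega))
  rwa [← inter_sdiff_assoc, inter_eq_left.2 (hR.sub.trans h.su.sub)]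

end Pool.Agent.Lib.MP_8d6beb_co
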