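import Pool.Agent.Lib.MP_8d6beb_co.QStepA4

/-! Step A: discharging over vertices shows that the minimal cyclic piece is regular. -/

namespace Pool.Agent.Lib.MP_8d6beb_co

open Finset Cx

set_option linter.unusedSectionVars false

variable {ι : Type} [Fintype ι] [DecidableEq ι] {K : Cx ι} {K1 : Finset ι} {e f : Dart ι}

theorem stA_cl_le {Sp : Finset (Dart ι)} (h : Setup K K1 e f) (hS : stA_SpOK K K1 Sp) {u : Dart ι}
    (hu : ¬ K.Port K1 u) : ∑ c ∈ K.cl u, stA_wt K Sp c ≤ 4 := by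
  by_cases hs : K.Single u
  · have : K.cl u = {u} := by
      ext x
      rw [mem_cl, mem_singleton]
      exact ⟨fun g => Vx.single hs.1 hs.2 g, fun g => g ▸ Vx.refl _⟩
    rw [this, sum_singleton, stA_wt_single hs]
  · exact (stA_gd_np h hS hu hs).le h hS.dis

theorem stA_cl_congr {u x : Dart ι} (h : K.Vx u x) : K.cl u = K.cl x := by
  ext y
  simp only [mem_cl]
  exact ⟨fun g => h.symm.trans g, fun g => h.trans g⟩

/-- the discharging count forces equality everywhere -/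
theorem stA_tight {Sp : Finset (Dart ι)} (h : Setup K K1 e f) (hP : stA_PortOK K K1 e f Sp) :
    (∀ q ∈ K1, stA_qs K Sp q = 4 * ((K.fr {q}).card : ℤ)) ∧
      (∀ u : Dart ι, ¬ K.Port K1 u → ∑ c ∈ K.cl u, stA_wt K Sp c = 4) ∧
      ∀ u : Dart ι, u.1 ∈ K1 → K.Port K1 u → ∃ C del w0, stA_Gd K K1 e f Sp C del w0 ∧ u ∈ C ∧
        (w0 : ℤ) ≤ ∑ c ∈ C, stA_wt K Sp c ∧ (col e = col f → C = stA_c1 K K1 u ∧ w0 ≠ 2) := by
  classical
  obtain ⟨B, hB, hB'⟩ := hP.side
  have hin : ∀ u x : Dart ι, ¬ K.Port K1 u → K.Vx u x → x.1 ∈ K1 := by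
    intro u x hu hx
    by_contra t
    exact hu ⟨x, hx, t⟩
  set L := (K.fr K1).filter (fun c => ¬ K.Port K1 c) with hL
  have memL : ∀ l, l ∈ L ↔ (l.1 ∈ K1 ∧ K.a l = l) ∧ ¬ K.Port K1 l := by
    intro l
    simp [hL]
  have hsplit : univ.filter (fun c : Dart ι => c.1 ∈ K1) =
      stA_ports K K1 ∪ L.biUnion (fun l => K.cl l) := by
    ext c
    simp only [mem_filter, mem_univ, true_and, mem_union, stA_mem_ports, mem_biUnion, mem_cl]
    constructor
    · intro hc
      by_cases g : K.Port K1 c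
      · exact Or.inl ⟨hc, g⟩
      · obtain ⟨l, hl, hv⟩ := h.mc.valid.exists_last c
        exact Or.inr ⟨l, (memL l).2 ⟨⟨hin c l g hv, hl⟩, fun t => g (stA_port_vx t hv.symm)⟩,
          hv.symm⟩
    · rintro (g | ⟨l, hl, hv⟩)
      · exact g.1
      · exact hin l c ((memL l).1 hl).2 hv
  have hdisj : Disjoint (stA_ports K K1) (L.biUnion (fun l => K.cl l)) := by
    refine disjoint_left.2 fun c a b => ?_
    obtain ⟨l, hl, hv⟩ := mem_biUnion.1 b
    exact ((memL l).1 hl).2 (stA_port_vx (stA_mem_ports.1 a).2 (mem_cl.1 hv).symm)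
  have hpw : (L : Set (Dart ι)).PairwiseDisjoint (fun l => K.cl l) := by
    intro l hl l' hl' hne
    refine disjoint_left.2 fun c a b => hne ?_
    exact last_unique ((memL l).1 hl).1.2 ((memL l').1 hl').1.2
      ((mem_cl.1 a).trans (mem_cl.1 b).symm)
  have total : ∑ q ∈ K1, stA_qs K Sp q =
      ∑ c ∈ stA_ports K K1, stA_wt K Sp c + ∑ l ∈ L, ∑ c ∈ K.cl l, stA_wt K Sp c := by
    rw [← sum_biUnion hpw, ← sum_union hdisj, ← hsplit, stA_sum_darts]
    rfl
  have lower : ∀ q ∈ K1, 4 * ((K.fr {q}).card : ℤ) ≤ stA_qs K Sp q :=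
    fun q hq => stA_qs_ge h.mc (h.sub hq)
  have upper : ∀ l ∈ L, ∑ c ∈ K.cl l, stA_wt K Sp c ≤ 4 :=
    fun l hl => stA_cl_le h hP.spok ((memL l).1 hl).2
  have s1 := sum_le_sum lower
  have s2 := sum_le_sum upper
  have c1 : ∑ q ∈ K1, 4 * ((K.fr {q}).card : ℤ) = 4 * ((K.fr K1).card : ℤ) := by
    rw [← mul_sum, ← Nat.cast_sum, ← card_fr_eq_sum]
  have c2 : ∑ _l ∈ L, (4 : ℤ) = 4 * (L.card : ℤ) := by
    rw [sum_const, nsmul_eq_mul, mul_comm]
  have c3 : (stA_frP K K1).card + L.card = (K.fr K1).card := by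
    have : stA_frP K K1 = (K.fr K1).filter (fun c => K.Port K1 c) := by
      ext c
      simp [stA_mem_frP]
    rw [this, hL]
    exact card_filter_add_card_filter_not _
  have b1 := hB.1
  zify at c3 hB'
  have e1 : ∑ q ∈ K1, 4 * ((K.fr {q}).card : ℤ) = ∑ q ∈ K1, stA_qs K Sp q := by linarith
  have e2 : ∑ l ∈ L, ∑ c ∈ K.cl l, stA_wt K Sp c = ∑ _l ∈ L, (4 : ℤ) := by linarith
  have e3 : (B : ℤ) ≤ ∑ c ∈ stA_ports K K1, stA_wt K Sp c := by linarith
  refine ⟨fun q hq => ((sum_eq_sum_iff_of_le lower).1 e1 q hq).symm, fun u hu => ?_,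
    fun u h1 h2 => hB.2 e3 u (stA_mem_ports.2 ⟨h1, h2⟩)⟩
  obtain ⟨l, hl, hv⟩ := h.mc.valid.exists_last u
  rw [stA_cl_congr hv]
  exact (sum_eq_sum_iff_of_le upper).1 e2 l
    ((memL l).2 ⟨⟨hin u l hu hv, hl⟩, fun t => hu (stA_port_vx t hv.symm)⟩)

theorem stA_reg {Sp : Finset (Dart ι)} (h : Setup K K1 e f) (hP : stA_PortOK K K1 e f Sp) :
    Reg K K1 e f := by
  obtain ⟨t1, t2, t3⟩ := stA_tight h hP
  have hS := hP.spok
  -- every pivot in the piece is special
  have E1 : ∀ p ∈ K.dis, p.1 ∈ K1 → p ∈ Sp := by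
    intro p hp hm
    by_contra g
    have := t1 _ hm
    rw [stA_qs_dis h.mc hp, if_neg g, stA_fr_dis h.mc hp] at this
    norm_num at this
  -- no leaf and no quad of type L
  have E2 : ∀ d : Dart ι, d.1 ∈ K1 → K.a d = d → K.a (sg d) = sg d → sg (sg (sg d)) ∈ K.dis := by
    intro d hm a0 a1
    by_cases hc : stA_ND K d.1
    · have := (stA_qs_nd (Sp := Sp) h.mc (h.sub hm) hc).2 a0 a1
      rw [t1 _ hm] at this
      exact absurd this (lt_irrefl _)
    · unfold stA_ND at hc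
      push Not at hc
      obtain ⟨p, hp, hq⟩ := hc
      exact stA_pivot h.mc a0 a1 hp hq ▸ hp
  have noleaf : ∀ d : Dart ι, d.1 ∈ K1 → K.a d ≠ d → K.deg d.1 ≠ 1 := by
    intro d hm g h1
    have h0 := deg_eq (K := K) d
    rw [if_neg g] at h0
    have a1 : K.a (sg d) = sg d := by
      by_contra t
      rw [if_neg t] at h0
      omega
    have a2 : K.a (sg (sg d)) = sg (sg d) := by
      by_contra t
      rw [if_neg t] at h0
      omega
    have := stA_deg_dis h.mc (E2 (sg d) hm a1 a2)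
    simp only [sg_fst] at this
    omega
  have wnd : ∀ c : Dart ι, c.1 ∈ K1 → stA_ND K c.1 → ¬ K.Single c →
      stA_wt K Sp c = ((K.fr {c.1}).card : ℤ) := by
    intro c hm hc hs
    rw [stA_wt_nd hc, if_neg hs, if_neg]
    intro g
    exact hc _ (E2 (sg (sg c)) hm g.1 g.2.1) rfl
  -- weights are not negative, and vanish only at pivots and in quads of degree four
  have wpos : ∀ c : Dart ι, c.1 ∈ K1 → 0 ≤ stA_wt K Sp c ∧
      (stA_wt K Sp c ≤ 0 → c ∈ Sp ∨ K.deg c.1 = 4) := by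
    intro c hm
    by_cases hs : K.Single c
    · rw [stA_wt_single hs]
      norm_num
    by_cases hc : stA_ND K c.1
    · rw [wnd c hm hc hs]
      have := deg_add_fr (K := K) c.1
      refine ⟨Nat.cast_nonneg _, fun g => Or.inr ?_⟩
      omega
    · unfold stA_ND at hc
      push Not at hc
      obtain ⟨p, hp, hq⟩ := hc
      have hsp := E1 p hp (hq ▸ hm)
      rcases same_quad hq.symm with r | r | r | r
      · rw [r, stA_wt_dis0 h.mc hp, if_pos hsp]
        exact ⟨le_refl _, fun _ => Or.inl hsp⟩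
      · rw [r, stA_wt_dis1 h.mc hp, if_pos hsp]
        norm_num
      · exact absurd (r ▸ stA_single2 h.mc hp) hs
      · rw [r, stA_wt_dis3 h.mc hp, if_pos hsp]
        norm_num
  -- a class without pivots in its fan weighs the number of free sides of the fan
  have wfan : ∀ C del w0, stA_Gd K K1 e f Sp C del w0 → (∀ c ∈ C, stA_ND K c.1) →
      ∑ c ∈ C, stA_wt K Sp c = ((K.fr (fanQ C)).card : ℤ) := by
    intro C del w0 hG hn
    have two : ∀ c ∈ C, sg (sg c) ∈ C → (K.fr {c.1}).card = 0 := by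
      intro c hc hc2
      have hm := hG.cls.sub c hc
      by_cases h4 : K.deg c.1 = 4
      · have := deg_add_fr (K := K) c.1
        omega
      · rcases (stA_opp h.mc (h.sub hm) (hG.cls.fc hc hc2) (hG.nos c hc) (hG.nos _ hc2) h4).2 with
          ⟨a0, a1⟩ | ⟨a2, a3⟩
        · exact (hn c hc _ (E2 c hm a0 a1) rfl).elim
        · exact (hn c hc _ (E2 (sg (sg c)) hm a2 a3) rfl).elim
    have w : ∀ c ∈ C, stA_wt K Sp c = ((K.fr {c.1}).card : ℤ) :=
      fun c hc => wnd c (hG.cls.sub c hc) (hn c hc) (hG.nos c hc)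
    rw [card_fr_eq_sum, Nat.cast_sum]
    apply le_antisymm
    · refine stA_fan_le hG.hcol _ _ (fun c hc _ => (w c hc).le) (fun c hc hc2 => ?_)
      rw [w c hc, w _ hc2, sg_fst, sg_fst, two c hc hc2]
      norm_num
    · have := stA_fan_le hG.hcol (fun c => - stA_wt K Sp c) (fun q => - ((K.fr {q}).card : ℤ))
        (fun c hc _ => by rw [w c hc]) (fun c hc hc2 => by
          rw [w c hc, w _ hc2, sg_fst, sg_fst, two c hc hc2]
          norm_num)
      rw [sum_neg_distrib, sum_neg_distrib] at this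
      linarith
  have zout : ∀ C del, Cls K K1 e f C del → ∀ w ∈ stA_Zs K C, ¬ K.Inside K1 w := by
    intro C del hC w hw hin
    obtain ⟨hw0, a0, a1, -⟩ := mem_filter.1 hw
    have hm := hC.sub w hw0
    obtain ⟨m, hm1, hm2⟩ := hS.mark _ (E1 _ (E2 w hm a0 a1) hm)
    rw [sg4] at hm2
    exact (mem_sdiff.1 hm1).2 (hin m hm2.fc.symm)
  refine ⟨h, ?_, E2, ?_, ?_, ?_, ?_, ?_, ?_⟩
  · intro d hm g hb
    rcases h.mc.bridge g hb with r | r
    · exact noleaf d hm g r
    · by_cases g' : (K.a d).1 ∈ K1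
      · exact noleaf _ g' (a_glued g) r
      · have h1 : K1 ≠ K.Q := fun t => g' (t ▸ a_mem (h.sub hm))
        have hE := stA_ee h h1
        rcases hE.eq_of_cut hm g' with r | r
        · exact hE.nb (r ▸ hb)
        · exact hE.swap.nb (r ▸ hb)
  · intro p hp hm
    have hsp := E1 p hp hm
    have g := h.mc.dis_glued hp
    have np : ¬ K.Port K1 p := hS.np p hsp p (Fc.refl p) hm
    have m1 : (K.a p).1 ∈ K1 := by
      by_contra t
      exact np ⟨K.phi p, vx_phi g.1, t⟩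
    have m3 : (K.a (sg (sg (sg p)))).1 ∈ K1 := by
      by_contra t
      refine np ⟨_, ?_, t⟩
      have := vx_a_sg g.2
      rw [sg4] at this
      exact this.symm
    obtain ⟨m, hm1, hm2⟩ := hS.mark p hsp
    have port1 : K.Port K1 (sg p) := ⟨m, hm2.symm, (mem_sdiff.1 hm1).2⟩
    obtain ⟨C, del, hG, c1, c3⟩ := hP.sp p hsp
    have hle := hG.le h hS.dis
    have zero : ∀ x ∈ C, x.1 ≠ p.1 → K.Port K1 x → K.deg x.1 = 4 := by
      intro x hx hne hpx
      have hsub : {x, sg p, sg (sg (sg p))} ⊆ C := by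
        intro y hy
        simp only [mem_insert, mem_singleton] at hy
        rcases hy with rfl | rfl | rfl
        exacts [hx, c1, c3]
      have hs := sum_le_sum_of_subset_of_nonneg (f := stA_wt K Sp) hsub
        (fun y hy _ => (wpos y (hG.cls.sub y hy)).1)
      have n1 : x ∉ ({sg p, sg (sg (sg p))} : Finset (Dart ι)) := by
        simp only [mem_insert, mem_singleton]
        rintro (r | r) <;> exact hne (by rw [r]; rfl)
      rw [sum_insert n1, sum_pair (sg2_ne (sg p)).symm, stA_wt_dis1 h.mc hp, stA_wt_dis3 h.mc hp,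
        if_pos hsp] at hs
      rcases (wpos x (hG.cls.sub x hx)).2 (by push_cast at hle; linarith) with r | r
      · exact absurd hpx (hS.np x r x (Fc.refl x) (hG.cls.sub x hx))
      · exact r
    refine ⟨m1, ?_, m3, ?_, fun hin => (mem_sdiff.1 hm1).2 (hin m hm2.fc.symm), hS.np p hsp⟩
    · refine zero (K.a p) (hG.cls.closed _ c1 _ ?_) (h.mc.valid.a_fst_ne g.1)
        (stA_port_vx port1 (vx_a_sg g.1).symm)
      have := res_vx_step (K := K) (U := K1) ∅ (c := K.a p) m1 (by rw [K.inv]; exact hm)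
        (a_glued g.1)
      rw [phi_a] at this
      exact this.symm
    · exact zero (K.phi (sg (sg (sg p)))) (hG.cls.closed _ c3 _ (res_vx_step ∅ hm m3 g.2))
        (h.mc.valid.a_fst_ne g.2) (stA_port_vx (hS.port3 p hsp) (vx_phi g.2))
  · intro p hp p' hp' hm hm' hc
    exact hS.uniq p (E1 p hp hm) p' (E1 p' hp' hm') hc
  · intro c hc hs hd
    have hG := stA_gd_np h hS hc hs
    have := wfan _ _ _ hG (fun x hx p hp hq => ?_)
    · rw [t2 c hc] at this
      exact_mod_cast this.symm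
    · have hv := mem_cl.1 hx
      have hsp := E1 p hp (hq ▸ hG.cls.sub x hx)
      rcases same_quad hq.symm with r | r | r | r
      · exact hd x hv (r ▸ hp)
      · obtain ⟨m, hm1, hm2⟩ := hS.mark p hsp
        exact hc ⟨m, hv.trans (r ▸ hm2.symm), (mem_sdiff.1 hm1).2⟩
      · exact hG.nos x hx (r ▸ stA_single2 h.mc hp)
      · exact hc (stA_port_vx (r ▸ hS.port3 p hsp) hv.symm)
  · intro h1 hc c hm hp
    obtain ⟨C, del, w0, hG, -, hw, hC⟩ := t3 c hm hp
    obtain ⟨rfl, hw0⟩ := hC hc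
    have hle := hG.le h hS.dis
    have := wfan _ _ _ hG (fun x hx p hp hq => by
      have := E1 p hp (hq ▸ hG.cls.sub x hx)
      rw [hP.spc h1 hc] at this
      exact absurd this (notMem_empty _))
    intro g
    rw [g] at this
    omega
  · intro u hm hs
    by_cases hp : K.Port K1 u
    · obtain ⟨C, del, w0, hG, hu, hw, -⟩ := t3 u hm hp
      exact ⟨C, del, hG.cls, hu, fun c hc => hG.hcol c hc u hu, fun t => absurd hp t,
        hG.pick h hS.dis hw (zout C del hG.cls)⟩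
    · have hG := stA_gd_np h hS hp hs
      have hu : u ∈ K.cl u := mem_cl.2 (Vx.refl u)
      exact ⟨_, false, hG.cls, hu, fun c hc => hG.hcol c hc u hu, fun _ => ⟨rfl, rfl⟩,
        hG.pick h hS.dis (t2 u hp).ge (zout _ _ hG.cls)⟩
  · intro p hp hm
    obtain ⟨m, hm1, hm2⟩ := hS.mark p (E1 p hp hm)
    exact ⟨⟨m, hm2.symm, (mem_sdiff.1 hm1).2⟩, hS.port3 p (E1 p hp hm)⟩

theorem stA_reg_swap (h : Reg K K1 f e) : Reg K K1 e f := by
  refine ⟨h.su.swap, h.nb, h.two, h.dz, h.duniq, h.w4, fun h1 hc => h.r4 h1 hc.symm, ?_,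
    h.dport⟩
  intro u hm hs
  obtain ⟨C, del, a, b⟩ := h.pick u hm hs
  exact ⟨C, del, a.swap, b⟩

theorem Setup.reg (h : Setup K K1 e f) : Reg K K1 e f := by
  by_cases h1 : K1 = K.Q
  · exact stA_reg h (stA_portok_all h h1)
  · rcases (h.port.resolve_left h1).2.2.2.2.2 with ⟨a, b, c⟩ | ⟨a, b, c⟩ | ⟨a, b, c⟩
    · obtain ⟨Sp, hP⟩ := stA_portok_long h h1 a b c
      exact stA_reg h hP
    · exact stA_reg h (stA_portok_short h h1 a b c)
    · exact stA_reg_swap (stA_reg h.swap (stA_portok_short h.swap h1 a b c))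

end Pool.Agent.Lib.MP_8d6beb_co
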