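import Pool.Agent.Lib.MP_8d6beb_co.QStepB7
import Pool.Agent.Lib.MP_8d6beb_co.QStepA
import Pool.Agent.Lib.MP_8d6beb_co.QCore

/-! There is no minimal counterexample. -/

namespace Pool.Agent.Lib.MP_8d6beb_co

open Finset Cx

set_option linter.unusedSectionVars false

variable {ι : Type} [Fintype ι] [DecidableEq ι] {K : Cx ι} {K1 : Finset ι} {e f : Dart ι}

theorem intr_congr {z z' : Dart ι} (h : K.Fc z z') : K.intr z' = K.intr z := by
  ext x
  simp only [mem_intr]
  exact ⟨fun g => ⟨h.trans g.1, g.2⟩, fun g => ⟨h.symm.trans g.1, g.2⟩⟩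

theorem Reg.false (h : Reg K K1 e f) : False := by
  have hK := h.valid
  obtain ⟨R, hR⟩ := h.exists_minR
  obtain ⟨z0, z1, z2, z3⟩ := h.exists_face hR
  have hz : K.Inside K1 z0 := z2.mono hR.sub
  by_cases nd : ∀ p ∈ K.dis, ¬ K.Fc z0 p
  swap
  · obtain ⟨p, hp, fp⟩ : ∃ p ∈ K.dis, K.Fc z0 p := by
      by_contra g
      exact nd (fun p a b => g ⟨p, a, b⟩)
    obtain ⟨g0, g3⟩ := h.su.mc.dis_glued hp
    obtain ⟨_, d1, _, d3, _⟩ := h.dz p hp (hz p fp)
    have i0 : p ∈ K.intr z0 := mem_intr.2 ⟨fp, g0, g3⟩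
    have i1 : K.phi p ∈ K.intr z0 :=
      mem_intr.2 ⟨fp.trans (fc_phi p), glued_of_deg4 d1, glued_of_deg4 d1⟩
    have i3 : K.a (sg (sg (sg p))) ∈ K.intr z0 :=
      mem_intr.2 ⟨fp.trans (fc_pred p), glued_of_deg4 d3, glued_of_deg4 d3⟩
    have n1 : p ≠ K.phi p := fun g => hK.a_fst_ne g0 (congrArg (fun y => y.1) g.symm :)
    have n3 : p ≠ K.a (sg (sg (sg p))) := fun g =>
      hK.a_fst_ne g3 (congrArg (fun y => y.1) g.symm :)
    have n2 : K.phi p ≠ K.a (sg (sg (sg p))) := fun g => by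
      obtain ⟨l, l1, l2⟩ := hK.hasFree p
      have := Fc.ind (P := fun x => x = p ∨ x = K.phi p) (by
        rintro x (rfl | rfl)
        · exact Or.inr rfl
        · left; rw [g, phi_pred]) l1 (Or.inl rfl)
      rcases this with rfl | rfl
      · exact g0 l2
      · exact glued_of_deg4 (d := K.phi p) d1 l2
    have s : ({p, K.phi p, K.a (sg (sg (sg p)))} : Finset (Dart ι)) = K.intr z0 := by
      refine eq_of_subset_of_card_le (fun x hx => ?_) ?_
      · simp only [mem_insert, mem_singleton] at hx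
        rcases hx with rfl | rfl | rfl <;> assumption
      · rw [card_insert_of_notMem (by simp [n1, n3]), card_pair n2]; exact z3
    refine h.caseG hz z1 (col_lt p) (fun x hx => ?_)
    rw [← s] at hx
    simp only [mem_insert, mem_singleton] at hx
    rcases hx with rfl | rfl | rfl
    · rfl
    · exact (hK.col_vx (vx_phi g0)).symm
    · exact (hK.col_vx (vx_pred g3)).symm
  obtain ⟨z, zi, zu⟩ : ∃ z ∈ K.intr z0, ∀ x ∈ K.intr z0, col x = col z → x = z := by
    by_contra g
    have two : ∀ z ∈ K.intr z0, ∃ x ∈ K.intr z0, col x = col z ∧ x ≠ z := by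
      intro z hz
      by_contra g'
      exact g ⟨z, hz, fun x a b => by_contra (fun c => g' ⟨x, a, b, c⟩)⟩
    by_cases g0 : ∀ x ∈ K.intr z0, col x = 0
    · exact h.caseG hz z1 (by norm_num) g0
    by_cases g1 : ∀ x ∈ K.intr z0, col x = 1
    · exact h.caseG hz z1 (by norm_num) g1
    obtain ⟨a, a1, a2⟩ : ∃ x ∈ K.intr z0, col x ≠ 0 := by
      by_contra w
      exact g0 (fun x hx => by_contra (fun c => w ⟨x, hx, c⟩))
    obtain ⟨b, b1, b2⟩ : ∃ x ∈ K.intr z0, col x ≠ 1 := by
      by_contra w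
      exact g1 (fun x hx => by_contra (fun c => w ⟨x, hx, c⟩))
    obtain ⟨a', a3, a4, a5⟩ := two a a1
    obtain ⟨b', b3, b4, b5⟩ := two b b1
    have c1 := col_lt a
    have c2 := col_lt b
    have n1 : a ≠ b := fun w => by rw [w] at a2; omega
    have n2 : a ≠ b' := fun w => by rw [← w] at b4; omega
    have n3 : a' ≠ b := fun w => by rw [w] at a4; omega
    have n4 : a' ≠ b' := fun w => by rw [w] at a4; omega
    have s : ({a, a', b, b'} : Finset (Dart ι)) ⊆ K.intr z0 := by
      intro x hx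
      simp only [mem_insert, mem_singleton] at hx
      rcases hx with rfl | rfl | rfl | rfl <;> assumption
    have := card_le_card s
    rw [card_insert_of_notMem (by simp [n1, n2, a5.symm]), card_insert_of_notMem (by simp [n3, n4]),
      card_pair b5.symm] at this
    omega
  have fz := (mem_intr.1 zi).1
  have hzR := z2.of_fc fz
  rw [← intr_congr fz] at zi zu z3
  have nd' : ∀ p ∈ K.dis, ¬ K.Fc z p := fun p a b => nd p a (fz.trans b)
  have d3 := h.deg_intr (hzR.mono hR.sub) nd' zi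
  have d4 := deg_le_four (K := K) z.1
  by_cases g : K.deg z.1 = 4
  · exact h.caseZ hR hzR zi zu nd' g z3
  · exact h.caseT1 hR hzR zi zu nd' (by omega)

theorem no_mc (K : Cx ι) : ¬ MC K := fun h => by
  obtain ⟨K1, e, f, hS⟩ := h.exists_setup
  exact hS.reg.false

/-- every connected quad complex of genus zero can be covered within the bound -/
theorem core_conn (K : Cx ι) (hK : K.Valid) (hc : K.Conn) : K.Good :=
  good_of_no_mc no_mc K hK hc

end Pool.Agent.Lib.MP_8d6beb_co
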