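import Pool.Agent.Lib.MP_8d6beb_co.QBasic

/-! Sub-complexes, gluing, planarity and cuts. -/

namespace Pool.Agent.Lib.MP_8d6beb_co

open Finset

set_option linter.unusedSectionVars false

variable {ι : Type} [Fintype ι] [DecidableEq ι]

namespace Cx

variable {K : Cx ι}

/-! ### sub-complexes -/

@[simp] theorem res_Q (U : Finset ι) (M : Finset (Dart ι)) : (K.res U M).Q = U := rfl

@[simp] theorem res_dis (U : Finset ι) (M : Finset (Dart ι)) : (K.res U M).dis = K.ds U := rfl

@[simp] theorem res_mrk (U : Finset ι) (M : Finset (Dart ι)) : (K.res U M).mrk = M := rfl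

theorem res_a (U : Finset ι) (M : Finset (Dart ι)) (d : Dart ι) :
    (K.res U M).a d = if d.1 ∈ U ∧ (K.a d).1 ∈ U then K.a d else d := rfl

theorem res_a_in {U : Finset ι} (M : Finset (Dart ι)) {d : Dart ι} (h1 : d.1 ∈ U)
    (h2 : (K.a d).1 ∈ U) : (K.res U M).a d = K.a d := by
  rw [res_a, if_pos ⟨h1, h2⟩]

theorem res_a_out {U : Finset ι} (M : Finset (Dart ι)) {d : Dart ι}
    (h : ¬ (d.1 ∈ U ∧ (K.a d).1 ∈ U)) : (K.res U M).a d = d := by
  rw [res_a, if_neg h]

theorem res_glued {U : Finset ι} {M : Finset (Dart ι)} {d : Dart ι} :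
    (K.res U M).a d ≠ d ↔ d.1 ∈ U ∧ (K.a d).1 ∈ U ∧ K.a d ≠ d := by
  rw [res_a]
  by_cases h : d.1 ∈ U ∧ (K.a d).1 ∈ U
  · rw [if_pos h]
    exact ⟨fun g => ⟨h.1, h.2, g⟩, fun g => g.2.2⟩
  · rw [if_neg h]
    exact ⟨fun g => absurd rfl g, fun g => absurd ⟨g.1, g.2.1⟩ h⟩

theorem res_vx_marks (U : Finset ι) (M M' : Finset (Dart ι)) :
    (K.res U M).Vx = (K.res U M').Vx := rfl

theorem res_fc_marks (U : Finset ι) (M M' : Finset (Dart ι)) :
    (K.res U M).Fc = (K.res U M').Fc := rfl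

theorem planar_res_phi {U : Finset ι} (M : Finset (Dart ι)) {d : Dart ι} (h1 : d.1 ∈ U)
    (h2 : (K.a d).1 ∈ U) : (K.res U M).phi d = K.phi d := by
  rw [phi_apply, phi_apply, res_a_in M h1 h2]

theorem planar_res_free {U : Finset ι} (M : Finset (Dart ι)) {d : Dart ι} (h : K.a d = d) :
    (K.res U M).a d = d := by
  by_contra g
  exact (res_glued.1 g).2.2 h

theorem planar_res_cut {U : Finset ι} (M : Finset (Dart ι)) {d : Dart ι} (h : d ∈ K.cut U) :
    (K.res U M).a d = d :=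
  res_a_out M (fun g => (mem_cut.1 h).2 g.2)

theorem vx_of_res {U : Finset ι} {M : Finset (Dart ι)} {c c' : Dart ι}
    (h : (K.res U M).Vx c c') : K.Vx c c' := by
  refine Relation.EqvGen.mono ?_ _ _ h
  rintro x y ⟨h1, rfl⟩
  obtain ⟨g1, g2, g3⟩ := res_glued.1 h1
  exact ⟨g3, planar_res_phi M g1 g2⟩

theorem lk_of_res_vx {U : Finset ι} {M : Finset (Dart ι)} {c c' : Dart ι}
    (h : (K.res U M).Vx c c') : K.Lk U c c' := by
  refine Relation.EqvGen.mono ?_ _ _ h
  rintro x y ⟨h1, rfl⟩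
  obtain ⟨g1, g2, -⟩ := res_glued.1 h1
  rw [planar_res_phi M g1 g2]
  exact ⟨g1, g2, rfl⟩

theorem res_vx_mono {U U' : Finset ι} (hU : U ⊆ U') {M M' : Finset (Dart ι)} {c c' : Dart ι}
    (h : (K.res U M).Vx c c') : (K.res U' M').Vx c c' := by
  refine Relation.EqvGen.mono ?_ _ _ h
  rintro x y ⟨h1, rfl⟩
  obtain ⟨g1, g2, g3⟩ := res_glued.1 h1
  refine ⟨res_glued.2 ⟨hU g1, hU g2, g3⟩, ?_⟩
  rw [planar_res_phi M g1 g2, planar_res_phi M' (hU g1) (hU g2)]

theorem res_vx_step {U : Finset ι} (M : Finset (Dart ι)) {c : Dart ι} (h1 : c.1 ∈ U)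
    (h2 : (K.a c).1 ∈ U) (h3 : K.a c ≠ c) : (K.res U M).Vx c (K.phi c) := by
  rw [← planar_res_phi M h1 h2]
  exact vx_phi (res_glued.2 ⟨h1, h2, h3⟩)

/-- a vertex all of whose corners lie in `U` is a vertex of the sub-complex -/
theorem res_vx_of_vx {U : Finset ι} (M : Finset (Dart ι)) {c c' : Dart ι}
    (hU : ∀ x, K.Vx c x → x.1 ∈ U) (h : K.Vx c c') : (K.res U M).Vx c c' := by
  have key := Vx.ind (K := K) (P := fun x => K.Vx c x ∧ (K.res U M).Vx c x) (fun x hx => ?_) h
  · exact (key.1 ⟨Vx.refl c, Vx.refl c⟩).2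
  · constructor
    · rintro ⟨g1, g2⟩
      have g3 := g1.trans (vx_phi hx)
      exact ⟨g3, g2.trans (res_vx_step M (hU x g1) (hU (K.phi x) g3) hx)⟩
    · rintro ⟨g1, g2⟩
      have g3 := g1.trans (vx_phi hx).symm
      exact ⟨g3, g2.trans (res_vx_step M (hU x g3) (hU (K.phi x) g1) hx).symm⟩

theorem res_fc_of_lk {U : Finset ι} (M : Finset (Dart ι)) {x y : Dart ι} (h : K.Lk U x y) :
    (K.res U M).Fc x y := by
  induction h with
  | rel x y g =>
    obtain ⟨g1, g2, rfl⟩ := g
    rw [← planar_res_phi M g1 g2]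
    exact fc_phi _
  | refl x => exact Fc.refl _
  | symm x y _ ih => exact ih.symm
  | trans x y z _ _ ih ih' => exact ih.trans ih'

theorem res_fc_of_inside {U : Finset ι} (M : Finset (Dart ι)) {x : Dart ι} (h : K.Inside U x)
    (y : Dart ι) : (K.res U M).Fc x y ↔ K.Fc x y := by
  constructor
  · intro g
    refine Fc.ind (P := fun y => K.Fc x y) (fun z hz => ?_) g (Fc.refl x)
    have g1 := hz.trans (fc_phi z)
    rw [planar_res_phi M (h z hz) (h (K.phi z) g1)]
    exact g1
  · intro g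
    exact res_fc_of_lk M (h.lk g)

theorem res_fr (U : Finset ι) (M : Finset (Dart ι)) :
    (K.res U M).fr U = K.fr U ∪ K.cut U := by
  ext d
  simp only [mem_fr, mem_union, mem_cut]
  constructor
  · rintro ⟨h1, h2⟩
    by_cases g : (K.a d).1 ∈ U
    · left
      rw [res_a_in M h1 g] at h2
      exact ⟨h1, h2⟩
    · exact Or.inr ⟨h1, g⟩
  · rintro (⟨h1, h2⟩ | ⟨h1, h2⟩)
    · exact ⟨h1, planar_res_free M h2⟩
    · exact ⟨h1, res_a_out M (fun g => h2 g.2)⟩

theorem res_W (U : Finset ι) (M : Finset (Dart ι)) :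
    (K.res U M).W = K.Wp U + 6 * M.card := by
  have hd : Disjoint (K.fr U) (K.cut U) := by
    rw [disjoint_left]
    intro d h1 h2
    exact glued_of_cut h2 (mem_fr.1 h1).2
  unfold W Wp
  rw [res_Q, res_dis, res_mrk, res_fr, card_union_of_disjoint hd]
  omega

theorem res_conn {U : Finset ι} (M : Finset (Dart ι)) : (K.res U M).Conn ↔ K.ConnOn U := by
  unfold Conn ConnOn
  rw [res_Q]
  constructor
  · intro h T hT hne hc
    refine h T hT hne (fun d h1 h2 => ?_)
    by_cases g : (K.a d).1 ∈ U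
    · rw [res_a_in M (hT h1) g]
      exact hc d h1 g
    · rw [res_a_out M (fun g' => g g'.2)]
      exact h1
  · intro h T hT hne hc
    refine h T hT hne (fun d h1 h2 => ?_)
    have := hc d h1
    rw [res_a_in M (hT h1) h2] at this
    exact this h2

/-- planarity as a property of the gluing map alone -/
def planarPl (a : Dart ι → Dart ι) : Prop :=
  ∀ Z : Dart ι → ZMod 2, (∀ d, Z (a d) = Z d) → (∀ d, a d = d → Z d = 0) →
    (∀ k : Dart ι → ZMod 2, (∀ d, k (sg (a d)) = k d) → ∑ d, k d * Z d = 0) →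
    ∃ f : ι → ZMod 2, ∀ d, Z d = f d.1 + f (a d).1

theorem planar_iff_pl : K.Planar ↔ planarPl K.a := Iff.rfl

theorem planar_z2 (u v u' v' : ZMod 2) (h : u ≠ v) (h' : u' ≠ v') : u + u' = v + v' := by
  revert u v u' v'; decide

theorem planar_z2_self (u : ZMod 2) : u + u = 0 := by
  revert u; decide

theorem planar_z2_ne (u v : ZMod 2) (h : u ≠ v) : u + v = 1 := by
  revert u v; decide

theorem planar_z2_eq (u v : ZMod 2) (h : u + v = 0) : u = v := by
  revert u v; decide

theorem planar_sum_two {R : Type} [CommRing R] (k : Dart ι → R) (x y : Dart ι) (hxy : x ≠ y)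
    (c : R) : ∑ d, k d * (if d = x ∨ d = y then c else 0) = (k x + k y) * c := by
  have e : ∀ d, k d * (if d = x ∨ d = y then c else 0) =
      (if d = x then k x * c else 0) + (if d = y then k y * c else 0) := by
    intro d
    by_cases h1 : d = x
    · subst h1
      simp [hxy]
    · by_cases h2 : d = y
      · subst h2
        simp [h1]
      · simp [h1, h2]
  simp only [e, sum_add_distrib, sum_ite_eq', mem_univ, if_true]
  ring

theorem planar_unglue {a : Dart ι → Dart ι} (inv : ∀ d, a (a d) = d) (h : planarPl a)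
    (x : Dart ι) : planarPl (fun d => if d = x ∨ a d = x then d else a d) := by
  by_cases hx : a x = x
  · have e : (fun d => if d = x ∨ a d = x then d else a d) = a := by
      funext d
      split_ifs with g
      · rcases g with g | g
        · rw [g, hx]
        · have : d = x := by rw [← inv d, g, hx]
          rw [this, hx]
      · rfl
    rw [e]
    exact h
  have hax : ∀ d, a d = x ↔ d = a x := fun d =>
    ⟨fun g => by rw [← g, inv], fun g => by rw [g, inv]⟩
  intro Z hZ1 hZ2 hZ3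
  simp only [hax] at hZ1 hZ2 hZ3 ⊢
  have Zx : Z x = 0 := hZ2 x (by simp)
  have Zy : Z (a x) = 0 := hZ2 (a x) (by simp)
  have key : ∀ k : Dart ι → ZMod 2, (∀ d, k (sg (a d)) = k d) → k x = k (a x) →
      ∑ d, k d * Z d = 0 := by
    intro k hk he
    refine hZ3 k (fun d => ?_)
    split_ifs with g
    · rcases g with g | g
      · rw [g, he, ← hk (a x), inv]
      · rw [g, ← he, hk x]
    · exact hk d
  obtain ⟨c, hc⟩ : ∃ c : ZMod 2, ∀ k : Dart ι → ZMod 2, (∀ d, k (sg (a d)) = k d) →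
      k x ≠ k (a x) → ∑ d, k d * Z d = c := by
    by_cases e : ∃ k0 : Dart ι → ZMod 2, (∀ d, k0 (sg (a d)) = k0 d) ∧ k0 x ≠ k0 (a x)
    · obtain ⟨k0, h0, h1⟩ := e
      refine ⟨∑ d, k0 d * Z d, fun k hk hne => ?_⟩
      have := key (fun d => k d + k0 d) (fun d => by simp only [hk, h0])
        (planar_z2 _ _ _ _ hne h1)
      simp only [add_mul, sum_add_distrib] at this
      exact planar_z2_eq _ _ this
    · exact ⟨0, fun k hk hne => absurd ⟨k, hk, hne⟩ e⟩
  refine (h (fun d => Z d + if d = x ∨ d = a x then c else 0) (fun d => ?_)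
    (fun d hd => ?_) (fun k hk => ?_)).elim (fun f hf => ?_)
  rotate_right
  · refine ⟨f, fun d => ?_⟩
    by_cases g : d = x ∨ d = a x
    · rw [if_pos g, planar_z2_self]
      rcases g with g | g
      · rw [g, Zx]
      · rw [g, Zy]
    · have := hf d
      simp only [if_neg g, add_zero] at this
      rw [if_neg g]
      exact this
  · by_cases g : d = x ∨ d = a x
    · rcases g with g | g
      · rw [g]; simp [Zx, Zy]
      · rw [g, inv]; simp [Zx, Zy]
    · have g' : ¬ (a d = x ∨ a d = a x) := by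
        rintro (g' | g')
        · exact g (Or.inr ((hax d).1 g'))
        · exact g (Or.inl (by rw [← inv d, g', inv]))
      have := hZ1 d
      rw [if_neg g] at this
      simp only [if_neg g, if_neg g', this]
  · have g : ¬ (d = x ∨ d = a x) := by
      rintro (g | g)
      · exact hx (by rw [← g, hd])
      · exact hx (by rw [← inv x, ← g, hd, hd])
    have := hZ2 d (by rw [if_neg g, hd])
    simp only [if_neg g, this, add_zero]
  · simp only [mul_add, sum_add_distrib]
    rw [planar_sum_two k x (a x) (fun g => hx g.symm)]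
    by_cases e : k x = k (a x)
    · rw [key k hk e, e, planar_z2_self, zero_mul, add_zero]
    · rw [hc k hk e, planar_z2_ne _ _ e, one_mul, planar_z2_self]

theorem planar_unglue_set {a : Dart ι → Dart ι} (inv : ∀ d, a (a d) = d) (h : planarPl a)
    (S : Finset (Dart ι)) : planarPl (fun d => if d ∈ S ∨ a d ∈ S then d else a d) := by
  induction S using Finset.induction_on with
  | empty => simpa using h
  | insert x S _ ih =>
    have inv' : ∀ d, (fun d => if d ∈ S ∨ a d ∈ S then d else a d)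
        ((fun d => if d ∈ S ∨ a d ∈ S then d else a d) d) = d := by
      intro d
      by_cases g : d ∈ S ∨ a d ∈ S
      · simp only [if_pos g]
      · have g' : ¬ (a d ∈ S ∨ a (a d) ∈ S) := by
          rw [inv]; exact fun g' => g g'.symm
        show (if (if d ∈ S ∨ a d ∈ S then d else a d) ∈ S ∨
          a (if d ∈ S ∨ a d ∈ S then d else a d) ∈ S then (if d ∈ S ∨ a d ∈ S then d else a d)
          else a (if d ∈ S ∨ a d ∈ S then d else a d)) = d
        rw [if_neg g, if_neg g', inv]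
    have key := planar_unglue inv' ih x
    have e : (fun d => if d ∈ insert x S ∨ a d ∈ insert x S then d else a d) =
        (fun d => if d = x ∨ (if d ∈ S ∨ a d ∈ S then d else a d) = x then d
          else (if d ∈ S ∨ a d ∈ S then d else a d)) := by
      funext d
      by_cases g : d ∈ S ∨ a d ∈ S
      · have g' : d ∈ insert x S ∨ a d ∈ insert x S :=
          g.imp mem_insert_of_mem mem_insert_of_mem
        rw [if_pos g', if_pos g, ite_self]
      · rw [if_neg g]
        have g' : (d ∈ insert x S ∨ a d ∈ insert x S) ↔ (d = x ∨ a d = x) := by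
          rw [not_or] at g
          simp [g.1, g.2]
        simp only [g']
    rw [e]
    exact key

theorem Planar.res (h : K.Planar) (U : Finset ι) (M : Finset (Dart ι)) :
    (K.res U M).Planar := by
  have key := planar_unglue_set K.inv (planar_iff_pl.1 h) (univ.filter (fun d => d.1 ∉ U))
  have e : (K.res U M).a = fun d => if d ∈ univ.filter (fun d : Dart ι => d.1 ∉ U) ∨
      K.a d ∈ univ.filter (fun d : Dart ι => d.1 ∉ U) then d else K.a d := by
    funext d
    rw [res_a]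
    by_cases h1 : d.1 ∈ U <;> by_cases h2 : (K.a d).1 ∈ U <;> simp [h1, h2]
  rw [planar_iff_pl, e]
  exact key

theorem Valid.res (hK : K.Valid) {U : Finset ι} (hU : U ⊆ K.Q) {M : Finset (Dart ι)}
    (hM : ∀ m ∈ M, m.1 ∈ U) : (K.res U M).Valid := by
  refine ⟨fun d hd => ?_, hK.planar.res U M, fun d => ?_, fun p hp => (mem_ds.1 hp).2,
    fun p hp => planar_res_free M (hK.dis_fr1 p (mem_ds.1 hp).1),
    fun p hp => planar_res_free M (hK.dis_fr2 p (mem_ds.1 hp).1),
    fun p hp g => hK.dis_ne p (mem_ds.1 hp).1 (vx_of_res g),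
    fun p hp p' hp' => hK.dis_uniq p (mem_ds.1 hp).1 p' (mem_ds.1 hp').1, hM⟩
  · obtain ⟨g1, g2, g3⟩ := res_glued.1 hd
    rw [res_a_in M g1 g2]
    exact hK.par d g3
  · by_cases h1 : d.1 ∈ U
    · by_cases h2 : K.Inside U d
      · obtain ⟨d', g1, g2⟩ := hK.hasFree d
        exact ⟨d', (res_fc_of_inside M h2 d').2 g1, planar_res_free M g2⟩
      · obtain ⟨d', g1, g2⟩ := exit h1 h2
        exact ⟨d', res_fc_of_lk M g2, planar_res_cut M g1⟩
    · exact ⟨d, Fc.refl d, res_a_out M (fun g => h1 g.1)⟩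

/-- a solution of the sub-complex, read in the ambient complex -/
theorem sol_res {U : Finset ι} {M X : Finset (Dart ι)} (h : (K.res U M).Sol X) :
    (∀ q ∈ U, K.Cov X q) ∧ ∀ m ∈ M, K.Hit X m := by
  refine ⟨fun q hq => ?_, fun m hm => ?_⟩
  · obtain ⟨i, h1, x, hx, h2⟩ := h.1 q hq
    exact ⟨i, fun g => h1 (mem_ds.2 ⟨g, hq⟩), x, hx, vx_of_res h2⟩
  · obtain ⟨x, hx, h2⟩ := h.2 m hm
    exact ⟨x, hx, vx_of_res h2⟩

/-- the two cut darts of a two-edge cut lie on one curve of the piece -/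
theorem EE.res_fc {U : Finset ι} {e f : Dart ι} (h : K.EE U e f) (M : Finset (Dart ι)) :
    (K.res U M).Fc e f := by
  have hf : f ∈ K.cut U := by rw [h.cut]; simp
  exact ((fc_free (planar_res_cut M hf)).trans (res_fc_of_lk M h.lk_sf_e)).symm

/-- the two ends of the cut edges on one curve are one vertex exactly if they are joined inside
one of the two pieces, and this cannot happen in both -/
theorem EE.vx_iff (hK : K.Valid) {U : Finset ι} {e f : Dart ι} (h : K.EE U e f) :
    K.Vx (sg f) e ↔ (K.res U ∅).Vx (sg f) e ∨ (K.res (K.Q \ U) ∅).Vx (sg (K.a e)) (K.a f) := by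
  have he := h.e_glued
  have hf := h.swap.e_glued
  constructor
  · intro hv
    by_contra hn
    rw [not_or] at hn
    obtain ⟨n1, n2⟩ := hn
    have m1 : ∀ x, (K.res U ∅).Vx x e → x.1 ∈ U := fun x g => g.symm.mem h.e_mem
    have m2 : ∀ x, (K.res (K.Q \ U) ∅).Vx x (sg (K.a e)) → x.1 ∉ U := fun x g =>
      (mem_sdiff.1 (g.symm.mem h.compl.e_mem)).2
    have m3 : ∀ x, ((K.res U ∅).Vx x e ∨ (K.res (K.Q \ U) ∅).Vx x (sg (K.a e))) → K.Fc x e := by
      rintro x (g | g)
      · exact (vx_of_res g).fc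
      · exact (vx_of_res g).fc.trans (fc_phi e).symm
    have key := Vx.ind (K := K)
      (P := fun x => (K.res U ∅).Vx x e ∨ (K.res (K.Q \ U) ∅).Vx x (sg (K.a e)))
      (fun x hx => ?_) hv
    · rcases key.2 (Or.inl (Vx.refl e)) with g | g
      · exact n1 g
      · exact m2 _ g h.swap.e_mem
    by_cases h1 : x.1 ∈ U <;> by_cases h2 : (K.a x).1 ∈ U
    · have s := res_vx_step (∅ : Finset (Dart ι)) h1 h2 hx
      constructor
      · rintro (g | g)
        · exact Or.inl (s.symm.trans g)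
        · exact absurd h1 (m2 _ g)
      · rintro (g | g)
        · exact Or.inl (s.trans g)
        · exact absurd h2 (m2 (K.phi x) g)
    · rcases h.eq_of_cut h1 h2 with g | g
      · rw [g]
        exact ⟨fun _ => Or.inr (Vx.refl _), fun _ => Or.inl (Vx.refl _)⟩
      · rw [g]
        exact ⟨fun g' => absurd (m3 _ g').symm h.not_fc,
          fun g' => absurd ((fc_phi f).trans (m3 _ g')).symm h.not_fc⟩
    · rcases h.eq_of_cut h2 (by rwa [K.inv]) with g | g
      · have g1 : x = K.a e := by rw [← g, K.inv]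
        rw [g1]
        exact ⟨fun g' => absurd (m3 _ g').symm h.nb,
          fun g' => absurd ((fc_phi (K.a e)).trans (m3 _ g')).symm h.nb⟩
      · have g1 : x = K.a f := by rw [← g, K.inv]
        rw [g1, phi_a]
        constructor
        · rintro (g' | g')
          · exact absurd (m1 _ g') h.swap.ae_not_mem
          · exact absurd g'.symm n2
        · rintro (g' | g')
          · exact absurd g' n1
          · exact absurd h.swap.e_mem (m2 (sg f) g')
    · have s := res_vx_step (U := K.Q \ U) (∅ : Finset (Dart ι))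
        (mem_sdiff.2 ⟨mem_of_glued hx, h1⟩) (mem_sdiff.2 ⟨mem_of_glued (a_glued hx), h2⟩) hx
      constructor
      · rintro (g | g)
        · exact absurd (m1 _ g) h1
        · exact Or.inr (s.symm.trans g)
      · rintro (g | g)
        · exact absurd (m1 _ g) h2
        · exact Or.inr (s.trans g)
  · rintro (g | g)
    · exact vx_of_res g
    · exact (((vx_sg_a he).trans (vx_of_res g)).trans (vx_a_sg hf)).symm

theorem EE.not_both_short (hK : K.Valid) {U : Finset ι} {e f : Dart ι} (h : K.EE U e f)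
    (h1 : (K.res U ∅).Vx (sg f) e) (h2 : (K.res (K.Q \ U) ∅).Vx (sg (K.a e)) (K.a f)) : False := by
  have he : e ∈ K.cut U := by rw [h.cut]; simp
  have hf : K.a f ∈ K.cut (K.Q \ U) := by rw [h.compl.cut]; simp
  have step : ∀ x, ((K.res U ∅).Vx x e ∨ (K.res (K.Q \ U) ∅).Vx x (K.a f)) →
      K.a x ≠ x ∧ ((K.res U ∅).Vx (K.phi x) e ∨ (K.res (K.Q \ U) ∅).Vx (K.phi x) (K.a f)) := by
    rintro x (g | g)
    · by_cases g1 : (K.res U ∅).a x = x
      · rw [last_unique g1 (planar_res_cut _ he) g]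
        exact ⟨h.e_glued, Or.inr h2⟩
      · obtain ⟨g2, g3, g4⟩ := res_glued.1 g1
        exact ⟨g4, Or.inl ((res_vx_step _ g2 g3 g4).symm.trans g)⟩
    · by_cases g1 : (K.res (K.Q \ U) ∅).a x = x
      · rw [last_unique g1 (planar_res_cut _ hf) g, phi_a]
        exact ⟨a_glued h.swap.e_glued, Or.inl h1⟩
      · obtain ⟨g2, g3, g4⟩ := res_glued.1 g1
        exact ⟨g4, Or.inr ((res_vx_step _ g2 g3 g4).symm.trans g)⟩
  obtain ⟨y, g1, g2⟩ := hK.hasFree e
  exact (step y (Fc.ind (fun x hx => (step x hx).2) g1 (Or.inl (Vx.refl e)))).1 g2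

/-! ### adding a quad, gluing -/

@[simp] theorem addQ_Q (q : ι) (P : Finset (Dart ι)) : (K.addQ q P).Q = insert q K.Q := rfl

@[simp] theorem addQ_a (q : ι) (P : Finset (Dart ι)) : (K.addQ q P).a = K.a := rfl

@[simp] theorem addQ_dis (q : ι) (P : Finset (Dart ι)) : (K.addQ q P).dis = K.dis ∪ P := rfl

@[simp] theorem addQ_mrk (q : ι) (P : Finset (Dart ι)) : (K.addQ q P).mrk = K.mrk := rfl

theorem addQ_vx (q : ι) (P : Finset (Dart ι)) : (K.addQ q P).Vx = K.Vx := rfl

theorem addQ_fc (q : ι) (P : Finset (Dart ι)) : (K.addQ q P).Fc = K.Fc := rfl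

/-- `P` is empty or a single corner of the new quad -/
theorem Valid.addQ (hK : K.Valid) {q : ι} (hq : q ∉ K.Q) {P : Finset (Dart ι)}
    (h1 : ∀ p ∈ P, p.1 = q) (h2 : P.card ≤ 1) : (K.addQ q P).Valid := by
  have fr : ∀ x : Dart ι, x.1 = q → K.a x = x := fun x hx => K.supp x (by rwa [hx])
  refine ⟨hK.par, hK.planar, hK.hasFree, fun p hp => ?_, fun p hp => ?_, fun p hp => ?_,
    fun p hp => ?_, fun p hp p' hp' e => ?_, fun m hm => mem_insert_of_mem (hK.mrk_mem m hm)⟩
  · rcases mem_union.1 hp with g | g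
    · exact mem_insert_of_mem (hK.dis_mem p g)
    · rw [h1 p g]; exact mem_insert_self _ _
  · rcases mem_union.1 hp with g | g
    · exact hK.dis_fr1 p g
    · exact fr _ (h1 p g)
  · rcases mem_union.1 hp with g | g
    · exact hK.dis_fr2 p g
    · exact fr _ (h1 p g)
  · rcases mem_union.1 hp with g | g
    · exact hK.dis_ne p g
    · intro hv
      exact sg2_ne _ (Vx.single (K := K) (c := sg p) (fr _ (h1 p g)) (fr _ (h1 p g)) hv)
  · rcases mem_union.1 hp with g | g <;> rcases mem_union.1 hp' with g' | g'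
    · exact hK.dis_uniq p g p' g' e
    · exact absurd (hK.dis_mem p g) (by rwa [e, h1 p' g'])
    · exact absurd (hK.dis_mem p' g') (by rwa [← e, h1 p g])
    · exact card_le_one.1 h2 p g p' g'

theorem Valid.addQ_W (hK : K.Valid) {q : ι} (hq : q ∉ K.Q) {P : Finset (Dart ι)}
    (h1 : ∀ p ∈ P, p.1 = q) : (K.addQ q P).W = K.W + 6 + 2 * P.card := by
  have e1 : (K.addQ q P).fr (insert q K.Q) = K.fr K.Q ∪ univ.image (fun i : Fin 4 => (q, i)) := by
    ext d
    simp only [mem_fr, addQ_a, mem_insert, mem_union, mem_image, mem_univ, true_and]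
    constructor
    · rintro ⟨g | g, g'⟩
      · exact Or.inr ⟨d.2, by rw [← g]⟩
      · exact Or.inl ⟨g, g'⟩
    · rintro (⟨g, g'⟩ | ⟨i, g⟩)
      · exact ⟨Or.inr g, g'⟩
      · rw [← g]
        exact ⟨Or.inl rfl, K.supp _ hq⟩
  have e2 : Disjoint (K.fr K.Q) (univ.image (fun i : Fin 4 => (q, i))) := by
    rw [disjoint_left]
    intro d g1 g2
    obtain ⟨i, -, rfl⟩ := mem_image.1 g2
    exact hq (mem_fr.1 g1).1
  have e3 : (univ.image (fun i : Fin 4 => (q, i))).card = 4 := by
    rw [card_image_of_injective _ (fun i j g => (Prod.ext_iff.1 g).2)]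
    simp
  have e4 : Disjoint K.dis P := by
    rw [disjoint_left]
    intro p g1 g2
    exact hq (h1 p g2 ▸ hK.dis_mem p g1)
  unfold W
  rw [addQ_Q, addQ_dis, addQ_mrk, e1, card_union_of_disjoint e2, e3, card_union_of_disjoint e4,
    card_insert_of_notMem hq]
  omega

section glue

variable {d d' : Dart ι} (h : K.a d = d) (h' : K.a d' = d') (hd : d.1 ∈ K.Q) (hd' : d'.1 ∈ K.Q)

@[simp] theorem glue_Q : (K.glue d d' h h' hd hd').Q = K.Q := rfl

@[simp] theorem glue_dis : (K.glue d d' h h' hd hd').dis = K.dis := rfl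

@[simp] theorem glue_mrk : (K.glue d d' h h' hd hd').mrk = K.mrk := rfl

theorem glue_a_left : (K.glue d d' h h' hd hd').a d = d' := by
  show K.a (Equiv.swap d d' d) = d'
  rw [Equiv.swap_apply_left, h']

theorem glue_a_right : (K.glue d d' h h' hd hd').a d' = d := by
  show K.a (Equiv.swap d d' d') = d
  rw [Equiv.swap_apply_right, h]

theorem glue_a_other {x : Dart ι} (h1 : x ≠ d) (h2 : x ≠ d') :
    (K.glue d d' h h' hd hd').a x = K.a x := by
  show K.a (Equiv.swap d d' x) = K.a x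
  rw [Equiv.swap_apply_of_ne_of_ne h1 h2]

theorem planar_glue_phi (x : Dart ι) :
    (K.glue d d' h h' hd hd').phi x = K.phi (Equiv.swap d d' x) := rfl

theorem planar_glue_phi_left : (K.glue d d' h h' hd hd').phi d = K.phi d' := by
  rw [planar_glue_phi, Equiv.swap_apply_left]

theorem planar_glue_phi_right : (K.glue d d' h h' hd hd').phi d' = K.phi d := by
  rw [planar_glue_phi, Equiv.swap_apply_right]

theorem planar_glue_phi_other {x : Dart ι} (h1 : x ≠ d) (h2 : x ≠ d') :
    (K.glue d d' h h' hd hd').phi x = K.phi x := by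
  rw [planar_glue_phi, Equiv.swap_apply_of_ne_of_ne h1 h2]

theorem glue_W (hne : d ≠ d') : (K.glue d d' h h' hd hd').W + 2 = K.W := by
  have e1 : K.fr K.Q = insert d (insert d' ((K.glue d d' h h' hd hd').fr K.Q)) := by
    ext x
    simp only [mem_fr, mem_insert]
    by_cases g1 : x = d
    · simp [g1, h, hd]
    by_cases g2 : x = d'
    · simp [g2, h', hd']
    rw [glue_a_other h h' hd hd' g1 g2]
    simp [g1, g2]
  have e2 : d' ∉ (K.glue d d' h h' hd hd').fr K.Q := by
    rw [mem_fr, glue_a_right]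
    exact fun g => hne g.2
  have e3 : d ∉ insert d' ((K.glue d d' h h' hd hd').fr K.Q) := by
    rw [mem_insert, mem_fr, glue_a_left]
    rintro (g | g)
    · exact hne g
    · exact hne g.2.symm
  unfold W
  rw [glue_Q, glue_dis, glue_mrk, e1, card_insert_of_notMem e3, card_insert_of_notMem e2]
  omega

theorem vx_glue {c c' : Dart ι} (hv : K.Vx c c') : (K.glue d d' h h' hd hd').Vx c c' := by
  refine Relation.EqvGen.mono ?_ _ _ hv
  rintro x y ⟨h1, rfl⟩
  have g1 : x ≠ d := fun g => h1 (by rw [g, h])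
  have g2 : x ≠ d' := fun g => h1 (by rw [g, h'])
  exact ⟨by rwa [glue_a_other h h' hd hd' g1 g2], (planar_glue_phi_other h h' hd hd' g1 g2).symm⟩

/-- gluing merges the vertex of `d` with that of `sg d'` and the vertex of `d'` with that of
`sg d`, nothing else -/
theorem vx_of_glue (hK : K.Valid) (hc : col d ≠ col d') {c c' : Dart ι}
    (hv : (K.glue d d' h h' hd hd').Vx c c') :
    K.Vx c c' ∨ (K.Vx c d ∧ K.Vx c' (sg d')) ∨ (K.Vx c (sg d') ∧ K.Vx c' d) ∨
      (K.Vx c d' ∧ K.Vx c' (sg d)) ∨ (K.Vx c (sg d) ∧ K.Vx c' d') := by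
  have c1 := col_sg d
  have c2 := col_sg d'
  have c3 := col_lt d
  have c4 := col_lt d'
  have cA : ∀ x, (K.Vx x d ∨ K.Vx x (sg d')) → col x = col d := by
    rintro x (g | g)
    · exact hK.col_vx g
    · have := hK.col_vx g
      omega
  have cB : ∀ x, (K.Vx x d' ∨ K.Vx x (sg d)) → col x = col d' := by
    rintro x (g | g)
    · exact hK.col_vx g
    · have := hK.col_vx g
      omega
  have hA : ∀ x, (K.Vx x d ∨ K.Vx x (sg d')) → ((K.Vx c x ∨
      ((K.Vx c d ∨ K.Vx c (sg d')) ∧ (K.Vx x d ∨ K.Vx x (sg d'))) ∨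
      ((K.Vx c d' ∨ K.Vx c (sg d)) ∧ (K.Vx x d' ∨ K.Vx x (sg d)))) ↔
      (K.Vx c d ∨ K.Vx c (sg d'))) := by
    intro x hx
    constructor
    · rintro (g | g | g)
      · exact hx.imp g.trans g.trans
      · exact g.1
      · exact absurd ((cA x hx).symm.trans (cB x g.2)) hc
    · exact fun g => Or.inr (Or.inl ⟨g, hx⟩)
  have hB : ∀ x, (K.Vx x d' ∨ K.Vx x (sg d)) → ((K.Vx c x ∨
      ((K.Vx c d ∨ K.Vx c (sg d')) ∧ (K.Vx x d ∨ K.Vx x (sg d'))) ∨
      ((K.Vx c d' ∨ K.Vx c (sg d)) ∧ (K.Vx x d' ∨ K.Vx x (sg d)))) ↔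
      (K.Vx c d' ∨ K.Vx c (sg d))) := by
    intro x hx
    constructor
    · rintro (g | g | g)
      · exact hx.imp g.trans g.trans
      · exact absurd ((cA x g.2).symm.trans (cB x hx)) hc
      · exact g.1
    · exact fun g => Or.inr (Or.inr ⟨g, hx⟩)
  have key := Vx.ind (P := fun x => K.Vx c x ∨
      ((K.Vx c d ∨ K.Vx c (sg d')) ∧ (K.Vx x d ∨ K.Vx x (sg d'))) ∨
      ((K.Vx c d' ∨ K.Vx c (sg d)) ∧ (K.Vx x d' ∨ K.Vx x (sg d)))) (fun x hx => ?_) hv
  · rcases key.1 (Or.inl (Vx.refl c)) with g | ⟨g | g, g' | g'⟩ | ⟨g | g, g' | g'⟩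
    · exact Or.inl g
    · exact Or.inl (g.trans g'.symm)
    · exact Or.inr (Or.inl ⟨g, g'⟩)
    · exact Or.inr (Or.inr (Or.inl ⟨g, g'⟩))
    · exact Or.inl (g.trans g'.symm)
    · exact Or.inl (g.trans g'.symm)
    · exact Or.inr (Or.inr (Or.inr (Or.inl ⟨g, g'⟩)))
    · exact Or.inr (Or.inr (Or.inr (Or.inr ⟨g, g'⟩)))
    · exact Or.inl (g.trans g'.symm)
  by_cases g1 : x = d
  · rw [g1, planar_glue_phi_left, phi_free h']
    exact (hA d (Or.inl (Vx.refl _))).trans (hA _ (Or.inr (Vx.refl _))).symm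
  by_cases g2 : x = d'
  · rw [g2, planar_glue_phi_right, phi_free h]
    exact (hB d' (Or.inl (Vx.refl _))).trans (hB _ (Or.inr (Vx.refl _))).symm
  rw [glue_a_other h h' hd hd' g1 g2] at hx
  rw [planar_glue_phi_other h h' hd hd' g1 g2]
  have s := vx_phi hx
  have e1 : ∀ y, K.Vx x y ↔ K.Vx (K.phi x) y := fun y => ⟨s.symm.trans, s.trans⟩
  have e2 : K.Vx c x ↔ K.Vx c (K.phi x) := ⟨fun g => g.trans s, fun g => g.trans s.symm⟩
  simp only [e1, e2]

/-- gluing darts of two different curves merges the curves -/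
theorem fc_glue_of_not_fc (hn : ¬ K.Fc d d') :
    (K.glue d d' h h' hd hd').Fc d d' ∧
      ∀ x y, K.Fc x y → (K.glue d d' h h' hd hd').Fc x y := by
  have key : (K.glue d d' h h' hd hd').Fc d d' := by
    by_contra hn'
    have step : ∀ x, ((K.glue d d' h h' hd hd').Fc d x ∧ K.Fc d' x) →
        ((K.glue d d' h h' hd hd').Fc d ((K.glue d d' h h' hd hd').phi x) ∧
          K.Fc d' ((K.glue d d' h h' hd hd').phi x)) := by
      rintro x ⟨g1, g2⟩
      refine ⟨g1.trans (fc_phi x), ?_⟩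
      have g3 : x ≠ d := fun g => hn (by rw [g] at g2; exact g2.symm)
      have g4 : x ≠ d' := fun g => hn' (by rw [g] at g1; exact g1)
      rw [planar_glue_phi_other h h' hd hd' g3 g4]
      exact g2.trans (fc_phi x)
    have := Fc.ind step (fc_phi (K := K.glue d d' h h' hd hd') d).symm
      ⟨fc_phi d, by rw [planar_glue_phi_left]; exact fc_phi d'⟩
    exact hn this.2.symm
  refine ⟨key, fun x y hxy => ?_⟩
  refine Fc.ind (P := fun y => (K.glue d d' h h' hd hd').Fc x y) (fun z hz => ?_) hxy (Fc.refl x)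
  by_cases g1 : z = d
  · rw [g1] at hz ⊢
    rw [← planar_glue_phi_right h h' hd hd']
    exact (hz.trans key).trans (fc_phi d')
  by_cases g2 : z = d'
  · rw [g2] at hz ⊢
    rw [← planar_glue_phi_left h h' hd hd']
    exact (hz.trans key.symm).trans (fc_phi d)
  rw [← planar_glue_phi_other h h' hd hd' g1 g2]
  exact hz.trans (fc_phi z)

/-- gluing two darts of one curve separates them -/
theorem not_fc_glue (hne : d ≠ d') (hf : K.Fc d d') : ¬ (K.glue d d' h h' hd hd').Fc d d' := by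
  intro hg
  have hex := hf.exists_pow
  have hm := Nat.find_spec hex
  have hmin : ∀ j, j < Nat.find hex → (K.phi ^ j) d ≠ d' := fun j hj => Nat.find_min hex hj
  generalize Nat.find hex = m at hm hmin
  have hm0 : 1 ≤ m := by
    rcases Nat.eq_zero_or_pos m with g | g
    · rw [g] at hm
      exact absurd hm hne
    · exact g
  have hper : ∀ i, 1 ≤ i → i ≤ m → (K.phi ^ i) d ≠ d := by
    intro i h1 h2 g
    refine hmin (m - i) (by omega) ?_
    have e : m = (m - i) + i := by omega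
    rw [e, pow_add, Equiv.Perm.mul_apply, g] at hm
    exact hm
  have step : ∀ x, (∃ i, 1 ≤ i ∧ i ≤ m ∧ x = (K.phi ^ i) d) →
      (∃ i, 1 ≤ i ∧ i ≤ m ∧ (K.glue d d' h h' hd hd').phi x = (K.phi ^ i) d) := by
    rintro x ⟨i, h1, h2, rfl⟩
    rcases h2.eq_or_lt with g | g
    · rw [g, hm, planar_glue_phi_right]
      exact ⟨1, le_rfl, hm0, by rw [pow_one]⟩
    · rw [planar_glue_phi_other h h' hd hd' (hper i h1 h2) (hmin i g)]
      exact ⟨i + 1, by omega, g, by rw [pow_succ', Equiv.Perm.mul_apply]⟩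
  obtain ⟨i, h1, h2, g⟩ := Fc.ind step hg.symm ⟨m, hm0, le_rfl, hm.symm⟩
  exact hper i h1 h2 g.symm

theorem conn_glue (hc : K.Conn) : (K.glue d d' h h' hd hd').Conn := by
  intro T hT hne hcl
  refine hc T hT hne (fun x g1 g2 => ?_)
  by_cases e1 : x = d
  · rw [e1, h, ← e1]; exact g1
  by_cases e2 : x = d'
  · rw [e2, h', ← e2]; exact g1
  have := hcl x g1
  rw [glue_a_other h h' hd hd' e1 e2] at this
  exact this g2

/-- a function of the quad has the same sums at both sides of the edges, curve by curve -/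
theorem planar_cut_sum {R : Type} [CommRing R] (G : Cx ι) (k : Dart ι → R)
    (hk : ∀ x, k (G.phi x) = k x) (F : ι → R) :
    ∑ x, k x * F (G.a x).1 = ∑ x, k x * F x.1 := by
  rw [← Equiv.sum_comp G.phi (fun x => k x * F x.1)]
  refine sum_congr rfl (fun x _ => ?_)
  rw [hk, phi_fst]

/-- forget the new edge: what planarity of the old complex gives -/
theorem planar_glue_aux (hK : K.Planar) (hne : d ≠ d') (Z : Dart ι → ZMod 2)
    (hZ1 : ∀ x, Z ((K.glue d d' h h' hd hd').a x) = Z x)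
    (hZ2 : ∀ x, (K.glue d d' h h' hd hd').a x = x → Z x = 0)
    (hZ3 : ∀ k : Dart ι → ZMod 2, (∀ x, k ((K.glue d d' h h' hd hd').phi x) = k x) →
      ∑ x, k x * Z x = 0)
    (hk : ∀ k : Dart ι → ZMod 2, (∀ x, k (K.phi x) = k x) → ∃ k' : Dart ι → ZMod 2,
      (∀ x, k' (K.phi x) = k' x) ∧ k' d = k' d' ∧ ∀ x, K.a x ≠ x → k' x = k x) :
    ∃ f : ι → ZMod 2, ∀ x, x ≠ d → x ≠ d' → Z x = f x.1 + f (K.a x).1 := by
  have e0 : Z d' = Z d := by rw [← hZ1 d, glue_a_left]
  have hfree : ∀ x, K.a x = x → Z x + (if x = d ∨ x = d' then Z d else 0) = 0 := by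
    intro x hx
    by_cases g1 : x = d
    · rw [g1, if_pos (Or.inl rfl), planar_z2_self]
    by_cases g2 : x = d'
    · rw [g2, if_pos (Or.inr rfl), e0, planar_z2_self]
    rw [if_neg (not_or.2 ⟨g1, g2⟩), add_zero]
    exact hZ2 x (by rw [glue_a_other h h' hd hd' g1 g2, hx])
  refine (hK (fun x => Z x + if x = d ∨ x = d' then Z d else 0) (fun x => ?_) hfree
    (fun k hk0 => ?_)).elim (fun f hf => ?_)
  rotate_right
  · refine ⟨f, fun x g1 g2 => ?_⟩
    have := hf x
    simp only [if_neg (not_or.2 ⟨g1, g2⟩), add_zero] at this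
    exact this
  · by_cases hx : K.a x = x
    · rw [hx]
    have g1 : x ≠ d := fun g => hx (by rw [g, h])
    have g2 : x ≠ d' := fun g => hx (by rw [g, h'])
    have g3 : K.a x ≠ d := fun g => a_glued hx (by rw [g, h])
    have g4 : K.a x ≠ d' := fun g => a_glued hx (by rw [g, h'])
    have := hZ1 x
    rw [glue_a_other h h' hd hd' g1 g2] at this
    simp only [if_neg (not_or.2 ⟨g1, g2⟩), if_neg (not_or.2 ⟨g3, g4⟩), this]
  · obtain ⟨k', p1, p2, p3⟩ := hk k hk0
    have e1 : ∀ x, k x * (Z x + if x = d ∨ x = d' then Z d else 0) =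
        k' x * (Z x + if x = d ∨ x = d' then Z d else 0) := by
      intro x
      by_cases hx : K.a x = x
      · rw [hfree x hx, mul_zero, mul_zero]
      · rw [p3 x hx]
    have e2 : ∀ x, k' ((K.glue d d' h h' hd hd').phi x) = k' x := by
      intro x
      rw [planar_glue_phi, p1]
      by_cases g1 : x = d
      · rw [g1, Equiv.swap_apply_left, p2]
      by_cases g2 : x = d'
      · rw [g2, Equiv.swap_apply_right, p2]
      rw [Equiv.swap_apply_of_ne_of_ne g1 g2]
    simp only [e1, mul_add, sum_add_distrib]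
    rw [planar_sum_two k' d d' hne, hZ3 k' e2, p2, planar_z2_self, zero_mul, add_zero]

theorem planar_inv_fc {R : Type} {G : Cx ι} {k : Dart ι → R} (hk : ∀ x, k (G.phi x) = k x)
    {x y : Dart ι} (hxy : G.Fc x y) : k y = k x :=
  Fc.ind (P := fun y => k y = k x) (fun z hz => by rw [hk, hz]) hxy rfl

theorem planar_fc_phi_iff (G : Cx ι) (y x : Dart ι) : G.Fc y (G.phi x) ↔ G.Fc y x :=
  ⟨fun g => g.trans (fc_phi x).symm, fun g => g.trans (fc_phi x)⟩

theorem planar_glue_par (hK : K.Valid) (hc : col d ≠ col d') (x : Dart ι)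
    (hx : (K.glue d d' h h' hd hd').a x ≠ x) :
    ((K.glue d d' h h' hd hd').a x).2.val % 2 ≠ x.2.val % 2 := by
  by_cases g1 : x = d
  · rw [g1, glue_a_left]; exact hc.symm
  by_cases g2 : x = d'
  · rw [g2, glue_a_right]; exact hc
  rw [glue_a_other h h' hd hd' g1 g2] at hx ⊢
  exact hK.par x hx

theorem planar_glue_same (hK : K.Planar) (hne : d ≠ d') (hf : K.Fc d d') :
    (K.glue d d' h h' hd hd').Planar := by
  classical
  intro Z hZ1 hZ2 hZ3
  have e0 : Z d' = Z d := by rw [← hZ1 d, glue_a_left]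
  obtain ⟨f, hf0⟩ := planar_glue_aux h h' hd hd' hK hne Z hZ1 hZ2 hZ3
    (fun k hk => ⟨k, hk, (planar_inv_fc hk hf).symm, fun _ _ => rfl⟩)
  have e1 : ∀ x, Z x + (f x.1 + f ((K.glue d d' h h' hd hd').a x).1) =
      if x = d ∨ x = d' then Z d + (f d.1 + f d'.1) else 0 := by
    intro x
    by_cases g1 : x = d
    · rw [g1, glue_a_left, if_pos (Or.inl rfl)]
    by_cases g2 : x = d'
    · rw [g2, glue_a_right, if_pos (Or.inr rfl), e0, add_comm (f d'.1)]
    rw [if_neg (not_or.2 ⟨g1, g2⟩), glue_a_other h h' hd hd' g1 g2, ← hf0 x g1 g2, planar_z2_self]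
  have hk : ∀ x, (if (K.glue d d' h h' hd hd').Fc d ((K.glue d d' h h' hd hd').phi x)
      then (1 : ZMod 2) else 0) = if (K.glue d d' h h' hd hd').Fc d x then 1 else 0 := by
    intro x
    simp only [planar_fc_phi_iff]
  have e2 := planar_sum_two (fun x => if (K.glue d d' h h' hd hd').Fc d x then (1 : ZMod 2) else 0)
    d d' hne (Z d + (f d.1 + f d'.1))
  simp only [← e1, mul_add, sum_add_distrib] at e2
  rw [hZ3 _ hk, planar_cut_sum _ _ hk f, planar_z2_self, if_pos (Fc.refl d),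
    if_neg (not_fc_glue h h' hd hd' hne hf)] at e2
  have e3 : Z d + (f d.1 + f d'.1) = 0 := by
    simpa using e2.symm
  refine ⟨f, fun x => planar_z2_eq _ _ ?_⟩
  rw [e1, e3, ite_self]

/-- gluing two free sides of one curve -/
theorem Valid.glue_same (hK : K.Valid) (hc : col d ≠ col d') (hf : K.Fc d d')
    (h1 : ¬ K.Vx (sg d') d) (h2 : ¬ K.Vx (sg d) d')
    (h3 : ∀ p ∈ K.dis, sg p ≠ d ∧ sg p ≠ d' ∧ sg (sg p) ≠ d ∧ sg (sg p) ≠ d')
    (h4 : ∀ p ∈ K.dis, ¬ (K.glue d d' h h' hd hd').Vx (sg p) (sg (sg (sg p)))) :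
    (K.glue d d' h h' hd hd').Valid := by
  have hne : d ≠ d' := fun g => hc (by rw [g])
  have c1 := col_sg d
  have c2 := col_sg d'
  have good1 : ∃ z, (K.glue d d' h h' hd hd').Fc d z ∧ (K.glue d d' h h' hd hd').a z = z := by
    obtain ⟨l, g1, g2⟩ := hK.exists_last (sg d')
    have g3 : l ≠ d := fun g => h1 (g ▸ g2)
    have g4 : l ≠ d' := fun g => by
      have := hK.col_vx g2
      rw [g] at this
      omega
    refine ⟨l, ?_, by rw [glue_a_other h h' hd hd' g3 g4, g1]⟩
    have := fc_phi (K := K.glue d d' h h' hd hd') d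
    rw [planar_glue_phi_left, phi_free h'] at this
    exact this.trans (vx_glue h h' hd hd' g2).fc
  have good2 : ∃ z, (K.glue d d' h h' hd hd').Fc d' z ∧ (K.glue d d' h h' hd hd').a z = z := by
    obtain ⟨l, g1, g2⟩ := hK.exists_last (sg d)
    have g3 : l ≠ d' := fun g => h2 (g ▸ g2)
    have g4 : l ≠ d := fun g => by
      have := hK.col_vx g2
      rw [g] at this
      omega
    refine ⟨l, ?_, by rw [glue_a_other h h' hd hd' g4 g3, g1]⟩
    have := fc_phi (K := K.glue d d' h h' hd hd') d'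
    rw [planar_glue_phi_right, phi_free h] at this
    exact this.trans (vx_glue h h' hd hd' g2).fc
  refine ⟨planar_glue_par h h' hd hd' hK hc, planar_glue_same h h' hd hd' hK.planar hne hf,
    fun x => ?_, hK.dis_mem, fun p hp => ?_, fun p hp => ?_, h4, hK.dis_uniq, hK.mrk_mem⟩
  · by_contra hn
    obtain ⟨y, g1, g2⟩ := hK.hasFree x
    have key := Fc.ind (P := fun y => ¬ ∃ z, (K.glue d d' h h' hd hd').Fc y z ∧
      (K.glue d d' h h' hd hd').a z = z) (fun y hy => ?_) g1 hn
    · have g3 : y ≠ d := fun g => key (g ▸ good1)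
      have g4 : y ≠ d' := fun g => key (g ▸ good2)
      exact key ⟨y, Fc.refl y, by rw [glue_a_other h h' hd hd' g3 g4, g2]⟩
    · have g3 : y ≠ d := fun g => hy (g ▸ good1)
      have g4 : y ≠ d' := fun g => hy (g ▸ good2)
      rintro ⟨z, p1, p2⟩
      rw [← planar_glue_phi_other h h' hd hd' g3 g4] at p1
      exact hy ⟨z, (fc_phi y).trans p1, p2⟩
  · obtain ⟨g1, g2, -, -⟩ := h3 p hp
    rw [glue_a_other h h' hd hd' g1 g2]
    exact hK.dis_fr1 p hp
  · obtain ⟨-, -, g1, g2⟩ := h3 p hp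
    rw [glue_a_other h h' hd hd' g1 g2]
    exact hK.dis_fr2 p hp

theorem planar_glue_leaf (hK : K.Planar) (hne : d.1 ≠ d'.1)
    (hiso : ∀ x : Dart ι, x.1 = d'.1 → K.a x = x) : (K.glue d d' h h' hd hd').Planar := by
  intro Z hZ1 hZ2 hZ3
  have hne' : d ≠ d' := fun g => hne (by rw [g])
  have e0 : Z d' = Z d := by rw [← hZ1 d, glue_a_left]
  have hq : ∀ x : Dart ι, (K.a x).1 = d'.1 ↔ x.1 = d'.1 := by
    intro x
    constructor
    · intro g
      have := hiso _ g
      rw [K.inv] at this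
      rw [this]; exact g
    · intro g
      rw [hiso x g]; exact g
  refine (planar_glue_aux h h' hd hd' hK hne' Z hZ1 hZ2 hZ3
    (fun k hk => ⟨fun x => k x + if x.1 = d'.1 then k d + k d' else 0, fun x => ?_, ?_,
      fun x hx => ?_⟩)).elim (fun f hf0 => ?_)
  rotate_right
  · refine ⟨fun q => if q = d'.1 then Z d + f d.1 else f q, fun x => ?_⟩
    by_cases g1 : x = d
    · rw [g1, glue_a_left]
      simp only [if_neg hne, if_true]
      rw [add_comm (Z d), ← add_assoc, planar_z2_self, zero_add]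
    by_cases g2 : x = d'
    · rw [g2, glue_a_right]
      simp only [if_neg hne, if_true]
      rw [add_assoc, planar_z2_self, add_zero, e0]
    rw [glue_a_other h h' hd hd' g1 g2]
    by_cases g3 : x.1 = d'.1
    · rw [hiso x g3, planar_z2_self]
      exact hZ2 x (by rw [glue_a_other h h' hd hd' g1 g2, hiso x g3])
    · simp only [if_neg g3, if_neg (fun g => g3 ((hq x).1 g))]
      exact hf0 x g1 g2
  · simp only [hk, phi_fst, hq]
  · simp only [if_neg hne, if_true, add_zero]
    rw [add_comm (k d), ← add_assoc, planar_z2_self, zero_add]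
  · simp only [if_neg (fun g => hx (hiso x g)), add_zero]

/-- gluing an isolated quad onto a free side -/
theorem Valid.glue_leaf (hK : K.Valid) (hc : col d ≠ col d') (hne : d.1 ≠ d'.1)
    (hiso : ∀ x : Dart ι, x.1 = d'.1 → K.a x = x)
    (h3 : ∀ p ∈ K.dis, sg p ≠ d ∧ sg p ≠ d' ∧ sg (sg p) ≠ d ∧ sg (sg p) ≠ d') :
    (K.glue d d' h h' hd hd').Valid := by
  have hn : ¬ K.Fc d d' := fun g =>
    hne (Fc.ind (P := fun y => y.1 = d'.1) (fun y hy => by rw [phi_free (hiso y hy)]; exact hy)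
      g.symm rfl)
  obtain ⟨k1, k2⟩ := fc_glue_of_not_fc h h' hd hd' hn
  have good : ∃ z, (K.glue d d' h h' hd hd').Fc d' z ∧ (K.glue d d' h h' hd hd').a z = z := by
    refine ⟨sg d', k2 _ _ (fc_free h'), ?_⟩
    rw [glue_a_other h h' hd hd' (fun g => hne (by rw [← g]; rfl)) (sg_ne d')]
    exact hiso _ rfl
  have sing : ∀ x y : Dart ι, K.Vx x y → y.1 = d'.1 → x = y := fun x y g1 g2 =>
    Vx.single (hiso _ g2) (hiso _ g2) g1.symm
  have two : ∀ x y u v : Dart ι, x.1 = y.1 → K.Vx x u → u.1 = d.1 → K.Vx y v → v.1 = d'.1 →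
      False := by
    intro x y u v e1 g1 e2 g2 e3
    have e4 : x.1 = d'.1 := by rw [e1, sing y v g2 e3, e3]
    have e5 := sing u x g1.symm e4
    exact hne (by rw [← e2, e5, e4])
  refine ⟨planar_glue_par h h' hd hd' hK hc, planar_glue_leaf h h' hd hd' hK.planar hne hiso,
    fun x => ?_, hK.dis_mem, fun p hp => ?_, fun p hp => ?_, fun p hp hv => ?_, hK.dis_uniq,
    hK.mrk_mem⟩
  · obtain ⟨y, g1, g2⟩ := hK.hasFree x
    obtain ⟨z, p1, p2⟩ := good
    by_cases g3 : y = d
    · exact ⟨z, ((k2 _ _ (g3 ▸ g1)).trans k1).trans p1, p2⟩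
    by_cases g4 : y = d'
    · exact ⟨z, (k2 _ _ (g4 ▸ g1)).trans p1, p2⟩
    exact ⟨y, k2 _ _ g1, by rw [glue_a_other h h' hd hd' g3 g4, g2]⟩
  · obtain ⟨g1, g2, -, -⟩ := h3 p hp
    rw [glue_a_other h h' hd hd' g1 g2]
    exact hK.dis_fr1 p hp
  · obtain ⟨-, -, g1, g2⟩ := h3 p hp
    rw [glue_a_other h h' hd hd' g1 g2]
    exact hK.dis_fr2 p hp
  · rcases vx_of_glue h h' hd hd' hK hc hv with g | g | g | g | g
    · exact hK.dis_ne p hp g
    · exact two (sg p) (sg (sg (sg p))) _ _ rfl g.1 rfl g.2 rfl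
    · exact two (sg (sg (sg p))) (sg p) _ _ rfl g.2 rfl g.1 rfl
    · exact two (sg (sg (sg p))) (sg p) _ _ rfl g.2 rfl g.1 rfl
    · exact two (sg p) (sg (sg (sg p))) _ _ rfl g.1 rfl g.2 rfl

theorem conn_glue_leaf (hc : K.ConnOn (K.Q.erase d'.1)) (hne : d.1 ≠ d'.1) :
    (K.glue d d' h h' hd hd').Conn := by
  intro T hT hT0 hcl
  have i1 : d.1 ∈ T → d'.1 ∈ T := fun g => by
    have := hcl d g
    rw [glue_a_left] at this
    exact this hd'
  have i2 : d'.1 ∈ T → d.1 ∈ T := fun g => by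
    have := hcl d' g
    rw [glue_a_right] at this
    exact this hd
  have key : T.erase d'.1 = K.Q.erase d'.1 := by
    refine hc _ (erase_subset_erase _ hT) ?_ (fun x g1 g2 => ?_)
    · obtain ⟨q, hq⟩ := hT0
      by_cases g : q = d'.1
      · exact ⟨d.1, mem_erase.2 ⟨hne, i2 (g ▸ hq)⟩⟩
      · exact ⟨q, mem_erase.2 ⟨g, hq⟩⟩
    · by_cases e1 : x = d
      · rw [e1, h, ← e1]; exact g1
      by_cases e2 : x = d'
      · rw [e2, h', ← e2]; rw [← e2] at g1; exact g1
      have := hcl x (mem_of_mem_erase g1)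
      rw [glue_a_other h h' hd hd' e1 e2] at this
      exact mem_erase.2 ⟨(mem_erase.1 g2).1, this (mem_of_mem_erase g2)⟩
  have g1 : d.1 ∈ T := mem_of_mem_erase (key ▸ mem_erase.2 ⟨hne, hd⟩)
  refine Subset.antisymm hT (fun q hq => ?_)
  by_cases g : q = d'.1
  · rw [g]; exact i1 g1
  · exact mem_of_mem_erase (key ▸ mem_erase.2 ⟨g, hq⟩)

end glue

/-! ### short cycles of curves are cuts -/

theorem planar_sum_mem {R : Type} [CommRing R] (k c : Dart ι → R) (G : Finset (Dart ι)) :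
    ∑ x, k x * (if x ∈ G then c x else 0) = ∑ g ∈ G, k g * c g := by
  simp only [mul_ite, mul_zero]
  rw [← sum_filter]
  simp

theorem planar_sum_amem {R : Type} [CommRing R] (k c : Dart ι → R) (G : Finset (Dart ι)) :
    ∑ x, k x * (if K.a x ∈ G then c (K.a x) else 0) = ∑ g ∈ G, k (K.a g) * c g := by
  rw [← planar_sum_mem (fun x => k (K.a x)) c G,
    ← Equiv.sum_comp (Function.Involutive.toPerm K.a K.inv)]
  refine sum_congr rfl (fun x _ => ?_)
  show k (K.a x) * (if K.a (K.a x) ∈ G then c (K.a (K.a x)) else 0) = _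
  rw [K.inv]

/-- a family of edges that is even at every curve is a cut; its orientation is balanced at every
curve -/
theorem planar_cut_of_even (hK : K.Planar) (G : Finset (Dart ι)) (hG : ∀ g ∈ G, K.a g ∉ G)
    (hev : ∀ k : Dart ι → ZMod 2, (∀ x, k (K.phi x) = k x) → ∑ g ∈ G, (k g + k (K.a g)) = 0)
    {g0 : Dart ι} (h0 : g0 ∈ G) :
    ∃ U ⊆ K.Q, ∃ ε : Dart ι → ℤ, ε g0 = 1 ∧ ((∀ g ∈ G, ε g = 1) → K.cut U = G) ∧
      ∀ k : Dart ι → ℤ, (∀ x, k (K.phi x) = k x) →
        ∑ g ∈ G, k g * ε g = ∑ g ∈ G, k (K.a g) * ε g := by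
  have hG' : ∀ x, K.a x ∈ G → x ∉ G := fun x g1 g2 => hG x g2 g1
  refine (hK (fun x => (if x ∈ G then 1 else 0) + (if K.a x ∈ G then 1 else 0))
    (fun x => by simp only [K.inv]; exact add_comm _ _)
    (fun x hx => by simp only [hx]; exact planar_z2_self _) (fun k hk => ?_)).elim
    (fun f hf => ?_)
  · simp only [mul_add, sum_add_distrib]
    rw [planar_sum_mem k (fun _ => 1) G, planar_sum_amem (K := K) k (fun _ => 1) G]
    simp only [mul_one]
    rw [← sum_add_distrib]
    exact hev k hk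
  have z1 : ∀ u v : ZMod 2, 1 + 0 = u + v → u ≠ v := by decide
  have z2 : ∀ u v : ZMod 2, 0 + 0 = u + v → u = v := by decide
  have z3 : ∀ u v w : ZMod 2, u ≠ v → u ≠ w → v = w := by decide
  have f1 : ∀ g ∈ G, f g.1 ≠ f (K.a g).1 := fun g hg => by
    have := hf g
    simp only [if_pos hg, if_neg (hG g hg)] at this
    exact z1 _ _ this
  have f2 : ∀ x, x ∉ G → K.a x ∉ G → f x.1 = f (K.a x).1 := fun x g1 g2 => by
    have := hf x
    simp only [if_neg g1, if_neg g2] at this
    exact z2 _ _ this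
  have gl : ∀ g ∈ G, K.a g ≠ g := fun g hg e => hG g hg (by rwa [e])
  refine ⟨K.Q.filter (fun q => f q = f g0.1), filter_subset _ _,
    fun g => if f g.1 = f g0.1 then 1 else -1, if_pos rfl, fun hε => ?_, fun k hk => ?_⟩
  · have f3 : ∀ g ∈ G, f g.1 = f g0.1 := fun g hg => by
      by_contra e
      have := hε g hg
      simp only [if_neg e] at this
      omega
    ext x
    simp only [mem_cut, mem_filter]
    constructor
    · rintro ⟨⟨g1, g2⟩, g3⟩
      have g4 : f (K.a x).1 ≠ f g0.1 := fun g => g3 ⟨a_mem g1, g⟩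
      by_contra g5
      by_cases g6 : K.a x ∈ G
      · exact g4 (f3 _ g6)
      · exact g4 (by rw [← f2 x g5 g6, g2])
    · intro g
      exact ⟨⟨mem_of_glued (gl x g), f3 x g⟩, fun g' => f1 x g (by rw [f3 x g, g'.2])⟩
  · have e1 := planar_cut_sum K k hk (fun q => if f q = f g0.1 then (1 : ℤ) else 0)
    have e2 : ∀ x : Dart ι, (if f x.1 = f g0.1 then (1 : ℤ) else 0) +
        (if K.a x ∈ G then (if f (K.a x).1 = f g0.1 then (1 : ℤ) else -1) else 0) =
        (if f (K.a x).1 = f g0.1 then (1 : ℤ) else 0) +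
        (if x ∈ G then (if f x.1 = f g0.1 then (1 : ℤ) else -1) else 0) := by
      intro x
      by_cases g1 : x ∈ G
      · have g2 := hG x g1
        have g3 := f1 x g1
        by_cases g4 : f x.1 = f g0.1
        · have g5 : f (K.a x).1 ≠ f g0.1 := fun g => g3 (by rw [g4, g])
          simp [g1, g2, g4, g5]
        · have g5 : f (K.a x).1 = f g0.1 := z3 _ _ _ g3 g4
          simp [g1, g2, g4, g5]
      by_cases g2 : K.a x ∈ G
      · have g3 := f1 _ g2
        rw [K.inv] at g3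
        by_cases g4 : f (K.a x).1 = f g0.1
        · have g5 : f x.1 ≠ f g0.1 := fun g => g3 (by rw [g4, g])
          simp [g1, g2, g4, g5]
        · have g5 : f x.1 = f g0.1 := z3 _ _ _ g3 g4
          simp [g1, g2, g4, g5]
      · simp [g1, g2, f2 x g1 g2]
    have e3 : ∑ x, k x * ((if f x.1 = f g0.1 then (1 : ℤ) else 0) +
        (if K.a x ∈ G then (if f (K.a x).1 = f g0.1 then (1 : ℤ) else -1) else 0)) =
        ∑ x, k x * ((if f (K.a x).1 = f g0.1 then (1 : ℤ) else 0) +
        (if x ∈ G then (if f x.1 = f g0.1 then (1 : ℤ) else -1) else 0)) :=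
      sum_congr rfl (fun x _ => by rw [e2])
    simp only [mul_add, sum_add_distrib] at e3
    rw [e1, planar_sum_mem k (fun x => if f x.1 = f g0.1 then (1 : ℤ) else -1) G,
      planar_sum_amem (K := K) k (fun x => if f x.1 = f g0.1 then (1 : ℤ) else -1) G] at e3
    exact (add_left_cancel e3).symm

open Classical in
theorem planar_ind_inv (K : Cx ι) (y x : Dart ι) :
    (if K.Fc y (K.phi x) then (1 : ℤ) else 0) = if K.Fc y x then 1 else 0 := by
  simp only [planar_fc_phi_iff]

theorem Planar.bridge_cut (hK : K.Planar) {d : Dart ι} (h : K.a d ≠ d) (hf : K.Fc d (K.a d)) :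
    ∃ U ⊆ K.Q, K.cut U = {d} := by
  obtain ⟨U, hU, ε, e1, e2, -⟩ := planar_cut_of_even hK {d} (by simpa using h)
    (fun k hk => by rw [sum_singleton, planar_inv_fc hk hf, planar_z2_self])
    (mem_singleton_self d)
  exact ⟨U, hU, e2 (by simpa using e1)⟩

theorem Planar.two_cut (hK : K.Planar) {g0 g1 : Dart ι} (h0 : K.a g0 ≠ g0) (h1 : K.a g1 ≠ g1)
    (f0 : K.Fc (K.a g0) g1) (f1 : K.Fc (K.a g1) g0) (hn : ¬ K.Fc g0 g1) (hne : g1 ≠ K.a g0) :
    ∃ U, K.EE U g0 g1 := by
  classical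
  have n1 : g0 ≠ g1 := fun g => hn (g ▸ Fc.refl g0)
  have n2 : K.a g1 ≠ g0 := fun g => hne (by rw [← g, K.inv])
  have n3 : ¬ K.Fc g0 (K.a g0) := fun g => hn (g.trans f0)
  obtain ⟨U, hU, ε, e1, e2, e3⟩ := planar_cut_of_even hK {g0, g1}
    (by simp [h0, h1, n2, hne.symm])
    (fun k hk => by
      rw [sum_pair n1, ← planar_inv_fc hk f0, ← planar_inv_fc hk f1, add_comm (k g1),
        planar_z2_self])
    (mem_insert_self g0 _)
  have e4 := e3 (fun x => if K.Fc g0 x then 1 else 0) (planar_ind_inv K g0)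
  simp only [sum_pair n1, if_pos (Fc.refl g0), if_neg hn, if_neg n3, if_pos f1.symm] at e4
  exact ⟨U, hU, e2 (by simp only [mem_insert, mem_singleton]; rintro g (rfl | rfl) <;> omega),
    n1, n3⟩

theorem Planar.three_cut (hK : K.Planar) {g0 g1 g2 : Dart ι} (h0 : K.a g0 ≠ g0)
    (h1 : K.a g1 ≠ g1) (h2 : K.a g2 ≠ g2) (f0 : K.Fc (K.a g0) g1) (f1 : K.Fc (K.a g1) g2)
    (f2 : K.Fc (K.a g2) g0) (n0 : ¬ K.Fc g0 g1) (n1 : ¬ K.Fc g1 g2) (n2 : ¬ K.Fc g2 g0) :
    ∃ U ⊆ K.Q, K.cut U = {g0, g1, g2} := by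
  classical
  have d01 : g0 ≠ g1 := fun g => n0 (g ▸ Fc.refl g0)
  have d12 : g1 ≠ g2 := fun g => n1 (g ▸ Fc.refl g1)
  have d02 : g0 ≠ g2 := fun g => n2 (g ▸ Fc.refl g0)
  have a01 : K.a g0 ≠ g1 := fun g => n2 (by
    have : K.a g1 = g0 := by rw [← g, K.inv]
    rw [this] at f1
    exact f1.symm)
  have a12 : K.a g1 ≠ g2 := fun g => n0 (by
    have : K.a g2 = g1 := by rw [← g, K.inv]
    rw [this] at f2
    exact f2.symm)
  have a20 : K.a g2 ≠ g0 := fun g => n1 (by
    have : K.a g0 = g2 := by rw [← g, K.inv]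
    rw [this] at f0
    exact f0.symm)
  have a10 : K.a g1 ≠ g0 := fun g => a01 (by rw [← g, K.inv])
  have a21 : K.a g2 ≠ g1 := fun g => a12 (by rw [← g, K.inv])
  have a02 : K.a g0 ≠ g2 := fun g => a20 (by rw [← g, K.inv])
  have m0 : g0 ∉ ({g1, g2} : Finset (Dart ι)) := by simp [d01, d02]
  obtain ⟨U, hU, ε, e1, e2, e3⟩ := planar_cut_of_even hK {g0, g1, g2}
    (by simp [h0, h1, h2, a01, a12, a20, a10, a21, a02])
    (fun k hk => by
      have z : ∀ u v w : ZMod 2, u + v + (v + w + (w + u)) = 0 := by decide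
      rw [sum_insert m0, sum_pair d12, ← planar_inv_fc hk f0, ← planar_inv_fc hk f1,
        ← planar_inv_fc hk f2]
      exact z _ _ _)
    (mem_insert_self g0 _)
  have e4 := e3 (fun x => if K.Fc g0 x then 1 else 0) (planar_ind_inv K g0)
  have e5 := e3 (fun x => if K.Fc g1 x then 1 else 0) (planar_ind_inv K g1)
  have p0 : ¬ K.Fc g0 g2 := fun g => n2 g.symm
  have p1 : ¬ K.Fc g0 (K.a g0) := fun g => n0 (g.trans f0)
  have p2 : ¬ K.Fc g0 (K.a g1) := fun g => p0 (g.trans f1)
  have p3 : ¬ K.Fc g1 g0 := fun g => n0 g.symm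
  have p4 : ¬ K.Fc g1 (K.a g1) := fun g => n1 (g.trans f1)
  have p5 : ¬ K.Fc g1 (K.a g2) := fun g => p3 (g.trans f2)
  simp only [sum_insert m0, sum_pair d12, if_pos (Fc.refl g0), if_neg n0, if_neg p0, if_neg p1,
    if_neg p2, if_pos f2.symm] at e4
  simp only [sum_insert m0, sum_pair d12, if_pos (Fc.refl g1), if_neg n1, if_neg p3, if_neg p4,
    if_neg p5, if_pos f0.symm] at e5
  exact ⟨U, hU, e2 (by
    simp only [mem_insert, mem_singleton]; rintro g (rfl | rfl | rfl) <;> omega)⟩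

end Cx

end Pool.Agent.Lib.MP_8d6beb_co
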