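import Pool.Agent.Lib.MP_8d6beb_co.QCls

/-! The regular structure of the minimal cyclic piece (statement). -/

namespace Pool.Agent.Lib.MP_8d6beb_co

open Finset Cx

variable {ι : Type} [Fintype ι] [DecidableEq ι]

/-- the fan of `C` lacks one unit, which a curve inside `D` supplies -/
def Cx.Pick (K : Cx ι) (K1 : Finset ι) (C : Finset (Dart ι)) (del : Bool) : Prop :=
  ∀ (D : Finset ι) (X0 : Finset (Dart ι)) (z0 : Dart ι), D ⊆ K1 → fanQ C ⊆ D →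
    K.ConnOn (K.Ext K1 D del) → K.NoMT (K.Ext K1 D del) →
    (∀ q ∈ D, q ∉ fanQ C → K.Cov X0 q) → K.a z0 = z0 → K.Inside D z0 →
    4 * X0.card ≤ (K.fr (D \ fanQ C)).card → False

structure Reg (K : Cx ι) (K1 : Finset ι) (e f : Dart ι) : Prop where
  su : Setup K K1 e f
  nb : ∀ d : Dart ι, d.1 ∈ K1 → K.a d ≠ d → ¬ K.Fc d (K.a d)
  two : ∀ d : Dart ι, d.1 ∈ K1 → K.a d = d → K.a (sg d) = sg d → sg (sg (sg d)) ∈ K.dis
  dz : ∀ p ∈ K.dis, p.1 ∈ K1 → (K.a p).1 ∈ K1 ∧ K.deg (K.a p).1 = 4 ∧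
    (K.a (sg (sg (sg p)))).1 ∈ K1 ∧ K.deg (K.a (sg (sg (sg p)))).1 = 4 ∧
    ¬ K.Inside K1 (sg p) ∧ ∀ c : Dart ι, K.Fc p c → c.1 ∈ K1 → ¬ K.Port K1 c
  duniq : ∀ p ∈ K.dis, ∀ p' ∈ K.dis, p.1 ∈ K1 → p'.1 ∈ K1 → col p = col p' → p = p'
  w4 : ∀ c : Dart ι, ¬ K.Port K1 c → ¬ K.Single c → (∀ x, K.Vx c x → x ∉ K.dis) →
    (K.fr (fanQ (K.cl c))).card = 4
  r4 : K1 ≠ K.Q → col e = col f → ∀ c : Dart ι, c.1 ∈ K1 → K.Port K1 c →
    (K.fr (fanQ ((K.res K1 ∅).cl c))).card ≠ 2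
  pick : ∀ u : Dart ι, u.1 ∈ K1 → ¬ K.Single u → ∃ C del, Cls K K1 e f C del ∧ u ∈ C ∧
    (∀ c ∈ C, col c = col u) ∧ (¬ K.Port K1 u → del = false ∧ C = K.cl u) ∧ K.Pick K1 C del
  dport : ∀ p ∈ K.dis, p.1 ∈ K1 → K.Port K1 (sg p) ∧ K.Port K1 (sg (sg (sg p)))

open Classical in
/-- the corners between two glued sides on the curve of `z` -/
noncomputable def Cx.intr (K : Cx ι) (z : Dart ι) : Finset (Dart ι) :=
  univ.filter (fun x => K.Fc z x ∧ K.a x ≠ x ∧ K.a (sg (sg (sg x))) ≠ sg (sg (sg x)))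

/-- a minimal cyclic part of `K1` with at most three cut darts -/
structure MinR (K : Cx ι) (K1 R : Finset ι) : Prop where
  sub : R ⊆ K1
  ne : R.Nonempty
  cut : (K.cut R).card ≤ 3
  cyc : K.Cyc R
  min : ∀ R' ⊆ K1, R'.Nonempty → (K.cut R').card ≤ 3 → K.Cyc R' → R.card ≤ R'.card

/-- `A` contains a quad of degree four or two quads of degree at least three -/
def Cx.Big (K : Cx ι) (A : Finset ι) : Prop :=
  (∃ q ∈ A, K.deg q = 4) ∨ ∃ q ∈ A, ∃ q' ∈ A, q ≠ q' ∧ 3 ≤ K.deg q ∧ 3 ≤ K.deg q'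

end Pool.Agent.Lib.MP_8d6beb_co
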