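import Pool.Agent.Lib.MP_8d6beb_co.QClass

/-! Chains of quads of degree two, and the choice of a minimal cyclic piece. -/

namespace Pool.Agent.Lib.MP_8d6beb_co

open Finset Cx

set_option linter.unusedSectionVars false

variable {ι : Type} [Fintype ι] [DecidableEq ι] {K : Cx ι}

/-! ### degrees -/

theorem setup_deg (q : ι) :
    K.deg q = (univ.filter (fun d : Dart ι => d.1 = q ∧ K.a d ≠ d)).card := by
  have b : univ.filter (fun d : Dart ι => d.1 = q ∧ K.a d ≠ d) =
      (univ.filter (fun i : Fin 4 => K.a (q, i) ≠ (q, i))).image (fun i => (q, i)) := by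
    ext ⟨p, i⟩
    simp only [mem_image, mem_filter, mem_univ, true_and, Prod.mk.injEq]
    constructor
    · rintro ⟨rfl, g⟩; exact ⟨i, g, rfl, rfl⟩
    · rintro ⟨j, g, rfl, rfl⟩; exact ⟨rfl, g⟩
  rw [b, card_image_of_injective _ (fun _ _ e => congrArg Prod.snd e)]
  rfl

theorem setup_deg_le (q : ι) : K.deg q ≤ 4 := by
  have := deg_add_fr (K := K) q
  omega

theorem setup_two {x y z : Dart ι} (h : K.deg x.1 = 2) (hx : K.a x ≠ x) (hy : K.a y ≠ y)
    (e : y.1 = x.1) (hne : y ≠ x) (hz : K.a z ≠ z) (e' : z.1 = x.1) : z = x ∨ z = y := by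
  by_contra g
  push Not at g
  have s : ({z, y, x} : Finset (Dart ι)) ⊆ univ.filter (fun d : Dart ι => d.1 = x.1 ∧ K.a d ≠ d) := by
    intro d hd
    simp only [mem_insert, mem_singleton] at hd
    rcases hd with rfl | rfl | rfl <;> simp [*]
  have c := card_le_card s
  rw [← setup_deg, h, card_insert_of_notMem (by simp [g.1, g.2]), card_pair hne] at c
  omega

theorem setup_other {x : Dart ι} (h : 2 ≤ K.deg x.1) :
    ∃ y : Dart ι, y.1 = x.1 ∧ y ≠ x ∧ K.a y ≠ y := by
  rw [setup_deg] at h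
  obtain ⟨y, y1, y2⟩ := exists_mem_ne (s := univ.filter (fun d : Dart ι => d.1 = x.1 ∧ K.a d ≠ d))
    (by omega) x
  rw [mem_filter] at y1
  exact ⟨y, y1.2.1, y2, y1.2.2⟩

/-- the glued side of a leaf is a bridge -/
theorem setup_leaf {d : Dart ι} (h0 : K.a d ≠ d) (h : K.deg d.1 = 1) : K.Fc d (K.a d) := by
  have b := deg_eq (K := K) d
  rw [h, if_neg h0] at b
  have c1 : K.a (sg d) = sg d := by by_contra g; rw [if_neg g] at b; omega
  have c2 : K.a (sg (sg d)) = sg (sg d) := by by_contra g; rw [if_neg g] at b; omega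
  have c3 : K.a (sg (sg (sg d))) = sg (sg (sg d)) := by by_contra g; rw [if_neg g] at b; omega
  have := (((fc_a_sg (K := K) d).trans (fc_free c1)).trans (fc_free c2)).trans (fc_free c3)
  rw [sg4] at this
  exact this.symm

theorem setup_S_deg {g : Dart ι} (h0 : K.a g ≠ g) (a1 : K.a (sg g) = sg g)
    (a2 : K.a (sg (sg (sg g))) = sg (sg (sg g))) :
    (K.a (sg (sg g)) = sg (sg g) ∧ K.deg g.1 = 1) ∨
      (K.a (sg (sg g)) ≠ sg (sg g) ∧ K.deg g.1 = 2) := by
  have b := deg_eq (K := K) g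
  rw [if_neg h0, if_pos a1, if_pos a2] at b
  by_cases c : K.a (sg (sg g)) = sg (sg g)
  · rw [if_pos c] at b; exact Or.inl ⟨c, b⟩
  · rw [if_neg c] at b; exact Or.inr ⟨c, b⟩

theorem setup_S_free {g : Dart ι} (h : K.deg g.1 = 2) (h0 : K.a g ≠ g)
    (h2 : K.a (sg (sg g)) ≠ sg (sg g)) :
    K.a (sg g) = sg g ∧ K.a (sg (sg (sg g))) = sg (sg (sg g)) := by
  have b := deg_eq (K := K) g
  rw [h, if_neg h0, if_neg h2] at b
  constructor <;> by_contra c <;> rw [if_neg c] at b <;> omega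

theorem setup_fr {U : Finset ι} (h : ∀ q ∈ U, K.deg q = 2) : (K.fr U).card = 2 * U.card := by
  have a1 := K.card_darts U
  have a2 := sum_deg (K := K) U
  rw [sum_congr rfl h, sum_const, smul_eq_mul] at a2
  omega

theorem setup_ee {U : Finset ι} {e f : Dart ι} (hU : U ⊆ K.Q) (hne : e ≠ f) (e1 : e.1 ∈ U)
    (e2 : (K.a e).1 ∉ U) (f1 : f.1 ∈ U) (f2 : (K.a f).1 ∉ U)
    (h : ∀ d : Dart ι, d.1 ∈ U → (K.a d).1 ∉ U → K.a d ≠ d → d = e ∨ d = f)
    (nb : ¬ K.Fc e (K.a e)) : K.EE U e f := by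
  refine ⟨hU, ?_, hne, nb⟩
  ext d
  simp only [mem_cut, mem_insert, mem_singleton]
  constructor
  · rintro ⟨g1, g2⟩
    exact h d g1 g2 (fun b => g2 (by rwa [b]))
  · rintro (rfl | rfl)
    · exact ⟨e1, e2⟩
    · exact ⟨f1, f2⟩

theorem setup_cut_card {U : Finset ι} {e f : Dart ι} (h : K.EE U e f) : (K.cut U).card = 2 := by
  rw [h.cut, card_pair h.ne]

/-- deleting a two-edge piece of quads of degree two -/
theorem setup_red (h : MC K) {D : Finset ι} {e f : Dart ι} (hE : K.EE D e f)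
    (h2 : ∀ q ∈ D, K.deg q = 2) (X0 M : Finset (Dart ι)) (hM : ∀ m ∈ M, m.1 ∈ K.Q \ D)
    (hcov : ∀ q ∈ D, K.Cov (X0 ∪ M) q)
    (hnum : 4 * X0.card + 3 * M.card + 1 ≤ 2 * D.card + (K.ds D).card) : False := by
  refine h.red_conn hE.sub ⟨_, hE.e_mem⟩ (hE.compl.connOn h.conn) X0 M hM hcov
    (by rw [h.mrk_empty]; simp) ?_
  rw [setup_cut_card hE, setup_fr h2]
  omega

/-- no three consecutive quads with two opposite glued sides: `g` joins the first to the second,
`sg² (a g)` joins the second to the third -/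
theorem MC.no_SSS (h : MC K) {g : Dart ι} (h0 : K.a g ≠ g) (a1 : K.a (sg g) = sg g)
    (a2 : K.a (sg (sg (sg g))) = sg (sg (sg g))) (b1 : K.a (sg (K.a g)) = sg (K.a g))
    (b2 : K.a (sg (sg (sg (K.a g)))) = sg (sg (sg (K.a g)))) {g' : Dart ι}
    (hg' : g' = K.a (sg (sg (K.a g)))) (c1 : K.a (sg g') = sg g')
    (c2 : K.a (sg (sg (sg g'))) = sg (sg (sg g'))) (hne : g'.1 ≠ g.1) : False := by
  have V := h.valid
  have l0 := fun h1 => (h.leaf_nb h0 h1).1
  have h0' := a_glued h0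
  have l1 := fun h1 => (h.leaf_nb h0' h1).1
  rw [K.inv] at l1
  have s0 := setup_S_deg h0 a1 a2
  have s1 := setup_S_deg h0' b1 b2
  obtain ⟨t0, d0⟩ : K.a (sg (sg g)) ≠ sg (sg g) ∧ K.deg g.1 = 2 := by
    rcases s0 with s0 | s0
    · have := l0 s0.2
      rcases s1 with s1 | s1 <;> omega
    · exact s0
  obtain ⟨t1, d1⟩ : K.a (sg (sg (K.a g))) ≠ sg (sg (K.a g)) ∧ K.deg (K.a g).1 = 2 := by
    rcases s1 with s1 | s1
    · have := l1 s1.2
      omega
    · exact s1
  have ag' : K.a g' = sg (sg (K.a g)) := by rw [hg', K.inv]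
  have h2 : K.a g' ≠ g' := by rw [hg']; exact a_glued t1
  obtain ⟨t2, d2⟩ : K.a (sg (sg g')) ≠ sg (sg g') ∧ K.deg g'.1 = 2 := by
    rcases setup_S_deg h2 c1 c2 with s2 | s2
    · have := (h.leaf_nb h2 s2.2).1
      rw [ag', sg_fst, sg_fst] at this
      omega
    · exact s2
  have n01 : (K.a g).1 ≠ g.1 := V.a_fst_ne h0
  have n12 : g'.1 ≠ (K.a g).1 := by rw [hg']; exact V.a_fst_ne t1
  have w0 := fun z => setup_two (z := z) d0 h0 t0 rfl (sg2_ne g)
  have w1 := fun z => setup_two (z := z) d1 h0' t1 rfl (sg2_ne _)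
  have w2 := fun z => setup_two (z := z) d2 h2 t2 rfl (sg2_ne _)
  have cc : col (sg (sg g)) = col (sg (sg g')) := by
    have := V.col_a h0
    have := V.col_a h2
    rw [ag'] at this
    have := col_sg2 g
    have := col_sg2 g'
    have := col_sg2 (K.a g)
    omega
  have ne02 : K.a (sg (sg g)) ≠ sg (sg g') := fun b => by
    have := V.col_a t0
    rw [b] at this
    omega
  have hE : K.EE {g.1, (K.a g).1, g'.1} (sg (sg g)) (sg (sg g')) := by
    refine setup_ee ?_ (fun b => hne (congrArg Prod.fst b).symm) (by simp) ?_ (by simp) ?_ ?_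
      (h.not_bridge t0 (by rw [sg_fst, sg_fst]; omega) (by rw [sg_fst, sg_fst]; omega))
    · exact insert_subset (mem_of_glued h0) (insert_subset (mem_of_glued h0')
        (singleton_subset_iff.2 (mem_of_glued h2)))
    · simp only [mem_insert, mem_singleton, not_or]
      refine ⟨V.a_fst_ne t0, fun b => ?_, fun b => ?_⟩
      · rcases w1 _ (a_glued t0) b with c | c
        · exact sg2_ne g (a_inj c)
        · rw [← ag'] at c
          exact hne (congrArg Prod.fst (a_inj c)).symm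
      · rcases w2 _ (a_glued t0) b with c | c
        · rw [← K.inv g', ag'] at c
          exact n01 (congrArg Prod.fst (a_inj c)).symm
        · exact ne02 c
    · simp only [mem_insert, mem_singleton, not_or]
      refine ⟨fun b => ?_, fun b => ?_, V.a_fst_ne t2⟩
      · rcases w0 _ (a_glued t2) b with c | c
        · exact n12 (by rw [← c, K.inv]; rfl)
        · exact ne02 (by rw [← c, K.inv])
      · rcases w1 _ (a_glued t2) b with c | c
        · exact hne (congrArg Prod.fst (a_inj c) :)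
        · rw [← ag'] at c
          exact sg2_ne g' (a_inj c)
    · intro d m1 m2 m3
      simp only [mem_insert, mem_singleton, not_or] at m1 m2
      rcases m1 with m1 | m1 | m1
      · rcases w0 d m3 m1 with rfl | c
        · exact absurd rfl m2.2.1
        · exact Or.inl c
      · rcases w1 d m3 m1 with rfl | rfl
        · exact absurd (by rw [K.inv]) m2.1
        · exact absurd (by rw [hg']) m2.2.2
      · rcases w2 d m3 m1 with rfl | c
        · exact absurd (by rw [ag']; rfl) m2.2.1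
        · exact Or.inr c
  have hc : ({g.1, (K.a g).1, g'.1} : Finset ι).card = 3 := by
    rw [card_insert_of_notMem (by simp [n01.symm, hne.symm]), card_pair n12.symm]
  have key : ∀ x : Dart ι, K.a x ≠ x → K.a (sg (sg x)) ≠ sg (sg x) → ∀ p ∈ K.dis, p.1 ≠ x.1 := by
    intro x x1 x2 p hp b
    have p1 := V.dis_fr1 p hp
    have p2 := V.dis_fr2 p hp
    rcases same_quad b with rfl | rfl | rfl | rfl
    · exact x2 p2
    · exact x2 p1
    · rw [sg4] at p2; exact x1 p2
    · rw [sg4] at p1; exact x1 p1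
  have hd : K.ds {g.1, (K.a g).1, g'.1} = ∅ := by
    refine eq_empty_of_forall_notMem (fun p hp => ?_)
    simp only [mem_ds, mem_insert, mem_singleton] at hp
    rcases hp.2 with b | b | b
    · exact key _ h0 t0 p hp.1 b
    · exact key _ h0' t1 p hp.1 b
    · exact key _ h2 t2 p hp.1 b
  refine h.res0_col hE (by omega) ?_ cc
  unfold Cx.Wp
  rw [setup_cut_card hE, hd, setup_fr, hc]
  · simp
  · intro q hq
    simp only [mem_insert, mem_singleton] at hq
    rcases hq with rfl | rfl | rfl <;> assumption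

/-- the piece formed by two glued quads of degree two -/
theorem setup_ee2 (h : MC K) {d e f : Dart ι} (hd : K.a d ≠ d) (he : K.a e ≠ e) (hf : K.a f ≠ f)
    (e1 : e.1 = d.1) (e2 : e ≠ d) (f1 : f.1 = (K.a d).1) (f2 : f ≠ K.a d) (hef : K.a e ≠ f)
    (d0 : K.deg d.1 = 2) (d1 : K.deg (K.a d).1 = 2) : K.EE {d.1, (K.a d).1} e f := by
  have V := h.valid
  have n : (K.a d).1 ≠ d.1 := V.a_fst_ne hd
  have w0 := fun z => setup_two (z := z) d0 hd he e1 e2
  have w1 := fun z => setup_two (z := z) d1 (a_glued hd) hf f1 f2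
  refine setup_ee ?_ (fun b => n (by rw [← f1, ← b, e1])) (by simp [e1]) ?_ (by simp [f1]) ?_ ?_
    (h.not_bridge he (by rw [e1]; omega) (by rw [e1]; omega))
  · exact insert_subset (mem_of_glued hd) (singleton_subset_iff.2 (mem_of_glued (a_glued hd)))
  · simp only [mem_insert, mem_singleton, not_or]
    refine ⟨e1 ▸ V.a_fst_ne he, fun b => ?_⟩
    rcases w1 _ (a_glued he) b with c | c
    · exact e2 (a_inj c)
    · exact hef c
  · simp only [mem_insert, mem_singleton, not_or]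
    refine ⟨fun b => ?_, f1 ▸ V.a_fst_ne hf⟩
    rcases w0 _ (a_glued hf) b with c | c
    · exact f2 (by rw [← c, K.inv])
    · exact hef (by rw [← c, K.inv])
  · intro x m1 m2 m3
    simp only [mem_insert, mem_singleton, not_or] at m1 m2
    rcases m1 with m1 | m1
    · rcases w0 x m3 m1 with rfl | c
      · exact absurd rfl m2.2
      · exact Or.inl c
    · rcases w1 x m3 m1 with rfl | c
      · exact absurd (by rw [K.inv]) m2.1
      · exact Or.inr c

/-- a disabled corner of a quad is an end of each of its glued sides -/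
theorem setup_dis (h : MC K) {d p : Dart ι} (hd : K.a d ≠ d) (hp : p ∈ K.dis) (e : p.1 = d.1) :
    p = d ∨ p = sg d := by
  have p1 := h.valid.dis_fr1 p hp
  have p2 := h.valid.dis_fr2 p hp
  rcases same_quad e with rfl | rfl | rfl | rfl
  · exact Or.inl rfl
  · exact Or.inr rfl
  · rw [sg4] at p2; exact absurd p2 hd
  · rw [sg4] at p1; exact absurd p1 hd

theorem setup_half (h : MC K) {d e f : Dart ι} (hd : K.a d ≠ d) (e1 : e.1 = d.1) (e2 : e ≠ d)
    (hE : K.EE {d.1, (K.a d).1} e f) (d0 : K.deg d.1 = 2) (d1 : K.deg (K.a d).1 = 2)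
    (hn : K.ds {d.1, (K.a d).1} = ∅) : e = sg (sg d) := by
  have n : (K.a d).1 ≠ d.1 := h.valid.a_fst_ne hd
  have en : ∀ c : Dart ι, c.1 = d.1 ∨ c.1 = (K.a d).1 → c ∉ K.dis := fun c b g => by
    have : c ∈ K.ds {d.1, (K.a d).1} := by simp [g, b]
    rw [hn] at this
    simp at this
  have red : ∀ m c c' : Dart ι, m.1 = (K.a e).1 → c.1 = d.1 → c'.1 = (K.a d).1 → K.Vx m c →
      K.Vx c c' → False := by
    intro m c c' m1 c1 c2 v1 v2
    refine setup_red h hE ?_ ∅ {m} ?_ ?_ ?_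
    · intro q hq
      simp only [mem_insert, mem_singleton] at hq
      rcases hq with rfl | rfl <;> assumption
    · intro x hx
      rw [mem_singleton.1 hx, m1]
      exact hE.compl.e_mem
    · intro q hq
      have hm : K.Hit (∅ ∪ {m}) m := hit_of_mem (by simp)
      simp only [mem_insert, mem_singleton] at hq
      rcases hq with rfl | rfl
      · rw [← c1]; exact cov_of_hit (hm.of_vx v1) (en c (Or.inl c1))
      · rw [← c2]; exact cov_of_hit (hm.of_vx (v1.trans v2)) (en c' (Or.inr c2))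
    · rw [card_pair n.symm]; simp
  rcases same_quad e1 with c | c | c | c
  · exact absurd c e2
  · exact (red (sg (K.a e)) (sg d) (K.a d) rfl rfl rfl (c ▸ (vx_sg_a hE.e_glued).symm)
      (vx_a_sg hd).symm).elim
  · exact c
  · refine (red (K.a e) d (sg (K.a d)) rfl rfl rfl ?_ (vx_sg_a hd)).elim
    have := vx_a_sg hE.e_glued
    rwa [show sg e = d by rw [c, sg4]] at this

/-- two glued quads of degree two that form a two-edge piece -/
theorem setup_pair (h : MC K) {d e f : Dart ι} (hd : K.a d ≠ d) (he : K.a e ≠ e) (hf : K.a f ≠ f)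
    (e1 : e.1 = d.1) (e2 : e ≠ d) (f1 : f.1 = (K.a d).1) (f2 : f ≠ K.a d) (hef : K.a e ≠ f)
    (d0 : K.deg d.1 = 2) (d1 : K.deg (K.a d).1 = 2) :
    (e = sg (sg d) ∧ f = sg (sg (K.a d))) ∨ (d ∈ K.dis ∧ K.a d ∈ K.dis) ∨
      (sg d ∈ K.dis ∧ sg (K.a d) ∈ K.dis) := by
  have V := h.valid
  have hE := setup_ee2 h hd he hf e1 e2 f1 f2 hef d0 d1
  have n : (K.a d).1 ≠ d.1 := V.a_fst_ne hd
  by_cases hn : K.ds {d.1, (K.a d).1} = ∅
  · refine Or.inl ⟨setup_half h hd e1 e2 hE d0 d1 hn, ?_⟩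
    refine setup_half (f := e) h (a_glued hd) f1 f2 ?_ d1 ?_ ?_
    · rw [K.inv, pair_comm]; exact hE.swap
    · rwa [K.inv]
    · rwa [K.inv, pair_comm]
  have red : ∀ c c' : Dart ι, c.1 = d.1 → c'.1 = (K.a d).1 → K.Vx c c' → c ∉ K.dis → c' ∉ K.dis →
      False := by
    intro c c' c1 c2 v n1 n2
    refine setup_red h hE ?_ {c} ∅ (by simp) ?_ ?_
    · intro q hq
      simp only [mem_insert, mem_singleton] at hq
      rcases hq with rfl | rfl <;> assumption
    · intro q hq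
      have hm : K.Hit ({c} ∪ ∅) c := hit_of_mem (by simp)
      simp only [mem_insert, mem_singleton] at hq
      rcases hq with rfl | rfl
      · rw [← c1]; exact cov_of_hit hm n1
      · rw [← c2]; exact cov_of_hit (hm.of_vx v) n2
    · have := (nonempty_iff_ne_empty.2 hn).card_pos
      rw [card_pair n.symm, card_singleton, card_empty]
      omega
  have r1 := red d (sg (K.a d)) rfl rfl (vx_sg_a hd)
  have r2 := red (sg d) (K.a d) rfl rfl (vx_a_sg hd).symm
  have u1 : d ∈ K.dis → sg d ∉ K.dis := fun b c => sg_ne d (V.dis_uniq _ c _ b rfl)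
  have u2 : K.a d ∈ K.dis → sg (K.a d) ∉ K.dis := fun b c => sg_ne _ (V.dis_uniq _ c _ b rfl)
  right
  tauto

theorem setup_pair_col (h : MC K) {d e f : Dart ι} (hd : K.a d ≠ d) (he : K.a e ≠ e)
    (hf : K.a f ≠ f) (e1 : e.1 = d.1) (e2 : e ≠ d) (f1 : f.1 = (K.a d).1) (f2 : f ≠ K.a d)
    (hef : K.a e ≠ f) (d0 : K.deg d.1 = 2) (d1 : K.deg (K.a d).1 = 2) : col e ≠ col f := by
  have w0 := fun z => setup_two (z := z) d0 hd he e1 e2
  have w1 := fun z => setup_two (z := z) d1 (a_glued hd) hf f1 f2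
  have c := h.valid.col_a hd
  rcases setup_pair h hd he hf e1 e2 f1 f2 hef d0 d1 with ⟨rfl, rfl⟩ | ⟨b1, b2⟩ | ⟨b1, b2⟩
  · have := col_sg2 d
    have := col_sg2 (K.a d)
    omega
  · rw [← (w0 _ (h.dis_glued b1).2 rfl).resolve_left (sg3_ne _),
      ← (w1 _ (h.dis_glued b2).2 rfl).resolve_left (sg3_ne _)]
    have := col_sg3 d
    have := col_sg3 (K.a d)
    omega
  · rw [← (w0 _ (h.dis_glued b1).1 rfl).resolve_left (sg_ne _),
      ← (w1 _ (h.dis_glued b2).1 rfl).resolve_left (sg_ne _)]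
    have := col_sg d
    have := col_sg (K.a d)
    omega

/-- no path of three quads of degree two whose first quad is not glued to the third -/
theorem setup_triple (h : MC K) {e d0 d1 f : Dart ι} (he : K.a e ≠ e) (h0 : K.a d0 ≠ d0)
    (h1 : K.a d1 ≠ d1) (hf : K.a f ≠ f) (e1 : e.1 = d0.1) (e2 : e ≠ d0) (m1 : d1.1 = (K.a d0).1)
    (m2 : d1 ≠ K.a d0) (f1 : f.1 = (K.a d1).1) (f2 : f ≠ K.a d1) (n1 : K.a e ≠ d1)
    (n2 : K.a e ≠ f) (g0 : K.deg d0.1 = 2) (g1 : K.deg d1.1 = 2) (g2 : K.deg (K.a d1).1 = 2) :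
    False := by
  have V := h.valid
  have g1' : K.deg (K.a d0).1 = 2 := m1 ▸ g1
  have w0 := fun z => setup_two (z := z) g0 h0 he e1 e2
  have w1 := fun z => setup_two (z := z) g1' (a_glued h0) h1 m1 m2
  have w2 := fun z => setup_two (z := z) g2 (a_glued h1) hf f1 f2
  have n01 : (K.a d0).1 ≠ d0.1 := V.a_fst_ne h0
  have n12 : (K.a d1).1 ≠ (K.a d0).1 := m1 ▸ V.a_fst_ne h1
  have n02 : (K.a d1).1 ≠ d0.1 := fun b => by
    rcases w0 _ (a_glued h1) b with c | c
    · exact m2 (by rw [← c, K.inv])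
    · exact n1 (by rw [← c, K.inv])
  have p1 := setup_pair h h0 he h1 e1 e2 m1 m2 n1 g0 g1'
  have p2 := setup_pair h h1 (a_glued h0) hf m1.symm m2.symm f1 f2
    (by rw [K.inv]; exact fun b => n02 (by rw [← f1, b])) g1 g2
  have hE : K.EE {d0.1, (K.a d0).1, (K.a d1).1} e f := by
    refine setup_ee ?_ (fun b => n02 (by rw [← f1, ← b, e1])) (by simp [e1]) ?_ (by simp [f1]) ?_ ?_
      (h.not_bridge he (by rw [e1]; omega) (by rw [e1]; omega))
    · exact insert_subset (mem_of_glued h0) (insert_subset (mem_of_glued (a_glued h0))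
        (singleton_subset_iff.2 (mem_of_glued (a_glued h1))))
    · simp only [mem_insert, mem_singleton, not_or]
      refine ⟨e1 ▸ V.a_fst_ne he, fun b => ?_, fun b => ?_⟩
      · rcases w1 _ (a_glued he) b with c | c
        · exact e2 (a_inj c)
        · exact n1 c
      · rcases w2 _ (a_glued he) b with c | c
        · exact n01 (by rw [← m1, ← a_inj c, e1])
        · exact n2 c
    · simp only [mem_insert, mem_singleton, not_or]
      refine ⟨fun b => ?_, fun b => ?_, f1 ▸ V.a_fst_ne hf⟩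
      · rcases w0 _ (a_glued hf) b with c | c
        · exact n12 (by rw [← f1, ← c, K.inv])
        · exact n2 (by rw [← c, K.inv])
      · rcases w1 _ (a_glued hf) b with c | c
        · exact n02 (by rw [← f1, a_inj c])
        · exact f2 (by rw [← c, K.inv])
    · intro x y1 y2 y3
      simp only [mem_insert, mem_singleton, not_or] at y1 y2
      rcases y1 with y1 | y1 | y1
      · rcases w0 x y3 y1 with rfl | c
        · exact absurd rfl y2.2.1
        · exact Or.inl c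
      · rcases w1 x y3 y1 with rfl | rfl
        · exact absurd (by rw [K.inv]) y2.1
        · exact absurd rfl y2.2.2
      · rcases w2 x y3 y1 with rfl | c
        · exact absurd (by rw [K.inv, m1]) y2.2.1
        · exact Or.inr c
  have hc : ({d0.1, (K.a d0).1, (K.a d1).1} : Finset ι).card = 3 := by
    rw [card_insert_of_notMem (by simp [n01.symm, n02.symm]), card_pair n12.symm]
  have red : ∀ p0 p p2 c0 c c2 : Dart ι, p0 ∈ K.dis → p ∈ K.dis → p2 ∈ K.dis → p0.1 = d0.1 →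
      p.1 = (K.a d0).1 → p2.1 = (K.a d1).1 → c0.1 = d0.1 → c.1 = (K.a d0).1 → c2.1 = (K.a d1).1 →
      c0 ≠ p0 → c ≠ p → c2 ≠ p2 → K.Vx p c0 → K.Vx p c2 → False := by
    intro p0 p p2 c0 c c2 a0 a1 a2 b0 b1 b2 k0 k1 k2 j0 j1 j2 v0 v2
    refine setup_red h hE ?_ {p, c} ∅ (by simp) ?_ ?_
    · intro q hq
      simp only [mem_insert, mem_singleton] at hq
      rcases hq with rfl | rfl | rfl <;> assumption
    · intro q hq
      have hp : K.Hit ({p, c} ∪ ∅) p := hit_of_mem (by simp)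
      simp only [mem_insert, mem_singleton] at hq
      rcases hq with rfl | rfl | rfl
      · rw [← k0]
        exact cov_of_hit (hp.of_vx v0) (fun b => j0 (V.dis_uniq _ b _ a0 (k0.trans b0.symm)))
      · rw [← k1]
        exact cov_of_hit (hit_of_mem (by simp)) (fun b => j1 (V.dis_uniq _ b _ a1 (k1.trans b1.symm)))
      · rw [← k2]
        exact cov_of_hit (hp.of_vx v2) (fun b => j2 (V.dis_uniq _ b _ a2 (k2.trans b2.symm)))
    · have s : ({p0, p, p2} : Finset (Dart ι)) ⊆ K.ds {d0.1, (K.a d0).1, (K.a d1).1} := by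
        intro x hx
        simp only [mem_insert, mem_singleton] at hx
        rcases hx with rfl | rfl | rfl <;> simp [*]
      have s1 := card_le_card s
      have i1 : p0 ≠ p := fun b => n01 (by rw [← b1, ← b, b0])
      have i2 : p0 ≠ p2 := fun b => n02 (by rw [← b2, ← b, b0])
      have i3 : p ≠ p2 := fun b => n12 (by rw [← b2, ← b, b1])
      rw [card_insert_of_notMem (by simp [i1, i2]), card_pair i3] at s1
      rw [hc, card_pair j1.symm, card_empty]
      omega
  rcases p1 with ⟨a1, a2⟩ | ⟨a1, a2⟩ | ⟨a1, a2⟩ <;> rcases p2 with ⟨b1, b2⟩ | ⟨b1, b2⟩ | ⟨b1, b2⟩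
  · have s0 := setup_S_free g0 h0 (a1 ▸ he)
    have s1 := setup_S_free g1' (a_glued h0) (a2 ▸ h1)
    have s2 := setup_S_free g2 (a_glued h1) (b2 ▸ hf)
    exact h.no_SSS h0 s0.1 s0.2 s1.1 s1.2 (by rw [← a2]) s2.1 s2.2 n02
  · have := V.dis_fr2 _ b1
    rw [a2, sg4] at this
    exact a_glued h0 this
  · have := V.dis_fr1 _ b1
    rw [a2, sg4] at this
    exact a_glued h0 this
  · have := V.dis_fr2 _ a2
    rw [b1, sg4] at this
    exact h1 this
  · exact m2 (V.dis_uniq _ b1 _ a2 m1)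
  · have := V.dis_uniq _ b1 _ a2 m1
    exact red _ _ _ (sg d0) d1 (K.a d1) a1 a2 b2 rfl rfl rfl rfl m1 rfl (sg_ne _) m2 (sg_ne _).symm
      (vx_a_sg h0) (this ▸ (vx_a_sg h1).symm)
  · have := V.dis_fr1 _ a2
    rw [b1, sg4] at this
    exact h1 this
  · have := V.dis_uniq _ b1 _ a2 m1
    exact red _ _ _ d0 (K.a d0) (sg (K.a d1)) a1 b1 b2 rfl m1 rfl rfl rfl rfl (sg_ne _).symm m2.symm
      (sg_ne _) (this ▸ (vx_sg_a h0).symm) (vx_sg_a h1)
  · exact m2 (sg_inj (V.dis_uniq _ b1 _ a2 m1))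

theorem setup_all_two (h : MC K) {U : Finset ι} {e f : Dart ι} (hE : K.EE U e f)
    (hU : ¬ K.Cyc U) : ∀ q ∈ U, K.deg q = 2 := by
  have a1 := sum_deg (K := K) U
  obtain ⟨k, hk⟩ := K.even_inn U
  rw [setup_cut_card hE] at a1
  unfold Cx.Cyc at hU
  have ex : ∀ q ∈ U.filter (fun q => K.deg q = 1), ∃ d : Dart ι, d.1 = q ∧ K.a d ≠ d := by
    intro q hq
    have := (mem_filter.1 hq).2
    rw [setup_deg] at this
    obtain ⟨d, hd⟩ := card_pos.1 (by rw [this]; norm_num : 0 < _)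
    exact ⟨d, (mem_filter.1 hd).2⟩
  choose! D D1 D2 using fun q (hq : q ∈ U.filter (fun q => K.deg q = 1)) =>
    (show ∃ i : Fin 4, ((q, i) : Dart ι).1 = q ∧ K.a (q, i) ≠ (q, i) by
      obtain ⟨⟨p, i⟩, rfl, g⟩ := ex q hq
      exact ⟨i, rfl, g⟩)
  have inj : (U.filter (fun q => K.deg q = 1)).card ≤ (U.filter (fun q => K.deg q = 4)).card := by
    refine card_le_card_of_injOn (fun q => (K.a (q, D q)).1) (fun q hq => ?_) (fun q hq q' hq' b => ?_)
    · have m := mem_filter.1 (mem_coe.1 hq)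
      refine mem_coe.2 (mem_filter.2 ⟨?_, (h.leaf_nb (D2 q hq) m.2).1⟩)
      by_contra g
      have br := setup_leaf (D2 q hq) m.2
      rcases hE.eq_of_cut (d := (q, D q)) m.1 g with c | c
      · exact hE.nb (c ▸ br)
      · exact hE.swap.nb (c ▸ br)
    · have m := mem_filter.1 (mem_coe.1 hq)
      have m' := mem_filter.1 (mem_coe.1 hq')
      by_contra g
      refine (h.leaf_nb (D2 q hq) m.2).2 (K.a (q', D q')) b.symm
        (fun c => g (congrArg Prod.fst (a_inj c)).symm) ?_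
      rw [K.inv]; exact m'.2
  rw [card_filter, card_filter] at inj
  have lo : ∀ q ∈ U, 2 + (if K.deg q = 4 then 1 else 0) + (if K.deg q = 2 then 0 else 1) ≤
      K.deg q + 2 * (if K.deg q = 1 then 1 else 0) := by
    intro q hq
    have := h.deg_pos (hE.sub hq)
    have := setup_deg_le (K := K) q
    split_ifs <;> omega
  have lo2 : ∀ q ∈ U, 2 + 2 * (if K.deg q = 4 then 1 else 0) ≤
      K.deg q + (if K.deg q = 1 then 1 else 0) := by
    intro q hq
    have := h.deg_pos (hE.sub hq)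
    split_ifs <;> omega
  have s1 := sum_le_sum lo
  have s2 := sum_le_sum lo2
  simp only [sum_add_distrib, ← mul_sum, sum_const, smul_eq_mul] at s1 s2
  have z : ∑ q ∈ U, (if K.deg q = 2 then 0 else 1) = 0 := by omega
  intro q hq
  have := sum_eq_zero_iff.1 z q hq
  by_contra g
  rw [if_neg g] at this
  omega

/-- an acyclic side of a two-edge cut consists of one or two quads of degree two -/
theorem MC.chain (h : MC K) {U : Finset ι} {e f : Dart ι} (hE : K.EE U e f) (hU : ¬ K.Cyc U) :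
    U = {e.1, f.1} ∧ K.deg e.1 = 2 ∧ K.deg f.1 = 2 ∧ (e.1 = f.1 ∨ col e ≠ col f) := by
  have all := setup_all_two h hE hU
  have con := hE.connOn h.conn
  have g0 := all _ hE.e_mem
  have gf := all _ hE.swap.e_mem
  refine (fun (b : U = {e.1, f.1} ∧ (e.1 = f.1 ∨ col e ≠ col f)) => ⟨b.1, g0, gf, b.2⟩) ?_
  have he := hE.e_glued
  have hf := hE.swap.e_glued
  have nae : ∀ x : Dart ι, x.1 ∈ U → K.a e ≠ x := fun x b c => hE.ae_not_mem (c ▸ b)
  obtain ⟨d0, x1, x2, h0⟩ := setup_other (x := e) g0.ge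
  have w0 := fun z => setup_two (z := z) g0 he h0 x1 x2
  by_cases c0 : d0 = f
  · subst c0
    refine ⟨?_, Or.inl x1.symm⟩
    rw [x1, pair_eq_singleton]
    refine (con {e.1} (singleton_subset_iff.2 hE.e_mem) (singleton_nonempty _) ?_).symm
    intro d y1 y2
    by_cases g : K.a d = d
    · rwa [g]
    rcases w0 d g (mem_singleton.1 y1) with rfl | rfl
    · exact absurd y2 hE.ae_not_mem
    · exact absurd y2 hE.swap.ae_not_mem
  have u1 : (K.a d0).1 ∈ U := by
    by_contra g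
    rcases hE.eq_of_cut (x1 ▸ hE.e_mem) g with c | c
    · exact x2 c
    · exact c0 c
  have g1 := all _ u1
  obtain ⟨d1, y1, y2, h1⟩ := setup_other (x := K.a d0) g1.ge
  have w1 := fun z => setup_two (z := z) g1 (a_glued h0) h1 y1 y2
  by_cases c1 : d1 = f
  · subst c1
    refine ⟨?_, Or.inr (setup_pair_col h h0 he h1 x1.symm x2.symm y1 y2 (nae _ hE.swap.e_mem)
      (x1 ▸ g0) g1)⟩
    refine (con _ (insert_subset hE.e_mem (singleton_subset_iff.2 hE.swap.e_mem))
      (insert_nonempty _ _) ?_).symm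
    intro d z1 z2
    by_cases g : K.a d = d
    · rwa [g]
    simp only [mem_insert, mem_singleton] at z1 ⊢
    rcases z1 with z1 | z1
    · rcases w0 d g z1 with rfl | rfl
      · exact absurd z2 hE.ae_not_mem
      · exact Or.inr y1.symm
    · rcases w1 d g (z1.trans y1) with rfl | rfl
      · rw [K.inv]; exact Or.inl x1
      · exact absurd z2 hE.swap.ae_not_mem
  have u2 : (K.a d1).1 ∈ U := by
    by_contra g
    rcases hE.eq_of_cut (y1 ▸ u1) g with c | c
    · exact h.valid.a_fst_ne h0 (by rw [← y1, c, x1])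
    · exact c1 c
  have g2 := all _ u2
  obtain ⟨d2, z1, z2, h2⟩ := setup_other (x := K.a d1) g2.ge
  exact (setup_triple h he h0 h1 h2 x1.symm x2.symm y1 y2 z1 z2 (nae _ (y1 ▸ u1)) (nae _ (z1 ▸ u2))
    (x1 ▸ g0) (y1 ▸ g1) g2).elim

/-- the side of a two-edge cut with the cut darts `k1`, `k2` is a chain inside `K1` -/
def Cx.Chain (K : Cx ι) (K1 : Finset ι) (k1 k2 : Dart ι) : Prop :=
  k1.1 ∈ K1 ∧ k2.1 ∈ K1 ∧ K.deg k1.1 = 2 ∧ K.deg k2.1 = 2 ∧ (k1.1 = k2.1 ∨ col k1 ≠ col k2) ∧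
    K.Lk {k1.1, k2.1} (sg k2) k1 ∧ K.Lk {k1.1, k2.1} (sg k1) k2

/-- `K1` is everything, or a minimal cyclic side of a two-edge cut with two cyclic sides -/
structure Setup (K : Cx ι) (K1 : Finset ι) (e f : Dart ι) : Prop where
  mc : MC K
  sub : K1 ⊆ K.Q
  ne : K1.Nonempty
  port : K1 = K.Q ∨ (K.EE K1 e f ∧ K.Cyc K1 ∧ (K.Q \ K1).Nonempty ∧ 3 ≤ K.deg e.1 ∧
    3 ≤ K.deg f.1 ∧ K.Cases K1 e f)
  gp : ∀ g0 g1 : Dart ι, K.a g0 ≠ g0 → K.a g1 ≠ g1 → (g0.1 ∈ K1 ∨ (K.a g0).1 ∈ K1) →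
    (g1.1 ∈ K1 ∨ (K.a g1).1 ∈ K1) → K.Fc (K.a g0) g1 → K.Fc (K.a g1) g0 → ¬ K.Fc g0 g1 →
    g1 ≠ K.a g0 → K.Chain K1 g0 g1 ∨ K.Chain K1 (K.a g0) (K.a g1) ∨
      (K1 ≠ K.Q ∧ ((g0 = e ∧ g1 = f) ∨ (g0 = f ∧ g1 = e) ∨ (K.a g0 = e ∧ K.a g1 = f) ∨
        (K.a g0 = f ∧ K.a g1 = e)))

theorem Setup.swap {K1 : Finset ι} {e f : Dart ι} (h : Setup K K1 e f) : Setup K K1 f e := by
  refine ⟨h.mc, h.sub, h.ne, ?_, fun g0 g1 a0 a1 a2 a3 a4 a5 a6 a7 => ?_⟩
  · rcases h.port with b | ⟨b1, b2, b3, b4, b5, b6⟩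
    · exact Or.inl b
    refine Or.inr ⟨b1.swap, b2, b3, b5, b4, ?_⟩
    rcases b6 with ⟨c1, c2, c3⟩ | c | c
    · refine Or.inl ⟨c2, c1, ?_⟩
      rcases c3 with ⟨p, x1, x2, x3, x4⟩ | ⟨x1, x2⟩ | ⟨p, x1, x2⟩
      · exact .A p.symm x3 x4 x1 x2
      · exact .B x2 x1
      · exact .C p.symm x2 x1
    · exact Or.inr (Or.inr c)
    · exact Or.inr (Or.inl c)
  · have := h.gp g0 g1 a0 a1 a2 a3 a4 a5 a6 a7
    tauto

theorem setup_chain (h : MC K) {V K1 : Finset ι} {k1 k2 : Dart ι} (hE : K.EE V k1 k2)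
    (hV : ¬ K.Cyc V) (hs : V ⊆ K1) : K.Chain K1 k1 k2 := by
  obtain ⟨a1, a2, a3, a4⟩ := h.chain hE hV
  exact ⟨hs hE.e_mem, hs hE.swap.e_mem, a2, a3, a4, a1 ▸ hE.lk_sf_e, a1 ▸ hE.swap.lk_sf_e⟩

theorem setup_deg3 (h : MC K) {U : Finset ι} {e f : Dart ι} (hE : K.EE U e f) (c1 : K.Cyc U)
    (c2 : K.Cyc (K.Q \ U))
    (hm : ∀ U' e' f', K.EE U' e' f' → K.Cyc U' → K.Cyc (K.Q \ U') → U.card ≤ U'.card) :
    3 ≤ K.deg e.1 := by
  by_contra g
  have he := hE.e_glued
  have g0 : K.deg e.1 = 2 := by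
    have := h.deg_pos (hE.sub hE.e_mem)
    have : K.deg e.1 ≠ 1 := fun b => hE.nb (setup_leaf he b)
    omega
  obtain ⟨d, x1, x2, h0⟩ := setup_other (x := e) g0.ge
  have w0 := fun z => setup_two (z := z) g0 he h0 x1 x2
  have c0 : d ≠ f := by
    rintro rfl
    have := h.valid.cyc_card ⟨_, hE.e_mem⟩ c1
    rw [← hE.connOn h.conn {e.1} (singleton_subset_iff.2 hE.e_mem) (singleton_nonempty _) ?_] at this
    · simp at this
    intro x y1 y2
    by_cases b : K.a x = x
    · rwa [b]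
    rcases w0 x b (mem_singleton.1 y1) with rfl | rfl
    · exact absurd y2 hE.ae_not_mem
    · exact absurd y2 hE.swap.ae_not_mem
  have u1 : (K.a d).1 ∈ U := by
    by_contra b
    rcases hE.eq_of_cut (x1 ▸ hE.e_mem) b with c | c
    · exact x2 c
    · exact c0 c
  have nf : f.1 ≠ e.1 := fun b => by
    rcases w0 f hE.swap.e_glued b with c | c
    · exact hE.ne c.symm
    · exact c0 c.symm
  have hE' : K.EE (U.erase e.1) (K.a d) f := by
    refine setup_ee ((erase_subset _ _).trans hE.sub) ?_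
      (mem_erase.2 ⟨x1 ▸ h.valid.a_fst_ne h0, u1⟩) (by rw [K.inv, x1]; simp)
      (mem_erase.2 ⟨nf, hE.swap.e_mem⟩) (fun b => hE.swap.ae_not_mem (mem_of_mem_erase b)) ?_ ?_
    · intro b
      refine hE.swap.ae_not_mem ?_
      rw [← b, K.inv, x1]
      exact hE.e_mem
    · intro x y1 y2 y3
      rw [mem_erase] at y1
      by_cases b : (K.a x).1 ∈ U
      · have : (K.a x).1 = e.1 := by
          by_contra c
          exact y2 (mem_erase.2 ⟨c, b⟩)
        rcases w0 _ (a_glued y3) this with c | c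
        · exact absurd (by rw [← c, K.inv]; exact y1.2) hE.ae_not_mem
        · exact Or.inl (by rw [← c, K.inv])
      · rcases hE.eq_of_cut y1.2 b with rfl | c
        · exact absurd rfl y1.1
        · exact Or.inr c
    · rw [K.inv]
      exact fun b => h.not_bridge h0 (by rw [x1]; omega) (by rw [x1]; omega) b.symm
  have s1 := sum_deg (K := K) U
  have s2 := sum_deg (K := K) (U.erase e.1)
  have s3 := add_sum_erase U K.deg hE.e_mem
  have s4 := card_erase_add_one hE.e_mem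
  rw [setup_cut_card hE] at s1
  rw [setup_cut_card hE'] at s2
  have := hm _ _ _ hE' (by unfold Cx.Cyc at *; omega)
    (cyc_mono (hE'.compl.connOn h.conn) (sdiff_subset_sdiff Subset.rfl (erase_subset _ _))
      ⟨_, hE.compl.e_mem⟩ c2)
  omega

theorem MC.exists_setup (h : MC K) : ∃ K1 e f, Setup K K1 e f := by
  by_cases hx : ∃ n, ∃ U e f, K.EE U e f ∧ K.Cyc U ∧ K.Cyc (K.Q \ U) ∧ U.card = n
  · classical
    obtain ⟨K1, e, f, hE, c1, c2, hn⟩ := Nat.find_spec hx
    have hm : ∀ U' e' f', K.EE U' e' f' → K.Cyc U' → K.Cyc (K.Q \ U') → K1.card ≤ U'.card :=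
      fun U' e' f' a1 a2 a3 => hn ▸ Nat.find_min' hx ⟨U', e', f', a1, a2, a3, rfl⟩
    have ne1 : K1.Nonempty := ⟨_, hE.e_mem⟩
    have ne2 : (K.Q \ K1).Nonempty := ⟨_, hE.compl.e_mem⟩
    have nq : K1 ≠ K.Q := fun b => by rw [b] at ne2; simp at ne2
    have side : ∀ V k1 k2, K.EE V k1 k2 → V ⊆ K1 →
        K.Chain K1 k1 k2 ∨ (k1 = e ∧ k2 = f) ∨ (k1 = f ∧ k2 = e) := by
      intro V k1 k2 a1 a2
      by_cases a3 : K.Cyc V
      · obtain rfl := eq_of_subset_of_card_le a2 (hm V k1 k2 a1 a3 (cyc_mono (a1.compl.connOn h.conn)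
          (sdiff_subset_sdiff Subset.rfl a2) ne2 c2))
        have b1 := hE.eq_of_cut a1.e_mem a1.ae_not_mem
        have b2 := hE.eq_of_cut a1.swap.e_mem a1.swap.ae_not_mem
        have b3 := a1.ne
        rcases b1 with rfl | rfl <;> rcases b2 with rfl | rfl <;> tauto
      · exact Or.inl (setup_chain h a1 a3 a2)
    refine ⟨K1, e, f, h, hE.sub, ne1, Or.inr ⟨hE, c1, ne2, setup_deg3 h hE c1 c2 hm,
      setup_deg3 h hE.swap c1 c2 hm, h.cases hE (h.valid.cyc_card ne1 c1) (h.valid.cyc_card ne2 c2)⟩,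
      fun g0 g1 a0 a1 a2 a3 a4 a5 a6 a7 => ?_⟩
    obtain ⟨U, hU⟩ := h.valid.planar.two_cut a0 a1 a4 a5 a6 a7
    by_cases b : ((K.Q \ K1) ∩ U).Nonempty
    · have c := hE.compl.connOn h.conn _ inter_subset_left b (fun d y1 y2 => by
        rw [mem_inter] at y1 ⊢
        refine ⟨y2, ?_⟩
        by_contra g
        have z1 := (mem_sdiff.1 y1.1).2
        have z2 := (mem_sdiff.1 y2).2
        rcases hU.eq_of_cut y1.2 g with rfl | rfl <;> tauto)
      have s : K.Q \ U ⊆ K1 := fun q hq => by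
        by_contra g
        have : q ∈ (K.Q \ K1) ∩ U := by rw [c]; exact mem_sdiff.2 ⟨(mem_sdiff.1 hq).1, g⟩
        exact (mem_sdiff.1 hq).2 (mem_inter.1 this).2
      have := side _ _ _ hU.compl s
      tauto
    · have s : U ⊆ K1 := fun q hq => by
        by_contra g
        exact b ⟨q, mem_inter.2 ⟨mem_sdiff.2 ⟨hU.sub hq, g⟩, hq⟩⟩
      have := side _ _ _ hU s
      tauto
  · have ne : K.Q.Nonempty := by
      by_contra g
      rw [not_nonempty_iff_eq_empty] at g
      exact h.bad ⟨∅, ⟨by simp [g], by simp [h.mrk_empty]⟩, by simp⟩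
    obtain ⟨q, hq⟩ := ne
    refine ⟨K.Q, (q, 0), (q, 0), h, Subset.rfl, ⟨q, hq⟩, Or.inl rfl,
      fun g0 g1 a0 a1 _ _ a4 a5 a6 a7 => ?_⟩
    obtain ⟨U, hU⟩ := h.valid.planar.two_cut a0 a1 a4 a5 a6 a7
    by_cases b : K.Cyc U
    · exact Or.inr (Or.inl (setup_chain h hU.compl (fun c => hx ⟨_, U, g0, g1, hU, b, c, rfl⟩)
        sdiff_subset))
    · exact Or.inl (setup_chain h hU b hU.sub)

end Pool.Agent.Lib.MP_8d6beb_co
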