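import Pool.Agent.Lib.MP_8d6beb_co.QReg

/-! Step A, first part: the weights of the corners and their sums over a quad. -/

namespace Pool.Agent.Lib.MP_8d6beb_co

open Finset Cx

set_option linter.unusedSectionVars false

variable {ι : Type} [Fintype ι] [DecidableEq ι] {K : Cx ι} {K1 : Finset ι} {e f : Dart ι}
  {Sp : Finset (Dart ι)}

open Classical in
/-- the weight of a corner; `Sp` is the set of special pivots -/
noncomputable def stA_wt (K : Cx ι) (Sp : Finset (Dart ι)) (c : Dart ι) : ℤ :=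
  if K.Single c then 4
  else if c ∈ K.dis then (if c ∈ Sp then 0 else -1)
  else if sg c ∈ K.dis then (if sg c ∈ Sp then 2 else 3)
  else if sg (sg (sg c)) ∈ K.dis then (if sg (sg (sg c)) ∈ Sp then 2 else 3)
  else if K.a (sg (sg c)) = sg (sg c) ∧ K.a (sg (sg (sg c))) = sg (sg (sg c)) ∧
    (K.fr {c.1}).card = 2 then 1
  else ((K.fr {c.1}).card : ℤ)

/-- no disabled corner in the quad `q` -/
def stA_ND (K : Cx ι) (q : ι) : Prop := ∀ p ∈ K.dis, p.1 ≠ q

theorem stA_nd1 (h : MC K) {p : Dart ι} (hp : p ∈ K.dis) : sg p ∉ K.dis := fun g =>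
  sg_ne p (h.valid.dis_uniq _ g _ hp rfl)

theorem stA_nd2 (h : MC K) {p : Dart ι} (hp : p ∈ K.dis) : sg (sg p) ∉ K.dis := fun g =>
  sg2_ne p (h.valid.dis_uniq _ g _ hp rfl)

theorem stA_nd3 (h : MC K) {p : Dart ι} (hp : p ∈ K.dis) : sg (sg (sg p)) ∉ K.dis := fun g =>
  sg3_ne p (h.valid.dis_uniq _ g _ hp rfl)

theorem stA_deg_dis (h : MC K) {p : Dart ι} (hp : p ∈ K.dis) : K.deg p.1 = 2 := by
  have h0 := deg_eq (K := K) p
  have g := h.dis_glued hp
  rw [if_neg g.1, if_pos (h.valid.dis_fr1 p hp), if_pos (h.valid.dis_fr2 p hp), if_neg g.2] at h0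
  exact h0

theorem stA_fr_dis (h : MC K) {p : Dart ι} (hp : p ∈ K.dis) : (K.fr {p.1}).card = 2 := by
  have h0 := stA_deg_dis h hp
  have h1 := deg_add_fr (K := K) p.1
  omega

theorem stA_ds_dis (h : MC K) {p : Dart ι} (hp : p ∈ K.dis) : (K.ds {p.1}).card = 1 := by
  have : K.ds {p.1} = {p} := by
    ext x
    simp only [mem_ds, mem_singleton]
    constructor
    · rintro ⟨h1, h2⟩
      exact h.valid.dis_uniq _ h1 _ hp h2
    · rintro rfl
      exact ⟨hp, rfl⟩
  rw [this, card_singleton]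

theorem stA_single2 (h : MC K) {p : Dart ι} (hp : p ∈ K.dis) : K.Single (sg (sg p)) := by
  refine ⟨h.valid.dis_fr2 p hp, ?_⟩
  rw [sg4]
  exact h.valid.dis_fr1 p hp

theorem stA_wt_single {c : Dart ι} (hc : K.Single c) : stA_wt K Sp c = 4 := by
  unfold stA_wt
  rw [if_pos hc]

theorem stA_wt_dis0 (h : MC K) {p : Dart ι} (hp : p ∈ K.dis) :
    stA_wt K Sp p = if p ∈ Sp then 0 else -1 := by
  unfold stA_wt
  have g := h.dis_glued hp
  rw [if_neg (fun s : K.Single p => g.1 s.1), if_pos hp]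

theorem stA_wt_dis1 (h : MC K) {p : Dart ι} (hp : p ∈ K.dis) :
    stA_wt K Sp (sg p) = if p ∈ Sp then 2 else 3 := by
  unfold stA_wt
  have g := h.dis_glued hp
  have hs : ¬ K.Single (sg p) := fun s => g.1 (by have := s.2; rwa [sg4] at this)
  rw [if_neg hs, if_neg (stA_nd1 h hp), if_neg (stA_nd2 h hp), sg4, if_pos hp]

theorem stA_wt_dis3 (h : MC K) {p : Dart ι} (hp : p ∈ K.dis) :
    stA_wt K Sp (sg (sg (sg p))) = if p ∈ Sp then 2 else 3 := by
  unfold stA_wt
  have g := h.dis_glued hp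
  rw [if_neg (fun s : K.Single _ => g.2 s.1), if_neg (stA_nd3 h hp), sg4, if_pos hp]

open Classical in
theorem stA_wt_nd {c : Dart ι} (hc : stA_ND K c.1) :
    stA_wt K Sp c = if K.Single c then 4 else
      if K.a (sg (sg c)) = sg (sg c) ∧ K.a (sg (sg (sg c))) = sg (sg (sg c)) ∧
        (K.fr {c.1}).card = 2 then 1 else ((K.fr {c.1}).card : ℤ) := by
  unfold stA_wt
  have h0 : c ∉ K.dis := fun g => hc _ g rfl
  have h1 : sg c ∉ K.dis := fun g => hc _ g rfl
  have h3 : sg (sg (sg c)) ∉ K.dis := fun g => hc _ g rfl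
  rw [if_neg h0, if_neg h1, if_neg h3]

theorem stA_sum4 (g : Dart ι → ℤ) (c : Dart ι) :
    ∑ i : Fin 4, g (c.1, i) = g c + g (sg c) + g (sg (sg c)) + g (sg (sg (sg c))) := by
  obtain ⟨q, j⟩ := c
  rw [Fin.sum_univ_four]
  have e0 : sg ((q, 0) : Dart ι) = (q, 1) := rfl
  have e1 : sg ((q, 1) : Dart ι) = (q, 2) := rfl
  have e2 : sg ((q, 2) : Dart ι) = (q, 3) := rfl
  have e3 : sg ((q, 3) : Dart ι) = (q, 0) := rfl
  have hj : j = 0 ∨ j = 1 ∨ j = 2 ∨ j = 3 := by revert j; decide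
  rcases hj with rfl | rfl | rfl | rfl <;> simp only [e0, e1, e2, e3] <;> ring

/-- the total weight of the corners of a quad -/
noncomputable def stA_qs (K : Cx ι) (Sp : Finset (Dart ι)) (q : ι) : ℤ :=
  ∑ i : Fin 4, stA_wt K Sp (q, i)

theorem stA_qs_dis (h : MC K) {p : Dart ι} (hp : p ∈ K.dis) :
    stA_qs K Sp p.1 = if p ∈ Sp then 8 else 9 := by
  unfold stA_qs
  rw [stA_sum4, stA_wt_dis0 h hp, stA_wt_dis1 h hp, stA_wt_dis3 h hp,
    stA_wt_single (stA_single2 h hp)]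
  split_ifs <;> norm_num

theorem stA_qs_nd (h : MC K) {c : Dart ι} (hq : c.1 ∈ K.Q) (hc : stA_ND K c.1) :
    4 * ((K.fr {c.1}).card : ℤ) ≤ stA_qs K Sp c.1 ∧
      (K.a c = c → K.a (sg c) = sg c → 4 * ((K.fr {c.1}).card : ℤ) < stA_qs K Sp c.1) := by
  unfold stA_qs
  rw [stA_sum4, stA_wt_nd hc, stA_wt_nd (c := sg c) hc, stA_wt_nd (c := sg (sg c)) hc,
    stA_wt_nd (c := sg (sg (sg c))) hc]
  have h0 := deg_eq (K := K) c
  have h1 := deg_add_fr (K := K) c.1
  have h2 := h.deg_pos hq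
  simp only [Cx.Single, sg4, sg_fst]
  by_cases a0 : K.a c = c <;> by_cases a1 : K.a (sg c) = sg c <;>
    by_cases a2 : K.a (sg (sg c)) = sg (sg c) <;>
    by_cases a3 : K.a (sg (sg (sg c))) = sg (sg (sg c)) <;>
    simp only [a0, a1, a2, a3, if_true, if_false] at h0 <;>
    first
      | omega
      | (have h3 : (K.fr {c.1}).card = 4 - K.deg c.1 := by omega
         rw [h0] at h3
         simp [a0, a1, a2, a3, h3])

theorem stA_qs_ge (h : MC K) {q : ι} (hq : q ∈ K.Q) :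
    4 * ((K.fr {q}).card : ℤ) ≤ stA_qs K Sp q := by
  by_cases hc : stA_ND K q
  · exact (stA_qs_nd (c := (q, 0)) h hq hc).1
  · unfold stA_ND at hc
    push Not at hc
    obtain ⟨p, hp, rfl⟩ := hc
    rw [stA_qs_dis h hp, stA_fr_dis h hp]
    split_ifs <;> norm_num

theorem stA_sum_darts (g : Dart ι → ℤ) (U : Finset ι) :
    ∑ c ∈ univ.filter (fun c : Dart ι => c.1 ∈ U), g c = ∑ q ∈ U, ∑ i : Fin 4, g (q, i) := by
  have : univ.filter (fun c : Dart ι => c.1 ∈ U) = U ×ˢ (univ : Finset (Fin 4)) := by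
    ext x
    simp
  rw [this, sum_product]

theorem stA_ds_sum (U : Finset ι) : (K.ds U).card = ∑ q ∈ U, (K.ds {q}).card := by
  rw [card_eq_sum_card_fiberwise (f := Prod.fst) (s := K.ds U) (t := U)
    (fun x hx => (mem_ds.1 hx).2)]
  refine sum_congr rfl fun q hq => ?_
  congr 1
  ext x
  simp only [mem_filter, mem_ds, mem_singleton]
  constructor
  · rintro ⟨⟨h1, _⟩, h3⟩
    exact ⟨h1, h3⟩
  · rintro ⟨h1, h3⟩
    exact ⟨⟨h1, h3 ▸ hq⟩, h3⟩

/-- a sum over a set of corners of one colour, compared quad by quad -/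
theorem stA_fan_le {C : Finset (Dart ι)} (hcol : ∀ c ∈ C, ∀ c' ∈ C, col c = col c')
    (g : Dart ι → ℤ) (G : ι → ℤ) (h1 : ∀ c ∈ C, sg (sg c) ∉ C → g c ≤ G c.1)
    (h2 : ∀ c ∈ C, sg (sg c) ∈ C → g c + g (sg (sg c)) ≤ G c.1) :
    ∑ c ∈ C, g c ≤ ∑ q ∈ fanQ C, G q := by
  rw [← sum_fiberwise_of_maps_to (s := C) (t := fanQ C) (g := Prod.fst)
    (fun x hx => mem_fanQ.2 ⟨x, hx, rfl⟩)]
  refine sum_le_sum fun q hq => ?_
  obtain ⟨c, hc, rfl⟩ := mem_fanQ.1 hq
  have key : ∀ x ∈ C, x.1 = c.1 → x = c ∨ x = sg (sg c) := by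
    intro x hx hx1
    have hxc := hcol x hx c hc
    rcases same_quad hx1 with r | r | r | r
    · exact Or.inl r
    · have := col_sg c
      rw [r] at hxc
      omega
    · exact Or.inr r
    · have := col_sg3 c
      rw [r] at hxc
      omega
  by_cases h3 : sg (sg c) ∈ C
  · have : C.filter (fun x => x.1 = c.1) = {c, sg (sg c)} := by
      ext x
      simp only [mem_filter, mem_insert, mem_singleton]
      constructor
      · rintro ⟨a, b⟩
        exact key x a b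
      · rintro (rfl | rfl)
        · exact ⟨hc, rfl⟩
        · exact ⟨h3, rfl⟩
    rw [this, sum_pair (sg2_ne c).symm]
    exact h2 c hc h3
  · have : C.filter (fun x => x.1 = c.1) = {c} := by
      ext x
      simp only [mem_filter, mem_singleton]
      constructor
      · rintro ⟨a, b⟩
        rcases key x a b with r | r
        · exact r
        · exact absurd (r ▸ a) h3
      · rintro rfl
        exact ⟨hc, rfl⟩
    rw [this, sum_singleton]
    exact h1 c hc h3

end Pool.Agent.Lib.MP_8d6beb_co
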