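import Pool.Agent.Lib.MP_8d6beb_co.QStepA1

/-! Step A, second part: the key inequality for a class of corners. -/

namespace Pool.Agent.Lib.MP_8d6beb_co

open Finset Cx

set_option linter.unusedSectionVars false

variable {ι : Type} [Fintype ι] [DecidableEq ι] {K : Cx ι} {K1 : Finset ι} {e f : Dart ι}
  {Sp C : Finset (Dart ι)} {del : Bool} {w0 : ℕ}

theorem stA_sub_ext (D : Finset ι) : D ⊆ K.Ext K1 D del := by
  unfold Cx.Ext
  split_ifs
  · exact subset_union_left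
  · exact Subset.refl _

theorem stA_ext_mono {D D' : Finset ι} (h : D ⊆ D') : K.Ext K1 D del ⊆ K.Ext K1 D' del := by
  unfold Cx.Ext
  split_ifs
  · exact union_subset_union h (Subset.refl _)
  · exact h

/-- the free corners of `C` whose opposite corner is in `C` as well -/
def stA_Zs (K : Cx ι) (C : Finset (Dart ι)) : Finset (Dart ι) :=
  C.filter (fun w => K.a w = w ∧ K.a (sg w) = sg w ∧ sg (sg w) ∈ C)

/-- a class together with its reduction rule -/
structure stA_Gd (K : Cx ι) (K1 : Finset ι) (e f : Dart ι) (Sp C : Finset (Dart ι)) (del : Bool)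
    (w0 : ℕ) : Prop where
  cls : Cls K K1 e f C del
  hcol : ∀ c ∈ C, ∀ c' ∈ C, col c = col c'
  nos : ∀ c ∈ C, ¬ K.Single c
  free1 : ∀ c ∈ C, ∀ c' ∈ C, K.a c = c → K.a c' = c' → c = c'
  zs : ∀ w ∈ stA_Zs K C, K.Inside (K.Ext K1 (fanQ C) del) w ∧
    (sg (sg (sg w)) ∈ K.dis → sg (sg (sg w)) ∈ Sp)
  rule : K.Rule K1 C del (fanQ (C.filter (fun p => p ∈ Sp)))
    (w0 + 3 * (C.filter (fun p => p ∈ Sp)).card)

theorem stA_Gd.swap (h : stA_Gd K K1 e f Sp C del w0) : stA_Gd K K1 f e Sp C del w0 :=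
  ⟨h.cls.swap, h.hcol, h.nos, h.free1, h.zs, h.rule⟩

/-- the weight of a corner that is not single is at most the number of free sides, when the quad
has no disabled corner -/
theorem stA_wt_nd_le {c : Dart ι} (hc : stA_ND K c.1) (hs : ¬ K.Single c) :
    stA_wt K Sp c ≤ ((K.fr {c.1}).card : ℤ) := by
  rw [stA_wt_nd hc, if_neg hs]
  split_ifs with g
  · rw [g.2.2]; norm_num
  · exact le_refl _

theorem stA_nd_of_deg4 (h : MC K) {q : ι} (h4 : K.deg q = 4) : stA_ND K q := by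
  intro p hp g
  have := stA_deg_dis h hp
  rw [g] at this
  omega

/-- two opposite corners of a class in a quad with a free side -/
theorem stA_opp (h : MC K) {c : Dart ι} (hq : c.1 ∈ K.Q) (hf : K.Fc c (sg (sg c)))
    (h1 : ¬ K.Single c) (h2 : ¬ K.Single (sg (sg c))) (h4 : K.deg c.1 ≠ 4) :
    K.deg c.1 = 2 ∧ ((K.a c = c ∧ K.a (sg c) = sg c) ∨
      (K.a (sg (sg c)) = sg (sg c) ∧ K.a (sg (sg (sg c))) = sg (sg (sg c)))) := by
  have h0 := deg_eq (K := K) c
  simp only [Cx.Single, sg4] at h1 h2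
  have hd : K.deg c.1 ≠ 1 := by
    intro g
    by_cases a0 : K.a c = c <;> by_cases a1 : K.a (sg c) = sg c <;>
      by_cases a2 : K.a (sg (sg c)) = sg (sg c) <;>
      by_cases a3 : K.a (sg (sg (sg c))) = sg (sg (sg c)) <;>
      simp only [a0, a1, a2, a3, if_true, if_false] at h0 <;>
      first
        | omega
        | exact h1 ⟨a0, a3⟩
        | exact h2 ⟨a2, a1⟩
  have hdiag := h.diag hf h4 hd hq
  refine ⟨?_, hdiag⟩
  rcases hdiag with ⟨a0, a1⟩ | ⟨a2, a3⟩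
  · have a3 : K.a (sg (sg (sg c))) ≠ sg (sg (sg c)) := fun g => h1 ⟨a0, g⟩
    have a2 : K.a (sg (sg c)) ≠ sg (sg c) := fun g => h2 ⟨g, a1⟩
    rw [if_pos a0, if_pos a1, if_neg a2, if_neg a3] at h0
    exact h0
  · have a0 : K.a c ≠ c := fun g => h1 ⟨g, a3⟩
    have a1 : K.a (sg c) ≠ sg c := fun g => h2 ⟨a2, g⟩
    rw [if_neg a0, if_neg a1, if_pos a2, if_pos a3] at h0
    exact h0

/-- in a quad of degree two with the free sides `c`, `sg c` a disabled corner is `sg³ c` -/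
theorem stA_pivot (h : MC K) {c p : Dart ι} (a0 : K.a c = c) (a1 : K.a (sg c) = sg c)
    (hp : p ∈ K.dis) (hq : p.1 = c.1) : p = sg (sg (sg c)) := by
  have g := h.dis_glued hp
  rcases same_quad hq with r | r | r | r
  · exact absurd (r ▸ a0) g.1
  · exact absurd (r ▸ a1) g.1
  · refine absurd ?_ g.2
    rw [r, sg4]
    exact a1
  · exact r

/-- the summand of the key inequality -/
noncomputable def stA_g (K : Cx ι) (Sp C : Finset (Dart ι)) (c : Dart ι) : ℤ :=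
  stA_wt K Sp c + (if c ∈ K.dis ∧ c ∉ Sp then 4 else 0) + (if c ∈ Sp then 3 else 0) -
    (if K.a c = c ∧ K.a (sg c) = sg c ∧ sg (sg c) ∈ C then 1 else 0)

theorem stA_g_one (h : MC K) (hSp : ∀ p ∈ Sp, p ∈ K.dis) {c : Dart ι} (hs : ¬ K.Single c) :
    stA_g K Sp C c ≤ ((K.fr {c.1}).card : ℤ) + (K.ds {c.1}).card := by
  have hz : (0 : ℤ) ≤ if K.a c = c ∧ K.a (sg c) = sg c ∧ sg (sg c) ∈ C then 1 else 0 := by
    split_ifs <;> norm_num
  unfold stA_g
  by_cases hc : stA_ND K c.1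
  · have h0 : c ∉ K.dis := fun g => hc _ g rfl
    have h1 : c ∉ Sp := fun g => h0 (hSp _ g)
    have := stA_wt_nd_le (Sp := Sp) hc hs
    rw [if_neg (fun g => h0 g.1), if_neg h1]
    have : (0 : ℤ) ≤ (K.ds {c.1}).card := Nat.cast_nonneg _
    linarith
  · unfold stA_ND at hc
    push Not at hc
    obtain ⟨p, hp, hq⟩ := hc
    have e1 := stA_fr_dis h hp
    have e2 := stA_ds_dis h hp
    rw [← hq, e1, e2]
    rcases same_quad hq.symm with r | r | r | r
    · rw [r] at hz ⊢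
      rw [stA_wt_dis0 h hp]
      by_cases g : p ∈ Sp
      · rw [if_pos g, if_neg (fun t => t.2 g), if_pos g]
        push_cast
        linarith
      · rw [if_neg g, if_pos ⟨hp, g⟩, if_neg g]
        push_cast
        linarith
    · rw [r] at hz ⊢
      have n := stA_nd1 h hp
      rw [stA_wt_dis1 h hp, if_neg (fun t : _ ∧ _ => n t.1), if_neg (fun t => n (hSp _ t))]
      push_cast
      split_ifs at hz ⊢ <;> linarith
    · exact absurd (r ▸ stA_single2 h hp) hs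
    · rw [r] at hz ⊢
      have n := stA_nd3 h hp
      rw [stA_wt_dis3 h hp, if_neg (fun t : _ ∧ _ => n t.1), if_neg (fun t => n (hSp _ t))]
      push_cast
      split_ifs at hz ⊢ <;> linarith

theorem stA_g_two (h : MC K) (hSp : ∀ p ∈ Sp, p ∈ K.dis) {c : Dart ι} (a0 : K.a c = c)
    (a1 : K.a (sg c) = sg c) (hd : K.deg c.1 = 2) (h2 : sg (sg c) ∈ C)
    (hsp : sg (sg (sg c)) ∈ K.dis → sg (sg (sg c)) ∈ Sp) :
    stA_g K Sp C c + stA_g K Sp C (sg (sg c)) ≤
      ((K.fr {c.1}).card : ℤ) + (K.ds {c.1}).card := by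
  have h0 := deg_eq (K := K) c
  have hfr : (K.fr {c.1}).card = 2 := by
    have := deg_add_fr (K := K) c.1
    omega
  have a2 : K.a (sg (sg c)) ≠ sg (sg c) := by
    intro g
    rw [if_pos a0, if_pos a1, if_pos g] at h0
    split_ifs at h0 <;> omega
  have a3 : K.a (sg (sg (sg c))) ≠ sg (sg (sg c)) := by
    intro g
    rw [if_pos a0, if_pos a1, if_pos g] at h0
    split_ifs at h0 <;> omega
  have n0 : c ∉ K.dis := fun g => (h.dis_glued g).1 a0
  have n2 : sg (sg c) ∉ K.dis := fun g => (h.dis_glued g).2 (by rw [sg4]; exact a1)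
  unfold stA_g
  rw [if_neg (fun t : _ ∧ _ => n0 t.1), if_neg (fun t => n0 (hSp _ t)),
    if_neg (fun t : _ ∧ _ => n2 t.1), if_neg (fun t => n2 (hSp _ t)), if_pos ⟨a0, a1, h2⟩,
    if_neg (fun t : _ ∧ _ => a2 t.1), hfr]
  by_cases hc : stA_ND K c.1
  · have s0 : ¬ K.Single c := fun s => a3 s.2
    have s2 : ¬ K.Single (sg (sg c)) := fun s => a2 s.1
    have w1 := stA_wt_nd_le (Sp := Sp) hc s0
    have w2 : stA_wt K Sp (sg (sg c)) = 1 := by
      rw [stA_wt_nd (c := sg (sg c)) hc, if_neg s2, if_pos]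
      rw [sg4]
      exact ⟨a0, a1, hfr⟩
    rw [hfr] at w1
    have : (0 : ℤ) ≤ (K.ds {c.1}).card := Nat.cast_nonneg _
    push_cast at w1 ⊢
    linarith
  · unfold stA_ND at hc
    push Not at hc
    obtain ⟨p, hp, hq⟩ := hc
    have r := stA_pivot h a0 a1 hp hq
    have hs : p ∈ Sp := r ▸ hsp (r ▸ hp)
    have w1 := stA_wt_dis1 (Sp := Sp) h hp
    have w3 := stA_wt_dis3 (Sp := Sp) h hp
    rw [if_pos hs] at w1 w3
    have e2 := stA_ds_dis h hp
    rw [hq] at e2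
    rw [r, sg4] at w1 w3
    rw [w1, w3, e2]
    norm_num

theorem stA_key (h : Setup K K1 e f) (hSp : ∀ p ∈ Sp, p ∈ K.dis)
    (hG : stA_Gd K K1 e f Sp C del w0) :
    ∑ c ∈ C, stA_wt K Sp c + 4 * ((C.filter (fun p => p ∈ K.dis ∧ p ∉ Sp)).card : ℤ) +
      3 * ((C.filter (fun p => p ∈ Sp)).card : ℤ) ≤
      ((K.fr (fanQ C)).card : ℤ) + (K.ds (fanQ C)).card + (stA_Zs K C).card := by
  have main : ∑ c ∈ C, stA_g K Sp C c ≤
      ∑ q ∈ fanQ C, (((K.fr {q}).card : ℤ) + (K.ds {q}).card) := by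
    refine stA_fan_le hG.hcol _ _ (fun c hc _ => stA_g_one h.mc hSp (hG.nos c hc)) ?_
    intro c hc hc2
    by_cases h4 : K.deg c.1 = 4
    · have hn := stA_nd_of_deg4 h.mc h4
      have hfr : (K.fr {c.1}).card = 0 := by
        have := deg_add_fr (K := K) c.1
        omega
      have hds : (K.ds {c.1}).card = 0 := by
        rw [card_eq_zero, eq_empty_iff_forall_notMem]
        intro x hx
        rw [mem_ds, mem_singleton] at hx
        exact hn _ hx.1 hx.2
      have b1 := stA_g_one (C := C) h.mc hSp (hG.nos c hc)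
      have b2 := stA_g_one (C := C) h.mc hSp (hG.nos _ hc2)
      simp only [sg_fst] at b2
      rw [hfr, hds] at b1 b2 ⊢
      push_cast at b1 b2 ⊢
      linarith
    · obtain ⟨hd, hh⟩ := stA_opp h.mc (h.sub (hG.cls.sub c hc)) (hG.cls.fc hc hc2) (hG.nos c hc)
        (hG.nos _ hc2) h4
      rcases hh with ⟨a0, a1⟩ | ⟨a2, a3⟩
      · exact stA_g_two h.mc hSp a0 a1 hd hc2
          (hG.zs c (mem_filter.2 ⟨hc, a0, a1, hc2⟩)).2
      · have hc4 : sg (sg (sg (sg c))) ∈ C := by rwa [sg4]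
        have := stA_g_two (C := C) (c := sg (sg c)) h.mc hSp a2 a3 hd hc4
          (hG.zs _ (mem_filter.2 ⟨hc2, a2, a3, hc4⟩)).2
        rw [sg4] at this
        simp only [sg_fst] at this
        linarith
  rw [sum_add_distrib, ← Nat.cast_sum, ← Nat.cast_sum, ← card_fr_eq_sum, ← stA_ds_sum] at main
  unfold stA_g at main
  rw [sum_sub_distrib, sum_add_distrib, sum_add_distrib] at main
  have s1 : ∑ c ∈ C, (if c ∈ K.dis ∧ c ∉ Sp then (4 : ℤ) else 0) =
      4 * ((C.filter (fun p => p ∈ K.dis ∧ p ∉ Sp)).card : ℤ) := by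
    rw [← sum_filter, sum_const, nsmul_eq_mul, mul_comm]
  have s2 : ∑ c ∈ C, (if c ∈ Sp then (3 : ℤ) else 0) =
      3 * ((C.filter (fun p => p ∈ Sp)).card : ℤ) := by
    rw [← sum_filter, sum_const, nsmul_eq_mul, mul_comm]
  have s3 : ∑ c ∈ C, (if K.a c = c ∧ K.a (sg c) = sg c ∧ sg (sg c) ∈ C then (1 : ℤ) else 0) =
      ((stA_Zs K C).card : ℤ) := by
    rw [← sum_filter, sum_const, nsmul_eq_mul, mul_one]
    rfl
  rw [s1, s2, s3] at main
  linarith

/-- the picks that cover the quads whose corner in `C` is disabled -/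
def stA_X0 (K : Cx ι) (Sp C : Finset (Dart ι)) : Finset (Dart ι) :=
  (C.filter (fun p => p ∈ K.dis ∧ p ∉ Sp)).image (fun p => sg (sg p))

theorem stA_cover (h : MC K) {q : ι} (hq : q ∈ fanQ C) :
    K.Cov (stA_X0 K Sp C) q ∨ (∃ c ∈ C, c.1 = q ∧ c ∉ K.dis) ∨
      q ∈ fanQ (C.filter (fun p => p ∈ Sp)) := by
  obtain ⟨c, hc, rfl⟩ := mem_fanQ.1 hq
  by_cases h1 : c ∈ K.dis
  · by_cases h2 : c ∈ Sp
    · exact Or.inr (Or.inr (mem_fanQ.2 ⟨c, mem_filter.2 ⟨hc, h2⟩, rfl⟩))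
    · refine Or.inl (cov_of_hit (c := sg (sg c)) (hit_of_mem ?_) (stA_nd2 h h1))
      exact mem_image.2 ⟨c, mem_filter.2 ⟨hc, h1, h2⟩, rfl⟩
  · exact Or.inr (Or.inl ⟨c, hc, rfl, h1⟩)

theorem stA_fan_sub (hC : Cls K K1 e f C del) : fanQ C ⊆ K1 := by
  intro q hq
  obtain ⟨c, hc, rfl⟩ := mem_fanQ.1 hq
  exact hC.sub c hc

theorem stA_Gd.le (h : Setup K K1 e f) (hSp : ∀ p ∈ Sp, p ∈ K.dis)
    (hG : stA_Gd K K1 e f Sp C del w0) : ∑ c ∈ C, stA_wt K Sp c ≤ w0 := by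
  have key := stA_key h hSp hG
  by_contra hlt
  refine hG.rule (fanQ C) (stA_X0 K Sp C) (stA_Zs K C) (stA_fan_sub hG.cls) (Subset.refl _)
    (hG.cls.connOn h) (hG.cls.noMT h) (fun q hq => stA_cover h.mc hq) ?_ ?_ ?_
  · intro z hz
    have hz' := mem_filter.1 hz
    exact ⟨hG.cls.sub z hz'.1, hz'.2.1, (hG.zs z hz).1⟩
  · intro z hz z' hz' _
    exact hG.free1 z (mem_filter.1 hz).1 z' (mem_filter.1 hz').1 (mem_filter.1 hz).2.1
      (mem_filter.1 hz').2.1
  · have hx : (stA_X0 K Sp C).card ≤ (C.filter (fun p => p ∈ K.dis ∧ p ∉ Sp)).card :=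
      card_image_le
    zify at hx ⊢
    linarith

theorem stA_Gd.pick (h : Setup K K1 e f) (hSp : ∀ p ∈ Sp, p ∈ K.dis)
    (hG : stA_Gd K K1 e f Sp C del w0) (hw : (w0 : ℤ) ≤ ∑ c ∈ C, stA_wt K Sp c)
    (hz : ∀ w ∈ stA_Zs K C, ¬ K.Inside K1 w) : K.Pick K1 C del := by
  intro D X z0 hD hfan hcon hmt hcov hz0 hin hnum
  have key := stA_key h hSp hG
  have hz0' : z0 ∉ stA_Zs K C := fun g => hz z0 g (hin.mono hD)
  refine hG.rule D (stA_X0 K Sp C ∪ X) (insert z0 (stA_Zs K C)) hD hfan hcon hmt ?_ ?_ ?_ ?_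
  · intro q hq
    by_cases g : q ∈ fanQ C
    · rcases stA_cover (Sp := Sp) h.mc g with r | r | r
      · exact Or.inl (r.mono subset_union_left)
      · exact Or.inr (Or.inl r)
      · exact Or.inr (Or.inr r)
    · exact Or.inl ((hcov q hq g).mono subset_union_right)
  · intro z hz1
    rcases mem_insert.1 hz1 with rfl | hz1
    · exact ⟨hD (hin z (Fc.refl z)), hz0, hin.mono (stA_sub_ext D)⟩
    · have hz' := mem_filter.1 hz1
      exact ⟨hG.cls.sub z hz'.1, hz'.2.1, (hG.zs z hz1).1.mono (stA_ext_mono hfan)⟩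
  · intro z hz1 z' hz2 hf
    rcases mem_insert.1 hz1 with r1 | r1 <;> rcases mem_insert.1 hz2 with r2 | r2
    · rw [r1, r2]
    · exact absurd ((hin.mono hD).of_fc (r1 ▸ hf)) (hz z' r2)
    · exact absurd ((hin.mono hD).of_fc (r2 ▸ hf.symm)) (hz z r1)
    · exact hG.free1 z (mem_filter.1 r1).1 z' (mem_filter.1 r2).1 (mem_filter.1 r1).2.1
        (mem_filter.1 r2).2.1
  · have hx : (stA_X0 K Sp C).card ≤ (C.filter (fun p => p ∈ K.dis ∧ p ∉ Sp)).card :=
      card_image_le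
    have hu := card_union_le (stA_X0 K Sp C) X
    have h1 := card_fr_sdiff (K := K) hfan
    have h2 := card_ds_sdiff (K := K) hfan
    rw [card_insert_of_notMem hz0']
    zify at hx hu h1 h2 hnum ⊢
    have : (0 : ℤ) ≤ (K.ds (D \ fanQ C)).card := Nat.cast_nonneg _
    linarith

end Pool.Agent.Lib.MP_8d6beb_co
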