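import Pool.Agent.Lib.MP_8d6beb_co.QStepA2

/-! Step A, third part: the classes of corners and their rules. -/

namespace Pool.Agent.Lib.MP_8d6beb_co

open Finset Cx

set_option linter.unusedSectionVars false

variable {ι : Type} [Fintype ι] [DecidableEq ι] {K : Cx ι} {K1 : Finset ι} {e f : Dart ι}
  {Sp C : Finset (Dart ι)} {del : Bool} {w0 : ℕ}

/-- the vertex of `u` in the piece -/
noncomputable abbrev stA_c1 (K : Cx ι) (K1 : Finset ι) (u : Dart ι) : Finset (Dart ι) :=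
  (K.res K1 ∅).cl u

/-- the port corners on the curve of `e` -/
noncomputable abbrev stA_X (K : Cx ι) (K1 : Finset ι) (e f : Dart ι) : Finset (Dart ι) :=
  stA_c1 K K1 e ∪ stA_c1 K K1 (sg f)

theorem stA_c1_vx {u x : Dart ι} (h : x ∈ stA_c1 K K1 u) : K.Vx u x := vx_of_res (mem_cl.1 h)

theorem stA_c1_self (u : Dart ι) : u ∈ stA_c1 K K1 u := mem_cl.2 (Vx.refl u)

theorem stA_c1_eq {u x : Dart ι} (h : x ∈ stA_c1 K K1 u) : stA_c1 K K1 u = stA_c1 K K1 x := by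
  have h' := mem_cl.1 h
  ext y
  simp only [mem_cl]
  exact ⟨fun g => h'.symm.trans g, fun g => h'.trans g⟩

theorem stA_res_free {x : Dart ι} (h : K.a x = x) : (K.res K1 ∅).a x = x := by
  by_contra g
  exact (res_glued.1 g).2.2 h

theorem stA_port_vx {c c' : Dart ι} (h : K.Port K1 c) (h' : K.Vx c c') : K.Port K1 c' := by
  obtain ⟨x, h1, h2⟩ := h
  exact ⟨x, h'.symm.trans h1, h2⟩

theorem stA_rule_empty (hsp : ∀ p ∈ Sp, p ∉ C) (r : K.Rule K1 C del ∅ w0) :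
    K.Rule K1 C del (fanQ (C.filter (fun p => p ∈ Sp)))
      (w0 + 3 * (C.filter (fun p => p ∈ Sp)).card) := by
  have : C.filter (fun p => p ∈ Sp) = ∅ :=
    filter_eq_empty_iff.2 (fun x hx g => hsp x g hx)
  rw [this]
  exact r

theorem stA_gd_v1 (h : Setup K K1 e f) {u : Dart ι} (hC : Cls K K1 e f (stA_c1 K K1 u) del)
    (hns : ¬ K.Single u)
    (r : K.Rule K1 (stA_c1 K K1 u) del (fanQ ((stA_c1 K K1 u).filter (fun p => p ∈ Sp)))
      (w0 + 3 * ((stA_c1 K K1 u).filter (fun p => p ∈ Sp)).card)) :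
    stA_Gd K K1 e f Sp (stA_c1 K K1 u) del w0 := by
  have hv : ∀ c ∈ stA_c1 K K1 u, ∀ c' ∈ stA_c1 K K1 u, K.Vx c c' :=
    fun c hc c' hc' => (stA_c1_vx hc).symm.trans (stA_c1_vx hc')
  refine ⟨hC, fun c hc c' hc' => h.mc.valid.col_vx (hv c hc c' hc'), ?_,
    fun c hc c' hc' a b => last_unique a b (hv c hc c' hc'), ?_, r⟩
  · intro c hc hs
    have := Vx.single hs.1 hs.2 (stA_c1_vx hc).symm
    exact hns (this ▸ hs)
  · intro w hw
    obtain ⟨hw0, a0, a1, hw2⟩ := mem_filter.1 hw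
    constructor
    · refine Inside.mono (stA_sub_ext _) ?_
      intro y hy
      have : y ∈ stA_c1 K K1 u ∨ y = sg w := by
        refine Fc.ind (P := fun y => y ∈ stA_c1 K K1 u ∨ y = sg w) ?_ hy (Or.inl hw0)
        rintro x (hx | rfl)
        · by_cases g : (K.res K1 ∅).a x = x
          · have : x = w := last_unique (K := K.res K1 ∅) g (stA_res_free a0)
              ((mem_cl.1 hx).symm.trans (mem_cl.1 hw0))
            rw [this, phi_free a0]
            exact Or.inr rfl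
          · obtain ⟨g1, g2, g3⟩ := res_glued.1 g
            exact Or.inl (hC.closed x hx _ (res_vx_step ∅ g1 g2 g3))
        · rw [phi_free a1]
          exact Or.inl hw2
      rcases this with g | rfl
      · exact mem_fanQ.2 ⟨y, g, rfl⟩
      · exact mem_fanQ.2 ⟨w, hw0, rfl⟩
    · intro hp
      refine absurd ?_ (h.mc.valid.dis_ne _ hp)
      rw [sg4]
      exact hv _ hw0 _ hw2

/-- what is used about the special pivots -/
structure stA_SpOK (K : Cx ι) (K1 : Finset ι) (Sp : Finset (Dart ι)) : Prop where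
  dis : ∀ p ∈ Sp, p ∈ K.dis
  np : ∀ p ∈ Sp, ∀ c : Dart ι, K.Fc p c → c.1 ∈ K1 → ¬ K.Port K1 c
  mark : ∀ p ∈ Sp, ∃ m : Dart ι, m.1 ∈ K.Q \ K1 ∧ K.Vx m (sg p)
  port3 : ∀ p ∈ Sp, K.Port K1 (sg (sg (sg p)))
  uniq : ∀ p ∈ Sp, ∀ p' ∈ Sp, col p = col p' → p = p'

theorem stA_spok_empty : stA_SpOK K K1 ∅ := by
  constructor <;> simp

theorem stA_cl_eq {u : Dart ι} (hu : ¬ K.Port K1 u) : K.cl u = stA_c1 K K1 u := by
  ext x
  simp only [mem_cl]
  refine ⟨fun g => res_vx_of_vx ∅ (fun y hy => ?_) g, fun g => vx_of_res g⟩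
  by_contra t
  exact hu ⟨y, hy, t⟩

theorem stA_gd_np (h : Setup K K1 e f) (hS : stA_SpOK K K1 Sp) {u : Dart ι}
    (hu : ¬ K.Port K1 u) (hns : ¬ K.Single u) : stA_Gd K K1 e f Sp (K.cl u) false 4 := by
  have hC := h.cls_vx hu
  rw [stA_cl_eq hu] at hC ⊢
  refine stA_gd_v1 h hC hns ?_
  have hv : ∀ c ∈ stA_c1 K K1 u, K.Vx u c := fun c hc => stA_c1_vx hc
  by_cases g : ∀ p ∈ Sp, p ∉ stA_c1 K K1 u
  · exact stA_rule_empty g (h.rule_norm hC.ne hv)
  · push Not at g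
    obtain ⟨p, hp, hpc⟩ := g
    have : (stA_c1 K K1 u).filter (fun p => p ∈ Sp) = {p} := by
      ext x
      simp only [mem_filter, mem_singleton]
      constructor
      · rintro ⟨a, b⟩
        exact hS.uniq x b p hp (h.mc.valid.col_vx ((hv x a).symm.trans (hv p hpc)))
      · rintro rfl
        exact ⟨hpc, hp⟩
    rw [this]
    obtain ⟨m, hm, hmv⟩ := hS.mark p hp
    exact h.rule_p hC.ne hv (hS.dis p hp) hm hmv

theorem stA_ee (h : Setup K K1 e f) (h1 : K1 ≠ K.Q) : K.EE K1 e f :=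
  (h.port.resolve_left h1).1

theorem stA_fc_e_sf (hE : K.EE K1 e f) : K.Fc e (sg f) := hE.fc_e_af.trans (fc_a_sg f)

theorem stA_port_u (h : Setup K K1 e f) (h1 : K1 ≠ K.Q) {u : Dart ι}
    (hu : u = e ∨ u = sg f ∨ u = f ∨ u = sg e) : u.1 ∈ K1 ∧ ¬ K.Single u ∧ K.Port K1 u := by
  have hE := stA_ee h h1
  have hm : u.1 ∈ K1 := by
    rcases hu with rfl | rfl | rfl | rfl
    exacts [hE.e_mem, hE.swap.e_mem, hE.swap.e_mem, hE.e_mem]
  refine ⟨hm, ?_, ?_⟩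
  · rcases hu with rfl | rfl | rfl | rfl
    · exact fun s => hE.e_glued s.1
    · exact fun s => hE.swap.e_glued (by have := s.2; rwa [sg4] at this)
    · exact fun s => hE.swap.e_glued s.1
    · exact fun s => hE.e_glued (by have := s.2; rwa [sg4] at this)
  · rw [h.port_iff h1 hm]
    rcases hu with rfl | rfl | rfl | rfl
    · exact Or.inl (Vx.refl _)
    · exact Or.inr (Or.inl (Vx.refl _))
    · exact Or.inr (Or.inr (Or.inl (Vx.refl _)))
    · exact Or.inr (Or.inr (Or.inr (Vx.refl _)))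

theorem stA_c1_mem {u x : Dart ι} (hu : u.1 ∈ K1) (h : x ∈ stA_c1 K K1 u) : x.1 ∈ K1 :=
  Vx.mem (K := K.res K1 ∅) (mem_cl.1 h) hu

theorem stA_sp_not_c1 (h : Setup K K1 e f) (h1 : K1 ≠ K.Q) (hS : stA_SpOK K K1 Sp) {u : Dart ι}
    (hu : u = e ∨ u = sg f ∨ u = f ∨ u = sg e) : ∀ p ∈ Sp, p ∉ stA_c1 K K1 u := by
  intro p hp g
  have := stA_port_u h h1 hu
  exact hS.np p hp p (Fc.refl p) (stA_c1_mem this.1 g) (stA_port_vx this.2.2 (stA_c1_vx g))

theorem stA_gd_del (h : Setup K K1 e f) (h1 : K1 ≠ K.Q) (hS : stA_SpOK K K1 Sp) {u : Dart ι}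
    (hu : u = e ∨ u = sg f ∨ u = f ∨ u = sg e) {P : Finset (Dart ι)}
    (hP : K.Cheap K1 P (w0 + 1)) (hz : u ∈ P) : stA_Gd K K1 e f Sp (stA_c1 K K1 u) true w0 :=
  stA_gd_v1 h (h.cls_port h1 hu) (stA_port_u h h1 hu).2.1
    (stA_rule_empty (stA_sp_not_c1 h h1 hS hu)
      (h.rule_del h1 hP (fun _ hc => ⟨u, hz, stA_c1_vx hc⟩)))

theorem stA_gd_delx (h : Setup K K1 e f) (h1 : K1 ≠ K.Q) (hS : stA_SpOK K K1 Sp) {u : Dart ι}
    (hu : u = e ∨ u = sg f ∨ u = f ∨ u = sg e) {P : Finset (Dart ι)}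
    (hP : K.Cheap K1 P (w0 + 2)) (hz : u ∈ P) (hx : K.V1 K1 (sg f) e) (he : e ∈ P) :
    stA_Gd K K1 e f Sp (stA_c1 K K1 u) true w0 :=
  stA_gd_v1 h (h.cls_port h1 hu) (stA_port_u h h1 hu).2.1
    (stA_rule_empty (stA_sp_not_c1 h h1 hS hu)
      (h.rule_delx h1 hP (fun _ hc => ⟨u, hz, stA_c1_vx hc⟩) hx he))

theorem stA_gd_keep (h : Setup K K1 e f) (h1 : K1 ≠ K.Q) (hS : stA_SpOK K K1 Sp) {u : Dart ι}
    (hu : u = e ∨ u = sg f ∨ u = f ∨ u = sg e) (hx : ¬ K.V1 K1 (sg f) e)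
    (hy : ¬ K.V1 K1 (sg e) f) : stA_Gd K K1 e f Sp (stA_c1 K K1 u) false 3 := by
  obtain ⟨hm, hns, m, hv, hm'⟩ := stA_port_u h h1 hu
  have hC := h.cls_port_keep h1 hu hx hy
  exact stA_gd_v1 h hC hns (stA_rule_empty (stA_sp_not_c1 h h1 hS hu)
    (h.rule_mark (m := m) hC.ne (fun c hc => hv.symm.trans (stA_c1_vx hc))
      (mem_sdiff.2 ⟨hv.mem (h.sub hm), hm'⟩)))

/-! ### both port vertices on the curve of `e` -/

theorem stA_X_fc (hE : K.EE K1 e f) {c : Dart ι} (hc : c ∈ stA_X K K1 e f) : K.Fc e c := by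
  rcases mem_union.1 hc with g | g
  · exact (stA_c1_vx g).fc
  · exact (stA_fc_e_sf hE).trans (stA_c1_vx g).fc

theorem stA_X_mem (hE : K.EE K1 e f) {c : Dart ι} (hc : c ∈ stA_X K K1 e f) : c.1 ∈ K1 := by
  rcases mem_union.1 hc with g | g
  · exact stA_c1_mem hE.e_mem g
  · exact stA_c1_mem (u := sg f) hE.swap.e_mem g

theorem stA_X_port (h : Setup K K1 e f) (h1 : K1 ≠ K.Q) {c : Dart ι}
    (hc : c ∈ stA_X K K1 e f) : K.Port K1 c := by
  rcases mem_union.1 hc with g | g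
  · exact stA_port_vx (stA_port_u h h1 (Or.inl rfl)).2.2 (stA_c1_vx g)
  · exact stA_port_vx (stA_port_u h h1 (Or.inr (Or.inl rfl))).2.2 (stA_c1_vx g)

theorem stA_X_free (hE : K.EE K1 e f) {c : Dart ι} (hc : c ∈ stA_X K K1 e f) (a0 : K.a c = c) :
    c ∈ stA_c1 K K1 (sg f) := by
  rcases mem_union.1 hc with g | g
  · have he : (K.res K1 ∅).a e = e := res_a_out ∅ (fun t => hE.ae_not_mem t.2)
    have := last_unique (K := K.res K1 ∅) he (stA_res_free a0) (mem_cl.1 g)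
    exact absurd (this ▸ a0) hE.e_glued
  · exact g

theorem stA_X_free1 (hE : K.EE K1 e f) {c c' : Dart ι} (hc : c ∈ stA_X K K1 e f)
    (hc' : c' ∈ stA_X K K1 e f) (a0 : K.a c = c) (a1 : K.a c' = c') : c = c' :=
  last_unique a0 a1 ((stA_c1_vx (stA_X_free hE hc a0)).symm.trans
    (stA_c1_vx (stA_X_free hE hc' a1)))

theorem stA_X_col (h : Setup K K1 e f) (hp : col e = col (sg f)) {c : Dart ι}
    (hc : c ∈ stA_X K K1 e f) : col c = col e := by
  rcases mem_union.1 hc with g | g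
  · exact (h.mc.valid.col_vx (stA_c1_vx g)).symm
  · rw [hp]
    exact (h.mc.valid.col_vx (stA_c1_vx g)).symm

theorem stA_gd_pair (h : Setup K K1 e f) (h1 : K1 ≠ K.Q) (hS : stA_SpOK K K1 Sp)
    (hp : col e = col (sg f))
    (hz : ∀ p ∈ K.dis, sg p ∈ stA_X K K1 e f → sg (sg (sg p)) ∈ stA_X K K1 e f → p ∈ Sp)
    (r : K.Rule K1 (stA_X K K1 e f) true ∅ w0) : stA_Gd K K1 e f Sp (stA_X K K1 e f) true w0 := by
  have hE := stA_ee h h1
  have hC : Cls K K1 e f (stA_X K K1 e f) true := h.cls_pair h1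
  refine ⟨hC, fun c hc c' hc' => (stA_X_col h hp hc).trans (stA_X_col h hp hc').symm, ?_,
    fun c hc c' hc' a b => stA_X_free1 hE hc hc' a b, ?_, stA_rule_empty ?_ r⟩
  · intro c hc hs
    rcases mem_union.1 hc with g | g
    · have := Vx.single hs.1 hs.2 (stA_c1_vx g).symm
      exact (stA_port_u h h1 (Or.inl rfl)).2.1 (this ▸ hs)
    · have := Vx.single hs.1 hs.2 (stA_c1_vx g).symm
      exact (stA_port_u h h1 (Or.inr (Or.inl rfl))).2.1 (this ▸ hs)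
  · intro w hw
    obtain ⟨hw0, a0, a1, hw2⟩ := mem_filter.1 hw
    constructor
    · intro y hy
      have : y ∈ stA_X K K1 e f ∨ y = sg w ∨ (y.1 ∈ K.Q \ K1 ∧ K.Fc e y) := by
        refine Fc.ind (P := fun y => y ∈ stA_X K K1 e f ∨ y = sg w ∨
          (y.1 ∈ K.Q \ K1 ∧ K.Fc e y)) ?_ hy (Or.inl hw0)
        rintro x (hx | rfl | ⟨hx, hx'⟩)
        · by_cases g : K.a x = x
          · rw [stA_X_free1 hE hx hw0 g a0, phi_free a0]
            exact Or.inr (Or.inl rfl)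
          · by_cases g' : (K.a x).1 ∈ K1
            · exact Or.inl (hC.closed x hx _ (res_vx_step ∅ (hC.sub x hx) g' g))
            · exact Or.inr (Or.inr ⟨mem_sdiff.2 ⟨a_mem (h.sub (hC.sub x hx)), g'⟩,
                (stA_X_fc hE hx).trans (fc_phi x)⟩)
        · rw [phi_free a1]
          exact Or.inl hw2
        · by_cases g' : (K.a x).1 ∈ K1
          · rcases hE.eq_of_cut g' (by rw [K.inv]; exact (mem_sdiff.1 hx).2) with t | t
            · refine absurd ?_ hE.nb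
              rw [← t, K.inv, t]
              exact hx'
            · rw [phi_apply, t]
              exact Or.inl (mem_union_right _ (stA_c1_self _))
          · exact Or.inr (Or.inr ⟨mem_sdiff.2 ⟨a_mem (mem_sdiff.1 hx).1, g'⟩,
              hx'.trans (fc_phi x)⟩)
      rcases this with g | rfl | g
      · exact stA_sub_ext _ (mem_fanQ.2 ⟨y, g, rfl⟩)
      · exact stA_sub_ext _ (mem_fanQ.2 ⟨w, hw0, rfl⟩)
      · exact mem_union_right _ g.1
    · intro hp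
      refine hz _ hp ?_ ?_
      · rwa [sg4]
      · rwa [sg4]
  · intro p hp g
    exact hS.np p hp p (Fc.refl p) (hC.sub p g) (stA_X_port h h1 g)

/-- a pivot next to a port corner on the curve of `e` is on neither curve through the cut -/
theorem stA_sp_off (h : Setup K K1 e f) (h1 : K1 ≠ K.Q) {p : Dart ι} (hp : p ∈ K.dis)
    (hx : sg p ∈ stA_X K K1 e f) : ¬ K.Fc p e ∧ ¬ K.Fc p f := by
  obtain ⟨hE, -, -, de, df, -⟩ := h.port.resolve_left h1
  have hm : p.1 ∈ K1 := stA_X_mem (c := sg p) hE hx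
  have g := (h.mc.dis_glued hp).1
  have hd := stA_deg_dis h.mc hp
  have f1 : K.Fc (K.a p) e := (fc_a_sg p).trans (stA_X_fc hE hx).symm
  have n1 : ¬ K.Fc p e := fun t =>
    h.mc.not_bridge g (by omega) (by omega) (t.trans f1.symm)
  refine ⟨n1, fun t => ?_⟩
  have hne : e ≠ K.a p := fun r => hE.ae_not_mem (by rw [r, K.inv]; exact hm)
  rcases h.gp p e g hE.e_glued (Or.inl hm) (Or.inl hE.e_mem) f1 (hE.fc_f_ae.symm.trans t.symm) n1
    hne with r | r | ⟨-, r | r | r | r⟩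
  · have := r.2.2.2.1
    omega
  · exact hE.ae_not_mem r.2.1
  · exact hE.ne r.2
  · rw [r.1] at hd
    omega
  · exact hne r.1.symm
  · exact hE.e_glued r.2

theorem stA_port_fc (h : Setup K K1 e f) (h1 : K1 ≠ K.Q) {c : Dart ι} (hc : c.1 ∈ K1)
    (hp : K.Port K1 c) : K.Fc c e ∨ K.Fc c f := by
  have hE := stA_ee h h1
  rcases (h.port_iff h1 hc).1 hp with g | g | g | g
  · exact Or.inl (vx_of_res g).fc
  · exact Or.inl ((vx_of_res g).fc.trans (stA_fc_e_sf hE).symm)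
  · exact Or.inr (vx_of_res g).fc
  · exact Or.inr ((vx_of_res g).fc.trans (stA_fc_e_sf hE.swap).symm)

theorem stA_sp_x (h : Setup K K1 e f) (h1 : K1 ≠ K.Q) {p : Dart ι} (hp : p ∈ K.dis)
    (hx : sg p ∈ stA_X K K1 e f) (hx3 : sg (sg (sg p)) ∈ stA_X K K1 e f) :
    (∀ c : Dart ι, K.Fc p c → c.1 ∈ K1 → ¬ K.Port K1 c) ∧
      (∃ m : Dart ι, m.1 ∈ K.Q \ K1 ∧ K.Vx m (sg p)) ∧ K.Port K1 (sg (sg (sg p))) := by
  have hE := stA_ee h h1
  refine ⟨fun c hc hm hpc => ?_, ?_, stA_X_port h h1 hx3⟩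
  · have := stA_sp_off h h1 hp hx
    rcases stA_port_fc h h1 hm hpc with g | g
    · exact this.1 (hc.trans g)
    · exact this.2 (hc.trans g)
  · obtain ⟨m, hv, hm⟩ := stA_X_port h h1 hx
    exact ⟨m, mem_sdiff.2 ⟨hv.mem (h.sub (stA_X_mem hE hx)), hm⟩, hv.symm⟩

/-- the special pivots -/
noncomputable def stA_Sp (K : Cx ι) (K1 : Finset ι) (e f : Dart ι) : Finset (Dart ι) :=
  K.dis.filter (fun p => (sg p ∈ stA_X K K1 e f ∧ sg (sg (sg p)) ∈ stA_X K K1 e f) ∨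
    (sg p ∈ stA_X K K1 f e ∧ sg (sg (sg p)) ∈ stA_X K K1 f e))

theorem stA_col_sf (hp : col e ≠ col f) : col e = col (sg f) := by
  have := col_sg f
  have := col_lt e
  have := col_lt f
  omega

theorem stA_spok (h : Setup K K1 e f) (h1 : K1 ≠ K.Q) (hp : col e ≠ col f) :
    stA_SpOK K K1 (stA_Sp K K1 e f) := by
  have hE := stA_ee h h1
  have key : ∀ p ∈ stA_Sp K K1 e f, (∀ c : Dart ι, K.Fc p c → c.1 ∈ K1 → ¬ K.Port K1 c) ∧
      (∃ m : Dart ι, m.1 ∈ K.Q \ K1 ∧ K.Vx m (sg p)) ∧ K.Port K1 (sg (sg (sg p))) := by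
    intro p hp
    obtain ⟨a, b | b⟩ := mem_filter.1 hp
    · exact stA_sp_x h h1 a b.1 b.2
    · exact stA_sp_x h.swap h1 a b.1 b.2
  refine ⟨fun p hp => (mem_filter.1 hp).1, fun p hp => (key p hp).1, fun p hp => (key p hp).2.1,
    fun p hp => (key p hp).2.2, ?_⟩
  intro p hp1 p' hp2 hc
  have c1 := col_sg p
  have c2 := col_sg p'
  obtain ⟨a, b | b⟩ := mem_filter.1 hp1 <;> obtain ⟨a', b' | b'⟩ := mem_filter.1 hp2
  · exact sg_inj (stA_X_free1 hE b.1 b'.1 (h.mc.valid.dis_fr1 p a) (h.mc.valid.dis_fr1 p' a'))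
  · have t1 := stA_X_col h (stA_col_sf hp) b.1
    have t2 := stA_X_col h.swap (stA_col_sf hp.symm) b'.1
    omega
  · have t1 := stA_X_col h.swap (stA_col_sf hp.symm) b.1
    have t2 := stA_X_col h (stA_col_sf hp) b'.1
    omega
  · exact sg_inj (stA_X_free1 hE.swap b.1 b'.1 (h.mc.valid.dis_fr1 p a)
      (h.mc.valid.dis_fr1 p' a'))

end Pool.Agent.Lib.MP_8d6beb_co
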