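import Pool.Agent.Lib.MP_8d6beb_co.QStepA3

/-! Step A, fourth part: the weight of the port corners in each case. -/

namespace Pool.Agent.Lib.MP_8d6beb_co

open Finset Cx

set_option linter.unusedSectionVars false

variable {ι : Type} [Fintype ι] [DecidableEq ι] {K : Cx ι} {K1 : Finset ι} {e f : Dart ι}
  {Sp C : Finset (Dart ι)} {del : Bool} {w0 : ℕ}

/-- the corners in `X` weigh at most `B`, and in case of equality all their classes are tight -/
def stA_Side (K : Cx ι) (K1 : Finset ι) (e f : Dart ι) (Sp : Finset (Dart ι)) (B : ℕ)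
    (X : Finset (Dart ι)) : Prop :=
  ∑ c ∈ X, stA_wt K Sp c ≤ B ∧ ((B : ℤ) ≤ ∑ c ∈ X, stA_wt K Sp c → ∀ u ∈ X, ∃ C del w0,
    stA_Gd K K1 e f Sp C del w0 ∧ u ∈ C ∧ (w0 : ℤ) ≤ ∑ c ∈ C, stA_wt K Sp c ∧
      (col e = col f → C = stA_c1 K K1 u ∧ w0 ≠ 2))

theorem stA_side_one (h : Setup K K1 e f) (hS : stA_SpOK K K1 Sp)
    (hG : stA_Gd K K1 e f Sp C del w0)
    (hc : col e = col f → (∀ u ∈ C, C = stA_c1 K K1 u) ∧ w0 ≠ 2) :
    stA_Side K K1 e f Sp w0 C :=
  ⟨hG.le h hS.dis, fun g u hu => ⟨C, del, w0, hG, hu, g, fun t => ⟨(hc t).1 u hu, (hc t).2⟩⟩⟩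

theorem stA_side_c1 (h : Setup K K1 e f) (hS : stA_SpOK K K1 Sp) {u : Dart ι}
    (hG : stA_Gd K K1 e f Sp (stA_c1 K K1 u) del w0) (hc : col e = col f → w0 ≠ 2) :
    stA_Side K K1 e f Sp w0 (stA_c1 K K1 u) :=
  stA_side_one h hS hG (fun t => ⟨fun _ hx => stA_c1_eq hx, hc t⟩)

theorem stA_side_union {X Y : Finset (Dart ι)} {B B' : ℕ} (hd : Disjoint X Y)
    (h1 : stA_Side K K1 e f Sp B X) (h2 : stA_Side K K1 e f Sp B' Y) :
    stA_Side K K1 e f Sp (B + B') (X ∪ Y) := by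
  have a := h1.1
  have b := h2.1
  unfold stA_Side
  rw [sum_union hd]
  push_cast
  refine ⟨by linarith, fun g u hu => ?_⟩
  rcases mem_union.1 hu with r | r
  · exact h1.2 (by linarith) u r
  · exact h2.2 (by linarith) u r

open Classical in
/-- the port corners of the piece -/
noncomputable def stA_ports (K : Cx ι) (K1 : Finset ι) : Finset (Dart ι) :=
  univ.filter (fun c => c.1 ∈ K1 ∧ K.Port K1 c)

open Classical in
/-- the free sides that start at a port -/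
noncomputable def stA_frP (K : Cx ι) (K1 : Finset ι) : Finset (Dart ι) :=
  (K.fr K1).filter (fun c => K.Port K1 c)

theorem stA_mem_ports {c : Dart ι} : c ∈ stA_ports K K1 ↔ c.1 ∈ K1 ∧ K.Port K1 c := by
  simp [stA_ports]

theorem stA_mem_frP {c : Dart ι} :
    c ∈ stA_frP K K1 ↔ (c.1 ∈ K1 ∧ K.a c = c) ∧ K.Port K1 c := by
  simp [stA_frP]

/-- what is used about the ports -/
structure stA_PortOK (K : Cx ι) (K1 : Finset ι) (e f : Dart ι) (Sp : Finset (Dart ι)) : Prop where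
  spok : stA_SpOK K K1 Sp
  side : ∃ B, stA_Side K K1 e f Sp B (stA_ports K K1) ∧ B ≤ 4 * (stA_frP K K1).card
  sp : ∀ p ∈ Sp, ∃ C del, stA_Gd K K1 e f Sp C del 4 ∧ sg p ∈ C ∧ sg (sg (sg p)) ∈ C
  spc : K1 ≠ K.Q → col e = col f → Sp = ∅

theorem stA_ports_eq (h : Setup K K1 e f) (h1 : K1 ≠ K.Q) :
    stA_ports K K1 = stA_X K K1 e f ∪ stA_X K K1 f e := by
  have hE := stA_ee h h1
  ext c
  rw [stA_mem_ports]
  constructor
  · rintro ⟨a, b⟩
    rcases (h.port_iff h1 a).1 b with g | g | g | g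
    · exact mem_union_left _ (mem_union_left _ (mem_cl.2 g.symm))
    · exact mem_union_left _ (mem_union_right _ (mem_cl.2 g.symm))
    · exact mem_union_right _ (mem_union_left _ (mem_cl.2 g.symm))
    · exact mem_union_right _ (mem_union_right _ (mem_cl.2 g.symm))
  · intro g
    rcases mem_union.1 g with g | g
    · exact ⟨stA_X_mem hE g, stA_X_port h h1 g⟩
    · exact ⟨stA_X_mem hE.swap g, stA_X_port h.swap h1 g⟩

theorem stA_XY_disj (hE : K.EE K1 e f) : Disjoint (stA_X K K1 e f) (stA_X K K1 f e) :=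
  disjoint_left.2 fun _ a b => hE.not_fc ((stA_X_fc hE a).trans (stA_X_fc hE.swap b).symm)

theorem stA_c1_disj {u v : Dart ι} (h : ¬ K.V1 K1 v u) :
    Disjoint (stA_c1 K K1 u) (stA_c1 K K1 v) :=
  disjoint_left.2 fun _ a b => h ((mem_cl.1 b).trans (mem_cl.1 a).symm)

theorem stA_X_short (hx : K.V1 K1 (sg f) e) : stA_X K K1 e f = stA_c1 K K1 e := by
  unfold stA_X
  rw [stA_c1_eq (mem_cl.2 hx), union_self]

theorem stA_X_exists_free (h : Setup K K1 e f) (h1 : K1 ≠ K.Q) (hx : ¬ K.V1 K1 (sg f) e) :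
    ∃ l ∈ stA_X K K1 e f, l ∈ stA_frP K K1 := by
  have hE := stA_ee h h1
  obtain ⟨l, hl, hv⟩ := (h.mc.valid.res h.sub (M := ∅) (by simp)).exists_last (sg f)
  have hX : l ∈ stA_X K K1 e f := mem_union_right _ (mem_cl.2 hv)
  have hm := stA_X_mem hE hX
  refine ⟨l, hX, stA_mem_frP.2 ⟨⟨hm, ?_⟩, stA_X_port h h1 hX⟩⟩
  by_contra g
  have g' : (K.a l).1 ∉ K1 := fun t => res_glued.2 ⟨hm, t, g⟩ hl
  rcases hE.eq_of_cut hm g' with r | r
  · exact hx (r ▸ hv)
  · exact hE.not_fc (r ▸ stA_X_fc hE hX)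

theorem stA_frP_long (h : Setup K K1 e f) (h1 : K1 ≠ K.Q) (hx : ¬ K.V1 K1 (sg f) e)
    (hy : ¬ K.V1 K1 (sg e) f) : 2 ≤ (stA_frP K K1).card := by
  obtain ⟨l, a, b⟩ := stA_X_exists_free h h1 hx
  obtain ⟨l', a', b'⟩ := stA_X_exists_free h.swap h1 hy
  exact one_lt_card.2 ⟨l, b, l', b', fun r =>
    disjoint_left.1 (stA_XY_disj (stA_ee h h1)) a (r ▸ a')⟩

theorem stA_frP_short (h : Setup K K1 e f) (h1 : K1 ≠ K.Q) (hy : ¬ K.V1 K1 (sg e) f) :
    1 ≤ (stA_frP K K1).card := by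
  obtain ⟨l', -, b'⟩ := stA_X_exists_free h.swap h1 hy
  exact card_pos.2 ⟨l', b'⟩

theorem stA_portok_empty {B : ℕ} (hs : stA_Side K K1 e f ∅ B (stA_ports K K1))
    (hB : B ≤ 4 * (stA_frP K K1).card) : stA_PortOK K K1 e f ∅ :=
  ⟨stA_spok_empty, ⟨B, hs, hB⟩, by simp, fun _ _ => rfl⟩

theorem stA_portok_all (h : Setup K K1 e f) (h1 : K1 = K.Q) : stA_PortOK K K1 e f ∅ := by
  have : stA_ports K K1 = ∅ := by
    rw [eq_empty_iff_forall_notMem]
    intro c hc
    rw [stA_mem_ports] at hc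
    exact h.not_port h1 hc.1 hc.2
  refine stA_portok_empty (B := 0) ?_ (Nat.zero_le _)
  rw [this]
  exact ⟨by simp, by simp⟩

theorem stA_portok_four (h : Setup K K1 e f) (h1 : K1 ≠ K.Q) (hx : ¬ K.V1 K1 (sg f) e)
    (hy : ¬ K.V1 K1 (sg e) f) {w1 w2 w3 w4 : ℕ} {d1 d2 d3 d4 : Bool}
    (g1 : stA_Gd K K1 e f ∅ (stA_c1 K K1 e) d1 w1)
    (g2 : stA_Gd K K1 e f ∅ (stA_c1 K K1 (sg f)) d2 w2)
    (g3 : stA_Gd K K1 e f ∅ (stA_c1 K K1 f) d3 w3)
    (g4 : stA_Gd K K1 e f ∅ (stA_c1 K K1 (sg e)) d4 w4) (hw : w1 + w2 + (w3 + w4) = 8)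
    (hc : col e = col f → w1 ≠ 2 ∧ w2 ≠ 2 ∧ w3 ≠ 2 ∧ w4 ≠ 2) : stA_PortOK K K1 e f ∅ := by
  have n := stA_frP_long h h1 hx hy
  refine stA_portok_empty (B := w1 + w2 + (w3 + w4)) ?_ (by omega)
  rw [stA_ports_eq h h1]
  exact stA_side_union (stA_XY_disj (stA_ee h h1))
    (stA_side_union (stA_c1_disj hx) (stA_side_c1 h stA_spok_empty g1 (fun t => (hc t).1))
      (stA_side_c1 h stA_spok_empty g2 (fun t => (hc t).2.1)))
    (stA_side_union (stA_c1_disj hy) (stA_side_c1 h stA_spok_empty g3 (fun t => (hc t).2.2.1))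
      (stA_side_c1 h stA_spok_empty g4 (fun t => (hc t).2.2.2)))

theorem stA_portok_long (h : Setup K K1 e f) (h1 : K1 ≠ K.Q) (hx : ¬ K.V1 K1 (sg f) e)
    (hy : ¬ K.V1 K1 (sg e) f) (hl : K.Long K1 e f) : ∃ Sp, stA_PortOK K K1 e f Sp := by
  have s0 : stA_SpOK K K1 ∅ := stA_spok_empty
  have u1 : e = e ∨ e = sg f ∨ e = f ∨ e = sg e := Or.inl rfl
  have u2 : sg f = e ∨ sg f = sg f ∨ sg f = f ∨ sg f = sg e := Or.inr (Or.inl rfl)
  have u3 : f = e ∨ f = sg f ∨ f = f ∨ f = sg e := Or.inr (Or.inr (Or.inl rfl))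
  have u4 : sg e = e ∨ sg e = sg f ∨ sg e = f ∨ sg e = sg e := Or.inr (Or.inr (Or.inr rfl))
  cases hl with
  | A hp a1 a2 a3 a4 =>
    exact ⟨∅, stA_portok_four h h1 hx hy
      (stA_gd_del (w0 := 2) h h1 s0 u1 a1 (mem_singleton_self _))
      (stA_gd_del (w0 := 2) h h1 s0 u2 a4 (mem_singleton_self _))
      (stA_gd_del (w0 := 2) h h1 s0 u3 a3 (mem_singleton_self _))
      (stA_gd_del (w0 := 2) h h1 s0 u4 a2 (mem_singleton_self _)) rfl (fun t => absurd t hp)⟩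
  | B a b =>
    refine ⟨∅, ?_⟩
    have k1 := stA_gd_keep h h1 s0 u1 hx hy
    have k2 := stA_gd_keep h h1 s0 u2 hx hy
    have k3 := stA_gd_keep h h1 s0 u3 hx hy
    have k4 := stA_gd_keep h h1 s0 u4 hx hy
    rcases a with a | a <;> rcases b with b | b
    · exact stA_portok_four h h1 hx hy
        (stA_gd_del (w0 := 1) h h1 s0 u1 a (mem_singleton_self _)) k2
        (stA_gd_del (w0 := 1) h h1 s0 u3 b (mem_singleton_self _)) k4 rfl (by simp)
    · exact stA_portok_four h h1 hx hy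
        (stA_gd_del (w0 := 1) h h1 s0 u1 a (mem_singleton_self _))
        (stA_gd_del (w0 := 1) h h1 s0 u2 b (mem_singleton_self _)) k3 k4 rfl (by simp)
    · exact stA_portok_four h h1 hx hy k1 k2
        (stA_gd_del (w0 := 1) h h1 s0 u3 b (mem_singleton_self _))
        (stA_gd_del (w0 := 1) h h1 s0 u4 a (mem_singleton_self _)) rfl (by simp)
    · exact stA_portok_four h h1 hx hy k1
        (stA_gd_del (w0 := 1) h h1 s0 u2 b (mem_singleton_self _)) k3
        (stA_gd_del (w0 := 1) h h1 s0 u4 a (mem_singleton_self _)) rfl (by simp)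
  | C hp a b =>
    have hS := stA_spok h h1 hp
    have n := stA_frP_long h h1 hx hy
    have g1 : stA_Gd K K1 e f (stA_Sp K K1 e f) (stA_X K K1 e f) true 4 := by
      refine stA_gd_pair h h1 hS (stA_col_sf hp)
        (fun p hp a b => mem_filter.2 ⟨hp, Or.inl ⟨a, b⟩⟩) (h.rule_del (w0 := 4) h1 a ?_)
      intro c hc
      rcases mem_union.1 hc with g | g
      · exact ⟨e, by simp, stA_c1_vx g⟩
      · exact ⟨sg f, by simp, stA_c1_vx g⟩
    have g2 : stA_Gd K K1 e f (stA_Sp K K1 e f) (stA_X K K1 f e) true 4 := by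
      refine (stA_gd_pair h.swap h1 hS (stA_col_sf hp.symm)
        (fun p hp a b => mem_filter.2 ⟨hp, Or.inr ⟨a, b⟩⟩) (h.rule_del (w0 := 4) h1 b ?_)).swap
      intro c hc
      rcases mem_union.1 hc with g | g
      · exact ⟨f, by simp, stA_c1_vx g⟩
      · exact ⟨sg e, by simp, stA_c1_vx g⟩
    refine ⟨_, hS, ⟨4 + 4, ?_, by omega⟩, ?_, fun _ t => absurd t hp⟩
    · rw [stA_ports_eq h h1]
      exact stA_side_union (stA_XY_disj (stA_ee h h1))
        (stA_side_one h hS g1 (fun t => absurd t hp)) (stA_side_one h hS g2 (fun t => absurd t hp))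
    · intro p hp
      obtain ⟨-, b | b⟩ := mem_filter.1 hp
      · exact ⟨_, _, g1, b⟩
      · exact ⟨_, _, g2, b⟩

theorem stA_portok_short (h : Setup K K1 e f) (h1 : K1 ≠ K.Q) (hx : K.V1 K1 (sg f) e)
    (hy : ¬ K.V1 K1 (sg e) f) (hl : K.Short K1 e f) : stA_PortOK K K1 e f ∅ := by
  have s0 : stA_SpOK K K1 ∅ := stA_spok_empty
  have u1 : e = e ∨ e = sg f ∨ e = f ∨ e = sg e := Or.inl rfl
  have u3 : f = e ∨ f = sg f ∨ f = f ∨ f = sg e := Or.inr (Or.inr (Or.inl rfl))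
  have u4 : sg e = e ∨ sg e = sg f ∨ sg e = f ∨ sg e = sg e := Or.inr (Or.inr (Or.inr rfl))
  have hp : col e ≠ col f := by
    have := h.mc.valid.col_vx (vx_of_res hx)
    have := col_sg f
    omega
  have n := stA_frP_short h h1 hy
  have hd := stA_XY_disj (stA_ee h h1)
  rw [stA_X_short hx] at hd
  cases hl with
  | A a1 a2 a3 a4 =>
    have g1 := stA_gd_delx (w0 := 1) h h1 s0 u1 a1 (mem_singleton_self _) hx (mem_singleton_self _)
    rcases a4 with a4 | a4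
    · refine stA_portok_empty (B := 1 + (2 + 1)) ?_ (by omega)
      rw [stA_ports_eq h h1, stA_X_short hx]
      exact stA_side_union hd (stA_side_c1 h s0 g1 (fun t => absurd t hp))
        (stA_side_union (stA_c1_disj hy)
          (stA_side_c1 h s0 (stA_gd_del (w0 := 2) h h1 s0 u3 a3 (mem_singleton_self _))
            (fun t => absurd t hp))
          (stA_side_c1 h s0 (stA_gd_delx (w0 := 1) h h1 s0 u4 a4 (by simp) hx (by simp))
            (fun t => absurd t hp)))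
    · refine stA_portok_empty (B := 1 + (1 + 2)) ?_ (by omega)
      rw [stA_ports_eq h h1, stA_X_short hx]
      exact stA_side_union hd (stA_side_c1 h s0 g1 (fun t => absurd t hp))
        (stA_side_union (stA_c1_disj hy)
          (stA_side_c1 h s0 (stA_gd_delx (w0 := 1) h h1 s0 u3 a4 (by simp) hx (by simp))
            (fun t => absurd t hp))
          (stA_side_c1 h s0 (stA_gd_del (w0 := 2) h h1 s0 u4 a2 (mem_singleton_self _))
            (fun t => absurd t hp)))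
  | B hv a1 a2 =>
    have g1 := stA_gd_delx (w0 := 0) h h1 s0 u1 a1 (mem_singleton_self _) hx (mem_singleton_self _)
    have hf : ∀ c ∈ stA_X K K1 f e, K.Vx f c := by
      intro c hc
      rcases mem_union.1 hc with g | g
      · exact stA_c1_vx g
      · exact hv.symm.trans (stA_c1_vx g)
    have g2 : stA_Gd K K1 e f ∅ (stA_X K K1 f e) true 4 :=
      (stA_gd_pair h.swap h1 s0 (stA_col_sf hp.symm)
        (fun p hp a b => absurd ((hf _ a).symm.trans (hf _ b)) (h.mc.valid.dis_ne p hp))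
        (h.rule_delx (w0 := 4) h1 a2 (fun c hc => ⟨f, by simp, hf c hc⟩) hx (by simp))).swap
    refine stA_portok_empty (B := 0 + 4) ?_ (by omega)
    rw [stA_ports_eq h h1, stA_X_short hx]
    exact stA_side_union hd (stA_side_c1 h s0 g1 (fun t => absurd t hp))
      (stA_side_one h s0 g2 (fun t => absurd t hp))

end Pool.Agent.Lib.MP_8d6beb_co
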