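import Pool.Agent.Lib.MP_8d6beb_co.QFace

/-! Step B, common tools: the ring of a curve inside the regular piece. -/

namespace Pool.Agent.Lib.MP_8d6beb_co

open Finset Cx

set_option linter.unusedSectionVars false

variable {ι : Type} [Fintype ι] [DecidableEq ι] {K : Cx ι} {K1 : Finset ι} {e f : Dart ι}

open Classical in
/-- the darts on the curve of `z` -/
noncomputable def Cx.fcs (K : Cx ι) (z : Dart ι) : Finset (Dart ι) :=
  univ.filter (fun x => K.Fc z x)

@[simp] theorem mem_fcs {z x : Dart ι} : x ∈ K.fcs z ↔ K.Fc z x := by simp [Cx.fcs]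

/-- the quads with a corner on the curve of `z` -/
noncomputable def Cx.ring (K : Cx ι) (z : Dart ι) : Finset ι := fanQ (K.fcs z)

theorem mem_ring {z : Dart ι} {q : ι} : q ∈ K.ring z ↔ ∃ x, K.Fc z x ∧ x.1 = q := by
  simp [Cx.ring]

theorem ring_of_fc {z x : Dart ι} (h : K.Fc z x) : x.1 ∈ K.ring z := mem_ring.2 ⟨x, h, rfl⟩

theorem inside_ring (z : Dart ι) : K.Inside (K.ring z) z := fun _ hy => ring_of_fc hy

theorem ring_sub {z : Dart ι} {U : Finset ι} (h : K.Inside U z) : K.ring z ⊆ U := by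
  intro q hq
  obtain ⟨x, h1, rfl⟩ := mem_ring.1 hq
  exact h x h1

theorem mem_intr {z x : Dart ι} : x ∈ K.intr z ↔
    K.Fc z x ∧ K.a x ≠ x ∧ K.a (sg (sg (sg x))) ≠ sg (sg (sg x)) := by
  simp [Cx.intr]

@[simp] theorem ext_false (D : Finset ι) : K.Ext K1 D false = D := by simp [Cx.Ext]

theorem ext_union (A B : Finset ι) (del : Bool) :
    K.Ext K1 (A ∪ B) del = A ∪ K.Ext K1 B del := by
  cases del <;> simp [Cx.Ext, union_assoc]

theorem sub_ext (A : Finset ι) (del : Bool) : A ⊆ K.Ext K1 A del := by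
  cases del <;> simp [Cx.Ext]

theorem ext_mono {A B : Finset ι} (h : A ⊆ B) (del : Bool) :
    K.Ext K1 A del ⊆ K.Ext K1 B del := by
  cases del
  · simpa
  · simp only [Cx.Ext, if_true]; exact union_subset_union h (Subset.refl _)

theorem fst_mem_fanQ {C : Finset (Dart ι)} {c : Dart ι} (h : c ∈ C) : c.1 ∈ fanQ C :=
  mem_fanQ.2 ⟨c, h, rfl⟩

theorem fc_pred (c : Dart ι) : K.Fc c (K.a (sg (sg (sg c)))) := by
  have := fc_phi (K := K) (K.a (sg (sg (sg c))))
  rw [phi_pred] at this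
  exact this.symm

theorem vx_pred {c : Dart ι} (h : K.a (sg (sg (sg c))) ≠ sg (sg (sg c))) :
    K.Vx c (K.a (sg (sg (sg c)))) := by
  have := vx_a_sg h
  rw [sg4] at this
  exact this.symm

theorem fc_sg3 {c : Dart ι} (h : K.a (sg (sg (sg c))) = sg (sg (sg c))) :
    K.Fc c (sg (sg (sg c))) := by
  have := fc_pred (K := K) c
  rwa [h] at this

theorem glued_of_deg4 {d : Dart ι} (h : K.deg d.1 = 4) : K.a d ≠ d := by
  have := deg_eq (K := K) d
  intro g
  rw [if_pos g] at this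
  split_ifs at this <;> omega

theorem deg_le_four (q : ι) : K.deg q ≤ 4 := by
  have := deg_add_fr (K := K) q
  omega

theorem card_fr_pair (q q' : ι) :
    (K.fr {q, q'}).card ≤ (K.fr {q}).card + (K.fr {q'}).card := by
  rw [show ({q, q'} : Finset ι) = {q} ∪ {q'} from rfl, fr_union]
  exact card_union_le _ _

namespace Reg

variable (h : Reg K K1 e f)
include h

theorem valid : K.Valid := h.su.mc.valid

theorem fr_le_two {q : ι} (hq : q ∈ K1) : (K.fr {q}).card ≤ 2 := by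
  have := h.two_le_deg hq
  have := deg_add_fr (K := K) q
  omega

/-- a disabled corner is the only corner of its quad on a curve inside `K1` -/
theorem dis_on {z x p : Dart ι} (hz : K.Inside K1 z) (hx : K.Fc z x) (hp : p ∈ K.dis)
    (hq : x.1 = p.1) : x = p := by
  have a1 := h.valid.dis_fr1 p hp
  have a2 := h.valid.dis_fr2 p hp
  have hn := (h.dz p hp (hq ▸ hz x hx)).2.2.2.2.1
  have f1 : K.Fc (sg p) (sg (sg p)) := fc_free a1
  have f2 : K.Fc (sg (sg p)) (sg (sg (sg p))) := fc_free a2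
  rcases same_quad hq with g | g | g | g
  · exact g
  · exact absurd ((hz.of_fc hx).of_fc (g ▸ Fc.refl _)) hn
  · exact absurd ((hz.of_fc hx).of_fc (g ▸ f1.symm)) hn
  · exact absurd ((hz.of_fc hx).of_fc (g ▸ (f1.trans f2).symm)) hn

theorem not_single {x : Dart ι} (hx : K.Inside K1 x) : ¬ K.Single x := by
  rintro ⟨a1, a2⟩
  have hp := h.two (sg (sg (sg x))) (hx x (Fc.refl x)) a2 (by rw [sg4]; exact a1)
  rw [sg4] at hp
  exact sg2_ne x (h.dis_on hx (Fc.refl x) hp rfl).symm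

/-- after a free side of a quad without disabled corner comes a glued side -/
theorem glued_sg {d : Dart ι} (hd : d.1 ∈ K1) (hn : ∀ p ∈ K.dis, p.1 ≠ d.1) (h1 : K.a d = d) :
    K.a (sg d) ≠ sg d := fun g => hn _ (h.two d hd h1 g) rfl

theorem glued_sg3 {d : Dart ι} (hd : d.1 ∈ K1) (hn : ∀ p ∈ K.dis, p.1 ≠ d.1) (h1 : K.a d = d) :
    K.a (sg (sg (sg d))) ≠ sg (sg (sg d)) := fun g =>
  hn _ (h.two (sg (sg (sg d))) hd g (by rw [sg4]; exact h1)) rfl

theorem diag {c : Dart ι} (hc : c.1 ∈ K1) (hf : K.Fc c (sg (sg c))) (h4 : K.deg c.1 ≠ 4) :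
    ∃ p ∈ K.dis, c = sg p ∨ c = sg (sg (sg p)) := by
  have h2 := h.two_le_deg hc
  rcases h.su.mc.diag hf h4 (by omega) (h.su.sub hc) with ⟨a1, a2⟩ | ⟨a1, a2⟩
  · exact ⟨_, h.two c hc a1 a2, Or.inl (sg4 c).symm⟩
  · have := h.two (sg (sg c)) hc a1 a2
    rw [sg4] at this
    exact ⟨_, this, Or.inr (sg4 c).symm⟩

/-- two corners of one colour on a curve inside `K1` lie in one quad only if it has no free side -/
theorem same_col {z c c' : Dart ι} (hz : K.Inside K1 z) (h1 : K.Fc z c) (h2 : K.Fc z c')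
    (hq : c'.1 = c.1) (hcol : col c' = col c) (hne : c' ≠ c) : K.deg c.1 = 4 := by
  by_contra h4
  have e1 := col_sg c
  have e3 := col_sg3 c
  rcases same_quad hq with g | g | g | g
  · exact hne g
  · rw [g] at hcol; omega
  · obtain ⟨p, hp, g' | g'⟩ := h.diag (hz c h1) (h1.symm.trans (g ▸ h2)) h4
    · exact sg_ne p (g' ▸ h.dis_on hz h1 hp (by rw [g']; rfl))
    · exact sg3_ne p (g' ▸ h.dis_on hz h1 hp (by rw [g']; rfl))
  · rw [g] at hcol; omega

theorem cls_ring {z : Dart ι} (hz : K.Inside K1 z) : Cls K K1 e f (K.fcs z) false :=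
  h.su.cls_face hz (fun _ => mem_fcs)

theorem ring_conn {z : Dart ι} (hz : K.Inside K1 z) : K.ConnOn (K.ring z) := by
  have := (h.cls_ring hz).connOn h.su
  rwa [ext_false] at this

theorem ring_noMT {z : Dart ι} (hz : K.Inside K1 z) : K.NoMT (K.ring z) := by
  have := (h.cls_ring hz).noMT h.su
  rwa [ext_false] at this

/-- a free side of the ring is linked to every far end of a ring edge on its curve -/
theorem ring_link {z r g x : Dart ι} (hz : K.Inside K1 z) (h1 : r.1 ∈ K.ring z) (h2 : K.a r = r)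
    (h3 : K.Fc z g) (h4 : K.a g ≠ g) (h5 : x = sg g ∨ x = K.a g) (h6 : K.Fc r x) :
    K.Lk (K.ring z) r x := by
  have hC := h.cls_ring hz
  have hx : x.1 ∈ K.ring z := by
    rcases h5 with g | g
    · rw [g, sg_fst]; exact ring_of_fc h3
    · rw [g, ← phi_fst]; exact ring_of_fc (h3.trans (fc_phi _))
  have fx : K.Fc (K.a g) x := by
    rcases h5 with g | g
    · rw [g]; exact fc_a_sg _
    · rw [g]; exact Fc.refl _
  rcases hC.anchor h.su (r := r) (by rw [ext_false]; exact h1) h2 with a | ⟨c, a1, a2⟩ | ⟨g', x', a1, a2, a3, a4⟩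
  · simp only [ext_false] at a
    exact a.lk h6
  · exact ((inside_ring z).of_fc ((mem_fcs.1 a1).trans a2.fc.symm)).lk h6
  · have fx' : K.Fc (K.a g') x' := by
      rcases a3.2 with g | g
      · rw [g]; exact fc_a_sg _
      · rw [g]; exact Fc.refl _
    have := hC.mt h.su a1 (g' := g) ⟨h4, Or.inl (mem_fcs.2 h3)⟩ a2
      (fx'.trans (a4.fc.symm.trans (h6.trans fx.symm))) a3 (x' := x) ⟨by rw [ext_false]; exact hx, h5⟩
    simp only [ext_false] at this a4
    exact a4.trans this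

/-- the picks `X0` carry four free sides each -/
theorem weight (X0 : Finset (Dart ι)) (D F : Finset ι)
    (hn : ∀ x ∈ X0, ¬ K.Port K1 x ∧ ¬ K.Single x ∧ ∀ y, K.Vx x y → y ∉ K.dis)
    (hd : ∀ x ∈ X0, ∀ x' ∈ X0, x ≠ x' → ∀ c c', K.Vx x c → K.Vx x' c' → c'.1 = c.1 →
      K.deg c.1 = 4)
    (hD : ∀ x ∈ X0, ∀ c, K.Vx x c → c.1 ∈ D)
    (hF : ∀ x ∈ X0, ∀ c, K.Vx x c → c.1 ∈ F → K.deg c.1 = 4) :
    4 * X0.card ≤ (K.fr (D \ F)).card := by
  have key : ∀ x c (d : Dart ι), K.Vx x c → c.1 = d.1 → K.a d = d → K.deg c.1 ≠ 4 := by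
    intro x c d _ h2 h3 h4
    exact glued_of_deg4 (h2 ▸ h4) h3
  have e1 : (X0.biUnion (fun x => K.fr (fanQ (K.cl x)))).card = 4 * X0.card := by
    rw [card_biUnion, sum_congr rfl (fun x hx => h.w4 x (hn x hx).1 (hn x hx).2.1 (hn x hx).2.2)]
    · simp [mul_comm]
    · intro x hx x' hx' hne
      rw [Function.onFun, disjoint_left]
      intro d h1 h2
      simp only [mem_fr, mem_fanQ, mem_cl] at h1 h2
      obtain ⟨⟨c, a1, a2⟩, a3⟩ := h1
      obtain ⟨⟨c', b1, b2⟩, _⟩ := h2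
      exact key x c d a1 a2 a3 (hd x hx x' hx' hne c c' a1 b1 (b2.trans a2.symm))
  rw [← e1]
  refine card_le_card (fun d hd => ?_)
  simp only [mem_biUnion, mem_fr, mem_fanQ, mem_cl, mem_sdiff] at hd ⊢
  obtain ⟨x, hx, ⟨c, a1, a2⟩, a3⟩ := hd
  exact ⟨⟨a2 ▸ hD x hx c a1, fun g => key x c d a1 a2 a3 (hF x hx c a1 (a2 ▸ g))⟩, a3⟩

end Reg

theorem noMT_union {A B : Finset ι} (hA : K.NoMT A) (hB : K.NoMT B)
    (hc : ∀ r r', r.1 ∈ A → r'.1 ∈ B → K.a r = r → K.a r' = r' → K.Fc r r' →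
      K.Lk (A ∪ B) r r') : K.NoMT (A ∪ B) := by
  intro r r' h1 h2 h3 h4 h5
  rcases mem_union.1 h1 with a | a <;> rcases mem_union.1 h2 with b | b
  · exact (hA r r' a b h3 h4 h5).mono subset_union_left
  · exact hc r r' a b h3 h4 h5
  · exact (hc r' r b a h4 h3 h5.symm).symm
  · exact (hB r r' a b h3 h4 h5).mono subset_union_right

theorem Cx.End.fc {F : Finset ι} {g x : Dart ι} (h : K.End F g x) : K.Fc (K.a g) x := by
  rcases h.2 with a | a
  · rw [a]; exact fc_a_sg _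
  · rw [a]; exact Fc.refl _

/-- no multiple touch for the ring together with the fan of a class -/
theorem Reg.noMT_ring (h : Reg K K1 e f) {z : Dart ι} (hz : K.Inside K1 z) {C : Finset (Dart ι)}
    {del : Bool} (hC : Cls K K1 e f C del)
    (hm : ∀ r, r.1 ∈ K.ring z → K.a r = r → ¬ K.Fc z r → ∀ c ∈ C, K.Fc r c →
      K.Lk (K.ring z ∪ K.Ext K1 (fanQ C) del) r c)
    (ha : ∀ r r' g x, r.1 ∈ K.ring z → K.a r = r → ¬ K.Fc z r → r'.1 ∈ K.Ext K1 (fanQ C) del →
      K.a r' = r' → K.Fc r r' → K.Diag C g → ¬ K.Fc g (K.a g) →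
      K.End (K.Ext K1 (fanQ C) del) g x → K.Lk (K.Ext K1 (fanQ C) del) r' x →
      K.Lk (K.ring z ∪ K.Ext K1 (fanQ C) del) r r') :
    K.NoMT (K.Ext K1 (K.ring z ∪ fanQ C) del) := by
  rw [ext_union]
  refine noMT_union (h.ring_noMT hz) (hC.noMT h.su) (fun r r' h1 h2 h3 h4 h5 => ?_)
  by_cases hr : K.Fc z r
  · exact (((inside_ring z).of_fc hr).lk h5).mono subset_union_left
  rcases hC.anchor h.su h2 h4 with a | ⟨c, a1, a2⟩ | ⟨g, x, a1, a2, a3, a4⟩
  · exact ((a.lk h5.symm).symm).mono subset_union_right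
  · exact (hm r h1 h3 hr c a1 (h5.trans a2.fc)).trans (a2.symm.mono subset_union_right)
  · exact ha r r' g x h1 h3 hr h2 h4 h5 a1 a2 a3 a4

theorem Reg.conn_ring (h : Reg K K1 e f) {z : Dart ι} (hz : K.Inside K1 z) {C : Finset (Dart ι)}
    {del : Bool} (hC : Cls K K1 e f C del) {c : Dart ι} (h1 : c ∈ C) (h2 : c.1 ∈ K.ring z) :
    K.ConnOn (K.Ext K1 (K.ring z ∪ fanQ C) del) := by
  rw [ext_union]
  exact (h.ring_conn hz).union (hC.connOn h.su) h2 (sub_ext _ _ (fst_mem_fanQ h1))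

open Classical in
/-- the last corners of colour `k` on the curve of `z` -/
noncomputable def Cx.lasts (K : Cx ι) (z : Dart ι) (k : ℕ) : Finset (Dart ι) :=
  univ.filter (fun x => K.Fc z x ∧ K.a x = x ∧ col x = k)

theorem mem_lasts {z x : Dart ι} {k : ℕ} :
    x ∈ K.lasts z k ↔ K.Fc z x ∧ K.a x = x ∧ col x = k := by
  simp [Cx.lasts]

theorem Cx.Valid.hit_lasts (hK : K.Valid) {z x : Dart ι} (hx : K.Fc z x) :
    ∃ l ∈ K.lasts z (col x), K.Vx l x := by
  obtain ⟨l, a1, a2⟩ := hK.exists_last x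
  exact ⟨l, mem_lasts.2 ⟨hx.trans a2.fc, a1, (hK.col_vx a2).symm⟩, a2.symm⟩

/-- a corner that is not interior has a neighbour of the other colour on the same curve -/
theorem exists_other {z x : Dart ι} (hx : K.Fc z x) (hi : x ∉ K.intr z) :
    ∃ y, K.Fc z y ∧ y.1 = x.1 ∧ col y + col x = 1 := by
  by_cases a1 : K.a x = x
  · exact ⟨sg x, hx.trans (fc_free a1), rfl, col_sg x⟩
  · have a2 : K.a (sg (sg (sg x))) = sg (sg (sg x)) := by
      by_contra g; exact hi (mem_intr.2 ⟨hx, a1, g⟩)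
    exact ⟨_, hx.trans (fc_sg3 a2), rfl, col_sg3 x⟩

/-- case G: all interior corners have one colour -/
theorem Reg.caseG (h : Reg K K1 e f) {z : Dart ι} (hz : K.Inside K1 z) (hf : K.a z = z) {k : ℕ}
    (hk : k < 2) (hG : ∀ x ∈ K.intr z, col x = k) : False := by
  have hK := h.valid
  have disI : ∀ p ∈ K.dis, K.Fc z p → col p = k := fun p hp a =>
    hG p (mem_intr.2 ⟨a, h.su.mc.dis_glued hp⟩)
  obtain ⟨u, u1, u2, u3⟩ : ∃ u, K.Fc z u ∧ col u = k ∧ ∀ p ∈ K.dis, K.Fc z p → p = u := by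
    by_cases g : ∃ p ∈ K.dis, K.Fc z p
    · obtain ⟨p, hp, a⟩ := g
      exact ⟨p, a, disI p hp a, fun p' hp' a' => h.duniq p' hp' p hp (hz _ a') (hz _ a)
        ((disI p' hp' a').trans (disI p hp a).symm)⟩
    · have : ∃ u, K.Fc z u ∧ col u = k := by
        by_cases g' : col z = k
        · exact ⟨z, Fc.refl z, g'⟩
        · refine ⟨sg z, fc_free hf, ?_⟩
          have := col_sg z
          have := col_lt z
          omega
      obtain ⟨u, a1, a2⟩ := this
      exact ⟨u, a1, a2, fun p hp a => absurd ⟨p, hp, a⟩ g⟩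
  obtain ⟨C, del, hC, _, _, c3, hP⟩ := h.pick u (hz u u1) (h.not_single (hz.of_fc u1))
  obtain ⟨rfl, rfl⟩ := c3 (not_port_of_inside (hz.of_fc u1))
  classical
  refine hP (K.ring z) ((K.lasts z k).filter (fun l => ¬ K.Vx u l)) z (ring_sub hz) ?_
    (by simpa using h.ring_conn hz) (by simpa using h.ring_noMT hz) ?_ hf (inside_ring z) ?_
  · intro q hq
    obtain ⟨c, a1, rfl⟩ := mem_fanQ.1 hq
    exact ring_of_fc (u1.trans (mem_cl.1 a1).fc)
  · intro q hq hq'
    obtain ⟨x, a1, rfl⟩ := mem_ring.1 hq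
    obtain ⟨y, b1, b2, b3⟩ : ∃ y, K.Fc z y ∧ y.1 = x.1 ∧ col y = k := by
      by_cases g : col x = k
      · exact ⟨x, a1, rfl, g⟩
      · obtain ⟨y, b1, b2, b3⟩ := exists_other a1 (fun g' => g (hG x g'))
        refine ⟨y, b1, b2, ?_⟩
        have := col_lt x
        omega
    have b4 : ¬ K.Vx u y := fun g => hq' (b2 ▸ fst_mem_fanQ (mem_cl.2 g))
    obtain ⟨l, l1, l2⟩ := hK.hit_lasts b1
    rw [← b2]
    refine cov_of_hit ⟨l, mem_filter.2 ⟨b3 ▸ l1, fun g => b4 (g.trans l2)⟩, l2⟩ (fun g => b4 ?_)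
    rw [u3 y g b1]; exact Vx.refl u
  · have mem : ∀ x ∈ (K.lasts z k).filter (fun l => ¬ K.Vx u l),
        K.Fc z x ∧ K.a x = x ∧ col x = k ∧ ¬ K.Vx u x := by
      intro x hx
      obtain ⟨a1, a2⟩ := mem_filter.1 hx
      obtain ⟨a3, a4, a5⟩ := mem_lasts.1 a1
      exact ⟨a3, a4, a5, a2⟩
    refine h.weight _ _ _ (fun x hx => ?_) (fun x hx x' hx' hne c c' a1 a2 a3 => ?_)
      (fun x hx c a1 => ring_of_fc ((mem x hx).1.trans a1.fc)) (fun x hx c a1 a2 => ?_)
    · obtain ⟨a1, _, _, a4⟩ := mem x hx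
      refine ⟨not_port_of_inside (hz.of_fc a1), h.not_single (hz.of_fc a1), fun y b1 b2 => a4 ?_⟩
      rw [← u3 y b2 (a1.trans b1.fc)]; exact b1.symm
    · obtain ⟨b1, b2, b3, _⟩ := mem x hx
      obtain ⟨c1, c2, c3, _⟩ := mem x' hx'
      refine h.same_col hz (b1.trans a1.fc) (c1.trans a2.fc) a3 ?_ ?_
      · rw [← hK.col_vx a1, ← hK.col_vx a2, b3, c3]
      · rintro rfl
        exact hne (last_unique b2 c2 (a1.trans a2.symm))
    · obtain ⟨b1, _, b3, b4⟩ := mem x hx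
      obtain ⟨c', c1, c2⟩ := mem_fanQ.1 a2
      have c3 := mem_cl.1 c1
      refine h.same_col hz (b1.trans a1.fc) (u1.trans c3.fc) c2 ?_ ?_
      · rw [← hK.col_vx a1, ← hK.col_vx c3, b3, u2]
      · rintro rfl
        exact b4 (c3.trans a1.symm)

end Pool.Agent.Lib.MP_8d6beb_co
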