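import Pool.Agent.Lib.MP_8d6beb_co.QStepB1

/-! Step B: one interior corner `z` of the minority colour, covered from the opposite corner. -/

namespace Pool.Agent.Lib.MP_8d6beb_co

open Finset Cx

set_option linter.unusedSectionVars false

variable {ι : Type} [Fintype ι] [DecidableEq ι] {K : Cx ι} {K1 : Finset ι} {e f : Dart ι}

namespace Reg

variable (h : Reg K K1 e f)
include h

theorem noD {z x : Dart ι} (hz : K.Inside K1 z) (nd : ∀ p ∈ K.dis, ¬ K.Fc z p) (hx : K.Fc z x) :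
    ∀ p ∈ K.dis, p.1 ≠ x.1 := fun p hp g => nd p hp (h.dis_on hz hx hp g.symm ▸ hx)

/-- a quad of degree two without disabled corner has opposite free sides -/
theorem shapeS {d : Dart ι} (hd : d.1 ∈ K1) (hn : ∀ p ∈ K.dis, p.1 ≠ d.1) (h2 : K.deg d.1 = 2)
    (h1 : K.a d ≠ d) : K.a (sg d) = sg d ∧ K.a (sg (sg (sg d))) = sg (sg (sg d)) := by
  have e1 := deg_eq (K := K) d
  have e2 := h.glued_sg (d := sg d) hd hn
  have e3 := h.glued_sg (d := sg (sg d)) hd hn
  rw [if_neg h1] at e1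
  by_cases b1 : K.a (sg d) = sg d <;> by_cases b2 : K.a (sg (sg d)) = sg (sg d) <;>
    by_cases b3 : K.a (sg (sg (sg d))) = sg (sg (sg d)) <;> simp_all

theorem shapeS' {d : Dart ι} (hd : d.1 ∈ K1) (hn : ∀ p ∈ K.dis, p.1 ≠ d.1) (h2 : K.deg d.1 = 2)
    (h1 : K.a d = d) : K.a (sg (sg d)) = sg (sg d) := by
  have := (h.shapeS (d := sg d) hd hn h2 (h.glued_sg hd hn h1)).1
  exact this

theorem finish {z u : Dart ι} (hz : K.Inside K1 z) (zu : ∀ x ∈ K.intr z, col x = col z → x = z)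
    (nd : ∀ p ∈ K.dis, ¬ K.Fc z p) {C : Finset (Dart ι)} {del : Bool} (hC : Cls K K1 e f C del)
    (hP : K.Pick K1 C del) (hu : u ∈ C) (hu1 : u.1 = z.1)
    (hmt : K.NoMT (K.Ext K1 (K.ring z ∪ fanQ C) del))
    (hF : ∀ c y, K.Fc z c → col c ≠ col z → y ∈ C → y.1 = c.1 → K.deg c.1 = 4) : False := by
  have hK := h.valid
  obtain ⟨z0, z1, z2⟩ := hK.hasFree z
  have cz := col_lt z
  have mem : ∀ x ∈ K.lasts z (1 - col z), K.Fc z x ∧ K.a x = x ∧ col x + col z = 1 := by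
    intro x hx
    obtain ⟨a1, a2, a3⟩ := mem_lasts.1 hx
    exact ⟨a1, a2, by omega⟩
  refine hP (K.ring z ∪ fanQ C) (K.lasts z (1 - col z)) z0
    (union_subset (ring_sub hz) (fun q hq => ?_)) subset_union_right
    (h.conn_ring hz hC hu (hu1 ▸ ring_of_fc (Fc.refl z))) hmt ?_ z2
    (((inside_ring z).of_fc z1).mono subset_union_left) ?_
  · obtain ⟨c, a1, rfl⟩ := mem_fanQ.1 hq
    exact hC.sub c a1
  · intro q hq hq'
    obtain ⟨x, a1, rfl⟩ := mem_ring.1 ((mem_union.1 hq).resolve_right hq')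
    obtain ⟨y, b1, b2, b3⟩ : ∃ y, K.Fc z y ∧ y.1 = x.1 ∧ col y = 1 - col z := by
      have := col_lt x
      by_cases g : col x = col z
      · have hi : x ∉ K.intr z := fun g' =>
          hq' (by rw [zu x g' g, ← hu1]; exact fst_mem_fanQ hu)
        obtain ⟨y, b1, b2, b3⟩ := exists_other a1 hi
        exact ⟨y, b1, b2, by omega⟩
      · exact ⟨x, a1, rfl, by omega⟩
    obtain ⟨l, l1, l2⟩ := hK.hit_lasts b1
    rw [← b2]
    exact cov_of_hit ⟨l, b3 ▸ l1, l2⟩ (fun g => nd y g b1)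
  · refine h.weight _ _ _ (fun x hx => ?_) (fun x hx x' hx' hne c c' a1 a2 a3 => ?_)
      (fun x hx c a1 => mem_union_left _ (ring_of_fc ((mem x hx).1.trans a1.fc)))
      (fun x hx c a1 a2 => ?_)
    · obtain ⟨a1, _, _⟩ := mem x hx
      exact ⟨not_port_of_inside (hz.of_fc a1), h.not_single (hz.of_fc a1),
        fun y b1 b2 => nd y b2 (a1.trans b1.fc)⟩
    · obtain ⟨b1, b2, b3⟩ := mem x hx
      obtain ⟨c1, c2, c3⟩ := mem x' hx'
      refine h.same_col hz (b1.trans a1.fc) (c1.trans a2.fc) a3 ?_ ?_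
      · rw [← hK.col_vx a1, ← hK.col_vx a2]; omega
      · rintro rfl
        exact hne (last_unique b2 c2 (a1.trans a2.symm))
    · obtain ⟨b1, _, b3⟩ := mem x hx
      obtain ⟨y, c1, c2⟩ := mem_fanQ.1 a2
      refine hF c y (b1.trans a1.fc) ?_ c1 c2
      rw [← hK.col_vx a1]; omega

theorem not_fc_opp {z : Dart ι} (hz : z.1 ∈ K1) (h1 : K.a (sg z) ≠ sg z) :
    ¬ K.Fc (sg (sg z)) (sg z) := fun g =>
  h.nb (sg z) hz h1 (g.symm.trans (fc_a_sg _).symm)

theorem not_fc_opp' {z : Dart ι} (hz : z.1 ∈ K1) (h1 : K.a (sg (sg z)) ≠ sg (sg z)) :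
    ¬ K.Fc (sg (sg z)) (sg (sg (sg z))) := fun g =>
  h.nb (sg (sg z)) hz h1 (g.trans (fc_a_sg _).symm)

/-- the minority corner lies in a quad without free sides, and the free sides of the ring lie on
the two curves next to it (or on a curve that the fan of the opposite corner cannot reach) -/
theorem caseT2 {z : Dart ι} (hz : K.Inside K1 z) (z4 : K.deg z.1 = 4)
    (zu : ∀ x ∈ K.intr z, col x = col z → x = z) (nd : ∀ p ∈ K.dis, ¬ K.Fc z p)
    (H0 : ∀ x, K.Fc z x → K.deg x.1 = 4 ∨ K.deg x.1 = 2)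
    (TH : ∀ r, r.1 ∈ K.ring z → K.a r = r → ¬ K.Fc z r → K.Fc r (sg z) ∨
      K.Fc r (sg (sg (sg z))) ∨ (¬ K.Fc r (sg (sg z)) ∧ ¬ K.Port K1 (sg (sg z)) ∧
        ∀ r', K.a r' = r' → r'.1 ∈ K1 → K.Fc r r' → r'.1 ∈ K.ring z)) : False := by
  have zK : z.1 ∈ K1 := hz z (Fc.refl z)
  have g0 : K.a z ≠ z := glued_of_deg4 z4
  have g1 : K.a (sg z) ≠ sg z := glued_of_deg4 z4
  have g2 : K.a (sg (sg z)) ≠ sg (sg z) := glued_of_deg4 z4
  have g3 : K.a (sg (sg (sg z))) ≠ sg (sg (sg z)) := glued_of_deg4 z4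
  have n1 := h.not_fc_opp zK g1
  have n3 := h.not_fc_opp' zK g2
  have n0 : ¬ K.Fc z (sg (sg z)) := fun g =>
    sg2_ne z (zu _ (mem_intr.2 ⟨g, g2, by rw [sg4]; exact g1⟩) (col_sg2 z))
  obtain ⟨C, del, hC, hu, c2, c3, hP⟩ := h.pick (sg (sg z)) zK (fun g => g2 g.1)
  have far : ∀ r, r.1 ∈ K.ring z → K.a r = r → K.Fc r (sg (sg z)) → False := by
    intro r a1 a2 a3
    rcases TH r a1 a2 (fun g => n0 (g.trans a3)) with b | b | b
    · exact n1 (a3.symm.trans b)
    · exact n3 (a3.symm.trans b)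
    · exact b.1 a3
  have zF : z.1 ∈ K.Ext K1 (fanQ C) del := sub_ext _ _ (fst_mem_fanQ (c := sg (sg z)) hu)
  refine h.finish hz zu nd hC hP hu rfl (h.noMT_ring hz hC ?_ ?_) ?_
  · intro r a1 a2 _ c a4 a5
    exact (far r a1 a2 (a5.trans (hC.fc a4 hu))).elim
  · intro r r' g x a1 a2 a3 a4 a5 a6 a7 a8 a9 a10
    have fx : K.Fc (K.a g) r := a9.fc.trans (a10.fc.symm.trans a6.symm)
    rcases TH r a1 a2 a3 with b | b | b
    · have l1 := h.ring_link hz a1 a2 (Fc.refl z) g0 (Or.inl rfl) b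
      have l2 := hC.mt h.su a7 (g' := K.a (sg z)) ⟨a_glued g1, Or.inr (by rw [phi_a]; exact hu)⟩ a8
        (by rw [K.inv]; exact fx.trans b) a9 (x' := sg z) ⟨zF, Or.inr (K.inv _).symm⟩
      exact (l1.mono subset_union_left).trans ((a10.trans l2).symm.mono subset_union_right)
    · have l1 := h.ring_link hz a1 a2 (fc_pred z) (a_glued g3) (Or.inr (K.inv _).symm) b
      have l2 := hC.mt h.su a7 (g' := sg (sg z)) ⟨g2, Or.inl hu⟩ a8
        ((fx.trans b).trans (fc_a_sg _).symm) a9 (x' := sg (sg (sg z))) ⟨zF, Or.inl rfl⟩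
      exact (l1.mono subset_union_left).trans ((a10.trans l2).symm.mono subset_union_right)
    · obtain ⟨rfl, _⟩ := c3 b.2.1
      rw [ext_false] at a4
      obtain ⟨c, c4, c5⟩ := mem_fanQ.1 a4
      exact (h.ring_noMT hz r r' a1 (b.2.2 r' a5 (c5 ▸ hC.sub c c4) a6) a2 a5 a6).mono
        subset_union_left
  · intro c y a1 a2 a3 a4
    by_contra h4
    have h2 := (H0 c a1).resolve_left h4
    have cK := hz c a1
    have hn := h.noD hz nd a1
    have fy : K.Fc y (sg (sg z)) := hC.fc a3 hu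
    have cy : col y = col z := (c2 y a3).trans (col_sg2 z)
    have cR := ring_of_fc a1
    rcases same_quad a4 with g | g | g | g
    · exact a2 (g ▸ cy)
    · subst g
      by_cases b : K.a c = c
      · exact n0 ((a1.trans (fc_free b)).trans fy)
      · exact far (sg c) cR (h.shapeS cK hn h2 b).1 fy
    · exact a2 (by rw [← cy, g, col_sg2])
    · subst g
      by_cases b : K.a (sg (sg (sg c))) = sg (sg (sg c))
      · exact n0 ((a1.trans (fc_sg3 b)).trans fy)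
      · have := (h.shapeS (d := sg (sg (sg c))) cK hn h2 b).2
        rw [sg4] at this
        exact far (sg (sg c)) cR this ((fc_free this).trans fy)

end Reg

end Pool.Agent.Lib.MP_8d6beb_co
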