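import Pool.Agent.Lib.MP_8d6beb_co.QStepB2

/-! Step B: the minority corner lies in a quad with one free side. -/

namespace Pool.Agent.Lib.MP_8d6beb_co

open Finset Cx

set_option linter.unusedSectionVars false

variable {ι : Type} [Fintype ι] [DecidableEq ι] {K : Cx ι} {K1 : Finset ι} {e f : Dart ι}

/-- the edge at `g` joins the quads `q` and `q'` -/
def Cx.Adj (K : Cx ι) (g : Dart ι) (q q' : ι) : Prop :=
  (g.1 = q ∧ (K.a g).1 = q') ∨ (g.1 = q' ∧ (K.a g).1 = q)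

theorem Cx.Adj.iff {g : Dart ι} {q q' : ι} (h : K.Adj g q q') {U : Finset ι}
    (hU : g.1 ∈ U ↔ (K.a g).1 ∈ U) : q ∈ U ↔ q' ∈ U := by
  rcases h with ⟨rfl, rfl⟩ | ⟨rfl, rfl⟩
  · exact hU
  · exact hU.symm

theorem Cx.Adj.ring {z g : Dart ι} {q q' : ι} (h : K.Adj g q q') (hg : K.Fc z g) :
    q ∈ K.ring z ∧ q' ∈ K.ring z := by
  have a1 := ring_of_fc hg
  have a2 : (K.a g).1 ∈ K.ring z := by rw [← phi_fst]; exact ring_of_fc (hg.trans (fc_phi _))
  rcases h with ⟨rfl, rfl⟩ | ⟨rfl, rfl⟩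
  · exact ⟨a1, a2⟩
  · exact ⟨a2, a1⟩

theorem fc_end {g x : Dart ι} (h : x = sg g ∨ x = K.a g) : K.Fc (K.a g) x := by
  rcases h with a | a
  · rw [a]; exact fc_a_sg _
  · rw [a]; exact Fc.refl _

theorem Setup.ee (h : Setup K K1 e f) (h1 : K1 ≠ K.Q) : K.EE K1 e f :=
  (h.port.resolve_left h1).1

theorem Setup.out (h : Setup K K1 e f) (h1 : K1 ≠ K.Q) {g : Dart ι} (hg : g = e ∨ g = f) :
    (K.a g).1 ∉ K1 := by
  rcases hg with rfl | rfl
  · exact (h.ee h1).ae_not_mem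
  · exact (h.ee h1).swap.ae_not_mem

theorem Cls.diag_left {C : Finset (Dart ι)} {del : Bool} (hC : Cls K K1 e f C del) {g : Dart ι}
    (hg : K.Diag C g) (h1 : g.1 ∈ K1) : g ∈ C := by
  rcases hg.2 with a | a
  · exact a
  · exact hC.closed _ a _ (res_vx_step ∅ h1 (hC.sub (K.phi g) a) hg.1).symm

theorem Cls.diag_right {C : Finset (Dart ι)} {del : Bool} (hC : Cls K K1 e f C del) {g : Dart ι}
    (hg : K.Diag C g) (h1 : (K.a g).1 ∈ K1) : K.phi g ∈ C := by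
  rcases hg.2 with a | a
  · exact hC.closed _ a _ (res_vx_step ∅ (hC.sub _ a) h1 hg.1)
  · exact a

theorem Cls.diag_mem {C : Finset (Dart ι)} {del : Bool} (hC : Cls K K1 e f C del) {g : Dart ι}
    (hg : K.Diag C g) : g.1 ∈ K1 ∨ (K.a g).1 ∈ K1 := by
  rcases hg.2 with a | a
  · exact Or.inl (hC.sub _ a)
  · exact Or.inr (hC.sub (K.phi g) a)

theorem Cx.Valid.col_diag (hK : K.Valid) {C : Finset (Dart ι)} {k : ℕ} (hc : ∀ c ∈ C, col c = k)
    {g : Dart ι} (hg : K.Diag C g) : col g = k := by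
  rcases hg.2 with a | a
  · exact hc g a
  · rw [hK.col_vx (vx_phi hg.1)]; exact hc _ a

namespace Reg

variable (h : Reg K K1 e f)
include h

theorem ring_anchor {z r : Dart ι} (hz : K.Inside K1 z) (h1 : r.1 ∈ K.ring z) (h2 : K.a r = r)
    (h3 : ¬ K.Fc z r) :
    K.Inside (K.ring z) r ∨ ∃ g, K.Fc z g ∧ K.a g ≠ g ∧ K.Fc (K.a g) r := by
  have hC := h.cls_ring hz
  rcases hC.anchor h.su (r := r) (by rw [ext_false]; exact h1) h2 with
    a | ⟨c, a1, a2⟩ | ⟨g', x', a1, _, a3, a4⟩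
  · rw [ext_false] at a; exact Or.inl a
  · exact absurd ((mem_fcs.1 a1).trans a2.fc.symm) h3
  · exact Or.inr ⟨g', hC.fc_diag (mem_fcs.2 (Fc.refl z)) a1, a1.1, a3.fc.trans a4.fc.symm⟩

/-- two ring edges to one curve: one side consists of quads of degree two -/
theorem ring_two {z g g' : Dart ι} (hz : K.Inside K1 z) (h1 : K.Fc z g) (h2 : K.a g ≠ g)
    (h3 : K.Fc z g') (h4 : K.a g' ≠ g') (h5 : K.Fc (K.a g) (K.a g')) (h6 : g' ≠ g) :
    (K.deg g.1 = 2 ∧ K.deg (K.a g').1 = 2) ∨ (K.deg (K.a g).1 = 2 ∧ K.deg g'.1 = 2) := by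
  have m1 := hz g h1
  have m2 : (K.a g).1 ∈ K1 := hz (K.phi g) (h1.trans (fc_phi g))
  rcases h.su.gp g (K.a g') h2 (a_glued h4) (Or.inl m1) (Or.inr (by rw [K.inv]; exact hz g' h3)) h5
    (by rw [K.inv]; exact h3.symm.trans h1) (fun x => h.nb g m1 h2 (x.trans h5.symm))
    (fun x => h6 (a_inj x)) with a | a | ⟨a, b⟩
  · exact Or.inl ⟨a.2.2.1, a.2.2.2.1⟩
  · rw [K.inv] at a; exact Or.inr ⟨a.2.2.1, a.2.2.2.1⟩
  · rcases b with b | b | b | b
    · exact absurd m2 (h.su.out a (Or.inl b.1))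
    · exact absurd m2 (h.su.out a (Or.inr b.1))
    · exact absurd (by rw [K.inv]; exact m1) (h.su.out a (Or.inl b.1))
    · exact absurd (by rw [K.inv]; exact m1) (h.su.out a (Or.inr b.1))

/-- the cut given by two ring edges `g0`, `g1` and an edge `g2` between their far curves -/
theorem ring_three {z g0 g1 g2 : Dart ι} (hz : K.Inside K1 z) (h1 : K.Fc z g0)
    (h2 : K.a g0 ≠ g0) (h3 : K.Fc z g1) (h4 : K.a g1 ≠ g1) (h5 : K.a g2 ≠ g2)
    (h6 : K.Fc (K.a g0) g2) (h7 : K.Fc (K.a g2) (K.a g1)) (h8 : ¬ K.Fc g2 (K.a g2)) :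
    ∃ U ⊆ K.Q, (K.cut U).card ≤ 3 ∧ g0.1 ∈ U ∧ (K.a g0).1 ∉ U ∧ g1.1 ∉ U ∧ (K.a g1).1 ∈ U ∧
      ∀ g, K.Fc z g → g ≠ g0 → g ≠ g1 → (g.1 ∈ U ↔ (K.a g).1 ∈ U) := by
  have n0 := h.nb g0 (hz _ h1) h2
  have n1 := h.nb g1 (hz _ h3) h4
  have m0 : ¬ K.Fc z g2 := fun x => n0 ((h1.symm.trans x).trans h6.symm)
  have m1 : ¬ K.Fc z (K.a g1) := fun x => n1 (h3.symm.trans x)
  obtain ⟨U, u1, u2⟩ := h.valid.planar.three_cut h2 h5 (a_glued h4) h6 h7
    (by rw [K.inv]; exact h3.symm.trans h1) (fun x => m0 (h1.trans x))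
    (fun x => h8 (x.trans h7.symm)) (fun x => m1 (h1.trans x.symm))
  have c0 : g0 ∈ K.cut U := by rw [u2]; simp
  have c1 : K.a g1 ∈ K.cut U := by rw [u2]; simp
  rw [mem_cut] at c0 c1
  rw [K.inv] at c1
  refine ⟨U, u1, by rw [u2]; exact card_le_three, c0.1, c0.2, c1.2, c1.1, fun g a1 a2 a3 => ?_⟩
  constructor
  · intro b1
    by_contra b2
    have : g ∈ K.cut U := mem_cut.2 ⟨b1, b2⟩
    rw [u2] at this
    simp only [mem_insert, mem_singleton] at this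
    rcases this with rfl | rfl | rfl
    · exact a2 rfl
    · exact m0 a1
    · exact m1 a1
  · intro b1
    by_contra b2
    have hg : K.a g ∈ K.cut U := mem_cut.2 ⟨b1, by rwa [K.inv]⟩
    have gl : K.a g ≠ g := fun x => b2 (x ▸ b1)
    rw [u2] at hg
    simp only [mem_insert, mem_singleton] at hg
    rcases hg with x | x | x
    · exact h.nb g (hz _ a1) gl (x ▸ a1.symm.trans h1)
    · exact m1 (a1.trans (by rw [← x, K.inv] at h7; exact h7))
    · exact a3 (a_inj x)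

theorem coreT1 {R : Finset ι} (hR : MinR K K1 R) {z : Dart ι} (hzR : K.Inside R z)
    (zu : ∀ x ∈ K.intr z, col x = col z → x = z) (nd : ∀ p ∈ K.dis, ¬ K.Fc z p)
    (z3 : K.deg z.1 = 3) {c1 c2 g0 g0' hh gE gT d k0 : Dart ι} {T E N A : ι}
    (c2z : c2.1 = z.1) (lk1 : K.Lk {z.1} c1 (sg (sg z))) (ns : ¬ K.Single (sg (sg z)))
    (a1 : K.Fc z g0) (a2 : K.a g0 ≠ g0) (a3 : col g0 = col z) (a4 : c1 = sg g0 ∨ c1 = K.a g0)
    (a5 : K.Adj g0 z.1 T) (a6 : K.deg T = 3)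
    (b1 : K.Fc z g0') (b2 : K.a g0' ≠ g0') (b3 : c2 = sg g0' ∨ c2 = K.a g0')
    (b4 : K.Adj g0' z.1 E)
    (h1 : K.a hh ≠ hh) (h2 : hh = sg (sg z) ∨ K.phi hh = sg (sg z))
    (h3 : c2 = sg hh ∨ c2 = K.a hh)
    (e1 : K.Fc z gE) (e2 : K.Fc (K.a gE) c2) (e3 : K.Adj gE E N) (e4 : N ≠ z.1) (e5 : 3 ≤ K.deg N)
    (t1 : K.Fc z gT) (t2 : K.a gT ≠ gT) (t3 : gT ≠ g0) (t4 : d = sg gT ∨ d = K.a gT)
    (t5 : d.1 = T) (t6 : K.Adj gT T A) (t7 : A ≠ T) (t8 : 3 ≤ K.deg A)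
    (k1 : K.a k0 ≠ k0) (k2 : K.Vx c1 k0) (k3 : d = sg k0 ∨ d = K.a k0)
    (k4 : k0.1 ∉ K1 ∨ (K.a k0).1 ∉ K1 → (K.fr (fanQ ((K.res K1 ∅).cl c1))).card = 2) : False := by
  have hK := h.valid
  have hz : K.Inside K1 z := hzR.mono hR.sub
  have zK : z.1 ∈ K1 := hz z (Fc.refl z)
  have f0 : K.Fc (K.a g0) c1 := fc_end a4
  have fu : K.Fc c1 (sg (sg z)) := lk1.fc
  have n0 : ¬ K.Fc z c1 := fun x => h.nb g0 (hz _ a1) a2 ((a1.symm.trans x).trans f0.symm)
  have cc1 : col c1 + col z = 1 := by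
    rw [← a3]
    rcases a4 with x | x
    · rw [x]; exact col_sg _
    · rw [x]; exact hK.col_a a2
  have dg0 : K.deg g0.1 = 3 ∧ K.deg (K.a g0).1 = 3 := by
    rcases a5 with ⟨x, y⟩ | ⟨x, y⟩ <;> rw [x, y] <;> exact ⟨by assumption, by assumption⟩
  have uniq : ∀ g, K.Fc z g → K.a g ≠ g → K.Fc (K.a g) c1 → g = g0 := by
    intro g x1 x2 x3
    by_contra x4
    rcases h.ring_two hz a1 a2 x1 x2 (f0.trans x3.symm) x4 with y | y <;> omega
  obtain ⟨C, del, hC, hu, cC, _, hP⟩ := h.pick (sg (sg z)) zK ns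
  have cC' : ∀ c ∈ C, col c = col z := fun c hc => (cC c hc).trans (col_sg2 z)
  have zF : z.1 ∈ K.Ext K1 (fanQ C) del := sub_ext _ _ (fst_mem_fanQ (c := sg (sg z)) hu)
  have dh : K.Diag C hh := ⟨h1, by rcases h2 with x | x <;> rw [x] <;> simp [hu]⟩
  have fh : K.Fc (K.a hh) c2 := fc_end h3
  have hhK : ¬ K.Fc hh (K.a hh) := by
    rcases h3 with x | x
    · exact h.nb hh (by rw [← sg_fst hh, ← x, c2z]; exact zK) h1
    · intro y
      refine h.nb (K.a hh) (by rw [← x, c2z]; exact zK) (a_glued h1) ?_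
      rw [K.inv]; exact y.symm
  have n12 : ¬ K.Fc c1 c2 := fun x =>
    hhK (((hC.fc_diag hu dh).symm.trans fu.symm).trans (x.trans fh.symm))
  have TK : T ∈ K1 := ring_sub hz (a5.ring a1).2
  refine h.finish hz zu nd hC hP hu rfl (h.noMT_ring hz hC ?_ ?_) ?_
  · intro r r1 r2 _ c r4 r5
    have l1 := h.ring_link hz r1 r2 a1 a2 a4 (r5.trans ((hC.fc r4 hu).trans fu.symm))
    exact (l1.mono subset_union_left).trans
      ((lk1.mono (singleton_subset_iff.2 (mem_union_right _ zF))).trans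
        ((hC.lk _ hu _ r4).mono subset_union_right))
  · intro r r' g2 x r1 r2 r3 r4 r5 r6 r7 r8 r9 r10
    have fx : K.Fc (K.a g2) r := r9.fc.trans (r10.fc.symm.trans r6.symm)
    have f2 : K.Fc c1 g2 := fu.trans (hC.fc_diag hu r7)
    have fin : ∀ y y', K.Lk (K.ring z ∪ K.Ext K1 (fanQ C) del) r y →
        K.Lk (K.ring z ∪ K.Ext K1 (fanQ C) del) y y' → K.End (K.Ext K1 (fanQ C) del) g2 y' →
        K.Lk (K.ring z ∪ K.Ext K1 (fanQ C) del) r r' := by
      intro y y' x1 x2 x3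
      have := hC.mt h.su r7 r7 r8 (Fc.refl _) r9 x3
      exact (x1.trans x2).trans ((r10.trans this).symm.mono subset_union_right)
    by_cases q1 : K.Fc r c2
    · have l1 := h.ring_link hz r1 r2 b1 b2 b3 q1
      have l2 := hC.mt h.su r7 dh r8 ((fx.trans q1).trans fh.symm) r9 (x' := c2)
        ⟨c2z ▸ zF, h3⟩
      exact (l1.mono subset_union_left).trans ((r10.trans l2).symm.mono subset_union_right)
    rcases h.ring_anchor hz r1 r2 r3 with q2 | ⟨g1, q2, q3, q4⟩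
    · exact (q2.lk r6).mono subset_union_left
    obtain ⟨U, u1, u2, u3, u4, _, _, u7⟩ := h.ring_three hz a1 a2 q2 q3 r7.1 (f0.trans f2)
      (fx.trans q4.symm) r8
    have s1 : z.1 ∈ U ↔ E ∈ U := b4.iff (u7 g0' b1
      (fun y => n12 (f0.symm.trans (y ▸ fc_end b3))) (fun y => q1 (q4.symm.trans (y ▸ fc_end b3))))
    have s2 : E ∈ U ↔ N ∈ U := e3.iff (u7 gE e1
      (fun y => n12 (f0.symm.trans (y ▸ e2))) (fun y => q1 (q4.symm.trans (y ▸ e2))))
    have s3 : T ∈ U ↔ z.1 ∉ U := by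
      rcases a5 with ⟨y, y'⟩ | ⟨y, y'⟩
      · rw [← y, ← y']; exact ⟨fun w => absurd w u4, fun w => absurd u3 w⟩
      · rw [← y, ← y']; exact ⟨fun _ => u4, fun _ => u3⟩
    by_cases q5 : gT = g1
    swap
    · exfalso
      have s4 : T ∈ U ↔ A ∈ U := t6.iff (u7 gT t1 t3 q5)
      have m1 : z.1 ∈ R := hzR z (Fc.refl z)
      have m2 : N ∈ R := ring_sub hzR (e3.ring e1).2
      have m3 : T ∈ R := ring_sub hzR (t6.ring t1).1
      have m4 : A ∈ R := ring_sub hzR (t6.ring t1).2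
      by_cases y : z.1 ∈ U
      · exact h.tri hR u1 u2
          (Or.inr ⟨_, mem_inter.2 ⟨m1, y⟩, _, mem_inter.2 ⟨m2, s2.1 (s1.1 y)⟩, e4.symm, z3.ge, e5⟩)
          (Or.inr ⟨_, mem_sdiff.2 ⟨m3, fun w => s3.1 w y⟩, _,
            mem_sdiff.2 ⟨m4, fun w => s3.1 (s4.2 w) y⟩, t7.symm, a6.ge, t8⟩)
      · exact h.tri hR u1 u2
          (Or.inr ⟨_, mem_inter.2 ⟨m3, s3.2 y⟩, _, mem_inter.2 ⟨m4, s4.1 (s3.2 y)⟩, t7.symm,
            a6.ge, t8⟩)
          (Or.inr ⟨_, mem_sdiff.2 ⟨m1, y⟩, _, mem_sdiff.2 ⟨m2, fun w => y (s1.2 (s2.2 w))⟩,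
            e4.symm, z3.ge, e5⟩)
    subst q5
    have fd : K.Fc r d := q4.symm.trans (fc_end t4)
    have l1 := (h.ring_link hz r1 r2 t1 t2 t4 fd).mono
      (subset_union_left (s₂ := K.Ext K1 (fanQ C) del))
    have TD : T ∈ K.ring z ∪ K.Ext K1 (fanQ C) del := mem_union_left _ (t6.ring t1).1
    have ck : col k0 = col c1 := (hK.col_vx k2).symm
    have cg : col g2 = col z := hK.col_diag cC' r7
    have cak := hK.col_a k1
    have cag := hK.col_a r7.1
    have kT : k0.1 = T ∨ (K.a k0).1 = T := by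
      rcases k3 with y | y
      · left; rw [← t5, y]; rfl
      · right; rw [← t5, y]
    rcases h.su.gp k0 (K.a g2) k1 (a_glued r7.1) (by rcases kT with y | y <;> rw [y] <;> simp [TK])
      (by rw [K.inv]; exact (hC.diag_mem r7).symm)
      ((fc_end k3).trans (fd.symm.trans fx.symm)) (by rw [K.inv]; exact f2.symm.trans k2.fc)
      (fun y => r8 (f2.symm.trans (k2.fc.trans y))) (fun y => by have := a_inj y; subst this; omega)
      with y | y | ⟨y, y'⟩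
    · obtain ⟨_, y2, y3, _, y5, _, y7⟩ := y
      have y8 : k0.1 = (K.a g2).1 := y5.resolve_right (by omega)
      have y9 : d = K.a k0 := k3.resolve_left (fun w => by
        rw [← sg_fst k0, ← w, t5] at y3; omega)
      have y10 : (K.a g2).1 ∈ K.Ext K1 (fanQ C) del :=
        sub_ext _ _ (fst_mem_fanQ (c := K.phi g2) (hC.diag_right r7 y2))
      refine fin d (K.a g2) l1 (Lk.trans (y := sg k0) ?_ (y7.mono ?_)) ⟨y10, Or.inr rfl⟩
      · rw [y9]
        exact lk_a_sg (mem_union_right _ (y8 ▸ y10)) (by rw [← y9, t5]; exact TD)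
      · rw [y8]
        simpa using Or.inr y10
    · rw [K.inv] at y
      obtain ⟨_, y2, y3, _, y5, y6, _⟩ := y
      have y8 : (K.a k0).1 = g2.1 := y5.resolve_right (by omega)
      have y9 : d = sg k0 := k3.resolve_right (fun w => by rw [← w, t5] at y3; omega)
      have y10 : g2.1 ∈ K.Ext K1 (fanQ C) del :=
        sub_ext _ _ (fst_mem_fanQ (hC.diag_left r7 y2))
      refine fin d (sg g2) l1 (Lk.trans (y := K.a k0) ?_ (y6.symm.mono ?_)) ⟨y10, Or.inl rfl⟩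
      · rw [y9]
        exact (lk_a_sg (by rw [← sg_fst k0, ← y9, t5]; exact TD)
          (mem_union_right _ (y8 ▸ y10))).symm
      · rw [y8]
        simpa using Or.inr y10
    · exfalso
      rw [K.inv] at y'
      have c1K : c1.1 ∈ K1 := by
        have := lk1.symm.mem (mem_singleton_self _)
        rw [mem_singleton] at this
        rw [this]; exact zK
      have o : col e = col f ∧ (k0.1 ∉ K1 ∨ (K.a k0).1 ∉ K1) := by
        rcases y' with w | w | w | w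
        · exact ⟨by rw [← w.1, ← w.2]; omega, Or.inr (h.su.out y (Or.inl w.1))⟩
        · exact ⟨by rw [← w.1, ← w.2]; omega, Or.inr (h.su.out y (Or.inr w.1))⟩
        · exact ⟨by rw [← w.1, ← w.2]; omega,
            Or.inl (by have := h.su.out y (Or.inl w.1); rwa [K.inv] at this)⟩
        · exact ⟨by rw [← w.1, ← w.2]; omega,
            Or.inl (by have := h.su.out y (Or.inr w.1); rwa [K.inv] at this)⟩
      refine h.r4 y o.1 c1 c1K ?_ (k4 o.2)
      rcases o.2 with w | w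
      · exact ⟨k0, k2, w⟩
      · exact ⟨K.phi k0, k2.trans (vx_phi k1), w⟩
  · intro c y x1 x2 x3 x4
    exfalso
    have fy : K.Fc y c1 := (hC.fc x3 hu).trans fu.symm
    have cy := cC' y x3
    rcases same_quad x4 with g | g | g | g
    · exact x2 (g ▸ cy)
    · subst g
      by_cases b : K.a c = c
      · exact n0 ((x1.trans (fc_free b)).trans fy)
      · exact x2 (uniq c x1 b ((fc_a_sg c).trans fy) ▸ a3)
    · exact x2 (by rw [← cy, g, col_sg2])
    · subst g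
      by_cases b : K.a (sg (sg (sg c))) = sg (sg (sg c))
      · exact n0 ((x1.trans (fc_sg3 b)).trans fy)
      · have := uniq _ (x1.trans (fc_pred c)) (a_glued b) (by rw [K.inv]; exact fy)
        have w := hK.col_a b
        rw [this] at w
        omega

end Reg

end Pool.Agent.Lib.MP_8d6beb_co
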