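import Pool.Agent.Lib.MP_8d6beb_co.QStepB3

/-! Step B: walking along the curve; the case of a quad with one free side. -/

namespace Pool.Agent.Lib.MP_8d6beb_co

open Finset Cx

set_option linter.unusedSectionVars false

variable {ι : Type} [Fintype ι] [DecidableEq ι] {K : Cx ι} {K1 : Finset ι} {e f : Dart ι}

theorem deg_ne4 {d : Dart ι} (h : K.a d = d) : K.deg d.1 ≠ 4 := fun g => glued_of_deg4 g h

theorem deg3_glued {d x : Dart ι} (h3 : K.deg d.1 = 3) (h1 : K.a d = d) (hx : x.1 = d.1)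
    (hne : x ≠ d) : K.a x ≠ x := by
  have e1 := deg_eq (K := K) d
  rw [if_pos h1] at e1
  intro g
  rcases same_quad hx with y | y | y | y
  · exact hne y
  all_goals
    subst y
    rw [if_pos g] at e1
    split_ifs at e1 <;> omega

theorem res_pair {c : Dart ι} (hK : K.Valid) (h0 : K.a c ≠ c) (h1 : c.1 ∈ K1)
    (h2 : (K.a c).1 ∈ K1) (h3 : (K.res K1 ∅).a (sg (sg (sg c))) = sg (sg (sg c)))
    (h4 : (K.res K1 ∅).a (K.phi c) = K.phi c) (h5 : K.deg c.1 = 3) (h6 : K.deg (K.a c).1 = 3)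
    {x : Dart ι} (hx : x = c ∨ x = K.phi c) :
    (K.fr (fanQ ((K.res K1 ∅).cl x))).card = 2 := by
  have p : (K.res K1 ∅).phi c = K.phi c := by rw [phi_apply, res_a_in _ h1 h2]; rfl
  have v : (K.res K1 ∅).Vx c (K.phi c) := res_vx_step ∅ h1 h2 h0
  have v' : (K.res K1 ∅).Vx c x := by
    rcases hx with y | y <;> rw [y]
    · exact Vx.refl _
    · exact v
  have : fanQ ((K.res K1 ∅).cl x) = {c.1, (K.a c).1} := by
    ext q
    simp only [mem_fanQ, mem_cl, mem_insert, mem_singleton]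
    constructor
    · rintro ⟨y, y1, rfl⟩
      rcases Vx.pair h3 (by rw [p]; exact h4) (v'.trans y1) with w | w
      · exact Or.inl (by rw [w])
      · exact Or.inr (by rw [w, p]; rfl)
    · rintro (rfl | rfl)
      · exact ⟨c, v'.symm, rfl⟩
      · exact ⟨K.phi c, v'.symm.trans v, rfl⟩
  rw [this, card_fr_eq_sum, sum_pair (hK.a_fst_ne h0).symm]
  have := deg_add_fr (K := K) c.1
  have := deg_add_fr (K := K) (K.a c).1
  omega

namespace Reg

variable (h : Reg K K1 e f)
include h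

/-- a vertex with two corners lies between two quads of degree two -/
theorem pair_deg {c : Dart ι} (h0 : K.a c ≠ c) (h1 : c.1 ∈ K1) (h2 : (K.a c).1 ∈ K1)
    (h3 : K.a (sg (sg (sg c))) = sg (sg (sg c))) (h4 : K.a (K.phi c) = K.phi c) :
    K.deg c.1 = 2 ∧ K.deg (K.a c).1 = 2 := by
  have cl2 : ∀ x, K.Vx c x → x = c ∨ x = K.phi c := fun x hx => Vx.pair h3 h4 hx
  have w := h.w4 c (by
      rintro ⟨x, x1, x2⟩
      rcases cl2 x x1 with y | y <;> rw [y] at x2
      · exact x2 h1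
      · exact x2 h2) (fun g => h0 g.1) (by
      intro x x1 x2
      rcases cl2 x x1 with y | y <;> rw [y] at x2
      · exact (h.su.mc.dis_glued x2).2 h3
      · exact (h.su.mc.dis_glued x2).1 h4)
  have s : fanQ (K.cl c) ⊆ {c.1, (K.a c).1} := by
    intro q hq
    obtain ⟨x, x1, rfl⟩ := mem_fanQ.1 hq
    rcases cl2 x (mem_cl.1 x1) with y | y <;> rw [y]
    · simp
    · rw [phi_fst]; simp
  have a1 := card_le_card (fr_mono (K := K) s)
  have a2 := card_fr_pair (K := K) c.1 (K.a c).1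
  have a3 := h.fr_le_two h1
  have a4 := h.fr_le_two h2
  have a5 := deg_add_fr (K := K) c.1
  have a6 := deg_add_fr (K := K) (K.a c).1
  omega

theorem deg_intr {z x : Dart ι} (hz : K.Inside K1 z) (nd : ∀ p ∈ K.dis, ¬ K.Fc z p)
    (hx : x ∈ K.intr z) : 3 ≤ K.deg x.1 := by
  obtain ⟨a1, a2, a3⟩ := mem_intr.1 hx
  have a4 := h.two_le_deg (hz x a1)
  by_contra g
  exact a3 (h.shapeS (hz x a1) (h.noD hz nd a1) (by omega) a2).2

/-- forward from a last corner in a quad of degree two that follows a junction -/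
theorem fstep {z l : Dart ι} (hz : K.Inside K1 z) (nd : ∀ p ∈ K.dis, ¬ K.Fc z p) (l1 : K.Fc z l)
    (l2 : K.a l = l) (l3 : K.deg l.1 = 2) (l4 : 3 ≤ K.deg (K.a (sg (sg (sg l)))).1) :
    K.phi (sg l) ∈ K.intr z ∨ (K.a (K.phi (sg l)) = K.phi (sg l) ∧ K.deg (K.phi (sg l)).1 = 2 ∧
      K.phi (sg (K.phi (sg l))) ∈ K.intr z) := by
  have step : ∀ l, K.Fc z l → K.a l = l → K.phi (sg l) ∈ K.intr z ∨
      (K.a (sg l) ≠ sg l ∧ K.a (K.phi (sg l)) = K.phi (sg l) ∧ K.deg (K.phi (sg l)).1 = 2) := by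
    intro l l1 l2
    have a1 := h.glued_sg (hz l l1) (h.noD hz nd l1) l2
    have a2 : K.Fc z (K.phi (sg l)) := (l1.trans (fc_free l2)).trans (fc_phi _)
    by_cases g : K.a (K.phi (sg l)) = K.phi (sg l)
    · exact Or.inr ⟨a1, g, (h.pair_deg a1 (hz l l1) (hz (K.phi (sg l)) a2) (by rw [sg4]; exact l2) g).2⟩
    · refine Or.inl (mem_intr.2 ⟨a2, g, ?_⟩)
      rw [phi_apply, sg4]; exact a_glued a1
  rcases step l l1 l2 with a | ⟨a1, a2, a3⟩
  · exact Or.inl a
  have f1 : K.Fc z (K.phi (sg l)) := (l1.trans (fc_free l2)).trans (fc_phi _)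
  rcases step _ f1 a2 with b | ⟨b1, b2, b3⟩
  · exact Or.inr ⟨a2, a3, b⟩
  exfalso
  have f2 : K.Fc z (K.phi (sg (K.phi (sg l)))) := (f1.trans (fc_free a2)).trans (fc_phi _)
  have s1 := h.shapeS' (hz l l1) (h.noD hz nd l1) l3 l2
  have s2 := h.shapeS' (hz _ f1) (h.noD hz nd f1) a3 a2
  have s3 := h.shapeS' (hz _ f2) (h.noD hz nd f2) b3 b2
  refine h.su.mc.no_SSS (g := sg l) a1 s1 (by rw [sg4]; exact l2) a2 s2 rfl b2 s3 (fun g => ?_)
  have c1 := h.valid.col_a a1
  have c2 := h.valid.col_a b1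
  have c3 := col_sg (K.a (sg l))
  have c4 := col_sg (sg (K.a (sg l)))
  have c5 := col_sg l
  have c6 := col_sg2 l
  rw [phi_apply] at c2 a3
  rcases same_quad (d := l) g with y | y | y | y
  · rw [y] at c2; omega
  · exact sg2_ne _ (a_inj (y.trans (K.inv _).symm))
  · rw [y] at c2; omega
  · rw [← y, K.inv] at l4
    simp only [sg_fst] at l4 a3
    omega

/-- backward from a first corner in a quad of degree two that precedes a junction -/
theorem bstep {z w : Dart ι} (hz : K.Inside K1 z) (nd : ∀ p ∈ K.dis, ¬ K.Fc z p) (w1 : K.Fc z w)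
    (w2 : K.a (sg (sg (sg w))) = sg (sg (sg w))) (w3 : K.deg w.1 = 2)
    (w4 : 3 ≤ K.deg (K.a w).1) :
    K.a (sg (sg w)) ∈ K.intr z ∨ (K.deg (K.a (sg (sg w))).1 = 2 ∧
      K.a (sg (sg (K.a (sg (sg w))))) ∈ K.intr z) := by
  have step : ∀ w, K.Fc z w → K.a (sg (sg (sg w))) = sg (sg (sg w)) →
      K.Fc z (K.a (sg (sg w))) ∧ K.a (sg (sg w)) ≠ sg (sg w) ∧ (K.a (sg (sg w)) ∈ K.intr z ∨
      (K.a (sg (sg (sg (K.a (sg (sg w)))))) = sg (sg (sg (K.a (sg (sg w))))) ∧
        K.deg (K.a (sg (sg w))).1 = 2)) := by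
    intro w w1 w2
    have f1 := w1.trans (fc_sg3 w2)
    have a1 := h.glued_sg3 (hz _ f1) (h.noD hz nd f1) w2
    have a2 := f1.trans (fc_pred _)
    rw [sg4] at a1 a2
    refine ⟨a2, a1, ?_⟩
    by_cases g : K.a (sg (sg (sg (K.a (sg (sg w)))))) = sg (sg (sg (K.a (sg (sg w)))))
    · exact Or.inr ⟨g, (h.pair_deg (a_glued a1) (hz _ a2) (by rw [K.inv]; exact hz w w1) g
        (by rw [phi_a]; exact w2)).1⟩
    · exact Or.inl (mem_intr.2 ⟨a2, a_glued a1, g⟩)
  obtain ⟨f1, a1, a | ⟨a2, a3⟩⟩ := step w w1 w2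
  · exact Or.inl a
  obtain ⟨f2, b1, b | ⟨b2, b3⟩⟩ := step _ f1 a2
  · exact Or.inr ⟨a3, b⟩
  exfalso
  have s1 := (h.shapeS (d := sg (sg w)) (hz w w1) (h.noD (x := w) hz nd w1) w3 a1).2
  have s2 := (h.shapeS (hz _ f1) (h.noD hz nd f1) a3 (a_glued a1)).1
  have s3 := (h.shapeS (hz _ f2) (h.noD hz nd f2) b3 (a_glued b1)).1
  rw [sg4] at s1
  refine h.su.mc.no_SSS (a_glued b1) s3 b2 (by rw [K.inv]; exact a2)
    (by rw [K.inv, sg4]; exact s2) (g' := sg (sg w)) (by rw [K.inv, sg4, K.inv]) w2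
    (by rw [sg4]; exact s1) (fun g => ?_)
  have c1 := h.valid.col_a a1
  have c2 := h.valid.col_a b1
  have c3 := col_sg2 (K.a (sg (sg w)))
  have c4 := col_sg2 w
  have c5 := col_sg w
  have c6 := col_sg3 w
  rcases same_quad (d := w) g.symm with y | y | y | y
  · rw [← y, K.inv] at w4
    simp only [sg_fst] at w4
    omega
  · rw [y] at c2; omega
  · have := congrArg K.a y
    rw [K.inv] at this
    exact sg2_ne _ this
  · rw [y] at c2; omega

/-- the vertex of the minority corner has three corners -/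
theorem minor {z : Dart ι} (zi : z ∈ K.intr z) (zu : ∀ x ∈ K.intr z, col x = col z → x = z) :
    K.a (K.phi z) = K.phi z ∧
      K.a (sg (sg (sg (K.a (sg (sg (sg z))))))) = sg (sg (sg (K.a (sg (sg (sg z)))))) := by
  obtain ⟨_, g0, g3⟩ := mem_intr.1 zi
  constructor
  · by_contra g
    have := zu _ (mem_intr.2 ⟨fc_phi z, g, by rw [phi_apply, sg4]; exact a_glued g0⟩)
      (h.valid.col_vx (vx_phi g0)).symm
    exact h.valid.a_fst_ne g0 (congrArg (fun x => x.1) this :)
  · by_contra g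
    have := zu _ (mem_intr.2 ⟨fc_pred z, a_glued g3, g⟩) (h.valid.col_vx (vx_pred g3)).symm
    exact h.valid.a_fst_ne g3 (congrArg (fun x => x.1) this :)

theorem minor_weight {z : Dart ι} (hz : K.Inside K1 z) (zi : z ∈ K.intr z)
    (zu : ∀ x ∈ K.intr z, col x = col z → x = z) (nd : ∀ p ∈ K.dis, ¬ K.Fc z p) :
    K.deg (K.a (sg (sg (sg z)))).1 + K.deg z.1 + K.deg (K.a z).1 ≤ 8 := by
  obtain ⟨m1, m2⟩ := h.minor zi zu
  obtain ⟨_, g0, g3⟩ := mem_intr.1 zi
  have w := h.w4 z (not_port_of_inside hz) (h.not_single hz) (fun x a b => nd x b a.fc)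
  have s : fanQ (K.cl z) ⊆ {(K.a (sg (sg (sg z)))).1, z.1} ∪ {(K.a z).1} := by
    intro q hq
    obtain ⟨x, x1, rfl⟩ := mem_fanQ.1 hq
    rcases Vx.triple m2 (by rw [phi_pred]; exact m1) ((vx_pred g3).symm.trans (mem_cl.1 x1)) with
      y | y | y <;> rw [y]
    · simp
    · rw [phi_pred]; simp
    · rw [phi_pred, phi_fst]; simp
  have a1 := card_le_card (fr_mono (K := K) s)
  rw [fr_union] at a1
  have a2 := card_union_le (K.fr {(K.a (sg (sg (sg z)))).1, z.1}) (K.fr {(K.a z).1})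
  have a3 := card_fr_pair (K := K) (K.a (sg (sg (sg z)))).1 z.1
  have a4 := deg_add_fr (K := K) (K.a (sg (sg (sg z)))).1
  have a5 := deg_add_fr (K := K) z.1
  have a6 := deg_add_fr (K := K) (K.a z).1
  omega

/-- the only corner of the quad of `z` on the curve of `z` of the other colour does not exist -/
theorem adj_off {z x : Dart ι} (hz : K.Inside K1 z) (zi : z ∈ K.intr z) (hx : K.Fc z x)
    (hc : col x ≠ col z) : x.1 ≠ z.1 := by
  obtain ⟨_, g0, g3⟩ := mem_intr.1 zi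
  intro g
  rcases same_quad g with y | y | y | y
  · exact hc (by rw [y])
  · exact h.nb z (hz z (Fc.refl z)) g0 ((y ▸ hx).trans (fc_a_sg z).symm)
  · exact hc (by rw [y, col_sg2])
  · exact h.nb (sg (sg (sg z))) (hz z (Fc.refl z)) g3 ((y ▸ hx).symm.trans (fc_pred z))

theorem caseT1 {R : Finset ι} (hR : MinR K K1 R) {z : Dart ι} (hzR : K.Inside R z)
    (zi : z ∈ K.intr z) (zu : ∀ x ∈ K.intr z, col x = col z → x = z)
    (nd : ∀ p ∈ K.dis, ¬ K.Fc z p) (z3 : K.deg z.1 = 3) : False := by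
  have hK := h.valid
  have hz : K.Inside K1 z := hzR.mono hR.sub
  have zK : z.1 ∈ K1 := hz z (Fc.refl z)
  obtain ⟨m1, m2⟩ := h.minor zi zu
  have mw := h.minor_weight hz zi zu nd
  obtain ⟨_, g0, g3⟩ := mem_intr.1 zi
  have fp : K.Fc z (K.phi z) := fc_phi z
  have fw : K.Fc z (K.a (sg (sg (sg z)))) := fc_pred z
  have pK : (K.a z).1 ∈ K1 := hz (K.phi z) fp
  have wK := hz _ fw
  have d1 := h.two_le_deg pK
  have d2 := h.two_le_deg wK
  have d3 : K.deg (K.a z).1 ≠ 4 := deg_ne4 (d := K.phi z) m1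
  have d4 : K.deg (K.a (sg (sg (sg z)))).1 ≠ 4 := deg_ne4 (d := sg (sg (sg (K.a (sg (sg (sg z))))))) m2
  have d5 := deg_le_four (K := K) (K.a z).1
  have d6 := deg_le_four (K := K) (K.a (sg (sg (sg z)))).1
  have cw : col (K.a (sg (sg (sg z)))) = col z := (hK.col_vx (vx_pred g3)).symm
  have cp : col (K.phi z) = col z := (hK.col_vx (vx_phi g0)).symm
  by_cases o : K.a (sg z) = sg z
  · have g2 : K.a (sg (sg z)) ≠ sg (sg z) := deg3_glued (d := sg z) z3 o rfl (sg_ne _)
    have T3 : K.deg (K.a z).1 = 3 := by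
      by_contra g
      have s := (h.shapeS (d := K.a z) pK (h.noD (x := K.phi z) hz nd fp) (by omega) (a_glued g0)).2
      have := (h.pair_deg (a_glued g0) pK (by rw [K.inv]; exact zK) s (by rw [phi_a]; exact o)).2
      rw [K.inv] at this
      omega
    have E2 : K.deg (K.a (sg (sg (sg z)))).1 = 2 := by omega
    have sE := (h.shapeS wK (h.noD hz nd fw) E2 (a_glued g3)).1
    have Ni : K.a (sg (sg (K.a (sg (sg (sg z)))))) ∈ K.intr z := by
      rcases h.bstep hz nd fw m2 E2 (by rw [K.inv]; exact z3.ge) with a | ⟨a, b⟩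
      · exact a
      · exfalso
        have gl : K.a (sg (sg (K.a (sg (sg (sg z)))))) ≠ sg (sg (K.a (sg (sg (sg z))))) :=
          h.glued_sg (d := sg (K.a (sg (sg (sg z))))) wK
            (h.noD (x := K.a (sg (sg (sg z)))) hz nd fw) sE
        have c1 := hK.col_a gl
        have c2 := hK.col_a (mem_intr.1 b).2.1
        rw [K.inv] at c2
        have c3 := col_sg2 (K.a (sg (sg (sg z))))
        have c4 := col_sg2 (K.a (sg (sg (K.a (sg (sg (sg z)))))))
        have := congrArg K.a (zu _ b (by omega))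
        rw [K.inv] at this
        rw [← this] at T3
        simp only [sg_fst] at T3
        omega
    obtain ⟨n1, n2, _⟩ := mem_intr.1 Ni
    have cN := hK.col_a n2
    rw [K.inv, col_sg2] at cN
    have gT : K.a (sg (sg (K.a z))) ≠ sg (sg (K.a z)) :=
      deg3_glued (d := K.phi z) T3 m1 rfl (sg_ne _)
    have gk : K.a (sg (sg (sg (K.a z)))) ≠ sg (sg (sg (K.a z))) :=
      deg3_glued (d := K.phi z) T3 m1 rfl (sg2_ne _)
    have fT : K.Fc z (sg (sg (K.a z))) := fp.trans (fc_free m1)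
    have Ai : K.phi (sg (sg (K.a z))) ∈ K.intr z := by
      refine mem_intr.2 ⟨fT.trans (fc_phi _), fun g => ?_, by
        rw [phi_apply, sg4]; exact a_glued gT⟩
      have := (h.pair_deg gT pK (hz (K.phi _) (fT.trans (fc_phi _))) (by rw [sg4]; exact m1) g).1
      simp only [sg_fst] at this
      omega
    refine h.coreT1 hR hzR zu nd z3 (c1 := sg z) (c2 := sg (sg (sg z))) (g0 := z)
      (g0' := K.a (sg (sg (sg z)))) (hh := sg (sg z))
      (gE := K.a (sg (sg (K.a (sg (sg (sg z))))))) (gT := sg (sg (K.a z)))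
      (d := sg (sg (sg (K.a z)))) (k0 := K.a (sg (sg (sg (K.a z))))) rfl
      (lk_free (mem_singleton_self _) o) (fun g => g2 g.1) (Fc.refl z) g0 rfl (Or.inl rfl)
      (Or.inl ⟨rfl, rfl⟩) T3 fw (a_glued g3) (Or.inr (K.inv _).symm)
      (Or.inr ⟨rfl, by rw [K.inv]; rfl⟩) g2 (Or.inl rfl) (Or.inl rfl) n1 ?_
      (Or.inr ⟨rfl, by rw [K.inv]; rfl⟩) (h.adj_off hz zi n1 (by omega)) (h.deg_intr hz nd Ni)
      fT gT (fun g => hK.a_fst_ne g0 (congrArg (fun x => x.1) g :)) (Or.inl rfl) rfl (Or.inl ⟨rfl, rfl⟩)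
      (hK.a_fst_ne gT) (h.deg_intr (x := K.phi _) hz nd Ai) (a_glued gk)
      ((vx_a_sg g0).symm.trans (vx_pred gk)) (Or.inr (K.inv _).symm) ?_
    · rw [K.inv]
      have := fc_a_sg (K := K) (K.a (sg (sg (sg z))))
      rw [K.inv] at this
      exact (this.trans (fc_free sE)).symm
    · intro g
      rw [K.inv] at g
      have g' := g.resolve_right (fun y => y pK)
      refine res_pair (c := K.a z) hK (a_glued g0) pK (by rw [K.inv]; exact zK)
        (res_a_out _ (fun y => g' y.2)) ?_ T3 (by rw [K.inv]; exact z3) (Or.inr (phi_a z).symm)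
      rw [phi_a, res_a_in (K := K) (d := sg z) _ zK (by rw [o]; exact zK), o]
  · have g2 : K.a (sg (sg z)) = sg (sg z) := by
      by_contra g
      have := deg_eq (K := K) z
      rw [if_neg g0, if_neg o, if_neg g, if_neg g3] at this
      omega
    have T3 : K.deg (K.a (sg (sg (sg z)))).1 = 3 := by
      by_contra g
      have s := (h.shapeS wK (h.noD hz nd fw) (by omega) (a_glued g3)).1
      have := (h.pair_deg (c := sg (sg (sg z))) g3 zK wK (by rw [sg4]; exact g2) s).1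
      simp only [sg_fst] at this
      omega
    have E2 : K.deg (K.a z).1 = 2 := by omega
    have sE := (h.shapeS (d := K.a z) pK (h.noD (x := K.phi z) hz nd fp) E2 (a_glued g0)).2
    have gE : K.a (sg (K.phi z)) ≠ sg (K.phi z) := h.glued_sg pK (h.noD hz nd fp) m1
    have cN := hK.col_vx (vx_phi gE)
    have cN' := col_sg (K.phi z)
    have Ni : K.phi (sg (K.phi z)) ∈ K.intr z := by
      rcases h.fstep hz nd fp m1 E2 (by rw [phi_apply, sg4, K.inv]; exact z3.ge) with
        a | ⟨_, a, b⟩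
      · exact a
      · exfalso
        have gl : K.a (sg (K.phi (sg (K.phi z)))) ≠ sg (K.phi (sg (K.phi z))) := by
          have := (mem_intr.1 b).2.2
          rw [phi_apply, sg4] at this
          intro y; exact this (by rw [y, y])
        have c1 := hK.col_vx (vx_phi gl)
        have c2 := col_sg (K.phi (sg (K.phi z)))
        have := zu _ b (by omega)
        rw [← phi_pred (K := K) z] at this
        have := K.phi.injective this
        rw [phi_pred] at this
        rw [← this] at T3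
        simp only [sg_fst] at T3
        omega
    have n1 := (mem_intr.1 Ni).1
    have gT : K.a (sg (sg (K.a (sg (sg (sg z)))))) ≠ sg (sg (K.a (sg (sg (sg z))))) :=
      deg3_glued (d := sg (sg (sg (K.a (sg (sg (sg z))))))) T3 m2 rfl (sg_ne _).symm
    have gk : K.a (sg (K.a (sg (sg (sg z))))) ≠ sg (K.a (sg (sg (sg z)))) :=
      deg3_glued (d := sg (sg (sg (K.a (sg (sg (sg z))))))) T3 m2 rfl (sg2_ne _).symm
    have fT : K.Fc z (K.a (sg (sg (K.a (sg (sg (sg z))))))) := by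
      have := (fw.trans (fc_sg3 m2)).trans (fc_pred _)
      rwa [sg4] at this
    have Ai : K.a (sg (sg (K.a (sg (sg (sg z)))))) ∈ K.intr z := by
      refine mem_intr.2 ⟨fT, a_glued gT, fun g => ?_⟩
      have := (h.pair_deg (a_glued gT) (hz _ fT) (by rw [K.inv]; exact wK) g
        (by rw [phi_a]; exact m2)).2
      rw [K.inv] at this
      simp only [sg_fst] at this
      omega
    refine h.coreT1 hR hzR zu nd z3 (c1 := sg (sg (sg z))) (c2 := sg z)
      (g0 := K.a (sg (sg (sg z)))) (g0' := z) (hh := K.a (sg z)) (gE := sg (K.phi z))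
      (gT := K.a (sg (sg (K.a (sg (sg (sg z))))))) (d := sg (sg (K.a (sg (sg (sg z))))))
      (k0 := sg (K.a (sg (sg (sg z))))) rfl
      (lk_free (x := sg (sg z)) (mem_singleton_self _) g2).symm
      (fun g => o (by have := g.2; rwa [sg4] at this)) fw (a_glued g3) cw (Or.inr (K.inv _).symm)
      (Or.inr ⟨rfl, by rw [K.inv]; rfl⟩) T3 (Fc.refl z) g0 (Or.inl rfl) (Or.inl ⟨rfl, rfl⟩)
      (a_glued o) (Or.inr (phi_a _)) (Or.inr (K.inv _).symm) (fp.trans (fc_free m1)) ?_
      (Or.inl ⟨rfl, rfl⟩) (h.adj_off (x := K.phi (sg (K.phi z))) hz zi n1 (by omega))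
      (h.deg_intr (x := K.phi _) hz nd Ni) fT (a_glued gT)
      (fun g => hK.a_fst_ne gT (congrArg (fun x => x.1) g :))
      (Or.inr (K.inv _).symm) rfl (Or.inr ⟨rfl, by rw [K.inv]; rfl⟩) (hK.a_fst_ne gT)
      (h.deg_intr hz nd Ai) gk (vx_phi g3) (Or.inl rfl) ?_
    · exact ((fc_a_sg _).trans (fc_sg3 sE).symm).trans (fc_a_sg z)
    · intro g
      have g' := g.resolve_left (fun y => y wK)
      refine res_pair (c := sg (sg (sg z))) hK g3 zK wK ?_ (res_a_out _ (fun y => g' y.2)) z3 T3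
        (Or.inl rfl)
      rw [sg4, res_a_in (K := K) (d := sg (sg z)) _ zK (by rw [g2]; exact zK), g2]

end Reg

end Pool.Agent.Lib.MP_8d6beb_co
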