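import Pool.Agent.Lib.MP_8d6beb_co.QStepB4

/-! Step B: the minority corner lies in a quad without free sides; curves with two vertices. -/

namespace Pool.Agent.Lib.MP_8d6beb_co

open Finset Cx

set_option linter.unusedSectionVars false

variable {ι : Type} [Fintype ι] [DecidableEq ι] {K : Cx ι} {K1 : Finset ι} {e f : Dart ι}

theorem phi_eq {x y : Dart ι} (h : K.phi x = y) : K.a x = sg (sg (sg y)) := by
  rw [← h, phi_apply, sg4]

theorem phi_eq' {x y : Dart ι} (h : K.phi x = y) : K.a (sg (sg (sg y))) = x := by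
  rw [← phi_eq h, K.inv]

theorem port_vx {c c' : Dart ι} (h : K.Port K1 c) (h' : K.Vx c c') : K.Port K1 c' := by
  obtain ⟨x, a, b⟩ := h
  exact ⟨x, h'.symm.trans a, b⟩

theorem fanQ_mono {C C' : Finset (Dart ι)} (h : C ⊆ C') : fanQ C ⊆ fanQ C' := image_subset_image h

/-- a class together with a vertex that is not a port and is linked to it -/
theorem Cls.union_cl (h : Setup K K1 e f) {C : Finset (Dart ι)} {del : Bool}
    (hC : Cls K K1 e f C del) {u v : Dart ι} (hu : u ∈ C) (hv : ¬ K.Port K1 v)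
    (hl : K.Lk (fanQ (C ∪ K.cl v)) u v) : Cls K K1 e f (C ∪ K.cl v) del := by
  have hV := h.cls_vx hv
  have key : ∀ c ∈ C ∪ K.cl v, K.Lk (K.Ext K1 (fanQ (C ∪ K.cl v)) del) u c := by
    intro c hc
    rcases mem_union.1 hc with a | a
    · exact (hC.lk u hu c a).mono (ext_mono (fanQ_mono subset_union_left) del)
    · have := hV.lk v (mem_cl.2 (Vx.refl v)) c a
      rw [ext_false] at this
      exact (hl.trans (this.mono (fanQ_mono subset_union_right))).mono (sub_ext _ _)
  refine ⟨fun c hc => ?_, ⟨u, mem_union_left _ hu⟩, fun c hc c' a => ?_,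
    fun c hc c' hc' => (key c hc).symm.trans (key c' hc'), fun a => ?_, fun a b => ?_⟩
  · rcases mem_union.1 hc with a | a
    · exact hC.sub c a
    · exact hV.sub c a
  · rcases mem_union.1 hc with b | b
    · exact mem_union_left _ (hC.closed c b c' a)
    · exact mem_union_right _ (hV.closed c b c' a)
  · obtain ⟨b, c⟩ := hC.del_port a
    refine ⟨b, ?_⟩
    rcases c with c | c | c | c
    · exact Or.inl (mem_union_left _ c)
    · exact Or.inr (Or.inl (mem_union_left _ c))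
    · exact Or.inr (Or.inr (Or.inl (mem_union_left _ c)))
    · exact Or.inr (Or.inr (Or.inr (mem_union_left _ c)))
  · have me := (h.ee a).e_mem
    have mf := (h.ee a).swap.e_mem
    have out : ∀ x : Dart ι, K.Port K1 x → x ∈ C ∪ K.cl v → x ∈ C := fun x p q =>
      (mem_union.1 q).resolve_right (fun g => hv (port_vx p (mem_cl.1 g).symm))
    refine hC.both a ?_
    rcases b with ⟨b, c⟩ | ⟨b, c⟩
    · exact Or.inl ⟨out _ ((h.port_iff a me).2 (Or.inl (Vx.refl _))) b,
        out _ ((h.port_iff a (c := sg f) mf).2 (Or.inr (Or.inl (Vx.refl _)))) c⟩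
    · exact Or.inr ⟨out _ ((h.port_iff a mf).2 (Or.inr (Or.inr (Or.inl (Vx.refl _))))) b,
        out _ ((h.port_iff a (c := sg e) me).2 (Or.inr (Or.inr (Or.inr (Vx.refl _))))) c⟩

namespace Reg

variable (h : Reg K K1 e f)
include h

theorem free_deg {z x : Dart ι} (hz : K.Inside K1 z) (zi : z ∈ K.intr z)
    (zu : ∀ x ∈ K.intr z, col x = col z → x = z) (nd : ∀ p ∈ K.dis, ¬ K.Fc z p)
    (z4 : K.deg z.1 = 4) (hx : K.Fc z x) (h1 : K.a x = x) : K.deg x.1 = 2 := by
  have hK := h.valid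
  have mw := h.minor_weight hz zi zu nd
  have d1 : 2 ≤ K.deg (K.a z).1 := h.two_le_deg (hz (K.phi z) (fc_phi z))
  have d2 := h.two_le_deg (hz _ (fc_pred z))
  have xK := hz x hx
  have nD := h.noD hz nd hx
  by_cases c : col x = col z
  · have g := h.glued_sg3 xK nD h1
    have fp := hx.trans (fc_pred x)
    by_cases b : K.a (sg (sg (sg (K.a (sg (sg (sg x))))))) = sg (sg (sg (K.a (sg (sg (sg x))))))
    · have := (h.pair_deg (a_glued g) (hz _ fp) (by rw [K.inv]; exact xK) b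
        (by rw [phi_pred]; exact h1)).2
      rwa [K.inv] at this
    · have := zu _ (mem_intr.2 ⟨fp, a_glued g, b⟩) ((hK.col_vx (vx_pred g)).symm.trans c)
      have e1 : (K.a z).1 = x.1 := by rw [← this, K.inv]; rfl
      rw [← e1]; omega
  · have g := h.glued_sg xK nD h1
    have fp := (hx.trans (fc_free h1)).trans (fc_phi _)
    by_cases b : K.a (K.phi (sg x)) = K.phi (sg x)
    · exact (h.pair_deg g xK (hz (K.phi (sg x)) fp) (by rw [sg4]; exact h1) b).1
    · have c1 := hK.col_vx (vx_phi g)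
      have c2 := col_sg x
      have c3 := col_lt z
      have c4 := col_lt x
      have := zu _ (mem_intr.2 ⟨fp, b, by rw [phi_apply, sg4]; exact a_glued g⟩) (by omega)
      rw [phi_eq' this] at mw d2
      simp only [sg_fst] at mw d2
      omega

theorem ring_deg {z x : Dart ι} (hz : K.Inside K1 z) (zi : z ∈ K.intr z)
    (zu : ∀ x ∈ K.intr z, col x = col z → x = z) (nd : ∀ p ∈ K.dis, ¬ K.Fc z p)
    (z4 : K.deg z.1 = 4) (hx : K.Fc z x) : K.deg x.1 = 4 ∨ K.deg x.1 = 2 := by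
  have hK := h.valid
  by_cases b1 : K.a x = x
  · exact Or.inr (h.free_deg hz zi zu nd z4 hx b1)
  by_cases b3 : K.a (sg (sg (sg x))) = sg (sg (sg x))
  · exact Or.inr (h.free_deg (x := sg (sg (sg x))) hz zi zu nd z4 (hx.trans (fc_sg3 b3)) b3)
  left
  obtain ⟨l, l1, l2⟩ := hK.exists_last x
  obtain ⟨c, c1, c2⟩ := hK.exists_first x
  have fl := hx.trans l2.fc
  have fc := hx.trans c2.fc
  have dl := h.free_deg hz zi zu nd z4 fl l1
  have dc : K.deg c.1 = 2 :=
    h.free_deg (x := sg (sg (sg c))) hz zi zu nd z4 (fc.trans (fc_sg3 c1)) c1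
  have k1 := hK.col_vx l2
  have k2 := hK.col_vx c2
  by_contra h4
  have w := h.w4 x (not_port_of_inside (hz.of_fc hx)) (h.not_single (hz.of_fc hx))
    (fun y a b => nd y b (hx.trans a.fc))
  have n1 : l.1 ≠ c.1 := fun g => by
    have := h.same_col hz fc fl g (by omega) (fun g' => h.not_single (hz.of_fc fc) ⟨g' ▸ l1, c1⟩)
    omega
  have n2 : l.1 ≠ x.1 := fun g => h4 (h.same_col hz hx fl g k1.symm (fun g' => b1 (g' ▸ l1)))
  have n3 : c.1 ≠ x.1 := fun g => h4 (h.same_col hz hx fc g k2.symm (fun g' => b3 (g' ▸ c1)))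
  have s : ({x.1, l.1, c.1} : Finset ι) ⊆ fanQ (K.cl x) := by
    intro q hq
    simp only [mem_insert, mem_singleton] at hq
    rcases hq with rfl | rfl | rfl
    · exact fst_mem_fanQ (mem_cl.2 (Vx.refl x))
    · exact fst_mem_fanQ (mem_cl.2 l2)
    · exact fst_mem_fanQ (mem_cl.2 c2)
  have a1 := card_le_card (fr_mono (K := K) s)
  rw [card_fr_eq_sum, sum_insert (by simp [n2.symm, n3.symm]), sum_pair n1] at a1
  have a2 := deg_add_fr (K := K) x.1
  have a3 := deg_add_fr (K := K) l.1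
  have a4 := deg_add_fr (K := K) c.1
  omega

/-- the free sides of the ring off the curve are opposite to free sides on the curve -/
theorem free_ring {z r : Dart ι} (hz : K.Inside K1 z) (nd : ∀ p ∈ K.dis, ¬ K.Fc z p)
    (H0 : ∀ x, K.Fc z x → K.deg x.1 = 4 ∨ K.deg x.1 = 2) (h1 : r.1 ∈ K.ring z) (h2 : K.a r = r)
    (h3 : ¬ K.Fc z r) : ∃ l, K.Fc z l ∧ K.a l = l ∧ r = sg (sg l) := by
  obtain ⟨x, a1, a2⟩ := mem_ring.1 h1
  have d := (H0 x a1).resolve_left (a2 ▸ deg_ne4 h2)
  obtain ⟨l, l1, l2, l3⟩ : ∃ l, K.Fc z l ∧ K.a l = l ∧ r.1 = l.1 := by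
    by_cases b : K.a x = x
    · exact ⟨x, a1, b, a2.symm⟩
    · have := (h.shapeS (hz x a1) (h.noD hz nd a1) d b).2
      exact ⟨_, a1.trans (fc_sg3 this), this, a2.symm⟩
  rcases same_quad l3 with y | y | y | y
  · exact absurd (y ▸ l1) h3
  · exact absurd (y ▸ h2) (h.glued_sg (hz l l1) (h.noD hz nd l1) l2)
  · exact ⟨l, l1, l2, y⟩
  · exact absurd (y ▸ h2) (h.glued_sg3 (hz l l1) (h.noD hz nd l1) l2)

/-- a curve with two vertices -/
theorem digon {z l : Dart ι} (hz : K.Inside K1 z) (zi : z ∈ K.intr z)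
    (zu : ∀ x ∈ K.intr z, col x = col z → x = z) (nd : ∀ p ∈ K.dis, ¬ K.Fc z p)
    (z4 : K.deg z.1 = 4) (h1 : K.a l = l) (h2 : K.phi (sg l) = z)
    (hv : K.Vx (sg (K.phi z)) l) : False := by
  have H0 := fun x => h.ring_deg (x := x) hz zi zu nd z4
  obtain ⟨m1, _⟩ := h.minor zi zu
  obtain ⟨_, g0, g3⟩ := mem_intr.1 zi
  have e3 := phi_eq' h2
  refine h.caseT2 hz z4 zu nd H0 (fun r r1 r2 r3 => ?_)
  obtain ⟨y, y1, y2, rfl⟩ := h.free_ring hz nd H0 r1 r2 r3
  obtain ⟨y', y3, y4⟩ := face_walk (K := K) (L := fun y => y = K.phi z ∨ y = l) (l0 := K.phi z)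
    (x := y) (by rintro _ (rfl | rfl) <;> assumption) (by
      rintro _ (rfl | rfl)
      · exact ⟨_, Or.inr rfl, hv⟩
      · exact ⟨_, Or.inl rfl, (e3 ▸ (vx_pred g3).symm).trans (vx_phi g0)⟩)
    (Or.inl rfl) ((fc_phi z).symm.trans y1)
  rcases y3 with rfl | rfl
  · obtain rfl := last_unique y2 m1 y4
    left
    have := fc_free r2
    rw [phi_apply, sg4] at this
    exact this.trans (fc_a_sg z)
  · obtain rfl := last_unique y2 h1 y4
    right; left
    have := fc_phi (K := K) (sg (sg (sg z)))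
    rw [phi_apply, e3] at this
    exact this.symm

end Reg

end Pool.Agent.Lib.MP_8d6beb_co
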