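import Pool.Agent.Lib.MP_8d6beb_co.QStepB5

/-! Step B: a curve with four vertices and three interior corners. -/

namespace Pool.Agent.Lib.MP_8d6beb_co

open Finset Cx

set_option linter.unusedSectionVars false

variable {ι : Type} [Fintype ι] [DecidableEq ι] {K : Cx ι} {K1 : Finset ι} {e f : Dart ι}

/-- the curve `z, l2, sg l2, z3, l3, sg l3, l4, sg l4, z1, l1, sg l1` -/
structure Four (K : Cx ι) (z z3 z1 l2 l3 l4 l1 : Dart ι) : Prop where
  p2 : K.phi z = l2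
  f2 : K.a l2 = l2
  q3 : K.phi (sg l2) = z3
  p3 : K.phi z3 = l3
  f3 : K.a l3 = l3
  q4 : K.phi (sg l3) = l4
  f4 : K.a l4 = l4
  q1 : K.phi (sg l4) = z1
  p1 : K.phi z1 = l1
  f1 : K.a l1 = l1
  q2 : K.phi (sg l1) = z
  d2 : K.deg z.1 = 4
  d3 : K.deg z3.1 = 4
  d1 : K.deg z1.1 = 4
  s2 : K.a (sg (sg l2)) = sg (sg l2)
  s3 : K.a (sg (sg l3)) = sg (sg l3)
  s4 : K.a (sg (sg l4)) = sg (sg l4)
  s1 : K.a (sg (sg l1)) = sg (sg l1)
  g2 : K.a (sg l2) ≠ sg l2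
  g3 : K.a (sg l3) ≠ sg l3
  g4 : K.a (sg l4) ≠ sg l4
  g1 : K.a (sg l1) ≠ sg l1

namespace Four

variable {z z3 z1 l2 l3 l4 l1 : Dart ι} (T : Four K z z3 z1 l2 l3 l4 l1)
include T

theorem mem {x : Dart ι} (hx : K.Fc z x) : x = z ∨ x = l2 ∨ x = sg l2 ∨ x = z3 ∨ x = l3 ∨
    x = sg l3 ∨ x = l4 ∨ x = sg l4 ∨ x = z1 ∨ x = l1 ∨ x = sg l1 := by
  refine Fc.ind (P := fun x => x = z ∨ x = l2 ∨ x = sg l2 ∨ x = z3 ∨ x = l3 ∨
    x = sg l3 ∨ x = l4 ∨ x = sg l4 ∨ x = z1 ∨ x = l1 ∨ x = sg l1) (fun y hy => ?_) hx (Or.inl rfl)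
  rcases hy with g | g | g | g | g | g | g | g | g | g | g <;> rw [g]
  · rw [T.p2]; simp only [true_or, or_true]
  · rw [phi_free T.f2]; simp only [true_or, or_true]
  · rw [T.q3]; simp only [true_or, or_true]
  · rw [T.p3]; simp only [true_or, or_true]
  · rw [phi_free T.f3]; simp only [true_or, or_true]
  · rw [T.q4]; simp only [true_or, or_true]
  · rw [phi_free T.f4]; simp only [true_or, or_true]
  · rw [T.q1]; simp only [true_or, or_true]
  · rw [T.p1]; simp only [true_or, or_true]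
  · rw [phi_free T.f1]; simp only [or_true]
  · rw [T.q2]; simp only [true_or]

theorem c2 : K.Fc z l2 := T.p2 ▸ fc_phi z

theorem cz3 : K.Fc z z3 := (T.c2.trans (fc_free T.f2)).trans (T.q3 ▸ fc_phi _)

theorem c3 : K.Fc z l3 := T.cz3.trans (T.p3 ▸ fc_phi _)

theorem c4 : K.Fc z l4 := (T.c3.trans (fc_free T.f3)).trans (T.q4 ▸ fc_phi _)

theorem cz1 : K.Fc z z1 := (T.c4.trans (fc_free T.f4)).trans (T.q1 ▸ fc_phi _)

theorem c1 : K.Fc z l1 := T.cz1.trans (T.p1 ▸ fc_phi _)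

theorem e1 : K.phi (sg (sg (sg z1))) = sg (sg l4) := by rw [phi_apply, phi_eq' T.q1]

theorem e2 : K.phi (sg (sg (sg l4))) = sg (sg l3) := by rw [phi_apply, phi_eq' T.q4]

theorem e3 : K.phi (sg (sg (sg l3))) = sg z3 := by rw [phi_apply, phi_eq' T.p3]

theorem gl4 : K.a (sg (sg (sg l4))) ≠ sg (sg (sg l4)) := by
  have := a_glued T.g3
  rwa [phi_eq T.q4] at this

theorem gl3 : K.a (sg (sg (sg l3))) ≠ sg (sg (sg l3)) := by
  have := a_glued (glued_of_deg4 T.d3)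
  rwa [phi_eq T.p3] at this

theorem gt1 : K.a (sg (sg (sg z1))) ≠ sg (sg (sg z1)) := glued_of_deg4 T.d1

theorem gt3 : K.a (sg z3) ≠ sg z3 := glued_of_deg4 T.d3

theorem lk {F : Finset ι} (h1 : z1.1 ∈ F) (h4 : l4.1 ∈ F) (h3 : l3.1 ∈ F) (h2 : z3.1 ∈ F) :
    K.Lk F (sg (sg (sg z1))) (sg z3) := by
  have a1 := lk_phi (K := K) (x := sg (sg (sg z1))) h1 (by rw [phi_eq' T.q1]; exact h4)
  have a2 := lk_free (x := sg (sg l4)) h4 T.s4
  have a3 := lk_phi (K := K) (x := sg (sg (sg l4))) h4 (by rw [phi_eq' T.q4]; exact h3)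
  have a4 := lk_free (x := sg (sg l3)) h3 T.s3
  have a5 := lk_phi (K := K) (x := sg (sg (sg l3))) h3 (by rw [phi_eq' T.p3]; exact h2)
  rw [T.e1] at a1
  rw [T.e2] at a3
  rw [T.e3] at a5
  exact a1.trans (a2.trans (a3.trans (a4.trans a5)))

theorem t4 : K.Fc (sg (sg (sg z1))) (sg (sg l4)) := T.e1 ▸ fc_phi _

theorem t3 : K.Fc (sg (sg (sg z1))) (sg (sg l3)) :=
  (T.t4.trans (fc_free T.s4)).trans (T.e2 ▸ fc_phi _)

theorem t3' : K.Fc (sg (sg (sg z1))) (sg (sg (sg l3))) := T.t3.trans (fc_free T.s3)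

theorem tt : K.Fc (sg (sg (sg z1))) (sg z3) := T.t3'.trans (T.e3 ▸ fc_phi _)

theorem ta : K.Fc (sg (sg (sg z))) (sg (sg l1)) := by
  have := fc_phi (K := K) (sg (sg (sg z)))
  rwa [phi_apply, phi_eq' T.q2] at this

theorem cols (hK : K.Valid) : col l2 = col z ∧ col z3 + col z = 1 ∧ col l3 + col z = 1 ∧
    col l4 = col z ∧ col z1 + col z = 1 ∧ col l1 + col z = 1 := by
  have a1 := hK.col_vx (vx_phi (glued_of_deg4 T.d2))
  have a2 := hK.col_vx (vx_phi T.g2)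
  have a3 := hK.col_vx (vx_phi (glued_of_deg4 T.d3))
  have a4 := hK.col_vx (vx_phi T.g3)
  have a5 := hK.col_vx (vx_phi T.g4)
  have a6 := hK.col_vx (vx_phi (glued_of_deg4 T.d1))
  rw [T.p2] at a1
  rw [T.q3] at a2
  rw [T.p3] at a3
  rw [T.q4] at a4
  rw [T.q1] at a5
  rw [T.p1] at a6
  have := col_sg l2
  have := col_sg l3
  have := col_sg l4
  omega

theorem v1 (hz : K.Inside K1 z) : K.V1 K1 (sg (sg (sg z1))) (sg (sg l4)) := by
  have := res_vx_step (K := K) (c := sg (sg (sg z1))) ∅ (hz z1 T.cz1)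
    (by rw [phi_eq' T.q1]; exact hz l4 T.c4) T.gt1
  rwa [T.e1] at this

theorem v3 (hz : K.Inside K1 z) : K.V1 K1 (sg (sg (sg l3))) (sg z3) := by
  have := res_vx_step (K := K) (c := sg (sg (sg l3))) ∅ (hz l3 T.c3)
    (by rw [phi_eq' T.p3]; exact hz z3 T.cz3) T.gl3
  rwa [T.e3] at this

theorem free {l : Dart ι} (h1 : K.Fc z l) (h2 : K.a l = l) :
    l = l2 ∨ l = l3 ∨ l = l4 ∨ l = l1 := by
  rcases T.mem h1 with g | g | g | g | g | g | g | g | g | g | g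
  · exact absurd (g ▸ h2) (glued_of_deg4 T.d2)
  · exact Or.inl g
  · exact absurd (g ▸ h2) T.g2
  · exact absurd (g ▸ h2) (glued_of_deg4 T.d3)
  · exact Or.inr (Or.inl g)
  · exact absurd (g ▸ h2) T.g3
  · exact Or.inr (Or.inr (Or.inl g))
  · exact absurd (g ▸ h2) T.g4
  · exact absurd (g ▸ h2) (glued_of_deg4 T.d1)
  · exact Or.inr (Or.inr (Or.inr g))
  · exact absurd (g ▸ h2) T.g1

variable (h : Reg K K1 e f)
include h

theorem nP (hz : K.Inside K1 z) : ¬ K.Fc z (sg (sg (sg z1))) := fun g =>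
  h.nb (sg l4) (hz l4 T.c4) T.g4 (by
    rw [phi_eq T.q1]; exact (T.c4.trans (fc_free T.f4)).symm.trans g)

theorem nA (hz : K.Inside K1 z) : ¬ K.Fc (sg (sg (sg z1))) (sg (sg (sg z))) := fun g => by
  have cs := T.cols h.valid
  have d1 := T.d1
  have d2 := T.d2
  have := h.ring_two hz (T.c4.trans (fc_free T.f4)) T.g4 (T.c1.trans (fc_free T.f1)) T.g1
    (by rw [phi_eq T.q1, phi_eq T.q2]; exact g) (fun y => by
      have := sg_inj y
      rw [this] at cs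
      omega)
  rw [phi_eq T.q1, phi_eq T.q2] at this
  simp only [sg_fst] at this
  omega

theorem nB (hz : K.Inside K1 z) : ¬ K.Fc (sg (sg (sg z1))) (sg (sg (sg l2))) := fun g => by
  have cs := T.cols h.valid
  have d3 := T.d3
  have d2 := T.d2
  have := h.ring_two hz T.cz3 (glued_of_deg4 T.d3) (Fc.refl z) (glued_of_deg4 T.d2)
    (by rw [phi_eq T.p3, phi_eq T.p2]; exact T.t3'.symm.trans g) (fun y => by
      rw [← y] at cs
      omega)
  omega

theorem triA {R : Finset ι} (hR : MinR K K1 R) (hzR : K.Inside R z) {g : Dart ι}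
    (h1 : K.a g ≠ g) (h2 : K.Fc (sg (sg (sg z1))) g) (h3 : K.Fc (K.a g) (sg (sg (sg z))))
    (h4 : ¬ K.Fc g (K.a g)) : False := by
  obtain ⟨U, u1, u2, _, u4, _, u6, _⟩ := h.ring_three (hzR.mono hR.sub)
    (T.c4.trans (fc_free T.f4)) T.g4 (T.c1.trans (fc_free T.f1)) T.g1 h1
    (by rw [phi_eq T.q1]; exact h2) (by rw [phi_eq T.q2]; exact h3) h4
  rw [phi_eq T.q1] at u4
  rw [phi_eq T.q2] at u6
  exact h.tri hR u1 u2 (Or.inl ⟨z.1, mem_inter.2 ⟨hzR z (Fc.refl z), u6⟩, T.d2⟩)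
    (Or.inl ⟨z1.1, mem_sdiff.2 ⟨hzR z1 T.cz1, u4⟩, T.d1⟩)

theorem triB {R : Finset ι} (hR : MinR K K1 R) (hzR : K.Inside R z) {g : Dart ι}
    (h1 : K.a g ≠ g) (h2 : K.Fc (sg (sg (sg z1))) g) (h3 : K.Fc (K.a g) (sg (sg (sg l2))))
    (h4 : ¬ K.Fc g (K.a g)) : False := by
  obtain ⟨U, u1, u2, u3, _, u5, _, _⟩ := h.ring_three (hzR.mono hR.sub)
    T.cz3 (glued_of_deg4 T.d3) (Fc.refl z) (glued_of_deg4 T.d2) h1
    (by rw [phi_eq T.p3]; exact T.t3'.symm.trans h2) (by rw [phi_eq T.p2]; exact h3) h4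
  exact h.tri hR u1 u2 (Or.inl ⟨z3.1, mem_inter.2 ⟨hzR z3 T.cz3, u3⟩, T.d3⟩)
    (Or.inl ⟨z.1, mem_sdiff.2 ⟨hzR z (Fc.refl z), u5⟩, T.d2⟩)

variable {R : Finset ι} (hR : MinR K K1 R) (hzR : K.Inside R z) (nd : ∀ p ∈ K.dis, ¬ K.Fc z p)
  (H0 : ∀ x, K.Fc z x → K.deg x.1 = 4 ∨ K.deg x.1 = 2)
include hR hzR nd H0

theorem off {r : Dart ι} (h1 : r.1 ∈ K.ring z) (h2 : K.a r = r) (h3 : ¬ K.Fc z r) :
    r = sg (sg l2) ∨ r = sg (sg l3) ∨ r = sg (sg l4) ∨ r = sg (sg l1) := by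
  obtain ⟨l, a1, a2, rfl⟩ := h.free_ring (hzR.mono hR.sub) nd H0 h1 h2 h3
  rcases T.free a1 a2 with g | g | g | g <;> rw [g] <;> simp only [true_or, or_true]

theorem noMT {C : Finset (Dart ι)} {del : Bool} (hC : Cls K K1 e f C del)
    (c1 : sg (sg (sg z1)) ∈ C) (c3 : sg z3 ∈ C) :
    K.NoMT (K.Ext K1 (K.ring z ∪ fanQ C) del) := by
  have hz : K.Inside K1 z := hzR.mono hR.sub
  have m4 := hC.closed _ c1 _ (T.v1 hz)
  have m3 := hC.closed _ c3 _ (T.v3 hz).symm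
  refine h.noMT_ring hz hC (fun r r1 r2 r3 c r4 r5 => ?_)
    (fun r r' g x r1 r2 r3 r4 r5 r6 r7 r8 r9 r10 => ?_)
  · have ft := (hC.fc c1 r4).trans r5.symm
    rcases T.off h hR hzR nd H0 r1 r2 r3 with y | y | y | y <;> subst y
    · exact absurd (ft.trans (fc_free T.s2)) (T.nB h hz)
    · exact (lk_free (mem_union_left _ r1) r2).trans
        ((hC.lk _ m3 _ r4).mono subset_union_right)
    · exact (hC.lk _ m4 _ r4).mono subset_union_right
    · exact absurd (ft.trans T.ta.symm) (T.nA h hz)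
  · exfalso
    have fx : K.Fc (K.a g) r := r9.fc.trans (r10.fc.symm.trans r6.symm)
    have fg := hC.fc_diag c1 r7
    rcases T.off h hR hzR nd H0 r1 r2 r3 with y | y | y | y <;> subst y
    · exact T.triB h hR hzR r7.1 fg (fx.trans (fc_free T.s2)) r8
    · exact r8 ((fg.symm.trans T.t3).trans fx.symm)
    · exact r8 ((fg.symm.trans T.t4).trans fx.symm)
    · exact T.triA h hR hzR r7.1 fg (fx.trans T.ta.symm) r8

/-- the vertex of `z` shares with the far curve only quads of degree four -/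
theorem sep {c c' : Dart ι} (h1 : K.Vx l2 c) (h2 : K.Fc (sg (sg (sg z1))) c')
    (h3 : col c' = col z) (h4 : c'.1 = c.1) : K.deg c.1 = 4 := by
  have hz : K.Inside K1 z := hzR.mono hR.sub
  have cs := T.cols h.valid
  have cc := h.valid.col_vx h1
  have fc := T.c2.trans h1.fc
  have k1 := col_sg c
  have k3 := col_sg3 c
  have v : K.Vx (sg l1) l2 := by
    have a1 := vx_phi T.g1
    have a2 := vx_phi (glued_of_deg4 T.d2)
    rw [T.q2] at a1
    rw [T.p2] at a2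
    exact a1.trans a2
  rcases same_quad h4 with y | y | y | y
  · exact absurd (fc.trans (y ▸ h2).symm) (T.nP h hz)
  · rw [y] at h3; omega
  · rcases Vx.triple (by rw [sg4]; exact T.f1) (by rw [T.q2, T.p2]; exact T.f2) (v.trans h1) with
      w | w | w
    · rw [y, w] at h2
      exact absurd (h2.trans (T.ta.trans (fc_free T.s1)).symm) (T.nA h hz)
    · rw [w, T.q2]; exact T.d2
    · rw [y, w, T.q2, T.p2] at h2
      exact absurd (h2.trans (fc_free T.s2)) (T.nB h hz)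
  · rw [y] at h3; omega

theorem main {u v : Dart ι}
    (huv : (u = sg (sg (sg z1)) ∧ v = sg z3) ∨ (u = sg z3 ∧ v = sg (sg (sg z1))))
    {C : Finset (Dart ι)} {del : Bool} (hC : Cls K K1 e f C del) (hu : u ∈ C)
    (hcol : ∀ c ∈ C, col c = col u) (hP : K.Pick K1 C del)
    (hv : v ∈ C ∨ (¬ K.Port K1 v ∧ ∀ y, K.Vx v y → y ∉ K.dis)) : False := by
  have hK := h.valid
  have hz : K.Inside K1 z := hzR.mono hR.sub
  have cs := T.cols hK
  have k1 := col_sg3 z1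
  have k3 := col_sg z3
  have cu : col u = col z := by rcases huv with ⟨a, _⟩ | ⟨a, _⟩ <;> rw [a] <;> omega
  have cv : col v = col z := by rcases huv with ⟨_, a⟩ | ⟨_, a⟩ <;> rw [a] <;> omega
  have fu : K.Fc (sg (sg (sg z1))) u := by
    rcases huv with ⟨a, _⟩ | ⟨a, _⟩ <;> rw [a]
    · exact Fc.refl _
    · exact T.tt
  have fv : K.Fc (sg (sg (sg z1))) v := by
    rcases huv with ⟨_, a⟩ | ⟨_, a⟩ <;> rw [a]
    · exact T.tt
    · exact Fc.refl _
  have gv : K.a v ≠ v := by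
    rcases huv with ⟨_, a⟩ | ⟨_, a⟩ <;> rw [a]
    · exact T.gt3
    · exact T.gt1
  obtain ⟨C', X0, hC', s1, s2, s3, s4, s5⟩ : ∃ C' X0 : Finset (Dart ι), Cls K K1 e f C' del ∧
      C ⊆ C' ∧ v ∈ C' ∧ l2 ∈ X0 ∧ (∀ c ∈ C', c ∈ C ∨ (K.Hit X0 c ∧ c ∉ K.dis)) ∧
      ∀ x ∈ X0, x = l2 ∨ (x = v ∧ v ∉ C ∧ ¬ K.Port K1 v ∧ (∀ y, K.Vx v y → y ∉ K.dis) ∧
        ∀ y, K.Vx v y → y ∈ C') := by
    by_cases g : v ∈ C
    · exact ⟨C, {l2}, hC, Subset.refl _, g, mem_singleton_self _, fun c hc => Or.inl hc,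
        fun x hx => Or.inl (mem_singleton.1 hx)⟩
    obtain ⟨n1, n2⟩ := hv.resolve_left g
    have clo : ∀ c ∈ C ∪ K.cl v, ∀ c', K.V1 K1 c c' → c' ∈ C ∪ K.cl v := by
      intro c hc c' a
      rcases mem_union.1 hc with b | b
      · exact mem_union_left _ (hC.closed c b c' a)
      · exact mem_union_right _ (mem_cl.2 ((mem_cl.1 b).trans (vx_of_res a)))
    have mu : u ∈ C ∪ K.cl v := mem_union_left _ hu
    have mv : v ∈ C ∪ K.cl v := mem_union_right _ (mem_cl.2 (Vx.refl v))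
    have m1 : sg (sg (sg z1)) ∈ C ∪ K.cl v := by
      rcases huv with ⟨a, _⟩ | ⟨_, a⟩ <;> rw [← a] <;> assumption
    have m3 : sg z3 ∈ C ∪ K.cl v := by
      rcases huv with ⟨_, a⟩ | ⟨a, _⟩ <;> rw [← a] <;> assumption
    have l := T.lk (fst_mem_fanQ (c := sg (sg (sg z1))) m1)
      (fst_mem_fanQ (c := sg (sg l4)) (clo _ m1 _ (T.v1 hz)))
      (fst_mem_fanQ (c := sg (sg (sg l3))) (clo _ m3 _ (T.v3 hz).symm))
      (fst_mem_fanQ (c := sg z3) m3)
    refine ⟨C ∪ K.cl v, {l2, v}, hC.union_cl h.su hu n1 ?_, subset_union_left, mv,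
      mem_insert_self _ _, fun c hc => ?_, fun x hx => ?_⟩
    · rcases huv with ⟨a, b⟩ | ⟨a, b⟩
      · rw [← a, ← b] at l; exact l
      · rw [← a, ← b] at l; exact l.symm
    · rcases mem_union.1 hc with a | a
      · exact Or.inl a
      · exact Or.inr ⟨⟨v, by simp, mem_cl.1 a⟩, n2 c (mem_cl.1 a)⟩
    · rcases mem_insert.1 hx with a | a
      · exact Or.inl a
      · exact Or.inr ⟨mem_singleton.1 a, g, n1, n2, fun y hy => mem_union_right _ (mem_cl.2 hy)⟩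
  have m1 : sg (sg (sg z1)) ∈ C' := by
    rcases huv with ⟨a, _⟩ | ⟨_, a⟩ <;> rw [← a]
    · exact s1 hu
    · exact s2
  have m3 : sg z3 ∈ C' := by
    rcases huv with ⟨_, a⟩ | ⟨a, _⟩ <;> rw [← a]
    · exact s2
    · exact s1 hu
  have m4 := hC'.closed _ m1 _ (T.v1 hz)
  have m5 := hC'.closed _ m3 _ (T.v3 hz).symm
  have vz : K.Vx l2 z := by
    have a2 := vx_phi (glued_of_deg4 T.d2)
    rw [T.p2] at a2
    exact a2.symm
  have v1 : K.Vx l2 (sg l1) := by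
    have a1 := vx_phi T.g1
    rw [T.q2] at a1
    exact vz.trans a1.symm
  refine hP (K.ring z ∪ fanQ C') X0 l2 (union_subset (ring_sub hz) (fun q hq => ?_))
    ((fanQ_mono s1).trans subset_union_right) (h.conn_ring hz hC' m1 (ring_of_fc (x := z1) T.cz1))
    (T.noMT h hR hzR nd H0 hC' m1 m3) (fun q hq hq' => ?_) T.f2
    (((inside_ring z).of_fc T.c2).mono subset_union_left) ?_
  · obtain ⟨c, a1, rfl⟩ := mem_fanQ.1 hq
    exact hC'.sub c a1
  · by_cases g : q ∈ fanQ C'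
    · obtain ⟨c, a1, rfl⟩ := mem_fanQ.1 g
      rcases s4 c a1 with b | b
      · exact absurd (fst_mem_fanQ b) hq'
      · exact cov_of_hit b.1 b.2
    obtain ⟨x, a1, rfl⟩ := mem_ring.1 ((mem_union.1 hq).resolve_right g)
    have cov : ∀ y, K.Vx l2 y → K.Cov X0 y.1 := fun y hy =>
      cov_of_hit ⟨l2, s3, hy⟩ (fun w => nd y w (T.c2.trans hy.fc))
    rcases T.mem a1 with y | y | y | y | y | y | y | y | y | y | y <;> rw [y] at g ⊢
    · exact cov z vz
    · exact cov l2 (Vx.refl _)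
    · exact cov l2 (Vx.refl _)
    · exact absurd (fst_mem_fanQ (c := sg z3) m3) g
    · exact absurd (fst_mem_fanQ (c := sg (sg (sg l3))) m5) g
    · exact absurd (fst_mem_fanQ (c := sg (sg (sg l3))) m5) g
    · exact absurd (fst_mem_fanQ (c := sg (sg l4)) m4) g
    · exact absurd (fst_mem_fanQ (c := sg (sg l4)) m4) g
    · exact absurd (fst_mem_fanQ (c := sg (sg (sg z1))) m1) g
    · exact cov (sg l1) v1
    · exact cov (sg l1) v1
  · refine h.weight _ _ _ (fun x hx => ?_) (fun x hx x' hx' hne c c' a1 a2 a3 => ?_)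
      (fun x hx c a1 => ?_) (fun x hx c a1 a2 => ?_)
    · rcases s5 x hx with rfl | ⟨rfl, _, b1, b2, _⟩
      · exact ⟨not_port_of_inside (hz.of_fc T.c2), h.not_single (hz.of_fc T.c2),
          fun y b1 b2 => nd y b2 (T.c2.trans b1.fc)⟩
      · exact ⟨b1, fun w => gv w.1, b2⟩
    · rcases s5 x hx with rfl | ⟨rfl, _⟩ <;> rcases s5 x' hx' with rfl | ⟨rfl, _⟩
      · exact absurd rfl hne
      · exact T.sep h hR hzR nd H0 a1 (fv.trans a2.fc) ((hK.col_vx a2).symm.trans cv) a3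
      · rw [← a3]
        exact T.sep h hR hzR nd H0 a2 (fv.trans a1.fc) ((hK.col_vx a1).symm.trans cv) a3.symm
      · exact absurd rfl hne
    · rcases s5 x hx with rfl | ⟨rfl, _, _, _, b⟩
      · exact mem_union_left _ (ring_of_fc (T.c2.trans a1.fc))
      · exact mem_union_right _ (fst_mem_fanQ (b c a1))
    · obtain ⟨y, y1, y2⟩ := mem_fanQ.1 a2
      have fy := fu.trans (hC.fc hu y1)
      have cy := (hcol y y1).trans cu
      rcases s5 x hx with rfl | ⟨rfl, b0, b1, _, _⟩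
      · exact T.sep h hR hzR nd H0 a1 fy cy y2
      · have cc := hK.col_vx a1
        have k5 := col_sg c
        have k6 := col_sg3 c
        have cK : c.1 ∈ K1 := y2 ▸ hC.sub y y1
        by_contra h4
        rcases same_quad y2 with w | w | w | w
        · refine b0 (hC.closed y y1 _ ?_)
          rw [w]
          exact (res_vx_of_vx ∅ (fun t ht => by_contra (fun g => b1 ⟨t, ht, g⟩)) a1).symm
        · rw [w] at cy; omega
        · obtain ⟨p, hp, g | g⟩ := h.diag cK ((fv.trans a1.fc).symm.trans (w ▸ fy)) h4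
          · exact b1 (port_vx (g ▸ (h.dport p hp (by rw [g] at cK; exact cK)).1) a1.symm)
          · exact b1 (port_vx (g ▸ (h.dport p hp (by rw [g] at cK; exact cK)).2) a1.symm)
        · rw [w] at cy; omega

end Four

end Pool.Agent.Lib.MP_8d6beb_co
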