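import Pool.Agent.Lib.MP_8d6beb_co.QStepB6

/-! Step B: the four-vertex curve next to the ports; the walk along the curve. -/

namespace Pool.Agent.Lib.MP_8d6beb_co

open Finset Cx

set_option linter.unusedSectionVars false

variable {ι : Type} [Fintype ι] [DecidableEq ι] {K : Cx ι} {K1 : Finset ι} {e f : Dart ι}

theorem res_free {x : Dart ι} (h : K.a x = x) : (K.res K1 ∅).a x = x := by
  by_contra g
  exact (res_glued.1 g).2.2 h

theorem Cx.EE.res_e {e' f' : Dart ι} (hE : K.EE K1 e' f') : (K.res K1 ∅).a e' = e' :=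
  res_a_out _ (fun g => hE.ae_not_mem g.2)

theorem Cx.EE.fc_sf {e' f' : Dart ι} (hE : K.EE K1 e' f') : K.Fc e' (sg f') :=
  hE.fc_e_af.trans (fc_a_sg f')

namespace Four

variable {z z3 z1 l2 l3 l4 l1 : Dart ι} (T : Four K z z3 z1 l2 l3 l4 l1)
include T

theorem not_last (hz : K.Inside K1 z) {e' f' : Dart ι} (hE : K.EE K1 e' f') :
    ¬ K.V1 K1 (sg (sg (sg z1))) e' := fun g => by
  have := last_unique (res_free T.s4) hE.res_e ((T.v1 hz).symm.trans g)
  exact hE.e_glued (this ▸ T.s4)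

theorem not_first (hz : K.Inside K1 z) {e' f' : Dart ι} (hE : K.EE K1 e' f') :
    ¬ K.V1 K1 (sg z3) (sg e') := fun g => by
  have := first_unique (K := K.res K1 ∅) (by rw [sg4]; exact res_free T.s3)
    (by rw [sg4]; exact hE.res_e) ((T.v3 hz).trans g)
  exact hE.e_glued (sg_inj this ▸ T.s3)

/-- the free sides of the piece on the far curve, when that curve runs from port to port -/
theorem far (hz : K.Inside K1 z) {e' f' : Dart ι} (hE : K.EE K1 e' f')
    (a1 : K.V1 K1 (sg (sg (sg z1))) (sg f')) (a3 : K.V1 K1 (sg z3) e') {r : Dart ι}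
    (r1 : K.a r = r) (r2 : r.1 ∈ K1) (r3 : K.Fc (sg (sg (sg z1))) r) : r.1 ∈ K.ring z := by
  have fe : K.Fc (sg (sg (sg z1))) e' := T.tt.trans (vx_of_res a3).fc
  have key := Fc.ind (P := fun x => K.Fc (sg (sg (sg z1))) x ∧ (x.1 ∈ K1 →
      K.V1 K1 (sg (sg (sg z1))) x ∨ x = sg (sg (sg l4)) ∨ x = sg (sg l3) ∨ K.V1 K1 (sg z3) x))
    (fun x hx => ⟨hx.1.trans (fc_phi x), fun m => ?_⟩) r3 ⟨Fc.refl _, fun _ => Or.inl (Vx.refl _)⟩
  · rcases key.2 r2 with g | g | g | g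
    · rw [last_unique (res_free r1) (res_free T.s4) (g.symm.trans (T.v1 hz))]
      exact ring_of_fc (x := l4) T.c4
    · exact absurd (g ▸ r1) T.gl4
    · rw [g]; exact ring_of_fc (x := l3) T.c3
    · exact absurd (last_unique (res_free r1) hE.res_e (g.symm.trans a3) ▸ r1) hE.e_glued
  · by_cases xK : x.1 ∈ K1
    · rcases hx.2 xK with g | g | g | g
      · by_cases b : K.a x = x
        · rw [last_unique (res_free b) (res_free T.s4) (g.symm.trans (T.v1 hz)), phi_free T.s4]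
          exact Or.inr (Or.inl rfl)
        · exact Or.inl (g.trans (res_vx_step ∅ xK m b))
      · rw [g, T.e2]; exact Or.inr (Or.inr (Or.inl rfl))
      · rw [g, phi_free T.s3]; exact Or.inr (Or.inr (Or.inr (T.v3 hz).symm))
      · by_cases b : K.a x = x
        · exact absurd (last_unique (res_free b) hE.res_e (g.symm.trans a3) ▸ b) hE.e_glued
        · exact Or.inr (Or.inr (Or.inr (g.trans (res_vx_step ∅ xK m b))))
    · rcases hE.eq_of_cut (d := K.a x) m (by rw [K.inv]; exact xK) with g | g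
      · refine absurd (fe.symm.trans hx.1) ?_
        rw [← K.inv x, g]
        exact hE.nb
      · rw [phi_apply, g]; exact Or.inl a1

variable (h : Reg K K1 e f) {R : Finset ι} (hR : MinR K K1 R) (hzR : K.Inside R z)
  (nd : ∀ p ∈ K.dis, ¬ K.Fc z p) (H0 : ∀ x, K.Fc z x → K.deg x.1 = 4 ∨ K.deg x.1 = 2)
  (zu : ∀ x ∈ K.intr z, col x = col z → x = z)
include h hR hzR nd H0 zu

theorem alt {e' f' : Dart ι} (hE : K.EE K1 e' f')
    (hp : ∀ c : Dart ι, c.1 ∈ K1 → K.Port K1 c →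
      K.V1 K1 c e' ∨ K.V1 K1 c (sg f') ∨ K.V1 K1 c f' ∨ K.V1 K1 c (sg e'))
    (a1 : K.V1 K1 (sg (sg (sg z1))) (sg f')) (a3 : K.V1 K1 (sg z3) e') : False := by
  have hK := h.valid
  have hz : K.Inside K1 z := hzR.mono hR.sub
  have zK := hz z (Fc.refl z)
  have cs := T.cols hK
  have g2 : K.a (sg (sg z)) ≠ sg (sg z) := glued_of_deg4 T.d2
  have nu : ¬ K.Fc (sg (sg (sg z1))) (sg (sg z)) := fun g =>
    T.triA h hR hzR g2 g (fc_a_sg _) (h.nb (sg (sg z)) zK g2)
  have np : ¬ K.Port K1 (sg (sg z)) := by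
    intro g
    have k0 := col_sg2 z
    have k1 := col_sg3 z1
    have k2 := col_sg z3
    have k3 := hK.col_vx (vx_of_res a1)
    have k4 := hK.col_vx (vx_of_res a3)
    have k5 := col_sg e'
    have k6 := col_sg f'
    rcases hp (sg (sg z)) zK g with y | y | y | y
    · exact nu (T.tt.trans (vx_of_res (a3.trans y.symm)).fc)
    · exact nu (vx_of_res (a1.trans y.symm)).fc
    · have := hK.col_vx (vx_of_res y); omega
    · have := hK.col_vx (vx_of_res y); omega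
  refine h.caseT2 hz T.d2 zu nd H0 (fun r r1 r2 r3 => ?_)
  rcases T.off h hR hzR nd H0 r1 r2 r3 with y | y | y | y <;> subst y
  · left
    have := fc_a_sg (K := K) z
    rw [phi_eq T.p2] at this
    exact (fc_free T.s2).trans this
  · exact Or.inr (Or.inr ⟨fun g => nu (T.t3.trans g), np,
      fun r' b1 b2 b3 => T.far hz hE a1 a3 b1 b2 (T.t3.trans b3)⟩)
  · exact Or.inr (Or.inr ⟨fun g => nu (T.t4.trans g), np,
      fun r' b1 b2 b3 => T.far hz hE a1 a3 b1 b2 (T.t4.trans b3)⟩)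
  · exact Or.inr (Or.inl T.ta.symm)

theorem false : False := by
  have hK := h.valid
  have hz : K.Inside K1 z := hzR.mono hR.sub
  have m1 : (sg (sg (sg z1))).1 ∈ K1 := hz z1 T.cz1
  have m3 : (sg z3).1 ∈ K1 := hz z3 T.cz3
  have cs := T.cols hK
  have k1 := col_sg3 z1
  have k3 := col_sg z3
  obtain ⟨C1, del1, hC1, u1, co1, n1, P1⟩ := h.pick _ m1 (fun g => T.gt1 g.1)
  obtain ⟨C3, del3, hC3, u3, co3, n3, P3⟩ := h.pick _ m3 (fun g => T.gt3 g.1)
  by_cases N3 : ¬ K.Port K1 (sg z3) ∧ ∀ y, K.Vx (sg z3) y → y ∉ K.dis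
  · exact T.main h hR hzR nd H0 (Or.inl ⟨rfl, rfl⟩) hC1 u1 co1 P1 (Or.inr N3)
  by_cases N1 : ¬ K.Port K1 (sg (sg (sg z1))) ∧ ∀ y, K.Vx (sg (sg (sg z1))) y → y ∉ K.dis
  · exact T.main h hR hzR nd H0 (Or.inr ⟨rfl, rfl⟩) hC3 u3 co3 P3 (Or.inr N1)
  have key : ∀ t t' : Dart ι, K.Fc t t' → t'.1 ∈ K1 → ¬ K.Port K1 t →
      ¬ (¬ K.Port K1 t ∧ ∀ y, K.Vx t y → y ∉ K.dis) →
      (∃ p ∈ K.dis, p.1 ∈ K1 ∧ K.Vx t p) ∧ ¬ K.Port K1 t' := by
    intro t t' b1 b2 b3 b4
    obtain ⟨p, c1, c2⟩ : ∃ p, K.Vx t p ∧ p ∈ K.dis := by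
      by_contra g
      exact b4 ⟨b3, fun y d1 d2 => g ⟨y, d1, d2⟩⟩
    have c3 : p.1 ∈ K1 := by_contra (fun g => b3 ⟨p, c1, g⟩)
    exact ⟨⟨p, c2, c3, c1⟩, (h.dz p c2 c3).2.2.2.2.2 t' (c1.fc.symm.trans b1) b2⟩
  by_cases Q1 : K.Port K1 (sg (sg (sg z1)))
  · have Q3 : K.Port K1 (sg z3) := by_contra (fun g => (key _ _ T.tt.symm m1 g N3).2 Q1)
    have hne : K1 ≠ K.Q := fun g => h.su.not_port g m1 Q1
    have hE := h.su.ee hne
    rcases (h.su.port_iff hne m1).1 Q1 with a | a | a | a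
    · exact T.not_last hz hE a
    · rcases (h.su.port_iff hne m3).1 Q3 with b | b | b | b
      · exact T.alt h hR hzR nd H0 zu hE (fun c c1 c2 => (h.su.port_iff hne c1).1 c2) a b
      · exact T.not_first hz hE.swap b
      · exact hE.not_fc (hE.fc_sf.trans ((vx_of_res a).fc.symm.trans (T.tt.trans (vx_of_res b).fc)))
      · exact T.not_first hz hE b
    · exact T.not_last hz hE.swap a
    · rcases (h.su.port_iff hne m3).1 Q3 with b | b | b | b
      · exact hE.swap.not_fc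
          (hE.swap.fc_sf.trans ((vx_of_res a).fc.symm.trans (T.tt.trans (vx_of_res b).fc)))
      · exact T.not_first hz hE.swap b
      · exact T.alt h hR hzR nd H0 zu hE.swap
          (fun c c1 c2 => (h.su.swap.port_iff hne c1).1 c2) a b
      · exact T.not_first hz hE b
  · obtain ⟨⟨p, p1, p2, p3⟩, Q3⟩ := key _ _ T.tt m3 Q1 N1
    obtain ⟨⟨p', p1', p2', p3'⟩, _⟩ := key _ _ T.tt.symm m1 Q3 N3
    have e1 := hK.col_vx p3
    have e2 := hK.col_vx p3'
    obtain rfl := h.duniq p p1 p' p1' p2 p2' (by omega)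
    refine T.main h hR hzR nd H0 (Or.inl ⟨rfl, rfl⟩) hC1 u1 co1 P1 (Or.inl ?_)
    rw [(n1 Q1).2]
    exact mem_cl.2 (p3.trans p3'.symm)

end Four

theorem intr_ne_first {z x l : Dart ι} (hx : x ∈ K.intr z) (hl : K.a l = l) : x ≠ sg l := by
  rintro rfl
  exact (mem_intr.1 hx).2.2 (by rw [sg4]; exact hl)

theorem intr_next {z x : Dart ι} (h1 : K.Fc z x) (h2 : K.a x ≠ x) :
    K.a (K.phi x) = K.phi x ∨ K.phi x ∈ K.intr z := by
  by_cases g : K.a (K.phi x) = K.phi x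
  · exact Or.inl g
  · exact Or.inr (mem_intr.2 ⟨h1.trans (fc_phi x), g, by rw [phi_apply, sg4]; exact a_glued h2⟩)

/-- the minority corner lies in a quad of degree four -/
theorem Reg.caseZ (h : Reg K K1 e f) {R : Finset ι} (hR : MinR K K1 R) {z : Dart ι}
    (hzR : K.Inside R z) (zi : z ∈ K.intr z) (zu : ∀ x ∈ K.intr z, col x = col z → x = z)
    (nd : ∀ p ∈ K.dis, ¬ K.Fc z p) (z4 : K.deg z.1 = 4) (h3 : (K.intr z).card ≤ 3) : False := by
  have hK := h.valid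
  have hz : K.Inside K1 z := hzR.mono hR.sub
  have H0 := fun x => h.ring_deg (x := x) hz zi zu nd z4
  have fd := fun x => h.free_deg (x := x) hz zi zu nd z4
  have i4 : ∀ x ∈ K.intr z, K.deg x.1 = 4 := fun x hx => by
    have a1 := h.deg_intr hz nd hx
    have a2 := H0 x (mem_intr.1 hx).1
    omega
  have gs : ∀ l, K.Fc z l → K.a l = l → K.a (sg l) ≠ sg l := fun l a b =>
    h.glued_sg (hz l a) (h.noD hz nd a) b
  have ss : ∀ l, K.Fc z l → K.a l = l → K.a (sg (sg l)) = sg (sg l) := fun l a b =>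
    h.shapeS' (hz l a) (h.noD hz nd a) (fd l a b) b
  have cstep : ∀ l, K.Fc z l → K.a l = l → K.Fc z (K.phi (sg l)) ∧
      col (K.phi (sg l)) + col l = 1 := fun l a b => by
    have a1 := hK.col_vx (vx_phi (gs l a b))
    have a2 := col_sg l
    exact ⟨(a.trans (fc_free b)).trans (fc_phi _), by omega⟩
  have four : ∀ a ∈ K.intr z, ∀ b ∈ K.intr z, ∀ c ∈ K.intr z, col a ≠ col z → col b ≠ col z →
      col c ≠ col z → a ≠ b → a ≠ c → b ≠ c → False := by
    intro a ha b hb c hc a1 a2 a3 a4 a5 a6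
    have s : ({z, a, b, c} : Finset (Dart ι)) ⊆ K.intr z := by
      intro x hx
      simp only [mem_insert, mem_singleton] at hx
      rcases hx with rfl | rfl | rfl | rfl <;> assumption
    have n1 : z ≠ a := fun g => a1 (by rw [g])
    have n2 : z ≠ b := fun g => a2 (by rw [g])
    have n3 : z ≠ c := fun g => a3 (by rw [g])
    have := card_le_card s
    rw [card_insert_of_notMem (by simp [n1, n2, n3]), card_insert_of_notMem (by simp [a4, a5]),
      card_pair a6] at this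
    omega
  have fs : ∀ x ∈ K.intr z, K.a (K.phi x) = K.phi x → K.phi (sg (K.phi x)) ∈ K.intr z ∨
      (K.a (K.phi (sg (K.phi x))) = K.phi (sg (K.phi x)) ∧
        K.phi (sg (K.phi (sg (K.phi x)))) ∈ K.intr z) := by
    intro x hx a
    have f1 := (mem_intr.1 hx).1.trans (fc_phi x)
    rcases h.fstep hz nd f1 a (fd _ f1 a) (by rw [phi_eq' rfl, i4 x hx]; norm_num) with b | b
    · exact Or.inl b
    · exact Or.inr ⟨b.1, b.2.2⟩
  have cphi : ∀ x ∈ K.intr z, col (K.phi x) = col x := fun x hx =>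
    (hK.col_vx (vx_phi (mem_intr.1 hx).2.1)).symm
  have nphi : ∀ x ∈ K.intr z, x ≠ K.phi x := fun x hx g =>
    hK.a_fst_ne (mem_intr.1 hx).2.1 (congrArg (fun y => y.1) g.symm :)
  have inj : ∀ x y, K.phi x = K.phi y → x = y := fun x y g => K.phi.injective g
  obtain ⟨m1, _⟩ := h.minor zi zu
  have cz := col_lt z
  obtain ⟨l2, p2⟩ : ∃ l, K.phi z = l := ⟨_, rfl⟩
  have dig := fun l => h.digon (l := l) hz zi zu nd z4
  have F2 : K.Fc z l2 := p2 ▸ fc_phi z
  have k2 := cphi z zi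
  have A := fs z zi m1
  rw [p2] at m1 dig k2 A
  obtain ⟨z3, q3⟩ : ∃ l, K.phi (sg l2) = l := ⟨_, rfl⟩
  obtain ⟨F3, k3⟩ := cstep l2 F2 m1
  have v3 := vx_phi (gs l2 F2 m1)
  rw [q3] at A F3 k3 v3
  rcases A with i3 | ⟨a1, a2⟩
  swap
  · obtain ⟨_, k⟩ := cstep z3 F3 a1
    exact dig z3 a1 (zu _ a2 (by omega)) v3
  -- nothing free leads back to `z3` except `l2`
  have back : ∀ l, K.a l = l → K.phi (sg (K.phi (sg l))) ≠ z3 := by
    intro l a g
    rw [← q3] at g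
    have := sg_inj (inj _ _ g)
    rw [← p2] at this
    exact intr_ne_first zi a (inj _ _ this).symm
  have back' : ∀ x ∈ K.intr z, K.phi x ≠ z3 := by
    intro x hx g
    rw [← q3] at g
    exact intr_ne_first hx m1 (inj _ _ g)
  have g3 := (mem_intr.1 i3).2.1
  have k4 := cphi z3 i3
  obtain ⟨l3, p3⟩ : ∃ l, K.phi z3 = l := ⟨_, rfl⟩
  have v4 := vx_phi g3
  have B := intr_next F3 g3
  have n3 := nphi z3 i3
  have C := fs z3 i3
  rw [p3] at k4 v4 B n3 C
  have F4 : K.Fc z l3 := F3.trans v4.fc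
  rcases B with a3 | i4'
  swap
  · have g4 := (mem_intr.1 i4').2.1
    have k5 := cphi l3 i4'
    rcases intr_next F4 g4 with b | b
    · have F5 := F4.trans (fc_phi l3)
      obtain ⟨F6, k6⟩ := cstep _ F5 b
      rcases fs l3 i4' b with c | ⟨c1, c2⟩
      · exact dig _ b (zu _ c (by omega)) ((v3.trans v4).trans (vx_phi g4))
      · obtain ⟨_, k7⟩ := cstep _ F6 c1
        refine four z3 i3 l3 i4' _ c2 (by omega) (by omega) (by omega) n3 (back _ b).symm ?_
        intro g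
        rw [← p3] at g
        exact intr_ne_first i3 c1 (by rw [← p3]; exact inj _ _ g)
    · exact four z3 i3 l3 i4' _ b (by omega) (by omega) (by omega) n3 (back' l3 i4').symm
        (nphi l3 i4')
  obtain ⟨l4, q4⟩ : ∃ l, K.phi (sg l3) = l := ⟨_, rfl⟩
  obtain ⟨F5, k5⟩ := cstep l3 F4 a3
  have n4 := back l3 a3
  have C := C a3
  rw [q4] at C F5 k5 n4
  rcases C with c | ⟨a4, i1⟩
  · exact dig l3 a3 (q4.trans (zu _ c (by omega))) (v3.trans v4)
  obtain ⟨z1, q1⟩ : ∃ l, K.phi (sg l4) = l := ⟨_, rfl⟩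
  obtain ⟨F6, k6⟩ := cstep l4 F5 a4
  rw [q1] at i1 F6 k6 n4
  have g1 := (mem_intr.1 i1).2.1
  have k7 := cphi z1 i1
  rcases intr_next F6 g1 with a1 | b
  swap
  · exact four z3 i3 z1 i1 _ b (by omega) (by omega) (by omega) n4.symm (back' z1 i1).symm
      (nphi z1 i1)
  have F7 := F6.trans (fc_phi z1)
  obtain ⟨F8, k8⟩ := cstep _ F7 a1
  rcases fs z1 i1 a1 with c | ⟨c1, c2⟩
  · have T : Four K z z3 z1 l2 l3 l4 (K.phi z1) :=
      ⟨p2, m1, q3, p3, a3, q4, a4, q1, rfl, a1, zu _ c (by omega), z4, i4 z3 i3, i4 z1 i1,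
        ss _ F2 m1, ss _ F4 a3, ss _ F5 a4, ss _ F7 a1, gs _ F2 m1, gs _ F4 a3, gs _ F5 a4,
        gs _ F7 a1⟩
    exact T.false h hR hzR nd H0 zu
  · obtain ⟨_, k9⟩ := cstep _ F8 c1
    refine four z3 i3 z1 i1 _ c2 (by omega) (by omega) (by omega) n4.symm (back _ a1).symm ?_
    intro g
    have e1 := sg_inj (inj _ _ (q1.trans g))
    have e2 := sg_inj (inj _ _ (q4.trans e1))
    exact n4 (inj _ _ (p3.trans e2)).symm

end Pool.Agent.Lib.MP_8d6beb_co
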