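import Pool.Agent.Lib.MP_8d6beb_co.QDel

/-! Test instances: what the induction hypothesis says about a piece. -/

namespace Pool.Agent.Lib.MP_8d6beb_co

open Finset

set_option linter.unusedSectionVars false

variable {ι : Type} [Fintype ι] [DecidableEq ι]

namespace Cx

variable {K : Cx ι}

theorem Pb.mono {U : Finset ι} {B B' : ℤ} {S S' : Finset (Dart ι)} (h : K.Pb U B S) (hB : B ≤ B')
    (hS : ∀ c ∈ S', ∃ c' ∈ S, K.Vx c' c) : K.Pb U B' S' := by
  obtain ⟨X, h1, h2, h3⟩ := h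
  refine ⟨X, h1.trans hB, h2, fun c hc => ?_⟩
  obtain ⟨c', hc', g⟩ := hS c hc
  exact (h3 c' hc').of_vx g

/-- the bound may be rounded down to a multiple of eight -/
theorem Pb.round {U : Finset ι} {B k : ℤ} {S : Finset (Dart ι)} (h : K.Pb U B S)
    (hB : B < 8 * k + 8) : K.Pb U (8 * k) S := by
  obtain ⟨X, h1, h2, h3⟩ := h
  exact ⟨X, by omega, h2, h3⟩

theorem Pb.insert {U : Finset ι} {B : ℤ} {S : Finset (Dart ι)} (h : K.Pb U B S) (c : Dart ι) :
    K.Pb U (B + 8) (insert c S) := by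
  obtain ⟨X, h1, h2, h3⟩ := h
  refine ⟨Insert.insert c X, ?_, fun q hq => (h2 q hq).mono (subset_insert _ _), fun x hx => ?_⟩
  · have := card_insert_le c X
    omega
  · rcases mem_insert.1 hx with g | g
    · exact hit_of_mem (by rw [g]; exact mem_insert_self _ _)
    · exact (h3 x g).mono (subset_insert _ _)

/-- two sides of a cut that pick the same vertices `S` save one pick per vertex -/
theorem good_of_pb {U : Finset ι} {B1 B2 : ℤ} {S1 S2 : Finset (Dart ι)} (h1 : K.Pb U B1 S1)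
    (h2 : K.Pb (K.Q \ U) B2 S2) (S : Finset (Dart ι)) (hS1 : S ⊆ S1) (hS2 : S ⊆ S2)
    (hS : ∀ c ∈ S, ∀ c' ∈ S, K.Vx c c' → c = c') (hm : K.mrk ⊆ S1 ∪ S2)
    (hnum : B1 + B2 ≤ K.W + 2 + 8 * S.card) : K.Good := by
  classical
  obtain ⟨X1, a1, a2, a3⟩ := h1
  obtain ⟨X2, b1, b2, b3⟩ := h2
  have hch : ∀ c : Dart ι, ∃ x, c ∈ S → x ∈ X2 ∧ K.Vx x c := by
    intro c
    by_cases hc : c ∈ S
    · obtain ⟨x, hx, g⟩ := b3 c (hS2 hc)
      exact ⟨x, fun _ => ⟨hx, g⟩⟩
    · exact ⟨c, fun g => absurd g hc⟩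
  choose t ht using hch
  have hsub : S.image t ⊆ X2 := by
    intro x hx
    obtain ⟨c, hc, rfl⟩ := mem_image.1 hx
    exact (ht c hc).1
  have hcard : (S.image t).card = S.card := by
    refine card_image_of_injOn ?_
    intro c hc c' hc' g
    refine hS c hc c' hc' ((ht c hc).2.symm.trans ?_)
    rw [g]; exact (ht c' hc').2
  have hsd : (X2 \ S.image t).card + S.card = X2.card := by
    rw [← hcard]; exact card_sdiff_add_card_eq_card hsub
  have hhit : ∀ x ∈ X2, K.Hit (X1 ∪ (X2 \ S.image t)) x := by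
    intro x hx
    by_cases g : x ∈ S.image t
    · obtain ⟨c, hc, rfl⟩ := mem_image.1 g
      exact ((a3 c (hS1 hc)).of_vx (ht c hc).2.symm).mono subset_union_left
    · exact hit_of_mem (mem_union_right _ (mem_sdiff.2 ⟨hx, g⟩))
  refine ⟨X1 ∪ (X2 \ S.image t), ⟨fun q hq => ?_, fun m hm' => ?_⟩, ?_⟩
  · by_cases g : q ∈ U
    · exact (a2 q g).mono subset_union_left
    · exact (b2 q (mem_sdiff.2 ⟨hq, g⟩)).of_hit hhit
  · rcases mem_union.1 (hm hm') with g | g
    · exact (a3 m g).mono subset_union_left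
    · obtain ⟨x, hx, g'⟩ := b3 m g
      exact (hhit x hx).of_vx g'
  · have := card_union_le X1 (X2 \ S.image t)
    omega

/-- a quad with a disabled corner may be covered by one of the two neighbours of that corner -/
theorem Pb.swap (hK : K.Valid) {U : Finset ι} {B : ℤ} {S : Finset (Dart ι)} (h : K.Pb U B S)
    {p : Dart ι} (hp : p ∈ K.dis) (hU : p.1 ∈ U) (hS : sg (sg p) ∉ S) :
    K.Pb U B (Insert.insert (sg p) S) ∨ K.Pb U B (Insert.insert (sg (sg (sg p))) S) := by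
  obtain ⟨X, h1, h2, h3⟩ := h
  have hsingle : ∀ c, K.Vx (sg (sg p)) c → c = sg (sg p) := fun c g =>
    Vx.single (hK.dis_fr2 p hp) (by rw [sg4]; exact hK.dis_fr1 p hp) g
  have hen : sg p ∉ K.dis := fun g => sg_ne p (hK.dis_uniq _ g _ hp rfl)
  have key : ∀ c, K.Hit X c → K.Pb U B (Insert.insert c S) := by
    intro c hc
    refine ⟨X, h1, h2, fun x hx => ?_⟩
    rcases mem_insert.1 hx with g | g
    · rwa [g]
    · exact h3 x g
  obtain ⟨i, hi, hx⟩ := h2 _ hU
  rcases same_quad (d := p) (d' := (p.1, i)) rfl with g | g | g | g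
  · rw [g] at hi; exact absurd hp hi
  · rw [g] at hx; exact Or.inl (key _ hx)
  · rw [g] at hx
    obtain ⟨x, hx, hv⟩ := hx
    have hxe := hsingle x hv.symm
    rw [hxe] at hx
    left
    refine ⟨Insert.insert (sg p) (X.erase (sg (sg p))), ?_, fun q hq => ?_, fun c hc => ?_⟩
    · have := card_insert_le (sg p) (X.erase (sg (sg p)))
      have := card_erase_add_one hx
      omega
    · obtain ⟨k, hk, y, hy, hv'⟩ := h2 q hq
      by_cases e : y = sg (sg p)
      · rw [e] at hv'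
        have e' := congrArg Prod.fst (hsingle _ hv')
        simp only [sg_fst] at e'
        rw [e']
        exact cov_of_hit (c := sg p) (hit_of_mem (mem_insert_self _ _)) hen
      · exact ⟨k, hk, y, mem_insert_of_mem (mem_erase.2 ⟨e, hy⟩), hv'⟩
    · rcases mem_insert.1 hc with e | e
      · exact hit_of_mem (by rw [e]; exact mem_insert_self _ _)
      · obtain ⟨y, hy, hv'⟩ := h3 c e
        refine ⟨y, mem_insert_of_mem (mem_erase.2 ⟨?_, hy⟩), hv'⟩
        intro e'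
        rw [e'] at hv'
        rw [hsingle c hv'] at e
        exact hS e
  · rw [g] at hx; exact Or.inr (key _ hx)

/-! ### helpers for the test instances -/

theorem test_vx_le {ρ : Dart ι → Dart ι → Prop} (hρ : Equivalence ρ)
    (hstep : ∀ c, K.a c ≠ c → ρ c (sg (K.a c))) {c c' : Dart ι} (h : K.Vx c c') : ρ c c' := by
  induction h with
  | rel x y g => rw [g.2, phi_apply]; exact hstep x g.1
  | refl x => exact hρ.refl x
  | symm x y _ g => exact hρ.symm g
  | trans x y z _ _ g g' => exact hρ.trans g g'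

theorem test_step {K' : Cx ι} {ρ : Dart ι → Dart ι → Prop} {d d' : Dart ι}
    (h0 : ∀ c, K.a c ≠ c → ρ c (sg (K.a c))) (h1 : ρ d (sg d')) (h2 : ρ d' (sg d))
    (a1 : K'.a d = d') (a2 : K'.a d' = d) (a3 : ∀ x, x ≠ d → x ≠ d' → K'.a x = K.a x) :
    ∀ c, K'.a c ≠ c → ρ c (sg (K'.a c)) := by
  intro c hc
  by_cases e : c = d
  · rw [e, a1]; exact h1
  by_cases e' : c = d'
  · rw [e', a2]; exact h2
  rw [a3 c e e'] at hc ⊢
  exact h0 c hc

theorem test_tau (j c0 c1 c2 c3 : Dart ι) : ∃ τ : Dart ι → Dart ι, τ j = c0 ∧ τ (sg j) = c1 ∧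
    τ (sg (sg j)) = c2 ∧ τ (sg (sg (sg j))) = c3 ∧ ∀ x : Dart ι, x.1 ≠ j.1 → τ x = x := by
  classical
  have n1 := sg_ne j
  have n2 := sg2_ne j
  have n3 := sg3_ne j
  have n4 := sg_ne (sg j)
  have n5 := sg2_ne (sg j)
  have n6 := sg_ne (sg (sg j))
  refine ⟨fun x => if x = j then c0 else if x = sg j then c1 else if x = sg (sg j) then c2
    else if x = sg (sg (sg j)) then c3 else x, by simp, by simp [n1], by simp [n2, n4],
    by simp [n3, n5, n6], fun x hx => ?_⟩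
  have m0 : x ≠ j := fun g => hx (by rw [g])
  have m1 : x ≠ sg j := fun g => hx (by rw [g]; rfl)
  have m2 : x ≠ sg (sg j) := fun g => hx (by rw [g]; rfl)
  have m3 : x ≠ sg (sg (sg j)) := fun g => hx (by rw [g]; rfl)
  simp [m0, m1, m2, m3]

theorem test_base {τ : Dart ι → Dart ι} {q : ι} (hq : q ∉ K.Q)
    (hτ : ∀ x : Dart ι, x.1 ≠ q → τ x = x) :
    ∀ c, K.a c ≠ c → K.Vx (τ c) (τ (sg (K.a c))) := by
  intro c hc
  have h1 : c.1 ∈ K.Q := mem_of_glued hc
  have h2 : (sg (K.a c)).1 ∈ K.Q := a_mem h1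
  rw [hτ c (fun g => hq (g ▸ h1)), hτ _ (fun g => hq (g ▸ h2))]
  exact vx_sg_a hc

theorem test_equiv (τ : Dart ι → Dart ι) : Equivalence (fun x y => K.Vx (τ x) (τ y)) :=
  ⟨fun _ => Vx.refl _, fun h => h.symm, fun h h' => h.trans h'⟩

theorem test_equiv2 (τ : Dart ι → Dart ι) (A : Dart ι → Prop)
    (hA : ∀ x y, K.Vx x y → A x → A y) :
    Equivalence (fun x y => K.Vx (τ x) (τ y) ∨ (A (τ x) ∧ A (τ y))) := by
  refine ⟨fun _ => Or.inl (Vx.refl _), fun h => ?_, fun h h' => ?_⟩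
  · rcases h with h | h
    · exact Or.inl h.symm
    · exact Or.inr h.symm
  · rcases h with h | h <;> rcases h' with h' | h'
    · exact Or.inl (h.trans h')
    · exact Or.inr ⟨hA _ _ h.symm h'.1, h'.2⟩
    · exact Or.inr ⟨h.1, hA _ _ h' h.2⟩
    · exact Or.inr ⟨h.1, h'.2⟩

/-- corners of quads outside the complex are vertices on their own -/
theorem test_out {c c' : Dart ι} (hc : c.1 ∉ K.Q) (h : K.Vx c c') : c' = c :=
  Vx.single (K.supp c hc) (K.supp _ hc) h

theorem test_single {c c' : Dart ι} (h1 : K.a c = c) (h2 : K.a (sg c) = sg c)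
    (h : K.Vx (sg c) c') : c' = sg c :=
  Vx.single h2 (by rw [sg4]; exact h1) h

theorem test_exists_col (q : ι) (n : ℕ) (hn : n < 2) : ∃ j : Dart ι, j.1 = q ∧ col j = n := by
  refine ⟨(q, ⟨n, by omega⟩), rfl, ?_⟩
  simp only [col]
  omega

theorem test_leaf (hR : K.Valid) (hc : K.Conn) {j d : Dart ι} (hq : j.1 ∉ K.Q)
    (P : Finset (Dart ι)) (hP1 : ∀ p ∈ P, p.1 = j.1) (hP2 : P.card ≤ 1) (hd : K.a d = d)
    (hdQ : d.1 ∈ K.Q) (hcol : col d ≠ col j) (h3 : ∀ p ∈ K.dis, sg p ≠ d ∧ sg (sg p) ≠ d)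
    (h3' : ∀ p ∈ P, sg p ≠ j ∧ sg (sg p) ≠ j) :
    ∃ K2 : Cx ι, K2.Valid ∧ K2.Conn ∧ K2.Q = Insert.insert j.1 K.Q ∧ K2.dis = K.dis ∪ P ∧
      K2.mrk = K.mrk ∧ K2.W = K.W + 4 + 2 * P.card ∧ K2.a d = j ∧ K2.a j = d ∧
      (∀ x, x ≠ d → x ≠ j → K2.a x = K.a x) ∧ K2.Fc d j ∧ ∀ x y, K.Fc x y → K2.Fc x y := by
  have hj : (K.addQ j.1 P).a j = j := K.supp j hq
  have hd1 : (K.addQ j.1 P).a d = d := hd
  have hdQ1 : d.1 ∈ (K.addQ j.1 P).Q := mem_insert_of_mem hdQ
  have hjQ1 : j.1 ∈ (K.addQ j.1 P).Q := mem_insert_self _ _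
  have hne : d.1 ≠ j.1 := fun g => hq (g ▸ hdQ)
  have hv := hR.addQ hq hP1 hP2
  have hw := hR.addQ_W hq hP1
  have hnf : ¬ (K.addQ j.1 P).Fc d j := fun g => hq (Fc.mem (K := K) g hdQ)
  have hfc := fc_glue_of_not_fc hd1 hj hdQ1 hjQ1 hnf
  refine ⟨(K.addQ j.1 P).glue d j hd1 hj hdQ1 hjQ1, ?_, ?_, rfl, rfl, rfl, ?_,
    glue_a_left _ _ _ _, glue_a_right _ _ _ _, fun x h1 h2 => glue_a_other _ _ _ _ h1 h2,
    hfc.1, fun x y g => hfc.2 x y g⟩
  · refine Valid.glue_leaf _ _ _ _ hv hcol hne (fun x hx => K.supp x (by rwa [hx])) ?_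
    intro p hp
    rcases mem_union.1 hp with g | g
    · have hpQ := hR.dis_mem p g
      exact ⟨(h3 p g).1, fun e => hq (e ▸ hpQ), (h3 p g).2, fun e => hq (e ▸ hpQ)⟩
    · have e0 := hP1 p g
      exact ⟨fun e => hne (by rw [← e, sg_fst, e0]), (h3' p g).1,
        fun e => hne (by rw [← e, sg_fst, sg_fst, e0]), (h3' p g).2⟩
  · refine conn_glue_leaf _ _ _ _ ?_ hne
    rw [addQ_Q, erase_insert hq]
    exact hc
  · have := glue_W hd1 hj hdQ1 hjQ1 (fun g => hne (by rw [g]))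
    omega

theorem test_same (hR : K.Valid) (hc : K.Conn) {d d' : Dart ι} (hd : K.a d = d)
    (hd' : K.a d' = d') (hdQ : d.1 ∈ K.Q) (hdQ' : d'.1 ∈ K.Q) (hcol : col d ≠ col d')
    (hf : K.Fc d d') (h1 : ¬ K.Vx (sg d') d) (h2 : ¬ K.Vx (sg d) d')
    (h3 : ∀ p ∈ K.dis, sg p ≠ d ∧ sg p ≠ d' ∧ sg (sg p) ≠ d ∧ sg (sg p) ≠ d')
    {ρ : Dart ι → Dart ι → Prop} (hρ : Equivalence ρ)
    (h0 : ∀ c, K.a c ≠ c → ρ c (sg (K.a c))) (r1 : ρ d (sg d')) (r2 : ρ d' (sg d))
    (h4 : ∀ p ∈ K.dis, ¬ ρ (sg p) (sg (sg (sg p)))) :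
    ∃ K3 : Cx ι, K3.Valid ∧ K3.Conn ∧ K3.Q = K.Q ∧ K3.dis = K.dis ∧ K3.mrk = K.mrk ∧
      K3.W + 2 = K.W ∧ ∀ c c', K3.Vx c c' → ρ c c' := by
  have key : ∀ c c', (K.glue d d' hd hd' hdQ hdQ').Vx c c' → ρ c c' := fun c c' g =>
    test_vx_le hρ (test_step h0 r1 r2 (glue_a_left _ _ _ _) (glue_a_right _ _ _ _)
      (fun x e e' => glue_a_other _ _ _ _ e e')) g
  exact ⟨K.glue d d' hd hd' hdQ hdQ',
    Valid.glue_same _ _ _ _ hR hcol hf h1 h2 h3 (fun p hp g => h4 p hp (key _ _ g)),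
    conn_glue _ _ _ _ hc, rfl, rfl, rfl, glue_W _ _ _ _ (fun g => hcol (by rw [g])), key⟩

/-- read a cover of a test instance in the ambient complex -/
theorem test_cov {K' : Cx ι} {U : Finset ι} {X Y : Finset (Dart ι)} (hs : K'.Sol X)
    (hQ : U ⊆ K'.Q) (hdis : K.ds U ⊆ K'.dis)
    (htr : ∀ c : Dart ι, c.1 ∈ U → K'.Hit X c → K.Hit Y c) : ∀ q ∈ U, K.Cov Y q := by
  intro q hq
  obtain ⟨i, h1, h2⟩ := hs.1 q (hQ hq)
  exact ⟨i, fun g => h1 (hdis (mem_ds.2 ⟨g, hq⟩)), htr _ hq h2⟩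

theorem test_cut_free {U : Finset ι} (M : Finset (Dart ι)) {d : Dart ι} (hd : d ∈ K.cut U) :
    (K.res U M).a d = d :=
  res_a_out M (fun g => (mem_cut.1 hd).2 g.2)

theorem test_dis_ne (hK : K.Valid) {U : Finset ι} {d : Dart ι} (hd : K.a d ≠ d) :
    ∀ p ∈ K.ds U, sg p ≠ d ∧ sg (sg p) ≠ d := by
  intro p hp
  have hp' := (mem_ds.1 hp).1
  exact ⟨fun g => hd (by rw [← g]; exact hK.dis_fr1 p hp'),
    fun g => hd (by rw [← g]; exact hK.dis_fr2 p hp')⟩

theorem test_new {U : Finset ι} (hlt : U.card < K.Q.card) : ∃ q, q ∉ U := by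
  obtain ⟨q, _, h⟩ := exists_mem_notMem_of_card_lt_card hlt
  exact ⟨q, h⟩

section tests

variable (hK : K.Valid) (ih : IH ι K.Q.card) {U : Finset ι}
include hK ih

theorem t_mark (hU : U ⊆ K.Q) (hc : K.ConnOn U) (hlt : U.card < K.Q.card) (S : Finset (Dart ι))
    (hS : ∀ c ∈ S, c.1 ∈ U) : K.Pb U (K.Wp U + 6 * S.card + 2) S := by
  obtain ⟨X, hs, hn⟩ := ih (K.res U S) (hK.res hU hS) ((res_conn S).2 hc) hlt
  rw [res_W] at hn
  exact ⟨X, by omega, (sol_res hs).1, (sol_res hs).2⟩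

theorem t_mark2 (hU : U ⊆ K.Q) (hc : K.ConnOn U) (hlt : U.card < K.Q.card) {c c' : Dart ι}
    (h1 : c.1 ∈ U) (h2 : c'.1 ∈ U) (h3 : ¬ (K.res U ∅).Vx c c') (h4 : K.Vx c c') :
    ∃ k : ℤ, 8 * k + 8 ≤ K.Wp U + 14 ∧ K.Pb U (8 * k) {c} := by
  have hne : c ≠ c' := fun g => h3 (g ▸ Vx.refl c)
  have hS : ∀ m ∈ ({c, c'} : Finset (Dart ι)), m.1 ∈ U := by
    intro m hm
    rcases mem_insert.1 hm with g | g
    · rwa [g]
    · rwa [mem_singleton.1 g]
  obtain ⟨X, hs, hn⟩ := ih (K.res U {c, c'}) (hK.res hU hS) ((res_conn _).2 hc) hlt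
  rw [res_W, card_pair hne] at hn
  obtain ⟨x, hx, hv⟩ := hs.2 c (mem_insert_self _ _)
  obtain ⟨x', hx', hv'⟩ := hs.2 c' (mem_insert_of_mem (mem_singleton_self _))
  have hxx : x ≠ x' := fun g => h3 (hv.symm.trans (g ▸ hv'))
  have hmem : x ∈ X.erase x' := mem_erase.2 ⟨hxx, hx⟩
  have hcard := card_erase_add_one hx'
  refine ⟨(X.erase x').card, by omega, X.erase x', le_rfl, fun q hq => ?_, fun m hm => ?_⟩
  · refine ((sol_res hs).1 q hq).of_hit (fun y hy => ?_)
    by_cases g : y = x'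
    · rw [g]
      exact ⟨x, hmem, ((vx_of_res hv).trans h4).trans (vx_of_res hv').symm⟩
    · exact hit_of_mem (mem_erase.2 ⟨g, hy⟩)
  · rw [mem_singleton.1 hm]
    exact ⟨x, hmem, vx_of_res hv⟩

/-- attach a pendant quad at the cut dart `d` -/
theorem t_pend (hU : U ⊆ K.Q) (hc : K.ConnOn U) (hlt : U.card + 2 ≤ K.Q.card) {d : Dart ι}
    (hd : d ∈ K.cut U) (S : Finset (Dart ι)) (hS : ∀ c ∈ S, c.1 ∈ U) :
    K.Pb U (K.Wp U + 6 * S.card - 2) S ∨ K.Pb U (K.Wp U + 6 * S.card + 6) (insert d S) ∨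
      K.Pb U (K.Wp U + 6 * S.card + 6) (insert (sg d) S) := by
  classical
  obtain ⟨q0, hq0⟩ := test_new (K := K) (U := U) (by omega)
  have hcl := col_lt d
  obtain ⟨j, rfl, hj⟩ := test_exists_col q0 (1 - col d) (by omega)
  have hdU : d.1 ∈ U := (mem_cut.1 hd).1
  have hR := hK.res hU hS
  obtain ⟨K2, v2, c2, q2, d2, m2, w2, a1, a2, a3, -, -⟩ := test_leaf hR ((res_conn S).2 hc)
    (j := j) (d := d) hq0 ∅ (by simp) (by simp) (test_cut_free S hd) hdU (by omega)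
    (test_dis_ne hK (glued_of_cut hd)) (by simp)
  obtain ⟨X, hs, hn⟩ := ih K2 v2 c2 (by
    rw [q2, res_Q, card_insert_of_notMem hq0]; omega)
  rw [w2, res_W, card_empty] at hn
  obtain ⟨τ, t0, t1, t2, t3, t4⟩ := test_tau j (sg d) d (sg (sg j)) (sg (sg (sg j)))
  have tU : ∀ c : Dart ι, c.1 ∈ U → τ c = c := fun c g => t4 c (fun e => hq0 (e ▸ g))
  have r1 : (K.res U S).Vx (τ d) (τ (sg j)) := by rw [t1, tU d hdU]; exact Vx.refl _
  have r2 : (K.res U S).Vx (τ j) (τ (sg d)) := by rw [t0, tU (sg d) hdU]; exact Vx.refl _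
  have key : ∀ x c, K2.Vx x c → (K.res U S).Vx (τ x) (τ c) := fun x c g =>
    test_vx_le (test_equiv τ) (test_step (ρ := fun x y => (K.res U S).Vx (τ x) (τ y))
      (test_base (K := K.res U S) hq0 t4) r1 r2 a1 a2 a3) g
  have hit : ∀ c, K2.Hit X c → (K.res U S).Hit (X.image τ) (τ c) := by
    rintro c ⟨x, hx, g⟩
    exact ⟨τ x, mem_image_of_mem _ hx, key x c g⟩
  have up : ∀ (Y : Finset (Dart ι)) c, (K.res U S).Hit Y c → K.Hit Y c := by
    rintro Y c ⟨x, hx, g⟩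
    exact ⟨x, hx, vx_of_res g⟩
  have hcard : (X.image τ).card ≤ X.card := card_image_le
  have hQ : U ⊆ K2.Q := by rw [q2]; exact subset_insert _ _
  have hdis : K.ds U ⊆ K2.dis := by rw [d2]; exact subset_union_left
  have full : ∀ z, K.Hit (X.image τ) z → K.Pb U (K.Wp U + 6 * S.card + 6) (insert z S) := by
    intro z hz
    refine ⟨X.image τ, by omega, test_cov hs hQ hdis (fun c g g' => ?_), fun c g => ?_⟩
    · have := hit c g'
      rw [tU c g] at this
      exact up _ _ this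
    · rcases mem_insert.1 g with e | e
      · rwa [e]
      · have := hit c (hs.2 c (by rw [m2]; exact e))
        rw [tU c (hS c e)] at this
        exact up _ _ this
  have drop : ∀ z : Dart ι, z.1 ∉ U → (K.res U S).Hit (X.image τ) z →
      K.Pb U (K.Wp U + 6 * S.card - 2) S := by
    rintro z hz ⟨y, hy, g⟩
    rw [test_out (K := K.res U S) hz g.symm] at hy
    have := card_erase_add_one hy
    have tr : ∀ c : Dart ι, c.1 ∈ U → K2.Hit X c → K.Hit ((X.image τ).erase z) c := by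
      intro c g1 g2
      obtain ⟨w, hw, g3⟩ := hit c g2
      rw [tU c g1] at g3
      refine ⟨w, mem_erase.2 ⟨fun e => hz ?_, hw⟩, vx_of_res g3⟩
      rw [e] at g3
      rwa [← test_out (K := K.res U S) hz g3]
    exact ⟨(X.image τ).erase z, by omega, test_cov hs hQ hdis tr,
      fun c g => tr c (hS c g) (hs.2 c (by rw [m2]; exact g))⟩
  obtain ⟨i, -, hi⟩ := hs.1 j.1 (by rw [q2]; exact mem_insert_self _ _)
  have hi' := hit _ hi
  rcases same_quad (d := j) (d' := (j.1, i)) rfl with g | g | g | g <;> rw [g] at hi'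
  · rw [t0] at hi'; exact Or.inr (Or.inr (full _ (up _ _ hi')))
  · rw [t1] at hi'; exact Or.inr (Or.inl (full _ (up _ _ hi')))
  · rw [t2] at hi'; exact Or.inl (drop (sg (sg j)) hq0 hi')
  · rw [t3] at hi'; exact Or.inl (drop (sg (sg (sg j))) hq0 hi')

variable {e f : Dart ι} (h : K.EE U e f) (hc : K.ConnOn U)
include h hc

/-- close with one quad glued along two opposite sides -/
theorem t_S (hlt : U.card + 2 ≤ K.Q.card) (hp : col e = col f) :
    K.Pb U (K.Wp U + 4) {e} ∨ K.Pb U (K.Wp U + 4) {sg e} ∨ K.Pb U (K.Wp U + 4) {f} ∨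
      K.Pb U (K.Wp U + 4) {sg f} := by
  classical
  obtain ⟨q0, hq0⟩ := test_new (K := K) (U := U) (by omega)
  have hcl := col_lt e
  obtain ⟨j, rfl, hj⟩ := test_exists_col q0 (1 - col e) (by omega)
  have he : e ∈ K.cut U := by rw [h.cut]; exact mem_insert_self _ _
  have hf : f ∈ K.cut U := by rw [h.cut]; exact mem_insert_of_mem (mem_singleton_self _)
  have heU : e.1 ∈ U := (mem_cut.1 he).1
  have hfU : f.1 ∈ U := (mem_cut.1 hf).1
  have hR : (K.res U ∅).Valid := hK.res h.sub (by simp)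
  obtain ⟨K2, v2, c2, q2, d2, m2, w2, a1, a2, a3, f1, f2⟩ := test_leaf hR ((res_conn ∅).2 hc)
    (j := j) (d := e) hq0 ∅ (by simp) (by simp) (test_cut_free ∅ he) heU (by omega)
    (test_dis_ne hK (glued_of_cut he)) (by simp)
  have nq : ∀ x y : Dart ι, x.1 ∈ U → y.1 = j.1 → x ≠ y := fun x y g g' e' =>
    hq0 (by rw [← g', ← e']; exact g)
  have fr0 : ∀ y : Dart ι, y.1 = j.1 → (K.res U ∅).a y = y := fun y g =>
    (K.res U ∅).supp y (by rw [g]; exact hq0)
  have fr2 : ∀ y : Dart ι, y.1 = j.1 → y ≠ j → K2.a y = y := fun y g g' => by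
    rw [a3 y (nq e y heU g).symm g', fr0 y g]
  have b1 := fr2 (sg j) rfl (sg_ne j)
  have b2 := fr2 (sg (sg j)) rfl (sg2_ne j)
  have b3 := fr2 (sg (sg (sg j))) rfl (sg3_ne j)
  have bf : K2.a f = f := by rw [a3 f h.ne.symm (nq f j hfU rfl), test_cut_free ∅ hf]
  obtain ⟨τ, t0, t1, t2, t3, t4⟩ := test_tau j (sg e) e (sg f) f
  have tU : ∀ c : Dart ι, c.1 ∈ U → τ c = c := fun c g => t4 c (fun e => hq0 (e ▸ g))
  have r1 : (K.res U ∅).Vx (τ e) (τ (sg j)) := by rw [t1, tU e heU]; exact Vx.refl _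
  have r2 : (K.res U ∅).Vx (τ j) (τ (sg e)) := by rw [t0, tU (sg e) heU]; exact Vx.refl _
  have r3 : (K.res U ∅).Vx (τ f) (τ (sg (sg (sg j)))) := by rw [t3, tU f hfU]; exact Vx.refl _
  have r4 : (K.res U ∅).Vx (τ (sg (sg j))) (τ (sg f)) := by
    rw [t2, tU (sg f) hfU]; exact Vx.refl _
  have st := test_step (ρ := fun x y => (K.res U ∅).Vx (τ x) (τ y))
      (test_base (K := K.res U ∅) hq0 t4) r1 r2 a1 a2 a3
  have hcj := col_sg2 j
  obtain ⟨K3, v3, c3, q3, d3, m3, w3, key⟩ := test_same v2 c2 (d := f) (d' := sg (sg j)) bf b2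
    (by rw [q2]; exact mem_insert_of_mem hfU) (by rw [q2]; exact mem_insert_self _ _)
    (by omega)
    ((f2 _ _ (h.res_fc ∅).symm).trans (f1.trans ((f2 _ _ (fc_free (fr0 j rfl))).trans
      (fc_free b1))))
    (fun g => nq f (sg (sg (sg j))) hfU rfl (test_single b2 b3 g))
    (fun g => nq (sg f) (sg (sg j)) hfU rfl (test_single b1 b2 g.symm))
    (fun p hp => by
      rw [d2, union_empty] at hp
      have hpU : p.1 ∈ U := (mem_ds.1 hp).2
      have := test_dis_ne hK (glued_of_cut hf) p hp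
      exact ⟨this.1, nq _ _ hpU rfl, this.2, nq _ _ hpU rfl⟩)
    (test_equiv (K := K.res U ∅) τ) st r3 r4
    (fun p hp g => by
      rw [d2, union_empty] at hp
      have hpU : p.1 ∈ U := (mem_ds.1 hp).2
      simp only [tU (sg p) hpU, tU (sg (sg (sg p))) hpU] at g
      exact hR.dis_ne p hp g)
  obtain ⟨X, hs, hn⟩ := ih K3 v3 c3 (by
    rw [q3, q2, res_Q, card_insert_of_notMem hq0]; omega)
  rw [res_W, card_empty] at w2
  have hit : ∀ c, K3.Hit X c → K.Hit (X.image τ) (τ c) := by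
    rintro c ⟨x, hx, g⟩
    exact ⟨τ x, mem_image_of_mem _ hx, vx_of_res (key x c g)⟩
  have hcard : (X.image τ).card ≤ X.card := card_image_le
  have hQ : U ⊆ K3.Q := by rw [q3, q2]; exact subset_insert _ _
  have hdis : K.ds U ⊆ K3.dis := by rw [d3, d2]; exact subset_union_left
  have full : ∀ z, K.Hit (X.image τ) z → K.Pb U (K.Wp U + 4) {z} := by
    intro z hz
    refine ⟨X.image τ, by omega, test_cov hs hQ hdis (fun c g g' => ?_), fun c g => ?_⟩
    · have := hit c g'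
      rwa [tU c g] at this
    · rwa [mem_singleton.1 g]
  obtain ⟨i, -, hi⟩ := hs.1 j.1 (by rw [q3, q2]; exact mem_insert_self _ _)
  have hi' := hit _ hi
  rcases same_quad (d := j) (d' := (j.1, i)) rfl with g | g | g | g <;> rw [g] at hi'
  · rw [t0] at hi'; exact Or.inr (Or.inl (full _ hi'))
  · rw [t1] at hi'; exact Or.inl (full _ hi')
  · rw [t2] at hi'; exact Or.inr (Or.inr (Or.inr (full _ hi')))
  · rw [t3] at hi'; exact Or.inr (Or.inr (Or.inl (full _ hi')))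

/-- common part of the two tests with a quad glued along adjacent sides -/
theorem test_LD (hlt : U.card + 2 ≤ K.Q.card) (hp : col e ≠ col f)
    (hx : ¬ (K.res U ∅).Vx (sg f) e)
    (hD : ∀ p ∈ K.ds U, ¬ ((K.res U ∅).Vx (sg p) (sg f) ∧ (K.res U ∅).Vx (sg (sg (sg p))) e))
    (n : ℕ) (hn1 : n ≤ 1) (hy : n = 1 → ¬ (K.res U ∅).Vx (sg e) f)
    (A : Dart ι → Prop) (hA : ∀ x, A x ↔ (K.res U ∅).Vx x e ∨ (K.res U ∅).Vx x (sg f)) :
    ∃ (Y : Finset (Dart ι)) (H : Dart ι → Prop) (z : Dart ι), z.1 ∉ U ∧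
      (∀ c, H c ↔ (K.res U ∅).Hit Y c ∨ (A c ∧ ∃ y ∈ Y, A y)) ∧
      8 * Y.card ≤ K.Wp U + 4 + 2 * n ∧ (∀ q ∈ U, ∃ i, (q, i) ∉ K.dis ∧ H (q, i)) ∧
      ((n = 0 ∧ H e) ∨ H f ∨ H z ∨ H (sg e)) := by
  classical
  obtain ⟨q0, hq0⟩ := test_new (K := K) (U := U) (by omega)
  have hcl := col_lt e
  have hcl' := col_lt f
  obtain ⟨j, rfl, hj⟩ := test_exists_col q0 (col e) hcl
  have he : e ∈ K.cut U := by rw [h.cut]; exact mem_insert_self _ _
  have hf : f ∈ K.cut U := by rw [h.cut]; exact mem_insert_of_mem (mem_singleton_self _)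
  have heU : e.1 ∈ U := (mem_cut.1 he).1
  have hfU : f.1 ∈ U := (mem_cut.1 hf).1
  have hR : (K.res U ∅).Valid := hK.res h.sub (by simp)
  obtain ⟨P, hP, hPn, hPj⟩ : ∃ P : Finset (Dart ι), (∀ p ∈ P, p = j ∧ n = 1) ∧ P.card = n ∧
      (n = 1 → j ∈ P) := by
    rcases Nat.le_one_iff_eq_zero_or_eq_one.1 hn1 with g | g
    · exact ⟨∅, by simp, by simp [g], by omega⟩
    · exact ⟨{j}, by simp [g], by simp [g], by simp⟩
  have hc3 := col_sg3 j
  obtain ⟨K2, v2, c2, q2, d2, m2, w2, a1, a2, a3, f1, f2⟩ := test_leaf hR ((res_conn ∅).2 hc)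
    (j := sg (sg (sg j))) (d := e) hq0 P (fun p g => by rw [(hP p g).1]; rfl) (by omega)
    (test_cut_free ∅ he) heU (by omega) (test_dis_ne hK (glued_of_cut he))
    (fun p g => by
      rw [(hP p g).1]
      exact ⟨(sg2_ne (sg j)).symm, (sg_ne (sg (sg j))).symm⟩)
  simp only [sg_fst] at q2
  have nq : ∀ x y : Dart ι, x.1 ∈ U → y.1 = j.1 → x ≠ y := fun x y g g' e' =>
    hq0 (by rw [← g', ← e']; exact g)
  have fr0 : ∀ y : Dart ι, y.1 = j.1 → (K.res U ∅).a y = y := fun y g =>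
    (K.res U ∅).supp y (by rw [g]; exact hq0)
  have fr2 : ∀ y : Dart ι, y.1 = j.1 → y ≠ sg (sg (sg j)) → K2.a y = y := fun y g g' => by
    rw [a3 y (nq e y heU g).symm g', fr0 y g]
  have b0 := fr2 j rfl (sg3_ne j).symm
  have b1 := fr2 (sg j) rfl (sg2_ne (sg j)).symm
  have bf : K2.a f = f := by
    rw [a3 f h.ne.symm (nq f (sg (sg (sg j))) hfU rfl), test_cut_free ∅ hf]
  obtain ⟨τ, t0, t1, t2, t3, t4⟩ := test_tau j e f (sg (sg j)) (sg e)
  have tU : ∀ c : Dart ι, c.1 ∈ U → τ c = c := fun c g => t4 c (fun e => hq0 (e ▸ g))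
  have r1 : (K.res U ∅).Vx (τ e) (τ (sg (sg (sg (sg j))))) := by
    rw [sg4, t0, tU e heU]; exact Vx.refl _
  have r2 : (K.res U ∅).Vx (τ (sg (sg (sg j)))) (τ (sg e)) := by
    rw [t3, tU (sg e) heU]; exact Vx.refl _
  have st := test_step (ρ := fun x y => (K.res U ∅).Vx (τ x) (τ y))
      (test_base (K := K.res U ∅) hq0 t4) r1 r2 a1 a2 a3
  have hAcl : ∀ x y, (K.res U ∅).Vx x y → A x → A y := by
    intro x y g g'
    rw [hA] at g' ⊢
    exact g'.imp (fun w => g.symm.trans w) (fun w => g.symm.trans w)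
  have Ae : A e := (hA e).2 (Or.inl (Vx.refl _))
  have Asf : A (sg f) := (hA _).2 (Or.inr (Vx.refl _))
  have hcsf := col_sg f
  have nAf : ¬ A f := by
    intro g
    rcases (hA f).1 g with w | w
    · exact hp (hR.col_vx w).symm
    · have := hR.col_vx w; omega
  obtain ⟨K3, v3, c3, q3, d3, m3, w3, key⟩ := test_same v2 c2 (d := f) (d' := j) bf b0
    (by rw [q2]; exact mem_insert_of_mem hfU) (by rw [q2]; exact mem_insert_self _ _)
    (by omega)
    ((f2 _ _ (h.res_fc ∅).symm).trans (f1.trans (by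
      have := f2 _ _ (fc_free (fr0 (sg (sg (sg j))) rfl))
      rwa [sg4] at this)))
    (fun g => nq f (sg j) hfU rfl (test_single b0 b1 g))
    (fun g => by
      have := test_vx_le (test_equiv (K := K.res U ∅) τ) st g
      simp only [t0, tU (sg f) hfU] at this
      exact hx this)
    (fun p hp => by
      rw [d2] at hp
      rcases mem_union.1 hp with hp | hp
      · have hpU : p.1 ∈ U := (mem_ds.1 hp).2
        have := test_dis_ne hK (glued_of_cut hf) p hp
        exact ⟨this.1, nq _ _ hpU rfl, this.2, nq _ _ hpU rfl⟩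
      · rw [(hP p hp).1]
        exact ⟨(nq f (sg j) hfU rfl).symm, sg_ne j, (nq f (sg (sg j)) hfU rfl).symm, sg2_ne j⟩)
    (test_equiv2 (K := K.res U ∅) τ A hAcl) (fun c g => Or.inl (st c g))
    (Or.inl (by rw [t1, tU f hfU]; exact Vx.refl _))
    (Or.inr (by rw [t0, tU (sg f) hfU]; exact ⟨Ae, Asf⟩))
    (fun p hp g => by
      rw [d2] at hp
      rcases mem_union.1 hp with hp | hp
      · have hpU : p.1 ∈ U := (mem_ds.1 hp).2
        simp only [tU (sg p) hpU, tU (sg (sg (sg p))) hpU] at g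
        rcases g with g | ⟨g1, g2⟩
        · exact hR.dis_ne p hp g
        · rcases (hA _).1 g1 with w | w
          · exact (test_dis_ne hK (glued_of_cut he) p hp).1
              (last_unique (hR.dis_fr1 p hp) (test_cut_free ∅ he) w)
          · rcases (hA _).1 g2 with w' | w'
            · exact hD p hp ⟨w, w'⟩
            · exact hR.dis_ne p hp (w.trans w'.symm)
      · rw [(hP p hp).1] at g
        simp only [t1, t3] at g
        rcases g with g | ⟨g1, -⟩
        · exact hy (hP p hp).2 g.symm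
        · exact nAf g1)
  obtain ⟨X, hs, hn⟩ := ih K3 v3 c3 (by
    rw [q3, q2, res_Q, card_insert_of_notMem hq0]; omega)
  rw [res_W, card_empty] at w2
  have hcard : (X.image τ).card ≤ X.card := card_image_le
  have hit : ∀ c, K3.Hit X c →
      (K.res U ∅).Hit (X.image τ) (τ c) ∨ (A (τ c) ∧ ∃ y ∈ X.image τ, A y) := by
    rintro c ⟨x, hx, g⟩
    rcases key x c g with w | w
    · exact Or.inl ⟨τ x, mem_image_of_mem _ hx, w⟩
    · exact Or.inr ⟨w.2, τ x, mem_image_of_mem _ hx, w.1⟩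
  refine ⟨X.image τ, fun c => (K.res U ∅).Hit (X.image τ) c ∨ (A c ∧ ∃ y ∈ X.image τ, A y),
    sg (sg j), hq0, fun c => Iff.rfl, by omega, fun q hq => ?_, ?_⟩
  · obtain ⟨i, h1, h2⟩ := hs.1 q (by rw [q3, q2]; exact mem_insert_of_mem hq)
    refine ⟨i, fun g => h1 (by rw [d3, d2]; exact mem_union_left _ (mem_ds.2 ⟨g, hq⟩)), ?_⟩
    have := hit _ h2
    rwa [tU (q, i) hq] at this
  · obtain ⟨i, hen, hi⟩ := hs.1 j.1 (by rw [q3, q2]; exact mem_insert_self _ _)
    have hi' := hit _ hi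
    rcases same_quad (d := j) (d' := (j.1, i)) rfl with g | g | g | g <;> rw [g] at hi' hen
    · rw [t0] at hi'
      refine Or.inl ⟨?_, hi'⟩
      by_contra g'
      exact hen (by rw [d3, d2]; exact mem_union_right _ (hPj (by omega)))
    · rw [t1] at hi'; exact Or.inr (Or.inl hi')
    · rw [t2] at hi'; exact Or.inr (Or.inr (Or.inl hi'))
    · rw [t3] at hi'; exact Or.inr (Or.inr (Or.inr hi'))

omit hK ih h hc in
/-- how to use the output of `test_LD` when `H` implies a hit -/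
theorem test_use {Y' : Finset (Dart ι)} {H : Dart ι → Prop}
    (hcov : ∀ q ∈ U, ∃ i, (q, i) ∉ K.dis ∧ H (q, i))
    (hH : ∀ c : Dart ι, c.1 ∈ U → H c → K.Hit Y' c) {B : ℤ} (hB : 8 * (Y'.card : ℤ) ≤ B)
    {S : Finset (Dart ι)} (hS : ∀ c ∈ S, K.Hit Y' c) : K.Pb U B S := by
  refine ⟨Y', hB, fun q hq => ?_, hS⟩
  obtain ⟨i, h1, h2⟩ := hcov q hq
  exact ⟨i, h1, hH _ hq h2⟩

/-- close with one quad glued along two adjacent sides, merging `sg f` and `e` -/
theorem t_L (hlt : U.card + 2 ≤ K.Q.card) (hp : col e ≠ col f)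
    (hx : ¬ (K.res U ∅).Vx (sg f) e)
    (hD : ∀ p ∈ K.ds U, ¬ ((K.res U ∅).Vx (sg p) (sg f) ∧ (K.res U ∅).Vx (sg (sg (sg p))) e)) :
    K.Pb U (K.Wp U - 4) ∅ ∨ K.Pb U (K.Wp U + 4) {sg e} ∨ K.Pb U (K.Wp U + 4) {f} ∨
      (K.Pb U (K.Wp U + 12) {e, sg f} ∧ (K.Vx (sg f) e → K.Pb U (K.Wp U + 4) {e})) := by
  classical
  obtain ⟨Y, H, z, hz, hH, hn, hcov, hnew⟩ := test_LD hK ih h hc hlt hp hx hD 0 (by omega)
    (by omega) _ (fun x => Iff.rfl)
  have up : ∀ (Y : Finset (Dart ι)) c, (K.res U ∅).Hit Y c → K.Hit Y c := by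
    rintro Y c ⟨x, hx, g⟩
    exact ⟨x, hx, vx_of_res g⟩
  by_cases hY : ∃ y ∈ Y, (K.res U ∅).Vx y e ∨ (K.res U ∅).Vx y (sg f)
  · obtain ⟨y, hy, hyA⟩ := hY
    have hcard := card_erase_add_one hy
    have tr : ∀ Y' : Finset (Dart ι), Y.erase y ⊆ Y' → K.Hit Y' e → K.Hit Y' (sg f) →
        ∀ c : Dart ι, c.1 ∈ U → H c → K.Hit Y' c := by
      intro Y' g1 g2 g3 c _ g
      have hAc : ∀ c, (K.res U ∅).Vx c e ∨ (K.res U ∅).Vx c (sg f) → K.Hit Y' c := by
        intro c w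
        rcases w with w | w
        · exact g2.of_vx (vx_of_res w).symm
        · exact g3.of_vx (vx_of_res w).symm
      rcases (hH c).1 g with ⟨x, hx, w⟩ | ⟨w, -⟩
      · by_cases e' : x = y
        · rw [e'] at w
          exact (hAc y hyA).of_vx (vx_of_res w)
        · exact ⟨x, g1 (mem_erase.2 ⟨e', hx⟩), vx_of_res w⟩
      · exact hAc c w
    refine Or.inr (Or.inr (Or.inr ⟨?_, fun hv => ?_⟩))
    · have g2 : K.Hit (insert e (insert (sg f) (Y.erase y))) e := hit_of_mem (mem_insert_self _ _)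
      have g3 : K.Hit (insert e (insert (sg f) (Y.erase y))) (sg f) :=
        hit_of_mem (mem_insert_of_mem (mem_insert_self _ _))
      refine test_use hcov (tr _ ((subset_insert _ _).trans (subset_insert _ _)) g2 g3) ?_ ?_
      · have := card_insert_le e (insert (sg f) (Y.erase y))
        have := card_insert_le (sg f) (Y.erase y)
        omega
      · intro c g
        rcases mem_insert.1 g with w | w
        · rwa [w]
        · rwa [mem_singleton.1 w]
    · have g2 : K.Hit (insert e (Y.erase y)) e := hit_of_mem (mem_insert_self _ _)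
      refine test_use hcov (tr _ (subset_insert _ _) g2 (g2.of_vx hv.symm)) ?_ ?_
      · have := card_insert_le e (Y.erase y)
        omega
      · intro c g
        rwa [mem_singleton.1 g]
  · have tr : ∀ c, H c → (K.res U ∅).Hit Y c := by
      intro c g
      rcases (hH c).1 g with w | ⟨-, w⟩
      · exact w
      · exact absurd w hY
    have full : ∀ w, H w → K.Pb U (K.Wp U + 4) {w} := fun w g =>
      test_use hcov (fun c _ g' => up _ _ (tr c g')) (by omega)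
        (fun c g' => by rw [mem_singleton.1 g']; exact up _ _ (tr w g))
    rcases hnew with ⟨-, g⟩ | g | g | g
    · obtain ⟨x, hx, w⟩ := tr e g
      exact absurd ⟨x, hx, Or.inl w⟩ hY
    · exact Or.inr (Or.inr (Or.inl (full _ g)))
    · obtain ⟨x, hx, w⟩ := tr z g
      rw [test_out (K := K.res U ∅) hz w.symm] at hx
      have := card_erase_add_one hx
      refine Or.inl (test_use (Y' := Y.erase z) hcov (fun c g1 g2 => ?_) (by omega) (by simp))
      obtain ⟨x', hx', w'⟩ := tr c g2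
      refine ⟨x', mem_erase.2 ⟨fun e' => hz ?_, hx'⟩, vx_of_res w'⟩
      rw [e'] at w'
      rwa [← test_out (K := K.res U ∅) hz w']
    · exact Or.inr (Or.inl (full _ g))

/-- the same with the merged corner disabled -/
theorem t_D (hlt : U.card + 2 ≤ K.Q.card) (hp : col e ≠ col f)
    (hx : ¬ (K.res U ∅).Vx (sg f) e) (hy : ¬ (K.res U ∅).Vx (sg e) f) (hx' : K.Vx (sg f) e) :
    K.Pb U (K.Wp U - 2) ∅ ∨ K.Pb U (K.Wp U + 6) {sg e} ∨ K.Pb U (K.Wp U + 6) {f} := by
  classical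
  have he : e ∈ K.cut U := by rw [h.cut]; exact mem_insert_self _ _
  have hf : f ∈ K.cut U := by rw [h.cut]; exact mem_insert_of_mem (mem_singleton_self _)
  obtain ⟨Y, H, z, hz, hH, hn, hcov, hnew⟩ := test_LD hK ih h hc hlt hp hx
    (fun p hp' g => hK.dis_ne p (mem_ds.1 hp').1
      ((vx_of_res g.1).trans (hx'.trans (vx_of_res g.2).symm))) 1 le_rfl
    (fun _ => hy) _ (fun x => Iff.rfl)
  have hAe : ∀ c, (K.res U ∅).Vx c e ∨ (K.res U ∅).Vx c (sg f) → K.Vx c e := by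
    intro c w
    rcases w with w | w
    · exact vx_of_res w
    · exact (vx_of_res w).trans hx'
  have hAz : ¬ ((K.res U ∅).Vx z e ∨ (K.res U ∅).Vx z (sg f)) := by
    rintro (w | w)
    · exact hz (by rw [← test_out (K := K.res U ∅) hz w]; exact (mem_cut.1 he).1)
    · exact hz (by rw [← test_out (K := K.res U ∅) hz w]; exact (mem_cut.1 hf).1)
  have tr : ∀ c, H c → K.Hit Y c := by
    intro c g
    rcases (hH c).1 g with ⟨x, hx, w⟩ | ⟨w, y, hy, w'⟩
    · exact ⟨x, hx, vx_of_res w⟩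
    · exact ⟨y, hy, (hAe y w').trans (hAe c w).symm⟩
  have full : ∀ w, H w → K.Pb U (K.Wp U + 6) {w} := fun w g =>
    test_use hcov (fun c _ g' => tr c g') (by omega)
      (fun c g' => by rw [mem_singleton.1 g']; exact tr w g)
  rcases hnew with ⟨g, -⟩ | g | g | g
  · omega
  · exact Or.inr (Or.inr (full _ g))
  · rcases (hH z).1 g with ⟨x, hx, w⟩ | ⟨w, -⟩
    · rw [test_out (K := K.res U ∅) hz w.symm] at hx
      have := card_erase_add_one hx
      refine Or.inl (test_use (Y' := Y.erase z) hcov (fun c g1 g2 => ?_) (by omega) (by simp))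
      rcases (hH c).1 g2 with ⟨x', hx', w'⟩ | ⟨w', y, hy, w''⟩
      · refine ⟨x', mem_erase.2 ⟨fun e' => hz ?_, hx'⟩, vx_of_res w'⟩
        rw [e'] at w'
        rwa [← test_out (K := K.res U ∅) hz w']
      · exact ⟨y, mem_erase.2 ⟨fun e' => hAz (e' ▸ w''), hy⟩, (hAe y w'').trans (hAe c w').symm⟩
    · exact absurd w hAz
  · exact Or.inr (Or.inl (full _ g))

/-- glue the two cut darts to each other -/
theorem t_E (hlt : U.card < K.Q.card) (hp : col e ≠ col f)
    (hx : ¬ (K.res U ∅).Vx (sg f) e) (hy : ¬ (K.res U ∅).Vx (sg e) f) (hx' : K.Vx (sg f) e)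
    (hD : ∀ p ∈ K.ds U, ¬ ((K.res U ∅).Vx (sg p) (sg e) ∧ (K.res U ∅).Vx (sg (sg (sg p))) f)) :
    K.Pb U (K.Wp U) ∅ ∨ (K.Pb U (K.Wp U + 8) {sg e, f} ∧ ¬ K.Vx (sg e) f) := by
  classical
  have he : e ∈ K.cut U := by rw [h.cut]; exact mem_insert_self _ _
  have hf : f ∈ K.cut U := by rw [h.cut]; exact mem_insert_of_mem (mem_singleton_self _)
  have heU : e.1 ∈ U := (mem_cut.1 he).1
  have hfU : f.1 ∈ U := (mem_cut.1 hf).1
  have hR : (K.res U ∅).Valid := hK.res h.sub (by simp)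
  have be := test_cut_free ∅ he
  have bf := test_cut_free ∅ hf
  have ne1 := test_dis_ne (U := U) hK (glued_of_cut he)
  have ne2 := test_dis_ne (U := U) hK (glued_of_cut hf)
  have v2 : ((K.res U ∅).glue e f be bf heU hfU).Valid := by
    refine Valid.glue_same _ _ _ _ hR hp (h.res_fc ∅) hx hy
      (fun p g => ⟨(ne1 p g).1, (ne2 p g).1, (ne1 p g).2, (ne2 p g).2⟩) (fun p g w => ?_)
    rcases vx_of_glue _ _ _ _ hR hp w with w | w | w | w | w
    · exact hR.dis_ne p g w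
    · exact (ne1 p g).1 (last_unique (hR.dis_fr1 p g) be w.1)
    · exact hK.dis_ne p (mem_ds.1 g).1
        ((vx_of_res w.1).trans (hx'.trans (vx_of_res w.2).symm))
    · exact (ne2 p g).1 (last_unique (hR.dis_fr1 p g) bf w.1)
    · exact hD p g w
  obtain ⟨X, hs, hn⟩ := ih _ v2 (conn_glue _ _ _ _ ((res_conn ∅).2 hc)) hlt
  have hw := glue_W be bf heU hfU h.ne
  rw [res_W, card_empty] at hw
  have key : ∀ x c, ((K.res U ∅).glue e f be bf heU hfU).Vx x c →
      K.Vx x c ∨ (K.Vx x f ∧ K.Vx c (sg e)) ∨ (K.Vx x (sg e) ∧ K.Vx c f) := by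
    intro x c w
    rcases vx_of_glue _ _ _ _ hR hp w with w | w | w | w | w
    · exact Or.inl (vx_of_res w)
    · exact Or.inl ((vx_of_res w.1).trans (hx'.symm.trans (vx_of_res w.2).symm))
    · exact Or.inl ((vx_of_res w.1).trans (hx'.trans (vx_of_res w.2).symm))
    · exact Or.inr (Or.inl ⟨vx_of_res w.1, vx_of_res w.2⟩)
    · exact Or.inr (Or.inr ⟨vx_of_res w.1, vx_of_res w.2⟩)
  by_cases hY : (∃ y ∈ X, K.Vx y f ∨ K.Vx y (sg e)) ∧ ¬ K.Vx (sg e) f
  · obtain ⟨⟨y, hy, hyA⟩, hv⟩ := hY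
    have hcard := card_erase_add_one hy
    have g2 : K.Hit (insert (sg e) (insert f (X.erase y))) (sg e) :=
      hit_of_mem (mem_insert_self _ _)
    have g3 : K.Hit (insert (sg e) (insert f (X.erase y))) f :=
      hit_of_mem (mem_insert_of_mem (mem_insert_self _ _))
    refine Or.inr ⟨⟨insert (sg e) (insert f (X.erase y)), ?_,
      test_cov hs Subset.rfl Subset.rfl ?_, ?_⟩, hv⟩
    · have := card_insert_le (sg e) (insert f (X.erase y))
      have := card_insert_le f (X.erase y)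
      omega
    · rintro c - ⟨x, hx, w⟩
      rcases key x c w with w | w | w
      · by_cases e' : x = y
        · rw [e'] at w
          rcases hyA with w' | w'
          · exact g3.of_vx (w'.symm.trans w)
          · exact g2.of_vx (w'.symm.trans w)
        · exact ⟨x, mem_insert_of_mem (mem_insert_of_mem (mem_erase.2 ⟨e', hx⟩)), w⟩
      · exact g2.of_vx w.2.symm
      · exact g3.of_vx w.2.symm
    · intro c g
      rcases mem_insert.1 g with w | w
      · rwa [w]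
      · rwa [mem_singleton.1 w]
  · refine Or.inl ⟨X, by omega, test_cov hs Subset.rfl Subset.rfl ?_, by simp⟩
    rintro c - ⟨x, hx, w⟩
    refine ⟨x, hx, ?_⟩
    rcases key x c w with w | w | w
    · exact w
    · have hv : K.Vx (sg e) f := by
        by_contra g
        exact hY ⟨⟨x, hx, Or.inl w.1⟩, g⟩
      exact w.1.trans (hv.symm.trans w.2.symm)
    · have hv : K.Vx (sg e) f := by
        by_contra g
        exact hY ⟨⟨x, hx, Or.inr w.1⟩, g⟩
      exact w.1.trans (hv.trans w.2.symm)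

end tests

end Cx

end Pool.Agent.Lib.MP_8d6beb_co
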