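import Pool.Agent.Lib.MP_8d6beb_co.Defs
import Pool.Agent.Lib.MP_8d6beb_co.Complex

namespace Pool.Agent.Lib.MP_8d6beb_co

open Set

theorem shermer_of_core
    (core : ∀ (ι : Type) [Fintype ι] [DecidableEq ι] (K : Cx ι), K.Valid → K.Conn → K.Good)
    (h : ℕ) (Q : Fin (h + 1) → Set (ℝ × ℝ)) (m : Fin (h + 1) → ℕ)
    (v : Fin (h + 1) → ℕ → ℝ × ℝ) (hQ : ∀ k, IsOrthPolygon (Q k) (m k) (v k))
    (hin : ∀ k, k ≠ 0 → Q k ⊆ interior (Q 0))
    (hdis : ∀ k l, k ≠ 0 → l ≠ 0 → k ≠ l → Disjoint (Q k) (Q l))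
    (P : Set (ℝ × ℝ)) (hP : P = Q 0 \ ⋃ k ≠ 0, interior (Q k)) :
    ∃ G : Finset (ℝ × ℝ), (∀ g ∈ G, ∃ k, ∃ i < m k, g = v k i) ∧ G.card ≤ (∑ k, m k + h) / 4 ∧
      ∀ p ∈ P, ∃ g ∈ G, segment ℝ g p ⊆ P ∧ uIcc g.1 p.1 ×ˢ uIcc g.2 p.2 ⊆ P := by
  classical
  have hcl : ∀ k, IsClosed (Q k) := fun k => (hQ k).2.2.2.2.1.isClosed
  have hfr : ∀ k, frontier (Q k) = ⋃ i < m k, edge (v k) (m k) i := fun k => (hQ k).2.2.2.2.2.2
  have hm : ∀ k i, (i + 1) % m k < m k := fun k i => Nat.mod_lt _ (by have := (hQ k).1; omega)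
  have hop : ∀ T : Set (Fin (h + 1)), IsClosed (⋃ k ∈ T, Q k) := fun T =>
    T.toFinite.isClosed_biUnion (fun k _ => hcl k)
  obtain ⟨U, hU⟩ : ∃ U, U = interior (Q 0) \ ⋃ k ∈ {k | k ≠ 0}, Q k := ⟨_, rfl⟩
  have mU : ∀ p, p ∈ U ↔ p ∈ interior (Q 0) ∧ ∀ k, k ≠ 0 → p ∉ Q k := by
    intro p; simp [hU]
  have mP : ∀ p, p ∈ P ↔ p ∈ Q 0 ∧ ∀ k, k ≠ 0 → p ∉ interior (Q k) := by
    intro p; simp [hP]
  have oU : IsOpen U := hU ▸ isOpen_interior.sdiff (hop _)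
  have sub : U ⊆ Q 0 := fun p hp => interior_subset ((mU p).1 hp).1
  have cP : closure U ⊆ P := by
    intro p hp
    refine (mP p).2 ⟨closure_minimal sub (hcl 0) hp, fun k hk hi => ?_⟩
    obtain ⟨q, q1, q2⟩ := mem_closure_iff.1 hp _ isOpen_interior hi
    exact ((mU q).1 q2).2 k hk (interior_subset q1)
  have Pc : P ⊆ closure U := by
    intro p hp
    obtain ⟨p1, p2⟩ := (mP p).1 hp
    by_cases g : ∃ k, k ≠ 0 ∧ p ∈ Q k
    · obtain ⟨k, hk, pk⟩ := g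
      have o : IsOpen (interior (Q 0) \ ⋃ l ∈ {l | l ≠ 0 ∧ l ≠ k}, Q l) :=
        isOpen_interior.sdiff (hop _)
      have a : p ∈ closure (Q k)ᶜ := by rw [closure_compl]; exact p2 k hk
      refine closure_mono ?_ (o.inter_closure ⟨⟨hin k hk pk, ?_⟩, a⟩)
      · rintro q ⟨⟨q1, q2⟩, q3⟩
        refine (mU q).2 ⟨q1, fun l hl ql => ?_⟩
        by_cases e : l = k
        · exact q3 (e ▸ ql)
        · exact q2 (mem_biUnion (show l ∈ {l | l ≠ 0 ∧ l ≠ k} from ⟨hl, e⟩) ql)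
      · intro b
        obtain ⟨l, hl, pl⟩ := mem_iUnion₂.1 b
        exact disjoint_left.1 (hdis l k hl.1 hk hl.2) pl pk
    · have o : IsOpen (⋃ l ∈ {l | l ≠ 0}, Q l)ᶜ := (hop _).isOpen_compl
      have a : p ∈ closure (interior (Q 0)) := by rw [(hQ 0).2.2.2.2.2.1]; exact p1
      refine closure_mono ?_ (o.inter_closure ⟨?_, a⟩)
      · rintro q ⟨q1, q2⟩
        rw [hU]; exact ⟨q2, q1⟩
      · intro b
        obtain ⟨l, hl, pl⟩ := mem_iUnion₂.1 b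
        exact g ⟨l, hl, pl⟩
  have efr : ∀ k, ∀ i < m k, ∀ p ∈ edge (v k) (m k) i, p ∈ frontier (Q k) := by
    intro k i hi p hp
    rw [hfr]
    exact mem_iUnion₂.2 ⟨i, hi, hp⟩
  have same : ∀ k l p, p ∈ frontier (Q k) → p ∈ frontier (Q l) → k = l := by
    intro k l p h1 h2
    have a1 : p ∈ Q k := (hcl k).frontier_subset h1
    have a2 : p ∈ Q l := (hcl l).frontier_subset h2
    by_contra hne
    by_cases b1 : k = 0
    · subst b1
      exact h1.2 (hin l (Ne.symm hne) a2)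
    · by_cases b2 : l = 0
      · subst b2
        exact h2.2 (hin k b1 a1)
      · exact disjoint_left.1 (hdis k l b1 b2 hne) a1 a2
  have pair : ∀ e f : (Σ k, Fin (m k)), ∀ p, e ≠ f → p ∈ edge (v e.1) (m e.1) e.2 →
      p ∈ edge (v f.1) (m f.1) f.2 → (p = v e.1 e.2 ∨ p = v e.1 ((e.2 + 1) % m e.1)) ∧
        (p = v e.1 e.2 ∨ p = v f.1 f.2) := by
    rintro ⟨k, i⟩ ⟨l, j⟩ p hne h1 h2
    obtain rfl := same k l p (efr k i i.2 p h1) (efr l j j.2 p h2)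
    rcases (hQ k).2.2.2.1 i i.2 j j.2 (fun e => hne (by rw [Fin.ext e])) p ⟨h1, h2⟩ with g | g
    · exact ⟨Or.inr (g.1 ▸ g.2), Or.inr g.2⟩
    · exact ⟨Or.inl g.2, Or.inl g.2⟩
  have inj : ∀ e f : (Σ k, Fin (m k)), v e.1 e.2 = v f.1 f.2 → e = f := by
    rintro ⟨k, i⟩ ⟨l, j⟩ e
    obtain rfl := same k l (v k i) (efr k i i.2 _ (left_mem_segment _ _ _))
      (efr l j j.2 _ (by rw [show v k i = v l j from e]; exact left_mem_segment _ _ _))
    rw [Fin.ext ((hQ k).2.1 i i.2 j j.2 e)]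
  obtain ⟨G, g1, g2, g3⟩ := geo2 (goal_of_core core) (ι := Σ k, Fin (m k)) (fun e => v e.1 e.2)
    (fun e => v e.1 ((e.2 + 1) % m e.1)) (fun e => (hQ e.1).2.2.1 e.2 e.2.2)
    (fun e f p a1 a2 a3 => (pair e f p a1 a2 a3).1)
    (by
      intro e f g p a1 a2 a3 b1 b2 b3
      rcases (pair e f p a1 b1 b2).2 with c1 | c1
      · rcases (pair f g p a2 b2 b3).2 with c2 | c2
        · exact a1 (inj _ _ (c1.symm.trans c2))
        · exact a3 (inj _ _ (c1.symm.trans c2))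
      · rcases (pair e g p a3 b1 b3).2 with c2 | c2
        · exact a1 (inj _ _ (c2.symm.trans c1))
        · exact a2 (inj _ _ (c1.symm.trans c2)))
    (Finset.univ.image (fun e : (Σ k, Fin (m k)) => v e.1 e.2))
    (fun e => Finset.mem_image_of_mem _ (Finset.mem_univ e))
    (fun e => Finset.mem_image.2 ⟨⟨e.1, ⟨_, hm e.1 e.2⟩⟩, Finset.mem_univ _, rfl⟩)
    U oU ((hQ 0).2.2.2.2.1.isBounded.subset sub)
    (by
      intro p hp
      rw [oU.frontier_eq] at hp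
      obtain ⟨p1, p2⟩ := (mP p).1 (cP hp.1)
      have : ∃ k, p ∈ frontier (Q k) := by
        by_cases g : p ∈ interior (Q 0)
        · by_contra hc
          refine hp.2 ((mU p).2 ⟨g, fun k hk pk => hc ⟨k, subset_closure pk, p2 k hk⟩⟩)
        · exact ⟨0, subset_closure p1, g⟩
      obtain ⟨k, hk⟩ := this
      rw [hfr] at hk
      obtain ⟨i, hi, hp⟩ := mem_iUnion₂.1 hk
      exact mem_iUnion.2 ⟨⟨k, ⟨i, hi⟩⟩, hp⟩)
    (by
      rintro ⟨k, i⟩ q hq hi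
      have a := efr k i i.2 q hq
      by_cases b : k = 0
      · subst b
        exact a.2 (interior_mono (closure_minimal sub (hcl 0)) hi)
      · have c : q ∈ closure (interior (Q k)) := by
          rw [(hQ k).2.2.2.2.2.1]; exact (hcl k).frontier_subset a
        obtain ⟨z, z1, z2⟩ := mem_closure_iff.1 c _ isOpen_interior hi
        exact ((mP z).1 (cP (interior_subset z1))).2 k b z2)
    h (fun e => e.1)
    (by
      intro X hX
      refine ⟨fun k => X (v k 0), ?_⟩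
      rintro ⟨k, i, hi⟩
      induction i with
      | zero => rfl
      | succ n ih =>
        have a := hX ⟨k, n, by omega⟩
        simp only [Nat.mod_eq_of_lt hi] at a
        exact a.trans (ih (by omega)))
  refine ⟨G, fun g hg => ?_, ?_, fun p hp => ?_⟩
  · obtain ⟨e, _, rfl⟩ := Finset.mem_image.1 (g1 hg)
    exact ⟨e.1, e.2, e.2.2, rfl⟩
  · have a : (Finset.univ.image (fun e : (Σ k, Fin (m k)) => v e.1 e.2)).card ≤ ∑ k, m k :=
      Finset.card_image_le.trans (by simp)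
    omega
  · obtain ⟨g, hg, a⟩ := g3 p (Pc hp)
    refine ⟨g, hg, fun q hq => cP (a ?_), a.trans cP⟩
    rw [← segment_eq_uIcc, ← segment_eq_uIcc]
    exact Prod.segment_subset g p hq

end Pool.Agent.Lib.MP_8d6beb_co
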