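import Pool.Agent.Lib.MP_8d6beb_co.Cart
import Pool.Agent.Lib.MP_8d6beb_co.Refine

namespace Pool.Agent.Lib.MP_8d6beb_co

open Finset

/-- `[x0, x1)` is a maximal interval of `f`. -/
def Iv (f : ℤ → Prop) (x0 x1 : ℤ) : Prop :=
  x0 < x1 ∧ (∀ c, x0 ≤ c → c < x1 → f c) ∧ ¬ f (x0 - 1) ∧ ¬ f x1

/-- `f` and `g` differ on one interval, in one direction. -/
def Pair (f g : ℤ → Prop) : Prop := ∀ c1 c2, ¬ (g c1 ↔ f c1) → ¬ (g c2 ↔ f c2) →
  (g c1 ↔ g c2) ∧ ∀ c, c1 ≤ c → c ≤ c2 → ¬ (g c ↔ f c)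

theorem Pair.symm {f g : ℤ → Prop} (h : Pair f g) : Pair g f := by
  intro c1 c2 h1 h2
  obtain ⟨a1, a2⟩ := h c1 c2 (fun e => h1 e.symm) (fun e => h2 e.symm)
  exact ⟨by tauto, fun c b1 b2 e => a2 c b1 b2 e.symm⟩

theorem Iv.uniq {f : ℤ → Prop} {x0 x1 y0 y1 c : ℤ} (h : Iv f x0 x1) (g : Iv f y0 y1)
    (a1 : x0 ≤ c) (a2 : c < x1) (b1 : y0 ≤ c) (b2 : c < y1) : x0 = y0 ∧ x1 = y1 := by
  have e1 : ¬ (y0 ≤ x0 - 1) := fun e => h.2.2.1 (g.2.1 _ e (by omega))
  have e2 : ¬ (x0 ≤ y0 - 1) := fun e => g.2.2.1 (h.2.1 _ e (by omega))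
  have e3 : ¬ (x1 < y1) := fun e => h.2.2.2 (g.2.1 _ (by omega) e)
  have e4 : ¬ (y1 < x1) := fun e => g.2.2.2 (h.2.1 _ (by omega) e)
  omega

/-- index of the inner cell at a line, on side `t`. -/
def ci (t : Bool) (c : ℤ) : ℤ := match t with
  | true => c - 1
  | false => c

/-- index of the outer cell at a line, on side `t`. -/
def co (t : Bool) (c : ℤ) : ℤ := match t with
  | true => c
  | false => c - 1

@[simp] theorem ci_not (t : Bool) (c : ℤ) : ci (!t) c = co t c := by cases t <;> rfl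
@[simp] theorem co_not (t : Bool) (c : ℤ) : co (!t) c = ci t c := by cases t <;> rfl

/-- generic regions. -/
structure Gen (s : ℤ → ℤ → Prop) (M : ℤ) : Prop where
  reg : GReg s M
  gr : GenR s
  gc : GenR (tr s)

theorem pair_line {s : ℤ → ℤ → Prop} {M : ℤ} (hR : GReg s M) (gr : GenR s) (j : ℤ) :
    Pair (s (j - 1)) (s j) := by
  have key : ∀ c1 c2, c1 ≤ c2 → df s j c1 → df s j c2 → (s j c2 ↔ s j c1) := fun c1 c2 h a b =>
    run_const hR.nd (H := c2 + 1) (fun c d e => gr j c1 c c2 d (by omega) a b) c2 h (by omega)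
  intro c1 c2 h1 h2
  refine ⟨?_, fun c a b => gr j c1 c c2 a b h1 h2⟩
  rcases le_total c1 c2 with g | g
  · exact (key c1 c2 g h1 h2).symm
  · exact key c2 c1 g h2 h1

/-- a rectangle of the horizontal decomposition. -/
structure Rc (s : ℤ → ℤ → Prop) where
  x0 : ℤ
  x1 : ℤ
  a : ℤ
  b : ℤ
  ab : a < b
  iv : ∀ r, a ≤ r → r < b → Iv (s r) x0 x1
  lo : ¬ Iv (s (a - 1)) x0 x1
  hi : ¬ Iv (s b) x0 x1

section
variable {s : ℤ → ℤ → Prop} {M : ℤ}

def Wall (s : ℤ → ℤ → Prop) (t : Bool) (r c : ℤ) : Prop := s r (ci t c) ∧ ¬ s r (co t c)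

theorem Gen.pair (G : Gen s M) (v : Bool) (j : ℤ) : Pair (s (ci v j)) (s (co v j)) := by
  cases v
  · exact (pair_line G.reg G.gr j).symm
  · exact pair_line G.reg G.gr j

theorem Gen.wall (G : Gen s M) {t t' : Bool} {r1 r2 c : ℤ} (h1 : Wall s t r1 c)
    (h2 : Wall s t' r2 c) : t = t' ∧ ∀ r, r1 ≤ r → r ≤ r2 → Wall s t r c := by
  have p := pair_line G.reg.tr G.gc c
  have d : ∀ {t r}, Wall s t r c → ¬ (tr s c r ↔ tr s (c - 1) r) := by
    intro t r h
    cases t <;> simp only [Wall, ci, co, tr] at h ⊢ <;> tauto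
  obtain ⟨a1, a2⟩ := p r1 r2 (d h1) (d h2)
  refine ⟨?_, fun r b1 b2 => ?_⟩
  · cases t <;> cases t' <;> simp only [Wall, ci, co, tr] at * <;> tauto
  · have a3 := a2 r b1 b2
    have a4 := (p r1 r (d h1) a3).1
    cases t <;> simp only [Wall, ci, co, tr] at * <;> tauto

theorem Gen.wall_of (G : Gen s M) {t : Bool} {r1 r2 c : ℤ} (h1 : Wall s t r1 c)
    (h2 : ¬ (s r2 (c - 1) ↔ s r2 c)) : Wall s t r2 c := by
  have : Wall s t r2 c ∨ Wall s (!t) r2 c := by
    cases t <;> simp only [Wall, ci, co, Bool.not_true, Bool.not_false] <;> tauto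
  rcases this with g | g
  · exact g
  · have := (G.wall h1 g).1
    cases t <;> simp at this

namespace Rc

theorem ext' {p q : Rc s} (h0 : p.x0 = q.x0) (h1 : p.x1 = q.x1) (ha : p.a = q.a) (hb : p.b = q.b) :
    p = q := by
  cases p; cases q; simp_all

def col (t : Bool) (p : Rc s) : ℤ := match t with
  | true => p.x1
  | false => p.x0

def eg (v : Bool) (p : Rc s) : ℤ := match v with
  | true => p.b
  | false => p.a

theorem xx (p : Rc s) : p.x0 < p.x1 := (p.iv p.a le_rfl p.ab).1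

theorem uniq {p q : Rc s} {r c : ℤ} (a1 : p.a ≤ r) (a2 : r < p.b) (a3 : p.x0 ≤ c) (a4 : c < p.x1)
    (b1 : q.a ≤ r) (b2 : r < q.b) (b3 : q.x0 ≤ c) (b4 : c < q.x1) : p = q := by
  obtain ⟨e0, e1⟩ := (p.iv r a1 a2).uniq (q.iv r b1 b2) a3 a4 b3 b4
  have f1 : ¬ p.a < q.a := fun e => q.lo (e0 ▸ e1 ▸ p.iv _ (by omega) (by omega))
  have f2 : ¬ q.a < p.a := fun e => p.lo (e0 ▸ e1 ▸ q.iv _ (by omega) (by omega))
  have f3 : ¬ p.b < q.b := fun e => p.hi (e0 ▸ e1 ▸ q.iv _ (by omega) (by omega))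
  have f4 : ¬ q.b < p.b := fun e => q.hi (e0 ▸ e1 ▸ p.iv _ (by omega) (by omega))
  exact ext' e0 e1 (by omega) (by omega)

theorem wall (p : Rc s) (t : Bool) {r : ℤ} (h1 : p.a ≤ r) (h2 : r < p.b) : Wall s t r (p.col t) := by
  have := p.iv r h1 h2
  have x := p.xx
  cases t
  · exact ⟨this.2.1 _ le_rfl x, this.2.2.1⟩
  · exact ⟨this.2.1 _ (by simp only [ci, col]; omega) (by simp only [ci, col]; omega), this.2.2.2⟩

theorem row (p : Rc s) (v : Bool) : p.a ≤ ci v (p.eg v) ∧ ci v (p.eg v) < p.b := by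
  have := p.ab
  cases v <;> simp only [ci, eg] <;> omega

theorem nrow (p : Rc s) (v : Bool) : ¬ Iv (s (co v (p.eg v))) p.x0 p.x1 := by
  cases v
  exacts [p.lo, p.hi]

theorem uniq_col {p q : Rc s} {t : Bool} {r : ℤ} (h : p.col t = q.col t) (a1 : p.a ≤ r)
    (a2 : r < p.b) (b1 : q.a ≤ r) (b2 : r < q.b) : p = q := by
  have := p.xx
  have := q.xx
  cases t <;> simp only [col] at h
  · exact uniq (c := p.x0) a1 a2 (by omega) (by omega) b1 b2 (by omega) (by omega)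
  · exact uniq (c := p.x1 - 1) a1 a2 (by omega) (by omega) b1 b2 (by omega) (by omega)

theorem below {p q : Rc s} {t : Bool} (h : p.col t = q.col t) (g : p.a < q.a) : p.b ≤ q.a := by
  by_contra f
  have := uniq_col (r := q.a) h g.le (not_le.1 f) le_rfl q.ab
  subst this
  omega

end Rc

theorem GReg.exists_rc (hR : GReg s M) {r c : ℤ} (h : s r c) :
    ∃ p : Rc s, p.a ≤ r ∧ r < p.b ∧ p.x0 ≤ c ∧ c < p.x1 := by
  classical
  have hb := hR.bd _ _ h
  obtain ⟨x1, ⟨h1, h2⟩, hmin⟩ := Int.exists_least_of_bdd (P := fun z => c < z ∧ ¬ s r z)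
    ⟨c, fun z hz => hz.1.le⟩ ⟨M, hb.2.2.2, fun h => by have := hR.bd _ _ h; omega⟩
  obtain ⟨y, ⟨h3, h4⟩, hmax⟩ := Int.exists_greatest_of_bdd (P := fun z => z < c ∧ ¬ s r z)
    ⟨c, fun z hz => hz.1.le⟩ ⟨-M - 1, by omega, fun h => by have := hR.bd _ _ h; omega⟩
  have iv : Iv (s r) (y + 1) x1 := by
    refine ⟨by omega, fun z a1 a2 => ?_, by rwa [add_sub_cancel_right], h2⟩
    by_contra hc
    rcases lt_trichotomy z c with g | g | g
    · have := hmax z ⟨g, hc⟩; omega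
    · exact hc (g ▸ h)
    · have := hmin z ⟨g, hc⟩; omega
  have nb : ∀ z, Iv (s z) (y + 1) x1 → -M ≤ z ∧ z < M := fun z g => by
    have := hR.bd _ _ (g.2.1 c (by omega) h1); omega
  obtain ⟨b, ⟨b1, b2⟩, bmin⟩ := Int.exists_least_of_bdd (P := fun z => r < z ∧ ¬ Iv (s z) (y + 1) x1)
    ⟨r, fun z hz => hz.1.le⟩ ⟨M, hb.2.1, fun h => by have := nb _ h; omega⟩
  obtain ⟨a, ⟨a1, a2⟩, amax⟩ := Int.exists_greatest_of_bdd
    (P := fun z => z < r ∧ ¬ Iv (s z) (y + 1) x1)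
    ⟨r, fun z hz => hz.1.le⟩ ⟨-M - 1, by omega, fun h => by have := nb _ h; omega⟩
  refine ⟨⟨y + 1, x1, a + 1, b, by omega, fun z c1 c2 => ?_, by rwa [add_sub_cancel_right], b2⟩,
    by simp only; omega, b1, by simp only; omega, h1⟩
  by_contra hc
  rcases lt_trichotomy z r with g | g | g
  · have := amax z ⟨g, hc⟩; omega
  · exact hc (g ▸ iv)
  · have := bmin z ⟨g, hc⟩; omega

theorem GReg.rc_finite (hR : GReg s M) : Finite (Rc s) := by
  have bd : ∀ p : Rc s, (-M ≤ p.x0 ∧ p.x0 ≤ M) ∧ (-M ≤ p.x1 ∧ p.x1 ≤ M) ∧ (-M ≤ p.a ∧ p.a ≤ M) ∧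
      (-M ≤ p.b ∧ p.b ≤ M) := by
    intro p
    have := p.ab
    have := p.xx
    have := hR.bd _ _ ((p.iv p.a le_rfl p.ab).2.1 p.x0 le_rfl p.xx)
    have := hR.bd _ _ ((p.iv (p.b - 1) (by omega) (by omega)).2.1 (p.x1 - 1) (by omega) (by omega))
    omega
  refine Finite.of_injective (β := Set.Icc (-M) M × Set.Icc (-M) M × Set.Icc (-M) M × Set.Icc (-M) M)
    (fun p => (⟨p.x0, (bd p).1⟩, ⟨p.x1, (bd p).2.1⟩, ⟨p.a, (bd p).2.2.1⟩, ⟨p.b, (bd p).2.2.2⟩)) ?_
  intro p q h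
  simp only [Prod.mk.injEq, Subtype.mk.injEq] at h
  exact Rc.ext' h.1 h.2.1 h.2.2.1 h.2.2.2

theorem GReg.rc_wall (hR : GReg s M) {t : Bool} {r c : ℤ} (h : Wall s t r c) :
    ∃ p : Rc s, p.col t = c ∧ p.a ≤ r ∧ r < p.b := by
  obtain ⟨p, a1, a2, a3, a4⟩ := hR.exists_rc h.1
  refine ⟨p, ?_, a1, a2⟩
  have := fun a b => h.2 ((p.iv r a1 a2).2.1 _ a b)
  cases t <;> simp only [ci, co, Rc.col] at * <;> by_contra f <;> exact this (by omega) (by omega)

theorem Gen.cover (G : Gen s M) {p q : Rc s} {t : Bool} {r : ℤ} (h : q.col t = p.col t)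
    (h1 : p.a ≤ r) (h2 : r < q.b) : ∃ m : Rc s, m.col t = p.col t ∧ m.a ≤ r ∧ r < m.b :=
  G.reg.rc_wall ((G.wall (p.wall t le_rfl p.ab)
    (h ▸ q.wall t (r := q.b - 1) (by have := q.ab; omega) (by omega))).2 r h1 (by omega))

/-- the rectangles along the walls on side `t`, upwards. -/
def Gen.ln (G : Gen s M) (t : Bool) : Ln (Rc s) where
  col := Rc.col t
  tm := Rc.a
  wd p := p.x1 - p.x0
  inj p q h1 h2 := Rc.uniq_col h1 le_rfl p.ab h2.ge (h2 ▸ q.ab)
  tie p q h1 h2 h3 := by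
    have e : p.x0 = q.x0 ∧ p.x1 = q.x1 := by cases t <;> simp only [Rc.col] at h1 <;> omega
    have b1 := Rc.below h1 h2
    have pab := p.ab
    have qab := q.ab
    have b2 : p.b ≠ q.a := fun f => p.hi (by rw [f, e.1, e.2]; exact q.iv _ le_rfl qab)
    obtain ⟨m, m1, m2, m3⟩ := G.cover (r := p.b) h1.symm pab.le (by omega)
    have m4 : p.b ≤ m.a := by
      by_contra f
      have := Rc.uniq_col (r := p.b - 1) m1 (by omega) (by omega) (by omega) (by omega)
      subst this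
      omega
    refine ⟨m, m1, by omega, by omega, ?_⟩
    have w := (G.wall (p.wall (!t) le_rfl pab) (show Wall s (!t) q.a (p.col (!t)) by
      have := q.wall (!t) le_rfl qab
      cases t <;> simp only [Rc.col, Bool.not_true, Bool.not_false, e.1, e.2] at this ⊢ <;>
        exact this)).2 p.b pab.le b1
    have iv := m.iv p.b m2 m3
    have f1 := fun a b => w.2 (iv.2.1 _ a b)
    have f2 : ¬ (m.x0 = p.x0 ∧ m.x1 = p.x1) := fun f => p.hi (f.1 ▸ f.2 ▸ iv)
    have := p.xx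
    have := m.xx
    cases t <;> simp only [Rc.col, co, Bool.not_true, Bool.not_false] at m1 f1 <;> by_contra f <;>
      exact f1 (by omega) (by omega)

def Gen.F (G : Gen s M) (v t : Bool) : Ln (Rc s) := match v with
  | true => G.ln t
  | false => (G.ln t).rev

theorem Gen.col_eq (G : Gen s M) (v t : Bool) : (G.F v t).col = Rc.col t := by cases v <;> rfl

theorem Gen.wd_eq (G : Gen s M) (v t : Bool) : (G.F v t).wd = fun p => p.x1 - p.x0 := by
  cases v <;> rfl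

theorem Gen.af (G : Gen s M) {v t : Bool} {p q : Rc s} : (G.F v t).Af p q ↔
    q.col t = p.col t ∧ (v = true → p.b ≤ q.a) ∧ (v = false → q.b ≤ p.a) := by
  have := p.ab
  have := q.ab
  cases v
  · simp only [F, Ln.af_rev]
    exact ⟨fun h => ⟨h.1.symm, by simp, fun _ => Rc.below h.1.symm h.2⟩,
      fun h => ⟨h.1.symm, by have := h.2.2 trivial; show q.a < p.a; omega⟩⟩
  · exact ⟨fun h => ⟨h.1, fun _ => Rc.below h.1.symm h.2, by simp⟩,
      fun h => ⟨h.1, by have := h.2.1 rfl; show p.a < q.a; omega⟩⟩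

/-- a rectangle on the same wall containing the row just beyond the end is the successor. -/
theorem Gen.succ (G : Gen s M) {v t : Bool} {p q : Rc s} (h : q.col t = p.col t)
    (h1 : q.a ≤ co v (p.eg v)) (h2 : co v (p.eg v) < q.b) :
    (G.F v t).Af p q ∧ q.eg (!v) = p.eg v ∧ ∀ m, (G.F v t).Af p m → ¬ (G.F v t).Af m q := by
  have pab := p.ab
  have qab := q.ab
  have e : q.eg (!v) = p.eg v := by
    by_contra f
    have r := p.row v
    have := Rc.uniq_col (r := ci v (p.eg v)) h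
      (by cases v <;> simp only [ci, co, Rc.eg, Bool.not_true, Bool.not_false] at * <;> omega)
      (by cases v <;> simp only [ci, co, Rc.eg, Bool.not_true, Bool.not_false] at * <;> omega) r.1 r.2
    subst this
    cases v <;> simp only [ci, co, Rc.eg] at * <;> omega
  refine ⟨G.af.2 ⟨h, ?_, ?_⟩, e, fun m m1 m2 => ?_⟩
  · rintro rfl; exact e.ge
  · rintro rfl; exact e.le
  · rw [G.af] at m1 m2
    have := m.ab
    cases v <;> simp only [Rc.eg, Bool.not_true, Bool.not_false, forall_true_left] at * <;> omega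

theorem Gen.exists_succ (G : Gen s M) {v t : Bool} {p q : Rc s} (h : (G.F v t).Af p q) :
    ∃ m : Rc s, m.col t = p.col t ∧ m.a ≤ co v (p.eg v) ∧ co v (p.eg v) < m.b := by
  rw [G.af] at h
  have pab := p.ab
  have qab := q.ab
  cases v
  · have := h.2.2 rfl
    obtain ⟨m, m1, m2⟩ := G.cover (r := p.a - 1) h.1.symm (by omega) (by omega)
    exact ⟨m, m1.trans h.1, m2⟩
  · have := h.2.1 rfl
    exact G.cover (r := p.b) h.1 (by omega) (by omega)

theorem Gen.op_iff (G : Gen s M) {v t : Bool} {p : Rc s} :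
    (G.F v t).Op p ↔ s (co v (p.eg v)) (co (!t) (p.col (!t))) := by
  have px := p.xx
  constructor
  · rintro ⟨q, q1, q2, q3⟩
    obtain ⟨m, m1, m2, m3⟩ := G.exists_succ q1
    obtain ⟨a1, _, a3⟩ := G.succ m1 m2 m3
    have : m = q := by
      rcases Ln.tri (a1.1.trans q1.1.symm) with g | g | g
      · exact absurd g (q3 m a1)
      · exact g
      · exact absurd g (a3 q q1)
    subst this
    rw [G.wd_eq] at q2
    refine (m.iv _ m2 m3).2.1 _ ?_ ?_ <;>
      cases t <;> simp only [Rc.col, co, Bool.not_true, Bool.not_false] at * <;> omega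
  · intro h
    have r := p.row v
    have iv := p.iv _ r.1 r.2
    have pr := G.pair v (p.eg v)
    have w := (p.wall (!t) r.1 r.2).2
    have d : ¬ (s (co v (p.eg v)) (co (!t) (p.col (!t))) ↔ s (ci v (p.eg v)) (co (!t) (p.col (!t)))) :=
      fun e => w (e.1 h)
    have keep : ∀ c, s (ci v (p.eg v)) c → s (co v (p.eg v)) c := by
      intro c g
      by_contra f
      exact f ((pr _ c d (fun e => f (e.2 g))).1.1 h)
    have wp := p.wall t r.1 r.2
    have w2 : Wall s t (co v (p.eg v)) (p.col t) := by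
      refine ⟨keep _ wp.1, fun g => ?_⟩
      have d2 : ¬ (s (co v (p.eg v)) (co t (p.col t)) ↔ s (ci v (p.eg v)) (co t (p.col t))) :=
        fun e => wp.2 (e.1 g)
      have k := iv.2.1 p.x0 le_rfl px
      cases t
      · exact (pr _ _ d2 d).2 p.x0 (by simp [co, Rc.col]) (by simp [co, Rc.col]; omega)
          ⟨fun _ => k, fun _ => keep _ k⟩
      · exact (pr _ _ d d2).2 p.x0 (by simp [co, Rc.col]) (by simp [co, Rc.col]; omega)
          ⟨fun _ => k, fun _ => keep _ k⟩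
    obtain ⟨q, q1, q2, q3⟩ := G.reg.rc_wall w2
    obtain ⟨a1, _, a3⟩ := G.succ q1 q2 q3
    refine ⟨q, a1, ?_, a3⟩
    rw [G.wd_eq]
    have qi := q.iv _ q2 q3
    have qx := q.xx
    by_contra f
    cases t <;> simp only [Rc.col, co, Bool.not_true, Bool.not_false] at q1 h f
    · rcases (show q.x1 < p.x1 ∨ q.x1 = p.x1 by omega) with e | e
      · exact qi.2.2.2 (keep _ (iv.2.1 _ (by omega) e))
      · exact qi.2.2.2 (e ▸ h)
    · rcases (show p.x0 < q.x0 ∨ q.x0 = p.x0 by omega) with e | e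
      · exact qi.2.2.1 (keep _ (iv.2.1 _ (by omega) (by omega)))
      · exact qi.2.2.1 (e ▸ h)

def Gen.fam (G : Gen s M) : Fam (Rc s) where
  F := G.F
  wd p := p.x1 - p.x0
  hwd := G.wd_eq
  hrev v t := by
    cases v
    · exact (Ln.rev_rev _).symm
    · rfl
  ends v t p q h1 h2 := by
    obtain ⟨m, m1, m2, m3⟩ := G.exists_succ h2
    exact (m1 ▸ m.wall (!t) m2 m3).2 (G.op_iff.1 h1)

end

end Pool.Agent.Lib.MP_8d6beb_co
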