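import Pool.Agent.Lib.MP_8d6beb_co.Rects
import Pool.Agent.Lib.MP_8d6beb_co.Geometry2

namespace Pool.Agent.Lib.MP_8d6beb_co

open Finset

section
variable {s : ℤ → ℤ → Prop} {M : ℤ}

/-- geometric corner of a rectangle, as (row line, column line). -/
def Rc.pt (v t : Bool) (p : Rc s) : ℤ × ℤ := (p.eg v, p.col t)

theorem Gen.cn_end (G : Gen s M) {v t : Bool} {p : Rc s} (h : ∀ m, ¬ (G.F v t).Af p m) :
    Cn s (p.eg v) (p.col t) := by
  have r := p.row v
  have w := p.wall t r.1 r.2
  have n : s (co v (p.eg v)) (p.col t - 1) ↔ s (co v (p.eg v)) (p.col t) := by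
    by_contra f
    obtain ⟨q, q1, q2, q3⟩ := G.reg.rc_wall (G.wall_of w f)
    exact h q (G.succ q1 q2 q3).1
  cases v <;> cases t <;> simp only [Cn, df, Wall, ci, co] at * <;> tauto

theorem Gen.strip (G : Gen s M) {t : Bool} {p m : Rc s} (h : m.col t = p.col t)
    (hw : p.x1 - p.x0 ≤ m.x1 - m.x0) {r c : ℤ} (h1 : m.a ≤ r) (h2 : r < m.b) (h3 : p.x0 ≤ c)
    (h4 : c < p.x1) : s r c := by
  refine (m.iv r h1 h2).2.1 c ?_ ?_ <;> cases t <;> simp only [Rc.col] at h <;> omega

theorem Gen.between (G : Gen s M) {v t : Bool} {p m : Rc s} (h : m.col t = p.col t) {r : ℤ}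
    (h1 : m.a ≤ r) (h2 : r < m.b) (h3 : v = true → p.a ≤ r) (h4 : v = false → r < p.b) :
    m = p ∨ (G.F v t).Af p m := by
  rcases Ln.tri (L := G.F v t) (a := m) (b := p) (by rw [G.col_eq]; exact h) with g | g | g
  · rw [G.af] at g
    cases v <;> simp only [forall_true_left] at * <;> omega
  · exact Or.inl g
  · exact Or.inr g

theorem Gen.see (G : Gen s M) {v t : Bool} {p : Rc s} {x : ℤ × ℤ}
    (h : (∃ b, (G.F v t).Nx p b ∧ x = Rc.pt (!v) (!t) b) ∨
      ((∀ b, ¬ (G.F v t).Nx p b) ∧ ∃ l : Rc s, l.col t = p.col t ∧ x = Rc.pt v t l ∧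
        ∀ m, ¬ (G.F v t).Af l m)) :
    p.x0 ≤ x.2 ∧ x.2 ≤ p.x1 ∧ ∀ r c, min p.a x.1 ≤ r → r < max p.b x.1 → p.x0 ≤ c → c < p.x1 →
      s r c := by
  haveI := G.reg.rc_finite
  have px := p.xx
  have pab := p.ab
  rcases h with ⟨b, b1, rfl⟩ | ⟨n, l, l1, rfl, l3⟩
  · obtain ⟨a1, a2, a3⟩ := b1
    have a4 := G.af.1 a1
    have bx := b.xx
    have bab := b.ab
    rw [G.wd_eq] at a2 a3
    simp only [Rc.pt]
    refine ⟨?_, ?_, fun r c r1 r2 c1 c2 => ?_⟩
    · cases t <;> simp only [Rc.col, Bool.not_true, Bool.not_false] at * <;> omega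
    · cases t <;> simp only [Rc.col, Bool.not_true, Bool.not_false] at * <;> omega
    · have rr : (v = true → p.a ≤ r ∧ r < b.a) ∧ (v = false → b.b ≤ r ∧ r < p.b) := by
        cases v <;> simp only [Rc.eg, Bool.not_true, Bool.not_false, forall_true_left] at * <;>
          refine ⟨?_, ?_⟩ <;> first | omega | simp
      have : ∃ m : Rc s, m.col t = p.col t ∧ m.a ≤ r ∧ r < m.b := by
        cases v
        · obtain ⟨m, m1, m2⟩ := G.cover (r := r) a4.1.symm (by have := rr.2 rfl; omega) (rr.2 rfl).2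
          exact ⟨m, m1.trans a4.1, m2⟩
        · exact G.cover a4.1 (rr.1 rfl).1 (by have := rr.1 rfl; omega)
      obtain ⟨m, m1, m2, m3⟩ := this
      refine G.strip m1 ?_ m2 m3 c1 c2
      rcases G.between m1 m2 m3 (fun e => (rr.1 e).1) (fun e => (rr.2 e).2) with g | g
      · rw [g]
      · rcases G.between (v := !v) (p := b) (m1.trans a4.1.symm) m2 m3
          (fun e => by have := rr.2 (by simpa using e); omega)
          (fun e => by have := rr.1 (by simpa using e); omega) with f | f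
        · subst f
          cases v
          · have := rr.2 rfl; omega
          · have := rr.1 rfl; omega
        · exact a3 m g (Ln.af_rev.1 (G.fam.hrev v t ▸ f))
  · simp only [Rc.pt]
    have lab := l.ab
    have pl : l = p ∨ (G.F v t).Af p l := by
      rcases Ln.tri (L := G.F v t) (a := l) (b := p) (by rw [G.col_eq]; exact l1) with g | g | g
      · exact absurd g (l3 p)
      · exact Or.inl g
      · exact Or.inr g
    refine ⟨?_, ?_, fun r c r1 r2 c1 c2 => ?_⟩
    · rw [l1]; cases t <;> simp only [Rc.col] <;> omega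
    · rw [l1]; cases t <;> simp only [Rc.col] <;> omega
    · have rr : (v = true → p.a ≤ r ∧ r < l.b) ∧ (v = false → l.a ≤ r ∧ r < p.b) := by
        rcases pl with g | g
        · subst g
          cases v <;> simp only [Rc.eg] at * <;> refine ⟨?_, ?_⟩ <;> first | omega | simp
        · rw [G.af] at g
          cases v <;> simp only [Rc.eg, forall_true_left] at * <;>
            refine ⟨?_, ?_⟩ <;> first | omega | simp
      have : ∃ m : Rc s, m.col t = p.col t ∧ m.a ≤ r ∧ r < m.b := by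
        cases v
        · obtain ⟨m, m1, m2⟩ := G.cover (r := r) l1.symm (rr.2 rfl).1 (rr.2 rfl).2
          exact ⟨m, m1.trans l1, m2⟩
        · exact G.cover l1 (rr.1 rfl).1 (rr.1 rfl).2
      obtain ⟨m, m1, m2, m3⟩ := this
      refine G.strip m1 ?_ m2 m3 c1 c2
      rcases G.between m1 m2 m3 (fun e => (rr.1 e).1) (fun e => (rr.2 e).2) with g | g
      · rw [g]
      · by_contra f
        obtain ⟨d, d1, _⟩ := Ln.exists_nx g (by rw [G.wd_eq]; exact not_le.1 f)
        exact n d d1

theorem Gen.closed_iff (G : Gen s M) {v : Bool} {p : Rc s} : (∀ t, ¬ (G.F v t).Op p) ↔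
    ∃ d, p.x0 ≤ d ∧ d < p.x1 ∧ ¬ s (co v (p.eg v)) d := by
  have r := p.row v
  have iv := p.iv _ r.1 r.2
  constructor
  · intro h
    have a1 := fun e => h true (G.op_iff.2 e)
    have a2 := fun e => h false (G.op_iff.2 e)
    by_contra f
    push Not at f
    exact p.nrow v ⟨p.xx, f, a1, a2⟩
  · rintro ⟨d, d1, d2, d3⟩ t h
    rw [G.op_iff] at h
    have w := (p.wall (!t) r.1 r.2).2
    exact d3 ((G.pair v (p.eg v) _ d (fun e => w (e.1 h)) (fun e => d3 (e.2 (iv.2.1 d d1 d2)))).1.1 h)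

/-- at a closing line, every change is from inside to outside, within the rectangle. -/
theorem Gen.closed_ch (G : Gen s M) {v : Bool} {p : Rc s} {d : ℤ} (d1 : p.x0 ≤ d) (d2 : d < p.x1)
    (d3 : ¬ s (co v (p.eg v)) d) {c : ℤ}
    (h : ¬ (s (co v (p.eg v)) c ↔ s (ci v (p.eg v)) c)) :
    ¬ s (co v (p.eg v)) c ∧ p.x0 ≤ c ∧ c < p.x1 := by
  have r := p.row v
  have iv := p.iv _ r.1 r.2
  have pr := G.pair v (p.eg v)
  have hd : ¬ (s (co v (p.eg v)) d ↔ s (ci v (p.eg v)) d) := fun e => d3 (e.2 (iv.2.1 d d1 d2))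
  have ty : ∀ c, ¬ (s (co v (p.eg v)) c ↔ s (ci v (p.eg v)) c) → ¬ s (co v (p.eg v)) c :=
    fun c g e => d3 ((pr c d g hd).1.1 e)
  refine ⟨ty c h, ?_, ?_⟩
  · by_contra f
    have k := (pr c d h hd).2 (p.x0 - 1) (by omega) (by omega)
    exact k ⟨fun e => absurd e (ty _ k), fun e => absurd e iv.2.2.1⟩
  · by_contra f
    have k := (pr d c hd h).2 p.x1 (by omega) (by omega)
    exact k ⟨fun e => absurd e (ty _ k), fun e => absurd e iv.2.2.2⟩

theorem Gen.closed_same (G : Gen s M) {v : Bool} {p m : Rc s} {d : ℤ} (d1 : p.x0 ≤ d) (d2 : d < p.x1)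
    (d3 : ¬ s (co v (p.eg v)) d) (h : m.eg v = p.eg v) : m = p := by
  have r := p.row v
  have rm := m.row v
  have nm := m.nrow v
  rw [h] at rm nm
  have iv := m.iv _ rm.1 rm.2
  have out : ∀ c, ¬ s (ci v (p.eg v)) c → ¬ s (co v (p.eg v)) c := by
    intro c g e
    exact (G.closed_ch d1 d2 d3 (c := c) (fun k => g (k.1 e))).1 e
  by_contra f
  refine nm ⟨m.xx, fun c c1 c2 => ?_, out _ iv.2.2.1, out _ iv.2.2.2⟩
  by_contra g
  have k := G.closed_ch d1 d2 d3 (c := c) (fun e => g (e.2 (iv.2.1 c c1 c2)))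
  exact f (Rc.uniq rm.1 rm.2 c1 c2 r.1 r.2 k.2.1 k.2.2)

theorem Gen.closed_nx (G : Gen s M) {v : Bool} {p m : Rc s} {d : ℤ} (d1 : p.x0 ≤ d) (d2 : d < p.x1)
    (d3 : ¬ s (co v (p.eg v)) d) : m.eg (!v) = p.eg v ↔ ∃ t, (G.F v t).Nx p m := by
  have r := p.row v
  have ip := p.iv _ r.1 r.2
  have px := p.xx
  have adj : ∀ t (m : Rc s), m.col t = p.col t → m.a ≤ co v (p.eg v) → co v (p.eg v) < m.b →
      (G.F v t).Nx p m := by
    intro t m m1 m2 m3
    obtain ⟨a1, _, a3⟩ := G.succ (v := v) m1 m2 m3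
    refine ⟨a1, ?_, fun k k1 k2 => absurd k2 (a3 k k1)⟩
    rw [G.wd_eq]
    by_contra f
    exact d3 (G.strip m1 (not_lt.1 f) m2 m3 d1 d2)
  constructor
  · intro h
    have rm := m.row (!v)
    have nm := m.nrow (!v)
    rw [h, ci_not] at rm
    rw [h, co_not] at nm
    have iv := m.iv _ rm.1 rm.2
    have mx := m.xx
    have keep : ∀ c, s (co v (p.eg v)) c → s (ci v (p.eg v)) c := by
      intro c e
      by_contra g
      exact (G.closed_ch d1 d2 d3 (c := c) (fun k => g (k.1 e))).1 e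
    have ch : ∀ c, s (ci v (p.eg v)) c → ¬ s (co v (p.eg v)) c →
        ¬ (s (co v (p.eg v)) c ↔ s (ci v (p.eg v)) c) := fun c a b e => b (e.2 a)
    have both : ¬ (s (ci v (p.eg v)) (m.x0 - 1) ∧ s (ci v (p.eg v)) m.x1) := by
      rintro ⟨a, b⟩
      have k := iv.2.1 m.x0 le_rfl mx
      exact (G.pair v (p.eg v) _ _ (ch _ a iv.2.2.1) (ch _ b iv.2.2.2)).2 m.x0 (by omega) (by omega)
        ⟨fun _ => keep _ k, fun _ => k⟩
    by_cases g : s (ci v (p.eg v)) m.x1
    · have k := G.closed_ch d1 d2 d3 (ch _ g iv.2.2.2)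
      refine ⟨false, adj false m ?_ rm.1 rm.2⟩
      show m.x0 = p.x0
      rcases lt_trichotomy m.x0 p.x0 with e | e | e
      · exact absurd (keep _ (iv.2.1 _ (by omega) (by omega))) ip.2.2.1
      · exact e
      · exact absurd ⟨ip.2.1 _ (by omega) (by omega), g⟩ both
    · have g2 : s (ci v (p.eg v)) (m.x0 - 1) := by
        by_contra f
        exact nm ⟨mx, fun c c1 c2 => keep c (iv.2.1 c c1 c2), f, g⟩
      have k := G.closed_ch d1 d2 d3 (ch _ g2 iv.2.2.1)
      refine ⟨true, adj true m ?_ rm.1 rm.2⟩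
      show m.x1 = p.x1
      rcases lt_trichotomy m.x1 p.x1 with e | e | e
      · exact absurd (ip.2.1 _ (by omega) e) g
      · exact e
      · exact absurd (keep _ (iv.2.1 _ (by omega) e)) ip.2.2.2
  · rintro ⟨t, h⟩
    obtain ⟨k, k1, k2, k3⟩ := G.exists_succ h.1
    rw [h.uniq (adj t k k1 k2 k3)]
    exact (G.succ k1 k2 k3).2.1

theorem Gen.line (G : Gen s M) (j : ℤ) : (∀ v (m : Rc s), m.eg v ≠ j) ∨
    ∃ (v : Bool) (p : Rc s) (d : ℤ), p.eg v = j ∧ p.x0 ≤ d ∧ d < p.x1 ∧ ¬ s (co v (p.eg v)) d := by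
  by_cases h : ∃ v d, s (ci v j) d ∧ ¬ s (co v j) d
  · obtain ⟨v, d, h1, h2⟩ := h
    obtain ⟨p, p1, p2, p3, p4⟩ := G.reg.exists_rc h1
    have e : p.eg v = j := by
      by_contra f
      refine h2 ((p.iv _ ?_ ?_).2.1 d p3 p4) <;> cases v <;> simp only [ci, co, Rc.eg] at * <;> omega
    exact Or.inr ⟨v, p, d, e, p3, p4, e ▸ h2⟩
  · refine Or.inl (fun v m e => ?_)
    push Not at h
    have r := m.row v
    have iv := m.iv _ r.1 r.2
    apply m.nrow v
    rw [e] at iv ⊢
    have b := h (!v)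
    rw [ci_not, co_not] at b
    exact ⟨iv.1, fun c c1 c2 => h v c (iv.2.1 c c1 c2), fun g => iv.2.2.1 (b _ g),
      fun g => iv.2.2.2 (b _ g)⟩

theorem Gen.colour (G : Gen s M) [Fintype (Rc s)] (W : Rc s → ZMod 2)
    (hW : ∀ v p, (∀ t, ¬ (G.F v t).Op p) → W p + (G.F v false).wn W p + (G.F v true).wn W p = 0) :
    ∃ X : ℤ → ℤ → ZMod 2, (∀ j c, ¬ s j c → ¬ s j (c - 1) → X j c = X j (c - 1)) ∧
      (∀ j c, ¬ s j c → ¬ s (j - 1) c → X j c = X (j - 1) c) ∧
      ∀ (p : Rc s) r, p.a ≤ r → r < p.b → X r (p.x0 - 1) = X r p.x1 + W p := by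
  classical
  have two : ∀ x : ZMod 2, x + x = 0 := by decide
  refine ⟨fun r c => ∑ m : Rc s, if m.a ≤ r ∧ r < m.b ∧ c < m.x0 then W m else 0, ?_, ?_, ?_⟩
  · intro j c h1 _
    refine sum_congr rfl (fun m _ => if_congr ⟨fun g => by omega, fun g => ⟨g.1, g.2.1, ?_⟩⟩ rfl rfl)
    by_contra f
    exact h1 ((m.iv j g.1 g.2.1).2.1 c (by omega) (by have := m.xx; omega))
  · intro j c h1 h2
    have key : ∀ v, ¬ s (ci v j) c := by intro v; cases v; exacts [h1, h2]
    have e : ∑ m : Rc s, ((if m.eg false = j ∧ c < m.x0 then W m else 0) +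
        (if m.eg true = j ∧ c < m.x0 then W m else 0)) = 0 := by
      rcases G.line j with g | ⟨v, p, d, g, d1, d2, d3⟩
      · exact sum_eq_zero (fun m _ => by simp [g])
      · have cl := hW v p (G.closed_iff.2 ⟨d, d1, d2, d3⟩)
        have r := p.row v
        have nc : c < p.x0 ∨ p.x1 ≤ c := by
          by_contra f
          exact key v (g ▸ (p.iv _ r.1 r.2).2.1 c (by omega) (by omega))
        have tm : ∀ m : Rc s, ((if m.eg (!v) = j ∧ c < m.x0 then W m else 0) +
            (if m.eg v = j ∧ c < m.x0 then W m else 0)) = if c < p.x0 then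
            ((if m = p then W m else 0) + (if (G.F v false).Nx p m then W m else 0) +
              if (G.F v true).Nx p m then W m else 0) else 0 := by
          intro m
          have a1 : m.eg v = j ↔ m = p := ⟨fun e => G.closed_same d1 d2 d3 (e.trans g.symm),
            fun e => e ▸ g⟩
          have a2 : m.eg (!v) = j ↔ (G.F v false).Nx p m ∨ (G.F v true).Nx p m := by
            rw [← g, G.closed_nx d1 d2 d3, Bool.exists_bool]
          have a3 : ∀ t, (G.F v t).Nx p m → (c < m.x0 ↔ c < p.x0) ∧ m.col (!t) ≠ p.col (!t) ∧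
              m.col t = p.col t := by
            intro t n
            have b1 := (G.af.1 n.1).1
            have b2 := n.2.1
            have := m.xx
            rw [G.wd_eq] at b2
            cases t <;> simp only [Rc.col, Bool.not_true, Bool.not_false] at * <;> omega
          simp only [a1, a2]
          by_cases n1 : (G.F v false).Nx p m
          · have b := a3 _ n1
            have n2 : ¬ (G.F v true).Nx p m := fun n => b.2.1 (a3 _ n).2.2
            have n3 : m ≠ p := fun e => b.2.1 (e ▸ rfl)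
            simp [n1, n2, n3, b.1]
          · by_cases n2 : (G.F v true).Nx p m
            · have b := a3 _ n2
              have n3 : m ≠ p := fun e => b.2.1 (e ▸ rfl)
              simp [n1, n2, n3, b.1]
            · by_cases n3 : m = p
              · subst n3; simp [n1, n2]
              · simp [n1, n2, n3]
        have e2 : ∑ m : Rc s, ((if m.eg (!v) = j ∧ c < m.x0 then W m else 0) +
            (if m.eg v = j ∧ c < m.x0 then W m else 0)) = 0 := by
          rw [sum_congr rfl (fun m _ => tm m)]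
          split_ifs
          · rw [sum_add_distrib, sum_add_distrib, sum_ite_eq', if_pos (mem_univ _), ← sum_filter,
              ← sum_filter]
            exact cl
          · simp
        cases v
        · exact (sum_congr rfl (fun m _ => add_comm _ _)).trans e2
        · exact e2
    simp only
    refine Eq.trans ?_ ((congrArg (_ + ·) e).trans (add_zero _))
    rw [← sum_add_distrib]
    refine sum_congr rfl (fun m _ => ?_)
    have := m.ab
    simp only [Rc.eg]
    split_ifs <;> first | omega | simp [two]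
  · intro p r h1 h2
    simp only
    rw [← sum_ite_eq' univ p W |>.trans (if_pos (mem_univ _)), ← sum_add_distrib]
    refine sum_congr rfl (fun m _ => ?_)
    have px := p.xx
    have mx := m.xx
    by_cases e : m = p
    · subst e
      rw [if_pos ⟨h1, h2, by omega⟩, if_neg (by omega), if_pos rfl, zero_add]
    · rw [if_neg e, add_zero]
      refine if_congr ⟨fun g => ⟨g.1, g.2.1, ?_⟩, fun g => by omega⟩ rfl rfl
      by_contra f
      rcases (not_lt.1 f).eq_or_lt with k | k
      · exact (p.iv r h1 h2).2.2.2 (k ▸ (m.iv r g.1 g.2.1).2.1 _ le_rfl mx)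
      · exact e (Rc.uniq g.1 g.2.1 le_rfl mx h1 h2 (by omega) k)

end

end Pool.Agent.Lib.MP_8d6beb_co
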